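import Mathlib

namespace Pool.Agent.Lib.MP_6cad4c_al

theorem qn_exp_ge {a : ℝ} (ha : 0 ≤ a) :
    1 + a + a ^ 2 / 2 + a ^ 3 / 6 + a ^ 4 / 24 + a ^ 5 / 120 + a ^ 6 / 720 + a ^ 7 / 5040 +
      a ^ 8 / 40320 + a ^ 9 / 362880 ≤ Real.exp a := by
  have h := Real.sum_le_exp_of_nonneg ha 10
  simp only [Finset.sum_range_succ, Finset.sum_range_zero, Nat.factorial] at h
  norm_num at h
  linarith

theorem qn_exp_le {a c m : ℝ} (h : a ≤ m) (ha : 0 ≤ a) (hc0 : 0 ≤ c)
    (hc : 1 ≤ c * (1 + a + a ^ 2 / 2 + a ^ 3 / 6 + a ^ 4 / 24 + a ^ 5 / 120 + a ^ 6 / 720 +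
      a ^ 7 / 5040 + a ^ 8 / 40320 + a ^ 9 / 362880)) : Real.exp (-m) ≤ c := by
  have h1 := qn_exp_ge ha
  have h2 : Real.exp a ≤ Real.exp m := Real.exp_le_exp.2 h
  have h3 : 1 ≤ c * Real.exp m := hc.trans (mul_le_mul_of_nonneg_left (h1.trans h2) hc0)
  rw [Real.exp_neg, inv_eq_one_div, div_le_iff₀ (Real.exp_pos m)]
  exact h3

theorem qn_pow_exp (k : ℕ) (hk : 0 < k) {c v : ℝ} (hc : 0 < c) (hv : 0 ≤ v) :
    v ^ k * Real.exp (-(c * v)) ≤ (k / (c * (2718 / 1000))) ^ k := by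
  have hk' : (0 : ℝ) < k := by exact_mod_cast hk
  set x := c * v / k with hx
  have h1 : x ≤ Real.exp x / (2718 / 1000) := by
    have h2 := Real.add_one_le_exp (x - 1)
    have h3 : Real.exp (x - 1) = Real.exp x / Real.exp 1 := Real.exp_sub _ _
    have h4 : Real.exp x / Real.exp 1 ≤ Real.exp x / (2718 / 1000) := by
      apply div_le_div_of_nonneg_left (Real.exp_pos _).le (by norm_num)
      linarith [Real.exp_one_gt_d9]
    linarith
  have h5 : v ≤ k / (c * (2718 / 1000)) * Real.exp x := by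
    have : v = k / c * x := by rw [hx]; field_simp
    rw [this]
    calc k / c * x ≤ k / c * (Real.exp x / (2718 / 1000)) := by gcongr
      _ = _ := by field_simp
  have h6 : v ^ k ≤ (k / (c * (2718 / 1000))) ^ k * Real.exp (c * v) := by
    calc v ^ k ≤ (k / (c * (2718 / 1000)) * Real.exp x) ^ k := by gcongr
      _ = _ := by
        rw [mul_pow, ← Real.exp_nat_mul]
        congr 2
        rw [hx]; field_simp
  rw [Real.exp_neg, ← div_eq_mul_inv, div_le_iff₀ (Real.exp_pos _)]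
  exact h6

theorem qn_delta {m : ℝ} (hm : 29 / 10 ≤ m) :
    Real.exp (-(913 / 1000 * m)) / (913 / 1000) - 11 / 20 * (m * Real.exp (-m)) ≤ 1 / 100 := by
  have hw := Real.exp_pos (-m)
  rcases le_total m (26 / 5) with h | h
  · have h1 : Real.exp (-(913 / 1000 * m)) = Real.exp (-m) * Real.exp (87 / 1000 * m) := by
      rw [← Real.exp_add]; congr 1; ring
    have h2 : Real.exp (87 / 1000 * m) ≤ 1 / (1 - 87 / 1000 * m) :=
      Real.exp_bound_div_one_sub_of_interval (by positivity) (by linarith)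
    have h3 : 1 / (1 - 87 / 1000 * m) ≤ 913 / 1000 * (11 / 20 * m) := by
      rw [div_le_iff₀ (by linarith)]
      nlinarith
    have h4 : Real.exp (-(913 / 1000 * m)) / (913 / 1000) ≤ 11 / 20 * (m * Real.exp (-m)) := by
      rw [h1, div_le_iff₀ (by norm_num)]
      nlinarith
    linarith
  · have h1 : Real.exp (-(913 / 1000 * m)) ≤ 913 / 100000 :=
      qn_exp_le (a := 47476 / 10000) (by linarith) (by norm_num) (by norm_num) (by norm_num)
    have h2 : Real.exp (-(913 / 1000 * m)) / (913 / 1000) ≤ 1 / 100 := by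
      rw [div_le_iff₀ (by norm_num)]; linarith
    have : 0 ≤ m * Real.exp (-m) := by positivity
    linarith

theorem qn_small {s : ℝ} (hs : 0 < s) (hs' : s ≤ 91 / 10000) :
    Real.exp (-(27 / 100) / s) ≤ s ^ 6 / 2 := by
  set u := 1 / s with hu
  have hu0 : 10989 / 100 ≤ u := by
    rw [hu, le_div_iff₀ hs]; linarith
  have h1 : 124 ≤ Real.exp (45 / 1000 * (10989 / 100)) := by
    refine le_trans ?_ (qn_exp_ge (by norm_num))
    norm_num
  have h2 := Real.add_one_le_exp (45 / 1000 * (u - 10989 / 100))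
  have h3 : Real.exp (45 / 1000 * u) =
      Real.exp (45 / 1000 * (10989 / 100)) * Real.exp (45 / 1000 * (u - 10989 / 100)) := by
    rw [← Real.exp_add]; congr 1; ring
  have h4 : 1128 / 1000 * u ≤ Real.exp (45 / 1000 * u) := by
    rw [h3]
    calc 1128 / 1000 * u ≤ 124 * (45 / 1000 * (u - 10989 / 100) + 1) := by linarith
      _ ≤ _ := mul_le_mul h1 h2 (by linarith) (Real.exp_pos _).le
  have h5 : (1128 / 1000 * u) ^ 6 ≤ Real.exp (27 / 100 * u) := by
    calc (1128 / 1000 * u) ^ 6 ≤ Real.exp (45 / 1000 * u) ^ 6 := by gcongr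
      _ = _ := by rw [← Real.exp_nat_mul]; congr 1; push_cast; ring
  have h6 : -(27 / 100) / s = -(27 / 100 * u) := by rw [hu]; ring
  have h7 : s * u = 1 := by rw [hu]; field_simp
  rw [h6, Real.exp_neg, inv_eq_one_div, div_le_iff₀ (Real.exp_pos _)]
  calc (1 : ℝ) ≤ (1128 / 1000) ^ 6 / 2 * (s * u) ^ 6 := by rw [h7]; norm_num
    _ = s ^ 6 / 2 * (1128 / 1000 * u) ^ 6 := by ring
    _ ≤ _ := by gcongr

theorem qn_Y_le {m : ℝ} (hm : 29 / 10 ≤ m) : Real.exp (-(913 / 1000 * m)) ≤ 709 / 10000 :=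
  qn_exp_le (a := 26477 / 10000) (by linarith) (by norm_num) (by norm_num) (by norm_num)

/-- the vertical contribution of one term -/
theorem qn_vert {s t m y : ℝ} (hs : 0 < s) (hs' : s ≤ 91 / 10000) (hm : 29 / 10 ≤ m)
    (ht : m ≤ t * s) (hy : y ≤ Real.exp (-(913 / 1000 * m))) :
    7 / 4 * Real.exp (-(11 / 20 * (t * Real.exp (-m)))) *
      (y * Real.exp (y / (913 / 1000 * s)) *
        (Real.exp ((0 - 28 / 100) / s) / (25 * s) + 9 / s ^ 2 * Real.exp ((0 - 57 / 100) / s))) ≤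
      s ^ 5 / 400 := by
  have hY := qn_Y_le hm
  have hd := qn_delta hm
  have hw := Real.exp_pos (-m)
  have h1 : y / (913 / 1000 * s) - 11 / 20 * (t * Real.exp (-m)) ≤ 1 / 100 / s := by
    have h2 : m / s ≤ t := by rw [div_le_iff₀ hs]; exact ht
    have h3 : y / (913 / 1000 * s) ≤ Real.exp (-(913 / 1000 * m)) / (913 / 1000) / s := by
      rw [div_div]; gcongr
    have h4 : m * Real.exp (-m) / s ≤ t * Real.exp (-m) := by
      rw [mul_div_right_comm]; gcongr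
    have h5 : (Real.exp (-(913 / 1000 * m)) / (913 / 1000) - 11 / 20 * (m * Real.exp (-m))) / s ≤
        1 / 100 / s := by gcongr
    rw [sub_div, mul_div_assoc] at h5
    linarith
  have hsm := qn_small hs hs'
  have he := Real.exp_pos (-(27 / 100) / s)
  have h6 : Real.exp (-(11 / 20 * (t * Real.exp (-m)))) * Real.exp (y / (913 / 1000 * s)) *
      Real.exp ((0 - 28 / 100) / s) ≤ s ^ 6 / 2 := by
    refine le_trans ?_ hsm
    rw [← Real.exp_add, ← Real.exp_add]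
    apply Real.exp_le_exp.2
    have : -(27 / 100) / s = 1 / 100 / s + (0 - 28 / 100) / s := by ring
    linarith
  have h7 : Real.exp (-(11 / 20 * (t * Real.exp (-m)))) * Real.exp (y / (913 / 1000 * s)) *
      Real.exp ((0 - 57 / 100) / s) ≤ (s ^ 6 / 2) ^ 2 := by
    refine le_trans ?_ (pow_le_pow_left₀ he.le hsm 2)
    rw [← Real.exp_add, ← Real.exp_add, ← Real.exp_nat_mul]
    apply Real.exp_le_exp.2
    have h8 : ((2 : ℕ) : ℝ) * (-(27 / 100) / s) =
        1 / 100 / s + (0 - 57 / 100) / s + 1 / 50 / s := by push_cast; ring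
    have h9 : 0 ≤ 1 / 50 / s := by positivity
    linarith
  set A := Real.exp (-(11 / 20 * (t * Real.exp (-m)))) * Real.exp (y / (913 / 1000 * s)) with hA
  have h10 : s ^ 5 ≤ 1 / 1000000 := by
    calc s ^ 5 ≤ (91 / 10000) ^ 5 := by gcongr
      _ ≤ _ := by norm_num
  have h11 : 0 < s ^ 5 := by positivity
  calc _ = 7 / 4 * y * (A * Real.exp ((0 - 28 / 100) / s) / (25 * s) +
        9 / s ^ 2 * (A * Real.exp ((0 - 57 / 100) / s))) := by rw [hA]; ring
    _ ≤ 7 / 4 * (709 / 10000) * (s ^ 6 / 2 / (25 * s) + 9 / s ^ 2 * (s ^ 6 / 2) ^ 2) := by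
        have hA0 : 0 < A := by rw [hA]; positivity
        have : y ≤ 709 / 10000 := hy.trans hY
        gcongr
    _ = 7 / 4 * (709 / 10000) * (s ^ 5 / 50 + 9 / 4 * (s ^ 5 * s ^ 5)) := by
        field_simp; ring
    _ ≤ _ := by nlinarith

/-- the truncation error of one term -/
theorem qn_rho {s R t m Y ρ : ℝ} (hs : 0 < s) (hs' : s ≤ 91 / 10000) (hR : s ≤ R)
    (hR' : R ≤ 1015 / 1000 * s) (hm : 29 / 10 ≤ m) (ht : m ≤ t * s)
    (hY : Y = Real.exp (-(913 / 1000 * m)))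
    (hρ : ρ = Y * R ^ 3 / 200 + Y ^ 4 * R / 10 + Y ^ 5 / 9 + Y ^ 6 / (20 * R)) :
    ρ * Real.exp ρ * Real.exp (-(11 / 20 * (t * Real.exp (-m)))) ≤ 85 / 100000 * s ^ 3 := by
  have hY1 : Y ≤ 709 / 10000 := hY ▸ qn_Y_le hm
  have hY0 : 0 < Y := hY ▸ Real.exp_pos _
  have hR0 : 0 < R := hs.trans_le hR
  have hw0 := Real.exp_pos (-m)
  set w := Real.exp (-m) with hw
  set v := t * w with hv
  have ht0 : 0 < t := by
    by_contra h
    push Not at h
    nlinarith
  have hv0 : 0 < v := mul_pos ht0 hw0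
  have hwv : w ≤ v * s / (29 / 10) := by
    rw [le_div_iff₀ (by norm_num), hv]
    nlinarith
  have e4 : Y ^ 4 = w ^ 3 * Real.exp (-(652 / 1000 * m)) := by
    rw [hY, hw, ← Real.exp_nat_mul, ← Real.exp_nat_mul, ← Real.exp_add]; congr 1; push_cast; ring
  have e5 : Y ^ 5 = w ^ 4 * Real.exp (-(565 / 1000 * m)) := by
    rw [hY, hw, ← Real.exp_nat_mul, ← Real.exp_nat_mul, ← Real.exp_add]; congr 1; push_cast; ring
  have e6 : Y ^ 6 = w ^ 5 * Real.exp (-(478 / 1000 * m)) := by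
    rw [hY, hw, ← Real.exp_nat_mul, ← Real.exp_nat_mul, ← Real.exp_add]; congr 1; push_cast; ring
  have e2 : Y ^ 2 ≤ w := by
    rw [hY, hw, ← Real.exp_nat_mul]; apply Real.exp_le_exp.2; push_cast; linarith
  have b4 : Real.exp (-(652 / 1000 * m)) ≤ 151 / 1000 :=
    qn_exp_le (a := 18908 / 10000) (by linarith) (by norm_num) (by norm_num) (by norm_num)
  have b5 : Real.exp (-(565 / 1000 * m)) ≤ 1943 / 10000 :=
    qn_exp_le (a := 16385 / 10000) (by linarith) (by norm_num) (by norm_num) (by norm_num)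
  have b6 : Real.exp (-(478 / 1000 * m)) ≤ 2501 / 10000 :=
    qn_exp_le (a := 13862 / 10000) (by linarith) (by norm_num) (by norm_num) (by norm_num)
  have hR2 : R ≤ 1015 / 1000 * (91 / 10000) := by linarith
  have T1 : Y * R ^ 3 / 200 ≤ 371 / 1000000 * s ^ 3 := by
    calc Y * R ^ 3 / 200 ≤ 709 / 10000 * (1015 / 1000 * s) ^ 3 / 200 := by gcongr
      _ = 709 / 10000 * (1015 / 1000) ^ 3 / 200 * s ^ 3 := by ring
      _ ≤ _ := mul_le_mul_of_nonneg_right (by norm_num) (by positivity)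
  have T2 : Y ^ 4 * R / 10 ≤ 58 / 10000000 * (v ^ 3 * s ^ 3) := by
    rw [e4]
    calc w ^ 3 * Real.exp (-(652 / 1000 * m)) * R / 10 ≤
          (v * s / (29 / 10)) ^ 3 * (151 / 1000) * (1015 / 1000 * (91 / 10000)) / 10 := by gcongr
      _ = (10 / 29) ^ 3 * (151 / 1000) * (1015 / 1000 * (91 / 10000)) / 10 * (v ^ 3 * s ^ 3) := by
          ring
      _ ≤ _ := mul_le_mul_of_nonneg_right (by norm_num) (by positivity)
  have T3 : Y ^ 5 / 9 ≤ 28 / 10000000 * (v ^ 4 * s ^ 3) := by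
    rw [e5]
    calc w ^ 4 * Real.exp (-(565 / 1000 * m)) / 9 ≤
          (v * s / (29 / 10)) ^ 4 * (1943 / 10000) / 9 := by gcongr
      _ = (10 / 29) ^ 4 * (1943 / 10000) / 9 * s * (v ^ 4 * s ^ 3) := by ring
      _ ≤ (10 / 29) ^ 4 * (1943 / 10000) / 9 * (91 / 10000) * (v ^ 4 * s ^ 3) := by gcongr
      _ ≤ _ := mul_le_mul_of_nonneg_right (by norm_num) (by positivity)
  have T4 : Y ^ 6 / (20 * R) ≤ 56 / 100000000 * (v ^ 5 * s ^ 3) := by
    rw [e6]
    calc w ^ 5 * Real.exp (-(478 / 1000 * m)) / (20 * R) ≤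
          (v * s / (29 / 10)) ^ 5 * (2501 / 10000) / (20 * s) := by gcongr
      _ = (10 / 29) ^ 5 * (2501 / 10000) / 20 * s * (v ^ 5 * s ^ 3) := by field_simp
      _ ≤ (10 / 29) ^ 5 * (2501 / 10000) / 20 * (91 / 10000) * (v ^ 5 * s ^ 3) := by gcongr
      _ ≤ _ := mul_le_mul_of_nonneg_right (by norm_num) (by positivity)
  have hs3 : s ^ 3 ≤ 1 := pow_le_one₀ hs.le (by linarith)
  have U2 : Y ^ 4 * R / 10 ≤ 1 / 10000 := by
    calc Y ^ 4 * R / 10 ≤ (709 / 10000) ^ 4 * (1015 / 1000 * (91 / 10000)) / 10 := by gcongr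
      _ ≤ _ := by norm_num
  have U3 : Y ^ 5 / 9 ≤ 1 / 10000 := by
    calc Y ^ 5 / 9 ≤ (709 / 10000) ^ 5 / 9 := by gcongr
      _ ≤ _ := by norm_num
  have U4 : Y ^ 6 / (20 * R) ≤ 1 / 1000 * v := by
    calc Y ^ 6 / (20 * R) = Y ^ 2 * Y ^ 4 / (20 * R) := by ring
      _ ≤ (v * s / (29 / 10)) * (709 / 10000) ^ 4 / (20 * s) := by
          have := e2.trans hwv
          gcongr
      _ = (10 / 29) * (709 / 10000) ^ 4 / 20 * v := by field_simp
      _ ≤ _ := mul_le_mul_of_nonneg_right (by norm_num) (by positivity)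
  have hρ1 : ρ ≤ 1 / 1000 + 1 / 1000 * v := by rw [hρ]; linarith
  have hρ0 : 0 ≤ ρ := by rw [hρ]; positivity
  have hE : Real.exp ρ * Real.exp (-(11 / 20 * v)) ≤
      1002 / 1000 * Real.exp (-(549 / 1000 * v)) := by
    have h1 : Real.exp (1 / 1000) ≤ 1 / (1 - 1 / 1000) :=
      Real.exp_bound_div_one_sub_of_interval (by norm_num) (by norm_num)
    calc Real.exp ρ * Real.exp (-(11 / 20 * v)) ≤
          Real.exp (1 / 1000) * Real.exp (-(549 / 1000 * v)) := by
          rw [← Real.exp_add, ← Real.exp_add]; apply Real.exp_le_exp.2; linarith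
      _ ≤ _ := by gcongr; linarith
  have P3 := qn_pow_exp 3 (by norm_num) (c := 549 / 1000) (by norm_num) hv0.le
  have P4 := qn_pow_exp 4 (by norm_num) (c := 549 / 1000) (by norm_num) hv0.le
  have P5 := qn_pow_exp 5 (by norm_num) (c := 549 / 1000) (by norm_num) hv0.le
  have P0 : Real.exp (-(549 / 1000 * v)) ≤ 1 := Real.exp_le_one_iff.2 (by linarith)
  set E := Real.exp (-(549 / 1000 * v)) with hEdef
  have hE0 : 0 < E := Real.exp_pos _
  have Q3 : v ^ 3 * E ≤ 813 / 100 := P3.trans (by norm_num)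
  have Q4 : v ^ 4 * E ≤ 517 / 10 := P4.trans (by norm_num)
  have Q5 : v ^ 5 * E ≤ 423 := P5.trans (by norm_num)
  have hs30 : 0 < s ^ 3 := by positivity
  have hρ2 : ρ ≤ (371 / 1000000 + 58 / 10000000 * v ^ 3 + 28 / 10000000 * v ^ 4 +
      56 / 100000000 * v ^ 5) * s ^ 3 := by rw [hρ]; linarith
  calc ρ * Real.exp ρ * Real.exp (-(11 / 20 * v)) = ρ * (Real.exp ρ * Real.exp (-(11 / 20 * v))) := by
        ring
    _ ≤ (371 / 1000000 + 58 / 10000000 * v ^ 3 + 28 / 10000000 * v ^ 4 +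
      56 / 100000000 * v ^ 5) * s ^ 3 * (1002 / 1000 * E) := by gcongr
    _ = 1002 / 1000 * (371 / 1000000 * E + 58 / 10000000 * (v ^ 3 * E) +
      28 / 10000000 * (v ^ 4 * E) + 56 / 100000000 * (v ^ 5 * E)) * s ^ 3 := by ring
    _ ≤ _ := by gcongr; linarith

end Pool.Agent.Lib.MP_6cad4c_al
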