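import Mathlib

namespace Pool.Agent.Lib.MP_6cad4c_al

open Complex Finset

theorem quad_prim {F : ℂ → ℂ} (hF : Differentiable ℂ F) :
    ∃ G : ℂ → ℂ, ∀ z, HasDerivAt G (F z) z := by
  obtain ⟨G, hG⟩ := hF.isExactOn_univ
  exact ⟨G, fun z => hG z (Set.mem_univ z)⟩

theorem quad_int {F G : ℂ → ℂ} (hF : Differentiable ℂ F) (hG : ∀ z, HasDerivAt G (F z) z)
    (a b : ℝ) : ∫ T in a..b, F T = G b - G a := by
  have hc : Continuous fun T : ℝ => F T := hF.continuous.comp continuous_ofReal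
  exact intervalIntegral.integral_eq_sub_of_hasDerivAt (f := fun T : ℝ => G T)
    (fun T _ => (hG T).comp_ofReal) (hc.intervalIntegrable _ _)

theorem quad_near {F G : ℂ → ℂ} (hF : Differentiable ℂ F) (hG : ∀ z, HasDerivAt G (F z) z)
    {T E : ℝ} (hE : ∀ x : ℝ, |x - T| ≤ 2 → ‖F x‖ ≤ E) {p : ℝ} (hp : |p - T| ≤ 2) :
    ‖G p - G T‖ ≤ 2 * E := by
  rw [← quad_int hF hG]
  have hE0 : 0 ≤ E := (norm_nonneg _).trans (hE T (by simp))
  have h := intervalIntegral.norm_integral_le_of_norm_le_const (a := T) (b := p) (C := E)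
    (f := fun x : ℝ => F x) (fun x hx => hE x (by
      rw [abs_le] at hp ⊢
      rcases Set.mem_uIoc.1 hx with h | h <;> constructor <;> linarith [h.1, h.2]))
  nlinarith [abs_nonneg (p - T)]

/-- the quadrature potential -/
noncomputable def quadPhi (G : ℂ → ℂ) (x : ℝ) : ℂ :=
  8 / 5 * G ((x - 1 / 2 : ℝ)) - 2 / 5 * (G ((x - 1 : ℝ)) + G x) +
    8 / 105 * (G ((x - 3 / 2 : ℝ)) + G ((x - 1 / 2 : ℝ)) + G ((x + 1 / 2 : ℝ))) -
    1 / 140 * (G ((x - 2 : ℝ)) + G ((x - 1 : ℝ)) + G x + G ((x + 1 : ℝ)))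

theorem quad_end {F G : ℂ → ℂ} (hF : Differentiable ℂ F) (hG : ∀ z, HasDerivAt G (F z) z)
    {T E : ℝ} (hE : ∀ x : ℝ, |x - T| ≤ 2 → ‖F x‖ ≤ E) {x : ℝ} (h1 : T ≤ x) (h2 : x ≤ T + 1) :
    ‖quadPhi G x - G T‖ ≤ 16 / 3 * E := by
  have hE0 : 0 ≤ E := (norm_nonneg _).trans (hE T (by simp))
  have k : ∀ d : ℝ, -2 ≤ d → d ≤ 1 → ∀ p : ℝ, p = x + d → ‖G p - G T‖ ≤ 2 * E := by
    intro d hd1 hd2 p hp
    exact quad_near hF hG hE (by rw [abs_le]; constructor <;> linarith)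
  have k1 := k (-2) (by norm_num) (by norm_num) (x - 2) (by ring)
  have k2 := k (-3 / 2) (by norm_num) (by norm_num) (x - 3 / 2) (by ring)
  have k3 := k (-1) (by norm_num) (by norm_num) (x - 1) (by ring)
  have k4 := k (-1 / 2) (by norm_num) (by norm_num) (x - 1 / 2) (by ring)
  have k5 := k 0 (by norm_num) (by norm_num) x (by ring)
  have k6 := k (1 / 2) (by norm_num) (by norm_num) (x + 1 / 2) (by ring)
  have k7 := k 1 (by norm_num) (by norm_num) (x + 1) (by ring)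
  have e : quadPhi G x - G T =
      (-1 / 140 : ℝ) * (G ((x - 2 : ℝ)) - G T) + (8 / 105 : ℝ) * (G ((x - 3 / 2 : ℝ)) - G T) +
      (-57 / 140 : ℝ) * (G ((x - 1 : ℝ)) - G T) + (176 / 105 : ℝ) * (G ((x - 1 / 2 : ℝ)) - G T) +
      (-57 / 140 : ℝ) * (G x - G T) + (8 / 105 : ℝ) * (G ((x + 1 / 2 : ℝ)) - G T) +
      (-1 / 140 : ℝ) * (G ((x + 1 : ℝ)) - G T) := by
    unfold quadPhi
    simp only [ofReal_div, ofReal_neg, ofReal_ofNat, ofReal_one]
    ring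
  have m : ∀ (c : ℝ) (z : ℂ), ‖z‖ ≤ 2 * E → ‖(c : ℂ) * z‖ ≤ |c| * (2 * E) := by
    intro c z hz
    rw [norm_mul, norm_real, Real.norm_eq_abs]
    gcongr
  rw [e]
  refine (norm_add_le_of_le (norm_add_le_of_le (norm_add_le_of_le (norm_add_le_of_le
    (norm_add_le_of_le (norm_add_le_of_le (m _ _ k1) (m _ _ k2)) (m _ _ k3)) (m _ _ k4))
    (m _ _ k5)) (m _ _ k6)) (m _ _ k7)).trans ?_
  norm_num [abs_div]
  linarith

theorem quad_weight (n : ℕ) {h : ℝ} (h0 : 0 ≤ h) (h2 : h ≤ 2) :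
    ‖(h : ℂ) ^ (n + 9) - (-h : ℂ) ^ (n + 9)‖ ≤ 2 * h ^ 9 * 2 ^ n := by
  refine (norm_sub_le _ _).trans ?_
  rw [norm_pow, norm_pow, norm_neg, norm_real, Real.norm_of_nonneg h0, pow_add]
  have : h ^ n ≤ 2 ^ n := by gcongr
  nlinarith [pow_nonneg h0 9]

theorem quad_local {F G : ℂ → ℂ} (hF : Differentiable ℂ F) (hG : ∀ z, HasDerivAt G (F z) z)
    {r S t : ℝ} (hr : 16 ≤ r) (hS : ∀ z : ℂ, ‖z - t‖ ≤ r → ‖F z‖ ≤ S) :
    ‖F t - (quadPhi G (t + 1) - quadPhi G t)‖ ≤ 9 / 5 / r ^ 8 * S := by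
  have hr0 : 0 < r := by linarith
  have hS0 : 0 ≤ S := (norm_nonneg _).trans (hS t (by simp; linarith))
  have hGd : Differentiable ℂ G := fun z => (hG z).differentiableAt
  have hdG : deriv G = F := funext fun z => (hG z).deriv
  set c : ℕ → ℂ := fun n => ((n.factorial : ℂ))⁻¹ * iteratedDeriv n G t with hc
  have hsum : ∀ h : ℂ, HasSum (fun n => c n * h ^ n) (G (t + h)) := by
    intro h
    have h1 := hasSum_taylorSeries_of_entire hGd (t : ℂ) (t + h)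
    have h2 : (fun n => c n * h ^ n) =
        fun n : ℕ => ((n.factorial : ℂ))⁻¹ • ((t : ℂ) + h - t) ^ n • iteratedDeriv n G t := by
      funext n
      simp only [hc, smul_eq_mul, add_sub_cancel_left]
      ring
    rw [h2]
    exact h1
  have hc1 : c 1 = F t := by simp [hc, hdG]
  have hcb : ∀ n, ‖c (n + 9)‖ ≤ S / (9 * r ^ (n + 8)) := by
    intro n
    have h1 := norm_iteratedDeriv_le_of_forall_mem_sphere_norm_le (c := (t : ℂ)) (n + 8) hr0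
      hF.diffContOnCl (fun z hz => hS z (le_of_eq (mem_sphere_iff_norm.1 hz)))
    have h2 : iteratedDeriv (n + 9) G = iteratedDeriv (n + 8) F := by
      rw [show n + 9 = (n + 8) + 1 from rfl, iteratedDeriv_succ', hdG]
    have hf : (0 : ℝ) < ((n + 8).factorial : ℝ) := by exact_mod_cast Nat.factorial_pos _
    simp only [hc]
    rw [norm_mul, norm_inv, norm_natCast, h2, show n + 9 = (n + 8) + 1 from rfl,
      Nat.factorial_succ]
    push_cast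
    have h3 : (9 : ℝ) ≤ (n : ℝ) + 8 + 1 := by linarith [Nat.cast_nonneg (α := ℝ) n]
    calc _ ≤ (9 * ((n + 8).factorial : ℝ))⁻¹ * (((n + 8).factorial : ℝ) * S / r ^ (n + 8)) := by
          gcongr
      _ = _ := by field_simp
  set W : ℕ → ℂ := fun n =>
    8 / 5 * ((((1 / 2 : ℝ) : ℂ)) ^ n - (-((1 / 2 : ℝ) : ℂ)) ^ n) -
    2 / 5 * ((((1 : ℝ) : ℂ)) ^ n - (-((1 : ℝ) : ℂ)) ^ n) +
    8 / 105 * ((((3 / 2 : ℝ) : ℂ)) ^ n - (-((3 / 2 : ℝ) : ℂ)) ^ n) -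
    1 / 140 * ((((2 : ℝ) : ℂ)) ^ n - (-((2 : ℝ) : ℂ)) ^ n) with hW
  have hD : ∀ h : ℂ, HasSum (fun n => c n * (h ^ n - (-h) ^ n)) (G (t + h) - G (t + -h)) := by
    intro h
    simp only [mul_sub]
    exact (hsum h).sub (hsum (-h))
  have hQ : HasSum (fun n => c n * W n) (quadPhi G (t + 1) - quadPhi G t) := by
    have h1 := ((((hD ((1 / 2 : ℝ) : ℂ)).mul_left (8 / 5)).sub
      ((hD ((1 : ℝ) : ℂ)).mul_left (2 / 5))).add
      ((hD ((3 / 2 : ℝ) : ℂ)).mul_left (8 / 105))).sub ((hD ((2 : ℝ) : ℂ)).mul_left (1 / 140))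
    have h2 : (fun n => c n * W n) = fun n =>
        8 / 5 * (c n * ((((1 / 2 : ℝ) : ℂ)) ^ n - (-((1 / 2 : ℝ) : ℂ)) ^ n)) -
        2 / 5 * (c n * ((((1 : ℝ) : ℂ)) ^ n - (-((1 : ℝ) : ℂ)) ^ n)) +
        8 / 105 * (c n * ((((3 / 2 : ℝ) : ℂ)) ^ n - (-((3 / 2 : ℝ) : ℂ)) ^ n)) -
        1 / 140 * (c n * ((((2 : ℝ) : ℂ)) ^ n - (-((2 : ℝ) : ℂ)) ^ n)) := by
      funext n
      simp only [hW]
      ring
    have h3 : quadPhi G (t + 1) - quadPhi G t =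
        8 / 5 * (G (t + ((1 / 2 : ℝ) : ℂ)) - G (t + -((1 / 2 : ℝ) : ℂ))) -
        2 / 5 * (G (t + ((1 : ℝ) : ℂ)) - G (t + -((1 : ℝ) : ℂ))) +
        8 / 105 * (G (t + ((3 / 2 : ℝ) : ℂ)) - G (t + -((3 / 2 : ℝ) : ℂ))) -
        1 / 140 * (G (t + ((2 : ℝ) : ℂ)) - G (t + -((2 : ℝ) : ℂ))) := by
      unfold quadPhi
      rw [show t + 1 - 1 / 2 = t + 1 / 2 by ring, show t + 1 - 1 = t by ring,
        show t + 1 - 3 / 2 = t - 1 / 2 by ring, show t + 1 + 1 / 2 = t + 3 / 2 by ring,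
        show t + 1 - 2 = t - 1 by ring, show t + 1 + 1 = t + 2 by ring]
      simp only [ofReal_add, ofReal_sub, ← sub_eq_add_neg]
      ring
    rw [h2, h3]
    exact h1
  have hhead : ∑ i ∈ range 9, c i * W i = F t := by
    rw [← hc1]
    simp only [hW, sum_range_succ, sum_range_zero]
    push_cast
    ring
  have hWb : ∀ n, ‖W (n + 9)‖ ≤ 14 * 2 ^ n := by
    intro n
    have w1 := quad_weight n (h := 1 / 2) (by norm_num) (by norm_num)
    have w2 := quad_weight n (h := 1) (by norm_num) (by norm_num)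
    have w3 := quad_weight n (h := 3 / 2) (by norm_num) (by norm_num)
    have w4 := quad_weight n (h := 2) (by norm_num) (by norm_num)
    simp only [hW]
    refine (norm_sub_le_of_le (norm_add_le_of_le (norm_sub_le_of_le
      (norm_mul_le_of_le le_rfl w1) (norm_mul_le_of_le le_rfl w2)) (norm_mul_le_of_le le_rfl w3))
      (norm_mul_le_of_le le_rfl w4)).trans ?_
    have : (0 : ℝ) < 2 ^ n := by positivity
    norm_num
    linarith
  have htail := (hasSum_nat_add_iff' 9).2 hQ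
  rw [hhead] at htail
  have hgeo := (hasSum_geometric_of_lt_one (r := 1 / 8) (by norm_num) (by norm_num)).mul_left
    (14 / 9 / r ^ 8 * S)
  have hb := htail.norm_le_of_bounded hgeo (fun n => by
    rw [norm_mul]
    refine (mul_le_mul (hcb n) (hWb n) (norm_nonneg _) (by positivity)).trans ?_
    have h1 : (2 / r) ^ n ≤ (1 / 8) ^ n := by
      apply pow_le_pow_left₀ (by positivity)
      rw [div_le_iff₀ hr0]
      linarith
    calc S / (9 * r ^ (n + 8)) * (14 * 2 ^ n) = 14 / 9 / r ^ 8 * S * (2 / r) ^ n := by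
          rw [div_pow, pow_add]
          field_simp
      _ ≤ _ := by gcongr)
  rw [norm_sub_rev]
  refine hb.trans ?_
  have : 0 ≤ S / r ^ 8 := by positivity
  calc 14 / 9 / r ^ 8 * S * (1 - 1 / 8)⁻¹ = 16 / 9 * (S / r ^ 8) := by
        field_simp
        ring
    _ ≤ 9 / 5 * (S / r ^ 8) := by linarith
    _ = _ := by ring

/-- sum versus integral for an entire function -/
theorem quad_sum {F : ℂ → ℂ} (hF : Differentiable ℂ F) {r Ta Tb Ea Eb : ℝ} {S : ℕ → ℝ}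
    (hr : 16 ≤ r) (hTa : 0 ≤ Ta) (hab : Ta + 1 ≤ Tb)
    (hS : ∀ t ∈ Icc ⌈Ta⌉₊ ⌊Tb⌋₊, ∀ z : ℂ, ‖z - t‖ ≤ r → ‖F z‖ ≤ S t)
    (ha : ∀ T : ℝ, |T - Ta| ≤ 2 → ‖F T‖ ≤ Ea) (hb : ∀ T : ℝ, |T - Tb| ≤ 2 → ‖F T‖ ≤ Eb) :
    ‖∑ t ∈ Icc ⌈Ta⌉₊ ⌊Tb⌋₊, F t - ∫ T in Ta..Tb, F T‖ ≤
      9 / 5 / r ^ 8 * ∑ t ∈ Icc ⌈Ta⌉₊ ⌊Tb⌋₊, S t + 16 / 3 * (Ea + Eb) := by
  obtain ⟨G, hG⟩ := quad_prim hF
  have a1 := Nat.le_ceil Ta
  have a2 := Nat.ceil_lt_add_one hTa
  have b1 := Nat.floor_le (show 0 ≤ Tb by linarith)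
  have b2 := Nat.lt_floor_add_one Tb
  have hle : ⌈Ta⌉₊ ≤ ⌊Tb⌋₊ := Nat.le_floor (by linarith)
  have htel := sum_Icc_sub hle (fun t : ℕ => quadPhi G t)
  have e1 := quad_end hF hG ha (x := ⌈Ta⌉₊) a1 a2.le
  have e2 := quad_end hF hG hb (x := ((⌊Tb⌋₊ + 1 : ℕ) : ℝ)) (by push_cast; linarith)
    (by push_cast; linarith)
  have e3 : ‖∑ t ∈ Icc ⌈Ta⌉₊ ⌊Tb⌋₊, (F t - (quadPhi G ((t + 1 : ℕ) : ℝ) - quadPhi G t))‖ ≤
      9 / 5 / r ^ 8 * ∑ t ∈ Icc ⌈Ta⌉₊ ⌊Tb⌋₊, S t := by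
    rw [mul_sum]
    refine norm_sum_le_of_le _ fun t ht => ?_
    have := quad_local hF hG (t := t) hr (fun z hz => hS t ht z (by simpa using hz))
    simpa using this
  rw [sum_sub_distrib, htel] at e3
  rw [quad_int hF hG]
  have e : ∑ t ∈ Icc ⌈Ta⌉₊ ⌊Tb⌋₊, F t - (G Tb - G Ta) =
      (∑ t ∈ Icc ⌈Ta⌉₊ ⌊Tb⌋₊, F t -
        (quadPhi G ((⌊Tb⌋₊ + 1 : ℕ) : ℝ) - quadPhi G (⌈Ta⌉₊ : ℕ))) +
      (quadPhi G ((⌊Tb⌋₊ + 1 : ℕ) : ℝ) - G Tb) - (quadPhi G (⌈Ta⌉₊ : ℕ) - G Ta) := by ring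
  rw [e]
  refine (norm_sub_le_of_le (norm_add_le_of_le e3 e2) e1).trans ?_
  linarith

theorem rot_arc {F G : ℂ → ℂ} (hF : Differentiable ℂ F) (hG : ∀ z, HasDerivAt G (F z) z)
    {T φ A : ℝ} (hT : 0 ≤ T) (ha : ∀ ψ ∈ Set.uIcc 0 φ, ‖F (T * exp (-(ψ * I)))‖ ≤ A) :
    ‖G (T * exp (-(φ * I))) - G T‖ ≤ |φ| * (T * A) := by
  have hd : ∀ ψ : ℝ, HasDerivAt (fun ψ : ℝ => G (T * exp (-(ψ * I))))
      (F (T * exp (-(ψ * I))) * (T * (exp (-(ψ * I)) * -I))) ψ := by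
    intro ψ
    have h1 : HasDerivAt (fun w : ℂ => (T : ℂ) * exp (-(w * I))) (T * (exp (-(ψ * I)) * -I)) ψ := by
      simpa using (((hasDerivAt_id (ψ : ℂ)).mul_const I).neg.cexp).const_mul (T : ℂ)
    exact ((hG _).comp (ψ : ℂ) h1).comp_ofReal
  have hc : Continuous fun ψ : ℝ => F (T * exp (-(ψ * I))) * (T * (exp (-(ψ * I)) * -I)) := by
    have := hF.continuous
    fun_prop
  have h1 := intervalIntegral.integral_eq_sub_of_hasDerivAt (a := 0) (b := φ)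
    (fun ψ _ => hd ψ) (hc.intervalIntegrable _ _)
  simp only [ofReal_zero, zero_mul, neg_zero, exp_zero, mul_one] at h1
  rw [← h1]
  have h2 := intervalIntegral.norm_integral_le_of_norm_le_const (a := 0) (b := φ) (C := T * A)
    (f := fun ψ : ℝ => F (T * exp (-(ψ * I))) * (T * (exp (-(ψ * I)) * -I))) (fun ψ hψ => by
      have h3 := ha ψ (Set.uIoc_subset_uIcc hψ)
      have h4 : ‖exp (-(ψ * I))‖ = 1 := by simp [norm_exp]
      rw [norm_mul, norm_mul, norm_mul, h4, norm_neg, norm_I, norm_real, Real.norm_of_nonneg hT]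
      nlinarith)
  rw [sub_zero] at h2
  linarith

/-- rotation of the ray of integration -/
theorem rot_int {F : ℂ → ℂ} (hF : Differentiable ℂ F) {Ta Tb φ Aa Ab : ℝ}
    (hTa : 0 ≤ Ta) (hTb : 0 ≤ Tb)
    (ha : ∀ ψ ∈ Set.uIcc 0 φ, ‖F (Ta * exp (-(ψ * I)))‖ ≤ Aa)
    (hb : ∀ ψ ∈ Set.uIcc 0 φ, ‖F (Tb * exp (-(ψ * I)))‖ ≤ Ab) :
    ‖(∫ T in Ta..Tb, F T) - exp (-(φ * I)) * ∫ T in Ta..Tb, F (T * exp (-(φ * I)))‖ ≤
      |φ| * (Ta * Aa + Tb * Ab) := by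
  obtain ⟨G, hG⟩ := quad_prim hF
  set e := exp (-(φ * I)) with he
  have h1 : ∀ z : ℂ, HasDerivAt (fun z => G (z * e)) (e * F (z * e)) z := by
    intro z
    have := (hG (z * e)).comp z ((hasDerivAt_id z).mul_const e)
    rw [mul_comm e]
    simpa [Function.comp_def] using this
  have h2 := quad_int (F := fun z => e * F (z * e)) (G := fun z => G (z * e))
    (by fun_prop) h1 Ta Tb
  rw [intervalIntegral.integral_const_mul] at h2
  rw [h2, quad_int hF hG]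
  have e1 := rot_arc hF hG hTa ha
  have e2 := rot_arc hF hG hTb hb
  rw [← he] at e1 e2
  rw [show G Tb - G Ta - (G (Tb * e) - G (Ta * e)) = (G (Ta * e) - G Ta) - (G (Tb * e) - G Tb) by
    ring]
  refine (norm_sub_le_of_le e1 e2).trans ?_
  linarith

theorem tele_sum {s c : ℝ} (hs : 0 < s) (hs' : s ≤ 1 / 100) (hc : 0 < c) (t₀ t₁ : ℕ) :
    ∑ t ∈ Icc t₀ t₁, Real.exp (-(t * s) - c * (Real.exp (-(t * s)) / s)) ≤ 1006 / 1000 / c := by
  rcases lt_or_ge t₁ t₀ with h | h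
  · rw [Icc_eq_empty (by omega), sum_empty]
    positivity
  set p : ℕ → ℝ := fun t => Real.exp (-(c * (Real.exp (-(t * s)) / s))) with hp
  have htel := sum_Icc_sub h p
  have hes : 1000 / 1006 * s ≤ 1 - Real.exp (-s) := by
    have h1 := Real.quadratic_le_exp_of_nonneg hs.le
    have h2 : Real.exp (-s) ≤ (1 + s + s ^ 2 / 2)⁻¹ := by
      rw [Real.exp_neg]
      exact inv_anti₀ (by positivity) h1
    have h3 : (1 + s + s ^ 2 / 2)⁻¹ ≤ 1 - 1000 / 1006 * s := by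
      rw [inv_le_iff_one_le_mul₀ (by positivity)]
      nlinarith [mul_pos hs hs, mul_pos hs (mul_pos hs hs)]
    linarith
  have hterm : ∀ t : ℕ, Real.exp (-(t * s) - c * (Real.exp (-(t * s)) / s)) ≤
      1006 / 1000 / c * (p (t + 1) - p t) := by
    intro t
    set y := Real.exp (-(t * s)) with hy
    have hy0 : 0 < y := Real.exp_pos _
    have h1 : Real.exp (-(((t + 1 : ℕ) : ℝ) * s)) = y * Real.exp (-s) := by
      rw [hy, ← Real.exp_add]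
      congr 1
      push_cast
      ring
    have h2 : p (t + 1) = p t * Real.exp (c * (y / s) * (1 - Real.exp (-s))) := by
      show Real.exp (-(c * (Real.exp (-(((t + 1 : ℕ) : ℝ) * s)) / s))) =
        Real.exp (-(c * (y / s))) * _
      rw [h1]
      generalize Real.exp (-s) = q
      rw [← Real.exp_add]
      congr 1
      ring
    have h3 := Real.add_one_le_exp (c * (y / s) * (1 - Real.exp (-s)))
    have h4 : 1000 / 1006 * (c * y) ≤ c * (y / s) * (1 - Real.exp (-s)) := by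
      calc 1000 / 1006 * (c * y) = c * (y / s) * (1000 / 1006 * s) := by field_simp
        _ ≤ _ := by gcongr
    have hp0 : 0 < p t := Real.exp_pos _
    have h5 : Real.exp (-(t * s) - c * (y / s)) = y * p t := by
      simp only [hp]
      rw [← hy, sub_eq_add_neg, Real.exp_add]
    rw [h5, h2, div_mul_eq_mul_div, le_div_iff₀ hc]
    nlinarith
  refine (sum_le_sum fun t _ => hterm t).trans ?_
  rw [← mul_sum, htel]
  have h1 : p (t₁ + 1) ≤ 1 := Real.exp_le_one_iff.2 (by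
    have := Real.exp_pos (-(((t₁ + 1 : ℕ) : ℝ) * s))
    rw [neg_nonpos]
    positivity)
  have h2 : 0 < p t₀ := Real.exp_pos _
  have h3 : (0 : ℝ) < 1006 / 1000 / c := by positivity
  nlinarith

end Pool.Agent.Lib.MP_6cad4c_al
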