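import Pool.Agent.Lib.MP_6cad4c_al.Basic

namespace Pool.Agent.Lib.MP_6cad4c_al

open Complex

lemma trunc_inv_five {u : ℝ} (h : u ≤ 1 / 5) : (1 - u)⁻¹ ≤ 5 / 4 := by
  rw [inv_le_comm₀ (by linarith) (by norm_num)]
  linarith

lemma trunc_log (N : ℕ) {w : ℂ} (hw : ‖w‖ ≤ 1 / 5) :
    ‖log (1 - w) + ∑ j ∈ Finset.range N, w ^ (j + 1) / (j + 1)‖
      ≤ 5 / 4 / (N + 1) * ‖w‖ ^ (N + 1) := by
  have h1 : ‖-w‖ < 1 := by rw [norm_neg]; linarith
  have h2 := norm_log_sub_logTaylor_le N h1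
  have h3 : logTaylor (N + 1) (-w) = -∑ j ∈ Finset.range N, w ^ (j + 1) / (j + 1) := by
    unfold logTaylor
    rw [Finset.sum_range_succ', ← Finset.sum_neg_distrib]
    simp only [Nat.cast_zero, div_zero, add_zero]
    refine Finset.sum_congr rfl fun j _ => ?_
    have e : (-1 : ℂ) ^ (j + 1 + 1) * (-w) ^ (j + 1) = -w ^ (j + 1) := by
      rw [pow_succ (-1 : ℂ) (j + 1), mul_assoc, mul_comm (-1 : ℂ), ← mul_assoc, ← mul_pow]
      simp
    rw [e]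
    push_cast
    ring
  rw [h3, sub_neg_eq_add, norm_neg, ← sub_eq_add_neg] at h2
  refine h2.trans ?_
  have h4 : (1 - ‖w‖)⁻¹ ≤ 5 / 4 := trunc_inv_five hw
  have h5 : (0 : ℝ) < N + 1 := by positivity
  have h6 : 0 ≤ ‖w‖ ^ (N + 1) := by positivity
  calc ‖w‖ ^ (N + 1) * (1 - ‖w‖)⁻¹ / (N + 1) ≤ ‖w‖ ^ (N + 1) * (5 / 4) / (N + 1) := by gcongr
    _ = _ := by ring

lemma trunc_prod (N : ℕ) {x y : ℂ} (hx : ‖x‖ < 1) (hxy : ‖y * x‖ ≤ 1 / 5) :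
    ∃ r : ℂ, ‖r‖ ≤ 5 / 4 / (N + 1) * ‖y * x‖ ^ (N + 1) * (1 - ‖x‖ ^ (N + 1))⁻¹ ∧
      ∏' k : ℕ, (1 - y * x * x ^ k) =
        exp (-(∑ j ∈ Finset.range N, (y * x) ^ (j + 1) / (j + 1) * (1 - x ^ (j + 1))⁻¹) + r) := by
  have hw : ∀ k : ℕ, ‖y * x * x ^ k‖ ≤ 1 / 5 := fun k => by
    rw [norm_mul, norm_pow]
    exact (mul_le_of_le_one_right (norm_nonneg _) (pow_le_one₀ (norm_nonneg _) hx.le)).trans hxy
  set rem : ℕ → ℂ := fun k => log (1 - y * x * x ^ k)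
    + ∑ j ∈ Finset.range N, (y * x * x ^ k) ^ (j + 1) / (j + 1) with hrem
  have hb : ∀ k, ‖rem k‖ ≤ 5 / 4 / (N + 1) * ‖y * x‖ ^ (N + 1) * (‖x‖ ^ (N + 1)) ^ k := fun k => by
    refine (trunc_log N (hw k)).trans (le_of_eq ?_)
    rw [norm_mul (y * x), norm_pow, mul_pow, ← pow_mul, ← pow_mul, mul_comm k]
    ring
  have hg : HasSum (fun k : ℕ => 5 / 4 / (N + 1) * ‖y * x‖ ^ (N + 1) * (‖x‖ ^ (N + 1)) ^ k)
      (5 / 4 / (N + 1) * ‖y * x‖ ^ (N + 1) * (1 - ‖x‖ ^ (N + 1))⁻¹) :=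
    (hasSum_geometric_of_lt_one (by positivity)
      (pow_lt_one₀ (norm_nonneg _) hx (Nat.succ_ne_zero N))).mul_left _
  have hs : Summable rem := hg.summable.of_norm_bounded hb
  have hj : ∀ j ∈ Finset.range N, HasSum (fun k : ℕ => (y * x * x ^ k) ^ (j + 1) / (j + 1))
      ((y * x) ^ (j + 1) / (j + 1) * (1 - x ^ (j + 1))⁻¹) := fun j _ => by
    have h1 : ‖x ^ (j + 1)‖ < 1 := by
      rw [norm_pow]; exact pow_lt_one₀ (norm_nonneg _) hx (Nat.succ_ne_zero j)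
    have h2 := (hasSum_geometric_of_norm_lt_one h1).mul_left ((y * x) ^ (j + 1) / (j + 1))
    have e : (fun k : ℕ => (y * x * x ^ k) ^ (j + 1) / ((j : ℂ) + 1))
        = fun k : ℕ => (y * x) ^ (j + 1) / (j + 1) * (x ^ (j + 1)) ^ k := by
      funext k
      rw [mul_pow (y * x), ← pow_mul, ← pow_mul, mul_comm k]
      ring
    rw [e]
    exact h2
  have hl : HasSum (fun k : ℕ => log (1 - y * x * x ^ k))
      (-(∑ j ∈ Finset.range N, (y * x) ^ (j + 1) / (j + 1) * (1 - x ^ (j + 1))⁻¹) + ∑' k, rem k) := by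
    have := (hasSum_sum hj).neg.add hs.hasSum
    simpa only [hrem, neg_add_cancel_comm_assoc] using this
  refine ⟨∑' k, rem k, tsum_of_norm_bounded hg hb, ?_⟩
  rw [← hl.tsum_eq, cexp_tsum_eq_tprod _ hl.summable]
  intro k h
  have h1 := hw k
  rw [← sub_eq_zero.mp h, norm_one] at h1
  norm_num at h1

lemma trunc_inv_le {x : ℂ} {a : ℝ} (hx : ‖x‖ ≤ a) (ha : a < 1) : ‖(1 - x)⁻¹‖ ≤ (1 - a)⁻¹ := by
  rw [norm_inv]
  refine inv_anti₀ (by linarith) ?_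
  have := norm_sub_norm_le (1 : ℂ) x
  rw [norm_one] at this
  linarith

lemma trunc_ne {x : ℂ} (hx : ‖x‖ < 1) : 1 - x ≠ 0 := fun h => by
  rw [← sub_eq_zero.mp h, norm_one] at hx
  exact lt_irrefl _ hx

/-- a term `x ^ m * c * (1 - x ^ j)⁻¹` with `m ≥ 7` -/
lemma trunc_term {x : ℂ} (hx : ‖x‖ ≤ 1 / 5) (m j : ℕ) :
    ‖x ^ (7 + m) * (1 - x ^ (j + 1))⁻¹‖ ≤ ‖x‖ ^ 7 * ((1 / 5) ^ m * (5 / 4)) := by
  have h0 := norm_nonneg x
  have h1 : ‖x ^ (j + 1)‖ ≤ 1 / 5 := by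
    rw [norm_pow, pow_succ]
    exact (mul_le_of_le_one_left h0 (pow_le_one₀ h0 (by linarith))).trans hx
  have h2 := trunc_inv_le h1 (by norm_num)
  rw [norm_mul, norm_pow, pow_add, mul_assoc]
  refine mul_le_mul_of_nonneg_left ?_ (by positivity)
  refine mul_le_mul (pow_le_pow_left₀ h0 hx m) (h2.trans (by norm_num)) (norm_nonneg _)
    (by positivity)

theorem eul_trunc {x : ℂ} (hx : ‖x‖ ≤ 1 / 5) :
    ∃ r : ℂ, ‖r‖ ≤ 5 / 2 * ‖x‖ ^ 7 ∧ eul x = exp (-gA x + r) := by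
  have h0 := norm_nonneg x
  have hx1 : ‖x‖ < 1 := by linarith
  obtain ⟨r, hr, he⟩ := trunc_prod 6 (y := 1) hx1 (by simpa using hx)
  simp only [one_mul] at hr he
  have hne : ∀ j : ℕ, 1 - x ^ (j + 1) ≠ 0 := fun j =>
    trunc_ne (by rw [norm_pow]; exact pow_lt_one₀ h0 hx1 (Nat.succ_ne_zero j))
  set R : ℂ := x ^ (7 + 0) * (1 - x ^ (0 + 1))⁻¹ + 1 / 2 * (x ^ (7 + 1) * (1 - x ^ (1 + 1))⁻¹)
    + 1 / 3 * (x ^ (7 + 2) * (1 - x ^ (2 + 1))⁻¹) + 1 / 4 * (x ^ (7 + 1) * (1 - x ^ (3 + 1))⁻¹)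
    + 1 / 5 * (x ^ (7 + 3) * (1 - x ^ (4 + 1))⁻¹) + 1 / 6 * (x ^ (7 + 5) * (1 - x ^ (5 + 1))⁻¹)
    with hR
  have key : ∀ (j m : ℕ), x ^ (j + 1) * (1 - x ^ (j + 1))⁻¹
      = ∑ i ∈ Finset.range m, x ^ ((j + 1) * (i + 1))
        + x ^ ((j + 1) * (m + 1)) * (1 - x ^ (j + 1))⁻¹ := by
    intro j m
    induction m with
    | zero => simp
    | succ m ih =>
      rw [ih, Finset.sum_range_succ, add_assoc]
      congr 1
      have := hne j
      field_simp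
      ring
  have hsum : ∑ j ∈ Finset.range 6, x ^ (j + 1) / (j + 1) * (1 - x ^ (j + 1))⁻¹ = gA x + R := by
    have e : ∀ j : ℕ, x ^ (j + 1) / ((j : ℂ) + 1) * (1 - x ^ (j + 1))⁻¹
        = 1 / ((j : ℂ) + 1) * (x ^ (j + 1) * (1 - x ^ (j + 1))⁻¹) := fun j => by ring
    simp only [e, Finset.sum_range_succ, Finset.sum_range_zero]
    rw [key 0 6, key 1 3, key 2 2, key 3 1, key 4 1, key 5 1]
    simp only [Finset.sum_range_succ, Finset.sum_range_zero, hR, gA]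
    push_cast
    ring
  refine ⟨r - R, ?_, ?_⟩
  · have t0 := trunc_term hx 0 0
    have t1 := trunc_term hx 1 1
    have t2 := trunc_term hx 2 2
    have t3 := trunc_term hx 1 3
    have t4 := trunc_term hx 3 4
    have t5 := trunc_term hx 5 5
    have h7 : 0 ≤ ‖x‖ ^ 7 := by positivity
    have hRb : ‖R‖ ≤ 2 * ‖x‖ ^ 7 := by
      have n2 : ‖(1 / 2 : ℂ)‖ = 1 / 2 := by simp
      have n3 : ‖(1 / 3 : ℂ)‖ = 1 / 3 := by simp
      have n4 : ‖(1 / 4 : ℂ)‖ = 1 / 4 := by simp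
      have n5 : ‖(1 / 5 : ℂ)‖ = 1 / 5 := by simp
      have n6 : ‖(1 / 6 : ℂ)‖ = 1 / 6 := by simp
      rw [hR]
      refine (norm_add_le _ _).trans ?_
      refine (add_le_add_left (norm_add_le _ _) _).trans ?_
      refine (add_le_add_left (add_le_add_left (norm_add_le _ _) _) _).trans ?_
      refine (add_le_add_left (add_le_add_left (add_le_add_left (norm_add_le _ _) _) _) _).trans ?_
      refine (add_le_add_left (add_le_add_left (add_le_add_left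
        (add_le_add_left (norm_add_le _ _) _) _) _) _).trans ?_
      rw [norm_mul (1 / 2 : ℂ), norm_mul (1 / 3 : ℂ), norm_mul (1 / 4 : ℂ), norm_mul (1 / 5 : ℂ),
        norm_mul (1 / 6 : ℂ), n2, n3, n4, n5, n6]
      nlinarith
    have h8 : (1 - ‖x‖ ^ (6 + 1))⁻¹ ≤ 5 / 4 := by
      have : ‖x‖ ^ (6 + 1) ≤ 1 / 5 := by
        rw [pow_succ]
        exact (mul_le_of_le_one_left h0 (pow_le_one₀ h0 hx1.le)).trans hx
      exact trunc_inv_five this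
    have h9 : ‖r‖ ≤ 1 / 2 * ‖x‖ ^ 7 := by
      refine hr.trans ((mul_le_mul_of_nonneg_left h8 (by positivity)).trans ?_)
      push_cast
      nlinarith
    have := norm_sub_le r R
    linarith
  · unfold eul
    have e : ∀ k : ℕ, x ^ (k + 1) = x * x ^ k := fun k => pow_succ' x k
    simp only [e]
    rw [he, hsum]
    congr 1
    ring

lemma trunc_bern {z : ℂ} (hz : ‖z‖ ≤ 1 / 10) (hz0 : z ≠ 0) :
    ‖(exp z - 1)⁻¹ - (1 / z - 1 / 2 + z / 12)‖ ≤ ‖z‖ ^ 3 / 500 := by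
  have h0 : 0 < ‖z‖ := norm_pos_iff.mpr hz0
  have h1 := exp_bound (x := z) (by linarith) (n := 6) (by norm_num)
  set δ : ℂ := exp z - ∑ m ∈ Finset.range 6, z ^ m / m.factorial with hδ
  have h2 : ‖δ‖ ≤ ‖z‖ ^ 6 / 600 := by
    refine h1.trans ?_
    have : (((6 : ℕ).succ : ℝ) * (((6 : ℕ).factorial : ℝ) * (6 : ℕ))⁻¹) ≤ 1 / 600 := by
      norm_num [Nat.factorial]
    calc _ ≤ ‖z‖ ^ 6 * (1 / 600) := mul_le_mul_of_nonneg_left this (by positivity)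
      _ = _ := by ring
  have hE : exp z - 1 = z + z ^ 2 / 2 + z ^ 3 / 6 + z ^ 4 / 24 + z ^ 5 / 120 + δ := by
    rw [hδ]
    simp only [Finset.sum_range_succ, Finset.sum_range_zero, Nat.factorial]
    push_cast
    ring
  have h3 := norm_exp_sub_one_sub_id_le (x := z) (by linarith)
  have h4 : 9 / 10 * ‖z‖ ≤ ‖exp z - 1‖ := by
    have a1 := norm_sub_norm_le z (z - (exp z - 1))
    rw [sub_sub_cancel, norm_sub_rev z] at a1
    nlinarith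
  have hE0 : exp z - 1 ≠ 0 := norm_pos_iff.mp (by linarith)
  have h5 : (exp z - 1)⁻¹ - (1 / z - 1 / 2 + z / 12)
      = -(z ^ 4 * (1 / 720 - z / 1440 + z ^ 2 / 1440) + δ / z * (1 - z / 2 + z ^ 2 / 12))
        * (exp z - 1)⁻¹ := by
    have e : (exp z - 1) * (1 / z - 1 / 2 + z / 12)
        = 1 + (z ^ 4 * (1 / 720 - z / 1440 + z ^ 2 / 1440) + δ / z * (1 - z / 2 + z ^ 2 / 12)) := by
      rw [hE]
      field_simp
      ring
    have e2 : (1 / z - 1 / 2 + z / 12) = (exp z - 1) * (1 / z - 1 / 2 + z / 12) * (exp z - 1)⁻¹ := by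
      field_simp
    rw [e2, e]
    ring
  have hz2 : ‖z ^ 2‖ ≤ 1 / 100 := by
    rw [norm_pow]
    nlinarith
  have b1 : ‖(1 / 720 - z / 1440 + z ^ 2 / 1440 : ℂ)‖ ≤ 1 / 680 := by
    refine (norm_add_le _ _).trans ((add_le_add_left (norm_sub_le _ _) _).trans ?_)
    rw [norm_div z, norm_div (z ^ 2)]
    have n1 : ‖(1 / 720 : ℂ)‖ = 1 / 720 := by simp
    have n2 : ‖(1440 : ℂ)‖ = 1440 := by simp
    rw [n1, n2]
    linarith
  have b2 : ‖(1 - z / 2 + z ^ 2 / 12 : ℂ)‖ ≤ 11 / 10 := by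
    refine (norm_add_le _ _).trans ((add_le_add_left (norm_sub_le _ _) _).trans ?_)
    rw [norm_div z, norm_div (z ^ 2), norm_one]
    have n1 : ‖(2 : ℂ)‖ = 2 := by simp
    have n2 : ‖(12 : ℂ)‖ = 12 := by simp
    rw [n1, n2]
    linarith
  have b3 : ‖δ / z‖ ≤ ‖z‖ ^ 4 / 6000 := by
    rw [norm_div, div_le_iff₀ h0]
    have : 0 ≤ ‖z‖ ^ 5 := by positivity
    nlinarith
  have h44 : 0 ≤ ‖z‖ ^ 4 := by positivity
  have b4 : ‖z ^ 4 * (1 / 720 - z / 1440 + z ^ 2 / 1440) + δ / z * (1 - z / 2 + z ^ 2 / 12)‖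
      ≤ ‖z‖ ^ 4 * (9 / 5000) := by
    refine (norm_add_le _ _).trans ?_
    rw [norm_mul, norm_mul, norm_pow]
    have c1 := mul_le_mul_of_nonneg_left b1 h44
    have c2 := mul_le_mul b3 b2 (norm_nonneg _) (by positivity)
    nlinarith
  rw [h5, norm_mul, norm_neg, norm_inv, ← div_eq_mul_inv, div_le_iff₀ (by linarith)]
  have h33 : 0 ≤ ‖z‖ ^ 3 := by positivity
  nlinarith [mul_le_mul_of_nonneg_left h4 h33]

lemma trunc_R {y s ε₀ ε₁ ε₂ ε₃ ε₄ : ℂ} (hy : ‖y‖ ≤ 1 / 5) (hs : ‖s‖ ≤ 1 / 50)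
    (e0 : ‖ε₀‖ ≤ ((0 + 1) * ‖s‖) ^ 3 / 500) (e1 : ‖ε₁‖ ≤ ((1 + 1) * ‖s‖) ^ 3 / 500)
    (e2 : ‖ε₂‖ ≤ ((2 + 1) * ‖s‖) ^ 3 / 500) (e3 : ‖ε₃‖ ≤ ((3 + 1) * ‖s‖) ^ 3 / 500)
    (e4 : ‖ε₄‖ ≤ ((4 + 1) * ‖s‖) ^ 3 / 500) :
    ‖y * ε₀ + y ^ 2 * (ε₁ / 2) + y ^ 3 * (ε₂ / 3) + y ^ 4 * (s / 12 + ε₃ / 4)
      + y ^ 5 * (-(1 / 10) + s / 12 + ε₄ / 5)‖
      ≤ ‖y‖ * ‖s‖ ^ 3 / 200 + ‖y‖ ^ 4 * ‖s‖ / 10 + ‖y‖ ^ 5 / 9 := by
  have hy0 := norm_nonneg y
  have hn := norm_nonneg s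
  replace e0 : ‖ε₀‖ ≤ ‖s‖ ^ 3 * (1 / 500) := e0.trans (le_of_eq (by ring))
  replace e1 : ‖ε₁‖ ≤ ‖s‖ ^ 3 * (8 / 500) := e1.trans (le_of_eq (by ring))
  replace e2 : ‖ε₂‖ ≤ ‖s‖ ^ 3 * (27 / 500) := e2.trans (le_of_eq (by ring))
  replace e3 : ‖ε₃‖ ≤ ‖s‖ ^ 3 * (64 / 500) := e3.trans (le_of_eq (by ring))
  replace e4 : ‖ε₄‖ ≤ ‖s‖ ^ 3 * (125 / 500) := e4.trans (le_of_eq (by ring))
  have hs3 : 0 ≤ ‖s‖ ^ 3 := by positivity
  have hs2 : ‖s‖ ^ 3 ≤ ‖s‖ / 2500 := by nlinarith [mul_le_mul hs hs hn (by norm_num)]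
  have n2 : ‖(2 : ℂ)‖ = 2 := by simp
  have n3 : ‖(3 : ℂ)‖ = 3 := by simp
  have n4 : ‖(4 : ℂ)‖ = 4 := by simp
  have n5 : ‖(5 : ℂ)‖ = 5 := by simp
  have n12 : ‖(12 : ℂ)‖ = 12 := by simp
  have n10 : ‖(-(1 / 10) : ℂ)‖ = 1 / 10 := by simp
  have a0 : ‖y * ε₀‖ ≤ ‖y‖ * ‖s‖ ^ 3 * (1 / 500) := by
    rw [norm_mul, mul_assoc]
    exact mul_le_mul_of_nonneg_left e0 hy0
  have a1 : ‖y ^ 2 * (ε₁ / 2)‖ ≤ ‖y‖ * ‖s‖ ^ 3 * (4 / 2500) := by
    rw [norm_mul, norm_pow, norm_div, n2, pow_two, mul_assoc, mul_assoc]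
    refine mul_le_mul_of_nonneg_left ?_ hy0
    have : ‖ε₁‖ / 2 ≤ ‖s‖ ^ 3 * (4 / 500) := by linarith
    nlinarith [mul_le_mul hy this (by positivity) (by norm_num)]
  have a2 : ‖y ^ 3 * (ε₂ / 3)‖ ≤ ‖y‖ * ‖s‖ ^ 3 * (9 / 12500) := by
    rw [norm_mul, norm_pow, norm_div, n3, pow_succ', mul_assoc, mul_assoc]
    refine mul_le_mul_of_nonneg_left ?_ hy0
    have h1 : ‖ε₂‖ / 3 ≤ ‖s‖ ^ 3 * (9 / 500) := by linarith
    have h2 : ‖y‖ ^ 2 ≤ 1 / 25 := by nlinarith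
    nlinarith [mul_le_mul h2 h1 (by positivity) (by norm_num)]
  have a3 : ‖y ^ 4 * (s / 12 + ε₃ / 4)‖ ≤ ‖y‖ ^ 4 * ‖s‖ / 10 := by
    rw [norm_mul, norm_pow, mul_div_assoc]
    refine mul_le_mul_of_nonneg_left ((norm_add_le _ _).trans ?_) (by positivity)
    rw [norm_div, norm_div, n12, n4]
    linarith
  have a4 : ‖y ^ 5 * (-(1 / 10) + s / 12 + ε₄ / 5)‖ ≤ ‖y‖ ^ 5 / 9 := by
    rw [norm_mul, norm_pow, div_eq_mul_one_div _ (9 : ℝ)]
    refine mul_le_mul_of_nonneg_left ((norm_add_le _ _).trans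
      ((add_le_add_left (norm_add_le _ _) _).trans ?_)) (by positivity)
    rw [norm_div, norm_div, n12, n5, n10]
    linarith
  refine (norm_add_le _ _).trans ?_
  refine (add_le_add_left (norm_add_le _ _) _).trans ?_
  refine (add_le_add_left (add_le_add_left (norm_add_le _ _) _) _).trans ?_
  refine (add_le_add_left (add_le_add_left (add_le_add_left (norm_add_le _ _) _) _) _).trans ?_
  have : 0 ≤ ‖y‖ * ‖s‖ ^ 3 := by positivity
  linarith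

theorem tail_trunc (t : ℕ) {s : ℂ} (hs : ‖s‖ ≤ 1 / 50) (hs0 : 0 < s.re) (hs1 : 9 / 10 * ‖s‖ ≤ s.re)
    (hy : ‖exp (-(t * s))‖ ≤ 1 / 5) :
    ∃ r : ℂ, ‖r‖ ≤ ‖exp (-(t * s))‖ * ‖s‖ ^ 3 / 200 + ‖exp (-(t * s))‖ ^ 4 * ‖s‖ / 10 +
        ‖exp (-(t * s))‖ ^ 5 / 9 + ‖exp (-(t * s))‖ ^ 6 / (20 * ‖s‖) ∧
      ∏' k : ℕ, (1 - exp (-s) ^ (k + t + 1)) = exp (-gB (exp (-(t * s))) s + r) := by
  have hyx : exp (-(t * s)) = exp (-s) ^ t := by rw [← exp_nat_mul]; congr 1; ring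
  set y := exp (-(t * s)) with hydef
  have hs' : s ≠ 0 := fun h => by rw [h] at hs0; simp at hs0
  have hn : 0 < ‖s‖ := norm_pos_iff.mpr hs'
  have hxn : ‖exp (-s)‖ = Real.exp (-s.re) := by rw [norm_exp]; simp
  have hx1 : ‖exp (-s)‖ < 1 := by rw [hxn]; exact Real.exp_lt_one_iff.mpr (by linarith)
  have hy0 := norm_nonneg y
  obtain ⟨r, hr, he⟩ := trunc_prod 5 (y := y) hx1 (by
    rw [norm_mul]
    exact (mul_le_of_le_one_right hy0 hx1.le).trans hy)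
  have hterm : ∀ j : ℕ, (y * exp (-s)) ^ (j + 1) / ((j : ℂ) + 1) * (1 - exp (-s) ^ (j + 1))⁻¹
      = y ^ (j + 1) / ((j : ℂ) + 1) * (exp (((j : ℂ) + 1) * s) - 1)⁻¹ := fun j => by
    have h1 : exp (-s) ^ (j + 1) = (exp (((j : ℂ) + 1) * s))⁻¹ := by
      rw [← exp_neg, ← exp_nat_mul]; congr 1; push_cast; ring
    have h2 : 1 - exp (-s) ^ (j + 1) ≠ 0 :=
      trunc_ne (by rw [norm_pow]; exact pow_lt_one₀ (norm_nonneg _) hx1 (Nat.succ_ne_zero j))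
    have h3 := exp_ne_zero (((j : ℂ) + 1) * s)
    rw [mul_pow, h1] at *
    have h4 : exp (((j : ℂ) + 1) * s) - 1 ≠ 0 := fun h => h2 (by rw [sub_eq_zero.mp h]; simp)
    field_simp
  set ε : ℕ → ℂ := fun j => (exp (((j : ℂ) + 1) * s) - 1)⁻¹
    - (1 / (((j : ℂ) + 1) * s) - 1 / 2 + ((j : ℂ) + 1) * s / 12) with hε
  have hεb : ∀ j : ℕ, j ≤ 4 → ‖ε j‖ ≤ ((j + 1) * ‖s‖) ^ 3 / 500 := fun j hj => by
    have hnj : ‖((j : ℂ) + 1) * s‖ = (j + 1) * ‖s‖ := by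
      rw [norm_mul]
      congr 1
      exact_mod_cast Complex.norm_natCast (j + 1)
    have hj' : (j : ℝ) ≤ 4 := by exact_mod_cast hj
    rw [← hnj]
    refine trunc_bern ?_ (mul_ne_zero (Nat.cast_add_one_ne_zero j) hs')
    rw [hnj]
    nlinarith
  set R : ℂ := y * ε 0 + y ^ 2 * (ε 1 / 2) + y ^ 3 * (ε 2 / 3) + y ^ 4 * (s / 12 + ε 3 / 4)
    + y ^ 5 * (-(1 / 10) + s / 12 + ε 4 / 5) with hR
  have hsum : ∑ j ∈ Finset.range 5,
      (y * exp (-s)) ^ (j + 1) / ((j : ℂ) + 1) * (1 - exp (-s) ^ (j + 1))⁻¹ = gB y s + R := by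
    have e : ∀ j : ℕ, (exp (((j : ℂ) + 1) * s) - 1)⁻¹
        = ε j + (1 / (((j : ℂ) + 1) * s) - 1 / 2 + ((j : ℂ) + 1) * s / 12) := fun j => by
      simp only [hε]; ring
    simp only [hterm, e, Finset.sum_range_succ, Finset.sum_range_zero, hR, gB]
    push_cast
    field_simp
    ring
  refine ⟨r - R, ?_, ?_⟩
  · have e0 := hεb 0 (by norm_num)
    have e1 := hεb 1 (by norm_num)
    have e2 := hεb 2 (by norm_num)
    have e3 := hεb 3 (by norm_num)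
    have e4 := hεb 4 (by norm_num)
    push_cast at e0 e1 e2 e3 e4
    have hRb := trunc_R hy hs e0 e1 e2 e3 e4
    rw [← hR] at hRb
    have h9 : ‖r‖ ≤ ‖y‖ ^ 6 / (20 * ‖s‖) := by
      refine hr.trans ?_
      have u1 : ‖exp (-s)‖ ^ (5 + 1) = Real.exp (-(6 * s.re)) := by
        rw [hxn, ← Real.exp_nat_mul]; congr 1; push_cast; ring
      rw [norm_mul, mul_pow, u1]
      have u2 : Real.exp (-(6 * s.re)) * (1 - Real.exp (-(6 * s.re)))⁻¹ ≤ 1 / (6 * s.re) := by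
        have v1 : Real.exp (-(6 * s.re)) < 1 := Real.exp_lt_one_iff.mpr (by linarith)
        have v2 := Real.add_one_le_exp (6 * s.re)
        have v3 : Real.exp (6 * s.re) * Real.exp (-(6 * s.re)) = 1 := by
          rw [← Real.exp_add]; simp
        have v4 := Real.exp_pos (-(6 * s.re))
        rw [← div_eq_mul_inv, div_le_div_iff₀ (by linarith) (by linarith)]
        nlinarith [mul_le_mul_of_nonneg_right v2 v4.le]
      have u3 : 1 / (6 * s.re) ≤ 1 / (27 / 5 * ‖s‖) :=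
        one_div_le_one_div_of_le (by positivity) (by linarith)
      have h6 : 0 ≤ ‖y‖ ^ (5 + 1) := by positivity
      calc 5 / 4 / (((5 : ℕ) : ℝ) + 1) * (‖y‖ ^ (5 + 1) * Real.exp (-(6 * s.re)))
            * (1 - Real.exp (-(6 * s.re)))⁻¹
          = 5 / 24 * ‖y‖ ^ (5 + 1)
            * (Real.exp (-(6 * s.re)) * (1 - Real.exp (-(6 * s.re)))⁻¹) := by push_cast; ring
        _ ≤ 5 / 24 * ‖y‖ ^ (5 + 1) * (1 / (27 / 5 * ‖s‖)) :=
          mul_le_mul_of_nonneg_left (u2.trans u3) (by positivity)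
        _ = 25 / 648 * (‖y‖ ^ 6 / ‖s‖) := by field_simp; ring
        _ ≤ 1 / 20 * (‖y‖ ^ 6 / ‖s‖) :=
          mul_le_mul_of_nonneg_right (by norm_num) (by positivity)
        _ = _ := by field_simp
    have := norm_sub_le r R
    linarith
  · have e : ∀ k : ℕ, exp (-s) ^ (k + t + 1) = y * exp (-s) * exp (-s) ^ k := fun k => by
      rw [hyx]; ring
    simp only [e]
    rw [he, hsum]
    congr 1
    ring

lemma trunc_norm_tprod_le {f : ℕ → ℂ} (hf : Summable f) {g : ℕ → ℝ} {G : ℝ} (hg : HasSum g G)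
    (h : ∀ k, ‖1 - f k‖ ≤ Real.exp (g k)) : ‖∏' k, (1 - f k)‖ ≤ Real.exp G := by
  have hm : Multipliable fun k => 1 - f k := by
    simpa only [sub_eq_add_neg] using Complex.multipliable_one_add_of_summable hf.neg
  refine le_of_tendsto_of_tendsto' hm.hasProd.tendsto_prod_nat.norm
    ((Real.continuous_exp.tendsto G).comp hg.tendsto_sum_nat) fun n => ?_
  rw [Function.comp_apply, Real.exp_sum, norm_prod]
  exact Finset.prod_le_prod (fun _ _ => norm_nonneg _) fun k _ => h k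

lemma trunc_summable {x : ℂ} (hx : ‖x‖ < 1) (t : ℕ) : Summable fun k : ℕ => x ^ (k + t + 1) := by
  have := (summable_geometric_of_norm_lt_one hx).mul_right (x ^ (t + 1))
  refine this.congr fun k => ?_
  ring

lemma trunc_hasSum {u : ℝ} (h0 : 0 ≤ u) (h1 : u < 1) (t : ℕ) :
    HasSum (fun k : ℕ => u ^ (k + t + 1)) (u ^ (t + 1) * (1 - u)⁻¹) := by
  have := (hasSum_geometric_of_lt_one h0 h1).mul_left (u ^ (t + 1))
  have e : (fun k : ℕ => u ^ (k + t + 1)) = fun k : ℕ => u ^ (t + 1) * u ^ k := by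
    funext k; ring
  rw [e]
  exact this

/-- crude bounds used on vertical lines and in the tails -/
theorem norm_tail_le (t : ℕ) {s : ℂ} (hs0 : 0 < s.re) :
    ‖∏' k : ℕ, (1 - exp (-s) ^ (k + t + 1))‖ ≤ Real.exp (Real.exp (-(t * s.re)) / s.re) := by
  have hxn : ‖exp (-s)‖ = Real.exp (-s.re) := by rw [norm_exp]; simp
  have v1 : Real.exp (-s.re) < 1 := Real.exp_lt_one_iff.mpr (by linarith)
  have v4 := Real.exp_pos (-s.re)
  refine (trunc_norm_tprod_le (trunc_summable (hxn ▸ v1) t) (trunc_hasSum v4.le v1 t)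
    fun k => ?_).trans (Real.exp_le_exp.mpr ?_)
  · refine (norm_sub_le _ _).trans ?_
    rw [norm_one, norm_pow, hxn, add_comm]
    exact Real.add_one_le_exp _
  · have u1 : Real.exp (-s.re) ^ t = Real.exp (-(t * s.re)) := by
      rw [← Real.exp_nat_mul]; congr 1; ring
    have v2 := Real.add_one_le_exp s.re
    have v3 : Real.exp s.re * Real.exp (-s.re) = 1 := by rw [← Real.exp_add]; simp
    rw [pow_succ, u1, mul_assoc, div_eq_mul_one_div]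
    refine mul_le_mul_of_nonneg_left ?_ (Real.exp_pos _).le
    rw [← div_eq_mul_inv, div_le_div_iff₀ (by linarith) hs0]
    nlinarith [mul_le_mul_of_nonneg_right v2 v4.le]

lemma trunc_norm_real {u : ℝ} (h0 : 0 ≤ u) (h1 : u < 1) (m : ℕ) :
    ‖1 - (u : ℂ) ^ m‖ = 1 - u ^ m := by
  have : (1 - (u : ℂ) ^ m) = ((1 - u ^ m : ℝ) : ℂ) := by push_cast; ring
  rw [this, norm_real, Real.norm_of_nonneg (sub_nonneg.mpr (pow_le_one₀ h0 h1.le))]

theorem norm_tail_le_real (t : ℕ) {y : ℝ} (hy : 0 < y) :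
    ‖∏' k : ℕ, (1 - exp (-(y : ℂ)) ^ (k + t + 1))‖ ≤
      Real.exp (-(Real.exp (-((t + 1) * y)) / y)) := by
  have hx : exp (-(y : ℂ)) = ((Real.exp (-y) : ℝ) : ℂ) := by push_cast; rfl
  have v1 : Real.exp (-y) < 1 := Real.exp_lt_one_iff.mpr (by linarith)
  have v4 := Real.exp_pos (-y)
  rw [hx]
  refine (trunc_norm_tprod_le (trunc_summable (by
    rw [norm_real, Real.norm_of_nonneg v4.le]; exact v1) t) (trunc_hasSum v4.le v1 t).neg
    fun k => ?_).trans (Real.exp_le_exp.mpr (neg_le_neg ?_))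
  · rw [trunc_norm_real v4.le v1]
    have := Real.add_one_le_exp (-Real.exp (-y) ^ (k + t + 1))
    linarith
  · have u1 : Real.exp (-y) ^ (t + 1) = Real.exp (-((t + 1) * y)) := by
      rw [← Real.exp_nat_mul]; congr 1; push_cast; ring
    have v2 := Real.add_one_le_exp (-y)
    rw [u1, div_eq_mul_inv]
    exact mul_le_mul_of_nonneg_left (inv_anti₀ (by linarith) (by linarith)) (Real.exp_pos _).le

theorem norm_eul_le_real {x : ℝ} (hx0 : 0 ≤ x) (hx : x < 1) :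
    ‖eul x‖ ≤ Real.exp (-(x + 3 / 2 * x ^ 2 + 4 / 3 * x ^ 3)) := by
  set g : ℕ → ℝ := fun k => if k = 0 then -(x + x ^ 2 / 2 + x ^ 3 / 3) else
    if k < 3 then -x ^ (k + 1) else 0 with hg
  have h1 : HasSum g (∑ k ∈ Finset.range 3, g k) :=
    hasSum_sum_of_ne_finset_zero fun k hk => by
      have : ¬ k < 3 := by simpa using hk
      simp only [hg]
      rw [if_neg (by omega), if_neg this]
  have h2 : ∑ k ∈ Finset.range 3, g k = -(x + 3 / 2 * x ^ 2 + 4 / 3 * x ^ 3) := by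
    simp only [hg, Finset.sum_range_succ, Finset.sum_range_zero]
    norm_num
    ring
  rw [h2] at h1
  have hs := trunc_summable (x := (x : ℂ)) (by
    rw [norm_real, Real.norm_of_nonneg hx0]; exact hx) 0
  refine trunc_norm_tprod_le (f := fun k => (x : ℂ) ^ (k + 1)) hs h1 fun k => ?_
  rw [trunc_norm_real hx0 hx]
  simp only [hg]
  split_ifs with k0 k3
  · subst k0
    have a1 := Real.hasSum_pow_div_log_of_abs_lt_one (x := x) (by rwa [abs_of_nonneg hx0])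
    have a2 := sum_le_hasSum (Finset.range 3) (fun n _ => by positivity) a1
    simp only [Finset.sum_range_succ, Finset.sum_range_zero] at a2
    rw [zero_add, pow_one, ← Real.exp_log (sub_pos.mpr hx)]
    refine Real.exp_le_exp.mpr ?_
    push_cast at a2
    norm_num at a2
    linarith
  · have := Real.add_one_le_exp (-x ^ (k + 1))
    linarith
  · rw [Real.exp_zero]
    exact sub_le_self _ (by positivity)

end Pool.Agent.Lib.MP_6cad4c_al
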