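import Pool.Agent.Lib.MP_6cad4c_al.Facts

namespace Pool.Agent.Lib.MP_6cad4c_al

open Complex

theorem wa_exp_ge (x : ℝ) (hx : 0 ≤ x) : 2718 / 1000 * x ≤ Real.exp x := by
  have h1 := Real.add_one_le_exp (x - 1)
  have h2 := Real.exp_one_gt_d9
  have h3 : Real.exp x = Real.exp (x - 1) * Real.exp 1 := by rw [← Real.exp_add]; ring_nf
  rw [h3]
  nlinarith [Real.exp_pos (x - 1)]

theorem wa_exp_cube {k m : ℝ} (hk : 0 ≤ k) (hm : 0 ≤ m) :
    (2718 / 1000 * (k / 3)) ^ 3 * m ^ 3 ≤ Real.exp (k * m) := by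
  have h1 := wa_exp_ge (k / 3 * m) (by positivity)
  have h2 : Real.exp (k * m) = Real.exp (k / 3 * m) ^ 3 := by
    rw [← Real.exp_nat_mul]; congr 1; push_cast; ring
  rw [h2, ← mul_pow]
  gcongr
  linarith

theorem wa_exp_le {x : ℝ} (h0 : 0 ≤ x) (h1 : x ≤ 1) :
    Real.exp x ≤ 1 + x + x ^ 2 / 2 + x ^ 3 / 6 + 5 * x ^ 4 / 96 := by
  have h := Real.exp_bound' h0 h1 (n := 4) (by norm_num)
  simp only [Finset.sum_range_succ, Finset.sum_range_zero, Nat.factorial] at h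
  norm_num at h
  linarith

theorem wa_exp_two {x : ℝ} (hx : 0 ≤ x) :
    7389 / 1000 * (1 + x + x ^ 2 / 2) ≤ Real.exp (2 + x) := by
  have h1 := Real.quadratic_le_exp_of_nonneg hx
  have h2 := Real.exp_one_gt_d9
  have h3 : Real.exp (2 + x) = Real.exp 1 ^ 2 * Real.exp x := by
    rw [← Real.exp_nat_mul, ← Real.exp_add]; norm_num
  have h4 : 7389 / 1000 ≤ Real.exp 1 ^ 2 := by nlinarith
  rw [h3]
  exact mul_le_mul h4 h1 (by positivity) (by positivity)

theorem wa_core {m φ E θ : ℝ} (hm : 29 / 10 ≤ m) (hφ : |φ| ≤ 42 / 100)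
    (hE1 : Real.exp (-(3 / 20)) ≤ E) (hE2 : E ≤ Real.exp (3 / 20 + m * (1 - Real.cos φ)))
    (hθ : |θ| ≤ m * |φ| + 3 / 20) :
    763 / 1000 ≤ E * (Real.cos θ - 52 / 1000) + 988 / 1000 * (Real.exp m / m) * φ ^ 2 := by
  have hm0 : 0 < m := by linarith
  obtain ⟨a, ha⟩ : ∃ a, a = m * |φ| := ⟨_, rfl⟩
  have ha0 : 0 ≤ a := by rw [ha]; positivity
  have hsq : Real.exp m / m * φ ^ 2 = Real.exp m / m ^ 3 * a ^ 2 := by
    rw [ha, mul_pow, sq_abs]; field_simp
  have hK : 7436 / 10000 ≤ Real.exp m / m ^ 3 := by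
    rw [le_div_iff₀ (by positivity)]
    have := wa_exp_cube (k := 1) zero_le_one hm0.le
    rw [one_mul] at this
    nlinarith [pow_pos hm0 3]
  have hcos : 1 - (a + 3 / 20) ^ 2 / 2 ≤ Real.cos θ := by
    have h1 := Real.one_sub_sq_div_two_le_cos (x := θ)
    have h2 : θ ^ 2 ≤ (a + 3 / 20) ^ 2 := by
      rw [← sq_abs θ, ha]; gcongr
    linarith
  have hE0 : 86 / 100 ≤ E := by
    refine le_trans ?_ hE1
    have h1 := wa_exp_le (x := 3 / 20) (by norm_num) (by norm_num)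
    rw [Real.exp_neg, le_inv_comm₀ (by norm_num) (Real.exp_pos _)]
    norm_num at h1 ⊢
    linarith
  rw [mul_assoc, hsq]
  have hKa : 7436 / 10000 * a ^ 2 ≤ Real.exp m / m ^ 3 * a ^ 2 := by gcongr
  rcases le_or_gt 0 (Real.cos θ - 52 / 1000) with hc | hc
  · have h1 : 86 / 100 * (Real.cos θ - 52 / 1000) ≤ E * (Real.cos θ - 52 / 1000) := by gcongr
    nlinarith [sq_nonneg (a - 1 / 5)]
  have hφ2 : m * (1 - Real.cos φ) ≤ 21 / 100 * a := by
    have h1 := Real.one_sub_sq_div_two_le_cos (x := φ)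
    have h2 : φ ^ 2 ≤ 42 / 100 * |φ| := by rw [← sq_abs φ]; nlinarith [abs_nonneg φ]
    rw [ha]; nlinarith
  rcases le_or_gt a (178 / 100) with h178 | h178
  · have hE3 : E ≤ 169 / 100 := by
      refine hE2.trans ((Real.exp_le_exp.2 (show _ ≤ (5238 / 10000 : ℝ) by linarith)).trans ?_)
      have h1 := wa_exp_le (x := 5238 / 10000) (by norm_num) (by norm_num)
      norm_num at h1 ⊢
      linarith
    have h1 : 169 / 100 * (Real.cos θ - 52 / 1000) ≤ E * (Real.cos θ - 52 / 1000) := by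
      nlinarith
    nlinarith
  · have hm4 : 4238 / 1000 ≤ m := by nlinarith [abs_nonneg φ]
    obtain ⟨F, hF⟩ : ∃ F, F = Real.exp (87 / 1000 * m) := ⟨_, rfl⟩
    have hF1 : 14 / 10 ≤ F := by
      have h1 := Real.quadratic_le_exp_of_nonneg (show 0 ≤ 87 / 1000 * m by positivity)
      rw [hF]; nlinarith
    have hE3 : E ≤ 1162 / 1000 * F := by
      have h1 := cos_ge hφ
      have h2 := wa_exp_le (x := 3 / 20) (by norm_num) (by norm_num)
      refine hE2.trans ((Real.exp_le_exp.2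
        (show _ ≤ 3 / 20 + 87 / 1000 * m by nlinarith)).trans ?_)
      rw [Real.exp_add, ← hF]
      have : Real.exp (3 / 20) ≤ 1162 / 1000 := by norm_num at h2 ⊢; linarith
      have hF0 : 0 ≤ F := by linarith
      gcongr
    have hK2 : 5659 / 10000 * F ≤ Real.exp m / m ^ 3 := by
      rw [le_div_iff₀ (by positivity)]
      have h1 := wa_exp_cube (k := 913 / 1000) (by norm_num) hm0.le
      have h2 : Real.exp m = Real.exp (913 / 1000 * m) * F := by
        rw [hF, ← Real.exp_add]; congr 1; ring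
      have h3 : 5659 / 10000 * m ^ 3 ≤ Real.exp (913 / 1000 * m) := by
        nlinarith [pow_pos hm0 3]
      rw [h2]
      nlinarith
    have h1 : 5659 / 10000 * F * (178 / 100) ^ 2 ≤ Real.exp m / m ^ 3 * a ^ 2 := by
      gcongr
    have h2 : -(1052 / 1000) * E ≤ E * (Real.cos θ - 52 / 1000) := by
      nlinarith [Real.neg_one_le_cos θ]
    nlinarith

theorem wa_gA {y : ℂ} (hy : ‖y‖ ≤ 85 / 1000) : ‖gA y - y‖ ≤ 1627 / 1000 * ‖y‖ ^ 2 := by
  have h1 : gA y - y = y ^ 2 * (3 / 2 + y * (4 / 3 + y * (7 / 4 + y * (6 / 5 + y * 2)))) := by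
    unfold gA; ring
  have key : ∀ (c : ℝ) (u : ℂ) (b : ℝ), 0 ≤ c → ‖u‖ ≤ b →
      ‖(c : ℂ) + y * u‖ ≤ c + 85 / 1000 * b := by
    intro c u b hc hu
    refine (norm_add_le _ _).trans ?_
    rw [norm_mul, Complex.norm_real, Real.norm_of_nonneg hc]
    gcongr
  have h2 := key (6 / 5) 2 2 (by norm_num) (by simp)
  have h3 := key (7 / 4) _ _ (by norm_num) h2
  have h4 := key (4 / 3) _ _ (by norm_num) h3
  have h5 := key (3 / 2) _ _ (by norm_num) h4
  push_cast at h5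
  rw [h1, norm_mul, norm_pow, mul_comm]
  gcongr
  refine h5.trans ?_
  norm_num

theorem wa_main {m φ : ℝ} {ε : ℂ} (hm : 29 / 10 ≤ m) (hφ : |φ| ≤ 42 / 100) (hε : ‖ε‖ ≤ 3 / 20) :
    11 / 20 * (m * Real.exp (-m)) ≤
      ((m + ε) * gA (exp (-((m + ε) * exp (φ * I))))).re + 988 / 1000 * φ ^ 2 := by
  have hm0 : 0 < m := by linarith
  obtain ⟨w, hw⟩ : ∃ w : ℂ, w = m - (m + ε) * exp (φ * I) := ⟨_, rfl⟩
  obtain ⟨y, hy⟩ : ∃ y : ℂ, y = exp (-((m + ε) * exp (φ * I))) := ⟨_, rfl⟩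
  have hyw : y = (Real.exp (-m) : ℝ) * exp w := by
    rw [hy, hw, ofReal_exp, ← exp_add]; congr 1; push_cast; ring
  have hη : ‖ε * exp (φ * I)‖ ≤ 3 / 20 := by rw [norm_mul, norm_exp_ofReal_mul_I, mul_one]; exact hε
  have hre : w.re = m * (1 - Real.cos φ) - (ε * exp (φ * I)).re := by
    rw [hw, add_mul, sub_re, add_re, re_ofReal_mul, exp_ofReal_mul_I_re, ofReal_re]; ring
  have him : w.im = -(m * Real.sin φ) - (ε * exp (φ * I)).im := by
    rw [hw, add_mul, sub_im, add_im, im_ofReal_mul, exp_ofReal_mul_I_im, ofReal_im]; ring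
  have h1 := abs_le.1 ((abs_re_le_norm _).trans hη)
  have h2 := (abs_im_le_norm _).trans hη
  obtain ⟨E, hE⟩ : ∃ E, E = Real.exp w.re := ⟨_, rfl⟩
  have hE0 : 0 < E := hE ▸ Real.exp_pos _
  have hc1 := Real.cos_le_one φ
  have hc2 := cos_ge hφ
  have hE1 : Real.exp (-(3 / 20)) ≤ E := by
    rw [hE]; apply Real.exp_le_exp.2; rw [hre]; nlinarith
  have hE2 : E ≤ Real.exp (3 / 20 + m * (1 - Real.cos φ)) := by
    rw [hE]; apply Real.exp_le_exp.2; rw [hre]; linarith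
  have hθ : |w.im| ≤ m * |φ| + 3 / 20 := by
    rw [him]
    refine (abs_sub _ _).trans ?_
    rw [abs_neg, abs_mul, abs_of_pos hm0]
    exact add_le_add (mul_le_mul_of_nonneg_left Real.abs_sin_le_abs hm0.le) h2
  have hcore := wa_core hm hφ hE1 hE2 hθ
  obtain ⟨q, hq⟩ : ∃ q, q = Real.exp (-m) := ⟨_, rfl⟩
  have hq0 : 0 < q := hq ▸ Real.exp_pos _
  have hqm : Real.exp m * q = 1 := by rw [hq, ← Real.exp_add]; simp
  have hny : ‖y‖ = q * E := by
    rw [hyw, norm_mul, norm_exp, ← hE, ← hq, Complex.norm_real, Real.norm_of_nonneg hq0.le]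
  have hy1 : ‖y‖ ≤ 85 / 1000 := by
    have h3 := wa_exp_two (x := 4977 / 10000) (by norm_num)
    have h4 : q * E ≤ Real.exp (-(2 + 4977 / 10000)) := by
      rw [hq, hE, ← Real.exp_add]; apply Real.exp_le_exp.2; rw [hre]; nlinarith
    rw [hny]
    refine h4.trans ?_
    rw [Real.exp_neg, inv_le_comm₀ (Real.exp_pos _) (by norm_num)]
    refine le_trans ?_ h3
    norm_num
  have hy2 : q * E ^ 2 ≤ 124 / 1000 := by
    have h3 := wa_exp_two (x := 954 / 10000) (by norm_num)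
    have h4 : q * E ^ 2 ≤ Real.exp (-(2 + 954 / 10000)) := by
      rw [hq, hE, ← Real.exp_nat_mul, ← Real.exp_add]; apply Real.exp_le_exp.2; rw [hre]
      push_cast
      nlinarith
    refine h4.trans ?_
    rw [Real.exp_neg, inv_le_comm₀ (Real.exp_pos _) (by norm_num)]
    refine le_trans ?_ h3
    norm_num
  have h5 : ‖(m + ε) * (gA y - y)‖ ≤ 213 / 1000 * (m * q) := by
    have h6 : ‖(m : ℂ) + ε‖ ≤ 1052 / 1000 * m := by
      refine (norm_add_le _ _).trans ?_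
      rw [Complex.norm_real, Real.norm_of_nonneg hm0.le]
      linarith
    have h7 := wa_gA hy1
    rw [hny] at h7
    calc _ ≤ 1052 / 1000 * m * (1627 / 1000 * (q * E) ^ 2) := by rw [norm_mul]; gcongr
      _ = 1052 / 1000 * (1627 / 1000) * (m * q) * (q * E ^ 2) := by ring
      _ ≤ 1052 / 1000 * (1627 / 1000) * (m * q) * (124 / 1000) := by gcongr
      _ ≤ _ := by nlinarith [mul_pos hm0 hq0]
  have h6 : m * q * (E * (Real.cos w.im - 52 / 1000)) ≤ ((m + ε) * y).re := by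
    have h7 : |(ε * y).re| ≤ 3 / 20 * (q * E) := by
      refine (abs_re_le_norm _).trans ?_
      rw [norm_mul, hny]
      gcongr
    have h8 : y.re = q * (E * Real.cos w.im) := by rw [hyw, re_ofReal_mul, exp_re, ← hE, ← hq]
    rw [add_mul, add_re, re_ofReal_mul, h8]
    have h9 := (abs_le.1 h7).1
    nlinarith [mul_pos hq0 hE0]
  have h7 : ((m + ε) * gA y).re = ((m + ε) * y).re + ((m + ε) * (gA y - y)).re := by
    rw [← add_re]; congr 1; ring
  have h8 := (abs_le.1 ((abs_re_le_norm _).trans h5)).1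
  have h9 : m * q * (988 / 1000 * (Real.exp m / m) * φ ^ 2) = 988 / 1000 * φ ^ 2 := by
    have : m * q * (Real.exp m / m) = 1 := by rw [← hqm]; field_simp
    linear_combination 988 / 1000 * φ ^ 2 * this
  have h10 := mul_le_mul_of_nonneg_left hcore (mul_pos hm0 hq0).le
  rw [← hy, ← hq, h7]
  rw [mul_add, h9] at h10
  linarith

theorem wA {L T φ : ℝ} {z : ℂ} (hL : 47 / 10 ≤ L) (hφ : |φ| ≤ 42 / 100)
    (hm : 29 / 10 ≤ T * Real.exp (-L + -be L)) (hz : ‖z - T‖ * sg L ≤ 3 / 20) :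
    ‖om L (-be L) φ * FA z (sv L (-be L) φ)‖ ≤
      Real.exp (1 / 20 - 11 / 20 * (T * Real.exp (-(T * Real.exp (-L + -be L)))) -
        3 / 8 * lam L * φ ^ 2) := by
  obtain ⟨R, hR⟩ : ∃ R, R = Real.exp (-L + -be L) := ⟨_, rfl⟩
  have hR0 : 0 < R := hR ▸ Real.exp_pos _
  have hb := be_pos L
  have hb1 := be_le hL
  have hRs : R ≤ sg L := by rw [hR, sg]; exact Real.exp_le_exp.2 (by linarith)
  have hε : ‖(z - T) * R‖ ≤ 3 / 20 := by
    rw [norm_mul, Complex.norm_real, Real.norm_of_nonneg hR0.le]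
    refine le_trans ?_ hz
    gcongr
  rw [← hR] at hm ⊢
  have h1 := wa_main hm hφ hε
  have h2 : ((T * R : ℝ) : ℂ) + (z - T) * R = R * z := by push_cast; ring
  have h3 : z * sv L (-be L) φ = R * z * exp (φ * I) := by rw [sv_eq, ← hR]; ring
  rw [h2, ← h3, mul_assoc (R : ℂ), re_ofReal_mul] at h1
  have h4 : 162 / 100 ≤ lam L * R := by
    have h5 : lam L * R = cc * Real.exp (-be L) := by
      rw [hR, lam, mul_assoc, ← Real.exp_add]; congr 2; ring
    have h6 := Real.add_one_le_exp (-be L)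
    rw [h5]
    nlinarith [cc_gt]
  have h5 := norm_om_le hL (b := -be L) (by rw [abs_neg, abs_of_pos hb]) hφ
  rw [norm_mul, FA, norm_exp]
  refine (mul_le_mul_of_nonneg_right h5 (Real.exp_pos _).le).trans ?_
  rw [← Real.exp_add, neg_re]
  apply Real.exp_le_exp.2
  have h6 : 11 / 20 * (T * Real.exp (-(T * R))) ≤
      (z * gA (exp (-(z * sv L (-be L) φ)))).re + 61 / 100 * lam L * φ ^ 2 := by
    refine le_of_mul_le_mul_left ?_ hR0
    nlinarith [mul_le_mul_of_nonneg_right h4 (sq_nonneg φ), sq_nonneg φ]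
  linarith

theorem norm_JA_le {L Φ : ℝ} {t : ℕ} (hL : 47 / 10 ≤ L) (hΦ : 0 ≤ Φ) (hΦ' : Φ ≤ 42 / 100)
    (hm : 29 / 10 ≤ t * Real.exp (-L + -be L)) :
    ‖JA L Φ t‖ ≤ 7 / 4 * Real.exp (-(11 / 20 * (t * Real.exp (-(t * Real.exp (-L + -be L)))))) := by
  obtain ⟨v, hv⟩ : ∃ v, v = 11 / 20 * (t * Real.exp (-(t * Real.exp (-L + -be L)))) := ⟨_, rfl⟩
  have h1 := norm_int_le (L := L) (Φ := Φ) (K := Real.exp (1 / 20) * Real.exp (-v)) (q := 3 / 8)
    (r := 1633 / 1000) hL hΦ (by positivity) (by norm_num) (by norm_num) (by norm_num)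
    (f := fun φ => om L (-be L) φ * FA t (sv L (-be L) φ)) (fun φ hφ => by
      have h2 := wA (z := (t : ℂ)) (T := t) hL (hφ.trans hΦ') hm (by simp; norm_num)
      rw [← hv] at h2
      refine h2.trans (le_of_eq ?_)
      rw [← Real.exp_add, ← Real.exp_add]
      congr 1)
  have hJ := J0_pos L
  have h2 := wa_exp_le (x := 1 / 20) (by norm_num) (by norm_num)
  have h3 : Real.exp (1 / 20) ≤ 1052 / 1000 := by norm_num at h2 ⊢; linarith
  rw [← hv, JA, norm_div, Complex.norm_real, Real.norm_of_nonneg hJ.le, div_le_iff₀ hJ]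
  refine h1.trans ?_
  gcongr ?_ * _
  nlinarith [Real.exp_pos (-v)]

end Pool.Agent.Lib.MP_6cad4c_al
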