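import Pool.Agent.Lib.MP_6cad4c_al.Facts

namespace Pool.Agent.Lib.MP_6cad4c_al

open Complex

theorem wb_exp1 : (181 / 10 : ℝ) ≤ Real.exp (29 / 10) := by
  have h5 := Real.sum_le_exp_of_nonneg (show (0 : ℝ) ≤ 29 / 10 by norm_num) 9
  simp only [Finset.sum_range_succ, Finset.sum_range_zero, Nat.factorial] at h5
  refine le_trans ?_ h5
  norm_num

theorem wb_exp2 : (12 : ℝ) ≤ Real.exp (24954 / 10000) := by
  have h5 := Real.sum_le_exp_of_nonneg (show (0 : ℝ) ≤ 24954 / 10000 by norm_num) 9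
  simp only [Finset.sum_range_succ, Finset.sum_range_zero, Nat.factorial] at h5
  refine le_trans ?_ h5
  norm_num

theorem wb_exp3 : (8 : ℝ) ≤ Real.exp (20908 / 10000) := by
  have h5 := Real.sum_le_exp_of_nonneg (show (0 : ℝ) ≤ 20908 / 10000 by norm_num) 8
  simp only [Finset.sum_range_succ, Finset.sum_range_zero, Nat.factorial] at h5
  refine le_trans ?_ h5
  norm_num

theorem wb_exp_neg {a x K : ℝ} (hK : 0 < K) (h : K ≤ Real.exp a) (hx : x ≤ -a) :
    Real.exp x ≤ 1 / K := by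
  refine (Real.exp_le_exp.2 hx).trans ?_
  rw [Real.exp_neg, one_div]
  exact inv_anti₀ hK h

theorem wb_neg_cos {θ : ℝ} (h : Real.cos θ < 0) : -Real.cos θ ≤ |θ| - Real.pi / 2 := by
  have h1 : Real.pi / 2 ≤ |θ| := by
    by_contra c
    push Not at c
    have := Real.cos_nonneg_of_mem_Icc (x := θ) ⟨(abs_le.1 c.le).1, (abs_le.1 c.le).2⟩
    linarith
  have h2 := Real.sin_le (x := |θ| - Real.pi / 2) (by linarith)
  rwa [Real.sin_sub_pi_div_two, Real.cos_abs] at h2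

theorem wb_core {m x E θ : ℝ} (hm : 29 / 10 ≤ m) (hx0 : 0 ≤ x) (hE1 : 8477 / 10000 ≤ E)
    (hE2 : E ≤ Real.exp (1523 / 10000 + 87 / 1000 * m))
    (hθ : |θ| ≤ (m + 1) * x + 1523 / 10000) :
    785 / 1000 ≤ E * Real.cos θ + 6526 / 10000 * Real.exp m * x ^ 2 := by
  have hm1 : 0 < (m + 1) ^ 2 := by positivity
  have e1 : 119 / 100 * (m + 1) ^ 2 ≤ Real.exp m := by
    have a1 : Real.exp m = Real.exp (29 / 10) * Real.exp (m - 29 / 10) := by
      rw [← Real.exp_add]; congr 1; ring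
    have a2 := Real.quadratic_le_exp_of_nonneg (x := m - 29 / 10) (by linarith)
    have a3 : 181 / 10 * (1 + (m - 29 / 10) + (m - 29 / 10) ^ 2 / 2) ≤
        Real.exp (29 / 10) * Real.exp (m - 29 / 10) :=
      mul_le_mul wb_exp1 a2 (by nlinarith) (Real.exp_pos _).le
    rw [a1]
    nlinarith
  have e2 : E * (m + 1) ^ 2 ≤ 261 / 100 * Real.exp m := by
    have a1 : Real.exp m = Real.exp (1523 / 10000 + 87 / 1000 * m) *
        Real.exp (913 / 1000 * m - 1523 / 10000) := by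
      rw [← Real.exp_add]; congr 1; ring
    have a2 := Real.quadratic_le_exp_of_nonneg (x := 913 / 1000 * m - 1523 / 10000) (by linarith)
    have a3 : (m + 1) ^ 2 ≤ 261 / 100 * Real.exp (913 / 1000 * m - 1523 / 10000) := by nlinarith
    have a4 := mul_le_mul hE2 a3 hm1.le (Real.exp_pos _).le
    rw [a1]
    linarith
  set G := 6526 / 10000 * Real.exp m / (m + 1) ^ 2 with hG
  have g1 : 7765 / 10000 ≤ G := by
    rw [hG, le_div_iff₀ hm1]
    linarith
  have g2 : E ≤ 4 * G := by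
    rw [hG, ← mul_div_assoc, le_div_iff₀ hm1]
    have := Real.exp_pos m
    linarith
  have g3 : 6526 / 10000 * Real.exp m * x ^ 2 = G * ((m + 1) * x) ^ 2 := by
    rw [hG]
    field_simp
  rw [g3]
  have ha : 0 ≤ (m + 1) * x := by positivity
  generalize (m + 1) * x = a at hθ ha
  have g4 : 7765 / 10000 * a ^ 2 ≤ G * a ^ 2 := mul_le_mul_of_nonneg_right g1 (sq_nonneg a)
  rcases le_or_gt 0 (Real.cos θ) with c | c
  · have b1 := Real.one_sub_sq_div_two_le_cos (x := θ)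
    have b2 : θ ^ 2 ≤ (a + 1523 / 10000) ^ 2 := by
      rw [← sq_abs θ]
      exact pow_le_pow_left₀ (abs_nonneg _) hθ 2
    have b3 := mul_le_mul_of_nonneg_right hE1 c
    nlinarith [sq_nonneg (a - 18 / 100)]
  · have b1 := wb_neg_cos c
    have b2 := Real.pi_gt_d4
    have b3 : -Real.cos θ ≤ a - 1418 / 1000 := by linarith
    have b4 : E * -Real.cos θ ≤ 4 * G * (a - 1418 / 1000) :=
      mul_le_mul g2 b3 (by linarith) (by linarith)
    have b5 : G * (1672 / 1000) ≤ G * (a ^ 2 - 4 * (a - 1418 / 1000)) :=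
      mul_le_mul_of_nonneg_left (by nlinarith [sq_nonneg (a - 2)]) (by linarith)
    nlinarith

theorem wb_gB {y s : ℂ} (hy : ‖y‖ ≤ 1 / 12) (hs : ‖s‖ ≤ 1 / 100) :
    (y / s).re - 26 / 100 * (‖y‖ ^ 2 / ‖s‖) - 44 / 1000 ≤ (gB y s).re := by
  have e : gB y s = y / s + y ^ 2 / s * (1 / 4 + y / 9 + y ^ 2 / 16 + y ^ 3 / 25) +
      (y * (-1 / 2 + s / 12) + y ^ 2 * (-1 / 4 + s / 12) + y ^ 3 * (-1 / 6 + s / 12) +
        y ^ 4 * (-1 / 8)) := by
    unfold gB
    ring
  have h0 := norm_nonneg y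
  have p2 : ‖y‖ ^ 2 ≤ (1 / 12) ^ 2 := pow_le_pow_left₀ h0 hy 2
  have p3 : ‖y‖ ^ 3 ≤ (1 / 12) ^ 3 := pow_le_pow_left₀ h0 hy 3
  have p4 : ‖y‖ ^ 4 ≤ (1 / 12) ^ 4 := pow_le_pow_left₀ h0 hy 4
  have h1 : ‖(1 / 4 + y / 9 + y ^ 2 / 16 + y ^ 3 / 25 : ℂ)‖ ≤ 26 / 100 := by
    refine (norm_add_le _ _).trans ?_
    refine (add_le_add (norm_add₃_le) le_rfl).trans ?_
    simp only [norm_div, norm_pow, norm_one, Complex.norm_ofNat]
    linarith
  have h2 : ‖y ^ 2 / s * (1 / 4 + y / 9 + y ^ 2 / 16 + y ^ 3 / 25)‖ ≤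
      26 / 100 * (‖y‖ ^ 2 / ‖s‖) := by
    rw [norm_mul, norm_div, norm_pow, mul_comm]
    exact mul_le_mul_of_nonneg_right h1 (by positivity)
  have q : ∀ k : ℂ, ‖-1 / k + s / 12‖ ≤ 1 / ‖k‖ + 1 / 1200 := fun k => by
    refine (norm_add_le _ _).trans ?_
    simp only [norm_div, norm_neg, norm_one, Complex.norm_ofNat]
    linarith
  have q2 := q 2
  have q4 := q 4
  have q6 := q 6
  rw [Complex.norm_ofNat] at q2 q4 q6
  have h3 : ‖y * (-1 / 2 + s / 12) + y ^ 2 * (-1 / 4 + s / 12) + y ^ 3 * (-1 / 6 + s / 12) +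
      y ^ 4 * (-1 / 8)‖ ≤ 44 / 1000 := by
    refine (norm_add_le _ _).trans ?_
    refine (add_le_add (norm_add₃_le) le_rfl).trans ?_
    rw [norm_mul, norm_mul, norm_mul, norm_mul, norm_pow, norm_pow, norm_pow]
    have r1 := mul_le_mul hy q2 (norm_nonneg _) (by norm_num)
    have r2 := mul_le_mul p2 q4 (norm_nonneg _) (by norm_num)
    have r3 := mul_le_mul p3 q6 (norm_nonneg _) (by norm_num)
    have r4 : ‖(-1 / 8 : ℂ)‖ = 1 / 8 := by simp
    rw [r4]
    linarith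
  rw [e, add_re, add_re]
  have a2 := (abs_le.1 ((abs_re_le_norm _).trans h2)).1
  have a3 := (abs_le.1 ((abs_re_le_norm _).trans h3)).1
  linarith

theorem wB {L T φ : ℝ} {z : ℂ} (hL : 47 / 10 ≤ L) (hφ : |φ| ≤ 42 / 100)
    (hm : 29 / 10 ≤ T * Real.exp (-L + be L)) (hm' : T * Real.exp (-L + be L) * sg L ≤ 29 / 100)
    (hz : ‖z - T‖ * sg L ≤ 3 / 20) :
    ‖om L (be L) φ * FB z (sv L (be L) φ)‖ ≤
      Real.exp (3 / 10 - T * Real.exp (-L + be L) -
        3 / 4 * (Real.exp (-(T * Real.exp (-L + be L))) / Real.exp (-L + be L)) -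
        1 / 2 * lam L * φ ^ 2) := by
  have hb0 := be_pos L
  have hb1 := be_le hL
  have hs0 := sg_pos L
  have hs1 := sg_le hL
  have hom := norm_om_le hL (b := be L) (by rw [abs_of_pos hb0]) hφ
  have hns := norm_sv L (be L) φ
  have hsv := sv_eq L (be L) φ
  have hR : Real.exp (-L + be L) = sg L * Real.exp (be L) := by rw [Real.exp_add]; rfl
  have hx1 : 1 ≤ Real.exp (be L) := Real.one_le_exp hb0.le
  have hx2 : Real.exp (be L) ≤ 1015 / 1000 := by
    have h3 := Real.abs_exp_sub_one_sub_id_le (x := be L) (by rw [abs_of_pos hb0]; linarith)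
    have h4 := (abs_le.1 h3).2
    nlinarith
  set R := Real.exp (-L + be L) with hRd
  have hR0 : 0 < R := Real.exp_pos _
  have hR1 : sg L ≤ R := by rw [hR]; nlinarith
  have hR2 : R ≤ 1015 / 1000 * sg L := by rw [hR]; nlinarith
  set m := T * R with hmd
  set s := sv L (be L) φ with hsd
  set ζ := z * s with hζ
  have hd : ‖ζ - (m : ℝ) * exp (φ * I)‖ ≤ 1523 / 10000 := by
    have e : ζ - (m : ℝ) * exp (φ * I) = (z - T) * s := by
      rw [hζ, hsv, hmd]
      push_cast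
      ring
    rw [e, norm_mul, hns]
    have := mul_le_mul_of_nonneg_left hR2 (norm_nonneg (z - T))
    linarith
  have hA := abs_le.1 ((abs_re_le_norm _).trans hd)
  have hB := abs_le.1 ((abs_im_le_norm _).trans hd)
  simp only [sub_re, sub_im, re_ofReal_mul, im_ofReal_mul, exp_ofReal_mul_I_re,
    exp_ofReal_mul_I_im] at hA hB
  have hc1 := cos_ge hφ
  have hc2 := Real.cos_le_one φ
  have hc3 := Real.one_sub_sq_div_two_le_cos (x := φ)
  have hA1 : 913 / 1000 * m - 1523 / 10000 ≤ ζ.re := by nlinarith [hA.1]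
  have hA2 : ζ.re ≤ m + 1523 / 10000 := by nlinarith [hA.2]
  have hA3 : m - m * φ ^ 2 / 2 - 1523 / 10000 ≤ ζ.re := by nlinarith [hA.1]
  have hθ : |ζ.im + φ| ≤ (m + 1) * |φ| + 1523 / 10000 := by
    have a1 : |m * Real.sin φ| ≤ m * |φ| := by
      rw [abs_mul, abs_of_nonneg (by linarith : 0 ≤ m)]
      exact mul_le_mul_of_nonneg_left Real.abs_sin_le_abs (by linarith)
    have a2 := abs_le.1 a1
    have a3 := le_abs_self φ
    have a4 := neg_abs_le φ
    rw [abs_le]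
    constructor <;> linarith [hB.1, hB.2]
  have hy : ‖exp (-ζ)‖ = Real.exp (-ζ.re) := by rw [norm_exp, neg_re]
  have hy1 : ‖exp (-ζ)‖ ≤ 1 / 12 := by
    rw [hy]
    exact wb_exp_neg (by norm_num) wb_exp2 (by linarith)
  have hg := wb_gB hy1 (s := s) (by rw [hns]; linarith)
  set u := Real.exp (-m) / R with hu
  have hu0 : 0 < u := by positivity
  set E := Real.exp (m - ζ.re) with hE
  have hE0 : Real.exp (-ζ.re) = Real.exp (-m) * E := by
    rw [hE, ← Real.exp_add]; congr 1; ring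
  have hre : (exp (-ζ) / s).re = u * (E * Real.cos (ζ.im + φ)) := by
    have e : exp (-ζ) / s = ((R⁻¹ : ℝ) : ℂ) * exp (-(ζ + φ * I)) := by
      rw [hsv, neg_add, exp_add, exp_neg (φ * I)]
      push_cast
      ring
    rw [e, re_ofReal_mul, exp_re]
    simp only [neg_re, neg_im, add_re, add_im, mul_re, mul_im, ofReal_re, ofReal_im, I_re, I_im,
      mul_zero, mul_one, sub_zero, add_zero, Real.cos_neg]
    rw [hE0, hu]
    ring
  have hq : ‖exp (-ζ)‖ ^ 2 / ‖s‖ ≤ u * (1 / 8) := by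
    have e : ‖exp (-ζ)‖ ^ 2 / ‖s‖ = u * Real.exp (m - 2 * ζ.re) := by
      rw [hy, hns, hu, div_mul_eq_mul_div, ← Real.exp_add, ← Real.exp_nat_mul]
      congr 2
      push_cast
      ring
    rw [e]
    exact mul_le_mul_of_nonneg_left (wb_exp_neg (by norm_num) wb_exp3 (by linarith)) hu0.le
  have hcore := wb_core (m := m) (x := |φ|) (E := E) (θ := ζ.im + φ) hm (abs_nonneg _)
    (by linarith [Real.add_one_le_exp (m - ζ.re)]) (Real.exp_le_exp.2 (by linarith)) hθ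
  rw [sq_abs] at hcore
  have hl := lam_mul_sg L
  have hl0 := lam_pos L
  have hcc := cc_gt
  have hl1 : m ≤ 1764 / 10000 * lam L := by
    refine le_of_mul_le_mul_right ?_ hs0
    rw [mul_assoc (1764 / 10000), hl]
    linarith
  have hl2 : 16449 / 10000 * (u * Real.exp m) ≤ lam L := by
    have e : u * Real.exp m = 1 / R := by
      rw [hu, div_mul_eq_mul_div, ← Real.exp_add, neg_add_cancel, Real.exp_zero]
    rw [e, mul_one_div, div_le_iff₀ hR0]
    nlinarith
  have hφ2 := sq_nonneg φ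
  have k1 := mul_le_mul_of_nonneg_right hl1 hφ2
  have k2 := mul_le_mul_of_nonneg_right hl2 hφ2
  have k3 := mul_le_mul_of_nonneg_left hcore hu0.le
  have k4 : 0 ≤ lam L * φ ^ 2 := by positivity
  have hFB : ‖FB z s‖ = Real.exp (-ζ.re - (gB (exp (-ζ)) s).re) := by
    unfold FB
    rw [norm_exp, sub_re, neg_re]
  rw [norm_mul, hFB]
  refine (mul_le_mul_of_nonneg_right hom (Real.exp_pos _).le).trans ?_
  rw [← Real.exp_add]
  refine Real.exp_le_exp.2 ?_
  rw [hre] at hg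
  linarith

end Pool.Agent.Lib.MP_6cad4c_al
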