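import Pool.Agent.Lib.MP_6cad4c_al.Arc
import Pool.Agent.Lib.MP_6cad4c_al.WA
import Pool.Agent.Lib.MP_6cad4c_al.WB
import Pool.Agent.Lib.MP_6cad4c_al.Quad
import Pool.Agent.Lib.MP_6cad4c_al.Trunc
import Pool.Agent.Lib.MP_6cad4c_al.QnEstA

namespace Pool.Agent.Lib.MP_6cad4c_al

open Finset

/-- numerator of the generating function of `qn t` -/
noncomputable def qnH (t : ℕ) (x : ℂ) : ℂ := x ^ t * ∏' k : ℕ, (1 - x ^ (k + t + 1))

theorem qnH_hasSum {t : ℕ} (ht : 1 ≤ t) (x : ℂ) (hx : ‖x‖ < 1) :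
    HasSum (fun k => (qn t k : ℂ) * x ^ k) (qnH t x / eul x) := by
  have h := hasSum_qn ht hx
  have h1 := eul_eq_prod_mul t hx
  have h2 := eul_ne_zero hx
  rw [h1] at h2
  have h3 := left_ne_zero_of_mul h2
  have h4 := right_ne_zero_of_mul h2
  have e : qnH t x / eul x = x ^ t * (∏ k ∈ range t, (1 - x ^ (k + 1)))⁻¹ := by
    rw [h1, qnH]
    field_simp
  rw [e]
  exact h

theorem qn_exp_pow (t : ℕ) (z : ℂ) : Complex.exp (-z) ^ t = Complex.exp (-(t * z)) := by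
  rw [← Complex.exp_nat_mul]; congr 1; ring

theorem qn_norm_exp (t : ℕ) (z : ℂ) :
    ‖Complex.exp (-(t * z))‖ = Real.exp (-(t * z.re)) := by
  rw [Complex.norm_exp]; simp

theorem qnH_norm_le (t : ℕ) {z : ℂ} {a b : ℝ} (hb : 0 < b) (hba : b ≤ a) (hz : a ≤ z.re) :
    ‖qnH t (Complex.exp (-z))‖ ≤
      Real.exp (-(t * a)) * Real.exp (Real.exp (-(t * a)) / b) := by
  have hz0 : 0 < z.re := by linarith
  have h1 := norm_tail_le t hz0
  have h2 : Real.exp (-(t * z.re)) ≤ Real.exp (-(t * a)) := by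
    apply Real.exp_le_exp.2
    have : (t : ℝ) * a ≤ t * z.re := by gcongr
    linarith
  rw [qnH, norm_mul, qn_exp_pow, qn_norm_exp]
  refine mul_le_mul h2 (h1.trans (Real.exp_le_exp.2 ?_)) (norm_nonneg _) (Real.exp_pos _).le
  have : b ≤ z.re := by linarith
  gcongr

theorem qn_cont_om (L b : ℝ) : Continuous fun φ : ℝ => om L b φ := by
  unfold om; fun_prop

theorem qn_cont_FB (L b : ℝ) (z : ℂ) : Continuous fun φ : ℝ => FB z (sv L b φ) := by
  have hs : Continuous fun φ : ℝ => sv L b φ := by unfold sv; fun_prop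
  have h0 : ∀ φ : ℝ, sv L b φ ≠ 0 := fun φ => Complex.exp_ne_zero _
  have hi : Continuous fun φ : ℝ => (sv L b φ)⁻¹ := hs.inv₀ h0
  have e : (fun φ : ℝ => FB z (sv L b φ)) = fun φ : ℝ => Complex.exp (-(z * sv L b φ) -
      (Complex.exp (-(z * sv L b φ)) * ((sv L b φ)⁻¹ - 1 / 2 + sv L b φ / 12) +
        Complex.exp (-(z * sv L b φ)) ^ 2 * ((sv L b φ)⁻¹ / 4 - 1 / 4 + sv L b φ / 12) +
        Complex.exp (-(z * sv L b φ)) ^ 3 * ((sv L b φ)⁻¹ / 9 - 1 / 6 + sv L b φ / 12) +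
        Complex.exp (-(z * sv L b φ)) ^ 4 * ((sv L b φ)⁻¹ / 16 - 1 / 8) +
        Complex.exp (-(z * sv L b φ)) ^ 5 * (sv L b φ)⁻¹ / 25)) := by
    funext φ
    unfold FB gB
    congr 2
    have := h0 φ
    field_simp
  rw [e]
  fun_prop

theorem qn_R_ge (L : ℝ) : sg L ≤ Real.exp (-L + be L) :=
  Real.exp_le_exp.2 (by linarith [be_pos L])

theorem qn_R_le {L : ℝ} (hL : 47 / 10 ≤ L) : Real.exp (-L + be L) ≤ 1015 / 1000 * sg L := by
  have h1 := be_le hL
  have h2 := be_pos L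
  have h3 : Real.exp (be L) ≤ 1 / (1 - be L) :=
    Real.exp_bound_div_one_sub_of_interval h2.le (by linarith)
  have h4 : 1 / (1 - be L) ≤ 1015 / 1000 := by
    rw [div_le_iff₀ (by linarith)]; linarith
  rw [Real.exp_add, mul_comm]
  exact mul_le_mul_of_nonneg_right (h3.trans h4) (sg_pos L).le

theorem qn_Rm_le (L : ℝ) : Real.exp (-L + -be L) ≤ sg L :=
  Real.exp_le_exp.2 (by linarith [be_pos L])

/-- pointwise truncation error on the arc -/
theorem qn_arc_point {L φ m ρ : ℝ} {t : ℕ} (hL : 47 / 10 ≤ L) (hφ : |φ| ≤ 42 / 100)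
    (hm : 29 / 10 ≤ m) (hmt : m ≤ t * Real.exp (-L + be L))
    (hρ : ρ = Real.exp (-(913 / 1000 * m)) * Real.exp (-L + be L) ^ 3 / 200 +
      Real.exp (-(913 / 1000 * m)) ^ 4 * Real.exp (-L + be L) / 10 +
      Real.exp (-(913 / 1000 * m)) ^ 5 / 9 +
      Real.exp (-(913 / 1000 * m)) ^ 6 / (20 * Real.exp (-L + be L))) :
    ‖qnH t (Complex.exp (-sv L (be L) φ)) - FB t (sv L (be L) φ)‖ ≤
      ‖FB t (sv L (be L) φ)‖ * (ρ * Real.exp ρ) := by
  have hR := qn_R_le hL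
  have hs := sg_le hL
  have hR0 := Real.exp_pos (-L + be L)
  have hc := cos_ge hφ
  have hn := norm_sv L (be L) φ
  have hre := re_sv L (be L) φ
  set R := Real.exp (-L + be L) with hRdef
  set z := sv L (be L) φ with hz
  have hre' : 913 / 1000 * R ≤ z.re := by rw [hre]; nlinarith
  have hy : ‖Complex.exp (-(t * z))‖ ≤ Real.exp (-(913 / 1000 * m)) := by
    rw [qn_norm_exp]
    apply Real.exp_le_exp.2
    have : (t : ℝ) * (913 / 1000 * R) ≤ t * z.re := by gcongr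
    linarith
  have hY := qn_Y_le hm
  obtain ⟨r, hr, he⟩ := tail_trunc t (s := z) (by rw [hn]; linarith) (by linarith)
    (by rw [hn]; linarith) (by linarith)
  have hr' : ‖r‖ ≤ ρ := by
    refine hr.trans ?_
    rw [hρ, hn]
    gcongr
  have e : qnH t (Complex.exp (-z)) - FB t z = FB t z * (Complex.exp r - 1) := by
    rw [qnH, he, qn_exp_pow, FB, mul_sub, mul_one, ← Complex.exp_add, ← Complex.exp_add]
    congr 2
    ring
  have h1 := Complex.norm_exp_sub_sum_le_norm_mul_exp r 1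
  simp only [Finset.sum_range_one, pow_zero, Nat.factorial_zero, Nat.cast_one, div_one,
    pow_one] at h1
  rw [e, norm_mul]
  refine mul_le_mul_of_nonneg_left (h1.trans ?_) (norm_nonneg _)
  have := norm_nonneg r
  gcongr
  linarith

theorem qn_point {n t : ℕ} {Φ : ℝ} (hL : 47 / 10 ≤ Ln n) (hΦ : 419 / 1000 ≤ Φ)
    (hΦ' : Φ ≤ 42 / 100) (hm : 29 / 10 ≤ t * Real.exp (-Ln n + -be (Ln n)))
    (hm' : t * Real.exp (-Ln n + be (Ln n)) * sg (Ln n) ≤ 29 / 100) :
    ‖JA (Ln n) Φ t‖ * ‖(qn t n : ℂ) / NJ (Ln n) - JB (Ln n) Φ t‖ ≤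
      sg (Ln n) ^ 5 / 400 + 29 / 10000 * sg (Ln n) ^ 3 *
        Real.exp (-(t * Real.exp (-Ln n + be (Ln n))) - 3 / 4 *
          (Real.exp (-(t * Real.exp (-Ln n + be (Ln n)))) / Real.exp (-Ln n + be (Ln n)))) := by
  have hΦ0 : 0 ≤ Φ := by linarith
  have hJA := norm_JA_le hL hΦ0 hΦ' hm
  have hs := sg_le hL
  have hs0 := sg_pos (Ln n)
  have hR1 := qn_R_ge (Ln n)
  have hR2 := qn_R_le hL
  have hR3 := qn_Rm_le (Ln n)
  have hR0 := Real.exp_pos (-Ln n + be (Ln n))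
  have ht0 : (0 : ℝ) ≤ t := Nat.cast_nonneg t
  have ht : 1 ≤ t := by
    rcases Nat.eq_zero_or_pos t with rfl | h
    · norm_num at hm
    · exact h
  have hc : 913 / 1000 ≤ Real.cos Φ := cos_ge (by rw [abs_of_nonneg hΦ0]; exact hΦ')
  have hf := qnH_hasSum ht
  have hcont := contOn_arc hf (Ln n) (be (Ln n)) hΦ'
  have hfar : ∀ z : ℂ, Real.exp (-Ln n + be (Ln n)) * Real.cos Φ ≤ z.re →
      ‖qnH t (Complex.exp (-z))‖ ≤
        Real.exp (-(t * (913 / 1000 * Real.exp (-Ln n + be (Ln n))))) *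
          Real.exp (Real.exp (-(t * (913 / 1000 * Real.exp (-Ln n + be (Ln n))))) /
            (913 / 1000 * sg (Ln n))) := fun z hz =>
    qnH_norm_le t (by positivity) (by linarith) (by nlinarith)
  have harc := arc_est hL hf (b := be (Ln n)) (Φ := Φ) (G₀ := 0) (G₂ := 0)
    (h := Real.exp (-(t * (913 / 1000 * Real.exp (-Ln n + be (Ln n))))) *
          Real.exp (Real.exp (-(t * (913 / 1000 * Real.exp (-Ln n + be (Ln n))))) /
            (913 / 1000 * sg (Ln n))))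
    (by rw [abs_of_pos (be_pos _)]) hΦ hΦ'
    (fun τ h1 _ => by
      refine (hfar _ (by simp [-Complex.ofReal_exp, -Complex.ofReal_cos])).trans ?_
      refine le_mul_of_one_le_right (by positivity) (Real.one_le_exp ?_)
      apply div_nonneg _ hs0.le
      linarith)
    (fun z hz => by
      rw [zero_div, Real.exp_zero, mul_one]
      exact hfar z hz)
  generalize hLdef : Ln n = L at *
  set R := Real.exp (-L + be L) with hRdef
  set m := t * Real.exp (-L + -be L) with hmdef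
  have hms : m ≤ t * sg L := by rw [hmdef]; gcongr
  have hmR : m ≤ t * R := hms.trans (by gcongr)
  have hv := qn_vert hs0 hs hm hms (y := Real.exp (-(t * (913 / 1000 * R))))
    (Real.exp_le_exp.2 (by linarith))
  set ρ := Real.exp (-(913 / 1000 * m)) * R ^ 3 / 200 + Real.exp (-(913 / 1000 * m)) ^ 4 * R / 10 +
      Real.exp (-(913 / 1000 * m)) ^ 5 / 9 + Real.exp (-(913 / 1000 * m)) ^ 6 / (20 * R) with hρ
  have hρ0 : 0 ≤ ρ := by rw [hρ]; positivity
  have hrho := qn_rho hs0 hs hR1 hR2 hm hms rfl hρ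
  set W := Real.exp (-(t * R) - 3 / 4 * (Real.exp (-(t * R)) / R)) with hW
  have hW0 : 0 < W := Real.exp_pos _
  have hint := norm_int_le hL hΦ0 (K := ρ * Real.exp ρ * (Real.exp (3 / 10) * W)) (q := 1 / 2)
    (r := 14143 / 10000) (by positivity) (by norm_num) (by norm_num) (by norm_num)
    (f := fun φ => om L (be L) φ * qnH t (Complex.exp (-sv L (be L) φ)) -
      om L (be L) φ * FB t (sv L (be L) φ))
    (fun φ hφ => by
      have hφ' : |φ| ≤ 42 / 100 := hφ.trans hΦ'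
      have h1 := qn_arc_point hL hφ' hm hmR hρ
      have h2 := wB (L := L) (T := t) (φ := φ) (z := t) hL hφ' (hm.trans hmR) hm' (by norm_num)
      have h3 : Real.exp (3 / 10 - t * R - 3 / 4 * (Real.exp (-(t * R)) / R) -
          1 / 2 * lam L * φ ^ 2) =
          Real.exp (3 / 10) * W * Real.exp (-(1 / 2 * lam L * φ ^ 2)) := by
        rw [hW, ← Real.exp_add, ← Real.exp_add]; congr 1; ring
      rw [h3, norm_mul] at h2
      rw [← mul_sub, norm_mul]
      calc _ ≤ ‖om L (be L) φ‖ * (‖FB t (sv L (be L) φ)‖ * (ρ * Real.exp ρ)) := by gcongr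
        _ = ‖om L (be L) φ‖ * ‖FB t (sv L (be L) φ)‖ * (ρ * Real.exp ρ) := by ring
        _ ≤ Real.exp (3 / 10) * W * Real.exp (-(1 / 2 * lam L * φ ^ 2)) * (ρ * Real.exp ρ) := by
            gcongr
        _ = _ := by ring)
  have hi1 : IntervalIntegrable
      (fun φ : ℝ => om L (be L) φ * qnH t (Complex.exp (-sv L (be L) φ))) MeasureTheory.volume
      (-Φ) Φ := by
    apply ContinuousOn.intervalIntegrable
    rw [Set.uIcc_of_le (by linarith)]
    exact (qn_cont_om L (be L)).continuousOn.mul hcont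
  have hi2 : IntervalIntegrable
      (fun φ : ℝ => om L (be L) φ * FB t (sv L (be L) φ)) MeasureTheory.volume (-Φ) Φ :=
    ((qn_cont_om L (be L)).mul (qn_cont_FB L (be L) t)).intervalIntegrable _ _
  rw [intervalIntegral.integral_sub hi1 hi2] at hint
  have hJ := J0_pos L
  set I1 := ∫ φ in -Φ..Φ, om L (be L) φ * qnH t (Complex.exp (-sv L (be L) φ)) with hI1
  have h4 : ‖I1 / J0 L - JB L Φ t‖ ≤
      1003 / 1000 * (14143 / 10000) * (ρ * Real.exp ρ * (Real.exp (3 / 10) * W)) := by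
    rw [JB, ← sub_div, norm_div, Complex.norm_real, Real.norm_of_nonneg hJ.le, div_le_iff₀ hJ]
    exact hint
  have h5 : Real.exp (3 / 10) ≤ 1351 / 1000 := by
    have := Real.exp_bound' (x := 3 / 10) (by norm_num) (by norm_num) (n := 3) (by norm_num)
    simp only [Finset.sum_range_succ, Finset.sum_range_zero, Nat.factorial] at this
    norm_num at this
    linarith
  have h6 := (norm_sub_le_norm_sub_add_norm_sub ((qn t n : ℂ) / NJ L) (I1 / J0 L)
    (JB L Φ t)).trans (add_le_add harc h4)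
  have hs3 : 0 < sg L ^ 3 := by positivity
  refine (mul_le_mul hJA h6 (norm_nonneg _) (by positivity)).trans ?_
  rw [mul_add]
  refine add_le_add hv ?_
  calc _ = 7 / 4 * (1003 / 1000 * (14143 / 10000)) * Real.exp (3 / 10) *
        (ρ * Real.exp ρ * Real.exp (-(11 / 20 * (t * Real.exp (-m))))) * W := by ring
    _ ≤ 7 / 4 * (1003 / 1000 * (14143 / 10000)) * (1351 / 1000) * (85 / 100000 * sg L ^ 3) * W := by
        gcongr
    _ ≤ _ := by
        apply mul_le_mul_of_nonneg_right _ hW0.le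
        linarith

theorem qn_est {n t₀ t₁ : ℕ} {Φ : ℝ} (hL : 47 / 10 ≤ Ln n) (hΦ : 419 / 1000 ≤ Φ)
    (hΦ' : Φ ≤ 42 / 100) (hm : 29 / 10 ≤ t₀ * Real.exp (-Ln n + -be (Ln n)))
    (hm' : t₁ * Real.exp (-Ln n + be (Ln n)) * sg (Ln n) ≤ 29 / 100) :
    ∑ t ∈ Icc t₀ t₁, ‖JA (Ln n) Φ t‖ * ‖(qn t n : ℂ) / NJ (Ln n) - JB (Ln n) Φ t‖ ≤
      sg (Ln n) ^ 3 / 200 := by
  have hs := sg_le hL
  have hs0 := sg_pos (Ln n)
  have hR1 := qn_R_ge (Ln n)
  have hR2 := qn_R_le hL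
  have hR0 := Real.exp_pos (-Ln n + be (Ln n))
  have hR0' := Real.exp_pos (-Ln n + -be (Ln n))
  have ht : 1 ≤ t₀ := by
    rcases Nat.eq_zero_or_pos t₀ with rfl | h
    · norm_num at hm
    · exact h
  refine (sum_le_sum fun t ht => qn_point hL hΦ hΦ' (hm.trans ?_) (le_trans ?_ hm')).trans ?_
  · have : (t₀ : ℝ) ≤ t := by exact_mod_cast (mem_Icc.1 ht).1
    gcongr
  · have : (t : ℝ) ≤ t₁ := by exact_mod_cast (mem_Icc.1 ht).2
    gcongr
  have h1 := tele_sum hR0 (by linarith) (show (0 : ℝ) < 3 / 4 by norm_num) t₀ t₁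
  rw [sum_add_distrib, ← mul_sum, sum_const, Nat.card_Icc, nsmul_eq_mul]
  have h2 : ((t₁ + 1 - t₀ : ℕ) : ℝ) ≤ t₁ := by exact_mod_cast (by omega : t₁ + 1 - t₀ ≤ t₁)
  generalize Ln n = L at *
  have hs3 : 0 < sg L ^ 3 := by positivity
  have h3 : (t₁ : ℝ) * sg L * sg L ≤ 29 / 100 := le_trans (by gcongr) hm'
  have h4 : ((t₁ + 1 - t₀ : ℕ) : ℝ) * (sg L ^ 5 / 400) ≤ 29 / 100 * sg L ^ 3 / 400 := by
    calc _ ≤ t₁ * (sg L ^ 5 / 400) := by gcongr
      _ = t₁ * sg L * sg L * sg L ^ 3 / 400 := by ring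
      _ ≤ _ := by gcongr
  have h5 := mul_le_mul_of_nonneg_left h1 (show 0 ≤ 29 / 10000 * sg L ^ 3 by positivity)
  linarith

end Pool.Agent.Lib.MP_6cad4c_al
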