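import Pool.Agent.Lib.MP_6cad4c_al.PtBase

namespace Pool.Agent.Lib.MP_6cad4c_al

variable {q : Pr} {x y : ℝ}

theorem ptA_key {r R B k : ℝ} (hr : 0 ≤ r) (hR : r ≤ R) (hB : 0 < B) (hk : 0 ≤ k) :
    Real.exp (k * r) * min (B * r / 2) 2 ≤
      r * max (B / 2 * Real.exp (4 * k / B)) (2 / R * Real.exp (k * R)) := by
  rcases le_total r (4 / B) with h | h
  · have h1 : Real.exp (k * r) ≤ Real.exp (4 * k / B) := by
      apply Real.exp_le_exp.2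
      calc k * r ≤ k * (4 / B) := by gcongr
        _ = _ := by ring
    calc _ ≤ Real.exp (4 * k / B) * (B * r / 2) :=
          mul_le_mul h1 (min_le_left _ _) (le_min (by positivity) (by norm_num)) (by positivity)
      _ = r * (B / 2 * Real.exp (4 * k / B)) := by ring
      _ ≤ _ := by gcongr; exact le_max_left _ _
  · set M := max (B / 2 * Real.exp (4 * k / B)) (2 / R * Real.exp (k * R)) with hM
    have h0 : 0 < 4 / B := by positivity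
    have hR0 : 0 < R := by linarith
    have e1 : 2 * Real.exp (k * (4 / B)) ≤ 4 / B * M := by
      calc _ = 4 / B * (B / 2 * Real.exp (4 * k / B)) := by
            rw [show k * (4 / B) = 4 * k / B by ring]; field_simp; norm_num
        _ ≤ _ := by gcongr; exact le_max_left _ _
    have e2 : 2 * Real.exp (k * R) ≤ R * M := by
      calc _ = R * (2 / R * Real.exp (k * R)) := by field_simp
        _ ≤ _ := by gcongr; exact le_max_right _ _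
    obtain ⟨a, b, ha, hb, hab, hr'⟩ := (Convex.mem_Icc (h.trans hR)).1 ⟨h, hR⟩
    have hc := convexOn_exp.2 (Set.mem_univ (k * (4 / B))) (Set.mem_univ (k * R)) ha hb hab
    simp only [smul_eq_mul] at hc
    rw [show a * (k * (4 / B)) + b * (k * R) = k * r by rw [← hr']; ring] at hc
    calc _ ≤ Real.exp (k * r) * 2 := by gcongr; exact min_le_right _ _
      _ ≤ a * (2 * Real.exp (k * (4 / B))) + b * (2 * Real.exp (k * R)) := by linarith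
      _ ≤ a * (4 / B * M) + b * (R * M) := by gcongr
      _ = r * M := by rw [← hr']; ring

theorem ptA_neg {G w T : ℝ} (hG : 1 ≤ G) (hw : w ^ 2 ≤ T) :
    1 - G * Real.cos w ≤ G * min (T / 2) 2 := by
  have h1 : 1 - Real.cos w ≤ min (T / 2) 2 :=
    le_min (by linarith [Real.one_sub_sq_div_two_le_cos (x := w)])
      (by linarith [Real.neg_one_le_cos w])
  have h2 : G * (1 - Real.cos w) ≤ G * min (T / 2) 2 := by gcongr
  linarith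

theorem ptA_cos_le {φ : ℝ} (hφ : |φ| ≤ 42 / 100) :
    Real.cos φ ≤ 1 - φ ^ 2 / 2 + 147 / 20000 * φ ^ 2 := by
  have h4 : Real.cos φ = 1 - 2 * Real.sin (|φ| / 2) ^ 2 := by
    rw [← Real.cos_abs φ]
    conv_lhs => rw [show |φ| = 2 * (|φ| / 2) by ring, Real.cos_two_mul, Real.cos_sq']
    ring
  have h0 := abs_nonneg φ
  set y := |φ| / 2 with hy
  have hy0 : 0 ≤ y := by positivity
  have hy1 : y ≤ 21 / 100 := by linarith
  have h5 : y - y ^ 3 / 6 ≤ Real.sin y := Real.sin_ge_sub_cube hy0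
  have h6 : φ ^ 2 = 4 * y ^ 2 := by rw [hy, ← sq_abs φ]; ring
  have h7 : y ^ 2 ≤ 441 / 10000 := by nlinarith
  have h8 : (1 - 147 / 20000) * y ≤ Real.sin y := by nlinarith
  have h9 : ((1 - 147 / 20000) * y) ^ 2 ≤ Real.sin y ^ 2 := by gcongr
  rw [h4, h6]; nlinarith

theorem ptA_m_pos (hq : q.Ok) : 0 < q.m := by linarith [hq.m]

theorem ptA_A2_pos (hq : q.Ok) : 0 < q.A2 := by
  have := ptA_m_pos hq
  unfold Pr.A2; positivity

theorem ptA_x_pos (hq : q.Ok) : 0 < q.x := by rw [hq.x]; positivity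

theorem ptA_xb_pos : 0 < q.xb := Real.exp_pos _

theorem ptA_eo_le (hq : q.Ok) (φ₁ φ₂ : ℝ) : eo q φ₁ φ₂ ≤ q.m * (φ₁ ^ 2 + φ₂ ^ 2) := by
  have := ptA_m_pos hq
  have h := Real.one_sub_sq_div_two_le_cos (x := φ₂ - φ₁)
  unfold eo
  gcongr
  nlinarith [sq_nonneg (φ₁ + φ₂)]

theorem ptA_ang (hq : q.Ok) (φ₁ φ₂ : ℝ) {n c : ℝ} (hc : |c| ≤ n) :
    (n * vt q φ₁ φ₂ - c * φ₂) ^ 2 ≤ n ^ 2 * (q.A2 * (φ₁ ^ 2 + φ₂ ^ 2)) := by
  have hm := ptA_m_pos hq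
  have hn : 0 ≤ n := (abs_nonneg c).trans hc
  have h1 : |vt q φ₁ φ₂| ≤ q.m * (|φ₁| + |φ₂|) := by
    rw [vt, abs_mul, abs_of_pos hm]
    gcongr
    refine Real.abs_sin_le_abs.trans ((abs_sub _ _).trans (le_of_eq (add_comm _ _)))
  have h2 : |n * vt q φ₁ φ₂ - c * φ₂| ≤ n * (q.m * |φ₁| + (q.m + 1) * |φ₂|) := by
    calc _ ≤ |n * vt q φ₁ φ₂| + |c * φ₂| := abs_sub _ _
      _ = n * |vt q φ₁ φ₂| + |c| * |φ₂| := by rw [abs_mul, abs_mul, abs_of_nonneg hn]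
      _ ≤ n * (q.m * (|φ₁| + |φ₂|)) + n * |φ₂| := by gcongr
      _ = _ := by ring
  have h3 : (q.m * |φ₁| + (q.m + 1) * |φ₂|) ^ 2 ≤ q.A2 * (φ₁ ^ 2 + φ₂ ^ 2) := by
    rw [← sq_abs φ₁, ← sq_abs φ₂, Pr.A2]
    nlinarith [sq_nonneg (q.m * |φ₂| - (q.m + 1) * |φ₁|)]
  calc _ = |n * vt q φ₁ φ₂ - c * φ₂| ^ 2 := (sq_abs _).symm
    _ ≤ (n * (q.m * |φ₁| + (q.m + 1) * |φ₂|)) ^ 2 := by gcongr
    _ = n ^ 2 * (q.m * |φ₁| + (q.m + 1) * |φ₂|) ^ 2 := by ring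
    _ ≤ _ := by gcongr

theorem ptA_omg (hq : q.Ok) (φ₁ φ₂ : ℝ) (a : ℕ) {e : ℕ} (he : e ≤ 2) :
    omg q φ₁ φ₂ a e ^ 2 ≤ ((a : ℝ) + 1) ^ 2 * (q.A2 * (φ₁ ^ 2 + φ₂ ^ 2)) := by
  apply ptA_ang hq
  have h1 : (e : ℝ) ≤ 2 := by exact_mod_cast he
  have h2 : (0 : ℝ) ≤ e := Nat.cast_nonneg e
  have h3 : (0 : ℝ) ≤ a := Nat.cast_nonneg a
  exact abs_le.2 ⟨by linarith, by linarith⟩

theorem ptA_u_le (hq : q.Ok) : q.u ≤ q.la * cc⁻¹ * q.x := by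
  have h := hq.ux
  have hc := cc_pos
  rw [mul_right_comm, ← div_eq_mul_inv, le_div_iff₀ hc]
  exact h

theorem ptA_x_exp (hq : q.Ok) : q.x * Real.exp (q.m * (441 / 1250)) = q.xb := by
  rw [hq.x, ← Real.exp_add, Pr.xb]
  congr 1
  ring

section
variable (hq : q.Ok) {φ₁ φ₂ : ℝ} (h₁ : |φ₁| ≤ 42 / 100) (h₂ : |φ₂| ≤ 42 / 100)
include h₁ h₂

theorem ptA_r_le : φ₁ ^ 2 + φ₂ ^ 2 ≤ 441 / 1250 := by
  have a1 : |φ₁| ^ 2 ≤ (42 / 100) ^ 2 := by gcongr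
  have a2 : |φ₂| ^ 2 ≤ (42 / 100) ^ 2 := by gcongr
  rw [sq_abs] at a1 a2
  linarith

include hq

theorem ptA_main : q.u * (gg q φ₁ φ₂ * min (q.A2 * (φ₁ ^ 2 + φ₂ ^ 2) / 2) 2) ≤
    q.la * cc⁻¹ * max ((1 / 2) * q.xAe) q.xr * (φ₁ ^ 2 + φ₂ ^ 2) := by
  have hA := ptA_A2_pos hq
  have hx := ptA_x_pos hq
  have hl := hq.la
  have hc := cc_pos
  have hk := ptA_key (by positivity) (ptA_r_le h₁ h₂) hA (ptA_m_pos hq).le
  have hg : gg q φ₁ φ₂ ≤ Real.exp (q.m * (φ₁ ^ 2 + φ₂ ^ 2)) :=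
    Real.exp_le_exp.2 (ptA_eo_le hq _ _)
  have hmin : 0 ≤ min (q.A2 * (φ₁ ^ 2 + φ₂ ^ 2) / 2) 2 := le_min (by positivity) (by norm_num)
  have e : q.x * max (q.A2 / 2 * Real.exp (4 * q.m / q.A2))
      (2 / (441 / 1250) * Real.exp (q.m * (441 / 1250))) = max ((1 / 2) * q.xAe) q.xr := by
    rw [mul_max_of_nonneg _ _ hx.le, Pr.xAe, Pr.xr, Pr.e4, ← ptA_x_exp hq, div_eq_mul_inv (4 * _)]
    congr 1 <;> ring
  calc _ ≤ q.la * cc⁻¹ * q.x * (Real.exp (q.m * (φ₁ ^ 2 + φ₂ ^ 2)) *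
        min (q.A2 * (φ₁ ^ 2 + φ₂ ^ 2) / 2) 2) := by
        have := ptA_u_le hq
        have : 0 ≤ gg q φ₁ φ₂ := (Real.exp_pos _).le
        gcongr
    _ ≤ _ := by
        refine (mul_le_mul_of_nonneg_left hk (by positivity)).trans (le_of_eq ?_)
        rw [← e]
        ring

theorem ptA_negGen (a : ℕ) {e : ℕ} (he : e ≤ 2) :
    q.u * q.x ^ a * (1 - gg q φ₁ φ₂ ^ (a + 1) * Real.cos (omg q φ₁ φ₂ a e)) ≤
      ((a : ℝ) + 1) ^ 2 * q.xb ^ a *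
        (q.la * cc⁻¹ * max ((1 / 2) * q.xAe) q.xr * (φ₁ ^ 2 + φ₂ ^ 2)) := by
  have hA := ptA_A2_pos hq
  have hx := ptA_x_pos hq
  have hu := hq.u
  have hg := one_le_gg hq φ₁ φ₂
  have hxb : 0 < q.xb := ptA_xb_pos
  have h1 := ptA_neg (one_le_pow₀ (n := a + 1) hg) (ptA_omg hq φ₁ φ₂ a he)
  have h0 : (1 : ℝ) ≤ ((a : ℝ) + 1) ^ 2 := one_le_pow₀ (by linarith [Nat.cast_nonneg (α := ℝ) a])
  have h2 : min (((a : ℝ) + 1) ^ 2 * (q.A2 * (φ₁ ^ 2 + φ₂ ^ 2)) / 2) 2 ≤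
      ((a : ℝ) + 1) ^ 2 * min (q.A2 * (φ₁ ^ 2 + φ₂ ^ 2) / 2) 2 := by
    rw [mul_min_of_nonneg _ _ (by positivity)]
    exact min_le_min (le_of_eq (by ring)) (by linarith)
  have h3 : (q.x * gg q φ₁ φ₂) ^ a ≤ q.xb ^ a :=
    pow_le_pow_left₀ (by positivity) (xg_le hq h₁ h₂) a
  have hmin : 0 ≤ min (q.A2 * (φ₁ ^ 2 + φ₂ ^ 2) / 2) 2 := le_min (by positivity) (by norm_num)
  calc _ ≤ q.u * q.x ^ a * (gg q φ₁ φ₂ ^ (a + 1) *
        (((a : ℝ) + 1) ^ 2 * min (q.A2 * (φ₁ ^ 2 + φ₂ ^ 2) / 2) 2)) := by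
        gcongr
        exact h1.trans (by gcongr)
    _ = ((a : ℝ) + 1) ^ 2 * (q.x * gg q φ₁ φ₂) ^ a *
        (q.u * (gg q φ₁ φ₂ * min (q.A2 * (φ₁ ^ 2 + φ₂ ^ 2) / 2) 2)) := by ring
    _ ≤ _ := by
        have := ptA_main hq h₁ h₂
        gcongr

theorem ptA_negOne {e : ℕ} (he : e ≤ 2) :
    q.u * q.x ^ 1 * (1 - gg q φ₁ φ₂ ^ (1 + 1) * Real.cos (omg q φ₁ φ₂ 1 e)) ≤
      q.la * cc⁻¹ * max (2 * q.x * q.xAe) (q.xr * q.xb) * (φ₁ ^ 2 + φ₂ ^ 2) := by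
  have hA := ptA_A2_pos hq
  have hx := ptA_x_pos hq
  have hm := ptA_m_pos hq
  have hu := hq.u
  have hl := hq.la
  have hc := cc_pos
  have hg := one_le_gg hq φ₁ φ₂
  have h1 := ptA_neg (one_le_pow₀ (n := 1 + 1) hg) (ptA_omg hq φ₁ φ₂ 1 he)
  have hk := ptA_key (B := 4 * q.A2) (k := 2 * q.m) (by positivity) (ptA_r_le h₁ h₂)
    (by positivity) (by positivity)
  have hg2 : gg q φ₁ φ₂ ^ (1 + 1) ≤ Real.exp (2 * q.m * (φ₁ ^ 2 + φ₂ ^ 2)) := by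
    rw [gg, ← Real.exp_nat_mul]
    apply Real.exp_le_exp.2
    have := ptA_eo_le hq φ₁ φ₂
    push_cast
    linarith
  rw [show (((1 : ℕ) : ℝ) + 1) ^ 2 * (q.A2 * (φ₁ ^ 2 + φ₂ ^ 2)) = 4 * q.A2 * (φ₁ ^ 2 + φ₂ ^ 2) by
    push_cast; ring] at h1
  have hmin : 0 ≤ min (4 * q.A2 * (φ₁ ^ 2 + φ₂ ^ 2) / 2) 2 := le_min (by positivity) (by norm_num)
  have e : q.x * q.x * max (4 * q.A2 / 2 * Real.exp (4 * (2 * q.m) / (4 * q.A2)))
      (2 / (441 / 1250) * Real.exp (2 * q.m * (441 / 1250))) ≤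
      max (2 * q.x * q.xAe) (q.xr * q.xb) := by
    rw [mul_max_of_nonneg _ _ (by positivity)]
    refine max_le_max ?_ (le_of_eq ?_)
    · have : Real.exp (4 * (2 * q.m) / (4 * q.A2)) ≤ q.e4 := by
        apply Real.exp_le_exp.2
        rw [← div_eq_mul_inv, div_le_div_iff₀ (by positivity) hA]
        nlinarith [mul_pos hm hA]
      calc _ ≤ q.x * q.x * (4 * q.A2 / 2 * q.e4) := by gcongr
        _ = _ := by rw [Pr.xAe]; ring
    · rw [Pr.xr, ← ptA_x_exp hq, show 2 * q.m * (441 / 1250) =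
        q.m * (441 / 1250) + q.m * (441 / 1250) by ring, Real.exp_add]
      ring
  have hux := ptA_u_le hq
  calc _ ≤ q.u * q.x ^ 1 * (Real.exp (2 * q.m * (φ₁ ^ 2 + φ₂ ^ 2)) *
        min (4 * q.A2 * (φ₁ ^ 2 + φ₂ ^ 2) / 2) 2) := by
        gcongr
        exact h1.trans (by gcongr)
    _ ≤ q.la * cc⁻¹ * q.x * q.x ^ 1 * ((φ₁ ^ 2 + φ₂ ^ 2) *
        max (4 * q.A2 / 2 * Real.exp (4 * (2 * q.m) / (4 * q.A2)))
          (2 / (441 / 1250) * Real.exp (2 * q.m * (441 / 1250)))) := by gcongr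
    _ = q.la * cc⁻¹ * (q.x * q.x * max (4 * q.A2 / 2 * Real.exp (4 * (2 * q.m) / (4 * q.A2)))
          (2 / (441 / 1250) * Real.exp (2 * q.m * (441 / 1250)))) * (φ₁ ^ 2 + φ₂ ^ 2) := by ring
    _ ≤ _ := by gcongr

theorem ptA_pos (a e : ℕ) :
    q.u * q.x ^ a * (gg q φ₁ φ₂ ^ (a + 1) * Real.cos (omg q φ₁ φ₂ a e) - 1) ≤
      ((a : ℝ) + 1) * q.xb ^ a * (q.la * cc⁻¹ * q.xb * q.m * (φ₁ ^ 2 + φ₂ ^ 2)) := by
  have hx := ptA_x_pos hq
  have hm := ptA_m_pos hq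
  have hu := hq.u
  have hl := hq.la
  have hc := cc_pos
  have hg := one_le_gg hq φ₁ φ₂
  have hxb : 0 < q.xb := ptA_xb_pos
  have hxg := xg_le hq h₁ h₂
  have heo := ptA_eo_le hq φ₁ φ₂
  have h1 : gg q φ₁ φ₂ ^ (a + 1) * Real.cos (omg q φ₁ φ₂ a e) - 1 ≤
      gg q φ₁ φ₂ ^ (a + 1) * (((a : ℝ) + 1) * (q.m * (φ₁ ^ 2 + φ₂ ^ 2))) := by
    have e1 : gg q φ₁ φ₂ ^ (a + 1) = Real.exp (((a : ℝ) + 1) * eo q φ₁ φ₂) := by
      rw [gg, ← Real.exp_nat_mul]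
      push_cast
      rfl
    rw [e1]
    set t := ((a : ℝ) + 1) * eo q φ₁ φ₂ with ht
    have e2 : t ≤ ((a : ℝ) + 1) * (q.m * (φ₁ ^ 2 + φ₂ ^ 2)) := by rw [ht]; gcongr
    have e3 := Real.add_one_le_exp (-t)
    have e4 : Real.exp t * Real.exp (-t) = 1 := by rw [← Real.exp_add]; simp
    have e5 := Real.exp_pos t
    have e6 := mul_le_mul_of_nonneg_left e3 e5.le
    have e7 := mul_le_mul_of_nonneg_left (Real.cos_le_one (omg q φ₁ φ₂ a e)) e5.le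
    have e8 := mul_le_mul_of_nonneg_left e2 e5.le
    linarith
  have h3 : (q.x * gg q φ₁ φ₂) ^ a ≤ q.xb ^ a := pow_le_pow_left₀ (by positivity) hxg a
  have h4 : q.u * gg q φ₁ φ₂ ≤ q.la * cc⁻¹ * q.xb := by
    calc _ ≤ q.la * cc⁻¹ * q.x * gg q φ₁ φ₂ := by have := ptA_u_le hq; gcongr
      _ = q.la * cc⁻¹ * (q.x * gg q φ₁ φ₂) := by ring
      _ ≤ _ := by gcongr
  calc _ ≤ q.u * q.x ^ a * (gg q φ₁ φ₂ ^ (a + 1) *
        (((a : ℝ) + 1) * (q.m * (φ₁ ^ 2 + φ₂ ^ 2)))) := by gcongr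
    _ = ((a : ℝ) + 1) * (q.x * gg q φ₁ φ₂) ^ a *
        (q.u * gg q φ₁ φ₂ * q.m * (φ₁ ^ 2 + φ₂ ^ 2)) := by ring
    _ ≤ _ := by gcongr

end

theorem aB_le (hq : q.Ok) {φ₁ φ₂ : ℝ} (h₁ : |φ₁| ≤ 42 / 100) (h₂ : |φ₂| ≤ 42 / 100) :
    aB q φ₁ φ₂ ≤ (q.m + q.la * q.qB) * (φ₁ ^ 2 + φ₂ ^ 2) := by
  have hs := hq.sp
  have hs2 : 0 ≤ q.sp ^ 2 := by positivity
  have heo := ptA_eo_le hq φ₁ φ₂
  have hal : al q φ₁ φ₂ ^ 2 ≤ q.A2 * (φ₁ ^ 2 + φ₂ ^ 2) := by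
    have := ptA_ang hq φ₁ φ₂ (n := 1) (c := -1) (by simp)
    simpa [al] using this
  have m0 := (mul_le_mul_of_nonneg_left (ptA_neg (one_le_gg hq φ₁ φ₂) hal) hq.u).trans
    (ptA_main hq h₁ h₂)
  have n02 := mul_le_mul_of_nonneg_left (ptA_negGen hq h₁ h₂ 0 (e := 2) le_rfl) hs2
  have n10 := ptA_negOne hq h₁ h₂ (e := 0) (by norm_num)
  have n12 := mul_le_mul_of_nonneg_left (ptA_negOne hq h₁ h₂ (e := 2) le_rfl) hs2
  have n20 := ptA_negGen hq h₁ h₂ 2 (e := 0) (by norm_num)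
  have n22 := mul_le_mul_of_nonneg_left (ptA_negGen hq h₁ h₂ 2 (e := 2) le_rfl) hs2
  have n30 := ptA_negGen hq h₁ h₂ 3 (e := 0) (by norm_num)
  have n40 := ptA_negGen hq h₁ h₂ 4 (e := 0) (by norm_num)
  have p0 := mul_le_mul_of_nonneg_left (ptA_pos hq h₁ h₂ 0 1) hs
  have p1 := mul_le_mul_of_nonneg_left (ptA_pos hq h₁ h₂ 1 1) hs
  have p2 := mul_le_mul_of_nonneg_left (ptA_pos hq h₁ h₂ 2 1) hs
  have p3 := mul_le_mul_of_nonneg_left (ptA_pos hq h₁ h₂ 3 1) hs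
  simp only [aB, msum, kt, Pr.qB, Pr.rn, Pr.s2q]
  simp only [Nat.cast_zero, Nat.cast_one, Nat.cast_ofNat] at n02 n20 n22 n30 n40 p0 p1 p2 p3
  generalize max (1 / 2 * q.xAe) q.xr = X1, max (2 * q.x * q.xAe) (q.xr * q.xb) = X2,
    φ₁ ^ 2 + φ₂ ^ 2 = r at *
  linear_combination heo + m0 + (1 / 12) * n02 + (1 / 4) * n10 + (1 / 12) * n12 + (1 / 9) * n20 +
    (1 / 12) * n22 + (1 / 16) * n30 + (1 / 25) * n40 + (1 / 2) * p0 + (1 / 4) * p1 + (1 / 6) * p2 +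
    (1 / 8) * p3

theorem aF_le (hq : q.Ok) (hx : |q.et * x| ≤ 42 / 100) (hy : |q.et * y| ≤ 42 / 100) :
    aF q (q.et * x) (q.et * y) ≤ q.qa * ((x ^ 2 + y ^ 2) / 2) := by
  have hB := aB_le hq hx hy
  have e : (x ^ 2 + y ^ 2) / 2 = q.la * ((q.et * x) ^ 2 + (q.et * y) ^ 2) := by
    have h1 := hq.laks
    rw [hq.ks] at h1
    linear_combination (-(x ^ 2 + y ^ 2) / 2) * h1
  rw [e]
  generalize q.et * x = φ₁, q.et * y = φ₂ at *
  have c1 := mul_le_mul_of_nonneg_left (ptA_cos_le hx) hq.la.le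
  have c2 := mul_le_mul_of_nonneg_left (ptA_cos_le hy) hq.la.le
  have c3 : 0 ≤ q.C * (2 - Real.cos φ₁ - Real.cos φ₂) :=
    mul_nonneg hq.C (by linarith [Real.cos_le_one φ₁, Real.cos_le_one φ₂])
  have c4 : q.V * (1 - Real.cos φ₁) ≤ q.V * ((φ₁ ^ 2 + φ₂ ^ 2) / 2) :=
    mul_le_mul_of_nonneg_left
      (by linarith [Real.one_sub_sq_div_two_le_cos (x := φ₁), sq_nonneg φ₂]) hq.V
  simp only [aF, gam, Pr.qa, Pr.qg]
  linear_combination hB + 2 * c1 + 2 * c2 + c3 + c4 + ((φ₁ ^ 2 + φ₂ ^ 2) / 2) * hq.vl -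
    (q.m * (φ₁ ^ 2 + φ₂ ^ 2)) * hq.laks

theorem ptA_xAe_pos (hq : q.Ok) : 0 < q.xAe :=
  mul_pos (mul_pos (ptA_x_pos hq) (ptA_A2_pos hq)) (Real.exp_pos _)

theorem ptA_qB_nonneg (hq : q.Ok) : 0 ≤ q.qB := by
  have h1 := ptA_xAe_pos hq
  have h2 := ptA_x_pos hq
  have h3 : 0 < q.xb := ptA_xb_pos
  have h4 := ptA_m_pos hq
  have h5 := hq.sp
  have h6 := cc_pos
  unfold Pr.qB Pr.rn Pr.s2q
  positivity

theorem qa_nonneg (hq : q.Ok) : 0 ≤ q.qa := by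
  have h1 := ptA_qB_nonneg hq
  have h2 : 0 ≤ q.vl := by
    have := hq.V
    rw [hq.vl] at this
    exact nonneg_of_mul_nonneg_left this hq.la
  have h3 : 0 ≤ q.ks := by rw [hq.ks]; positivity
  have h4 := ptA_m_pos hq
  unfold Pr.qa Pr.qg
  positivity

theorem ptA_e4_le (hq : q.Ok) : q.e4 ≤ 16488 / 10000 := by
  have hm := hq.m
  have h1 : q.e4 ≤ Real.exp (1 / 2) := by
    apply Real.exp_le_exp.2
    rw [← div_eq_mul_inv, div_le_iff₀ (ptA_A2_pos hq), Pr.A2]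
    nlinarith
  refine h1.trans (le_of_pow_le_pow_left₀ two_ne_zero (by norm_num) ?_)
  rw [← Real.exp_nat_mul]
  have := Real.exp_one_lt_d9
  norm_num at this ⊢
  linarith

theorem ptA_exp_neg_le {a t b : ℝ} (n : ℕ) (ha : 0 ≤ a) (hb : 0 < b) (ht : a ≤ t)
    (h : b⁻¹ ≤ ∑ i ∈ Finset.range n, a ^ i / i.factorial) : Real.exp (-t) ≤ b := by
  rw [Real.exp_neg]
  exact inv_le_of_inv_le₀ hb
    (h.trans ((Real.sum_le_exp_of_nonneg ha n).trans (Real.exp_le_exp.2 ht)))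

theorem ptA_xA2_le (hq : q.Ok) {a b : ℝ} (ha : 2 ≤ a) (ham : a ≤ q.m) (hb : Real.exp (-a) ≤ b) :
    q.x * q.A2 ≤ b * (a * a + (a + 1) * (a + 1)) := by
  obtain ⟨t, ht⟩ : ∃ t, q.m = a + t := ⟨q.m - a, by ring⟩
  have ht0 : 0 ≤ t := by linarith
  have h1 := Real.quadratic_le_exp_of_nonneg ht0
  have h2 : q.A2 ≤ (a * a + (a + 1) * (a + 1)) * Real.exp t := by
    refine le_trans ?_ (mul_le_mul_of_nonneg_left h1 (by positivity))
    rw [Pr.A2, ht]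
    have h3 : 0 ≤ t * (a * a + (a + 1) * (a + 1) - (4 * a + 2)) := mul_nonneg ht0 (by nlinarith)
    have h4 : 0 ≤ t ^ 2 * (a * a + (a + 1) * (a + 1) - 4) := mul_nonneg (by positivity) (by nlinarith)
    linarith
  have h5 : q.x * Real.exp t = Real.exp (-a) := by
    rw [hq.x, ← Real.exp_add, ht]
    congr 1
    ring
  have hx := ptA_x_pos hq
  calc _ ≤ q.x * ((a * a + (a + 1) * (a + 1)) * Real.exp t) := by gcongr
    _ = Real.exp (-a) * (a * a + (a + 1) * (a + 1)) := by rw [← h5]; ring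
    _ ≤ _ := by gcongr

theorem ptA_base (hq : q.Ok) : q.x ≤ 568 / 10000 ∧ q.xb ≤ 1562 / 10000 ∧ q.xAe ≤ 2172 / 1000 := by
  have hm := hq.m
  have h1 : Real.exp (-(287 / 100)) ≤ 5672 / 100000 :=
    ptA_exp_neg_le 12 (by norm_num) (by norm_num) le_rfl (by
      simp only [Finset.sum_range_succ, Finset.sum_range_zero, Nat.factorial]
      norm_num)
  refine ⟨?_, ?_, ?_⟩
  · rw [hq.x]
    exact (Real.exp_le_exp.2 (by linarith)).trans (h1.trans (by norm_num))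
  · exact ptA_exp_neg_le (a := 18574 / 10000) 10 (by norm_num) (by norm_num) (by linarith) (by
      simp only [Finset.sum_range_succ, Finset.sum_range_zero, Nat.factorial]
      norm_num)
  · have h2 := ptA_xA2_le hq (by norm_num) hm h1
    refine (mul_le_mul h2 (ptA_e4_le hq) (Real.exp_pos _).le (by norm_num)).trans ?_
    norm_num

theorem ptA_qB_le (hq : q.Ok) {a : ℝ} (h1 : 1 / 2 * q.xAe ≤ a) (h2 : q.xr ≤ a) :
    q.qB ≤ 608 / 1000 * (1029 / 1000 * a + 71 / 1000) := by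
  obtain ⟨b1, b2, b3⟩ := ptA_base hq
  have p1 := ptA_xAe_pos hq
  have p2 := ptA_x_pos hq
  have p3 : 0 < q.xb := ptA_xb_pos
  have p4 := ptA_m_pos hq
  have p5 := hq.sp
  have p6 := hq.sp'
  have ha : 0 ≤ a := by linarith
  have c1 : cc⁻¹ ≤ 608 / 1000 := inv_le_of_inv_le₀ (by norm_num) (by linarith [cc_gt])
  have c0 : 0 ≤ q.s2q := by unfold Pr.s2q; positivity
  have c2 : q.s2q ≤ 1 / 100000 := by unfold Pr.s2q; nlinarith
  have c3 : q.rn ≤ 1029 / 1000 := by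
    calc q.rn ≤ 1 + 1 / 100000 + 1562 / 10000 * (1562 / 10000) *
          (1 + 9 * (1 / 100000) + 1562 / 10000 * (1 + 1562 / 10000)) := by unfold Pr.rn; gcongr
      _ ≤ _ := by norm_num
  have c4 : max (2 * q.x * q.xAe) (q.xr * q.xb) ≤ 2468 / 10000 := by
    refine max_le ?_ ?_
    · calc _ ≤ 2 * (568 / 10000) * (2172 / 1000 : ℝ) := by gcongr
        _ ≤ _ := by norm_num
    · calc _ ≤ 2500 / 441 * (1562 / 10000) * (1562 / 10000 : ℝ) := by unfold Pr.xr; gcongr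
        _ ≤ _ := by norm_num
  have c5 : q.xb * q.m ≤ 1546 / 1000 := by
    have e1 := Real.add_one_le_exp (809 / 1250 * q.m)
    have e2 : q.xb * Real.exp (809 / 1250 * q.m) = 1 := by rw [Pr.xb, ← Real.exp_add]; simp
    have e3 := mul_le_mul_of_nonneg_left e1 p3.le
    linarith
  have c6 := max_le h1 h2
  have c7 : 0 ≤ max (1 / 2 * q.xAe) q.xr := le_max_of_le_left (by positivity)
  have c8 : 0 ≤ max (2 * q.x * q.xAe) (q.xr * q.xb) := le_max_of_le_left (by positivity)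
  have c9 : 0 ≤ q.rn := by unfold Pr.rn; positivity
  calc q.qB ≤ 608 / 1000 * (1029 / 1000 * a + (1 / 4 + 1 / 100000) * (2468 / 10000) +
        1546 / 1000 * (1 / 2 * (1 / 100) *
          (1 + 1562 / 10000 * (1 + 1562 / 10000 * (1 + 1562 / 10000))))) := by
        unfold Pr.qB; gcongr
    _ ≤ _ := by linarith

theorem qB_le (hq : q.Ok) : q.qB ≤ 73 / 100 := by
  obtain ⟨-, b2, b3⟩ := ptA_base hq
  have := ptA_qB_le hq (a := 1086 / 1000) (by linarith) (by unfold Pr.xr; linarith)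
  linarith

theorem qB_le' (hq : q.Ok) (hm : 4 ≤ q.m) : q.qB ≤ 1 / 2 := by
  have h1 : Real.exp (-4) ≤ 2 / 100 :=
    ptA_exp_neg_le 8 (by norm_num) (by norm_num) le_rfl (by
      simp only [Finset.sum_range_succ, Finset.sum_range_zero, Nat.factorial]
      norm_num)
  have h2 : q.xb ≤ 1 / 10 :=
    ptA_exp_neg_le (a := 5 / 2) 5 (by norm_num) (by norm_num) (by linarith) (by
      simp only [Finset.sum_range_succ, Finset.sum_range_zero, Nat.factorial]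
      norm_num)
  have h3 : q.xAe ≤ 14 / 10 := by
    have h2 := ptA_xA2_le hq (by norm_num) hm h1
    refine (mul_le_mul h2 (ptA_e4_le hq) (Real.exp_pos _).le (by norm_num)).trans ?_
    norm_num
  have := ptA_qB_le hq (a := 7 / 10) (by linarith) (by unfold Pr.xr; linarith)
  linarith

end Pool.Agent.Lib.MP_6cad4c_al
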