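import Pool.Agent.Lib.MP_6cad4c_al.Model

namespace Pool.Agent.Lib.MP_6cad4c_al

open Complex

theorem cc_gt : 16449 / 10000 < cc := by
  have := Real.pi_gt_d6
  unfold cc; nlinarith

theorem cc_lt : cc < 16450 / 10000 := by
  have := Real.pi_lt_d6
  have := Real.pi_pos
  unfold cc; nlinarith

theorem cc_pos : 0 < cc := by linarith [cc_gt]

theorem sg_pos (L : ℝ) : 0 < sg L := Real.exp_pos _

theorem lam_pos (L : ℝ) : 0 < lam L := mul_pos cc_pos (Real.exp_pos _)

theorem lam_mul_sg (L : ℝ) : lam L * sg L = cc := by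
  unfold lam sg; rw [mul_assoc, ← Real.exp_add]; simp

theorem lam_eq (L : ℝ) : lam L = cc / sg L := by
  rw [eq_div_iff (sg_pos L).ne', lam_mul_sg]

theorem exp_eq_inv_sg (L : ℝ) : Real.exp L = (sg L)⁻¹ := by
  unfold sg; rw [Real.exp_neg, inv_inv]

theorem sg_le {L : ℝ} (hL : 47 / 10 ≤ L) : sg L ≤ 91 / 10000 := by
  have h1 : Real.exp (-L) ≤ Real.exp (-(47 / 10)) := Real.exp_le_exp.2 (by linarith)
  have h2 : (10000 / 91 : ℝ) ≤ Real.exp (47 / 10) := by
    have h3 : Real.exp (47 / 10) = Real.exp 1 ^ 4 * Real.exp (7 / 10) := by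
      rw [← Real.exp_nat_mul, ← Real.exp_add]; norm_num
    have h4 := Real.exp_one_gt_d9
    have h5 := Real.sum_le_exp_of_nonneg (show (0 : ℝ) ≤ 7 / 10 by norm_num) 8
    simp only [Finset.sum_range_succ, Finset.sum_range_zero, Nat.factorial] at h5
    have h6 : (2.7182818283 : ℝ) ^ 4 ≤ Real.exp 1 ^ 4 := by gcongr
    rw [h3]
    calc (10000 / 91 : ℝ) ≤ 2.7182818283 ^ 4 * (2.0137 : ℝ) := by norm_num
      _ ≤ _ := by
        apply mul_le_mul h6 _ (by norm_num) (by positivity)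
        refine le_trans ?_ h5
        norm_num
  unfold sg
  refine h1.trans ?_
  rw [Real.exp_neg]
  exact inv_le_of_inv_le₀ (by norm_num) (by simpa using h2)

theorem be_pos (L : ℝ) : 0 < be L := by unfold be; have := sg_pos L; positivity

theorem be_le {L : ℝ} (hL : 47 / 10 ≤ L) : be L ≤ 1456 / 100000 := by
  unfold be; linarith [sg_le hL]

theorem lam_ge {L : ℝ} (hL : 47 / 10 ≤ L) : 180 ≤ lam L := by
  rw [lam_eq, le_div_iff₀ (sg_pos L)]
  linarith [sg_le hL, cc_gt]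

theorem eta_pos (L : ℝ) : 0 < eta L :=
  div_pos (Real.exp_pos _) (Real.sqrt_pos.2 (by linarith [cc_pos]))

theorem eta_sq (L : ℝ) : eta L ^ 2 = ks L := by
  unfold eta ks sg
  rw [div_pow, Real.sq_sqrt (by linarith [cc_pos]), ← Real.exp_nat_mul]
  have := cc_pos
  rw [show ((2 : ℕ) : ℝ) * (-L / 2) = -L by push_cast; ring]
  field_simp

theorem ks_pos (L : ℝ) : 0 < ks L := by rw [← eta_sq]; exact pow_pos (eta_pos L) 2

theorem lam_mul_ks (L : ℝ) : 2 * lam L * ks L = 1 := by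
  have h := lam_mul_sg L
  have := cc_pos
  unfold ks
  field_simp
  linarith

theorem ks_le {L : ℝ} (hL : 47 / 10 ≤ L) : ks L ≤ 277 / 100000 := by
  have h := lam_mul_ks L
  have h1 : 16449 / 91 ≤ lam L := by
    rw [lam_eq, le_div_iff₀ (sg_pos L)]
    linarith [sg_le hL, cc_gt]
  nlinarith [ks_pos L]

theorem kk_pos (L : ℝ) : 0 < kk L := by unfold kk; have := ks_pos L; positivity

theorem kk_le {L : ℝ} (hL : 47 / 10 ≤ L) : kk L ≤ 56 / 10000 := by
  have h := ks_le hL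
  have h0 := ks_pos L
  unfold kk
  have : 2 + ks L * (1 + 2 / 3 * ks L) ≤ 2003 / 1000 := by nlinarith
  nlinarith

theorem J0_pos (L : ℝ) : 0 < J0 L := by
  unfold J0
  have := eta_pos L
  have := Real.pi_pos
  positivity

theorem NJ_pos (L : ℝ) : 0 < NJ L := by
  unfold NJ
  have := J0_pos L
  have := Real.pi_pos
  positivity

theorem J0_sq (L : ℝ) : J0 L ^ 2 = Real.pi / lam L * Real.exp (-kk L) := by
  unfold J0
  have h := lam_mul_ks L
  have := lam_pos L
  rw [mul_pow, mul_pow, eta_sq, Real.sq_sqrt (by positivity), ← Real.exp_nat_mul,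
    show ((2 : ℕ) : ℝ) * (-kk L / 2) = -kk L by push_cast; ring]
  congr 1
  field_simp
  linarith

/-- `n - 1/24 = c / σ²` -/
theorem nu_eq {n : ℕ} (hL : 47 / 10 ≤ Ln n) : (n : ℝ) - 1 / 24 = cc * Real.exp (2 * Ln n) := by
  have hc := cc_gt
  have hn : 0 < ((n : ℝ) - 1 / 24) / cc := by
    rcases Nat.eq_zero_or_pos n with rfl | h
    · exfalso
      unfold Ln at hL
      have h1 : Real.log ((((0 : ℕ) : ℝ) - 1 / 24) / cc) ≤ 0 := by
        rw [← Real.log_abs]
        apply Real.log_nonpos (abs_nonneg _)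
        rw [abs_div, abs_of_pos cc_pos, div_le_one cc_pos]
        norm_num [abs_of_pos]
        linarith
      linarith
    · have : (1 : ℝ) ≤ n := by exact_mod_cast h
      exact div_pos (by linarith) cc_pos
  unfold Ln
  rw [show 2 * (Real.log (((n : ℝ) - 1 / 24) / cc) / 2) = Real.log (((n : ℝ) - 1 / 24) / cc) by ring,
    Real.exp_log hn]
  field_simp [cc_pos.ne']

theorem sv_eq (L b φ : ℝ) : sv L b φ = (Real.exp (-L + b) : ℝ) * exp (φ * I) := by
  unfold sv; rw [exp_add]; push_cast; rfl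

theorem norm_sv (L b φ : ℝ) : ‖sv L b φ‖ = Real.exp (-L + b) := by
  unfold sv; rw [norm_exp]; simp

theorem re_sv (L b φ : ℝ) : (sv L b φ).re = Real.exp (-L + b) * Real.cos φ := by
  unfold sv; rw [exp_re]; simp

theorem norm_om (L b φ : ℝ) :
    ‖om L b φ‖ = Real.exp (2 * lam L * (Real.cosh b * Real.cos φ - 1) + 3 / 2 * b) := by
  unfold om
  rw [norm_exp]
  congr 1
  simp [exp_re, exp_im, Real.cosh_eq]
  ring

theorem cos_ge {φ : ℝ} (hφ : |φ| ≤ 42 / 100) : 913 / 1000 ≤ Real.cos φ := by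
  have h := Real.cos_bound (x := φ) (by linarith)
  have h2 : φ ^ 2 ≤ (42 / 100) ^ 2 := by rw [← sq_abs]; gcongr
  have h3 : Real.cos φ ≥ Real.cos (42 / 100) := by
    rw [← Real.cos_abs φ]
    exact Real.cos_le_cos_of_nonneg_of_le_pi (abs_nonneg _) (by linarith [Real.pi_gt_three]) hφ
  have h4 : Real.cos (42 / 100) = 1 - 2 * Real.sin (21 / 100) ^ 2 := by
    rw [show (42 / 100 : ℝ) = 2 * (21 / 100) by norm_num, Real.cos_two_mul, Real.cos_sq']; ring
  have h5 := Real.sin_bound (x := 21 / 100) (by rw [abs_of_pos] <;> norm_num)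
  rw [abs_of_pos (show (0 : ℝ) < 21 / 100 by norm_num)] at h5
  have h6 := (abs_le.1 h5).2
  have h7 : 0 ≤ Real.sin (21 / 100) := Real.sin_nonneg_of_nonneg_of_le_pi (by norm_num) (by linarith [Real.pi_gt_three])
  have h8 : Real.sin (21 / 100) ≤ 20856 / 100000 := by linarith
  nlinarith

theorem one_sub_cos_ge {φ : ℝ} (hφ : |φ| ≤ 42 / 100) : 197 / 400 * φ ^ 2 ≤ 1 - Real.cos φ := by
  have h4 : Real.cos φ = 1 - 2 * Real.sin (|φ| / 2) ^ 2 := by
    rw [← Real.cos_abs φ]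
    conv_lhs => rw [show |φ| = 2 * (|φ| / 2) by ring, Real.cos_two_mul, Real.cos_sq']
    ring
  have h0 := abs_nonneg φ
  set y := |φ| / 2 with hy
  have hy0 : 0 ≤ y := by positivity
  have hy1 : y ≤ 21 / 100 := by linarith
  have h5 : y - y ^ 3 / 6 ≤ Real.sin y := Real.sin_ge_sub_cube hy0
  have h6 : φ ^ 2 = 4 * y ^ 2 := by rw [hy, ← sq_abs φ]; ring
  have h7 : y ^ 2 ≤ 441 / 10000 := by nlinarith
  have h8 : 99265 / 100000 * y ≤ Real.sin y := by nlinarith
  have h9 : (99265 / 100000 * y) ^ 2 ≤ Real.sin y ^ 2 := by gcongr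
  rw [h4, h6]; nlinarith

theorem cosh_sub_one_le {L b : ℝ} (hL : 47 / 10 ≤ L) (hb : |b| ≤ be L) :
    2 * lam L * (Real.cosh b - 1) ≤ 384 / 10000 := by
  have h1 := Real.cosh_le_exp_half_sq b
  have hb2 : b ^ 2 ≤ be L ^ 2 := by rw [← sq_abs]; gcongr
  have hs := sg_le hL
  have hs0 := sg_pos L
  have hbe : be L ^ 2 = 64 / 25 * sg L ^ 2 := by unfold be; ring
  have h2 : b ^ 2 / 2 ≤ 11 / 100000 := by nlinarith
  have h3 := Real.abs_exp_sub_one_sub_id_le (x := b ^ 2 / 2) (by rw [abs_of_nonneg (by positivity)]; linarith)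
  have h4 := (abs_le.1 h3).2
  have h5 : Real.cosh b - 1 ≤ 10002 / 10000 * (b ^ 2 / 2) := by nlinarith [sq_nonneg b]
  have h6 := lam_mul_sg L
  have h7 := lam_pos L
  have h8 := cc_lt
  have h9 : lam L * b ^ 2 ≤ 64 / 25 * (cc * sg L) := by
    rw [← h6]; nlinarith
  nlinarith

theorem norm_om_le {L b φ : ℝ} (hL : 47 / 10 ≤ L) (hb : |b| ≤ be L) (hφ : |φ| ≤ 42 / 100) :
    ‖om L b φ‖ ≤ Real.exp (384 / 10000 + 3 / 2 * b - 197 / 200 * lam L * φ ^ 2) := by
  rw [norm_om]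
  apply Real.exp_le_exp.2
  have h1 := cosh_sub_one_le hL hb
  have h2 := one_sub_cos_ge hφ
  have h3 := Real.one_le_cosh b
  have h4 := Real.cos_le_one φ
  have h5 := lam_pos L
  have h6 : Real.cosh b * Real.cos φ - 1 ≤ (Real.cosh b - 1) - 197 / 400 * φ ^ 2 := by nlinarith
  nlinarith

/-- Gaussian bound for arc integrals -/
theorem norm_int_le {L Φ K q r : ℝ} (hL : 47 / 10 ≤ L) (hΦ : 0 ≤ Φ) (hK : 0 ≤ K) (hq : 0 < q)
    (hr : 0 ≤ r) (hqr : 1 ≤ q * r ^ 2) {f : ℝ → ℂ}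
    (hf : ∀ φ, |φ| ≤ Φ → ‖f φ‖ ≤ K * Real.exp (-(q * lam L * φ ^ 2))) :
    ‖∫ φ in -Φ..Φ, f φ‖ ≤ 1003 / 1000 * r * K * J0 L := by
  have hl := lam_pos L
  have hql : 0 < q * lam L := mul_pos hq hl
  have hint : MeasureTheory.Integrable fun φ : ℝ => K * Real.exp (-(q * lam L) * φ ^ 2) :=
    (integrable_exp_neg_mul_sq hql).const_mul K
  have h1 : ‖∫ φ in -Φ..Φ, f φ‖ ≤ ∫ φ in -Φ..Φ, K * Real.exp (-(q * lam L) * φ ^ 2) := by
    apply intervalIntegral.norm_integral_le_of_norm_le (by linarith) _ hint.intervalIntegrable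
    refine Filter.Eventually.of_forall fun φ hφ => ?_
    rw [neg_mul]
    exact hf φ (abs_le.2 ⟨hφ.1.le, hφ.2⟩)
  have h2 : ∫ φ in -Φ..Φ, K * Real.exp (-(q * lam L) * φ ^ 2) ≤
      ∫ φ, K * Real.exp (-(q * lam L) * φ ^ 2) := by
    rw [intervalIntegral.integral_of_le (by linarith)]
    exact MeasureTheory.setIntegral_le_integral hint
      (Filter.Eventually.of_forall fun φ => by positivity)
  rw [MeasureTheory.integral_const_mul, integral_gaussian] at h2
  have h3 : Real.sqrt (Real.pi / (q * lam L)) ≤ 1003 / 1000 * r * J0 L := by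
    apply Real.sqrt_le_iff.2 ⟨by have := J0_pos L; positivity, ?_⟩
    rw [mul_pow, mul_pow, J0_sq]
    have h4 := Real.add_one_le_exp (-kk L)
    have h5 := kk_le hL
    have h6 : Real.pi / (q * lam L) ≤ r ^ 2 * (Real.pi / lam L) := by
      rw [div_le_iff₀ hql]
      have : r ^ 2 * (Real.pi / lam L) * (q * lam L) = q * r ^ 2 * Real.pi := by field_simp
      rw [this]; nlinarith [Real.pi_pos]
    have h7 : 0 ≤ r ^ 2 * (Real.pi / lam L) := by have := Real.pi_pos; positivity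
    nlinarith
  calc _ ≤ K * Real.sqrt (Real.pi / (q * lam L)) := h1.trans h2
    _ ≤ K * (1003 / 1000 * r * J0 L) := by gcongr
    _ = _ := by ring

end Pool.Agent.Lib.MP_6cad4c_al
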