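import Pool.Agent.Lib.MP_6cad4c_al.OkDef
import Pool.Agent.Lib.MP_6cad4c_al.Facts

namespace Pool.Agent.Lib.MP_6cad4c_al

variable {L g : ℝ} {q : Pr}

theorem side_cc : 1644934 / 1000000 ≤ cc ∧ cc ≤ 1644935 / 1000000 := by
  have h1 := Real.pi_gt_d20
  have h2 := Real.pi_lt_d20
  unfold cc
  constructor <;> nlinarith

theorem ccI_mem : PI.Mem cc ccI := by
  have h1 := PI.rat_mem 1644934 1000000 (by decide)
  have h2 := PI.rat_mem 1644935 1000000 (by decide)
  refine PI.hull_mem h1 h2 ?_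
  push_cast
  exact side_cc

theorem icI_mem : PI.Mem cc⁻¹ icI := by
  have h1 := PI.rat_mem 607927 1000000 (by decide)
  have h2 := PI.rat_mem 607928 1000000 (by decide)
  refine PI.hull_mem h1 h2 ?_
  have h3 := Real.pi_gt_d20
  have h4 := Real.pi_lt_d20
  have h5 : cc ≤ 16449341 / 10000000 := by unfold cc; nlinarith
  have h6 := side_cc.1
  have h7 := cc_pos
  push_cast
  constructor
  · rw [le_inv_comm₀ (by norm_num) h7]
    refine h5.trans ?_
    norm_num
  · rw [inv_le_comm₀ h7 (by norm_num)]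
    refine le_trans ?_ h6
    norm_num

theorem side_exp5 {x : ℝ} (hx : |x| ≤ 1) :
    |Real.exp x - (1 + x + x ^ 2 / 2 + x ^ 3 / 6 + x ^ 4 / 24)| ≤ |x| ^ 5 / 100 := by
  have h := Real.exp_bound hx (n := 5) (by norm_num)
  simp only [Finset.sum_range_succ, Finset.sum_range_zero, Nat.factorial] at h
  refine le_trans (le_of_eq ?_) (h.trans (le_of_eq ?_))
  · congr 1; push_cast; ring
  · push_cast; ring

theorem side_sinh_cosh {b : ℝ} (h0 : 0 ≤ b) (h1 : b ≤ 1) :
    |Real.sinh b - (b + b ^ 3 / 6)| ≤ b ^ 5 / 100 ∧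
      |Real.cosh b - (1 + b ^ 2 / 2 + b ^ 4 / 24)| ≤ b ^ 5 / 100 := by
  have h2 := side_exp5 (x := b) (by rwa [abs_of_nonneg h0])
  have h3 := side_exp5 (x := -b) (by rwa [abs_neg, abs_of_nonneg h0])
  rw [abs_neg, abs_of_nonneg h0] at h3
  rw [abs_of_nonneg h0] at h2
  obtain ⟨a1, a2⟩ := abs_le.1 h2
  obtain ⟨a3, a4⟩ := abs_le.1 h3
  rw [Real.sinh_eq, Real.cosh_eq]
  constructor <;> rw [abs_le] <;> constructor <;> nlinarith

theorem side_lam_be (L : ℝ) : 2 * lam L * be L = pc2b L := by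
  have := lam_mul_sg L
  unfold be pc2b
  linear_combination (16 / 5) * this

theorem side_lam_be2 (L : ℝ) : lam L * be L ^ 2 = pcb2 L := by
  have := lam_mul_sg L
  unfold be pcb2
  linear_combination (64 / 25 * sg L) * this

theorem side_eb (hL : 47 / 10 ≤ L) : 1 + be L ≤ peb L ∧ peb L ≤ 1 + be L + pb2 L := by
  have h0 := be_pos L
  have h1 := be_le hL
  have h2 := Real.abs_exp_sub_one_sub_id_le (x := be L) (by rw [abs_of_pos h0]; linarith)
  have h3 := Real.add_one_le_exp (be L)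
  have h4 := (abs_le.1 h2).2
  unfold peb pb2
  constructor <;> nlinarith

theorem side_E2 (hL : 47 / 10 ≤ L) :
    2 * (be L + pb2 L) ≤ pE2 L ∧ pE2 L ≤ 2 * (be L + pb2 L * (1 + be L)) := by
  have h0 := be_pos L
  have h1 := be_le hL
  have h2 := Real.quadratic_le_exp_of_nonneg (x := 2 * be L) (by linarith)
  have h3 := side_exp5 (x := 2 * be L) (by rw [abs_of_pos (by linarith)]; linarith)
  rw [abs_of_pos (show 0 < 2 * be L by linarith)] at h3
  have h4 := (abs_le.1 h3).2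
  unfold pE2 pb2
  set b := be L
  have h5 : 0 < b ^ 3 := by positivity
  have h6 : b ^ 4 ≤ b ^ 3 / 10 := by nlinarith
  have h7 : b ^ 5 ≤ b ^ 3 / 10 := by nlinarith
  constructor <;> nlinarith

theorem side_pows {b : ℝ} (h0 : 0 < b) (h1 : b ≤ 1456 / 100000) :
    0 < b ^ 3 ∧ 0 < b ^ 4 ∧ b ^ 4 ≤ b ^ 3 / 50 ∧ b ^ 5 ≤ b ^ 4 / 50 ∧ b ^ 6 ≤ b ^ 5 / 50 := by
  have h3 : 0 < b ^ 3 := by positivity
  have h4 : 0 < b ^ 4 := by positivity
  have h5 : 0 < b ^ 5 := by positivity
  refine ⟨h3, h4, ?_, ?_, ?_⟩ <;> nlinarith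

theorem side_S (hL : 47 / 10 ≤ L) : pc2b L ≤ pS L ∧ pS L ≤ pc2b L * (1 + pb2 L) := by
  have h0 := be_pos L
  have h1 := be_le hL
  have hl := lam_pos L
  obtain ⟨a1, a2⟩ := abs_le.1 (side_sinh_cosh h0.le (by linarith)).1
  obtain ⟨p3, p4, p5, p6, p7⟩ := side_pows h0 h1
  rw [← side_lam_be]
  unfold pS pb2
  constructor
  · exact mul_le_mul_of_nonneg_left (by linarith) (by linarith)
  · rw [mul_assoc (2 * lam L)]
    exact mul_le_mul_of_nonneg_left (by nlinarith) (by linarith)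

theorem side_nSp (hL : 47 / 10 ≤ L) : 0 ≤ pnSp L ∧ pnSp L ≤ pc2b L * pb2 L := by
  have h0 := be_pos L
  have h1 := be_le hL
  have hl := lam_pos L
  obtain ⟨a1, a2⟩ := abs_le.1 (side_sinh_cosh h0.le (by linarith)).1
  obtain ⟨a3, a4⟩ := abs_le.1 (side_sinh_cosh h0.le (by linarith)).2
  obtain ⟨p3, p4, p5, p6, p7⟩ := side_pows h0 h1
  have a5 := mul_le_mul_of_nonneg_left a3 h0.le
  have a6 := mul_le_mul_of_nonneg_left a4 h0.le
  rw [← side_lam_be]
  unfold pnSp pb2
  constructor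
  · exact mul_nonneg (by linarith) (by nlinarith)
  · rw [mul_assoc (2 * lam L)]
    exact mul_le_mul_of_nonneg_left (by nlinarith) (by linarith)

theorem side_C (hL : 47 / 10 ≤ L) : pcb2 L ≤ pC L ∧ pC L ≤ pcb2 L * (1 + pb2 L) := by
  have h0 := be_pos L
  have h1 := be_le hL
  have hl := lam_pos L
  obtain ⟨a3, a4⟩ := abs_le.1 (side_sinh_cosh h0.le (by linarith)).2
  obtain ⟨p3, p4, p5, p6, p7⟩ := side_pows h0 h1
  rw [← side_lam_be2]
  unfold pC pb2
  rw [mul_comm 2 (lam L), mul_assoc (lam L), mul_assoc (lam L)]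
  constructor
  · exact mul_le_mul_of_nonneg_left (by linarith) hl.le
  · exact mul_le_mul_of_nonneg_left (by nlinarith) hl.le

theorem side_nCp (hL : 47 / 10 ≤ L) : pcb2 L ≤ pnCp L ∧ pnCp L ≤ pcb2 L * (1 + pb2 L) := by
  have h0 := be_pos L
  have h1 := be_le hL
  have hl := lam_pos L
  obtain ⟨a1, a2⟩ := abs_le.1 (side_sinh_cosh h0.le (by linarith)).1
  obtain ⟨a3, a4⟩ := abs_le.1 (side_sinh_cosh h0.le (by linarith)).2
  obtain ⟨p3, p4, p5, p6, p7⟩ := side_pows h0 h1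
  have a5 := mul_le_mul_of_nonneg_left a1 h0.le
  have a6 := mul_le_mul_of_nonneg_left a2 h0.le
  have e : pnCp L = lam L * (2 * (be L * Real.sinh (be L) - (Real.cosh (be L) - 1))) := by
    unfold pnCp pS pC; ring
  rw [← side_lam_be2, e]
  unfold pb2
  rw [mul_assoc (lam L)]
  constructor
  · exact mul_le_mul_of_nonneg_left (by nlinarith) hl.le
  · exact mul_le_mul_of_nonneg_left (by nlinarith) hl.le

theorem side_eA (hL : 47 / 10 ≤ L) : 2 * pC L + kk L + be L ≤ 1 := by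
  have h0 := be_pos L
  have h1 := be_le hL
  have h2 := cosh_sub_one_le hL (b := be L) (by rw [abs_of_pos h0])
  have h3 := kk_le hL
  unfold pC
  linarith

theorem side_psp (hL : 47 / 10 ≤ L) : 0 < psp L ∧ psp L ≤ 1 / 100 := by
  have h0 := be_pos L
  have h1 := be_le hL
  have h2 := sg_pos L
  have h3 := sg_le hL
  obtain ⟨h4, h5⟩ := side_eb hL
  have h6 : peb L ≤ 102 / 100 := by unfold pb2 at h5; nlinarith
  unfold psp
  constructor <;> nlinarith

theorem side_pE2 (L : ℝ) : 0 ≤ pE2 L := by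
  have h0 := be_pos L
  have := Real.add_one_le_exp (2 * be L)
  unfold pE2
  linarith

theorem side_ph (L g : ℝ) : 0 ≤ ph L g := by
  have : 0 < pX0 L g := Real.exp_pos _
  unfold ph
  positivity

theorem side_pV (hM : 0 ≤ L + g) : 0 ≤ pV L g := by
  have h1 := side_ph L g
  have h2 : 0 < peb L := Real.exp_pos _
  have h3 : 0 < pu0 g := Real.exp_pos _
  unfold pV pMh pebu pM
  positivity

theorem side_pu (L g : ℝ) : 0 < pu L g := mul_pos (Real.exp_pos _) (Real.exp_pos _)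

theorem side_px (L g : ℝ) : px L g = Real.exp (-pm L g) := by
  unfold px pX0 pex peb pm pME pM
  rw [← Real.exp_add, ← Real.exp_add]
  congr 1
  ring

theorem side_Bz (hL : 47 / 10 ≤ L) (hM : 29 / 10 ≤ L + g) :
    0 ≤ pME L g + pV L g + pu L g * (1 - pRs L g) := by
  obtain ⟨h1, h2⟩ := side_psp hL
  have h3 : 0 ≤ pME L g := mul_nonneg (by unfold pM; linarith) (side_pE2 L)
  have h4 := side_pV (L := L) (g := g) (by linarith)
  have h5 := side_pu L g
  have h6 : 0 < px L g := by rw [side_px]; exact Real.exp_pos _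
  have h7 : 0 ≤ ps2 L := by unfold ps2; positivity
  have h8 : pr1 L ≤ 1 := by unfold pr1; linarith
  have h9 : 0 ≤ pr2n L := by unfold pr2n; linarith
  have h10 : 0 ≤ pr3n L := by unfold pr3n; linarith
  have h11 : 0 ≤ pr4n L := by unfold pr4n; linarith
  have h12 : 0 ≤ px L g * (pr2n L + px L g * (pr3n L + px L g * (pr4n L + (1 / 25) * px L g))) := by
    positivity
  have h13 : 0 ≤ 1 - pRs L g := by unfold pRs; linarith
  positivity

theorem side_im (hq : q.Ok) : 1 ≤ q.m := by linarith [hq.m]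

theorem side_iA2 (hq : q.Ok) : 1 ≤ q.A2 := by
  have := hq.m
  unfold Pr.A2
  nlinarith

theorem side_e4 (hq : q.Ok) : 4 * q.m * q.A2⁻¹ ≤ 1 := by
  have h1 := hq.m
  have h2 := side_iA2 hq
  rw [← div_eq_mul_inv, div_le_one (by linarith)]
  unfold Pr.A2
  nlinarith

theorem one_le_eG (hq : q.Ok) (x y : ℝ) : 1 ≤ eG q x y := by
  unfold eG gg eo
  refine Real.one_le_exp (mul_nonneg (by linarith [hq.m]) ?_)
  linarith [Real.cos_le_one (q.et * y - q.et * x)]

theorem eG_le (hq : q.Ok) (x y : ℝ) : eG q x y ≤ Real.exp (q.qg * ((x ^ 2 + y ^ 2) / 2)) := by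
  unfold eG gg eo Pr.qg
  rw [Real.exp_le_exp, hq.ks]
  have h1 := Real.one_sub_sq_div_two_le_cos (x := q.et * y - q.et * x)
  have h2 : 1 - Real.cos (q.et * y - q.et * x) ≤ q.et ^ 2 * (x ^ 2 + y ^ 2) := by
    nlinarith [sq_nonneg (q.et * y + q.et * x)]
  have h3 := mul_le_mul_of_nonneg_left h2 (show 0 ≤ q.m by linarith [hq.m])
  refine h3.trans (le_of_eq ?_)
  ring

theorem mkPr_ok (hL : 47 / 10 ≤ L) (hM : 287 / 100 ≤ L + g) : (mkPr L g).Ok := by
  have hc := cc_pos
  have hs := sg_pos L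
  have hcb : 0 ≤ pcb2 L := by unfold pcb2; positivity
  have hu0 : pu0 g = pX0 L g * Real.exp L := by
    unfold pu0 pX0
    rw [← Real.exp_add]
    congr 1
    ring
  refine ⟨lam_pos L, eta_pos L, (eta_sq L).symm, lam_mul_ks L, ks_le hL, (be_pos L).le,
    (side_psp hL).1.le, (side_psp hL).2, hcb.trans (side_C hL).1, hcb.trans (side_nCp hL).1,
    le_trans (by unfold pc2b; positivity) (side_S hL).1, (side_nSp hL).1, ?_, (side_pu L g).le,
    side_pV (by linarith), side_px L g, ?_, ?_⟩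
  · have h1 := side_pE2 L
    show 287 / 100 ≤ pm L g
    unfold pm pM
    nlinarith
  · show pu L g * cc ≤ lam L * px L g
    have h1 : 1 ≤ peb L := by linarith [(side_eb hL).1, be_pos L]
    have h2 : 0 ≤ pu L g * cc := mul_nonneg (side_pu L g).le hc.le
    have h3 : lam L * px L g = pu L g * cc * peb L := by
      unfold lam px pu
      rw [hu0]
      ring
    rw [h3]
    exact le_mul_of_one_le_right h2 h1
  · show pV L g = pvl L g * lam L
    unfold pV pvl pebu lam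
    rw [hu0]
    field_simp

end Pool.Agent.Lib.MP_6cad4c_al
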