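import Pool.Agent.Lib.MP_6cad4c_al.KId
import Pool.Agent.Lib.MP_6cad4c_al.PtA
import Pool.Agent.Lib.MP_6cad4c_al.Side

namespace Pool.Agent.Lib.MP_6cad4c_al

open Complex

theorem growth_re_term (T M ψ χ : ℝ) (k : ℕ) :
    ((T : ℂ) * exp (-(ψ * I)) * exp (-(M * exp (χ * I))) ^ k).re =
      T * (Real.exp (-(M * Real.cos χ)) ^ k * Real.cos (ψ + k * (M * Real.sin χ))) := by
  have h : (T : ℂ) * exp (-(ψ * I)) * exp (-(M * exp (χ * I))) ^ k =
      (T : ℂ) * exp (((k * (-(M * Real.cos χ)) : ℝ) : ℂ) +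
        ((-(ψ + k * (M * Real.sin χ)) : ℝ) : ℂ) * I) := by
    rw [← exp_nat_mul, mul_assoc, ← exp_add, exp_mul_I]
    congr 2
    push_cast
    ring
  rw [h, re_ofReal_mul, exp_re]
  simp only [add_re, ofReal_re, mul_re, I_re, mul_zero, ofReal_im, I_im, mul_one, sub_self,
    add_zero, add_im, mul_im, zero_add, Real.cos_neg, Real.exp_nat_mul]

theorem growth_term_le {M ψ χ W : ℝ} (hM : 0 ≤ M) (hχ : |χ| ≤ 42 / 100)
    (hW : (|ψ| + M * |χ|) ^ 2 ≤ W) {k : ℕ} (hk : 1 ≤ k) :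
    Real.exp (-M) ^ k - Real.exp (-(M * Real.cos χ)) ^ k * Real.cos (ψ + k * (M * Real.sin χ)) ≤
      Real.exp (-(9118 / 10000 * M)) ^ k * ((k : ℝ) ^ 2 * W / 2) := by
  have h1 : Real.exp (-M) ≤ Real.exp (-(M * Real.cos χ)) := by
    apply Real.exp_le_exp.2
    nlinarith [Real.cos_le_one χ]
  have h2 : Real.exp (-(M * Real.cos χ)) ≤ Real.exp (-(9118 / 10000 * M)) := by
    apply Real.exp_le_exp.2
    nlinarith [cos_ge hχ]
  have h3 : Real.exp (-M) ^ k ≤ Real.exp (-(M * Real.cos χ)) ^ k := by gcongr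
  have h4 : Real.exp (-(M * Real.cos χ)) ^ k ≤ Real.exp (-(9118 / 10000 * M)) ^ k := by gcongr
  set α := ψ + k * (M * Real.sin χ) with hα
  have hk' : (1 : ℝ) ≤ k := by exact_mod_cast hk
  have h5 : |α| ≤ k * (|ψ| + M * |χ|) := by
    have h6 : |M * Real.sin χ| ≤ M * |χ| := by
      rw [abs_mul, abs_of_nonneg hM]
      exact mul_le_mul_of_nonneg_left Real.abs_sin_le_abs hM
    have h7 : |α| ≤ |ψ| + k * |M * Real.sin χ| := by
      refine (abs_add_le _ _).trans ?_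
      rw [abs_mul, abs_of_nonneg (by linarith : (0 : ℝ) ≤ k)]
    have h8 := abs_nonneg ψ
    nlinarith
  have h6 : α ^ 2 ≤ (k : ℝ) ^ 2 * W := by
    calc α ^ 2 = |α| ^ 2 := (sq_abs α).symm
      _ ≤ (k * (|ψ| + M * |χ|)) ^ 2 := by gcongr
      _ = (k : ℝ) ^ 2 * (|ψ| + M * |χ|) ^ 2 := by ring
      _ ≤ _ := by gcongr
  have h7 : 1 - Real.cos α ≤ (k : ℝ) ^ 2 * W / 2 := by
    have := Real.one_sub_sq_div_two_le_cos (x := α)
    linarith
  have h8 : 0 ≤ 1 - Real.cos α := by linarith [Real.cos_le_one α]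
  calc _ ≤ Real.exp (-(M * Real.cos χ)) ^ k * (1 - Real.cos α) := by linarith
    _ ≤ _ := by gcongr

theorem growth_FA {T M ψ χ W : ℝ} (hT : 0 ≤ T) (hM : 0 ≤ M) (hχ : |χ| ≤ 42 / 100)
    (hW : (|ψ| + M * |χ|) ^ 2 ≤ W) :
    (-((T : ℂ) * exp (-(ψ * I)) * gA (exp (-(M * exp (χ * I)))))).re ≤
      -(T * (Real.exp (-M) + 3 / 2 * Real.exp (-M) ^ 2 + 4 / 3 * Real.exp (-M) ^ 3 +
        7 / 4 * Real.exp (-M) ^ 4 + 6 / 5 * Real.exp (-M) ^ 5 + 2 * Real.exp (-M) ^ 6)) +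
      T * (Real.exp (-(9118 / 10000 * M)) * (1 + 6 * Real.exp (-(9118 / 10000 * M)) +
        12 * Real.exp (-(9118 / 10000 * M)) ^ 2 + 28 * Real.exp (-(9118 / 10000 * M)) ^ 3 +
        30 * Real.exp (-(9118 / 10000 * M)) ^ 4 + 72 * Real.exp (-(9118 / 10000 * M)) ^ 5)) *
        (W / 2) := by
  set z : ℂ := (T : ℂ) * exp (-(ψ * I)) with hz
  set y : ℂ := exp (-(M * exp (χ * I))) with hy
  have h0 : z * gA y = z * y ^ 1 + ((3 / 2 : ℝ) : ℂ) * (z * y ^ 2) + ((4 / 3 : ℝ) : ℂ) * (z * y ^ 3) +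
      ((7 / 4 : ℝ) : ℂ) * (z * y ^ 4) + ((6 / 5 : ℝ) : ℂ) * (z * y ^ 5) +
      ((2 : ℝ) : ℂ) * (z * y ^ 6) := by
    unfold gA
    push_cast
    ring
  rw [neg_re, h0]
  simp only [add_re, re_ofReal_mul]
  simp only [hz, hy, growth_re_term]
  have t1 := mul_le_mul_of_nonneg_left (growth_term_le (ψ := ψ) hM hχ hW (k := 1) (by norm_num)) hT
  have t2 := mul_le_mul_of_nonneg_left (growth_term_le (ψ := ψ) hM hχ hW (k := 2) (by norm_num)) hT
  have t3 := mul_le_mul_of_nonneg_left (growth_term_le (ψ := ψ) hM hχ hW (k := 3) (by norm_num)) hT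
  have t4 := mul_le_mul_of_nonneg_left (growth_term_le (ψ := ψ) hM hχ hW (k := 4) (by norm_num)) hT
  have t5 := mul_le_mul_of_nonneg_left (growth_term_le (ψ := ψ) hM hχ hW (k := 5) (by norm_num)) hT
  have t6 := mul_le_mul_of_nonneg_left (growth_term_le (ψ := ψ) hM hχ hW (k := 6) (by norm_num)) hT
  push_cast at t1 t2 t3 t4 t5 t6 ⊢
  linarith

theorem growth_gam {M : ℝ} (hM : 287 / 100 ≤ M) :
    M ^ 3 * (Real.exp (-(9118 / 10000 * M)) * (1 + 6 * Real.exp (-(9118 / 10000 * M)) +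
        12 * Real.exp (-(9118 / 10000 * M)) ^ 2 + 28 * Real.exp (-(9118 / 10000 * M)) ^ 3 +
        30 * Real.exp (-(9118 / 10000 * M)) ^ 4 + 72 * Real.exp (-(9118 / 10000 * M)) ^ 5)) ≤
      27 / 10 := by
  set E := Real.exp (-(9118 / 10000 * M)) with hE
  have hE0 : 0 < E := Real.exp_pos _
  have he := Real.exp_one_gt_d9
  have h1 : E ≤ 7353 / 100000 := by
    have h2 : (136 / 10 : ℝ) ≤ Real.exp (9118 / 10000 * M) := by
      have h3 : Real.exp (9118 / 10000 * M) = Real.exp 1 ^ 2 * Real.exp (9118 / 10000 * M - 2) := by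
        rw [← Real.exp_nat_mul, ← Real.exp_add]; congr 1; push_cast; ring
      have h4 : Real.exp (6168 / 10000) ≤ Real.exp (9118 / 10000 * M - 2) :=
        Real.exp_le_exp.2 (by linarith)
      have h5 := Real.sum_le_exp_of_nonneg (show (0 : ℝ) ≤ 6168 / 10000 by norm_num) 5
      simp only [Finset.sum_range_succ, Finset.sum_range_zero, Nat.factorial] at h5
      have h6 : (185 / 100 : ℝ) ≤ Real.exp (9118 / 10000 * M - 2) := by
        refine le_trans ?_ (h5.trans h4)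
        norm_num
      have h7 : (2.7182818283 : ℝ) ^ 2 ≤ Real.exp 1 ^ 2 := by gcongr
      rw [h3]
      calc (136 / 10 : ℝ) ≤ 2.7182818283 ^ 2 * (185 / 100) := by norm_num
        _ ≤ _ := mul_le_mul h7 h6 (by norm_num) (by positivity)
    rw [hE, Real.exp_neg]
    refine (inv_anti₀ (by norm_num) h2).trans (by norm_num)
  have h2 : M ^ 3 * E ≤ 1774 / 1000 := by
    have h3 : E = Real.exp (-(9118 / 30000 * M)) ^ 3 := by
      rw [hE, ← Real.exp_nat_mul]; congr 1; push_cast; ring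
    have h4 : M * Real.exp (-(9118 / 30000 * M)) ≤ 12105 / 10000 := by
      have h5 := Real.add_one_le_exp (9118 / 30000 * M - 1)
      have h6 : Real.exp (9118 / 30000 * M - 1) * (Real.exp 1 * Real.exp (-(9118 / 30000 * M))) = 1 := by
        rw [← Real.exp_add, ← Real.exp_add, ← Real.exp_zero]; congr 1; ring
      have h7 := Real.exp_pos (-(9118 / 30000 * M))
      set F := Real.exp (-(9118 / 30000 * M))
      have h8 : 9118 / 30000 * M * (Real.exp 1 * F) ≤ 1 := by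
        refine le_trans ?_ h6.le
        exact mul_le_mul_of_nonneg_right (by linarith) (by positivity)
      have h9 : 0 ≤ M * F := by positivity
      nlinarith
    rw [h3, ← mul_pow]
    calc _ ≤ (12105 / 10000 : ℝ) ^ 3 := by gcongr
      _ ≤ _ := by norm_num
  have h3 : 1 + 6 * E + 12 * E ^ 2 + 28 * E ^ 3 + 30 * E ^ 4 + 72 * E ^ 5 ≤ 152 / 100 := by
    calc _ ≤ 1 + 6 * (7353 / 100000 : ℝ) + 12 * (7353 / 100000 : ℝ) ^ 2 +
          28 * (7353 / 100000 : ℝ) ^ 3 + 30 * (7353 / 100000 : ℝ) ^ 4 +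
          72 * (7353 / 100000 : ℝ) ^ 5 := by gcongr
      _ ≤ _ := by norm_num
  rw [← mul_assoc]
  calc _ ≤ (1774 / 1000 : ℝ) * (152 / 100) := by gcongr
    _ ≤ _ := by norm_num

theorem growth_Rs {L g : ℝ} (hL : 47 / 10 ≤ L) : pRs L g ≤ 47 / 10000 := by
  have hs := sg_le hL
  have hs0 := sg_pos L
  have hb := be_le hL
  have hb0 := be_pos L
  have heb := side_eb hL
  have hb2 : pb2 L ≤ 22 / 100000 := by unfold pb2; nlinarith
  have hsp0 : 0 ≤ psp L := by unfold psp; nlinarith [heb.1]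
  have hsp : psp L ≤ 93 / 10000 := by unfold psp; nlinarith [heb.2]
  have hs2 : 0 ≤ ps2 L := by unfold ps2; positivity
  have hx : 0 ≤ px L g := by rw [px_eq]; positivity
  have h2 : 0 ≤ pr2n L := by unfold pr2n; linarith
  have h3 : 0 ≤ pr3n L := by unfold pr3n; linarith
  have h4 : 0 ≤ pr4n L := by unfold pr4n; linarith
  have h1 : pr1 L ≤ 47 / 10000 := by unfold pr1; linarith
  have h5 : 0 ≤ px L g * (pr2n L + px L g * (pr3n L + px L g * (pr4n L + (1 / 25) * px L g))) := by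
    positivity
  unfold pRs
  linarith

theorem growth_const {L g : ℝ} (hL : 47 / 10 ≤ L) (hM : 287 / 100 ≤ L + g) :
    49 / 50 * (L + g + 1) * pu0 g ≤ pV L g + pu L g * (1 - pRs L g) := by
  have hb := be_le hL
  have hb0 := be_pos L
  have heb := side_eb hL
  have hE := (side_E2 hL).2
  have hE' : pE2 L ≤ 203 / 100 * be L := by
    unfold pb2 at hE
    nlinarith
  have hu0 : 0 < pu0 g := Real.exp_pos _
  have hX : 0 < pX0 L g := Real.exp_pos _
  have hh : 1 ≤ ph L g := by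
    unfold ph
    have : 0 ≤ pX0 L g * ((3 / 2) + pX0 L g * ((4 / 3) + pX0 L g *
      ((7 / 4) + pX0 L g * ((6 / 5) + pX0 L g * 2)))) := by positivity
    linarith
  have hV : (L + g) * (1 + be L) * pu0 g ≤ pV L g := by
    unfold pV pMh pebu pM
    calc (L + g) * (1 + be L) * pu0 g = (L + g) * 1 * ((1 + be L) * pu0 g) := by ring
      _ ≤ _ := by gcongr; exact heb.1
  have hu : pu0 g * (1 - be L - (L + g) * pE2 L) ≤ pu L g := by
    unfold pu pex pME pM
    apply mul_le_mul_of_nonneg_left _ hu0.le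
    have := Real.add_one_le_exp (-(be L + (L + g) * pE2 L))
    linarith
  have hu' : 0 ≤ pu L g := by unfold pu pex; positivity
  have hR := growth_Rs (g := g) hL
  have h1 : pu L g * (9953 / 10000) ≤ pu L g * (1 - pRs L g) := by gcongr; linarith
  have h2 : (L + g) * pE2 L ≤ (L + g) * (203 / 100 * be L) := by gcongr
  have h3 : (L + g) * be L ≤ (L + g) * (1456 / 100000) := by gcongr
  have h4 : 49 / 50 * (L + g + 1) ≤
      (L + g) * (1 + be L) + 9953 / 10000 * (1 - be L - (L + g) * pE2 L) := by nlinarith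
  have h5 := mul_le_mul_of_nonneg_right h4 hu0.le
  nlinarith

theorem growth_Q {L g : ℝ} (hL : 47 / 10 ≤ L) (hM : 287 / 100 ≤ L + g)
    (hm' : pm L g * sg L ≤ 29 / 100) :
    (mkPr L g).m + (mkPr L g).la * (mkPr L g).qB ≤ 7525 / 10000 * lam L := by
  have hq := mkPr_ok hL hM
  have hl := lam_pos L
  have hs := sg_le hL
  have hs0 := sg_pos L
  have hls := lam_mul_sg L
  have hc := cc_gt
  have hla : (mkPr L g).la = lam L := rfl
  have hmm : (mkPr L g).m = pm L g := rfl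
  rw [hla]
  rcases le_total (mkPr L g).m 4 with h | h
  · have h1 := qB_le hq
    have h2 := lam_ge hL
    nlinarith
  · have h1 := qB_le' hq h
    have h2 : pm L g ≤ 1 / 4 * lam L := by
      apply le_of_mul_le_mul_right _ hs0
      nlinarith
    rw [hmm]
    nlinarith

theorem growth_abs {ψ φ : ℝ} (hψ : ψ ∈ Set.uIcc 0 φ) : |ψ| + |φ - ψ| = |φ| := by
  rcases le_total 0 φ with h | h
  · rw [Set.uIcc_of_le h] at hψ
    rw [abs_of_nonneg hψ.1, abs_of_nonneg (by linarith [hψ.2]), abs_of_nonneg h]; ring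
  · rw [Set.uIcc_of_ge h] at hψ
    rw [abs_of_nonpos hψ.2, abs_of_nonpos (by linarith [hψ.1]), abs_of_nonpos h]; ring

theorem growth {L T ψ φ₁ φ₂ : ℝ} (hL : 47 / 10 ≤ L) (hφ₁ : |φ₁| ≤ 42 / 100) (hφ₂ : |φ₂| ≤ 42 / 100)
    (hψ : ψ ∈ Set.uIcc 0 φ₁) (hm : 287 / 100 ≤ T * Real.exp (-L + -be L))
    (hm' : T * Real.exp (-L + be L) * sg L ≤ 29 / 100) :
    ‖FF L φ₁ φ₂ (T * exp (-(ψ * I)))‖ ≤
      Real.exp (1 / 10 - T * Real.exp (-L + -be L) -
        49 / 50 * (T * Real.exp (-L + -be L) + 1) * (Real.exp (-(T * Real.exp (-L + -be L))) / sg L) -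
        1 / 8 * lam L * (φ₁ ^ 2 + φ₂ ^ 2)) := by
  set M := T * Real.exp (-L + -be L) with hM
  obtain ⟨g, hg⟩ : ∃ g, L + g = M := ⟨M - L, by ring⟩
  have hM0 : 0 ≤ M := by linarith
  have hTM : T = M * Real.exp (L + be L) := by
    rw [hM, mul_assoc, ← Real.exp_add, show -L + -be L + (L + be L) = 0 by ring, Real.exp_zero,
      mul_one]
  have hT0 : 0 ≤ T := by rw [hTM]; positivity
  have hTg : Tg L g = T := by unfold Tg; rw [hg, ← hTM]
  have hpm : pm L g = T * Real.exp (-L + be L) := by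
    unfold pm pM pE2
    rw [hg, hM, add_sub_cancel, mul_assoc, ← Real.exp_add]
    congr 2; ring
  have hgM : 287 / 100 ≤ L + g := by rw [hg]; exact hm
  have hq := mkPr_ok hL hgM
  have hab := growth_abs hψ
  have ha0 := abs_nonneg ψ
  have hb0 := abs_nonneg (φ₁ - ψ)
  have hψ' : |ψ| ≤ 42 / 100 := by linarith
  have hχ : |φ₁ - ψ| ≤ 42 / 100 := by linarith
  have hl := lam_pos L
  have hβ := be_le hL
  have hβ0 := be_pos L
  -- the four factors
  have ho₁ := norm_om_le (b := -be L) hL (by rw [abs_neg, abs_of_pos hβ0]) hφ₁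
  have ho₂ := norm_om_le (b := be L) hL (by rw [abs_of_pos hβ0]) hφ₂
  have hFB : ‖FB (T * exp (-(ψ * I))) (sv L (be L) φ₂)‖ ≤
      Real.exp (-pm L g - pu L g * (1 - pRs L g) + 7525 / 10000 * lam L * (ψ ^ 2 + φ₂ ^ 2)) := by
    rw [← hTg, FB_eq, norm_exp]
    apply Real.exp_le_exp.2
    simp only [add_re, ofReal_re, mul_re, I_re, mul_zero, ofReal_im, I_im, mul_one, sub_self,
      add_zero]
    have h1 := aB_le hq hψ' hφ₂
    have h2 := growth_Q hL hgM (by rw [hpm]; exact hm')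
    have h3 := mul_le_mul_of_nonneg_right h2 (by positivity : 0 ≤ ψ ^ 2 + φ₂ ^ 2)
    linarith
  have hzs : (T : ℂ) * exp (-(ψ * I)) * sv L (-be L) φ₁ = M * exp (((φ₁ - ψ : ℝ) : ℂ) * I) := by
    rw [sv_eq, hM, show ((φ₁ - ψ : ℝ) : ℂ) * I = -(ψ * I) + φ₁ * I by push_cast; ring, exp_add,
      ofReal_mul]
    ring
  set W := |φ₁| * (|ψ| + M ^ 2 * |φ₁ - ψ|) with hWdef
  have hW : (|ψ| + M * |φ₁ - ψ|) ^ 2 ≤ W := by
    rw [hWdef, ← hab]
    nlinarith only [mul_nonneg (mul_nonneg ha0 hb0) (sq_nonneg (M - 1))]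
  have hV : pV L g = T * (Real.exp (-M) + 3 / 2 * Real.exp (-M) ^ 2 + 4 / 3 * Real.exp (-M) ^ 3 +
      7 / 4 * Real.exp (-M) ^ 4 + 6 / 5 * Real.exp (-M) ^ 5 + 2 * Real.exp (-M) ^ 6) := by
    have h1 : Real.exp (be L) * Real.exp (-g) = Real.exp (L + be L) * Real.exp (-M) := by
      rw [← Real.exp_add, ← Real.exp_add, ← hg]; congr 1; ring
    unfold pV pMh pebu pM ph pX0 peb pu0
    rw [h1, hg, hTM]
    ring
  set P := Real.exp (-(9118 / 10000 * M)) * (1 + 6 * Real.exp (-(9118 / 10000 * M)) +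
        12 * Real.exp (-(9118 / 10000 * M)) ^ 2 + 28 * Real.exp (-(9118 / 10000 * M)) ^ 3 +
        30 * Real.exp (-(9118 / 10000 * M)) ^ 4 + 72 * Real.exp (-(9118 / 10000 * M)) ^ 5) with hP
  have hP0 : 0 ≤ P := by positivity
  have hFA : ‖FA (T * exp (-(ψ * I))) (sv L (-be L) φ₁)‖ ≤ Real.exp (-pV L g + T * P * (W / 2)) := by
    unfold FA
    rw [norm_exp, hzs, hV]
    exact Real.exp_le_exp.2 (growth_FA hT0 hM0 hχ hW)
  -- the coefficient of the Gaussian
  have hK : T * P / 2 * M ^ 2 ≤ 84 / 100 * lam L := by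
    have h1 : M ^ 3 * P ≤ 27 / 10 := growth_gam hm
    have h2 : Real.exp (be L) ≤ 1015 / 1000 := by
      have := (side_eb hL).2
      unfold peb pb2 at this
      nlinarith only [this, hβ, hβ0]
    have h3 : Real.exp L ≤ 608 / 1000 * lam L := by
      unfold lam
      nlinarith only [Real.exp_pos L, cc_gt]
    have h4 : Real.exp (L + be L) ≤ 608 / 1000 * lam L * (1015 / 1000) := by
      rw [Real.exp_add]; gcongr
    calc T * P / 2 * M ^ 2 = M ^ 3 * P * Real.exp (L + be L) / 2 := by rw [hTM]; ring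
      _ ≤ 27 / 10 * (608 / 1000 * lam L * (1015 / 1000)) / 2 := by gcongr
      _ ≤ _ := by linarith
  have hK0 : 0 ≤ T * P / 2 := by positivity
  have hK' : T * P / 2 ≤ 105 / 1000 * lam L := by
    have h1 : (8 : ℝ) ≤ M ^ 2 := by nlinarith only [hm]
    have h2 := mul_le_mul_of_nonneg_left h1 hK0
    linarith
  have hp0 := abs_nonneg φ₁
  have hG : T * P * (W / 2) + 7525 / 10000 * lam L * ψ ^ 2 ≤ 86 / 100 * lam L * φ₁ ^ 2 := by
    have h1 : T * P * (W / 2) = T * P / 2 * (|φ₁| * |ψ|) + T * P / 2 * M ^ 2 * (|φ₁| * |φ₁ - ψ|) := by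
      rw [hWdef]; ring
    have h2 := mul_le_mul_of_nonneg_right hK (mul_nonneg hp0 hb0)
    have h3 := mul_le_mul_of_nonneg_right hK' (mul_nonneg hp0 ha0)
    have h4 : ψ ^ 2 ≤ |φ₁| * |ψ| := by rw [← sq_abs ψ, ← hab]; nlinarith only [ha0, hb0]
    have h5 : φ₁ ^ 2 = |φ₁| * |ψ| + |φ₁| * |φ₁ - ψ| := by rw [← mul_add, hab, ← sq_abs φ₁]; ring
    have h6 := mul_le_mul_of_nonneg_left h4 hl.le
    have h7 : 0 ≤ lam L * (|φ₁| * |ψ|) := by positivity
    have h8 : 0 ≤ lam L * (|φ₁| * |φ₁ - ψ|) := by positivity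
    rw [h1, h5]
    linarith
  have hu0 : Real.exp (-M) / sg L = pu0 g := by
    unfold sg pu0
    rw [← Real.exp_sub, ← hg]; congr 1; ring
  have hC := growth_const hL hgM
  have hmM : M ≤ pm L g := by
    unfold pm pM
    have := (side_E2 hL).1
    have h2 : 0 ≤ pb2 L := by unfold pb2; positivity
    rw [hg]
    nlinarith only [this, h2, hβ0, hM0]
  rw [hu0]
  rw [hg] at hC
  unfold FF
  rw [norm_mul, norm_mul, norm_mul]
  calc _ ≤ Real.exp (384 / 10000 + 3 / 2 * (-be L) - 197 / 200 * lam L * φ₁ ^ 2) *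
        Real.exp (-pV L g + T * P * (W / 2)) *
        (Real.exp (384 / 10000 + 3 / 2 * be L - 197 / 200 * lam L * φ₂ ^ 2) *
          Real.exp (-pm L g - pu L g * (1 - pRs L g) + 7525 / 10000 * lam L * (ψ ^ 2 + φ₂ ^ 2))) := by
        gcongr
    _ ≤ _ := by
        rw [← Real.exp_add, ← Real.exp_add, ← Real.exp_add]
        apply Real.exp_le_exp.2
        have h1 : 0 ≤ lam L * φ₂ ^ 2 := by positivity
        linarith

end Pool.Agent.Lib.MP_6cad4c_al
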