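import Pool.Agent.Lib.MP_6cad4c_al.WA
import Pool.Agent.Lib.MP_6cad4c_al.WB
import Pool.Agent.Lib.MP_6cad4c_al.Quad
import Pool.Agent.Lib.MP_6cad4c_al.Growth

namespace Pool.Agent.Lib.MP_6cad4c_al

open Complex Finset

theorem rot_Tg_mul (L g : ℝ) : Tg L g * Real.exp (-L + -be L) = L + g := by
  unfold Tg
  rw [mul_assoc, ← Real.exp_add, show L + be L + (-L + -be L) = 0 by ring, Real.exp_zero, mul_one]

theorem rot_Tg_sg (L g : ℝ) : Tg L g * sg L = (L + g) * Real.exp (be L) := by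
  unfold Tg sg
  rw [mul_assoc, ← Real.exp_add]; congr 2; ring

theorem rot_exp_le {x : ℝ} (hx : x < 1) : Real.exp x ≤ 1 / (1 - x) := by
  have h := Real.add_one_le_exp (-x)
  rw [le_div_iff₀ (by linarith)]
  have h2 : Real.exp x * Real.exp (-x) = 1 := by rw [← Real.exp_add]; simp
  have := Real.exp_pos x
  nlinarith

theorem rot_exp_be {L : ℝ} (hL : 47 / 10 ≤ L) : Real.exp (be L) ≤ 10148 / 10000 := by
  have h := be_le hL
  refine (Real.exp_le_exp.2 h).trans ((rot_exp_le (by norm_num)).trans (by norm_num))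

theorem rot_R1 (L : ℝ) : Real.exp (-L + be L) = sg L * Real.exp (be L) := by
  rw [Real.exp_add]; rfl

theorem rot_R0_le (L : ℝ) : Real.exp (-L + -be L) ≤ sg L :=
  Real.exp_le_exp.2 (by linarith [be_pos L])

theorem rot_R0_le_R1 (L : ℝ) : Real.exp (-L + -be L) ≤ Real.exp (-L + be L) :=
  Real.exp_le_exp.2 (by linarith [be_pos L])

theorem rot_exp_nat (n : ℕ) : (27182818283 / 10 ^ 10 : ℝ) ^ n ≤ Real.exp n := by
  rw [← Real.exp_one_pow]
  refine pow_le_pow_left₀ (by norm_num) ?_ n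
  have := Real.exp_one_gt_d9
  norm_num at this ⊢
  linarith

theorem rot_exp_ge (n : ℕ) {x : ℝ} (hx : 0 ≤ x) :
    (27182818283 / 10 ^ 10 : ℝ) ^ n * (1 + x + x ^ 2 / 2) ≤ Real.exp (n + x) := by
  rw [Real.exp_add]
  exact mul_le_mul (rot_exp_nat n) (Real.quadratic_le_exp_of_nonneg hx) (by positivity)
    (Real.exp_pos _).le

theorem rot_exp_neg_le {x a : ℝ} (ha : 0 < a) (h : 1 / a ≤ Real.exp x) : Real.exp (-x) ≤ a := by
  rw [Real.exp_neg]
  rw [div_le_iff₀ ha] at h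
  exact inv_le_of_inv_le₀ ha (by rw [inv_le_iff_one_le_mul₀' ha]; linarith)

theorem rot_exp3 : Real.exp 3 ≤ 200856 / 10000 := by
  have h : Real.exp 3 = Real.exp 1 ^ 3 := by rw [Real.exp_one_pow]; norm_num
  have h1 := Real.exp_one_lt_d9
  rw [h]
  refine (pow_le_pow_left₀ (Real.exp_pos 1).le h1.le 3).trans (by norm_num)

theorem rot_exp_neg_ge {x a : ℝ} (hx : 0 ≤ x) (h : a * (200856 / 10000) ≤ 1 + x + x ^ 2 / 2)
    (ha : 0 ≤ a) : a ≤ Real.exp (-(3 - x)) := by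
  have h1 := Real.quadratic_le_exp_of_nonneg hx
  have h2 : Real.exp (-(3 - x)) * Real.exp 3 = Real.exp x := by
    rw [← Real.exp_add]; congr 1; ring
  have h3 := mul_le_mul_of_nonneg_left rot_exp3 ha
  have h4 := Real.exp_pos 3
  by_contra hlt
  push Not at hlt
  nlinarith

theorem rot_dec {s a K : ℝ} {k : ℕ} (hs : 0 < s) (hs' : s ≤ 91 / 10000) (hK : 0 < K)
    (ha : (k : ℝ) ≤ a * (10000 / 91)) (h : (10000 / 91 : ℝ) ^ k / K ≤ Real.exp (a * (10000 / 91))) :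
    Real.exp (-(a / s)) ≤ K * s ^ k := by
  set u : ℝ := 91 / 10000 / s - 1 with hu
  have hu0 : 0 ≤ u := by
    have : 1 ≤ 91 / 10000 / s := (one_le_div hs).2 hs'
    linarith
  have e1 : a / s = a * (10000 / 91) + a * (10000 / 91) * u := by rw [hu]; field_simp; ring
  have e2 : s * (1 + u) * (10000 / 91) = 1 := by rw [hu]; field_simp; ring
  have h1 : (1 + u) ^ k ≤ Real.exp (a * (10000 / 91) * u) := by
    calc (1 + u) ^ k ≤ Real.exp u ^ k :=
          pow_le_pow_left₀ (by linarith) (by linarith [Real.add_one_le_exp u]) k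
      _ = Real.exp (k * u) := (Real.exp_nat_mul u k).symm
      _ ≤ _ := Real.exp_le_exp.2 (mul_le_mul_of_nonneg_right ha hu0)
  refine rot_exp_neg_le (by positivity) ?_
  rw [e1, Real.exp_add]
  refine le_trans (le_of_eq ?_) (mul_le_mul h h1 (by positivity) (Real.exp_pos _).le)
  have e3 : s ^ k * (1 + u) ^ k * (10000 / 91) ^ k = 1 := by
    rw [← mul_pow, ← mul_pow, e2, one_pow]
  field_simp
  linarith

theorem rot_lin {L : ℝ} (hL : 47 / 10 ≤ L) : (9 / 2 * L + 9) * sg L ≤ 2744 / 10000 := by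
  have h1 : sg L * Real.exp (L - 47 / 10) = sg (47 / 10) := by
    unfold sg; rw [← Real.exp_add]; congr 1; ring
  have h2 := sg_le (le_refl (47 / 10 : ℝ))
  have h3 := Real.add_one_le_exp (L - 47 / 10)
  have h4 := sg_pos L
  have h5 := mul_le_mul_of_nonneg_left h3 h4.le
  have h6 : 0 ≤ sg L * (L - 47 / 10) := mul_nonneg h4.le (by linarith)
  nlinarith

theorem rot_lin2 {L : ℝ} (hL : 47 / 10 ≤ L) :
    (9 / 2 * L + 9) * Real.exp (-(L / 2)) ≤ 29 / 10 := by
  have h1 : Real.exp (-(L / 2)) * Real.exp ((L - 47 / 10) / 2) = Real.exp (-(47 / 20)) := by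
    rw [← Real.exp_add]; congr 1; ring
  have h2 : Real.exp (-(47 / 20)) ≤ 96 / 1000 := by
    refine rot_exp_neg_le (by norm_num) (le_trans (by norm_num)
      ((rot_exp_ge 2 (x := 7 / 20) (by norm_num)).trans (le_of_eq (by norm_num))))
  have h3 := Real.add_one_le_exp ((L - 47 / 10) / 2)
  have h4 := Real.exp_pos (-(L / 2))
  have h5 := mul_le_mul_of_nonneg_left h3 h4.le
  have h6 : 0 ≤ Real.exp (-(L / 2)) * (L - 47 / 10) := mul_nonneg h4.le (by linarith)
  nlinarith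

theorem win_low {L g₀ g₁ Φ : ℝ} (hW : Win L g₀ g₁ Φ) :
    29 / 10 ≤ Tg L g₀ * Real.exp (-L + -be L) := by
  rw [rot_Tg_mul]; exact hW.h0

theorem win_high {L g₀ g₁ Φ : ℝ} (hW : Win L g₀ g₁ Φ) :
    (Tg L g₁ + 2) * Real.exp (-L + be L) * sg L ≤ 29 / 100 := by
  have e : (Tg L g₁ + 2) * Real.exp (-L + be L) * sg L =
      (L + g₁) * sg L * Real.exp (be L) ^ 2 + 2 * sg L ^ 2 * Real.exp (be L) := by
    rw [rot_R1]
    linear_combination (sg L * Real.exp (be L)) * rot_Tg_sg L g₁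
  have h1 := rot_lin hW.hL
  have h2 := rot_exp_be hW.hL
  have h3 := sg_le hW.hL
  have h4 := sg_pos L
  have h5 := Real.exp_pos (be L)
  have h6 : (L + g₁) * sg L ≤ 2744 / 10000 :=
    (mul_le_mul_of_nonneg_right (by linarith [hW.h1']) h4.le).trans h1
  have h7 : Real.exp (be L) ^ 2 ≤ (10148 / 10000) ^ 2 := pow_le_pow_left₀ h5.le h2 2
  have h8 : sg L ^ 2 ≤ (91 / 10000) ^ 2 := pow_le_pow_left₀ h4.le h3 2
  have h9 := mul_le_mul h6 h7 (by positivity) (by norm_num)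
  have h10 := mul_le_mul h8 h2 h5.le (by norm_num)
  rw [e]
  nlinarith

theorem win_lt {L g₀ g₁ Φ : ℝ} (hW : Win L g₀ g₁ Φ) : 1 ≤ Tg L g₀ ∧ Tg L g₀ + 1 ≤ Tg L g₁ := by
  have h1 : 1 ≤ Real.exp (L + be L) := Real.one_le_exp (by linarith [hW.hL, be_pos L])
  have h2 := hW.h0
  have h3 : g₀ + 1 ≤ g₁ := by
    have := hW.h1
    have := hW.hL
    rcases hW.h0' with h | h <;> linarith
  unfold Tg
  constructor <;> nlinarith

/-- the bound given by `growth` -/
noncomputable def rotG (s m : ℝ) : ℝ :=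
  Real.exp (1 / 10 - m - 49 / 50 * (m + 1) * (Real.exp (-m) / s))

theorem rotG_arcA {s M : ℝ} (hs : 0 < s) (hs' : s ≤ 91 / 10000) (h1 : 29 / 10 ≤ M)
    (h2 : M ≤ 2901 / 1000) : M * rotG s M ≤ 27 / 10000 * s ^ 4 := by
  have a1 : (54945 / 1000000 : ℝ) ≤ Real.exp (-M) :=
    (rot_exp_neg_ge (x := 99 / 1000) (by norm_num) (by norm_num) (by norm_num)).trans
      (Real.exp_le_exp.2 (by linarith))
  have a2 : Real.exp (-(14 / 5)) ≤ 64 / 1000 :=
    rot_exp_neg_le (by norm_num) (le_trans (by norm_num)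
      ((rot_exp_ge 2 (x := 4 / 5) (by norm_num)).trans (le_of_eq (by norm_num))))
  have a3 : Real.exp (-(2099 / 10000 / s)) ≤ 141 / 10000 * s ^ 4 :=
    rot_dec hs hs' (by norm_num) (by norm_num) (le_trans (by norm_num)
      ((rot_exp_ge 23 (x := 2099 / 91 - 23) (by norm_num)).trans (le_of_eq (by norm_num))))
  have a4 : rotG s M ≤ Real.exp (-(14 / 5)) * Real.exp (-(2099 / 10000 / s)) := by
    rw [← Real.exp_add]
    refine Real.exp_le_exp.2 ?_
    have : 2099 / 10000 / s ≤ 49 / 50 * (M + 1) * (Real.exp (-M) / s) := by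
      rw [← mul_div_assoc]
      refine div_le_div_of_nonneg_right ?_ hs.le
      nlinarith
    linarith
  have a5 := a4.trans (mul_le_mul a2 a3 (Real.exp_pos _).le (by norm_num))
  have a6 := mul_le_mul h2 a5 (Real.exp_pos _).le (by norm_num)
  have : 0 ≤ s ^ 4 := by positivity
  linarith

theorem rotG_endA {s m : ℝ} (hs : 0 < s) (hs' : s ≤ 91 / 10000) (h1 : 28818 / 10000 ≤ m)
    (h2 : m ≤ 29192 / 10000) : rotG s m ≤ 3 / 100000 * s ^ 3 := by
  have a1 : (5258 / 100000 : ℝ) ≤ Real.exp (-m) :=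
    (rot_exp_neg_ge (x := 808 / 10000) (by norm_num) (by norm_num) (by norm_num)).trans
      (Real.exp_le_exp.2 (by linarith))
  have a2 : Real.exp (-(11 / 4)) ≤ 67 / 1000 :=
    rot_exp_neg_le (by norm_num) (le_trans (by norm_num)
      ((rot_exp_ge 2 (x := 3 / 4) (by norm_num)).trans (le_of_eq (by norm_num))))
  have a3 : Real.exp (-(1 / 5 / s)) ≤ 42 / 100000 * s ^ 3 :=
    rot_dec hs hs' (by norm_num) (by norm_num) (le_trans (by norm_num)
      ((rot_exp_ge 21 (x := 2000 / 91 - 21) (by norm_num)).trans (le_of_eq (by norm_num))))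
  have a4 : rotG s m ≤ Real.exp (-(11 / 4)) * Real.exp (-(1 / 5 / s)) := by
    rw [← Real.exp_add]
    refine Real.exp_le_exp.2 ?_
    have : 1 / 5 / s ≤ 49 / 50 * (m + 1) * (Real.exp (-m) / s) := by
      rw [← mul_div_assoc]
      refine div_le_div_of_nonneg_right ?_ hs.le
      nlinarith
    linarith
  have a5 := a4.trans (mul_le_mul a2 a3 (Real.exp_pos _).le (by norm_num))
  have : 0 ≤ s ^ 3 := by positivity
  linarith

theorem rotG_B {L m : ℝ} (h1 : 29 / 10 ≤ L - 5 / 2) (hm : |m - (L - 5 / 2)| ≤ 182 / 10000) :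
    (L - 5 / 2) * rotG (sg L) m ≤ 1 / 10000 * sg L ^ 4 := by
  obtain ⟨hm1, hm2⟩ := abs_le.1 hm
  have a1 : (1094 / 100 : ℝ) ≤ Real.exp (-m) / sg L := by
    unfold sg
    rw [← Real.exp_sub]
    exact (le_trans (by norm_num) (rot_exp_ge 2 (x := 4818 / 10000) (by norm_num))).trans
      (Real.exp_le_exp.2 (by push_cast; linarith))
  have a2 : Real.exp (-19) ≤ 1 / 10000 :=
    rot_exp_neg_le (by norm_num) (le_trans (by norm_num)
      ((rot_exp_nat 19).trans (le_of_eq (by norm_num))))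
  have a3 : L - 5 / 2 ≤ Real.exp (L - 5 / 2) := by linarith [Real.add_one_le_exp (L - 5 / 2)]
  have a4 : sg L ^ 4 = Real.exp (-(4 * L)) := by
    unfold sg; rw [← Real.exp_nat_mul]; congr 1; push_cast; ring
  refine (mul_le_mul_of_nonneg_right a3 (Real.exp_pos _).le).trans
    (le_trans ?_ (mul_le_mul_of_nonneg_right a2 (by rw [a4]; positivity)))
  rw [a4, ← Real.exp_add, ← Real.exp_add]
  refine Real.exp_le_exp.2 ?_
  have := mul_le_mul_of_nonneg_left a1 (by linarith : 0 ≤ 49 / 50 * (m + 1))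
  linarith

theorem rotG_up {L m : ℝ} (hL : 47 / 10 ≤ L) (hm : 9 / 2 * L + 897 / 100 ≤ m) :
    rotG (sg L) m ≤ 15 / 100000 * (sg L ^ 4 * Real.exp (-(L / 2))) := by
  have a2 : Real.exp (-(887 / 100)) ≤ 15 / 100000 :=
    rot_exp_neg_le (by norm_num) (le_trans (by norm_num)
      ((rot_exp_ge 8 (x := 87 / 100) (by norm_num)).trans (le_of_eq (by norm_num))))
  have a4 : sg L ^ 4 = Real.exp (-(4 * L)) := by
    unfold sg; rw [← Real.exp_nat_mul]; congr 1; push_cast; ring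
  refine le_trans ?_ (mul_le_mul_of_nonneg_right a2 (by rw [a4]; positivity))
  rw [a4, ← Real.exp_add, ← Real.exp_add]
  have h0 : 0 ≤ m + 1 := by linarith
  refine Real.exp_le_exp.2 ?_
  have : 0 ≤ 49 / 50 * (m + 1) * (Real.exp (-m) / sg L) := by
    have := sg_pos L
    positivity
  linarith

theorem rot_diff (L φ₁ φ₂ : ℝ) : Differentiable ℂ (FF L φ₁ φ₂) := by
  unfold FF FA FB gA gB
  fun_prop

theorem rot_growth {L T ψ φ₁ φ₂ : ℝ} (hL : 47 / 10 ≤ L) (hφ₁ : |φ₁| ≤ 42 / 100)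
    (hφ₂ : |φ₂| ≤ 42 / 100) (hψ : ψ ∈ Set.uIcc 0 φ₁) (hm : 287 / 100 ≤ T * Real.exp (-L + -be L))
    (hm' : T * Real.exp (-L + be L) * sg L ≤ 29 / 100) :
    ‖FF L φ₁ φ₂ (T * exp (-(ψ * I)))‖ ≤ rotG (sg L) (T * Real.exp (-L + -be L)) *
      Real.exp (-(1 / 8 * lam L * (φ₁ ^ 2 + φ₂ ^ 2))) := by
  refine (growth hL hφ₁ hφ₂ hψ hm hm').trans (le_of_eq ?_)
  unfold rotG
  rw [← Real.exp_add]; congr 1

theorem rot_disc {L T φ₁ φ₂ : ℝ} {z : ℂ} (hL : 47 / 10 ≤ L) (hφ₁ : |φ₁| ≤ 42 / 100)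
    (hφ₂ : |φ₂| ≤ 42 / 100) (hm : 29 / 10 ≤ T * Real.exp (-L + -be L))
    (hm' : T * Real.exp (-L + be L) * sg L ≤ 29 / 100) (hz : ‖z - T‖ * sg L ≤ 3 / 20) :
    ‖FF L φ₁ φ₂ z‖ ≤ 154 / 100 * Real.exp (-(1 / 8 * lam L * (φ₁ ^ 2 + φ₂ ^ 2))) *
      Real.exp (-(T * Real.exp (-L + be L)) -
        117 / 50 * (Real.exp (-(T * Real.exp (-L + be L))) / Real.exp (-L + be L))) := by
  have hR0 := Real.exp_pos (-L + -be L)
  have hR1 := Real.exp_pos (-L + be L)
  have hT : 0 ≤ T := by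
    by_contra h
    push Not at h
    nlinarith
  have h01 := mul_le_mul_of_nonneg_left (rot_R0_le_R1 L) hT
  have a := wA hL hφ₁ hm hz
  have b := wB hL hφ₂ (hm.trans h01) hm' hz
  have c : Real.exp (7 / 20) ≤ 154 / 100 := (rot_exp_le (by norm_num)).trans (by norm_num)
  unfold FF
  rw [norm_mul]
  refine (mul_le_mul a b (norm_nonneg _) (Real.exp_pos _).le).trans ?_
  refine le_trans ?_ (mul_le_mul_of_nonneg_right
    (mul_le_mul_of_nonneg_right c (Real.exp_pos _).le) (Real.exp_pos _).le)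
  rw [← Real.exp_add, ← Real.exp_add, ← Real.exp_add]
  refine Real.exp_le_exp.2 ?_
  set R0 := Real.exp (-L + -be L)
  set R1 := Real.exp (-L + be L)
  have d1 : Real.exp (-(T * R1)) ≤ Real.exp (-(T * R0)) := Real.exp_le_exp.2 (by linarith)
  have d2 : 29 / 10 * (Real.exp (-(T * R1)) / R1) ≤ T * Real.exp (-(T * R0)) := by
    rw [← mul_div_assoc, div_le_iff₀ hR1]
    have := mul_le_mul (hm.trans h01) d1 (Real.exp_pos _).le (by positivity)
    linarith
  have d3 : 0 ≤ Real.exp (-(T * R1)) / R1 := by positivity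
  have d4 : 0 ≤ lam L * φ₁ ^ 2 := mul_nonneg (lam_pos L).le (sq_nonneg _)
  have d5 : 0 ≤ lam L * φ₂ ^ 2 := mul_nonneg (lam_pos L).le (sq_nonneg _)
  linarith

theorem rot_est {L g₀ g₁ Φ φ₁ φ₂ : ℝ} (hW : Win L g₀ g₁ Φ) (hφ₁ : |φ₁| ≤ 42 / 100)
    (hφ₂ : |φ₂| ≤ 42 / 100) :
    ‖∑ t ∈ Icc ⌈Tg L g₀⌉₊ ⌊Tg L g₁⌋₊, FF L φ₁ φ₂ t -
        exp (-(φ₁ * I)) * ∫ T in Tg L g₀..Tg L g₁, FF L φ₁ φ₂ (T * exp (-(φ₁ * I)))‖ ≤
      sg L ^ 3 / 500 * Real.exp (-(1 / 8 * lam L * (φ₁ ^ 2 + φ₂ ^ 2))) := by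
  have hL := hW.hL
  have hs := sg_pos L
  have hs' := sg_le hL
  have hb := rot_exp_be hL
  have hb0 := Real.exp_pos (be L)
  obtain ⟨hTa, hab⟩ := win_lt hW
  have hlow := win_low hW
  have hhigh := win_high hW
  have hR0 := Real.exp_pos (-L + -be L)
  have hR1 := Real.exp_pos (-L + be L)
  have hR0' : Real.exp (-L + -be L) ≤ 91 / 10000 := (rot_R0_le L).trans hs'
  have hR1' : Real.exp (-L + be L) ≤ 1 / 100 := by rw [rot_R1]; nlinarith
  have hM0 := hW.h0
  have hM1 := hW.h1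
  have hM1' := hW.h1'
  set W := Real.exp (-(1 / 8 * lam L * (φ₁ ^ 2 + φ₂ ^ 2))) with hWd
  have hW0 : 0 < W := Real.exp_pos _
  have hup : ∀ T : ℝ, T ≤ Tg L g₁ + 2 → T * Real.exp (-L + be L) * sg L ≤ 29 / 100 := fun T hT =>
    (mul_le_mul_of_nonneg_right (mul_le_mul_of_nonneg_right hT hR1.le) hs.le).trans hhigh
  have hnear : ∀ g T : ℝ, |T - Tg L g| ≤ 2 →
      |T * Real.exp (-L + -be L) - (L + g)| ≤ 182 / 10000 := fun g T hT => by
    rw [← rot_Tg_mul L g, ← sub_mul, abs_mul, abs_of_pos hR0]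
    nlinarith [abs_nonneg (T - Tg L g)]
  have hs4 : sg L ^ 4 ≤ 91 / 10000 * sg L ^ 3 := by
    rw [pow_succ, mul_comm]; exact mul_le_mul_of_nonneg_right hs' (by positivity)
  have hs3 : 0 < sg L ^ 3 := by positivity
  have hend : ∀ T : ℝ, 287 / 100 ≤ T * Real.exp (-L + -be L) → T ≤ Tg L g₁ + 2 →
      ‖FF L φ₁ φ₂ T‖ ≤ rotG (sg L) (T * Real.exp (-L + -be L)) * W := fun T h1 h2 => by
    have := rot_growth (ψ := 0) hL hφ₁ hφ₂ Set.left_mem_uIcc h1 (hup T h2)
    rwa [ofReal_zero, zero_mul, neg_zero, exp_zero, mul_one] at this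
  have q := quad_sum (rot_diff L φ₁ φ₂) (r := 3 / 20 / sg L) (Ta := Tg L g₀) (Tb := Tg L g₁)
    (Ea := 3 / 100000 * sg L ^ 3 * W) (Eb := 2 / 1000000 * sg L ^ 3 * W)
    (S := fun t => 154 / 100 * W * Real.exp (-(t * Real.exp (-L + be L)) -
        117 / 50 * (Real.exp (-(t * Real.exp (-L + be L))) / Real.exp (-L + be L))))
    (by rw [le_div_iff₀ hs]; linarith) (by linarith) hab
    (fun t ht z hz => by
      obtain ⟨ht1, ht2⟩ := mem_Icc.1 ht
      have ht1' : Tg L g₀ ≤ t := Nat.ceil_le.1 ht1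
      have ht2' : (t : ℝ) ≤ Tg L g₁ := (Nat.le_floor_iff (by linarith)).1 ht2
      refine rot_disc (T := t) hL hφ₁ hφ₂
        (hlow.trans (mul_le_mul_of_nonneg_right ht1' hR0.le)) (hup _ (by linarith)) ?_
      rw [le_div_iff₀ hs] at hz
      exact_mod_cast hz)
    (fun T hT => by
      have h1 := hnear g₀ T hT
      obtain ⟨h2, h3⟩ := abs_le.1 h1
      obtain ⟨h4, h5⟩ := abs_le.1 hT
      refine (hend T (by linarith) (by linarith)).trans (mul_le_mul_of_nonneg_right ?_ hW0.le)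
      rcases hW.h0' with h | h
      · exact rotG_endA hs hs' (by linarith) (by linarith)
      · subst h
        have h6 := rotG_B (L := L) (m := T * Real.exp (-L + -be L)) (by linarith)
          (by rw [sub_eq_add_neg L]; exact h1)
        have h7 : 0 ≤ rotG (sg L) (T * Real.exp (-L + -be L)) := (Real.exp_pos _).le
        have h8 := mul_le_mul_of_nonneg_right (by linarith : 1 ≤ L - 5 / 2) h7
        linarith)
    (fun T hT => by
      obtain ⟨h2, h3⟩ := abs_le.1 (hnear g₁ T hT)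
      obtain ⟨h4, h5⟩ := abs_le.1 hT
      refine (hend T (by linarith) (by linarith)).trans (mul_le_mul_of_nonneg_right ?_ hW0.le)
      refine (rotG_up hL (by linarith)).trans ?_
      have h6 : Real.exp (-(L / 2)) ≤ 1 := Real.exp_le_one_iff.2 (by linarith)
      have h7 := mul_le_mul hs4 h6 (Real.exp_pos _).le (by positivity)
      linarith)
  have r := rot_int (rot_diff L φ₁ φ₂) (Ta := Tg L g₀) (Tb := Tg L g₁) (φ := φ₁)
    (Aa := rotG (sg L) (L + g₀) * W) (Ab := rotG (sg L) (L + g₁) * W) (by linarith) (by linarith)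
    (fun ψ hψ => by
      have := rot_growth hL hφ₁ hφ₂ hψ (le_trans (by norm_num) hlow) (hup _ (by linarith))
      rwa [rot_Tg_mul] at this)
    (fun ψ hψ => by
      have := rot_growth (T := Tg L g₁) hL hφ₁ hφ₂ hψ (by rw [rot_Tg_mul]; linarith)
        (hup _ (by linarith))
      rwa [rot_Tg_mul] at this)
  have t1 := tele_sum hR1 hR1' (c := 117 / 50) (by norm_num) ⌈Tg L g₀⌉₊ ⌊Tg L g₁⌋₊
  rw [← mul_sum] at q
  have t2 : 9 / 5 / (3 / 20 / sg L) ^ 8 ≤ 44 / 100000 * sg L ^ 3 := by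
    have e : 9 / 5 / (3 / 20 / sg L) ^ 8 = 9 / 5 * (20 / 3) ^ 8 * sg L ^ 5 * sg L ^ 3 := by
      field_simp
    have h5 : sg L ^ 5 ≤ (91 / 10000) ^ 5 := pow_le_pow_left₀ hs.le hs' 5
    rw [e]
    refine mul_le_mul_of_nonneg_right ?_ hs3.le
    linarith
  have t3 := mul_le_mul t2 (mul_le_mul_of_nonneg_left t1 (by positivity : 0 ≤ 154 / 100 * W))
    (mul_nonneg (by positivity) (sum_nonneg fun _ _ => (Real.exp_pos _).le)) (by positivity)
  have arc : ∀ g K : ℝ, 0 ≤ K → (L + g) * rotG (sg L) (L + g) ≤ K * sg L ^ 4 →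
      Tg L g * rotG (sg L) (L + g) ≤ 10148 / 10000 * K * sg L ^ 3 := fun g K hK h => by
    refine le_of_mul_le_mul_right ?_ hs
    calc Tg L g * rotG (sg L) (L + g) * sg L
        = (L + g) * rotG (sg L) (L + g) * Real.exp (be L) := by
          linear_combination rotG (sg L) (L + g) * rot_Tg_sg L g
      _ ≤ K * sg L ^ 4 * (10148 / 10000) := mul_le_mul h hb hb0.le (by positivity)
      _ = _ := by ring
  have u1 := arc g₀ (27 / 10000) (by norm_num) (by
    rcases hW.h0' with h | h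
    · exact rotG_arcA hs hs' hM0 h
    · subst h
      have h6 := rotG_B (L := L) (m := L - 5 / 2) (by linarith) (by norm_num)
      have : 0 ≤ sg L ^ 4 := by positivity
      rw [← sub_eq_add_neg]
      linarith)
  have u2 := arc g₁ (44 / 100000) (by norm_num) (by
    have h0 := mul_le_mul (by linarith : L + g₁ ≤ 9 / 2 * L + 9)
      (rotG_up (m := L + g₁) hL (by linarith)) (Real.exp_pos _).le (by linarith)
    have h2 := mul_le_mul_of_nonneg_left (rot_lin2 hL) (by positivity : 0 ≤ sg L ^ 4)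
    have : 0 ≤ sg L ^ 4 := by positivity
    linarith)
  have u3 : Tg L g₀ * (rotG (sg L) (L + g₀) * W) + Tg L g₁ * (rotG (sg L) (L + g₁) * W) ≤
      32 / 10000 * (sg L ^ 3 * W) := by
    have := mul_le_mul_of_nonneg_right (add_le_add u1 u2) hW0.le
    have : 0 ≤ sg L ^ 3 * W := by positivity
    linarith
  have u4 := r.trans (mul_le_mul hφ₁ u3 (by
    have : 0 ≤ rotG (sg L) (L + g₀) := (Real.exp_pos _).le
    have : 0 ≤ rotG (sg L) (L + g₁) := (Real.exp_pos _).le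
    have : 0 ≤ Tg L g₀ := by linarith
    have : 0 ≤ Tg L g₁ := by linarith
    positivity) (by norm_num))
  refine (norm_sub_le_norm_sub_add_norm_sub _ (∫ T in Tg L g₀..Tg L g₁, FF L φ₁ φ₂ T) _).trans ?_
  have : 0 ≤ sg L ^ 3 * W := by positivity
  linarith

end Pool.Agent.Lib.MP_6cad4c_al
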