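import Pool.Agent.Lib.MP_6cad4c_al.PnEst
import Pool.Agent.Lib.MP_6cad4c_al.Trunc

namespace Pool.Agent.Lib.MP_6cad4c_al

open Finset

theorem tails_chernoff {a : ℕ → ℕ} {y : ℝ} {f : ℂ}
    (h : HasSum (fun k => (a k : ℂ) * Complex.exp (-(y : ℂ)) ^ k) f) (n : ℕ) :
    (a n : ℝ) ≤ Real.exp (n * y) * ‖f‖ := by
  have h1 := Complex.hasSum_re h
  have h2 : (fun k => ((a k : ℂ) * Complex.exp (-(y : ℂ)) ^ k).re) =
      fun k => (a k : ℝ) * Real.exp (-y) ^ k := by
    funext k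
    rw [← Complex.ofReal_neg, ← Complex.ofReal_exp, ← Complex.ofReal_pow, ← Complex.ofReal_natCast,
      ← Complex.ofReal_mul, Complex.ofReal_re]
  rw [h2] at h1
  have h3 := le_hasSum h1 n (fun j _ => by positivity)
  have h4 := h3.trans (Complex.re_le_norm f)
  have h5 : Real.exp (n * y) * Real.exp (-y) ^ n = 1 := by
    rw [← Real.exp_nat_mul, ← Real.exp_add]
    simp
  calc (a n : ℝ) = Real.exp (n * y) * ((a n : ℝ) * Real.exp (-y) ^ n) := by
        linear_combination (-(a n : ℝ)) * h5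
    _ ≤ _ := by gcongr

theorem tails_norm_lt {y : ℝ} (hy : 0 < y) : ‖Complex.exp (-(y : ℂ))‖ < 1 := by
  rw [Complex.norm_exp]
  simpa using hy

theorem tails_NJ_le {n : ℕ} (hL : 47 / 10 ≤ Ln n) : NJ (Ln n) ≤ 10001 / 10000 * pn n := by
  have h := (abs_le.1 (pn_est hL)).1
  have hs := sg_le hL
  have hs0 := sg_pos (Ln n)
  have hN := NJ_pos (Ln n)
  have h1 : sg (Ln n) ^ 4 ≤ (91 / 10000) ^ 4 := by gcongr
  have h2 : 99995 / 100000 ≤ (pn n : ℝ) / NJ (Ln n) := by
    norm_num at h1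
    linarith
  rw [le_div_iff₀ hN] at h2
  linarith

theorem tails_NJ_eq (L : ℝ) : NJ L = Real.exp (2 * lam L) * sg L ^ 2 * Real.exp (-kk L / 2) /
    (2 * Real.pi * Real.sqrt (2 * cc)) := by
  have h1 : Real.exp (2 * lam L - 3 * L / 2) * Real.exp (-L / 2) =
      Real.exp (2 * lam L) * sg L ^ 2 := by
    unfold sg
    rw [← Real.exp_nat_mul, ← Real.exp_add, ← Real.exp_add]
    congr 1
    push_cast
    ring
  have h2 : 0 < Real.sqrt (2 * Real.pi) := Real.sqrt_pos.2 (by have := Real.pi_pos; positivity)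
  have h3 : 0 < Real.sqrt (2 * cc) := Real.sqrt_pos.2 (by have := cc_pos; positivity)
  have h4 := Real.pi_pos
  unfold NJ J0 eta
  rw [← h1]
  field_simp

theorem tails_inv_eul {n : ℕ} (hL : 47 / 10 ≤ Ln n) {r ρ : ℝ} (hr : 0 < r) (hr1 : r ≤ 1)
    (hρ : 0 ≤ ρ) (hrρ : r ≤ ρ ^ 2) :
    Real.exp (n * (r * sg (Ln n))) * ‖(eul (Complex.exp (-((r * sg (Ln n) : ℝ) : ℂ))))⁻¹‖ ≤
      437 / 1000 * ρ / sg (Ln n) ^ 2 * Real.exp (lam (Ln n) * (r + 1 / r - 2)) * pn n := by
  have hs := sg_le hL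
  have hs0 := sg_pos (Ln n)
  have hN := tails_NJ_le hL
  rw [tails_NJ_eq] at hN
  have hnu := nu_eq hL
  have hls := lam_mul_sg (Ln n)
  have hkk := kk_le hL
  have hkk0 := kk_pos (Ln n)
  have he2 : Real.exp (2 * Ln n) = (sg (Ln n))⁻¹ ^ 2 := by
    rw [← exp_eq_inv_sg, ← Real.exp_nat_mul]
    norm_num
  rw [he2] at hnu
  set s := sg (Ln n) with hsdef
  set l := lam (Ln n) with hl
  set y := r * s with hy
  have hy0 : 0 < y := mul_pos hr hs0
  have hy1 : y ≤ 91 / 10000 := by nlinarith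
  have h1 := norm_inv_eul_le' (s := (y : ℂ)) (by simpa using hy0)
  rw [Complex.norm_real, Real.norm_of_nonneg hy0.le, Complex.ofReal_re] at h1
  have h2 : n * y + (cc * y / y ^ 2 - y / 24 + y ^ 2 / (24 * y)) =
      l * (r + 1 / r - 2) + 2 * l + y / 24 := by
    have h3 : (n : ℝ) = l / s + 1 / 24 := by
      rw [← hls] at hnu
      field_simp at hnu ⊢
      linarith
    rw [h3, ← hls, hy]
    field_simp
    ring
  have hpi := Real.pi_gt_d4
  have hpi' := Real.pi_lt_d4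
  have h4 : Real.sqrt (y / (2 * Real.pi)) ≤ 3806 / 100000 * ρ := by
    apply Real.sqrt_le_iff.2 ⟨by positivity, ?_⟩
    rw [div_le_iff₀ (by positivity), mul_pow, hy]
    have : r * s ≤ ρ ^ 2 * (91 / 10000) := by gcongr
    nlinarith [sq_nonneg ρ]
  have h5 : Real.sqrt (2 * cc) ≤ 18139 / 10000 := by
    apply Real.sqrt_le_iff.2 ⟨by positivity, ?_⟩
    linarith [cc_lt]
  have h5' : 0 < Real.sqrt (2 * cc) := Real.sqrt_pos.2 (by have := cc_pos; positivity)
  have h6 : Real.exp (y / 24 + kk (Ln n) / 2) ≤ 10064 / 10000 := by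
    have h7 := Real.abs_exp_sub_one_le (x := y / 24 + kk (Ln n) / 2)
      (by rw [abs_of_pos (by positivity)]; linarith)
    rw [abs_of_pos (show 0 < y / 24 + kk (Ln n) / 2 by positivity)] at h7
    linarith [(abs_le.1 h7).2]
  have h8 : Real.exp (2 * l) ≤ 10001 / 10000 * pn n * (2 * Real.pi * Real.sqrt (2 * cc)) *
      Real.exp (kk (Ln n) / 2) / s ^ 2 := by
    rw [div_le_iff₀ (by positivity), neg_div, Real.exp_neg] at hN
    rw [le_div_iff₀ (by positivity)]
    rw [mul_inv_le_iff₀ (Real.exp_pos _)] at hN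
    exact hN
  have hp : (0 : ℝ) ≤ pn n := Nat.cast_nonneg _
  calc Real.exp (n * y) * ‖(eul (Complex.exp (-(y : ℂ))))⁻¹‖
      ≤ Real.exp (n * y) * (Real.sqrt (y / (2 * Real.pi)) *
        Real.exp (cc * y / y ^ 2 - y / 24 + y ^ 2 / (24 * y))) := by gcongr
    _ = Real.sqrt (y / (2 * Real.pi)) * (Real.exp (l * (r + 1 / r - 2)) * Real.exp (2 * l) *
        Real.exp (y / 24)) := by
        rw [← Real.exp_add, ← Real.exp_add, ← h2, Real.exp_add (n * y)]
        ring
    _ ≤ 3806 / 100000 * ρ * (Real.exp (l * (r + 1 / r - 2)) *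
        (10001 / 10000 * pn n * (2 * Real.pi * Real.sqrt (2 * cc)) *
          Real.exp (kk (Ln n) / 2) / s ^ 2) * Real.exp (y / 24)) := by gcongr
    _ = (3806 / 100000 * (10001 / 10000) * (2 * Real.pi * Real.sqrt (2 * cc)) *
        Real.exp (y / 24 + kk (Ln n) / 2)) *
        (ρ / s ^ 2 * Real.exp (l * (r + 1 / r - 2)) * pn n) := by
        rw [Real.exp_add]
        ring
    _ ≤ (3806 / 100000 * (10001 / 10000) * (2 * 3.1416 * (18139 / 10000)) * (10064 / 10000)) *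
        (ρ / s ^ 2 * Real.exp (l * (r + 1 / r - 2)) * pn n) := by gcongr
    _ ≤ 437 / 1000 * (ρ / s ^ 2 * Real.exp (l * (r + 1 / r - 2)) * pn n) := by
        apply mul_le_mul_of_nonneg_right (by norm_num) (by positivity)
    _ = _ := by ring

theorem tails_exp_ge (k : ℕ) {f : ℝ} (hf : 0 ≤ f) :
    (2.7182818283 : ℝ) ^ k * (1 + f + f ^ 2 / 2) ≤ Real.exp (k + f) := by
  rw [Real.exp_add, ← Real.exp_one_pow]
  have h1 := Real.exp_one_gt_d9.le
  have h2 := Real.quadratic_le_exp_of_nonneg hf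
  gcongr

theorem tails_exp_le {a s f : ℝ} (hs0 : 0 < s) (hs : s ≤ 91 / 10000) (k m : ℕ) (hf : 0 ≤ f)
    (hk : k + f ≤ a / (91 / 10000)) (hm : m * (91 / 10000) ≤ a) :
    Real.exp (-(a / s)) ≤
      ((2.7182818283 : ℝ) ^ k * (1 + f + f ^ 2 / 2) * (91 / 10000) ^ m)⁻¹ * s ^ m := by
  set x := 91 / 10000 / s - 1 with hx
  have hx0 : 0 ≤ x := by
    rw [hx, sub_nonneg, le_div_iff₀ hs0]
    linarith
  have h1 : a / s = a / (91 / 10000) + a / (91 / 10000) * x := by
    rw [hx]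
    field_simp
    ring
  have h2 : (m : ℝ) ≤ a / (91 / 10000) := by rwa [le_div_iff₀ (by norm_num)]
  have h3 : (91 / 10000 / s) ^ m ≤ Real.exp (a / (91 / 10000) * x) := by
    calc (91 / 10000 / s) ^ m = (x + 1) ^ m := by rw [hx]; ring
      _ ≤ Real.exp x ^ m := by gcongr; exact Real.add_one_le_exp x
      _ = Real.exp (m * x) := by rw [Real.exp_nat_mul]
      _ ≤ _ := by gcongr
  have h4 := (tails_exp_ge k hf).trans (Real.exp_le_exp.2 hk)
  have h5 : (2.7182818283 : ℝ) ^ k * (1 + f + f ^ 2 / 2) * (91 / 10000 / s) ^ m ≤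
      Real.exp (a / s) := by
    rw [h1, Real.exp_add]
    gcongr
  rw [Real.exp_neg]
  refine (inv_anti₀ (by positivity) h5).trans (le_of_eq ?_)
  rw [div_pow]
  field_simp

theorem tails_mono {w W : ℝ} (hw : 1 ≤ w) (hW : w ≤ W) {k : ℕ} (hk : 1 ≤ k) :
    W * Real.exp (-W) ^ k ≤ w * Real.exp (-w) ^ k := by
  have hk' : (1 : ℝ) ≤ k := by exact_mod_cast hk
  have h1 : Real.exp (-w) ^ k = Real.exp (k * (W - w)) * Real.exp (-W) ^ k := by
    rw [← Real.exp_nat_mul, ← Real.exp_nat_mul, ← Real.exp_add]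
    congr 1
    ring
  have h2 := Real.add_one_le_exp (k * (W - w))
  have h3 : W ≤ w * Real.exp (k * (W - w)) := by
    have h4 : W - w ≤ k * (W - w) := by nlinarith
    nlinarith
  rw [h1, ← mul_assoc]
  gcongr

theorem tails_sum_qn (n T : ℕ) : ∑ t ∈ Icc 1 T, qn t n ≤ ple T n := by
  induction T with
  | zero => simp
  | succ T ih =>
    rw [sum_Icc_succ_top (by omega)]
    have := ple_mono (show T ≤ T + 1 by omega) n
    unfold qn at ih ⊢
    simp only [Nat.add_sub_cancel]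
    omega

theorem tails_inv_prod (t : ℕ) {x : ℂ} (hx : ‖x‖ < 1) :
    (∏ k ∈ range t, (1 - x ^ (k + 1)))⁻¹ = (∏' k : ℕ, (1 - x ^ (k + t + 1))) / eul x := by
  have h := eul_eq_prod_mul t hx
  have h0 := eul_ne_zero hx
  rw [h] at h0 ⊢
  have h1 := left_ne_zero_of_mul h0
  have h2 := right_ne_zero_of_mul h0
  field_simp

theorem tails_zoneA {n : ℕ} (hL : 47 / 10 ≤ Ln n) {T : ℕ} (hT : T * sg (Ln n) ≤ 4 / 3) :
    (ple T n : ℝ) ≤ sg (Ln n) ^ 3 / 250 * pn n := by
  have hs := sg_le hL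
  have hs0 := sg_pos (Ln n)
  have h1 := tails_inv_eul hL (r := 1) (ρ := 1) (by norm_num) le_rfl (by norm_num) (by norm_num)
  simp only [one_mul, mul_one] at h1
  rw [show lam (Ln n) * (1 + 1 / 1 - 2) = 0 by ring, Real.exp_zero, mul_one] at h1
  set s := sg (Ln n) with hsdef
  have hx := tails_norm_lt hs0
  have h2 := tails_chernoff (hasSum_ple T hx) n
  rw [tails_inv_prod T hx, div_eq_mul_inv, norm_mul] at h2
  have h3 := norm_tail_le_real T hs0
  have h4 : 2611 / 10000 ≤ Real.exp (-((T + 1) * s)) := by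
    have h5 : Real.exp (13425 / 10000) ≤ 10000 / 2611 := by
      have h6 := Real.exp_bound' (x := 3425 / 10000) (by norm_num) (by norm_num) (n := 5)
        (by norm_num)
      simp only [sum_range_succ, sum_range_zero, Nat.factorial] at h6
      have h7 := Real.exp_one_lt_d9.le
      rw [show (13425 / 10000 : ℝ) = 1 + 3425 / 10000 by norm_num, Real.exp_add]
      refine (mul_le_mul h7 h6 (Real.exp_pos _).le (by norm_num)).trans ?_
      norm_num
    have h8 : Real.exp (-(13425 / 10000)) ≤ Real.exp (-((T + 1) * s)) :=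
      Real.exp_le_exp.2 (by linarith)
    refine le_trans ?_ h8
    rw [Real.exp_neg]
    exact le_inv_of_le_inv₀ (Real.exp_pos _) (by simpa using h5)
  have h5 : Real.exp (-(Real.exp (-((T + 1) * s)) / s)) ≤ Real.exp (-(2611 / 10000 / s)) := by
    apply Real.exp_le_exp.2
    gcongr
  have h6 := tails_exp_le (a := 2611 / 10000) (f := 1 / 2) hs0 hs 28 5 (by norm_num)
    (by norm_num) (by norm_num)
  have h7 : ‖∏' k : ℕ, (1 - Complex.exp (-(s : ℂ)) ^ (k + T + 1))‖ ≤ 9 / 1000 * s ^ 5 := by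
    refine ((h3.trans h5).trans h6).trans ?_
    gcongr
    norm_num
  have hp : (0 : ℝ) ≤ pn n := Nat.cast_nonneg _
  calc (ple T n : ℝ) ≤ ‖∏' k : ℕ, (1 - Complex.exp (-(s : ℂ)) ^ (k + T + 1))‖ *
        (Real.exp (n * s) * ‖(eul (Complex.exp (-(s : ℂ))))⁻¹‖) := by linarith
    _ ≤ 9 / 1000 * s ^ 5 * (437 / 1000 / s ^ 2 * pn n) := by gcongr
    _ = 9 / 1000 * (437 / 1000) * (s ^ 3 * pn n) := by field_simp
    _ ≤ 1 / 250 * (s ^ 3 * pn n) := by
        apply mul_le_mul_of_nonneg_right (by norm_num) (by positivity)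
    _ = _ := by ring

theorem tails_cor_le {n t : ℕ} (hL : 47 / 10 ≤ Ln n) (ht : 1 ≤ t) {r ρ : ℝ} (hr : 0 < r)
    (hr1 : r ≤ 1) (hρ : 0 ≤ ρ) (hrρ : r ≤ ρ ^ 2) {X : ℝ} (hX : X = Real.exp (-(r * sg (Ln n) * t))) :
    (cor t n : ℝ) ≤ 437 / 1000 * ρ / sg (Ln n) ^ 2 * Real.exp (lam (Ln n) * (r + 1 / r - 2) -
      t * (X + 3 / 2 * X ^ 2 + 4 / 3 * X ^ 3)) * pn n := by
  have hs0 := sg_pos (Ln n)
  have h1 := tails_inv_eul hL hr hr1 hρ hrρ
  set y := r * sg (Ln n) with hy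
  have hy0 : 0 < y := mul_pos hr hs0
  have hx := tails_norm_lt hy0
  have h2 := tails_chernoff (hasSum_cor ht hx) n
  have h3 : Complex.exp (-(y : ℂ)) ^ t = (X : ℂ) := by
    rw [hX, ← Complex.exp_nat_mul]
    push_cast
    congr 1
    ring
  have ht' : (0 : ℝ) < t := by exact_mod_cast ht
  have hX0 : 0 ≤ X := hX ▸ (Real.exp_pos _).le
  have hX1 : X < 1 := by
    rw [hX, Real.exp_lt_one_iff]
    nlinarith [mul_pos hy0 ht']
  rw [h3, div_eq_mul_inv, norm_mul, norm_pow] at h2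
  have h4 : ‖eul X‖ ^ t ≤ Real.exp (-(t * (X + 3 / 2 * X ^ 2 + 4 / 3 * X ^ 3))) := by
    rw [← mul_neg, Real.exp_nat_mul]
    gcongr
    exact norm_eul_le_real hX0 hX1
  calc (cor t n : ℝ) ≤ ‖eul X‖ ^ t * (Real.exp (n * y) * ‖(eul (Complex.exp (-(y : ℂ))))⁻¹‖) := by
        linarith
    _ ≤ Real.exp (-(t * (X + 3 / 2 * X ^ 2 + 4 / 3 * X ^ 3))) *
        (437 / 1000 * ρ / sg (Ln n) ^ 2 * Real.exp (lam (Ln n) * (r + 1 / r - 2)) * pn n) := by
        gcongr
    _ = _ := by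
        rw [sub_eq_add_neg (lam (Ln n) * _), Real.exp_add]
        ring

theorem tails_exp_be {L : ℝ} (hL : 47 / 10 ≤ L) : Real.exp (be L) ≤ 1 + 16 / 5 * sg L := by
  have h1 := be_pos L
  have h2 := be_le hL
  have h3 := Real.abs_exp_sub_one_le (x := be L) (by rw [abs_of_pos h1]; linarith)
  rw [abs_of_pos h1] at h3
  have h4 := (abs_le.1 h3).2
  unfold be at h4 ⊢
  linarith

theorem tails_zoneB1 {n t : ℕ} (hL : 47 / 10 ≤ Ln n) (ht1 : 4 / 3 ≤ t * sg (Ln n))
    (ht2 : t * sg (Ln n) ≤ 2901 / 1000 * Real.exp (be (Ln n))) :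
    (cor t n : ℝ) ≤ 16 / 1000 * sg (Ln n) ^ 3 * pn n := by
  have hs := sg_le hL
  have hs0 := sg_pos (Ln n)
  have ht : 1 ≤ t := by
    rcases Nat.eq_zero_or_pos t with rfl | h
    · norm_num at ht1
    · exact h
  have hbe : Real.exp (be (Ln n)) ≤ 10148 / 10000 := by
    have h1 := be_pos (Ln n)
    have h2 := be_le hL
    have h3 := Real.abs_exp_sub_one_sub_id_le (x := be (Ln n)) (by rw [abs_of_pos h1]; linarith)
    have h4 := (abs_le.1 h3).2
    nlinarith
  have h := tails_cor_le hL ht (r := 3 / 4) (ρ := 8661 / 10000) (by norm_num) (by norm_num)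
    (by norm_num) (by norm_num) rfl
  rw [lam_eq] at h
  set s := sg (Ln n) with hsdef
  set w := 3 / 4 * s * t with hw
  have hw1 : 1 ≤ w := by rw [hw]; linarith
  have hw2 : w ≤ 2208 / 1000 := by rw [hw]; linarith
  have hX0 : 1099 / 10000 ≤ Real.exp (-(2208 / 1000)) := by
    have h5 : Real.exp (2208 / 1000) ≤ 10000 / 1099 := by
      have h6 := Real.exp_bound' (x := 208 / 1000) (by norm_num) (by norm_num) (n := 5)
        (by norm_num)
      simp only [sum_range_succ, sum_range_zero, Nat.factorial] at h6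
      have h7 := Real.exp_one_lt_d9.le
      have h8 : Real.exp 2 ≤ 2.7182818286 ^ 2 := by
        rw [show (2 : ℝ) = (2 : ℕ) by norm_num, ← Real.exp_one_pow]
        gcongr
      rw [show (2208 / 1000 : ℝ) = 2 + 208 / 1000 by norm_num, Real.exp_add]
      refine (mul_le_mul h8 h6 (Real.exp_pos _).le (by norm_num)).trans ?_
      norm_num
    rw [Real.exp_neg]
    exact le_inv_of_le_inv₀ (Real.exp_pos _) (by simpa using h5)
  have m : ∀ k : ℕ, 1 ≤ k → 2208 / 1000 * (1099 / 10000) ^ k ≤ w * Real.exp (-w) ^ k := by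
    intro k hk
    refine le_trans ?_ (tails_mono hw1 hw2 hk)
    gcongr
  have m1 := m 1 le_rfl
  have m2 := m 2 (by norm_num)
  have m3 := m 3 (by norm_num)
  have e1 : cc / s * (3 / 4 + 1 / (3 / 4) - 2) -
      t * (Real.exp (-w) + 3 / 2 * Real.exp (-w) ^ 2 + 4 / 3 * Real.exp (-w) ^ 3) ≤
      -(2448 / 10000 / s) := by
    have e2 : (t : ℝ) = 4 / 3 * w / s := by
      rw [hw]
      field_simp
    have e3 : cc / s * (3 / 4 + 1 / (3 / 4) - 2) -
        t * (Real.exp (-w) + 3 / 2 * Real.exp (-w) ^ 2 + 4 / 3 * Real.exp (-w) ^ 3) =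
        -((4 / 3 * (w * Real.exp (-w) ^ 1 + 3 / 2 * (w * Real.exp (-w) ^ 2) +
          4 / 3 * (w * Real.exp (-w) ^ 3)) - cc / 12) / s) := by
      rw [e2]
      field_simp
      ring
    rw [e3, neg_le_neg_iff]
    gcongr
    norm_num at m1 m2 m3 ⊢
    linarith [cc_lt]
  have h6 := tails_exp_le (a := 2448 / 10000) (f := 9 / 10) hs0 hs 26 5 (by norm_num)
    (by norm_num) (by norm_num)
  have h7 := ((Real.exp_le_exp.2 e1).trans h6).trans
    (show _ ≤ 4 / 100 * s ^ 5 by gcongr; norm_num)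
  have hp : (0 : ℝ) ≤ pn n := Nat.cast_nonneg _
  refine h.trans ?_
  calc _ ≤ 437 / 1000 * (8661 / 10000) / s ^ 2 * (4 / 100 * s ^ 5) * pn n := by gcongr
    _ = 437 / 1000 * (8661 / 10000) * (4 / 100) * (s ^ 3 * pn n) := by field_simp
    _ ≤ 16 / 1000 * (s ^ 3 * pn n) := by
        apply mul_le_mul_of_nonneg_right (by norm_num) (by positivity)
    _ = _ := by ring

theorem tails_zoneB2 {n t : ℕ} (hL : 54 / 10 ≤ Ln n) (ht1 : 4 / 3 ≤ t * sg (Ln n))
    (ht2 : t * sg (Ln n) ≤ (Ln n - 5 / 2) * Real.exp (be (Ln n))) :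
    (cor t n : ℝ) ≤ 16 / 1000 * sg (Ln n) ^ 3 * pn n := by
  have hL' : 47 / 10 ≤ Ln n := by linarith
  have hs := sg_le hL'
  have hs0 := sg_pos (Ln n)
  have ht : 1 ≤ t := by
    rcases Nat.eq_zero_or_pos t with rfl | h
    · norm_num at ht1
    · exact h
  have hbe := tails_exp_be hL'
  have hbe1 : 1 ≤ Real.exp (be (Ln n)) := Real.one_le_exp (be_pos _).le
  have h := tails_cor_le hL' ht (r := 1) (ρ := 1) (by norm_num) (by norm_num)
    (by norm_num) (by norm_num) rfl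
  rw [show lam (Ln n) * (1 + 1 / 1 - 2) = 0 by ring] at h
  have hsL : sg (Ln n) = Real.exp (-Ln n) := rfl
  set L := Ln n with hLdef
  set s := sg L with hsdef
  set M := L - 5 / 2 with hM
  set w := 1 * s * t with hw
  set W := M * Real.exp (be L) with hW
  have hM1 : 29 / 10 ≤ M := by linarith
  have hw1 : 1 ≤ w := by rw [hw]; linarith
  have hw2 : w ≤ W := by rw [hw]; linarith
  have m1 := tails_mono hw1 hw2 (k := 1) le_rfl
  have m2 := tails_mono (w := 29 / 10) (by norm_num) hM1 (k := 1) le_rfl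
  rw [pow_one, pow_one] at m1 m2
  have hMs : M * s ≤ 29 / 10 * (91 / 10000) := by
    have h1 : s = Real.exp (-M) * Real.exp (-(5 / 2)) := by
      rw [hsL, ← Real.exp_add, hM]
      congr 1
      ring
    have h2 : Real.exp (-(29 / 10)) * Real.exp (-(5 / 2)) ≤ 91 / 10000 := by
      rw [← Real.exp_add]
      refine le_trans (le_of_eq ?_) (sg_le (L := 54 / 10) (by norm_num))
      unfold sg
      congr 1
      norm_num
    rw [h1, ← mul_assoc]
    calc _ ≤ 29 / 10 * Real.exp (-(29 / 10)) * Real.exp (-(5 / 2)) := by gcongr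
      _ ≤ _ := by rw [mul_assoc]; gcongr
  have hWM : W ≤ M + 1 / 10 := by
    rw [hW]
    nlinarith
  have hMW : M ≤ W := by
    rw [hW]
    nlinarith
  have h24 : 109 / 10 ≤ Real.exp (24 / 10) := by
    have := tails_exp_ge 2 (f := 4 / 10) (by norm_num)
    rw [show ((2 : ℕ) : ℝ) + 4 / 10 = 24 / 10 by norm_num] at this
    refine le_trans ?_ this
    norm_num
  have hX0 := Real.exp_pos (-w)
  have e1 : 109 / 10 * M ≤ t * Real.exp (-w) := by
    have e2 : Real.exp (24 / 10) * s ≤ Real.exp (-W) := by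
      rw [hsL, ← Real.exp_add]
      exact Real.exp_le_exp.2 (by linarith)
    have e3 : M * (109 / 10 * s) ≤ W * Real.exp (-W) := by
      apply mul_le_mul hMW _ (by positivity) (by linarith)
      nlinarith
    have e4 : w * Real.exp (-w) = t * Real.exp (-w) * s := by rw [hw]; ring
    rw [e4] at m1
    have e5 : 109 / 10 * M * s ≤ t * Real.exp (-w) * s := by linarith
    exact le_of_mul_le_mul_right e5 hs0
  have ht0 : (0 : ℝ) ≤ t := Nat.cast_nonneg _
  have e2 : 0 - t * (Real.exp (-w) + 3 / 2 * Real.exp (-w) ^ 2 + 4 / 3 * Real.exp (-w) ^ 3) ≤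
      -4 + 5 * (-L) := by
    have : 0 ≤ t * (3 / 2 * Real.exp (-w) ^ 2 + 4 / 3 * Real.exp (-w) ^ 3) := by positivity
    linarith
  have e3 : Real.exp (-4 + 5 * (-L)) ≤ 2 / 100 * s ^ 5 := by
    rw [Real.exp_add, hsL, ← Real.exp_nat_mul]
    apply mul_le_mul _ (le_of_eq (by norm_num)) (Real.exp_pos _).le (by norm_num)
    have := tails_exp_ge 4 (f := 0) le_rfl
    rw [Real.exp_neg]
    refine inv_le_of_inv_le₀ (by norm_num) (le_trans ?_ (this.trans (le_of_eq (by norm_num))))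
    norm_num
  have h7 := (Real.exp_le_exp.2 e2).trans e3
  have hp : (0 : ℝ) ≤ pn n := Nat.cast_nonneg _
  refine h.trans ?_
  calc _ ≤ 437 / 1000 * 1 / s ^ 2 * (2 / 100 * s ^ 5) * pn n := by gcongr
    _ = 437 / 1000 * (2 / 100) * (s ^ 3 * pn n) := by field_simp
    _ ≤ 16 / 1000 * (s ^ 3 * pn n) := by
        apply mul_le_mul_of_nonneg_right (by norm_num) (by positivity)
    _ = _ := by ring

theorem tails_Tg_mul (L g : ℝ) : Tg L g * sg L = (L + g) * Real.exp (be L) := by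
  unfold Tg sg
  rw [mul_assoc, ← Real.exp_add]
  congr 2
  ring

theorem tail_low {n : ℕ} {g₀ g₁ Φ : ℝ} (hW : Win (Ln n) g₀ g₁ Φ) :
    ∑ t ∈ Ico 1 ⌈Tg (Ln n) g₀⌉₊, (cor t n : ℝ) * qn t n ≤ sg (Ln n) ^ 3 / 50 * (pn n : ℝ) ^ 2 := by
  have hL := hW.hL
  have hs0 := sg_pos (Ln n)
  have hp : (0 : ℝ) ≤ pn n := Nat.cast_nonneg _
  set T := ⌊4 / 3 / sg (Ln n)⌋₊ with hT
  set N := ⌈Tg (Ln n) g₀⌉₊ with hN
  have hT1 : T * sg (Ln n) ≤ 4 / 3 := by
    rw [← le_div_iff₀ hs0]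
    exact Nat.floor_le (by positivity)
  have hA := tails_zoneA hL hT1
  have hB : ∀ t ∈ Ico 1 N, ¬ t ≤ T → (cor t n : ℝ) ≤ 16 / 1000 * sg (Ln n) ^ 3 * pn n := by
    intro t ht htT
    have h1 : 4 / 3 ≤ t * sg (Ln n) := by
      rw [← div_le_iff₀ hs0]
      exact (Nat.lt_of_floor_lt (not_le.1 htT)).le
    have h2 : t * sg (Ln n) ≤ (Ln n + g₀) * Real.exp (be (Ln n)) := by
      rw [← tails_Tg_mul]
      gcongr
      exact (Nat.lt_ceil.1 (mem_Ico.1 ht).2).le
    rcases hW.h0' with h | h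
    · exact tails_zoneB1 hL h1 (h2.trans (by gcongr))
    · have h0 := hW.h0
      rw [h] at h0 h2
      exact tails_zoneB2 (by linarith) h1 h2
  rw [← sum_filter_add_sum_filter_not (Ico 1 N) (fun t => t ≤ T)]
  have s1 : ∑ t ∈ (Ico 1 N).filter (fun t => t ≤ T), (cor t n : ℝ) * qn t n ≤
      pn n * ple T n := by
    calc _ ≤ ∑ t ∈ (Ico 1 N).filter (fun t => t ≤ T), (pn n : ℝ) * qn t n := by
          gcongr with t ht
          exact cor_le_pn t n
      _ ≤ ∑ t ∈ Icc 1 T, (pn n : ℝ) * qn t n := by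
          apply sum_le_sum_of_subset_of_nonneg
          · intro t ht
            simp only [mem_filter, mem_Ico, mem_Icc] at ht ⊢
            omega
          · intro t _ _
            positivity
      _ ≤ _ := by
          rw [← mul_sum]
          gcongr
          exact_mod_cast tails_sum_qn n T
  have s2 : ∑ t ∈ (Ico 1 N).filter (fun t => ¬ t ≤ T), (cor t n : ℝ) * qn t n ≤
      16 / 1000 * sg (Ln n) ^ 3 * pn n * pn n := by
    calc _ ≤ ∑ t ∈ (Ico 1 N).filter (fun t => ¬ t ≤ T),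
            16 / 1000 * sg (Ln n) ^ 3 * pn n * qn t n := by
          gcongr with t ht
          exact hB t (mem_filter.1 ht).1 (mem_filter.1 ht).2
      _ ≤ ∑ t ∈ Icc 1 N, 16 / 1000 * sg (Ln n) ^ 3 * pn n * qn t n := by
          apply sum_le_sum_of_subset_of_nonneg
          · intro t ht
            simp only [mem_filter, mem_Ico, mem_Icc] at ht ⊢
            omega
          · intro t _ _
            positivity
      _ ≤ _ := by
          rw [← mul_sum]
          gcongr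
          exact_mod_cast (tails_sum_qn n N).trans (ple_le_pn N n)
  have s3 : (pn n : ℝ) * ple T n ≤ pn n * (sg (Ln n) ^ 3 / 250 * pn n) := by gcongr
  nlinarith

theorem tails_qn_le {n t : ℕ} (hL : 47 / 10 ≤ Ln n) (ht : 1 ≤ t)
    (hsm : Real.exp (-(t * (913 / 1000 * sg (Ln n)))) ≤ sg (Ln n) / 100) :
    (qn t n : ℝ) ≤ 11 / 10 * Real.exp (-(t * (913 / 1000 * sg (Ln n)))) * pn n := by
  have hs0 := sg_pos (Ln n)
  have hN := tails_NJ_le hL
  have hN0 := NJ_pos (Ln n)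
  set E := Real.exp (-(t * (913 / 1000 * sg (Ln n)))) with hE
  have hE0 : 0 < E := Real.exp_pos _
  have h := arc_crude hL (a := fun k => (qn t k : ℂ))
    (H := fun x => x ^ t * ∏' k : ℕ, (1 - x ^ (k + t + 1))) (h := E * (103 / 100))
    (fun x hx => by
      have := hasSum_qn ht hx
      rwa [tails_inv_prod t hx, ← mul_div_assoc] at this)
    (fun z hz => by
      have hz0 : 0 < z.re := lt_of_lt_of_le (by positivity) hz
      have h1 : Real.exp (-(t * z.re)) ≤ E := by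
        apply Real.exp_le_exp.2
        gcongr
      have h2 : ‖Complex.exp (-z) ^ t‖ = Real.exp (-(t * z.re)) := by
        rw [norm_pow, Complex.norm_exp, ← Real.exp_nat_mul]
        simp
      have h3 : Real.exp (-(t * z.re)) / z.re ≤ 11 / 1000 := by
        rw [div_le_iff₀ hz0]
        linarith
      have h4 : Real.exp (11 / 1000) ≤ 103 / 100 := by
        have := Real.abs_exp_sub_one_le (x := 11 / 1000) (by rw [abs_of_pos] <;> norm_num)
        rw [abs_of_pos (show (0 : ℝ) < 11 / 1000 by norm_num)] at this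
        linarith [(abs_le.1 this).2]
      rw [norm_mul, h2]
      exact mul_le_mul h1 ((norm_tail_le t hz0).trans ((Real.exp_le_exp.2 h3).trans h4))
        (norm_nonneg _) hE0.le)
  rw [Complex.norm_natCast] at h
  refine h.trans ?_
  have hp : (0 : ℝ) ≤ pn n := Nat.cast_nonneg _
  calc _ ≤ 21 / 20 * (E * (103 / 100)) * (10001 / 10000 * pn n) := by gcongr
    _ = 21 / 20 * (103 / 100) * (10001 / 10000) * (E * pn n) := by ring
    _ ≤ 11 / 10 * (E * pn n) := by
        apply mul_le_mul_of_nonneg_right (by norm_num) (by positivity)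
    _ = _ := by ring

theorem tail_high {n : ℕ} {g₀ g₁ Φ : ℝ} (hW : Win (Ln n) g₀ g₁ Φ) :
    ∑ t ∈ Ioc ⌊Tg (Ln n) g₁⌋₊ n, (cor t n : ℝ) * qn t n ≤
      sg (Ln n) ^ 3 / 1000 * (pn n : ℝ) ^ 2 := by
  have hL := hW.hL
  have hs := sg_le hL
  have hs0 := sg_pos (Ln n)
  have hp : (0 : ℝ) ≤ pn n := Nat.cast_nonneg _
  have hg := hW.h1
  have hsL : sg (Ln n) = Real.exp (-Ln n) := rfl
  have hTg := tails_Tg_mul (Ln n) g₁
  have hbe1 : 1 ≤ Real.exp (be (Ln n)) := Real.one_le_exp (be_pos _).le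
  set T := ⌊Tg (Ln n) g₁⌋₊ with hT
  set s := sg (Ln n) with hsdef
  set y := 913 / 1000 * s with hy
  have hy0 : 0 < y := by positivity
  have hT1 : Tg (Ln n) g₁ < T + 1 := Nat.lt_floor_add_one _
  have hT2 : 9 / 2 * Ln n + 898 / 100 ≤ T * s := by
    have h1 : Tg (Ln n) g₁ * s ≤ (T + 1) * s := by gcongr
    have h2 : Ln n + g₁ ≤ (Ln n + g₁) * Real.exp (be (Ln n)) := by nlinarith
    linarith
  have hE : Real.exp (-(T * y)) ≤ s ^ 4 / 2000 := by
    have e2 : -(T * y) ≤ -8 + 4 * (-Ln n) := by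
      rw [hy]
      linarith
    refine (Real.exp_le_exp.2 e2).trans ?_
    rw [Real.exp_add, hsL, ← Real.exp_nat_mul, div_eq_inv_mul]
    apply mul_le_mul _ (le_of_eq (by norm_num)) (Real.exp_pos _).le (by norm_num)
    have := tails_exp_ge 8 (f := 0) le_rfl
    rw [Real.exp_neg]
    refine inv_anti₀ (by norm_num) (le_trans ?_ (this.trans (le_of_eq (by norm_num))))
    norm_num
  have hterm : ∀ k : ℕ, (cor (T + 1 + k) n : ℝ) * qn (T + 1 + k) n ≤
      11 / 10 * (s ^ 4 / 2000) * (pn n : ℝ) ^ 2 * Real.exp (-y) ^ (k + 1) := by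
    intro k
    have e1 : Real.exp (-(((T + 1 + k : ℕ) : ℝ) * y)) =
        Real.exp (-(T * y)) * Real.exp (-y) ^ (k + 1) := by
      rw [← Real.exp_nat_mul, ← Real.exp_add]
      congr 1
      push_cast
      ring
    have e2 : Real.exp (-y) ^ (k + 1) ≤ 1 :=
      pow_le_one₀ (Real.exp_pos _).le (Real.exp_le_one_iff.2 (by linarith))
    have e3 : s ^ 4 / 2000 ≤ s / 100 := by
      have : s ^ 3 ≤ 1 := pow_le_one₀ hs0.le (by linarith)
      nlinarith
    have h1 := tails_qn_le (t := T + 1 + k) hL (by omega) (by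
      rw [← hsdef, ← hy, e1]
      calc _ ≤ s ^ 4 / 2000 * 1 := by gcongr
        _ ≤ _ := by linarith)
    rw [← hsdef, ← hy, e1] at h1
    have h2 : (cor (T + 1 + k) n : ℝ) ≤ pn n := by exact_mod_cast cor_le_pn _ n
    calc _ ≤ (pn n : ℝ) * (11 / 10 * (Real.exp (-(T * y)) * Real.exp (-y) ^ (k + 1)) * pn n) := by
          gcongr
      _ ≤ (pn n : ℝ) * (11 / 10 * (s ^ 4 / 2000 * Real.exp (-y) ^ (k + 1)) * pn n) := by
          gcongr
      _ = _ := by ring
  rw [← Ico_add_one_add_one_eq_Ioc, sum_Ico_eq_sum_range]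
  refine (sum_le_sum fun k _ => hterm k).trans ?_
  rw [← mul_sum]
  calc _ ≤ 11 / 10 * (s ^ 4 / 2000) * (pn n : ℝ) ^ 2 * (1 / y) := by
        gcongr
        exact geom_tail_le hy0 _
    _ = 11 / 10 / 2000 / (913 / 1000) * (s ^ 3 * (pn n : ℝ) ^ 2) := by
        rw [hy]
        field_simp
    _ ≤ 1 / 1000 * (s ^ 3 * (pn n : ℝ) ^ 2) := by
        apply mul_le_mul_of_nonneg_right (by norm_num) (by positivity)
    _ = _ := by ring

end Pool.Agent.Lib.MP_6cad4c_al
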