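import Pool.Agent.Lib.MP_6cad4c_al.CorEst
import Pool.Agent.Lib.MP_6cad4c_al.QnEst
import Pool.Agent.Lib.MP_6cad4c_al.Tails
import Pool.Agent.Lib.MP_6cad4c_al.Rot

namespace Pool.Agent.Lib.MP_6cad4c_al

open Complex Finset

section Cont

variable {X : Type*} [TopologicalSpace X]

theorem ap_om (L b : ℝ) {φ : X → ℝ} (hφ : Continuous φ) : Continuous fun x => om L b (φ x) := by
  unfold om; fun_prop

theorem ap_FA (L b : ℝ) {φ : X → ℝ} {z : X → ℂ} (hφ : Continuous φ) (hz : Continuous z) :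
    Continuous fun x => FA (z x) (sv L b (φ x)) := by
  unfold FA gA sv; fun_prop

theorem ap_FB (L b : ℝ) {φ : X → ℝ} {z : X → ℂ} (hφ : Continuous φ) (hz : Continuous z) :
    Continuous fun x => FB (z x) (sv L b (φ x)) := by
  have h1 : Continuous fun x => sv L b (φ x) := by unfold sv; fun_prop
  have h2 : ∀ x, sv L b (φ x) ≠ 0 := fun x => exp_ne_zero _
  unfold FB gB
  fun_prop (disch := intro x; simp [h2 x])

theorem ap_FF (L : ℝ) {φ ψ : X → ℝ} {z : X → ℂ} (hφ : Continuous φ) (hψ : Continuous ψ)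
    (hz : Continuous z) : Continuous fun x => FF L (φ x) (ψ x) (z x) :=
  ((ap_om L _ hφ).mul (ap_FA L _ hφ hz)).mul ((ap_om L _ hψ).mul (ap_FB L _ hψ hz))

end Cont

theorem ap_sum (L Φ : ℝ) (S : Finset ℕ) :
    ∑ t ∈ S, JA L Φ t * JB L Φ t =
      (∫ φ₁ in -Φ..Φ, ∫ φ₂ in -Φ..Φ, ∑ t ∈ S, FF L φ₁ φ₂ t) / (J0 L) ^ 2 := by
  have hA : ∀ t : ℕ, Continuous fun φ : ℝ => om L (-be L) φ * FA t (sv L (-be L) φ) := fun t =>
    (ap_om L _ continuous_id).mul (ap_FA L _ continuous_id continuous_const)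
  have hB : ∀ t : ℕ, Continuous fun φ : ℝ => om L (be L) φ * FB t (sv L (be L) φ) := fun t =>
    (ap_om L _ continuous_id).mul (ap_FB L _ continuous_id continuous_const)
  have h1 : ∀ φ₁ : ℝ, (∫ φ₂ in -Φ..Φ, ∑ t ∈ S, FF L φ₁ φ₂ t) =
      ∑ t ∈ S, om L (-be L) φ₁ * FA t (sv L (-be L) φ₁) *
        ∫ φ₂ in -Φ..Φ, om L (be L) φ₂ * FB t (sv L (be L) φ₂) := by
    intro φ₁
    unfold FF
    rw [intervalIntegral.integral_finsetSum fun t _ =>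
      ((hB t).intervalIntegrable _ _).const_mul _]
    simp only [intervalIntegral.integral_const_mul]
  simp only [h1]
  rw [intervalIntegral.integral_finsetSum fun t _ =>
    ((hA t).intervalIntegrable _ _).mul_const _, sum_div]
  refine sum_congr rfl fun t _ => ?_
  rw [intervalIntegral.integral_mul_const, JA, JB, div_mul_div_comm, sq]

theorem ap_rot {L g₀ g₁ Φ : ℝ} (hW : Win L g₀ g₁ Φ) :
    ‖∑ t ∈ Icc ⌈Tg L g₀⌉₊ ⌊Tg L g₁⌋₊, JA L Φ t * JB L Φ t - zc L g₀ g₁ Φ‖ ≤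
      161 / 10000 * sg L ^ 3 := by
  obtain ⟨G₁, hG₁⟩ : ∃ G : ℝ → ℝ → ℂ,
      G = fun φ₁ φ₂ => ∑ t ∈ Icc ⌈Tg L g₀⌉₊ ⌊Tg L g₁⌋₊, FF L φ₁ φ₂ t := ⟨_, rfl⟩
  obtain ⟨G₂, hG₂⟩ : ∃ G : ℝ → ℝ → ℂ, G = fun φ₁ φ₂ : ℝ => exp (-(φ₁ * I)) *
      ∫ T in Tg L g₀..Tg L g₁, FF L φ₁ φ₂ (T * exp (-(φ₁ * I))) := ⟨_, rfl⟩
  have c1 : Continuous G₁.uncurry := by
    rw [hG₁]
    exact continuous_finsetSum _ fun t _ => ap_FF L continuous_fst continuous_snd continuous_const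
  have c2 : Continuous G₂.uncurry := by
    rw [hG₂]
    refine Continuous.mul (f := fun p : ℝ × ℝ => exp (-(p.1 * I))) (by fun_prop) ?_
    refine intervalIntegral.continuous_parametric_intervalIntegral_of_continuous'
      (f := fun (p : ℝ × ℝ) (T : ℝ) => FF L p.1 p.2 (T * exp (-(p.1 * I)))) ?_ _ _
    exact ap_FF L (φ := fun q : (ℝ × ℝ) × ℝ => q.1.1) (ψ := fun q => q.1.2)
      (z := fun q => q.2 * exp (-(q.1.1 * I))) (by fun_prop) (by fun_prop) (by fun_prop)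
  have e1 : ∑ t ∈ Icc ⌈Tg L g₀⌉₊ ⌊Tg L g₁⌋₊, JA L Φ t * JB L Φ t =
      (∫ φ₁ in -Φ..Φ, ∫ φ₂ in -Φ..Φ, G₁ φ₁ φ₂) / (J0 L) ^ 2 := by rw [ap_sum, hG₁]
  have e2 : zc L g₀ g₁ Φ = (∫ φ₁ in -Φ..Φ, ∫ φ₂ in -Φ..Φ, G₂ φ₁ φ₂) / (J0 L) ^ 2 := by
    rw [zc, hG₂]
  have hJ := J0_pos L
  have hs := sg_pos L
  have hΦ : 0 ≤ Φ := by linarith [hW.hΦ]
  have h1 : ∀ φ₁, |φ₁| ≤ Φ → ‖(∫ φ₂ in -Φ..Φ, G₁ φ₁ φ₂) - ∫ φ₂ in -Φ..Φ, G₂ φ₁ φ₂‖ ≤
      1003 / 1000 * (28285 / 10000) * (sg L ^ 3 / 500) * J0 L *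
        Real.exp (-(1 / 8 * lam L * φ₁ ^ 2)) := by
    intro φ₁ h₁
    rw [← intervalIntegral.integral_sub ((c1.uncurry_left φ₁).intervalIntegrable _ _)
      ((c2.uncurry_left φ₁).intervalIntegrable _ _)]
    refine (norm_int_le (K := sg L ^ 3 / 500 * Real.exp (-(1 / 8 * lam L * φ₁ ^ 2))) (q := 1 / 8)
      (r := 28285 / 10000) hW.hL hΦ (by positivity) (by norm_num) (by norm_num) (by norm_num)
      fun φ₂ h₂ => ?_).trans (le_of_eq (by ring))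
    rw [hG₁, hG₂]
    refine (rot_est hW (h₁.trans hW.hΦ') (h₂.trans hW.hΦ')).trans (le_of_eq ?_)
    rw [mul_assoc (sg L ^ 3 / 500), ← Real.exp_add]
    congr 2
    ring
  have h2 := norm_int_le (q := 1 / 8) (r := 28285 / 10000) hW.hL hΦ (by positivity) (by norm_num)
    (by norm_num) (by norm_num) h1
  rw [intervalIntegral.integral_sub
    ((intervalIntegral.continuous_parametric_intervalIntegral_of_continuous' c1 _ _).intervalIntegrable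
      _ _)
    ((intervalIntegral.continuous_parametric_intervalIntegral_of_continuous' c2 _ _).intervalIntegrable
      _ _)] at h2
  rw [e1, e2, ← sub_div, norm_div, norm_pow, Complex.norm_real, Real.norm_of_nonneg hJ.le,
    div_le_iff₀ (by positivity)]
  refine h2.trans ?_
  nlinarith [mul_pos (pow_pos hs 3) (pow_pos hJ 2)]

theorem ap_qn (n m : ℕ) : ∑ t ∈ Icc 1 m, qn t n ≤ ple m n := by
  induction m with
  | zero => simp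
  | succ m ih =>
    rw [sum_Icc_succ_top (by omega), qn, Nat.add_sub_cancel]
    have := ple_mono (Nat.le_succ m) n
    simp only [Nat.succ_eq_add_one] at this
    omega

theorem ap_alg {s ρ W : ℝ} (hs0 : 0 < s) (hs1 : s ≤ 91 / 10000) (h1 : -(s ^ 4 / 10) ≤ ρ - 1)
    (h2 : ρ - 1 ≤ s ^ 4 / 10) (hW0 : 0 ≤ W) (hW1 : W ≤ 1) :
    W * ρ ^ 2 - W ≤ 19 / 10000 * s ^ 3 ∧ -(19 / 10000 * s ^ 3) ≤ W * ρ ^ 2 - W := by
  have hs3 := pow_pos hs0 3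
  have hs4 : s ^ 4 ≤ 91 / 10000 * s ^ 3 := by
    rw [pow_succ, mul_comm]; gcongr
  have hs5 : s ^ 3 ≤ (91 / 10000) ^ 3 := by gcongr
  have h3 : ρ ^ 2 - 1 ≤ 19 / 10000 * s ^ 3 := by nlinarith
  have h4 : -(19 / 10000 * s ^ 3) ≤ ρ ^ 2 - 1 := by nlinarith
  constructor <;> nlinarith

theorem approx {n : ℕ} {g₀ g₁ Φ : ℝ} (hW : Win (Ln n) g₀ g₁ Φ) :
    (zc (Ln n) g₀ g₁ Φ).re - 29 / 1000 * sg (Ln n) ^ 3 ≤ zI n ∧
      zI n ≤ (zc (Ln n) g₀ g₁ Φ).re + 50 / 1000 * sg (Ln n) ^ 3 := by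
  have hL := hW.hL
  have hs0 := sg_pos (Ln n)
  have hs1 := sg_le hL
  have hlow := win_low hW
  have hhigh := win_high hW
  obtain ⟨hT1, hT2⟩ := win_lt hW
  have hrot := ap_rot hW
  have htl := tail_low hW
  have hth := tail_high hW
  have hc0 : Tg (Ln n) g₀ ≤ ⌈Tg (Ln n) g₀⌉₊ := Nat.le_ceil _
  have hc1 : (⌈Tg (Ln n) g₀⌉₊ : ℝ) < Tg (Ln n) g₀ + 1 := Nat.ceil_lt_add_one (by linarith)
  have hf1 : (⌊Tg (Ln n) g₁⌋₊ : ℝ) ≤ Tg (Ln n) g₁ := Nat.floor_le (by linarith)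
  have h01 : ⌈Tg (Ln n) g₀⌉₊ ≤ ⌊Tg (Ln n) g₁⌋₊ := Nat.le_floor (by linarith)
  obtain ⟨t₀, ht₀⟩ : ∃ t, t = ⌈Tg (Ln n) g₀⌉₊ := ⟨_, rfl⟩
  obtain ⟨t₁, ht₁⟩ : ∃ t, t = ⌊Tg (Ln n) g₁⌋₊ := ⟨_, rfl⟩
  rw [← ht₀] at hrot htl hc0 hc1 h01
  rw [← ht₁] at hrot hth hf1 h01
  have h10 : 1 ≤ t₀ := by exact_mod_cast hT1.trans hc0
  have hm : ∀ t, t₀ ≤ t → 29 / 10 ≤ t * Real.exp (-Ln n + -be (Ln n)) := by
    intro t ht
    have : (t₀ : ℝ) ≤ t := by exact_mod_cast ht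
    refine hlow.trans ?_
    gcongr
    linarith
  have hm' : t₁ * Real.exp (-Ln n + be (Ln n)) * sg (Ln n) ≤ 29 / 100 := by
    refine le_trans ?_ hhigh
    gcongr
    linarith
  have h1n : t₁ ≤ n := by
    have h1 : sg (Ln n) ≤ Real.exp (-Ln n + be (Ln n)) := by
      rw [sg]; exact Real.exp_le_exp.2 (by linarith [be_pos (Ln n)])
    have h2 : t₁ * sg (Ln n) * sg (Ln n) ≤ 29 / 100 := le_trans (by gcongr) hm'
    have h3 : cc = ((n : ℝ) - 1 / 24) * sg (Ln n) * sg (Ln n) := by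
      rw [nu_eq hL, sg, mul_assoc, mul_assoc, ← Real.exp_add, ← Real.exp_add]
      ring_nf
      simp
    have h4 : (t₁ : ℝ) ≤ n := by
      refine le_of_mul_le_mul_right ?_ (mul_pos hs0 hs0)
      nlinarith [cc_gt, mul_pos hs0 hs0]
    exact_mod_cast h4
  have hN := NJ_pos (Ln n)
  have hp : (0 : ℝ) < pn n := by exact_mod_cast pn_pos n
  have hq : ∑ t ∈ Icc t₀ t₁, (qn t n : ℝ) ≤ pn n := by
    have h1 : ∑ t ∈ Icc t₀ t₁, qn t n ≤ pn n :=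
      (sum_le_sum_of_subset (Icc_subset_Icc_left h10)).trans ((ap_qn n t₁).trans (ple_le_pn _ _))
    exact_mod_cast h1
  obtain ⟨M, hM⟩ : ∃ M, M = ∑ t ∈ Icc t₀ t₁, (cor t n : ℝ) * qn t n := ⟨_, rfl⟩
  have hM0 : 0 ≤ M := by
    rw [hM]; exact sum_nonneg fun t _ => mul_nonneg (Nat.cast_nonneg _) (Nat.cast_nonneg _)
  have hM1 : M ≤ (pn n : ℝ) ^ 2 := by
    rw [hM, sq]
    refine le_trans (sum_le_sum fun t _ => ?_) ((mul_sum _ _ _).symm.le.trans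
      (mul_le_mul_of_nonneg_left hq hp.le))
    have : (cor t n : ℝ) ≤ pn n := by exact_mod_cast cor_le_pn t n
    gcongr
  have hz : zI n = (∑ t ∈ Ico 1 t₀, (cor t n : ℝ) * qn t n + M +
      ∑ t ∈ Ioc t₁ n, (cor t n : ℝ) * qn t n) / (pn n : ℝ) ^ 2 := by
    have e1 : Icc t₀ t₁ = Ico t₀ (t₁ + 1) := by ext; simp only [mem_Icc, mem_Ico]; omega
    have e2 : Ioc t₁ n = Ico (t₁ + 1) (n + 1) := by ext; simp only [mem_Ioc, mem_Ico]; omega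
    have e3 : Icc 1 n = Ico 1 (n + 1) := by ext; simp only [mem_Icc, mem_Ico]; omega
    rw [hM, e1, e2, sum_Ico_consecutive _ h10 (by omega), sum_Ico_consecutive _ (by omega) (by omega),
      ← e3, zI, ZI_eq (by omega), pn]
    push_cast
    rfl
  have hpn := abs_le.1 (pn_est hL)
  obtain ⟨ρ, hρ⟩ : ∃ ρ, ρ = (pn n : ℝ) / NJ (Ln n) := ⟨_, rfl⟩
  rw [← hρ] at hpn
  have hs3 := pow_pos hs0 3
  have hs4 : sg (Ln n) ^ 4 ≤ 91 / 10000 * sg (Ln n) ^ 3 := by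
    rw [pow_succ, mul_comm]; gcongr
  have hs5 : sg (Ln n) ^ 3 ≤ (91 / 10000) ^ 3 := by gcongr
  have hZ : ‖((M / NJ (Ln n) ^ 2 : ℝ) : ℂ) - ∑ t ∈ Icc t₀ t₁, JA (Ln n) Φ t * JB (Ln n) Φ t‖ ≤
      101 / 10000 * sg (Ln n) ^ 3 := by
    have e : ((M / NJ (Ln n) ^ 2 : ℝ) : ℂ) =
        ∑ t ∈ Icc t₀ t₁, (cor t n : ℂ) / NJ (Ln n) * ((qn t n : ℂ) / NJ (Ln n)) := by
      rw [hM, sum_div]
      push_cast
      exact sum_congr rfl fun t _ => by ring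
    rw [e, ← sum_sub_distrib]
    have h1 : ∀ t ∈ Icc t₀ t₁, ‖(cor t n : ℂ) / NJ (Ln n) * ((qn t n : ℂ) / NJ (Ln n)) -
        JA (Ln n) Φ t * JB (Ln n) Φ t‖ ≤ sg (Ln n) ^ 3 / 200 / NJ (Ln n) * qn t n +
        ‖JA (Ln n) Φ t‖ * ‖(qn t n : ℂ) / NJ (Ln n) - JB (Ln n) Φ t‖ := by
      intro t ht
      have h2 := cor_est hL hW.hΦ hW.hΦ' (hm t (mem_Icc.1 ht).1)
      rw [show (cor t n : ℂ) / NJ (Ln n) * ((qn t n : ℂ) / NJ (Ln n)) -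
        JA (Ln n) Φ t * JB (Ln n) Φ t =
        ((cor t n : ℂ) / NJ (Ln n) - JA (Ln n) Φ t) * ((qn t n : ℂ) / NJ (Ln n)) +
        JA (Ln n) Φ t * ((qn t n : ℂ) / NJ (Ln n) - JB (Ln n) Φ t) by ring]
      refine (norm_add_le _ _).trans (add_le_add ?_ (norm_mul _ _).le)
      rw [norm_mul, norm_div, Complex.norm_natCast, Complex.norm_real, Real.norm_of_nonneg hN.le]
      refine (mul_le_mul_of_nonneg_right h2 (by positivity)).trans (le_of_eq (by ring))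
    refine (norm_sum_le_of_le _ h1).trans ?_
    rw [sum_add_distrib, ← mul_sum]
    have h2 := qn_est hL hW.hΦ hW.hΦ' (hm t₀ le_rfl) hm'
    have h3 : sg (Ln n) ^ 3 / 200 / NJ (Ln n) * ∑ t ∈ Icc t₀ t₁, (qn t n : ℝ) ≤
        sg (Ln n) ^ 3 / 200 * ρ := by
      rw [hρ]
      refine (mul_le_mul_of_nonneg_left hq (by positivity)).trans (le_of_eq (by ring))
    nlinarith
  have h1 := abs_le.1 ((abs_re_le_norm _).trans ((norm_sub_le_norm_sub_add_norm_sub _ _ _).trans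
    (add_le_add hZ hrot)))
  rw [sub_re, ofReal_re] at h1
  obtain ⟨W, hWd⟩ : ∃ W, W = M / (pn n : ℝ) ^ 2 := ⟨_, rfl⟩
  have hW0 : 0 ≤ W := by rw [hWd]; positivity
  have hW1 : W ≤ 1 := by rw [hWd, div_le_one (by positivity)]; exact hM1
  have hZW : M / NJ (Ln n) ^ 2 = W * ρ ^ 2 := by rw [hWd, hρ]; field_simp
  have hnn : ∀ S : Finset ℕ, 0 ≤ (∑ t ∈ S, (cor t n : ℝ) * qn t n) / (pn n : ℝ) ^ 2 := fun S =>
    div_nonneg (sum_nonneg fun t _ => mul_nonneg (Nat.cast_nonneg _) (Nat.cast_nonneg _))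
      (sq_nonneg _)
  rw [← div_le_iff₀ (pow_pos hp 2)] at htl hth
  rw [hz, add_div, add_div, ← hWd]
  rw [hZW] at h1
  obtain ⟨h4, h5⟩ := ap_alg hs0 hs1 hpn.1 hpn.2 hW0 hW1
  constructor <;> linarith [h1.1, h1.2, hnn (Ico 1 t₀), hnn (Ioc t₁ n)]

end Pool.Agent.Lib.MP_6cad4c_al
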