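import Pool.Agent.Lib.MP_6cad4c_al.CoreC

namespace Pool.Agent.Lib.MP_6cad4c_al

namespace CoreAux

open Finset PowerSeries

theorem coeff_eq_of_dvd {n j : ℕ} {A B : ℤ⟦X⟧} (h : X ^ (n + 1) ∣ A - B) (hj : j ≤ n) :
    coeff j A = coeff j B := by
  have := X_pow_dvd_iff.mp h j (by omega)
  rwa [map_sub, sub_eq_zero] at this

theorem prod_sub_pow_dvd {t : ℕ} {a : ℤ⟦X⟧} (D : Fin t → ℤ⟦X⟧) (E : ℤ⟦X⟧)
    (h : ∀ r, a ∣ D r - E) : a ∣ ∏ r, D r - E ^ t := by
  have h1 : ∀ r, Ideal.Quotient.mk (Ideal.span {a}) (D r) = Ideal.Quotient.mk (Ideal.span {a}) E :=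
    fun r => Ideal.Quotient.eq.mpr (Ideal.mem_span_singleton.mpr (h r))
  rw [← Ideal.mem_span_singleton, ← Ideal.Quotient.eq, map_prod, map_pow]
  simp only [h1, prod_const, card_univ, Fintype.card_fin]

theorem coeff_term {t : ℕ} (ht : t ≠ 0) (n : ℕ) {K : ℕ} (hK : n + t * (n + 1) ≤ K)
    (k : Fin t → ℕ) (hk : ∑ r, k r = K) :
    coeff (n + T K) (∏ r : Fin t, (X ^ ((r : ℕ) * k r) * expand t ht (G (k r) (n + T K + 1)))) =
      coeff (n + T K) (X ^ W t k * (expand t ht (PowerSeries.mk fun n => (pn n : ℤ))) ^ t) := by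
  have hkK : ∀ r, k r ≤ K := fun r =>
    hk ▸ single_le_sum (f := k) (fun _ _ => Nat.zero_le _) (mem_univ r)
  have hprod : ∀ D : Fin t → ℤ⟦X⟧, (∀ r, G (k r) (n + T K + 1) = X ^ T (k r) * D r) →
      ∏ r : Fin t, (X ^ ((r : ℕ) * k r) * expand t ht (G (k r) (n + T K + 1))) =
        X ^ W t k * ∏ r, expand t ht (D r) := by
    intro D hD
    rw [W, ← prod_pow_eq_pow_sum, ← prod_mul_distrib]
    refine prod_congr rfl fun r _ => ?_
    rw [hD, map_mul, map_pow, expand_X, ← pow_mul, pow_add, mul_assoc]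
  by_cases hW : W t k ≤ n + T K
  · have hcard : (coreSet t k).card = K := by rw [card_coreSet, hk]
    have hn : ∀ r, n ≤ k r := by
      intro r
      have hr := r.2
      have h1 : t * n + r ∈ coreSet t k :=
        mem_of_sum_le (n := n) _ hcard (by rw [sum_coreSet]; exact hW)
          (by rw [Nat.mul_succ] at hK; omega)
      rw [coreSet, mem_glue, mem_range] at h1
      exact h1.le
    have hT : T K ≤ W t k := by
      rw [← sum_coreSet, ← hcard]
      exact T_le_sum _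
    choose D hD1 hD2 using fun r => exists_D (M := n + T K + 1) (hn r)
      (by have := T_mono (hkK r); omega)
    rw [hprod D hD1, coeff_X_pow_mul', coeff_X_pow_mul', if_pos hW, if_pos hW]
    refine coeff_eq_of_dvd (n := n) (prod_sub_pow_dvd _ _ fun r => ?_) (by omega)
    rw [← map_sub]
    refine dvd_trans ?_ (map_dvd (expand t ht) (hD2 r))
    rw [map_pow, expand_X, ← pow_mul]
    exact pow_dvd_pow _ (Nat.le_mul_of_pos_left _ (Nat.pos_of_ne_zero ht))
  · choose D hD using fun r => X_pow_dvd_G (k r) (n + T K + 1)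
    rw [hprod D hD, coeff_X_pow_mul', coeff_X_pow_mul', if_neg hW, if_neg hW]

theorem exists_H {t : ℕ} (ht : t ≠ 0) {n K : ℕ} (hK : n ≤ K) :
    ∃ H : ℤ⟦X⟧, ∑ k ∈ piAntidiag (univ : Finset (Fin t)) K, X ^ W t k = X ^ T K * H ∧
      X ^ (n + 1) ∣ H - PowerSeries.mk fun n => (cor t n : ℤ) := by
  have hdvd : (X : ℤ⟦X⟧) ^ T K ∣ ∑ k ∈ piAntidiag (univ : Finset (Fin t)) K, X ^ W t k := by
    refine dvd_sum fun k hk => pow_dvd_pow _ ?_
    rw [← sum_coreSet, ← (mem_piAntidiag.mp hk).1, ← card_coreSet]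
    exact T_le_sum _
  obtain ⟨H, hH⟩ := hdvd
  refine ⟨H, hH, X_pow_dvd_iff.mpr fun e he => ?_⟩
  have h1 := congrArg (coeff (e + T K)) hH
  rw [coeff_X_pow_mul, map_sum] at h1
  rw [map_sub, ← h1, coeff_mk, ← card_core ht (show e ≤ K by omega), card_filter, sub_eq_zero]
  push_cast
  refine sum_congr rfl fun k _ => ?_
  rw [coeff_X_pow]
  simp only [eq_comm]

end CoreAux

open CoreAux in
/-- generating function of `t`-cores (core-quotient bijection) -/
theorem core_id (t : ℕ) (ht : t ≠ 0) :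
    (PowerSeries.mk fun n => (cor t n : ℤ)) *
      (PowerSeries.expand t ht (PowerSeries.mk fun n => (pn n : ℤ))) ^ t =
      PowerSeries.mk fun n => (pn n : ℤ) := by
  ext n
  obtain ⟨K, hK⟩ : ∃ K, n + t * (n + 1) ≤ K := ⟨_, le_rfl⟩
  have hnK : n ≤ K := le_trans (Nat.le_add_right _ _) hK
  have h1 := coeff_G_add (K := K) (M := t * (n + T K + 1)) hnK
    (lt_of_lt_of_le (Nat.lt_succ_self _) (Nat.le_mul_of_pos_left _ (Nat.pos_of_ne_zero ht)))
  rw [G_split ht, map_sum, Finset.sum_congr rfl fun k hk =>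
    coeff_term ht n hK k (Finset.mem_piAntidiag.mp hk).1, ← map_sum, ← Finset.sum_mul] at h1
  obtain ⟨H, hH1, hH2⟩ := exists_H ht hnK
  rw [hH1, mul_assoc, PowerSeries.coeff_X_pow_mul] at h1
  rw [PowerSeries.coeff_mk, ← h1]
  refine (coeff_eq_of_dvd (n := n) ?_ le_rfl).symm
  rw [← sub_mul]
  exact hH2.mul_right _

end Pool.Agent.Lib.MP_6cad4c_al
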