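import Pool.Agent.Lib.MP_6cad4c_al.Comb1
import Pool.Agent.Lib.MP_6cad4c_al.Core

namespace Pool.Agent.Lib.MP_6cad4c_al

open Finset

/-- the integer power series `f` converges absolutely at `x`, with value `v` -/
def GFEv (x : ℂ) (f : PowerSeries ℤ) (v : ℂ) : Prop :=
  Summable (fun n => ‖((PowerSeries.coeff n f : ℤ) : ℂ) * x ^ n‖) ∧
    HasSum (fun n => ((PowerSeries.coeff n f : ℤ) : ℂ) * x ^ n) v

theorem GFEv.of_hasSum {x : ℂ} {f : PowerSeries ℤ} {v : ℂ}
    (h : HasSum (fun n => ((PowerSeries.coeff n f : ℤ) : ℂ) * x ^ n) v) : GFEv x f v :=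
  ⟨summable_norm_iff.2 h.summable, h⟩

theorem GFEv.unique {x : ℂ} {f : PowerSeries ℤ} {v w : ℂ} (h : GFEv x f v) (h' : GFEv x f w) :
    v = w := h.2.unique h'.2

theorem GFEv.mul {x : ℂ} {f g : PowerSeries ℤ} {v w : ℂ} (h : GFEv x f v) (h' : GFEv x g w) :
    GFEv x (f * g) (v * w) := by
  have e : (fun n => ((PowerSeries.coeff n (f * g) : ℤ) : ℂ) * x ^ n) = fun n =>
      ∑ kl ∈ antidiagonal n, (((PowerSeries.coeff kl.1 f : ℤ) : ℂ) * x ^ kl.1) *
        (((PowerSeries.coeff kl.2 g : ℤ) : ℂ) * x ^ kl.2) := by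
    funext n
    rw [PowerSeries.coeff_mul]
    push_cast
    rw [Finset.sum_mul]
    refine Finset.sum_congr rfl fun kl hkl => ?_
    rw [← Finset.HasAntidiagonal.mem_antidiagonal.1 hkl, pow_add]
    ring
  refine GFEv.of_hasSum ?_
  rw [e, ← h.2.tsum_eq, ← h'.2.tsum_eq,
    tsum_mul_tsum_eq_tsum_sum_antidiagonal_of_summable_norm h.1 h'.1]
  exact (summable_norm_sum_mul_antidiagonal_of_summable_norm h.1 h'.1).of_norm.hasSum

theorem GFEv.X_pow (x : ℂ) (k : ℕ) : GFEv x (PowerSeries.X ^ k) (x ^ k) := by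
  refine GFEv.of_hasSum ?_
  have h := hasSum_single (f := fun n =>
    ((PowerSeries.coeff n (PowerSeries.X ^ k : PowerSeries ℤ) : ℤ) : ℂ) * x ^ n) k (by
      intro n hn
      simp [PowerSeries.coeff_X_pow, hn])
  simpa [PowerSeries.coeff_X_pow] using h

theorem GFEv.one (x : ℂ) : GFEv x 1 1 := by
  simpa using GFEv.X_pow x 0

theorem GFEv.pow {x : ℂ} {f : PowerSeries ℤ} {v : ℂ} (h : GFEv x f v) (k : ℕ) :
    GFEv x (f ^ k) (v ^ k) := by
  induction k with
  | zero => simpa using GFEv.one x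
  | succ k ih => rw [pow_succ, pow_succ]; exact ih.mul h

theorem GFEv.prod {x : ℂ} {f : ℕ → PowerSeries ℤ} {v : ℕ → ℂ} (h : ∀ k, GFEv x (f k) (v k))
    (t : ℕ) : GFEv x (∏ k ∈ range t, f k) (∏ k ∈ range t, v k) := by
  induction t with
  | zero => simpa using GFEv.one x
  | succ t ih => rw [prod_range_succ, prod_range_succ]; exact ih.mul (h t)

theorem GFEv.expand {x : ℂ} {f : PowerSeries ℤ} {v : ℂ} {t : ℕ} (ht : t ≠ 0)
    (h : GFEv (x ^ t) f v) : GFEv x (PowerSeries.expand t ht f) v := by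
  refine GFEv.of_hasSum ?_
  have hinj : Function.Injective fun m : ℕ => t * m := fun a b hab =>
    Nat.eq_of_mul_eq_mul_left (Nat.pos_of_ne_zero ht) hab
  rw [← hinj.hasSum_iff]
  · have e : ((fun n => ((PowerSeries.coeff n (PowerSeries.expand t ht f) : ℤ) : ℂ) * x ^ n) ∘
        fun m : ℕ => t * m) = fun n => ((PowerSeries.coeff n f : ℤ) : ℂ) * (x ^ t) ^ n := by
      funext m
      simp only [Function.comp, PowerSeries.coeff_expand_mul, pow_mul]
    rw [e]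
    exact h.2
  · intro n hn
    have : ¬ t ∣ n := by
      rintro ⟨m, rfl⟩
      exact hn ⟨m, rfl⟩
    rw [PowerSeries.coeff_expand_of_not_dvd t ht f this]
    simp

theorem GFEv.geom {x : ℂ} (hx : ‖x‖ < 1) :
    GFEv x (PowerSeries.mk fun _ => (1 : ℤ)) (1 - x)⁻¹ := by
  refine GFEv.of_hasSum ?_
  simpa using hasSum_geometric_of_norm_lt_one hx

theorem norm_pow_succ_lt_one {x : ℂ} (hx : ‖x‖ < 1) (k : ℕ) : ‖x ^ (k + 1)‖ < 1 := by
  rw [norm_pow]
  exact pow_lt_one₀ (norm_nonneg _) hx (Nat.succ_ne_zero k)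

theorem one_sub_pow_succ_ne_zero {x : ℂ} (hx : ‖x‖ < 1) (k : ℕ) : 1 - x ^ (k + 1) ≠ 0 := by
  intro h
  have h1 : x ^ (k + 1) = 1 := (sub_eq_zero.1 h).symm
  have := norm_pow_succ_lt_one hx k
  rw [h1] at this
  simp at this

theorem geom_expand_mul (k : ℕ) :
    (1 - PowerSeries.X ^ (k + 1)) *
      PowerSeries.expand (k + 1) (Nat.succ_ne_zero k) (PowerSeries.mk fun _ => (1 : ℤ)) = 1 := by
  have h : (PowerSeries.mk fun _ => (1 : ℤ)) * (1 - PowerSeries.X) = 1 :=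
    PowerSeries.mk_one_mul_one_sub_eq_one ℤ
  have h2 := congrArg (PowerSeries.expand (k + 1) (Nat.succ_ne_zero k)) h
  rw [map_mul, map_sub, map_one, PowerSeries.expand_X] at h2
  rw [mul_comm]
  exact h2

theorem mk_ple_eq (t : ℕ) : (PowerSeries.mk fun n => (ple t n : ℤ)) =
    ∏ k ∈ range t,
      PowerSeries.expand (k + 1) (Nat.succ_ne_zero k) (PowerSeries.mk fun _ => (1 : ℤ)) := by
  have h1 := ple_mul t
  have h2 : (∏ k ∈ range t, (1 - PowerSeries.X ^ (k + 1) : PowerSeries ℤ)) *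
      ∏ k ∈ range t,
        PowerSeries.expand (k + 1) (Nat.succ_ne_zero k) (PowerSeries.mk fun _ => (1 : ℤ)) = 1 := by
    rw [← prod_mul_distrib]
    exact prod_eq_one fun k _ => geom_expand_mul k
  calc _ = (PowerSeries.mk fun n => (ple t n : ℤ)) * 1 := (mul_one _).symm
    _ = _ := by rw [← h2, ← mul_assoc, h1, one_mul]

theorem eul_ne_zero {x : ℂ} (hx : ‖x‖ < 1) : eul x ≠ 0 := by
  have h := tprod_one_add_ne_zero_of_summable (f := fun k : ℕ => -x ^ (k + 1))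
    (fun k => by simpa [sub_eq_add_neg] using one_sub_pow_succ_ne_zero hx k)
    (by simpa using (summable_nat_add_iff 1).mpr (summable_geometric_of_lt_one (norm_nonneg _) hx))
  simpa [eul, sub_eq_add_neg] using h

theorem hasSum_ple (t : ℕ) {x : ℂ} (hx : ‖x‖ < 1) :
    HasSum (fun n => (ple t n : ℂ) * x ^ n) (∏ k ∈ range t, (1 - x ^ (k + 1)))⁻¹ := by
  have h := GFEv.prod (x := x) (fun k => GFEv.expand (Nat.succ_ne_zero k)
    (GFEv.geom (norm_pow_succ_lt_one hx k))) t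
  rw [← mk_ple_eq, prod_inv_distrib] at h
  simpa using h.2

theorem tendsto_inv_prod {x : ℂ} (hx : ‖x‖ < 1) :
    Filter.Tendsto (fun t => (∏ k ∈ range t, (1 - x ^ (k + 1)))⁻¹) Filter.atTop
      (nhds (eul x)⁻¹) :=
  ((ModularForm.multipliable_one_sub_pow hx).hasProd.tendsto_prod_nat).inv₀ (eul_ne_zero hx)

theorem summable_pn {r : ℝ} (h0 : 0 ≤ r) (h1 : r < 1) : Summable fun n => (pn n : ℝ) * r ^ n := by
  have hx : ‖(r : ℂ)‖ < 1 := by rw [Complex.norm_real, Real.norm_of_nonneg h0]; exact h1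
  obtain ⟨B, hB⟩ := (tendsto_inv_prod hx).norm.bddAbove_range
  refine summable_of_sum_range_le (c := B) (fun n => by positivity) fun N => ?_
  have hs := hasSum_ple N hx
  have hs' : HasSum (fun n => (ple N n : ℝ) * r ^ n)
      ((∏ k ∈ range N, (1 - (r : ℂ) ^ (k + 1)))⁻¹).re := by
    have := Complex.hasSum_re hs
    have e : (fun n => ((ple N n : ℂ) * (r : ℂ) ^ n).re) = fun n => (ple N n : ℝ) * r ^ n := by
      funext n
      rw [← Complex.ofReal_natCast, ← Complex.ofReal_pow, ← Complex.ofReal_mul, Complex.ofReal_re]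
    rw [e] at this
    exact this
  calc ∑ n ∈ range N, (pn n : ℝ) * r ^ n = ∑ n ∈ range N, (ple N n : ℝ) * r ^ n := by
        refine sum_congr rfl fun n hn => ?_
        rw [ple_eq_pn (mem_range.1 hn).le]
    _ ≤ ((∏ k ∈ range N, (1 - (r : ℂ) ^ (k + 1)))⁻¹).re :=
        sum_le_hasSum _ (fun n _ => by positivity) hs'
    _ ≤ ‖(∏ k ∈ range N, (1 - (r : ℂ) ^ (k + 1)))⁻¹‖ := Complex.re_le_norm _
    _ ≤ B := hB ⟨N, rfl⟩

theorem summable_of_le_pn {a : ℕ → ℕ} (ha : ∀ n, a n ≤ pn n) {x : ℂ} (hx : ‖x‖ < 1) :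
    Summable fun n => (a n : ℂ) * x ^ n := by
  refine Summable.of_norm_bounded (summable_pn (norm_nonneg x) hx) fun n => ?_
  rw [norm_mul, norm_pow, Complex.norm_natCast]
  exact mul_le_mul_of_nonneg_right (by exact_mod_cast ha n) (by positivity)

theorem hasSum_pn {x : ℂ} (hx : ‖x‖ < 1) :
    HasSum (fun n => (pn n : ℂ) * x ^ n) (eul x)⁻¹ := by
  have hs := summable_of_le_pn (a := pn) (fun _ => le_rfl) hx
  have h1 : Filter.Tendsto (fun t => ∑' n, (ple t n : ℂ) * x ^ n) Filter.atTop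
      (nhds (∑' n, (pn n : ℂ) * x ^ n)) := by
    refine tendsto_tsum_of_dominated_convergence (summable_pn (norm_nonneg x) hx) (fun n => ?_)
      (Filter.Eventually.of_forall fun t n => ?_)
    · refine tendsto_const_nhds.congr' ?_
      filter_upwards [Filter.eventually_ge_atTop n] with t ht
      rw [ple_eq_pn ht]
    · rw [norm_mul, norm_pow, Complex.norm_natCast]
      exact mul_le_mul_of_nonneg_right (by exact_mod_cast ple_le_pn t n) (by positivity)
  have h2 : (fun t => ∑' n, (ple t n : ℂ) * x ^ n) =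
      fun t => (∏ k ∈ range t, (1 - x ^ (k + 1)))⁻¹ := by
    funext t
    exact (hasSum_ple t hx).tsum_eq
  rw [h2] at h1
  rw [← tendsto_nhds_unique h1 (tendsto_inv_prod hx)]
  exact hs.hasSum

theorem hasSum_qn {t : ℕ} (ht : 1 ≤ t) {x : ℂ} (hx : ‖x‖ < 1) :
    HasSum (fun n => (qn t n : ℂ) * x ^ n) (x ^ t * (∏ k ∈ range t, (1 - x ^ (k + 1)))⁻¹) := by
  obtain ⟨s, rfl⟩ : ∃ s, t = s + 1 := ⟨t - 1, by omega⟩
  have h := (hasSum_ple (s + 1) hx).sub (hasSum_ple s hx)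
  have e : (fun n => (qn (s + 1) n : ℂ) * x ^ n) =
      fun n => (ple (s + 1) n : ℂ) * x ^ n - (ple s n : ℂ) * x ^ n := by
    funext n
    rw [qn, Nat.add_sub_cancel, Nat.cast_sub (ple_mono (Nat.le_succ s) n), sub_mul]
  have hP : (∏ k ∈ range s, (1 - x ^ (k + 1))) ≠ 0 :=
    prod_ne_zero_iff.2 fun k _ => one_sub_pow_succ_ne_zero hx k
  have hq := one_sub_pow_succ_ne_zero hx s
  have e2 : x ^ (s + 1) * (∏ k ∈ range (s + 1), (1 - x ^ (k + 1)))⁻¹ =
      (∏ k ∈ range (s + 1), (1 - x ^ (k + 1)))⁻¹ - (∏ k ∈ range s, (1 - x ^ (k + 1)))⁻¹ := by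
    rw [prod_range_succ]
    field_simp
    ring
  rw [e, e2]
  exact h

theorem hasSum_cor {t : ℕ} (ht : 1 ≤ t) {x : ℂ} (hx : ‖x‖ < 1) :
    HasSum (fun n => (cor t n : ℂ) * x ^ n) (eul (x ^ t) ^ t / eul x) := by
  have ht0 : t ≠ 0 := by omega
  have hxt : ‖x ^ t‖ < 1 := by
    rw [norm_pow]
    exact pow_lt_one₀ (norm_nonneg _) hx ht0
  have hs := (summable_of_le_pn (cor_le_pn t) hx).hasSum
  have hc : GFEv x (PowerSeries.mk fun n => (cor t n : ℤ)) (∑' n, (cor t n : ℂ) * x ^ n) :=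
    GFEv.of_hasSum (by simpa using hs)
  have hp : ∀ y : ℂ, ‖y‖ < 1 → GFEv y (PowerSeries.mk fun n => (pn n : ℤ)) (eul y)⁻¹ :=
    fun y hy => GFEv.of_hasSum (by simpa using hasSum_pn hy)
  have h1 := hc.mul ((GFEv.expand ht0 (hp _ hxt)).pow t)
  rw [core_id t ht0] at h1
  have h2 := h1.unique (hp x hx)
  have h3 : eul (x ^ t) ^ t / eul x = ∑' n, (cor t n : ℂ) * x ^ n := by
    rw [div_eq_mul_inv, ← h2, mul_left_comm, ← mul_pow, mul_inv_cancel₀ (eul_ne_zero hxt),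
      one_pow, mul_one]
  rw [h3]
  exact hs

/-- splitting off the first `t` factors -/
theorem eul_eq_prod_mul (t : ℕ) {x : ℂ} (hx : ‖x‖ < 1) :
    eul x = (∏ k ∈ range t, (1 - x ^ (k + 1))) * ∏' k : ℕ, (1 - x ^ (k + t + 1)) := by
  have hm : Multipliable fun k : ℕ => (1 - x ^ (k + t + 1)) := by
    have := multipliable_one_add_of_summable (f := fun k : ℕ => -x ^ (k + t + 1)) (by
      have h := (summable_nat_add_iff (t + 1)).mpr
        (summable_geometric_of_lt_one (norm_nonneg _) hx)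
      simpa [add_assoc] using h)
    simpa [sub_eq_add_neg] using this
  exact (Multipliable.prod_mul_tprod_nat_mul' (f := fun k : ℕ => 1 - x ^ (k + 1)) hm).symm

end Pool.Agent.Lib.MP_6cad4c_al
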