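import Pool.Agent.Lib.MP_6cad4c_al.Basic

namespace Pool.Agent.Lib.MP_6cad4c_al

open Complex

theorem eta_eq_eul (z : ℂ) :
    ModularForm.eta z = exp (2 * Real.pi * I * z / 24) * eul (exp (2 * Real.pi * I * z)) := by
  unfold ModularForm.eta eul
  simp only [ModularForm.eta_q_eq_pow, Function.Periodic.qParam]
  norm_num

theorem sqrt_two_pi_eq_exp :
    ((Real.sqrt (2 * Real.pi) : ℝ) : ℂ) = exp ((Real.log (2 * Real.pi) : ℂ) / 2) := by
  have h : (0 : ℝ) < 2 * Real.pi := by positivity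
  have h1 : Real.sqrt (2 * Real.pi) = Real.exp (Real.log (2 * Real.pi) / 2) := by
    rw [Real.sqrt_eq_rpow, Real.rpow_def_of_pos h]
    ring_nf
  rw [h1, Complex.ofReal_exp]
  push_cast
  rfl

theorem re_exp_pos {l : ℂ} (hl : |l.im| < Real.pi / 2) : 0 < (exp l).re := by
  rw [Complex.exp_re]
  have := abs_lt.mp hl
  exact mul_pos (Real.exp_pos _) (Real.cos_pos_of_mem_Ioo ⟨by linarith [this.1], this.2⟩)

/-- modular transformation, `s = exp ℓ` with `|Im ℓ| < π/2` -/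
theorem eul_modular {l : ℂ} (hl : |l.im| < Real.pi / 2) :
    (eul (exp (-exp l)))⁻¹ =
      exp (l / 2 + cc / exp l - exp l / 24) / (Real.sqrt (2 * Real.pi) : ℝ) *
        (eul (exp (-(4 * Real.pi ^ 2) / exp l)))⁻¹ := by
  have hpi : (0 : ℝ) < Real.pi := Real.pi_pos
  have hpiC : (Real.pi : ℂ) ≠ 0 := by exact_mod_cast hpi.ne'
  have hs0 : exp l ≠ 0 := exp_ne_zero l
  have hre := re_exp_pos hl
  have hl' := abs_lt.mp hl
  set L : ℂ := (Real.log (2 * Real.pi) : ℂ) with hL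
  have hLe : exp L = 2 * Real.pi := by
    rw [hL, ← Complex.ofReal_exp, Real.exp_log (by positivity)]
    push_cast
    rfl
  set z : ℂ := I * exp l / (2 * Real.pi) with hz
  have hzexp : z = exp (l + Real.pi / 2 * I - L) := by
    rw [exp_sub, exp_add, exp_pi_div_two_mul_I, hLe, hz]
    ring
  have hzim : z ∈ UpperHalfPlane.upperHalfPlaneSet := by
    show 0 < z.im
    have : z = ((2 * Real.pi : ℝ) : ℂ)⁻¹ * (I * exp l) := by
      rw [hz]; push_cast; ring
    rw [this, ← Complex.ofReal_inv, Complex.im_ofReal_mul]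
    have h2 : (I * exp l).im = (exp l).re := by simp
    rw [h2]
    positivity
  have hz0 : z ≠ 0 := by rw [hzexp]; exact exp_ne_zero _
  have hsz : Complex.sqrt z = exp ((l + Real.pi / 2 * I - L) / 2) := by
    rw [sqrt_eq_exp hz0, hzexp, Complex.log_exp]
    · simp [hL]; linarith [hl'.1]
    · simp [hL]; linarith [hl'.2]
  have hsI : Complex.sqrt I = exp ((Real.pi / 2 * I) / 2) := by
    rw [sqrt_eq_exp I_ne_zero, Complex.log_I]
  have key := ModularForm.eta_comp_eq_csqrt_I_inv hzim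
  simp only [Function.comp_apply, Pi.smul_apply, Pi.mul_apply, smul_eq_mul] at key
  have hne := ModularForm.eta_ne_zero hzim
  rw [eta_eq_eul, eta_eq_eul] at key
  rw [eta_eq_eul] at hne
  have e1 : 2 * Real.pi * I * z = -exp l := by
    rw [hz]; field_simp; simp
  have e2 : 2 * Real.pi * I * (-1 / z) = -(4 * Real.pi ^ 2) / exp l := by
    rw [hz]; field_simp; ring
  rw [e1, e2, hsz, hsI] at key
  rw [e1] at hne
  have hE : eul (exp (-exp l)) ≠ 0 := right_ne_zero_of_mul hne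
  set A := eul (exp (-exp l)) with hA
  set B := eul (exp (-(4 * Real.pi ^ 2) / exp l)) with hB
  have hBA : B = exp (l / 2 + cc / exp l - exp l / 24) / (Real.sqrt (2 * Real.pi) : ℝ) * A := by
    have h3 : B = (exp (-(4 * Real.pi ^ 2) / exp l / 24))⁻¹ *
        ((exp (Real.pi / 2 * I / 2))⁻¹ * (exp ((l + Real.pi / 2 * I - L) / 2) *
          (exp (-exp l / 24) * A))) := by
      rw [← key, ← mul_assoc, inv_mul_cancel₀ (exp_ne_zero _), one_mul]
    rw [h3, sqrt_two_pi_eq_exp, ← hL, ← exp_neg, ← exp_neg, ← exp_sub, ← mul_assoc, ← mul_assoc,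
      ← mul_assoc, ← exp_add, ← exp_add, ← exp_add]
    have h4 : -(-(4 * (Real.pi : ℂ) ^ 2) / exp l / 24) + -(Real.pi / 2 * I / 2) +
        (l + Real.pi / 2 * I - L) / 2 + -exp l / 24 =
        l / 2 + cc / exp l - exp l / 24 - L / 2 := by
      unfold cc
      push_cast
      ring
    rw [h4]
  have hc : exp (l / 2 + cc / exp l - exp l / 24) / ((Real.sqrt (2 * Real.pi) : ℝ) : ℂ) ≠ 0 := by
    rw [sqrt_two_pi_eq_exp]
    exact div_ne_zero (exp_ne_zero _) (exp_ne_zero _)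
  rw [hBA, mul_inv, ← mul_assoc, mul_inv_cancel₀ hc, one_mul]

theorem geom_tail_le {y : ℝ} (hy : 0 < y) (N : ℕ) :
    ∑ k ∈ Finset.range N, Real.exp (-y) ^ (k + 1) ≤ 1 / y := by
  have h0 : 0 < Real.exp (-y) := Real.exp_pos _
  have h2 : y + 1 ≤ Real.exp y := Real.add_one_le_exp y
  have h3 : Real.exp (-y) * Real.exp y = 1 := by rw [← Real.exp_add]; simp
  have h4 : Real.exp (-y) * (y + 1) ≤ 1 := by
    calc Real.exp (-y) * (y + 1) ≤ Real.exp (-y) * Real.exp y := by gcongr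
      _ = 1 := h3
  induction N with
  | zero => simp; positivity
  | succ n ih =>
    rw [Finset.sum_range_succ']
    have h5 : ∑ k ∈ Finset.range n, Real.exp (-y) ^ (k + 1 + 1) =
        Real.exp (-y) * ∑ k ∈ Finset.range n, Real.exp (-y) ^ (k + 1) := by
      rw [Finset.mul_sum]
      exact Finset.sum_congr rfl fun k _ => by ring
    rw [h5]
    calc Real.exp (-y) * ∑ k ∈ Finset.range n, Real.exp (-y) ^ (k + 1) + Real.exp (-y) ^ (0 + 1)
        ≤ Real.exp (-y) * (1 / y) + Real.exp (-y) ^ (0 + 1) := by gcongr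
      _ = Real.exp (-y) * (y + 1) / y := by field_simp; ring
      _ ≤ 1 / y := by gcongr

theorem sum_neg_log_le {y : ℝ} (hy : 0 < y) (N : ℕ) :
    ∑ k ∈ Finset.range N, -Real.log (1 - Real.exp (-y) ^ (k + 1)) ≤ cc / y := by
  have h0 : 0 < Real.exp (-y) := Real.exp_pos _
  have h1 : Real.exp (-y) < 1 := Real.exp_lt_one_iff.mpr (by linarith)
  have hs : HasSum (fun j : ℕ => ∑ k ∈ Finset.range N,
      (Real.exp (-y) ^ (k + 1)) ^ (j + 1) / (j + 1))
      (∑ k ∈ Finset.range N, -Real.log (1 - Real.exp (-y) ^ (k + 1))) := by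
    refine hasSum_sum fun k _ => Real.hasSum_pow_div_log_of_abs_lt_one ?_
    rw [abs_of_pos (by positivity)]
    exact pow_lt_one₀ h0.le h1 (by omega)
  have hz : HasSum (fun j : ℕ => (1 : ℝ) / ((j + 1 : ℕ) : ℝ) ^ 2) cc := by
    have := (hasSum_nat_add_iff' 1).mpr hasSum_zeta_two
    simpa [cc] using this
  refine hasSum_le (fun j => ?_) hs (hz.div_const y)
  have hj : (0 : ℝ) < (j : ℝ) + 1 := by positivity
  have h6 : ∀ k : ℕ, (Real.exp (-y) ^ (k + 1)) ^ (j + 1) =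
      Real.exp (-(((j : ℝ) + 1) * y)) ^ (k + 1) := by
    intro k
    rw [← pow_mul, mul_comm, pow_mul, ← Real.exp_nat_mul]
    push_cast
    ring_nf
  simp only [h6]
  rw [← Finset.sum_div]
  calc (∑ k ∈ Finset.range N, Real.exp (-(((j : ℝ) + 1) * y)) ^ (k + 1)) / ((j : ℝ) + 1)
      ≤ (1 / (((j : ℝ) + 1) * y)) / ((j : ℝ) + 1) := by
        gcongr
        exact geom_tail_le (by positivity) N
    _ = 1 / ((j + 1 : ℕ) : ℝ) ^ 2 / y := by
        push_cast
        field_simp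

theorem exp_neg_le_norm_eul {s : ℂ} (hs : 0 < s.re) :
    Real.exp (-(cc / s.re)) ≤ ‖eul (exp (-s))‖ := by
  have hn : ‖exp (-s)‖ = Real.exp (-s.re) := by rw [Complex.norm_exp]; simp
  have h0 : 0 < Real.exp (-s.re) := Real.exp_pos _
  have h1 : Real.exp (-s.re) < 1 := Real.exp_lt_one_iff.mpr (by linarith)
  have hm := ModularForm.multipliable_one_sub_pow (q := exp (-s)) (by rw [hn]; exact h1)
  have ht := hm.hasProd.tendsto_prod_nat.norm
  refine ge_of_tendsto' ht fun N => ?_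
  rw [norm_prod]
  calc Real.exp (-(cc / s.re))
      ≤ Real.exp (∑ k ∈ Finset.range N, Real.log (1 - Real.exp (-s.re) ^ (k + 1))) := by
        have := sum_neg_log_le hs N
        rw [Finset.sum_neg_distrib] at this
        exact Real.exp_le_exp.mpr (by linarith)
    _ = ∏ k ∈ Finset.range N, (1 - Real.exp (-s.re) ^ (k + 1)) := by
        rw [Real.exp_sum]
        refine Finset.prod_congr rfl fun k _ => Real.exp_log ?_
        have := pow_lt_one₀ h0.le h1 (show k + 1 ≠ 0 by omega)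
        linarith
    _ ≤ ∏ k ∈ Finset.range N, ‖1 - exp (-s) ^ (k + 1)‖ := by
        refine Finset.prod_le_prod (fun k _ => ?_) fun k _ => ?_
        · have := pow_lt_one₀ h0.le h1 (show k + 1 ≠ 0 by omega)
          linarith
        · have := norm_sub_norm_le (1 : ℂ) (exp (-s) ^ (k + 1))
          rwa [norm_one, norm_pow, hn] at this

/-- `|P(e^{-s})| ≤ exp (c / Re s)` -/
theorem norm_inv_eul_le {s : ℂ} (hs : 0 < s.re) :
    ‖(eul (exp (-s)))⁻¹‖ ≤ Real.exp (cc / s.re) := by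
  rw [norm_inv]
  have h := exp_neg_le_norm_eul hs
  rw [Real.exp_neg] at h
  exact inv_le_of_inv_le₀ (Real.exp_pos _) h

/-- near `0` the Euler function is `exp` of a small number -/
theorem inv_eul_small {q : ℂ} (hq : ‖q‖ ≤ 1 / 10) :
    ∃ r : ℂ, ‖r‖ ≤ 2 * ‖q‖ ∧ (eul q)⁻¹ = exp r := by
  have h0 := norm_nonneg q
  have hpow : ∀ k : ℕ, ‖q‖ ^ (k + 1) ≤ 1 / 10 := by
    intro k
    calc ‖q‖ ^ (k + 1) = ‖q‖ ^ k * ‖q‖ := pow_succ _ _
      _ ≤ 1 * (1 / 10) := by
        gcongr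
        exact pow_le_one₀ h0 (by linarith)
      _ = 1 / 10 := by norm_num
  have hb : ∀ k : ℕ, ‖log (1 - q ^ (k + 1))‖ ≤ 3 / 2 * ‖q‖ * ‖q‖ ^ k := by
    intro k
    have h1 : ‖-q ^ (k + 1)‖ ≤ 1 / 2 := by
      rw [norm_neg, norm_pow]; linarith [hpow k]
    have h2 := Complex.norm_log_one_add_half_le_self h1
    rw [← sub_eq_add_neg, norm_neg, norm_pow] at h2
    calc _ ≤ _ := h2
      _ = _ := by ring
  have hg : HasSum (fun k : ℕ => 3 / 2 * ‖q‖ * ‖q‖ ^ k) (3 / 2 * ‖q‖ * (1 - ‖q‖)⁻¹) :=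
    (hasSum_geometric_of_lt_one h0 (by linarith)).mul_left _
  have hsum : Summable fun k : ℕ => log (1 - q ^ (k + 1)) :=
    Summable.of_norm_bounded hg.summable hb
  have hne : ∀ k : ℕ, 1 - q ^ (k + 1) ≠ 0 := by
    intro k h
    have h3 : q ^ (k + 1) = 1 := (sub_eq_zero.mp h).symm
    have h4 := hpow k
    rw [← norm_pow, h3, norm_one] at h4
    norm_num at h4
  refine ⟨-∑' k : ℕ, log (1 - q ^ (k + 1)), ?_, ?_⟩
  · rw [norm_neg]
    refine (tsum_of_norm_bounded hg hb).trans ?_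
    have h5 : (1 - ‖q‖)⁻¹ ≤ 4 / 3 := by
      rw [inv_le_comm₀ (by linarith) (by norm_num)]
      linarith
    calc 3 / 2 * ‖q‖ * (1 - ‖q‖)⁻¹ ≤ 3 / 2 * ‖q‖ * (4 / 3) := by gcongr
      _ = 2 * ‖q‖ := by ring
  · rw [exp_neg, Complex.cexp_tsum_eq_tprod hne hsum]
    rfl

/-- bound on a vertical line -/
theorem norm_inv_eul_le' {s : ℂ} (hs : 0 < s.re) :
    ‖(eul (exp (-s)))⁻¹‖ ≤ Real.sqrt (‖s‖ / (2 * Real.pi)) *
      Real.exp (cc * s.re / ‖s‖ ^ 2 - s.re / 24 + ‖s‖ ^ 2 / (24 * s.re)) := by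
  have hpi : (0 : ℝ) < Real.pi := Real.pi_pos
  have hs0 : s ≠ 0 := by
    rintro rfl
    simp at hs
  have hn : 0 < ‖s‖ := norm_pos_iff.mpr hs0
  have hl : |(log s).im| < Real.pi / 2 := by
    rw [Complex.log_im]
    exact Complex.abs_arg_lt_pi_div_two_iff.mpr (Or.inl hs)
  have hm := eul_modular hl
  rw [Complex.exp_log hs0] at hm
  have hinv : (s⁻¹).re = s.re / ‖s‖ ^ 2 := by
    rw [Complex.inv_re, Complex.normSq_eq_norm_sq]
  have hre : ((4 * Real.pi ^ 2 : ℂ) / s).re = 4 * Real.pi ^ 2 * (s.re / ‖s‖ ^ 2) := by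
    have : ((4 * Real.pi ^ 2 : ℂ) / s) = ((4 * Real.pi ^ 2 : ℝ) : ℂ) * s⁻¹ := by
      push_cast; ring
    rw [this, Complex.re_ofReal_mul, hinv]
  have hb := norm_inv_eul_le (s := (4 * Real.pi ^ 2 : ℂ) / s) (by rw [hre]; positivity)
  rw [hre, ← neg_div] at hb
  have hcc : cc / (4 * Real.pi ^ 2 * (s.re / ‖s‖ ^ 2)) = ‖s‖ ^ 2 / (24 * s.re) := by
    unfold cc
    field_simp
    ring
  rw [hcc] at hb
  have hre2 : (log s / 2 + cc / s - s / 24).re =
      Real.log ‖s‖ / 2 + (cc * s.re / ‖s‖ ^ 2 - s.re / 24) := by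
    have h1 : (log s / 2).re = Real.log ‖s‖ / 2 := by
      rw [Complex.div_ofNat_re, Complex.log_re]
    have h2 : ((cc : ℂ) / s).re = cc * s.re / ‖s‖ ^ 2 := by
      rw [div_eq_mul_inv, Complex.re_ofReal_mul, hinv]; ring
    have h3 : (s / 24).re = s.re / 24 := Complex.div_ofNat_re s 24
    rw [Complex.sub_re, Complex.add_re, h1, h2, h3]
    ring
  have hsq : Real.exp (Real.log ‖s‖ / 2) = Real.sqrt ‖s‖ := by
    rw [Real.sqrt_eq_rpow, Real.rpow_def_of_pos hn]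
    ring_nf
  rw [hm, norm_mul, norm_div, Complex.norm_exp, hre2, Real.exp_add, hsq, Complex.norm_real,
    Real.norm_of_nonneg (Real.sqrt_nonneg _), Real.sqrt_div hn.le, Real.exp_add]
  calc Real.sqrt ‖s‖ * Real.exp (cc * s.re / ‖s‖ ^ 2 - s.re / 24) / Real.sqrt (2 * Real.pi) *
        ‖(eul (exp (-(4 * Real.pi ^ 2) / s)))⁻¹‖
      ≤ Real.sqrt ‖s‖ * Real.exp (cc * s.re / ‖s‖ ^ 2 - s.re / 24) / Real.sqrt (2 * Real.pi) *
        Real.exp (‖s‖ ^ 2 / (24 * s.re)) := by gcongr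
    _ = _ := by ring

end Pool.Agent.Lib.MP_6cad4c_al
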