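import Pool.Agent.Lib.MP_6cad4c_al.Facts
import Pool.Agent.Lib.MP_6cad4c_al.GF
import Pool.Agent.Lib.MP_6cad4c_al.Modular

namespace Pool.Agent.Lib.MP_6cad4c_al

open Complex

namespace ArcAux

theorem arc_summable {a : ℕ → ℂ} {F : ℂ → ℂ}
    (hf : ∀ x : ℂ, ‖x‖ < 1 → HasSum (fun k => a k * x ^ k) (F x)) {r : ℝ} (h0 : 0 ≤ r)
    (h1 : r < 1) : Summable fun k => ‖a k‖ * r ^ k := by
  have hx : ‖(r : ℂ)‖ < 1 := by rw [Complex.norm_real, Real.norm_of_nonneg h0]; exact h1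
  have h := summable_norm_iff.2 (hf r hx).summable
  refine h.congr fun k => ?_
  rw [norm_mul, norm_pow, Complex.norm_real, Real.norm_of_nonneg h0]

theorem arc_contAt {a : ℕ → ℂ} {F : ℂ → ℂ}
    (hf : ∀ x : ℂ, ‖x‖ < 1 → HasSum (fun k => a k * x ^ k) (F x)) {x : ℂ} (hx : ‖x‖ < 1) :
    ContinuousAt F x := by
  obtain ⟨r, hr1, hr2⟩ := exists_between hx
  have hr0 : 0 ≤ r := (norm_nonneg x).trans hr1.le
  have hc : ContinuousOn (fun y : ℂ => ∑' k, a k * y ^ k) (Metric.ball 0 r) := by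
    refine continuousOn_tsum (u := fun k => ‖a k‖ * r ^ k) (fun k => by fun_prop)
      (arc_summable hf hr0 hr2) ?_
    intro k y hy
    rw [norm_mul, norm_pow]
    have : ‖y‖ ≤ r := (mem_ball_zero_iff.1 hy).le
    gcongr
  have hc' : ContinuousOn F (Metric.ball 0 r) := by
    refine hc.congr fun y hy => ?_
    exact ((hf y ((mem_ball_zero_iff.1 hy).trans hr2)).tsum_eq).symm
  exact hc'.continuousAt (Metric.isOpen_ball.mem_nhds (mem_ball_zero_iff.2 hr1))

theorem eul_contAt {x : ℂ} (hx : ‖x‖ < 1) : ContinuousAt eul x := by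
  have h : ContinuousAt (fun y => (eul y)⁻¹) x :=
    arc_contAt (a := fun n => (pn n : ℂ)) (fun y hy => hasSum_pn hy) hx
  have h2 := h.inv₀ (inv_ne_zero (eul_ne_zero hx))
  refine h2.congr (Filter.Eventually.of_forall fun y => ?_)
  simp

theorem H_contAt {a : ℕ → ℂ} {H : ℂ → ℂ}
    (hf : ∀ x : ℂ, ‖x‖ < 1 → HasSum (fun k => a k * x ^ k) (H x / eul x)) {x : ℂ}
    (hx : ‖x‖ < 1) : ContinuousAt H x := by
  have h := (arc_contAt hf hx).mul (eul_contAt hx)
  refine h.congr ?_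
  filter_upwards [Metric.isOpen_ball.mem_nhds (mem_ball_zero_iff.2 hx)] with y hy
  exact div_mul_cancel₀ _ (eul_ne_zero (mem_ball_zero_iff.1 hy))

theorem norm_exp_neg_lt {s : ℂ} (hs : 0 < s.re) : ‖exp (-s)‖ < 1 := by
  rw [norm_exp]
  exact Real.exp_lt_one_iff.2 (by simpa using hs)

/-- primitive of `exp ((n - k) z)` -/
noncomputable def arcP (n k : ℕ) (z : ℂ) : ℂ :=
  if k = n then z else exp (((n : ℂ) - k) * z) / ((n : ℂ) - k)

theorem arcP_deriv (n k : ℕ) (z : ℂ) :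
    HasDerivAt (arcP n k) (exp (-z) ^ k * exp (n * z)) z := by
  have e : exp (-z) ^ k * exp (n * z) = exp (((n : ℂ) - k) * z) := by
    rw [← exp_nat_mul, ← exp_add]; congr 1; ring
  rw [e]
  unfold arcP
  by_cases h : k = n
  · subst h
    simp only [if_true, sub_self, zero_mul, exp_zero]
    exact hasDerivAt_id z
  · simp only [h, if_false]
    have hne : ((n : ℂ) - k) ≠ 0 := by
      rw [sub_ne_zero]
      exact_mod_cast Ne.symm h
    have h1 := (((hasDerivAt_id z).const_mul ((n : ℂ) - k)).cexp).div_const ((n : ℂ) - k)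
    simp only [id, mul_one] at h1
    rwa [mul_div_cancel_right₀ _ hne] at h1

/-- the integrand of the circle method -/
noncomputable def arcG (n : ℕ) (F : ℂ → ℂ) (z : ℂ) : ℂ := F (exp (-z)) * exp (n * z)

theorem arcG_contAt {a : ℕ → ℂ} {F : ℂ → ℂ}
    (hf : ∀ x : ℂ, ‖x‖ < 1 → HasSum (fun k => a k * x ^ k) (F x)) (n : ℕ) {z : ℂ}
    (hz : 0 < z.re) : ContinuousAt (arcG n F) z := by
  unfold arcG
  refine ContinuousAt.mul ?_ (by fun_prop)
  exact ContinuousAt.comp (f := fun z : ℂ => exp (-z)) (arc_contAt hf (norm_exp_neg_lt hz))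
    (by fun_prop)

theorem path_hasSum {a : ℕ → ℂ} {F : ℂ → ℂ}
    (hf : ∀ x : ℂ, ‖x‖ < 1 → HasSum (fun k => a k * x ^ k) (F x)) (n : ℕ) {γ γ' : ℝ → ℂ}
    (hγ : ∀ t, HasDerivAt γ (γ' t) t) (hγ' : Continuous γ') {u v δ : ℝ} (hδ : 0 < δ)
    (hre : ∀ t ∈ Set.uIcc u v, δ ≤ (γ t).re) :
    HasSum (fun k => a k * (arcP n k (γ v) - arcP n k (γ u)))
      (∫ t in u..v, arcG n F (γ t) * γ' t) := by
  have hγc : Continuous γ := continuous_iff_continuousAt.2 fun t => (hγ t).continuousAt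
  obtain ⟨M, hM⟩ := (isCompact_uIcc (a := u) (b := v)).exists_bound_of_continuousOn
    (f := fun t => exp (n * γ t) * γ' t) (by fun_prop)
  have hr0 : 0 ≤ Real.exp (-δ) := (Real.exp_pos _).le
  have hr1 : Real.exp (-δ) < 1 := Real.exp_lt_one_iff.2 (by linarith)
  have hs := (arc_summable hf hr0 hr1).mul_right M
  have key := intervalIntegral.hasSum_integral_of_dominated_convergence (μ := MeasureTheory.volume)
    (a := u) (b := v)
    (F := fun k t => a k * (exp (-γ t) ^ k * exp (n * γ t) * γ' t))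
    (f := fun t => arcG n F (γ t) * γ' t)
    (fun k _ => ‖a k‖ * Real.exp (-δ) ^ k * M)
    (fun k => Continuous.aestronglyMeasurable (by fun_prop))
    (fun k => Filter.Eventually.of_forall fun t ht => by
      have ht' := Set.uIoc_subset_uIcc ht
      have h1 : ‖exp (-γ t)‖ ≤ Real.exp (-δ) := by
        rw [norm_exp]
        exact Real.exp_le_exp.2 (by simpa using hre t ht')
      rw [mul_assoc (exp (-γ t) ^ k), norm_mul, norm_mul, norm_pow, mul_assoc]
      have h2 := hM t ht'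
      gcongr)
    (Filter.Eventually.of_forall fun t _ => hs)
    intervalIntegrable_const
    (Filter.Eventually.of_forall fun t ht => by
      have ht' := Set.uIoc_subset_uIcc ht
      have h1 := (hf _ (norm_exp_neg_lt (hδ.trans_le (hre t ht')))).mul_right
        (exp (n * γ t) * γ' t)
      unfold arcG
      simpa only [mul_assoc] using h1)
  have e : (fun k => a k * (arcP n k (γ v) - arcP n k (γ u))) =
      fun k => ∫ t in u..v, a k * (exp (-γ t) ^ k * exp (n * γ t) * γ' t) := by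
    funext k
    rw [intervalIntegral.integral_const_mul]
    congr 1
    symm
    refine intervalIntegral.integral_eq_sub_of_hasDerivAt (f := fun t => arcP n k (γ t))
      (fun t _ => ?_) (Continuous.intervalIntegrable (by fun_prop) _ _)
    exact (arcP_deriv n k (γ t)).comp t (hγ t)
  rw [e]
  exact key

/-- the point of the vertical line -/
noncomputable def vl (R κ τ : ℝ) : ℂ := (R : ℂ) * ((κ : ℂ) + τ * I)

theorem vl_re (R κ τ : ℝ) : (vl R κ τ).re = R * κ := by simp [vl]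

theorem vl_im (R κ τ : ℝ) : (vl R κ τ).im = R * τ := by simp [vl]

theorem vl_deriv (R κ τ : ℝ) : HasDerivAt (vl R κ) (R * I) τ := by
  have h := (((hasDerivAt_id τ).ofReal_comp.mul_const I).const_add (κ : ℂ)).const_mul (R : ℂ)
  simp only [id, ofReal_one, one_mul] at h
  exact h

theorem sv_deriv (L b φ : ℝ) : HasDerivAt (sv L b) (sv L b φ * I) φ := by
  have h := (((hasDerivAt_id φ).ofReal_comp.mul_const I).const_add (-(L : ℂ) + b)).cexp
  simp only [id, ofReal_one, one_mul] at h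
  exact h

theorem sv_cont (L b : ℝ) : Continuous (sv L b) :=
  continuous_iff_continuousAt.2 fun t => (sv_deriv L b t).continuousAt

theorem sv_eq_vl (L b φ : ℝ) :
    sv L b φ = vl (Real.exp (-L + b)) (Real.cos φ) (Real.sin φ) := by
  rw [sv_eq, vl, exp_mul_I]; push_cast; rfl

/-- the contour identity -/
theorem contour {a : ℕ → ℂ} {F : ℂ → ℂ}
    (hf : ∀ x : ℂ, ‖x‖ < 1 → HasSum (fun k => a k * x ^ k) (F x)) (n : ℕ) (L b : ℝ) {Φ : ℝ}
    (hΦ : 0 ≤ Φ) (hΦ' : Φ ≤ 42 / 100) :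
    a n * (2 * Real.pi * I) =
      (∫ τ in -(Real.pi / Real.exp (-L + b))..-Real.sin Φ,
          arcG n F (vl (Real.exp (-L + b)) (Real.cos Φ) τ) * ((Real.exp (-L + b) : ℝ) * I)) +
        (∫ φ in -Φ..Φ, arcG n F (sv L b φ) * (sv L b φ * I)) +
        ∫ τ in Real.sin Φ..Real.pi / Real.exp (-L + b),
          arcG n F (vl (Real.exp (-L + b)) (Real.cos Φ) τ) * ((Real.exp (-L + b) : ℝ) * I) := by
  set R := Real.exp (-L + b) with hR
  have hR0 : 0 < R := Real.exp_pos _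
  have hκ : 913 / 1000 ≤ Real.cos Φ := cos_ge (by rw [abs_of_nonneg hΦ]; exact hΦ')
  have hδ : 0 < R * (913 / 1000) := by positivity
  have h1 := path_hasSum hf n (vl_deriv R (Real.cos Φ)) continuous_const
    (u := -(Real.pi / R)) (v := -Real.sin Φ) hδ (fun t _ => by rw [vl_re]; gcongr)
  have h3 := path_hasSum hf n (vl_deriv R (Real.cos Φ)) continuous_const
    (u := Real.sin Φ) (v := Real.pi / R) hδ (fun t _ => by rw [vl_re]; gcongr)
  have h2 := path_hasSum hf n (sv_deriv L b) ((sv_cont L b).mul continuous_const)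
    (u := -Φ) (v := Φ) hδ (fun t ht => by
      rw [re_sv]
      rw [Set.uIcc_of_le (by linarith)] at ht
      have := cos_ge (φ := t) (abs_le.2 ⟨by linarith [ht.1], by linarith [ht.2]⟩)
      gcongr)
  have h := (h1.add h2).add h3
  have hs : HasSum (fun k => a k * (arcP n k (vl R (Real.cos Φ) (Real.pi / R)) -
      arcP n k (vl R (Real.cos Φ) (-(Real.pi / R))))) (a n * (2 * Real.pi * I)) := by
    have hRC : (R : ℂ) ≠ 0 := by exact_mod_cast hR0.ne'
    have e1 : vl R (Real.cos Φ) (Real.pi / R) =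
        vl R (Real.cos Φ) (-(Real.pi / R)) + 2 * Real.pi * I := by
      unfold vl; push_cast; field_simp; ring
    have h0 := hasSum_single (f := fun k => a k * (arcP n k (vl R (Real.cos Φ) (Real.pi / R)) -
      arcP n k (vl R (Real.cos Φ) (-(Real.pi / R))))) n (by
        intro k hk
        simp only [arcP, hk, if_false]
        rw [e1, mul_add, exp_add]
        have : exp (((n : ℂ) - k) * (2 * Real.pi * I)) = 1 := by
          have := exp_int_mul_two_pi_mul_I ((n : ℤ) - k)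
          simpa using this
        rw [this, mul_one, sub_self, mul_zero])
    simp only [arcP, if_true] at h0 ⊢
    rw [e1] at h0 ⊢
    simpa using h0
  refine hs.unique ?_
  have e2 : sv L b Φ = vl R (Real.cos Φ) (Real.sin Φ) := sv_eq_vl L b Φ
  have e3 : sv L b (-Φ) = vl R (Real.cos Φ) (-Real.sin Φ) := by
    rw [sv_eq_vl, Real.cos_neg, Real.sin_neg]
  rw [e2, e3] at h
  refine h.congr_fun fun k => ?_
  ring

theorem near_num {c s x y κ σ t : ℝ} (hc : 16449 / 10000 < c) (hs0 : 0 < s)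
    (hs : s ≤ 91 / 10000) (hx0 : 0 < x) (hx : x ≤ 10148 / 10000) (hy : 985 / 1000 ≤ y)
    (hxy : x + y ≤ 20005 / 10000) (hκ : 913 / 1000 ≤ κ) (hκ' : κ ≤ 914 / 1000)
    (hσ : 4057 / 10000 ≤ σ) (hκσ : κ ^ 2 + σ ^ 2 = 1) (ht : σ ≤ t) (ht' : t ≤ 13 / 20) :
    c * κ * (y / (κ ^ 2 + t ^ 2) + x) + s ^ 2 * x * (κ ^ 2 + t ^ 2) / (24 * κ) ≤
      2 * c - 28 / 100 - (t - σ) := by
  set D := κ ^ 2 + t ^ 2 with hD
  have hD0 : 0 < D := by positivity
  have hD1 : D ≤ 126 / 100 := by nlinarith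
  have h1 : s ^ 2 * x * D / (24 * κ) ≤ 1 / 1000 := by
    rw [div_le_iff₀ (by positivity)]
    have : s ^ 2 * x * D ≤ (91 / 10000) ^ 2 * (10148 / 10000) * (126 / 100) := by gcongr
    nlinarith
  have h2 : 1 / D ≤ 1 - 7 / 10 * (t - σ) := by
    rw [div_le_iff₀ hD0]
    have e : D = 1 + (t - σ) * (t + σ) := by rw [hD]; nlinarith
    have h3 : 7 / 10 * D ≤ t + σ := by
      rw [hD]; nlinarith
    nlinarith
  have h3 : y / D ≤ y - y * (7 / 10 * (t - σ)) := by
    have : y / D = y * (1 / D) := by ring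
    rw [this]
    have hy0 : 0 ≤ y := by linarith
    nlinarith
  have h4 : c * κ * (y / D + x) ≤ c * κ * (x + y) - c * κ * y * (7 / 10 * (t - σ)) := by
    have : 0 ≤ c * κ := by positivity
    nlinarith
  have h5 : c * κ * (x + y) ≤ c * (914 / 1000 * (20005 / 10000)) := by
    rw [mul_assoc]
    have : 0 ≤ x + y := by linarith
    gcongr
  have h6 : 16449 / 10000 * (913 / 1000) * (985 / 1000) ≤ c * κ * y := by gcongr
  have h7 : 0 ≤ t - σ := by linarith
  nlinarith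

theorem far_num {c s x y κ t : ℝ} (hc : 16449 / 10000 < c) (hs0 : 0 < s)
    (hs : s ≤ 91 / 10000) (hx0 : 985 / 1000 ≤ x) (hx : x ≤ 10148 / 10000) (hy0 : 0 ≤ y)
    (hxy : x + y ≤ 20005 / 10000) (hκ : 913 / 1000 ≤ κ) (hκ' : κ ≤ 914 / 1000)
    (ht : 13 / 20 ≤ t) (ht' : s * x * t ≤ 315 / 100) :
    c * κ * (y / (κ ^ 2 + t ^ 2) + x) + s ^ 2 * x * (κ ^ 2 + t ^ 2) / (24 * κ) ≤
      2 * c - 57 / 100 := by
  set D := κ ^ 2 + t ^ 2 with hD
  have hD0 : 0 < D := by positivity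
  have hcκ : c * κ ≤ c * (914 / 1000) := by gcongr
  rcases le_total D 100 with h | h
  · have h1 : s ^ 2 * x * D / (24 * κ) ≤ 1 / 1000 := by
      rw [div_le_iff₀ (by positivity)]
      have : s ^ 2 * x * D ≤ (91 / 10000) ^ 2 * (10148 / 10000) * 100 := by gcongr
      nlinarith
    have h2 : y / D ≤ 7962 / 10000 * y := by
      rw [div_le_iff₀ hD0]
      have : 1 ≤ 7962 / 10000 * D := by rw [hD]; nlinarith
      nlinarith
    have h3 : y / D + x ≤ 18 / 10 := by linarith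
    have h4 : c * κ * (y / D + x) ≤ c * (914 / 1000) * (18 / 10) := by
      have : 0 ≤ y / D + x := by positivity
      gcongr
    linarith
  · have h1 : s ^ 2 * x * D / (24 * κ) ≤ 1 / 2 := by
      rw [div_le_iff₀ (by positivity)]
      have h2 : 0 ≤ s * x * t := by positivity
      have h3 : (s * x * t) ^ 2 ≤ (315 / 100) ^ 2 := by gcongr
      have h4 : s ^ 2 * x * κ ^ 2 ≤ (91 / 10000) ^ 2 * (10148 / 10000) * 1 := by
        have : κ ^ 2 ≤ 1 := by nlinarith
        gcongr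
      have h5 : s ^ 2 * x * t ^ 2 * (985 / 1000) ≤ (s * x * t) ^ 2 := by
        have : (s * x * t) ^ 2 = s ^ 2 * x * t ^ 2 * x := by ring
        rw [this]
        gcongr
      have : s ^ 2 * x * D = s ^ 2 * x * κ ^ 2 + s ^ 2 * x * t ^ 2 := by rw [hD]; ring
      rw [this]
      linarith
    have h2 : y / D ≤ 2 / 100 := by
      rw [div_le_iff₀ hD0]
      linarith
    have h4 : c * κ * (y / D + x) ≤ c * (914 / 1000) * (104 / 100) := by
      have : 0 ≤ y / D + x := by positivity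
      gcongr
      linarith
    linarith

theorem expb_bounds {L b : ℝ} (hL : 47 / 10 ≤ L) (hb : |b| ≤ be L) :
    985 / 1000 ≤ Real.exp b ∧ Real.exp b ≤ 10148 / 10000 ∧ 985 / 1000 ≤ Real.exp (-b) ∧
      Real.exp b + Real.exp (-b) ≤ 20005 / 10000 := by
  have h := hb.trans (be_le hL)
  have h' := abs_le.1 h
  have h1 := abs_le.1 (Real.abs_exp_sub_one_sub_id_le (x := b) (by linarith))
  have h2 := abs_le.1 (Real.abs_exp_sub_one_sub_id_le (x := -b) (by rw [abs_neg]; linarith))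
  have h3 : b ^ 2 ≤ (1456 / 100000) ^ 2 := by rw [← sq_abs]; gcongr
  have h4 := Real.add_one_le_exp b
  have h5 := Real.add_one_le_exp (-b)
  rw [neg_sq] at h2
  refine ⟨by linarith, by linarith, by linarith, by linarith⟩

theorem cos_sin_bounds {Φ : ℝ} (hΦ : 419 / 1000 ≤ Φ) (hΦ' : Φ ≤ 42 / 100) :
    913 / 1000 ≤ Real.cos Φ ∧ Real.cos Φ ≤ 914 / 1000 ∧ 4057 / 10000 ≤ Real.sin Φ ∧
      Real.sin Φ ≤ 42 / 100 := by
  have h1 : 913 / 1000 ≤ Real.cos Φ := cos_ge (by rw [abs_of_nonneg (by linarith)]; exact hΦ')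
  have h2 : Real.cos Φ ≤ Real.cos (419 / 1000) :=
    Real.cos_le_cos_of_nonneg_of_le_pi (by norm_num) (by linarith [Real.pi_gt_three]) hΦ
  have h3 := Real.cos_bound (x := 419 / 1000) (by rw [abs_of_pos] <;> norm_num)
  rw [abs_of_pos (show (0 : ℝ) < 419 / 1000 by norm_num)] at h3
  have h4 := (abs_le.1 h3).2
  have h5 : Real.cos Φ ≤ 914 / 1000 := by linarith
  have h6 : 0 ≤ Real.sin Φ :=
    Real.sin_nonneg_of_nonneg_of_le_pi (by linarith) (by linarith [Real.pi_gt_three])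
  have h7 := Real.sin_sq_add_cos_sq Φ
  refine ⟨h1, h5, ?_, (Real.sin_le (by linarith)).trans hΦ'⟩
  refine (abs_le_of_sq_le_sq' ?_ h6).2
  nlinarith

theorem NJ_ge {L : ℝ} (hL : 47 / 10 ≤ L) :
    549 / 1000 * sg L ^ 2 * Real.exp (2 * lam L) ≤ 2 * Real.pi * NJ L := by
  have hpi := Real.pi_pos
  have h2 : 0 < Real.sqrt (2 * Real.pi) := by positivity
  have hc : 0 < Real.sqrt (2 * cc) := Real.sqrt_pos.2 (by linarith [cc_pos])
  have e : 2 * Real.pi * NJ L =
      sg L ^ 2 * Real.exp (2 * lam L) * (Real.exp (-(kk L) / 2) / Real.sqrt (2 * cc)) := by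
    unfold NJ J0 eta sg
    have : Real.exp (2 * lam L - 3 * L / 2) * Real.exp (-L / 2) =
        Real.exp (-L) ^ 2 * Real.exp (2 * lam L) := by
      rw [← Real.exp_nat_mul, ← Real.exp_add, ← Real.exp_add]
      congr 1; push_cast; ring
    rw [← this]
    field_simp
  rw [e]
  have h3 : Real.sqrt (2 * cc) ≤ 18139 / 10000 :=
    Real.sqrt_le_iff.2 ⟨by norm_num, by linarith [cc_lt]⟩
  have h4 := Real.add_one_le_exp (-(kk L) / 2)
  have h5 := kk_le hL
  have h6 : 549 / 1000 ≤ Real.exp (-(kk L) / 2) / Real.sqrt (2 * cc) := by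
    rw [le_div_iff₀ hc]
    linarith
  have h7 : 0 ≤ sg L ^ 2 * Real.exp (2 * lam L) := by positivity
  nlinarith

theorem J0_ge {L : ℝ} (hL : 47 / 10 ≤ L) : sg L ≤ J0 L := by
  have h0 := sg_pos L
  have hs := sg_le hL
  refine abs_le_of_sq_le_sq' ?_ (J0_pos L).le |>.2
  rw [J0_sq, lam_eq, div_div_eq_mul_div]
  have h4 := Real.add_one_le_exp (-(kk L))
  have h5 := kk_le hL
  have h6 : sg L ≤ Real.pi * sg L / cc := by
    rw [le_div_iff₀ cc_pos]
    nlinarith [cc_lt, Real.pi_gt_three]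
  have h7 : sg L * (9 / 10) ≤ Real.pi * sg L / cc * Real.exp (-kk L) := by
    apply mul_le_mul h6 (by linarith) (by norm_num) (by linarith)
  nlinarith

/-- pointwise bound on the vertical line -/
theorem vert_point {n : ℕ} (hL : 47 / 10 ≤ Ln n) (H : ℂ → ℂ) (b : ℝ) {κ : ℝ} (hκ : 0 < κ)
    (τ : ℝ) :
    ‖arcG n (fun x => H x / eul x) (vl (Real.exp (-Ln n + b)) κ τ)‖ ≤
      ‖H (exp (-vl (Real.exp (-Ln n + b)) κ τ))‖ *
        Real.sqrt (‖vl (Real.exp (-Ln n + b)) κ τ‖ / (2 * Real.pi)) *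
        Real.exp ((cc * κ * (Real.exp (-b) / (κ ^ 2 + τ ^ 2) + Real.exp b) +
          sg (Ln n) ^ 2 * Real.exp b * (κ ^ 2 + τ ^ 2) / (24 * κ)) / sg (Ln n)) := by
  set R := Real.exp (-Ln n + b) with hR
  have hR0 : 0 < R := Real.exp_pos _
  have hre : 0 < (vl R κ τ).re := by rw [vl_re]; positivity
  have h1 := norm_inv_eul_le' hre
  have hn : ‖vl R κ τ‖ ^ 2 = R ^ 2 * (κ ^ 2 + τ ^ 2) := by
    rw [Complex.sq_norm, normSq_apply, vl_re, vl_im]; ring
  unfold arcG
  simp only []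
  rw [norm_mul, div_eq_mul_inv (H _), norm_mul, norm_exp, mul_assoc, mul_assoc]
  refine mul_le_mul_of_nonneg_left ?_ (norm_nonneg _)
  refine (mul_le_mul_of_nonneg_right h1 (Real.exp_pos _).le).trans (le_of_eq ?_)
  rw [mul_assoc, ← Real.exp_add]
  congr 2
  have hnu : (n : ℝ) = cc * Real.exp (2 * Ln n) + 1 / 24 := by linarith [nu_eq hL]
  have hs := sg_pos (Ln n)
  have e1 : Real.exp (2 * Ln n) = (sg (Ln n))⁻¹ ^ 2 := by
    rw [← exp_eq_inv_sg, ← Real.exp_nat_mul]; norm_num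
  have e2 : R = sg (Ln n) * Real.exp b := by rw [hR, Real.exp_add]; rfl
  have e3 : ((n : ℂ) * vl R κ τ).re = n * (R * κ) := by simp [vl_re]
  have hx := Real.exp_pos b
  have hD : 0 < κ ^ 2 + τ ^ 2 := by positivity
  rw [hn, e3, vl_re, hnu, e1, e2, Real.exp_neg]
  field_simp
  ring

/-- `NJ / J0` -/
noncomputable def NN (L : ℝ) : ℝ :=
  Real.exp (2 * lam L - 3 * L / 2) / (2 * Real.pi * Real.sqrt (2 * Real.pi))

theorem arc_point {n : ℕ} (hL : 47 / 10 ≤ Ln n) (H : ℂ → ℂ) (b : ℝ) {φ : ℝ}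
    (hφ : |φ| ≤ 42 / 100) :
    arcG n (fun x => H x / eul x) (sv (Ln n) b φ) * (sv (Ln n) b φ * I) =
      2 * Real.pi * I * NN (Ln n) * (om (Ln n) b φ * H (exp (-sv (Ln n) b φ)) *
        (eul (exp (-(4 * Real.pi ^ 2) / sv (Ln n) b φ)))⁻¹) := by
  set L := Ln n with hLn
  have hl : |(-(L : ℂ) + b + φ * I).im| < Real.pi / 2 := by
    have : (-(L : ℂ) + b + φ * I).im = φ := by simp
    rw [this]; linarith [Real.pi_gt_three]
  have hm := eul_modular hl
  have hnu : (n : ℂ) = cc * exp (2 * L) + 1 / 24 := by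
    have : (n : ℝ) = cc * Real.exp (2 * L) + 1 / 24 := by linarith [nu_eq hL]
    have h := congrArg (fun x : ℝ => (x : ℂ)) this
    push_cast at h
    exact h
  have hpi : (Real.pi : ℂ) ≠ 0 := by exact_mod_cast Real.pi_pos.ne'
  have hsq : ((Real.sqrt (2 * Real.pi) : ℝ) : ℂ) ≠ 0 := by
    have : 0 < Real.sqrt (2 * Real.pi) := by have := Real.pi_pos; positivity
    exact_mod_cast this.ne'
  have key : exp ((-(L : ℂ) + b + φ * I) / 2 + cc / exp (-(L : ℂ) + b + φ * I) -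
      exp (-(L : ℂ) + b + φ * I) / 24) * exp (n * exp (-(L : ℂ) + b + φ * I)) *
      exp (-(L : ℂ) + b + φ * I) = exp (2 * lam L - 3 * L / 2) * om L b φ := by
    unfold om lam
    rw [← exp_add, ← exp_add, ← exp_add]
    congr 1
    have a1 : exp (-(L : ℂ) + b + φ * I) = (exp L)⁻¹ * exp (b + φ * I) := by
      rw [← exp_neg, ← exp_add]; congr 1; ring
    have a2 : exp (2 * (L : ℂ)) = exp L ^ 2 := by rw [← exp_nat_mul]; norm_num
    have a3 := exp_ne_zero (L : ℂ)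
    have a4 := exp_ne_zero ((b : ℂ) + φ * I)
    rw [hnu, a1, a2, exp_neg]
    push_cast
    field_simp
    ring
  unfold arcG NN
  simp only [div_eq_mul_inv (H _)]
  unfold sv
  rw [hm]
  have alg : ∀ h A B S q E X o : ℂ, q ≠ 0 → A * B * S = X * o →
      h * (A / q * E) * B * (S * I) =
        2 * Real.pi * I * (X / (2 * Real.pi * q)) * (o * h * E) := by
    intro h A B S q E X o hq k
    field_simp
    linear_combination (h * E) * k
  rw [alg _ _ _ _ _ _ _ _ hsq key]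
  push_cast
  rfl

theorem eul_small_arc {L b φ : ℝ} (hL : 47 / 10 ≤ L) (hb : |b| ≤ be L) (hφ : |φ| ≤ 42 / 100) :
    ‖(eul (exp (-(4 * Real.pi ^ 2) / sv L b φ)))⁻¹ - 1‖ ≤ Real.exp (-(57 / 100) / sg L) := by
  have hs := sg_pos L
  have hs' := sg_le hL
  obtain ⟨-, -, hy, -⟩ := expb_bounds hL hb
  have hcos := cos_ge hφ
  have hq : ‖exp (-(4 * Real.pi ^ 2) / sv L b φ)‖ ≤ Real.exp (-(2 / sg L)) := by
    rw [norm_exp]
    apply Real.exp_le_exp.2
    have e : -(4 * (Real.pi : ℂ) ^ 2) / sv L b φ =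
        ((-(4 * Real.pi ^ 2) : ℝ) : ℂ) * exp (-(-L + b + φ * I)) := by
      unfold sv; rw [exp_neg]; push_cast; ring
    rw [e, re_ofReal_mul, exp_re]
    have e2 : (-(-(L : ℂ) + b + φ * I)).re = L + -b := by simp; ring
    have e3 : (-(-(L : ℂ) + b + φ * I)).im = -φ := by simp
    rw [e2, e3, Real.cos_neg, Real.exp_add, exp_eq_inv_sg, div_eq_mul_inv]
    have h1 : 0 < (sg L)⁻¹ := inv_pos.2 hs
    have h2 : 985 / 1000 * (913 / 1000) ≤ Real.exp (-b) * Real.cos φ := by gcongr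
    have h3 : (9 : ℝ) ≤ Real.pi ^ 2 := by nlinarith [Real.pi_gt_three]
    have h4 : 2 ≤ 4 * Real.pi ^ 2 * (Real.exp (-b) * Real.cos φ) := by nlinarith
    nlinarith
  have h1 : 100 ≤ 1 / sg L := by rw [le_div_iff₀ hs]; linarith
  have h2 : Real.exp (-(1 / sg L)) ≤ 1 / 100 := by
    rw [Real.exp_neg]
    apply inv_le_of_inv_le₀ (by norm_num)
    linarith [Real.add_one_le_exp (1 / sg L)]
  have h3 : Real.exp (-(1 / sg L)) ≤ Real.exp (-(57 / 100) / sg L) := by
    apply Real.exp_le_exp.2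
    have : -(57 / 100) / sg L = -(57 / 100) * (1 / sg L) := by ring
    rw [this]; linarith
  have h4 : Real.exp (-(2 / sg L)) = Real.exp (-(1 / sg L)) * Real.exp (-(1 / sg L)) := by
    rw [← Real.exp_add]; congr 1; ring
  have h5 := Real.exp_pos (-(1 / sg L))
  have h6 : Real.exp (-(2 / sg L)) ≤ 1 / 100 * Real.exp (-(1 / sg L)) := by rw [h4]; gcongr
  obtain ⟨r, hr, he⟩ := inv_eul_small (hq.trans (by linarith))
  rw [he]
  have h7 := Complex.norm_exp_sub_one_le (x := r) (by linarith)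
  linarith

theorem two_piece {g : ℝ → ℂ} (hg : Continuous g) {σ m T A B : ℝ} (h0 : 0 ≤ σ) (h1 : σ ≤ m)
    (h2 : m ≤ T) (hB : 0 ≤ B)
    (hA' : ∀ τ, σ ≤ |τ| → |τ| ≤ m → ‖g τ‖ ≤ A) (hB' : ∀ τ, m ≤ |τ| → |τ| ≤ T → ‖g τ‖ ≤ B) :
    ‖(∫ τ in -T..-σ, g τ) + ∫ τ in σ..T, g τ‖ ≤ 2 * (A * (m - σ) + B * T) := by
  have key : ∀ f : ℝ → ℂ, Continuous f → (∀ τ, σ ≤ τ → τ ≤ m → ‖f τ‖ ≤ A) →
      (∀ τ, m ≤ τ → τ ≤ T → ‖f τ‖ ≤ B) → ‖∫ τ in σ..T, f τ‖ ≤ A * (m - σ) + B * T := by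
    intro f hf ha hb
    rw [← intervalIntegral.integral_add_adjacent_intervals (hf.intervalIntegrable σ m)
      (hf.intervalIntegrable m T)]
    have a1 : ‖∫ τ in σ..m, f τ‖ ≤ A * |m - σ| :=
      intervalIntegral.norm_integral_le_of_norm_le_const fun x hx => by
        rw [Set.uIoc_of_le h1] at hx
        exact ha x hx.1.le hx.2
    have a2 : ‖∫ τ in m..T, f τ‖ ≤ B * |T - m| :=
      intervalIntegral.norm_integral_le_of_norm_le_const fun x hx => by
        rw [Set.uIoc_of_le h2] at hx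
        exact hb x hx.1.le hx.2
    rw [abs_of_nonneg (by linarith)] at a1 a2
    have a3 : B * (T - m) ≤ B * T := by gcongr; linarith
    linarith [norm_add_le (∫ τ in σ..m, f τ) (∫ τ in m..T, f τ)]
  have k1 := key g hg
    (fun τ a b => hA' τ (by rwa [abs_of_nonneg (by linarith)]) (by rwa [abs_of_nonneg (by linarith)]))
    (fun τ a b => hB' τ (by rwa [abs_of_nonneg (by linarith)]) (by rwa [abs_of_nonneg (by linarith)]))
  have k2 := key (fun τ => g (-τ)) (hg.comp continuous_neg)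
    (fun τ a b => hA' _ (by rwa [abs_neg, abs_of_nonneg (by linarith)])
      (by rwa [abs_neg, abs_of_nonneg (by linarith)]))
    (fun τ a b => hB' _ (by rwa [abs_neg, abs_of_nonneg (by linarith)])
      (by rwa [abs_neg, abs_of_nonneg (by linarith)]))
  rw [intervalIntegral.integral_comp_neg] at k2
  linarith [norm_add_le (∫ τ in -T..-σ, g τ) (∫ τ in σ..T, g τ)]

theorem vert_est {n : ℕ} (hL : 47 / 10 ≤ Ln n) {a : ℕ → ℂ} {H : ℂ → ℂ}
    (hf : ∀ x : ℂ, ‖x‖ < 1 → HasSum (fun k => a k * x ^ k) (H x / eul x))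
    {b Φ h G₀ G₂ : ℝ} (hb : |b| ≤ be (Ln n)) (hΦ : 419 / 1000 ≤ Φ) (hΦ' : Φ ≤ 42 / 100)
    (hh : 0 ≤ h)
    (hnear : ∀ τ : ℝ, Real.sin Φ ≤ |τ| → |τ| ≤ 13 / 20 →
      ‖H (exp (-((Real.exp (-Ln n + b) : ℝ) * ((Real.cos Φ : ℝ) + τ * I))))‖ ≤
        h * Real.exp ((G₀ + (|τ| - Real.sin Φ)) / sg (Ln n)))
    (hfar : ∀ s : ℂ, Real.exp (-Ln n + b) * Real.cos Φ ≤ s.re →
      ‖H (exp (-s))‖ ≤ h * Real.exp (G₂ / sg (Ln n))) :
    ‖(∫ τ in -(Real.pi / Real.exp (-Ln n + b))..-Real.sin Φ,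
        arcG n (fun x => H x / eul x) (vl (Real.exp (-Ln n + b)) (Real.cos Φ) τ) *
          ((Real.exp (-Ln n + b) : ℝ) * I)) +
      ∫ τ in Real.sin Φ..Real.pi / Real.exp (-Ln n + b),
        arcG n (fun x => H x / eul x) (vl (Real.exp (-Ln n + b)) (Real.cos Φ) τ) *
          ((Real.exp (-Ln n + b) : ℝ) * I)‖ ≤
      2 * Real.pi * NJ (Ln n) *
        (h * (Real.exp ((G₀ - 28 / 100) / sg (Ln n)) / (25 * sg (Ln n)) +
          82 / 10 / sg (Ln n) ^ 2 * Real.exp ((G₂ - 57 / 100) / sg (Ln n)))) := by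
  have hpt := fun τ => vert_point hL H b (κ := Real.cos Φ)
    (by linarith [(cos_sin_bounds hΦ hΦ').1]) τ
  set L := Ln n with hLn
  set R := Real.exp (-L + b) with hR
  set s := sg L with hsd
  have hR0 : 0 < R := Real.exp_pos _
  have hs0 : 0 < s := sg_pos L
  have hs : s ≤ 91 / 10000 := sg_le hL
  obtain ⟨hx0, hx1, hy0, hxy⟩ := expb_bounds hL hb
  obtain ⟨hκ0, hκ1, hσ0, hσ1⟩ := cos_sin_bounds hΦ hΦ'
  have hRs : R = s * Real.exp b := by rw [hR, Real.exp_add]; rfl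
  have hR1 : R ≤ 10148 / 10000 * s := by rw [hRs, mul_comm]; gcongr
  have hpi := Real.pi_gt_three
  have hpi' := Real.pi_lt_d2
  have hpi'' := Real.pi_gt_d2
  have hnR : ‖((R : ℝ) : ℂ) * I‖ = R := by simp [abs_of_pos hR0]
  have hn : ∀ τ, ‖vl R (Real.cos Φ) τ‖ ^ 2 = R ^ 2 * (Real.cos Φ ^ 2 + τ ^ 2) := by
    intro τ
    rw [Complex.sq_norm, normSq_apply, vl_re, vl_im]; ring
  have hlam : 2 * lam L = 2 * cc / s := by rw [lam_eq]; ring
  have hcont : Continuous fun τ : ℝ =>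
      arcG n (fun x => H x / eul x) (vl R (Real.cos Φ) τ) * ((R : ℝ) * I) := by
    refine Continuous.mul (continuous_iff_continuousAt.2 fun τ => ?_) continuous_const
    refine ContinuousAt.comp (f := vl R (Real.cos Φ)) (arcG_contAt hf n ?_)
      (vl_deriv _ _ _).continuousAt
    rw [vl_re]; positivity
  have hT : 13 / 20 ≤ Real.pi / R := by
    rw [le_div_iff₀ hR0]; linarith
  have main := two_piece hcont (σ := Real.sin Φ) (m := 13 / 20) (T := Real.pi / R)
    (A := h * Real.exp ((G₀ - 28 / 100) / s) * (41 / 1000) * Real.exp (2 * lam L) * R)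
    (B := h * Real.exp ((G₂ - 57 / 100) / s) * (709 / 1000) * Real.exp (2 * lam L) * R)
    (by linarith) (by linarith) hT (by positivity)
    (by
      intro τ h1 h2
      rw [norm_mul, hnR]
      refine mul_le_mul_of_nonneg_right ((hpt τ).trans ?_) hR0.le
      have a1 := hnear τ h1 h2
      have a2 : Real.sqrt (‖vl R (Real.cos Φ) τ‖ / (2 * Real.pi)) ≤ 41 / 1000 := by
        refine Real.sqrt_le_iff.2 ⟨by norm_num, ?_⟩
        rw [div_le_iff₀ (by positivity)]
        have b1 : τ ^ 2 ≤ (13 / 20) ^ 2 := by rw [← sq_abs]; gcongr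
        have b2 : Real.cos Φ ^ 2 ≤ (914 / 1000) ^ 2 := by gcongr
        have b3 : R ^ 2 ≤ (10148 / 10000 * (91 / 10000)) ^ 2 := by gcongr; linarith
        have b4 : ‖vl R (Real.cos Φ) τ‖ ≤ 104 / 10000 := by
          refine (abs_le_of_sq_le_sq' ?_ (by norm_num)).2
          rw [hn]
          calc R ^ 2 * (Real.cos Φ ^ 2 + τ ^ 2)
              ≤ (10148 / 10000 * (91 / 10000)) ^ 2 * ((914 / 1000) ^ 2 + (13 / 20) ^ 2) := by
                gcongr
            _ ≤ _ := by norm_num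
        linarith
      have a3 := near_num cc_gt hs0 hs (Real.exp_pos b) hx1 hy0 hxy hκ0 hκ1 hσ0
        (Real.cos_sq_add_sin_sq Φ) h1 h2
      rw [sq_abs] at a3
      calc _ ≤ h * Real.exp ((G₀ + (|τ| - Real.sin Φ)) / s) * (41 / 1000) *
            Real.exp ((2 * cc - 28 / 100 - (|τ| - Real.sin Φ)) / s) := by
            gcongr
            exact a1
        _ = h * (41 / 1000) * (Real.exp ((G₀ + (|τ| - Real.sin Φ)) / s) *
            Real.exp ((2 * cc - 28 / 100 - (|τ| - Real.sin Φ)) / s)) := by ring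
        _ = h * (41 / 1000) * (Real.exp ((G₀ - 28 / 100) / s) * Real.exp (2 * lam L)) := by
            rw [← Real.exp_add, ← Real.exp_add, hlam]
            congr 2; ring
        _ = _ := by ring)
    (by
      intro τ h1 h2
      rw [norm_mul, hnR]
      refine mul_le_mul_of_nonneg_right ((hpt τ).trans ?_) hR0.le
      have a1 := hfar (vl R (Real.cos Φ) τ) (by rw [vl_re])
      have b0 : R * |τ| ≤ 315 / 100 := by
        rw [le_div_iff₀ hR0] at h2
        linarith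
      have a2 : Real.sqrt (‖vl R (Real.cos Φ) τ‖ / (2 * Real.pi)) ≤ 709 / 1000 := by
        refine Real.sqrt_le_iff.2 ⟨by norm_num, ?_⟩
        rw [div_le_iff₀ (by positivity)]
        have b1 : (R * |τ|) ^ 2 ≤ (315 / 100) ^ 2 := by gcongr
        have b2 : Real.cos Φ ^ 2 ≤ 1 := by nlinarith
        have b3 : R ^ 2 ≤ (1 / 100) ^ 2 := by gcongr; linarith
        have b5 : R ^ 2 * Real.cos Φ ^ 2 ≤ (1 / 100) ^ 2 * 1 := by gcongr
        have b4 : ‖vl R (Real.cos Φ) τ‖ ≤ 3151 / 1000 := by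
          refine (abs_le_of_sq_le_sq' ?_ (by norm_num)).2
          rw [hn, mul_pow, sq_abs] at *
          linarith
        linarith
      have a3 := far_num cc_gt hs0 hs hx0 hx1 (Real.exp_pos (-b)).le hxy hκ0 hκ1 h1
        (by rw [← hRs]; exact b0)
      rw [sq_abs] at a3
      calc _ ≤ h * Real.exp (G₂ / s) * (709 / 1000) * Real.exp ((2 * cc - 57 / 100) / s) := by
            gcongr
        _ = h * (709 / 1000) * (Real.exp (G₂ / s) * Real.exp ((2 * cc - 57 / 100) / s)) := by ring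
        _ = h * (709 / 1000) * (Real.exp ((G₂ - 57 / 100) / s) * Real.exp (2 * lam L)) := by
            rw [← Real.exp_add, ← Real.exp_add, hlam]
            congr 2; ring
        _ = _ := by ring)
  refine main.trans ?_
  have hNJ := NJ_ge hL
  rw [← hsd] at hNJ
  refine le_trans ?_ (mul_le_mul_of_nonneg_right hNJ (by positivity))
  set X := Real.exp ((G₀ - 28 / 100) / s)
  set Y := Real.exp ((G₂ - 57 / 100) / s)
  set E := Real.exp (2 * lam L)
  have hX : 0 < X := Real.exp_pos _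
  have hY : 0 < Y := Real.exp_pos _
  have hE : 0 < E := Real.exp_pos _
  have e1 : 2 * (h * X * (41 / 1000) * E * R * (13 / 20 - Real.sin Φ) +
      h * Y * (709 / 1000) * E * R * (Real.pi / R)) =
      h * E * (X * (82 / 1000 * (R * (13 / 20 - Real.sin Φ))) + Y * (1418 / 1000 * Real.pi)) := by
    field_simp
    ring
  have e2 : 549 / 1000 * s ^ 2 * E * (h * (X / (25 * s) + 82 / 10 / s ^ 2 * Y)) =
      h * E * (X * (549 / 25000 * s) + Y * (549 / 1000 * (82 / 10))) := by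
    field_simp
    ring
  rw [e1, e2]
  have c1 : R * (13 / 20 - Real.sin Φ) ≤ 10148 / 10000 * s * (2443 / 10000) := by
    have : 0 ≤ 13 / 20 - Real.sin Φ := by linarith
    gcongr
    linarith
  gcongr h * E * (X * ?_ + Y * ?_)
  · linarith
  · linarith

end ArcAux

open ArcAux

theorem contOn_arc {a : ℕ → ℂ} {H : ℂ → ℂ}
    (hf : ∀ x : ℂ, ‖x‖ < 1 → HasSum (fun k => a k * x ^ k) (H x / eul x))
    (L b : ℝ) {Φ : ℝ} (hΦ' : Φ ≤ 42 / 100) :
    ContinuousOn (fun φ : ℝ => H (exp (-sv L b φ))) (Set.Icc (-Φ) Φ) := by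
  intro φ hφ
  have hc := cos_ge (φ := φ) (abs_le.2 ⟨by linarith [hφ.1], by linarith [hφ.2]⟩)
  have hre : 0 < (sv L b φ).re := by
    rw [re_sv]
    have := Real.exp_pos (-L + b)
    positivity
  have h2 : Continuous fun φ : ℝ => exp (-sv L b φ) := (sv_cont L b).neg.cexp
  exact (ContinuousAt.comp (f := fun φ : ℝ => exp (-sv L b φ))
    (H_contAt hf (norm_exp_neg_lt hre)) h2.continuousAt).continuousWithinAt

/-- circle method with one arc -/
theorem arc_est {n : ℕ} (hL : 47 / 10 ≤ Ln n) {a : ℕ → ℂ} {H : ℂ → ℂ}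
    (hf : ∀ x : ℂ, ‖x‖ < 1 → HasSum (fun k => a k * x ^ k) (H x / eul x))
    {b Φ h G₀ G₂ : ℝ} (hb : |b| ≤ be (Ln n)) (hΦ : 419 / 1000 ≤ Φ) (hΦ' : Φ ≤ 42 / 100)
    (hnear : ∀ τ : ℝ, Real.sin Φ ≤ |τ| → |τ| ≤ 13 / 20 →
      ‖H (exp (-((Real.exp (-Ln n + b) : ℝ) * ((Real.cos Φ : ℝ) + τ * I))))‖ ≤
        h * Real.exp ((G₀ + (|τ| - Real.sin Φ)) / sg (Ln n)))
    (hfar : ∀ s : ℂ, Real.exp (-Ln n + b) * Real.cos Φ ≤ s.re →
      ‖H (exp (-s))‖ ≤ h * Real.exp (G₂ / sg (Ln n))) :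
    ‖a n / NJ (Ln n) - (∫ φ in -Φ..Φ, om (Ln n) b φ * H (exp (-sv (Ln n) b φ))) / J0 (Ln n)‖ ≤
      h * (Real.exp ((G₀ - 28 / 100) / sg (Ln n)) / (25 * sg (Ln n)) +
        9 / sg (Ln n) ^ 2 * Real.exp ((G₂ - 57 / 100) / sg (Ln n))) := by
  have hh : 0 ≤ h := by
    have h1 := (norm_nonneg _).trans
      (hfar ((Real.exp (-Ln n + b) * Real.cos Φ : ℝ) : ℂ) (by rw [ofReal_re]))
    exact nonneg_of_mul_nonneg_left h1 (Real.exp_pos _)
  have hV := vert_est hL hf hb hΦ hΦ' hh hnear hfar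
  have hC := contour hf n (Ln n) b (Φ := Φ) (by linarith) hΦ'
  have hpt := fun φ (hφ : |φ| ≤ 42 / 100) => arc_point hL H b hφ
  have hco := contOn_arc hf (Ln n) b hΦ'
  set L := Ln n with hLn
  set s := sg L with hsd
  have hs0 : 0 < s := sg_pos L
  have hs : s ≤ 91 / 10000 := sg_le hL
  have hpi := Real.pi_pos
  have hNN : 0 < NN L := by unfold NN; positivity
  have hNJ : NJ L = NN L * J0 L := rfl
  have hJ := J0_pos L
  have hJ' : s ≤ J0 L := J0_ge hL
  have hΦΦ : -Φ ≤ Φ := by linarith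
  have hom : Continuous (om L b) := by unfold om; fun_prop
  have i1 : IntervalIntegrable (fun φ => arcG n (fun x => H x / eul x) (sv L b φ) * (sv L b φ * I))
      MeasureTheory.volume (-Φ) Φ := by
    refine ContinuousOn.intervalIntegrable_of_Icc hΦΦ fun φ hφ => ?_
    have hc := cos_ge (φ := φ) (abs_le.2 ⟨by linarith [hφ.1], by linarith [hφ.2]⟩)
    have hre : 0 < (sv L b φ).re := by
      rw [re_sv]
      have := Real.exp_pos (-L + b)
      positivity
    exact ((ContinuousAt.comp (f := sv L b) (arcG_contAt hf n hre) (sv_cont L b).continuousAt).mul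
      ((sv_cont L b).mul continuous_const).continuousAt).continuousWithinAt
  have i2 : IntervalIntegrable
      (fun φ => 2 * Real.pi * I * NN L * (om L b φ * H (exp (-sv L b φ))))
      MeasureTheory.volume (-Φ) Φ :=
    (ContinuousOn.intervalIntegrable_of_Icc hΦΦ (hom.continuousOn.mul hco)).const_mul _
  set Y := Real.exp ((G₂ - 57 / 100) / s) with hY
  have hE : ‖(∫ φ in -Φ..Φ, arcG n (fun x => H x / eul x) (sv L b φ) * (sv L b φ * I)) -
      2 * Real.pi * I * NN L * ∫ φ in -Φ..Φ, om L b φ * H (exp (-sv L b φ))‖ ≤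
      2 * Real.pi * NN L * (2 * (h * Y)) * |Φ - -Φ| := by
    rw [← intervalIntegral.integral_const_mul, ← intervalIntegral.integral_sub i1 i2]
    refine intervalIntegral.norm_integral_le_of_norm_le_const fun φ hφ => ?_
    rw [Set.uIoc_of_le hΦΦ] at hφ
    have hφ1 : |φ| ≤ Φ := abs_le.2 ⟨hφ.1.le, hφ.2⟩
    have hφ2 : |φ| ≤ 42 / 100 := hφ1.trans hΦ'
    rw [hpt φ hφ2, ← mul_sub, ← mul_sub_one, norm_mul, norm_mul (om _ _ _ * _),
      norm_mul (om _ _ _)]
    have a0 : ‖2 * (Real.pi : ℂ) * I * (NN L : ℝ)‖ = 2 * Real.pi * NN L := by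
      simp [abs_of_pos hpi, abs_of_pos hNN]
    have a1 : ‖om L b φ‖ ≤ 2 := by
      refine (norm_om_le hL hb hφ2).trans ?_
      have b1 := (abs_le.1 (hb.trans (be_le hL))).2
      have b2 : 0 ≤ 197 / 200 * lam L * φ ^ 2 := by have := lam_pos L; positivity
      have b3 : Real.exp (384 / 10000 + 3 / 2 * b - 197 / 200 * lam L * φ ^ 2) ≤
          Real.exp (1 / 10) := Real.exp_le_exp.2 (by linarith)
      have b4 := (abs_le.1 (Real.abs_exp_sub_one_sub_id_le (x := 1 / 10)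
        (by rw [abs_of_pos] <;> norm_num))).2
      linarith
    have a2 := hfar (sv L b φ) (by
      rw [re_sv]
      have : Real.cos Φ ≤ Real.cos φ := by
        rw [← Real.cos_abs φ]
        exact Real.cos_le_cos_of_nonneg_of_le_pi (abs_nonneg _)
          (by linarith [Real.pi_gt_three]) hφ1
      gcongr)
    have a3 := eul_small_arc hL hb hφ2
    rw [a0]
    refine mul_le_mul_of_nonneg_left ?_ (by positivity)
    calc _ ≤ 2 * (h * Real.exp (G₂ / s)) * Real.exp (-(57 / 100) / s) := by gcongr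
      _ = 2 * (h * (Real.exp (G₂ / s) * Real.exp (-(57 / 100) / s))) := by ring
      _ = _ := by
        rw [← Real.exp_add, hY]
        congr 3; ring
  rw [abs_of_nonneg (by linarith)] at hE
  generalize (∫ φ in -Φ..Φ, arcG n (fun x => H x / eul x) (sv L b φ) * (sv L b φ * I)) = A
    at hE hC
  generalize (∫ φ in -Φ..Φ, om L b φ * H (exp (-sv L b φ))) = I₀ at hE ⊢
  generalize (∫ τ in -(Real.pi / Real.exp (-L + b))..-Real.sin Φ,
        arcG n (fun x => H x / eul x) (vl (Real.exp (-L + b)) (Real.cos Φ) τ) *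
          ((Real.exp (-L + b) : ℝ) * I)) = V₁ at hV hC
  generalize (∫ τ in Real.sin Φ..Real.pi / Real.exp (-L + b),
        arcG n (fun x => H x / eul x) (vl (Real.exp (-L + b)) (Real.cos Φ) τ) *
          ((Real.exp (-L + b) : ℝ) * I)) = V₂ at hV hC
  have hpiC : (Real.pi : ℂ) ≠ 0 := by exact_mod_cast hpi.ne'
  have hNNC : ((NN L : ℝ) : ℂ) ≠ 0 := by exact_mod_cast hNN.ne'
  have hJC : ((J0 L : ℝ) : ℂ) ≠ 0 := by exact_mod_cast hJ.ne'
  have e : a n / NJ L - I₀ / J0 L =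
      ((V₁ + V₂) + (A - 2 * Real.pi * I * NN L * I₀)) / (2 * Real.pi * I * NJ L) := by
    rw [hNJ]
    push_cast
    field_simp
    linear_combination hC
  have hNJ0 := NJ_pos L
  have a0 : ‖2 * (Real.pi : ℂ) * I * (NJ L : ℝ)‖ = 2 * Real.pi * NJ L := by
    simp [abs_of_pos hpi, abs_of_pos hNJ0]
  rw [e, norm_div, a0, div_le_iff₀ (by positivity)]
  refine (norm_add_le _ _).trans ((add_le_add hV hE).trans ?_)
  have hY0 : 0 < Y := Real.exp_pos _
  have c1 : 2 * Real.pi * NN L * (2 * (h * Y)) * (Φ - -Φ) ≤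
      2 * Real.pi * NJ L * (h * (8 / 10 / s ^ 2 * Y)) := by
    have c2 : 2 * (Φ - -Φ) ≤ J0 L * (8 / 10 / s ^ 2) := by
      rw [← mul_div_assoc, le_div_iff₀ (by positivity)]
      nlinarith
    calc _ = 2 * Real.pi * NN L * (h * Y) * (2 * (Φ - -Φ)) := by ring
      _ ≤ 2 * Real.pi * NN L * (h * Y) * (J0 L * (8 / 10 / s ^ 2)) := by gcongr
      _ = _ := by rw [hNJ]; ring
  refine (add_le_add le_rfl c1).trans (le_of_eq ?_)
  ring

theorem arc_crude {n : ℕ} (hL : 47 / 10 ≤ Ln n) {a : ℕ → ℂ} {H : ℂ → ℂ}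
    (hf : ∀ x : ℂ, ‖x‖ < 1 → HasSum (fun k => a k * x ^ k) (H x / eul x)) {h : ℝ}
    (hH : ∀ s : ℂ, 913 / 1000 * sg (Ln n) ≤ s.re → ‖H (exp (-s))‖ ≤ h) :
    ‖a n‖ ≤ 21 / 20 * h * NJ (Ln n) := by
  have hs0 := sg_pos (Ln n)
  have hs := sg_le hL
  have hh : 0 ≤ h :=
    (norm_nonneg _).trans (hH ((913 / 1000 * sg (Ln n) : ℝ) : ℂ) (by rw [ofReal_re]))
  have hκ := (cos_sin_bounds (Φ := 42 / 100) (by norm_num) le_rfl).1
  have hR : Real.exp (-Ln n + 0) = sg (Ln n) := by rw [add_zero]; rfl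
  have hfar : ∀ s : ℂ, Real.exp (-Ln n + 0) * Real.cos (42 / 100) ≤ s.re → ‖H (exp (-s))‖ ≤ h := by
    intro s h1
    rw [hR] at h1
    exact hH s (by nlinarith)
  have h1 := arc_est hL hf (b := 0) (Φ := 42 / 100) (h := h) (G₀ := 0) (G₂ := 0)
    (by simpa using (be_pos _).le) (by norm_num) le_rfl
    (fun τ a _ => by
      refine (hfar (vl _ _ τ) (by rw [vl_re])).trans (le_mul_of_one_le_right hh ?_)
      exact Real.one_le_exp (div_nonneg (by linarith) hs0.le))
    (fun s a => by simpa using hfar s a)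
  have h2 := norm_int_le (L := Ln n) (Φ := 42 / 100) (K := h) (q := 197 / 200) (r := 126 / 125)
    hL (by norm_num) hh (by norm_num) (by norm_num) (by norm_num)
    (f := fun φ => om (Ln n) 0 φ * H (exp (-sv (Ln n) 0 φ))) (fun φ hφ => by
      rw [norm_mul, mul_comm h]
      have a1 : ‖om (Ln n) 0 φ‖ ≤ Real.exp (-(197 / 200 * lam (Ln n) * φ ^ 2)) := by
        rw [norm_om]
        apply Real.exp_le_exp.2
        have := one_sub_cos_ge hφ
        have := lam_pos (Ln n)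
        rw [Real.cosh_zero]
        nlinarith
      have a2 := hH (sv (Ln n) 0 φ) (by
        rw [re_sv, hR]
        have := cos_ge hφ
        nlinarith)
      gcongr)
  have hJ := J0_pos (Ln n)
  have hNJ := NJ_pos (Ln n)
  generalize (∫ φ in -(42 / 100 : ℝ)..(42 / 100), om (Ln n) 0 φ * H (exp (-sv (Ln n) 0 φ))) = I₀
    at h1 h2
  have h3 : ‖I₀ / J0 (Ln n)‖ ≤ 1003 / 1000 * (126 / 125) * h := by
    rw [norm_div, Complex.norm_real, Real.norm_of_nonneg hJ.le, div_le_iff₀ hJ]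
    exact h2
  have h4 : ‖a n‖ / NJ (Ln n) ≤ ‖a n / NJ (Ln n) - I₀ / J0 (Ln n)‖ + ‖I₀ / J0 (Ln n)‖ := by
    have := norm_add_le (a n / NJ (Ln n) - I₀ / J0 (Ln n)) (I₀ / J0 (Ln n))
    rwa [sub_add_cancel, norm_div, Complex.norm_real, Real.norm_of_nonneg hNJ.le] at this
  set s := sg (Ln n)
  set y := 1 / s with hy
  have hy0 : 109 ≤ y := by rw [hy, le_div_iff₀ hs0]; linarith
  have h5 : Real.exp ((0 - 28 / 100) / s) / (25 * s) ≤ 1 / 100 := by
    have e1 : (0 - 28 / 100) / s = -(28 / 100 * y) := by rw [hy]; ring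
    have e2 : Real.exp (-(28 / 100 * y)) / (25 * s) = y / 25 / Real.exp (28 / 100 * y) := by
      rw [Real.exp_neg, hy]; field_simp
    rw [e1, e2, div_le_iff₀ (Real.exp_pos _)]
    have := Real.pow_div_factorial_le_exp (28 / 100 * y) (by positivity) 2
    simp only [Nat.factorial] at this
    push_cast at this
    nlinarith
  have h6 : 9 / s ^ 2 * Real.exp ((0 - 57 / 100) / s) ≤ 2 / 100 := by
    have e1 : (0 - 57 / 100) / s = -(57 / 100 * y) := by rw [hy]; ring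
    have e2 : 9 / s ^ 2 * Real.exp (-(57 / 100 * y)) = 9 * y ^ 2 / Real.exp (57 / 100 * y) := by
      rw [Real.exp_neg, hy]; field_simp
    rw [e1, e2, div_le_iff₀ (Real.exp_pos _)]
    have := Real.pow_div_factorial_le_exp (57 / 100 * y) (by positivity) 5
    simp only [Nat.factorial] at this
    push_cast at this
    have a1 : (109 : ℝ) ^ 3 ≤ y ^ 3 := by gcongr
    have a2 : y ^ 2 * 109 ^ 3 ≤ y ^ 2 * y ^ 3 := by gcongr
    nlinarith
  have h7 : h * (Real.exp ((0 - 28 / 100) / s) / (25 * s) +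
      9 / s ^ 2 * Real.exp ((0 - 57 / 100) / s)) ≤ h * (1 / 100 + 2 / 100) := by gcongr
  rw [← div_le_iff₀ hNJ]
  linarith

end Pool.Agent.Lib.MP_6cad4c_al
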