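import Pool.Agent.Lib.MP_6cad4c_al.Defs

namespace Pool.Agent.Lib.MP_6cad4c_al

/-- number of partitions of `n` -/
def pn (n : ℕ) : ℕ := Fintype.card (Nat.Partition n)

/-- number of partitions of `n` with all parts at most `t` -/
def ple (t n : ℕ) : ℕ := (Nat.Partition.restricted n (· ≤ t)).card

/-- number of `t`-cores of size `n` -/
noncomputable def cor (t n : ℕ) : ℕ := Nat.card {l : Nat.Partition n // IsCore t l}

/-- number of partitions of `n` with largest part `t` (for `t ≥ 1`) -/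
def qn (t n : ℕ) : ℕ := ple t n - ple (t - 1) n

/-- Euler function -/
noncomputable def eul (x : ℂ) : ℂ := ∏' k : ℕ, (1 - x ^ (k + 1))

/-- `π² / 6` -/
noncomputable def cc : ℝ := Real.pi ^ 2 / 6

/-- truncated logarithm of the Euler function -/
noncomputable def gA (x : ℂ) : ℂ :=
  x + 3 / 2 * x ^ 2 + 4 / 3 * x ^ 3 + 7 / 4 * x ^ 4 + 6 / 5 * x ^ 5 + 2 * x ^ 6

/-- truncated logarithm of `∏_{k>t} (1 - e^{-ks})`, `y = e^{-ts}` -/
noncomputable def gB (y s : ℂ) : ℂ :=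
  y * (1 / s - 1 / 2 + s / 12) + y ^ 2 * (1 / (4 * s) - 1 / 4 + s / 12) +
    y ^ 3 * (1 / (9 * s) - 1 / 6 + s / 12) + y ^ 4 * (1 / (16 * s) - 1 / 8) + y ^ 5 / (25 * s)

end Pool.Agent.Lib.MP_6cad4c_al
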