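import Pool.Agent.Lib.MP_6cad4c_al.BrProg

/-! Digits of packed numbers. -/

namespace Pool.Agent.Lib.MP_6cad4c_al.Br

open Finset

theorem force_eq (x : ℕ) (f : ℕ → ℕ) : force x f = f x := by cases x <;> rfl

theorem sl_eq (a k : ℕ) : Nat.shiftLeft a k = a * 2 ^ k := Nat.shiftLeft_eq a k

theorem sr_eq (a k : ℕ) : Nat.shiftRight a k = a >>> k := rfl

theorem land_eq (a b : ℕ) : Nat.land a b = a &&& b := rfl

theorem msk_eq (k : ℕ) : msk k = 2 ^ k - 1 := by
  unfold msk
  rw [sl_eq, one_mul]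
  rfl

theorem land_msk (a k : ℕ) : Nat.land a (msk k) = a % 2 ^ k := by
  rw [msk_eq, land_eq, Nat.and_two_pow_sub_one_eq_mod]

theorem dig_eq (B V i : ℕ) : dig B V i = (V >>> (B * i)) % 2 ^ B := land_msk _ _

theorem dig_lt (B V i : ℕ) : dig B V i < 2 ^ B := by
  rw [dig_eq]
  exact Nat.mod_lt _ (by positivity)

theorem testBit_dig (B V i j : ℕ) :
    (dig B V i).testBit j = (decide (j < B) && V.testBit (B * i + j)) := by
  rw [dig_eq, Nat.testBit_mod_two_pow, Nat.testBit_shiftRight]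

/-- The number with the given digits. -/
def pk (B : ℕ) (g : ℕ → ℕ) (N : ℕ) : ℕ := ∑ i ∈ range N, g i * 2 ^ (B * i)

theorem pk_congr {B N : ℕ} {g h : ℕ → ℕ} (e : ∀ i < N, g i = h i) : pk B g N = pk B h N :=
  sum_congr rfl fun i hi => by rw [e i (mem_range.1 hi)]

theorem pk_succ (B : ℕ) (g : ℕ → ℕ) (N : ℕ) : pk B g (N + 1) = pk B g N + g N * 2 ^ (B * N) :=
  sum_range_succ _ _

theorem pk_add (B : ℕ) (g h : ℕ → ℕ) (N : ℕ) :
    pk B g N + pk B h N = pk B (fun i => g i + h i) N := by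
  unfold pk
  rw [← sum_add_distrib]
  exact sum_congr rfl fun i _ => by ring

theorem pk_mul (B : ℕ) (g : ℕ → ℕ) (N c : ℕ) : pk B g N * c = pk B (fun i => g i * c) N := by
  unfold pk
  rw [sum_mul]
  exact sum_congr rfl fun i _ => by ring

theorem pk_zero (B N : ℕ) : pk B (fun _ => 0) N = 0 := by simp [pk]

theorem pk_lt {B N : ℕ} {g : ℕ → ℕ} (h : ∀ i < N, g i < 2 ^ B) : pk B g N < 2 ^ (B * N) := by
  induction N with
  | zero => simp [pk]
  | succ N ih =>
    have h1 := ih fun i hi => h i (by omega)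
    have h2 : g N + 1 ≤ 2 ^ B := h N (by omega)
    have h3 := Nat.mul_le_mul_right (2 ^ (B * N)) h2
    rw [pk_succ, Nat.mul_succ, pow_add, mul_comm (2 ^ (B * N))]
    nlinarith

theorem mod_eq_pk (B V N : ℕ) : V % 2 ^ (B * N) = pk B (dig B V) N := by
  induction N with
  | zero => simp [pk, Nat.mod_one]
  | succ N ih =>
    rw [pk_succ, ← ih, Nat.mul_succ, pow_add, Nat.mod_mul, dig_eq, Nat.shiftRight_eq_div_pow,
      mul_comm (2 ^ (B * N))]

theorem eq_pk {B V N : ℕ} (h : V < 2 ^ (B * N)) : V = pk B (dig B V) N := by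
  rw [← mod_eq_pk, Nat.mod_eq_of_lt h]

theorem dig_mod (B V N i : ℕ) : dig B (V % 2 ^ (B * N)) i = if i < N then dig B V i else 0 := by
  refine Nat.eq_of_testBit_eq fun j => ?_
  rw [testBit_dig, Nat.testBit_mod_two_pow]
  split_ifs with h
  · rw [testBit_dig]
    by_cases hj : j < B
    · have : B * i + j < B * N := by
        have := Nat.mul_le_mul_left B (show i + 1 ≤ N from h)
        rw [Nat.mul_succ] at this
        omega
      simp [this]
    · simp [hj]
  · have : ¬ B * i + j < B * N := by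
      have := Nat.mul_le_mul_left B (show N ≤ i by omega)
      omega
    simp [this]

theorem dig_of_lt {B V N i : ℕ} (h : V < 2 ^ (B * N)) (hi : N ≤ i) : dig B V i = 0 := by
  rw [← Nat.mod_eq_of_lt h, dig_mod, if_neg (by omega)]

theorem dig_pk {B N : ℕ} {g : ℕ → ℕ} (h : ∀ i < N, g i < 2 ^ B) (i : ℕ) :
    dig B (pk B g N) i = if i < N then g i else 0 := by
  induction N with
  | zero => simp [pk, dig_eq]
  | succ N ih =>
    have h1 := pk_lt (N := N) fun i hi => h i (by omega)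
    rcases lt_trichotomy i N with hi | rfl | hi
    · have h2 := dig_mod B (pk B g (N + 1)) N i
      rw [if_pos hi, pk_succ, Nat.add_mul_mod_self_right, Nat.mod_eq_of_lt h1,
        ih fun i hi => h i (by omega), if_pos hi] at h2
      rw [if_pos (by omega), pk_succ, ← h2]
    · rw [if_pos (by omega), pk_succ, dig_eq, Nat.shiftRight_eq_div_pow,
        Nat.add_mul_div_right _ _ (by positivity), Nat.div_eq_of_lt h1, zero_add,
        Nat.mod_eq_of_lt (h i (by omega))]
    · rw [if_neg (by omega), dig_of_lt (pk_lt h) hi]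

theorem dig_land (B U V i : ℕ) : dig B (U &&& V) i = dig B U i &&& dig B V i := by
  refine Nat.eq_of_testBit_eq fun j => ?_
  rw [Nat.testBit_and, testBit_dig, testBit_dig, testBit_dig, Nat.testBit_and]
  cases decide (j < B) <;> simp

theorem land_pk {B N : ℕ} {h : ℕ → ℕ} (hh : ∀ i < N, h i < 2 ^ B) (V : ℕ) :
    V &&& pk B h N = pk B (fun i => dig B V i &&& h i) N := by
  rw [eq_pk (lt_of_le_of_lt Nat.and_le_right (pk_lt hh))]
  exact pk_congr fun i hi => by rw [dig_land, dig_pk hh, if_pos hi]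

theorem dig_shift (B V s i : ℕ) : dig B (V >>> (B * s)) i = dig B V (i + s) := by
  rw [dig_eq, dig_eq, ← Nat.shiftRight_add, ← Nat.mul_add, add_comm s]

theorem dig_shift_mod {B e K : ℕ} (h : e + K ≤ B) (V i : ℕ) :
    dig B (V >>> e) i % 2 ^ K = dig B V i / 2 ^ e % 2 ^ K := by
  refine Nat.eq_of_testBit_eq fun j => ?_
  rw [Nat.testBit_mod_two_pow, Nat.testBit_mod_two_pow, ← Nat.shiftRight_eq_div_pow,
    Nat.testBit_shiftRight, testBit_dig, testBit_dig, Nat.testBit_shiftRight]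
  by_cases hj : j < K
  · rw [show e + (B * i + j) = B * i + (e + j) by ring]
    simp [hj, show j < B by omega, show e + j < B by omega]
  · simp [hj]

theorem ones_eq {B : ℕ} (hB : 1 ≤ B) (N : ℕ) : ones B N = pk B (fun _ => 1) N := by
  have h1 : 2 ≤ 2 ^ B := by
    calc 2 = 2 ^ 1 := rfl
      _ ≤ 2 ^ B := Nat.pow_le_pow_right (by norm_num) hB
  have h2 : pk B (fun _ => 1) N * (2 ^ B - 1) + 1 = 2 ^ (B * N) := by
    induction N with
    | zero => simp [pk]
    | succ N ih =>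
      rw [pk_succ, Nat.mul_succ, pow_add]
      obtain ⟨c, hc⟩ : ∃ c, 2 ^ B = c + 1 := ⟨2 ^ B - 1, by omega⟩
      rw [hc, Nat.add_sub_cancel] at ih ⊢
      nlinarith
  unfold ones
  rw [msk_eq, msk_eq]
  change (2 ^ (B * N) - 1) / (2 ^ B - 1) = _
  rw [← h2, Nat.add_sub_cancel, Nat.mul_div_cancel _ (by omega)]

theorem ones_mul {B : ℕ} (hB : 1 ≤ B) (N c : ℕ) : ones B N * c = pk B (fun _ => c) N := by
  rw [ones_eq hB, pk_mul]
  simp

theorem sum_range_mul' (h : ℕ → ℕ) (S F : ℕ) :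
    ∑ j ∈ range (S * F), h j = ∑ i ∈ range S, ∑ f ∈ range F, h (i * F + f) := by
  induction S with
  | zero => simp
  | succ S ih => rw [Nat.succ_mul, sum_range_add, ih, sum_range_succ]

theorem sub_two_pow_lt {K B : ℕ} (h : K ≤ B) : 2 ^ K - 1 < 2 ^ B :=
  lt_of_lt_of_le (Nat.sub_lt (by positivity) one_pos) (Nat.pow_le_pow_right (by norm_num) h)

theorem smallChk_spec {B top r V : ℕ} (hB : 1 ≤ B) (hr : r ≤ B) (h : smallChk B top r V = true) :
    V < 2 ^ (B * (top + 1)) ∧ ∀ i, dig B V i < 2 ^ (B - r) := by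
  unfold smallChk at h
  rw [Bool.and_eq_true, Nat.beq_eq, Nat.beq_eq] at h
  obtain ⟨h1, h2⟩ := h
  have h3 : V < 2 ^ (B * (top + 1)) := by
    rw [sr_eq, Nat.shiftRight_eq_div_pow, Nat.div_eq_zero_iff] at h1
    rcases h1 with h1 | h1
    · exact absurd h1 (by positivity)
    · exact h1
  refine ⟨h3, fun i => ?_⟩
  rcases Nat.lt_or_ge i (top + 1) with hi | hi
  · have h4 : (2 ^ r - 1) * 2 ^ (B - r) < 2 ^ B := by
      calc (2 ^ r - 1) * 2 ^ (B - r) < 2 ^ r * 2 ^ (B - r) :=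
            Nat.mul_lt_mul_of_pos_right (Nat.sub_lt (by positivity) one_pos) (by positivity)
        _ = 2 ^ B := by rw [← pow_add, Nat.add_sub_cancel' hr]
    change V &&& ones B (top + 1) * Nat.shiftLeft (msk r) (B - r) = 0 at h2
    rw [sl_eq, msk_eq, ones_mul hB] at h2
    have h5 := dig_land B V (pk B (fun _ => (2 ^ r - 1) * 2 ^ (B - r)) (top + 1)) i
    rw [h2, dig_pk fun _ _ => h4, if_pos hi] at h5
    refine Nat.lt_pow_two_of_testBit _ fun j hj => ?_
    rcases Nat.lt_or_ge j B with hj' | hj'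
    · have h6 := congrArg (fun x => x.testBit j) h5
      simp only [Nat.testBit_and, Nat.testBit_mul_two_pow, Nat.testBit_two_pow_sub_one] at h6
      rw [testBit_dig] at h6
      simpa [hj, show j - (B - r) < r by omega] using h6
    · rw [testBit_dig]
      simp [show ¬ j < B by omega]
  · rw [dig_of_lt h3 hi]
    positivity

/-- Position in the window of the digit `j` of a folded window. -/
def Par.ix (p : Par) (j : ℕ) : ℕ := p.S' * (j % p.F) + j / p.F

/-- Truncated digits of a folded window. -/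
def Par.tr (p : Par) (e K : ℕ) (g : ℕ → ℕ) (j : ℕ) : ℕ :=
  g (p.ix j) / 2 ^ p.sh e (j % p.F) % 2 ^ K

theorem sh_le (p : Par) (e f : ℕ) : p.sh e f ≤ e := Nat.sub_le _ _

theorem fold_aux (p : Par) {e K : ℕ} (hB : 1 ≤ p.B) (h : e + K ≤ p.B) (V n a : ℕ) :
    fold p e K V n a = a + ∑ f ∈ range n,
      pk p.B (fun i => dig p.B V (p.S' * f + i) / 2 ^ p.sh e f % 2 ^ K) p.S' * 2 ^ (p.w * f) := by
  induction n generalizing a with
  | zero => rfl
  | succ n ih =>
    change fold p e K V n (a + Nat.shiftLeft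
      ((V >>> (p.B * (p.S' * n) + p.sh e n)) &&& (ones p.B p.S' * msk K)) (p.w * n)) = _
    have h1 := sh_le p e n
    rw [ih, sum_range_succ, sl_eq, msk_eq, ones_mul hB,
      land_pk fun _ _ => sub_two_pow_lt (by omega), add_assoc, add_comm (_ * _)]
    congr 3
    refine pk_congr fun i _ => ?_
    rw [Nat.and_two_pow_sub_one_eq_mod, Nat.shiftRight_add, dig_shift_mod (by omega), dig_shift,
      add_comm i]

theorem fold_spec (p : Par) {e K : ℕ} (hB : 1 ≤ p.B) (h : e + K ≤ p.B) (hw : p.B = p.F * p.w)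
    (V : ℕ) : fold p e K V p.F 0 = pk p.w (p.tr e K (dig p.B V)) p.S := by
  rw [fold_aux p hB h, zero_add]
  change _ = ∑ j ∈ range (p.F * p.S'), _
  rw [mul_comm p.F, sum_range_mul', sum_comm]
  refine sum_congr rfl fun f hf => ?_
  rw [pk, sum_mul]
  refine sum_congr rfl fun i _ => ?_
  have hf' := mem_range.1 hf
  have h1 : (i * p.F + f) % p.F = f := by
    rw [Nat.mul_add_mod_self_right, Nat.mod_eq_of_lt hf']
  have h2 : (i * p.F + f) / p.F = i := by
    rw [add_comm, Nat.add_mul_div_right _ _ (by omega), Nat.div_eq_of_lt hf', zero_add]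
  unfold Par.tr Par.ix
  rw [h1, h2, mul_assoc, ← pow_add, hw]
  congr 2
  ring

theorem had_aux (p : Par) {x y : ℕ → ℕ} (hw : 1 ≤ p.w) (hK : p.Ky ≤ p.w)
    (hx : ∀ i < p.S, x i < 2 ^ p.w) (hy : ∀ i < p.S, y i < 2 ^ p.Ky) (n : ℕ) (hn : n ≤ p.w)
    (a : ℕ) : had p (pk p.w x p.S) (pk p.w y p.S) n a =
      a * 2 ^ n + pk p.w (fun i => x i % 2 ^ n * y i) p.S := by
  induction n generalizing a with
  | zero =>
    simp only [pow_zero, Nat.mod_one, zero_mul, pk_zero, mul_one, add_zero]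
    rfl
  | succ n ih =>
    change had p _ _ n (2 * a +
      ((((pk p.w x p.S >>> n) &&& ones p.w p.S) * msk p.Ky) &&& pk p.w y p.S)) = _
    have hy' : ∀ i < p.S, y i < 2 ^ p.w := fun i hi =>
      (hy i hi).trans_le (Nat.pow_le_pow_right (by norm_num) hK)
    have h1 : (pk p.w x p.S >>> n) &&& ones p.w p.S = pk p.w (fun i => x i / 2 ^ n % 2) p.S := by
      rw [ones_eq hw, land_pk fun _ _ => Nat.one_lt_two_pow (by omega)]
      refine pk_congr fun i hi => ?_
      have h2 := dig_shift_mod (B := p.w) (e := n) (K := 1) hn (pk p.w x p.S) i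
      rw [pow_one, dig_pk hx, if_pos hi] at h2
      rw [Nat.and_one_is_mod, h2]
    have h3 : ∀ i < p.S, x i / 2 ^ n % 2 * (2 ^ p.Ky - 1) < 2 ^ p.w := fun i _ => by
      have h4 := sub_two_pow_lt hK
      rcases Nat.mod_two_eq_zero_or_one (x i / 2 ^ n) with h | h <;> rw [h] <;> omega
    have h5 : (pk p.w (fun i => x i / 2 ^ n % 2) p.S * msk p.Ky) &&& pk p.w y p.S =
        pk p.w (fun i => x i / 2 ^ n % 2 * y i) p.S := by
      rw [msk_eq, pk_mul, land_pk hy']
      refine pk_congr fun i hi => ?_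
      rw [dig_pk h3, if_pos hi]
      rcases Nat.mod_two_eq_zero_or_one (x i / 2 ^ n) with h | h <;> rw [h]
      · simp
      · rw [one_mul, one_mul, Nat.and_comm, Nat.and_two_pow_sub_one_eq_mod,
          Nat.mod_eq_of_lt (hy i hi)]
    rw [ih (by omega), h1, h5, add_mul, pk_mul, add_assoc, pk_add, pow_succ]
    congr 1
    · ring
    · refine pk_congr fun i _ => ?_
      rw [Nat.mod_mul]
      ring

theorem had_spec (p : Par) {x y : ℕ → ℕ} (hw : 1 ≤ p.w) (hK : p.Kx + p.Ky ≤ p.w)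
    (hx : ∀ i < p.S, x i < 2 ^ p.Kx) (hy : ∀ i < p.S, y i < 2 ^ p.Ky) :
    had p (pk p.w x p.S) (pk p.w y p.S) p.Kx 0 = pk p.w (fun i => x i * y i) p.S := by
  rw [had_aux p hw (by omega) (fun i hi => (hx i hi).trans_le
    (Nat.pow_le_pow_right (by norm_num) (by omega))) hy _ (by omega), zero_mul, zero_add]
  exact pk_congr fun i hi => by rw [Nat.mod_eq_of_lt (hx i hi)]

theorem win_spec (p : Par) (hS : 1 ≤ p.Sd) (s : ℕ) :
    p.win s = pk p.B (fun i => dig p.B p.P (i + s)) p.S := by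
  unfold Par.win Par.chunk
  rw [force_eq, land_msk, land_msk]
  change ((p.P >>> (p.B * (s / p.Sd * p.Sd)) % 2 ^ (p.B * (p.S + p.Sd))) >>> (p.B * (s % p.Sd))) %
    2 ^ (p.B * p.S) = _
  rw [mod_eq_pk]
  refine pk_congr fun i hi => ?_
  have h1 := Nat.mod_lt s hS
  rw [dig_shift, dig_mod, if_pos (by omega), dig_shift, add_assoc, Nat.mod_add_div']

theorem dg_spec (p : Par) (hS : 1 ≤ p.S') (V i : ℕ) : p.dg V i = dig p.B V i := by
  unfold Par.dg Par.part
  rw [force_eq, land_msk]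
  change dig p.B ((V >>> (p.B * (p.S' * (i / p.S')))) % 2 ^ (p.B * p.S')) (i % p.S') = _
  rw [dig_mod, if_pos (Nat.mod_lt i hS), dig_shift, Nat.mod_add_div]

end Pool.Agent.Lib.MP_6cad4c_al.Br
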