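import Pool.Agent.Lib.MP_6cad4c_al.BrTile

/-! Correctness of the final test of a window. -/

namespace Pool.Agent.Lib.MP_6cad4c_al.Br

open Finset PowerSeries

theorem qn_sum {a b : ℕ} (h : a ≤ b) (n : ℕ) : ∑ t ∈ Ioc a b, qn t n + ple a n = ple b n := by
  induction b, h using Nat.le_induction with
  | base => simp
  | succ b h ih =>
    have h1 := ple_mono (Nat.le_add_right b 1) n
    rw [sum_Ioc_succ_top h, qn, Nat.add_sub_cancel]
    omega

theorem qn_sum_le (a b n : ℕ) (h : a ≤ b) : ∑ t ∈ Ioc a b, qn t n ≤ pn n := by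
  have h1 := qn_sum h n
  have h2 := ple_le_pn b n
  omega

theorem ZI_split {n a b M : ℕ} (hn : 1 ≤ n) (h1 : a ≤ b) (h2 : b ≤ M) (h3 : n ≤ M) :
    ZI n = ∑ t ∈ Ioc 0 a, cor t n * qn t n + ∑ t ∈ Ioc a b, cor t n * qn t n +
      ∑ t ∈ Ioc b M, cor t n * qn t n := by
  rw [sum_Ioc_consecutive _ (Nat.zero_le a) h1, sum_Ioc_consecutive _ (Nat.zero_le b) h2,
    ← sum_Ioc_consecutive _ (Nat.zero_le n) h3, ZI_eq hn,
    sum_eq_zero (s := Ioc n M) fun t ht => by rw [qn_eq_zero (mem_Ioc.1 ht).1, mul_zero]]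
  rfl

theorem trunc_lower (c q e e' : ℕ) : c / 2 ^ e * (q / 2 ^ e') * 2 ^ (e + e') ≤ c * q := by
  rw [pow_add, mul_mul_mul_comm]
  exact Nat.mul_le_mul (Nat.div_mul_le_self _ _) (Nat.div_mul_le_self _ _)

theorem trunc_upper {c P : ℕ} (h : c ≤ P) (q e e' : ℕ) :
    c * q ≤ c / 2 ^ e * (q / 2 ^ e') * 2 ^ (e + e') + P * 2 ^ e' + 2 ^ e * q := by
  have h1 := Nat.div_add_mod c (2 ^ e)
  have h2 := Nat.div_add_mod q (2 ^ e')
  have h3 := (Nat.mod_lt c (show 0 < 2 ^ e by positivity)).le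
  have h4 := (Nat.mod_lt q (show 0 < 2 ^ e' by positivity)).le
  rw [pow_add]
  generalize c / 2 ^ e = x at *
  generalize q / 2 ^ e' = y at *
  generalize c % 2 ^ e = r at *
  generalize q % 2 ^ e' = s at *
  generalize 2 ^ e = u at *
  generalize 2 ^ e' = v at *
  have h5 : u * x * s ≤ P * v := Nat.mul_le_mul (by omega) h4
  have h6 : r * q ≤ u * q := Nat.mul_le_mul_right _ h3
  calc c * q = u * x * q + r * q := by rw [← h1]; ring
    _ = x * y * (u * v) + u * x * s + r * q := by rw [← h2]; ring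
    _ ≤ _ := by omega

theorem cn_eq {top i : ℕ} (h : i ≤ top) (f : ℕ → ℕ) : cn top f i = f (top - i) := if_pos h

theorem ix_div {p : Par} {j : ℕ} (hj : j < p.S) : p.ix j / p.S' = j % p.F := by
  change j < p.F * p.S' at hj
  have h2 : j / p.F < p.S' := Nat.div_lt_of_lt_mul hj
  unfold Par.ix
  rw [Nat.mul_add_div (Nat.zero_lt_of_lt h2), Nat.div_eq_of_lt h2, add_zero]

theorem ix_inv {p : Par} {i : ℕ} (hi : i < p.S) :
    i % p.S' * p.F + i / p.S' < p.S ∧ p.ix (i % p.S' * p.F + i / p.S') = i := by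
  change i < p.F * p.S' at hi
  have hS : 0 < p.S' := Nat.pos_of_ne_zero fun h => by simp [h] at hi
  have h1 : i / p.S' < p.F := Nat.div_lt_of_lt_mul (by rwa [mul_comm] at hi)
  have h2 := Nat.mul_le_mul_right p.F (show i % p.S' + 1 ≤ p.S' from Nat.mod_lt i hS)
  constructor
  · change _ < p.F * p.S'
    rw [Nat.succ_mul, mul_comm p.S'] at h2
    omega
  · unfold Par.ix
    rw [Nat.mul_add_mod_self_right, Nat.mod_eq_of_lt h1, add_comm (_ * p.F),
      Nat.add_mul_div_right _ _ (Nat.zero_lt_of_lt h1), Nat.div_eq_of_lt h1, zero_add,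
      Nat.div_add_mod]

theorem xy_eq {p : Par} (hp : Good p) (hS : p.S ≤ p.top) (hok : ∀ i < p.S, p.ok i = true)
    {j t : ℕ} (hj : j < p.S) (ht : 1 ≤ t) : p.xy t j =
      cor t (p.top - p.ix j) / 2 ^ p.sh p.ex (p.ix j / p.S') *
        (qn t (p.top - p.ix j) / 2 ^ p.sh p.ey (p.ix j / p.S')) := by
  have h1 := ix_lt p hj
  have h2 := hok _ h1
  simp only [Par.ok, Bool.and_eq_true, Nat.blt_eq, dg_spec p hp.hS, hp.tr.nat, sl_eq, one_mul,
    cn_eq (show p.ix j ≤ p.top by omega)] at h2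
  have h3 : pn (p.top - p.ix j) < 2 ^ p.sh p.ex (p.ix j / p.S') * 2 ^ p.Kx := by
    rw [← pow_add]
    exact h2.1
  have h4 : pn (p.top - p.ix j) < 2 ^ p.sh p.ey (p.ix j / p.S') * 2 ^ p.Ky := by
    rw [← pow_add]
    exact h2.2
  unfold Par.xy Par.tr
  rw [cn_eq (by omega), cn_eq (by omega), ← ix_div hj,
    Nat.mod_eq_of_lt (Nat.div_lt_of_lt_mul ((cor_le_pn _ _).trans_lt h3)),
    Nat.mod_eq_of_lt (Nat.div_lt_of_lt_mul (((qn_le_pn_sub ht _).trans
      (pn_mono (Nat.sub_le _ _))).trans_lt h4))]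

theorem xy_sum_lt {p : Par} (hp : Good p) (hS : p.S ≤ p.top) (hok : ∀ i < p.S, p.ok i = true)
    {a b : ℕ} (hab : a ≤ b) {j : ℕ} (hj : j < p.S) : ∑ t ∈ Ioc a b, p.xy t j < 2 ^ p.w := by
  have h1 := ix_lt p hj
  have h2 := hok _ h1
  simp only [Par.ok, Bool.and_eq_true, Nat.blt_eq, dg_spec p hp.hS, hp.tr.nat, sl_eq, one_mul,
    cn_eq (show p.ix j ≤ p.top by omega)] at h2
  have h4 : pn (p.top - p.ix j) < 2 ^ p.sh p.ey (p.ix j / p.S') * 2 ^ p.Ky := by
    rw [← pow_add]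
    exact h2.2
  have h5 : ∑ t ∈ Ioc a b, qn t (p.top - p.ix j) / 2 ^ p.sh p.ey (p.ix j / p.S') < 2 ^ p.Ky := by
    refine Nat.lt_of_mul_lt_mul_left (lt_of_le_of_lt ?_ ((qn_sum_le a b _ hab).trans_lt h4))
    rw [mul_sum]
    exact sum_le_sum fun t _ => Nat.mul_div_le _ _
  calc _ ≤ ∑ t ∈ Ioc a b, 2 ^ p.Kx *
        (qn t (p.top - p.ix j) / 2 ^ p.sh p.ey (p.ix j / p.S')) := by
        refine sum_le_sum fun t _ => Nat.mul_le_mul (tr_lt p _ _ _ j).le ?_
        unfold Par.tr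
        rw [cn_eq (by omega), ix_div hj]
        exact Nat.mod_le _ _
    _ < 2 ^ p.Kx * 2 ^ p.Ky := by
        rw [← mul_sum]
        exact Nat.mul_lt_mul_of_pos_left h5 (by positivity)
    _ ≤ 2 ^ p.w := by
        rw [← pow_add]
        exact Nat.pow_le_pow_right (by norm_num) hp.hK

theorem mid_spec {p : Par} (hp : Good p) (hS : p.S ≤ p.top) (hok : ∀ i < p.S, p.ok i = true)
    {a b H : ℕ} (hA : Acc p a b H) {i : ℕ} (hi : i < p.S) : p.mid H i = ∑ t ∈ Ioc a b,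
      cor t (p.top - i) / 2 ^ p.sh p.ex (i / p.S') * (qn t (p.top - i) / 2 ^ p.sh p.ey (i / p.S')) *
        2 ^ (p.sh p.ex (i / p.S') + p.sh p.ey (i / p.S')) := by
  obtain ⟨h1, h2⟩ := ix_inv hi
  change Nat.shiftLeft (dig p.w H (i % p.S' * p.F + i / p.S')) _ = _
  rw [sl_eq, hA.2, dig_pk fun j hj => xy_sum_lt hp hS hok hA.1 hj, if_pos h1, sum_mul]
  refine sum_congr rfl fun t ht => ?_
  rw [xy_eq hp hS hok h1 (by have := (mem_Ioc.1 ht).1; omega), h2]
  rfl

theorem lo_spec {p : Par} (hp : Good p) (hS : p.S ≤ p.top) (hok : ∀ i < p.S, p.ok i = true)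
    {a b Kb H : ℕ} (hA : Acc p a b H) (hb : eChk p b Kb = true) {i : ℕ} (hi : i < p.S) :
    p.lo b Kb H i ≤ ZI (p.top - i) := by
  have h1 : p.cst b = p.top / (b + 1) * pn (p.top / (b + 1)) := by
    change p.top / (b + 1) * p.dg p.P (p.top - p.top / (b + 1)) = _
    rw [dg_spec p hp.hS, hp.tr.nat, cn_eq (Nat.sub_le _ _), Nat.sub_sub_self (Nat.div_le_self _ _)]
  change p.mid H i + (p.dg p.P i - p.top * (p.dg p.P (i + (b + 1)) +
    p.cst b * p.dg p.P (i + 2 * (b + 1)))) * (p.dg p.P i - p.dg (p.E b Kb - 1) i) ≤ _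
  simp only [dg_spec p hp.hS, hp.tr.nat, (eChk_spec hp hb).nat]
  have hi' : i ≤ p.top := by omega
  have h2 := qn_sum (le_max_left b p.top) (p.top - i)
  rw [ple_eq_pn (t := max b p.top) (by omega)] at h2
  rw [ZI_split (M := max b p.top) (by omega) hA.1 (le_max_left _ _) (by omega),
    mid_spec hp hS hok hA hi, h1, cn_eq hi' (ple b),
    show cn p.top pn i - ple b (p.top - i) = ∑ t ∈ Ioc b (max b p.top), qn t (p.top - i) by
      rw [cn_eq hi']; omega, mul_sum]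
  refine Nat.add_le_add ((sum_le_sum fun t _ => trunc_lower _ _ _ _).trans (Nat.le_add_left _ _))
    (sum_le_sum fun t ht => Nat.mul_le_mul_right _ ?_)
  have h3 := mem_Ioc.1 ht
  have h4 := cor_lower h3.1 (show t ≤ p.top by omega) i
  rw [cn_eq hi' (cor t)] at h4
  omega

theorem hi_spec {p : Par} (hp : Good p) (hS : p.S ≤ p.top) (hok : ∀ i < p.S, p.ok i = true)
    {a b Ka Kb H : ℕ} (hA : Acc p a b H) (ha : eChk p a Ka = true) (hb : eChk p b Kb = true)
    {i : ℕ} (hi : i < p.S) : ZI (p.top - i) ≤ p.hi a b Ka Kb H i := by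
  change _ ≤ p.mid H i + p.dg p.P i * (Nat.shiftLeft (b - a) (p.sh p.ey (i / p.S')) +
    Nat.shiftLeft 1 (p.sh p.ex (i / p.S')) + (p.dg p.P i - p.dg (p.E b Kb - 1) i) +
    p.dg (p.E a Ka - 1) i)
  have hi' : i ≤ p.top := by omega
  simp only [dg_spec p hp.hS, hp.tr.nat, (eChk_spec hp hb).nat, (eChk_spec hp ha).nat, cn_eq hi',
    sl_eq, one_mul]
  have h2 := qn_sum (le_max_left b p.top) (p.top - i)
  rw [ple_eq_pn (t := max b p.top) (by omega)] at h2
  have h3 := qn_sum (Nat.zero_le a) (p.top - i)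
  have h4 : ∀ s : Finset ℕ, ∑ t ∈ s, cor t (p.top - i) * qn t (p.top - i) ≤
      pn (p.top - i) * ∑ t ∈ s, qn t (p.top - i) := fun s => by
    rw [mul_sum]
    exact sum_le_sum fun t _ => Nat.mul_le_mul_right _ (cor_le_pn _ _)
  have h5 := (h4 (Ioc 0 a)).trans (Nat.mul_le_mul_left _
    (show _ ≤ ple a (p.top - i) by omega))
  have h6 := (h4 (Ioc b (max b p.top))).trans (Nat.mul_le_mul_left _
    (show _ ≤ pn (p.top - i) - ple b (p.top - i) by omega))
  have h7 := sum_le_sum fun t (_ : t ∈ Ioc a b) => trunc_upper (cor_le_pn t (p.top - i))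
    (qn t (p.top - i)) (p.sh p.ex (i / p.S')) (p.sh p.ey (i / p.S'))
  rw [sum_add_distrib, sum_add_distrib, ← mid_spec hp hS hok hA hi, sum_const, Nat.card_Ioc,
    smul_eq_mul, ← mul_sum] at h7
  have h8 := Nat.mul_le_mul_left (2 ^ p.sh p.ex (i / p.S')) (qn_sum_le a b (p.top - i) hA.1)
  rw [ZI_split (M := max b p.top) (by omega) hA.1 (le_max_left _ _) (by omega)]
  calc _ ≤ pn (p.top - i) * ple a (p.top - i) + (p.mid H i +
        (b - a) * (pn (p.top - i) * 2 ^ p.sh p.ey (i / p.S')) +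
        2 ^ p.sh p.ex (i / p.S') * pn (p.top - i)) +
        pn (p.top - i) * (pn (p.top - i) - ple b (p.top - i)) := by omega
    _ = _ := by ring

theorem fLoop_spec {p : Par} {a b Ka Kb H n : ℕ} (h : fLoop p a b Ka Kb H n = true) :
    ∀ i < n, p.cmp a b Ka Kb H i = true := by
  induction n with
  | zero => simp
  | succ n ih =>
    have h1 : (p.cmp a b Ka Kb H n && fLoop p a b Ka Kb H n) = true := h
    rw [Bool.and_eq_true] at h1
    intro i hi
    rcases Nat.lt_succ_iff_lt_or_eq.1 hi with hi | rfl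
    · exact ih h1.2 i hi
    · exact h1.1

/-- The inequality holds for `lo ≤ n < hi`. -/
def Mono (lo hi : ℕ) : Prop :=
  ∀ n, lo ≤ n → n < hi → ZI (n + 1) * pn n ^ 2 ≤ ZI n * pn (n + 1) ^ 2

theorem Mono.join {a b c : ℕ} (h : Mono a b) (h' : Mono b c) : Mono a c := fun n h1 h2 =>
  (Nat.lt_or_ge n b).elim (h n h1) fun h3 => h' n h3 h2

theorem fin_spec {p : Par} (hp : Good p) {a b Ka Kb H : ℕ} (hA : Acc p a b H)
    (h : finChk p a b Ka Kb H = true) : Mono (p.top + 1 - p.S) p.top := by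
  simp only [finChk, Bool.and_eq_true, Nat.ble_eq] at h
  obtain ⟨⟨⟨hS, ha⟩, hb⟩, h1⟩ := h
  have h2 := fLoop_spec h1
  simp only [Par.cmp, Bool.and_eq_true, Nat.ble_eq, Nat.sub_eq, Nat.add_eq, Nat.mul_eq] at h2
  intro n h3 h4
  have hok : ∀ i < p.S, p.ok i = true := fun i hi => by
    rcases Nat.lt_or_ge i (p.S - 1) with h5 | h5
    · exact (h2 i h5).1.1
    · have h6 := (h2 (i - 1) (by omega)).1.2
      rwa [show i - 1 + 1 = i by omega] at h6
  obtain ⟨i, hi⟩ : ∃ i, p.top = n + 1 + i := Nat.exists_eq_add_of_le h4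
  have h7 := (h2 i (by omega)).2
  have h8 := lo_spec hp hS hok hA hb (show i + 1 < p.S by omega)
  have h9 := hi_spec hp hS hok hA ha hb (show i < p.S by omega)
  rw [dg_spec p hp.hS, dg_spec p hp.hS, hp.tr.nat, hp.tr.nat, cn_eq (by omega),
    cn_eq (by omega)] at h7
  rw [show p.top - (i + 1) = n by omega] at h7 h8
  rw [show p.top - i = n + 1 by omega] at h7 h9
  rw [sq, sq]
  exact (Nat.mul_le_mul_right _ h9).trans (h7.trans (Nat.mul_le_mul_right _ h8))

end Pool.Agent.Lib.MP_6cad4c_al.Br
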