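import Mathlib

set_option autoImplicit false

/-! Programs on packed big numbers, to be run by the kernel. -/

namespace Pool.Agent.Lib.MP_6cad4c_al.Br

/-- Evaluates a small number before passing it on. -/
noncomputable def force (x : ℕ) (f : ℕ → ℕ) : ℕ := Nat.rec (f 0) (fun n _ => f n.succ) x

/-- `2 ^ k - 1`. -/
def msk (k : ℕ) : ℕ := Nat.sub (Nat.shiftLeft 1 k) 1

/-- `N` digits equal to one in base `2 ^ B`. -/
def ones (B N : ℕ) : ℕ := Nat.div (msk (Nat.mul B N)) (msk B)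

/-- Digit `i` in base `2 ^ B`. -/
def dig (B V i : ℕ) : ℕ := Nat.land (Nat.shiftRight V (Nat.mul B i)) (msk B)

/-- The pentagonal number `k (3 k + 1) / 2`. -/
def gp (k : ℕ) : ℕ := Nat.div (Nat.mul k (Nat.add (Nat.mul 3 k) 1)) 2

/-- One block of eight pairs of terms of the pentagonal series (no property is needed). -/
noncomputable def peBlk (B k0 : ℕ) : ℕ :=
  Nat.rec (motive := fun _ => ℕ → ℕ) (fun a => a)
    (fun n ih a => ih (Nat.add a (Nat.shiftLeft (Nat.add 1 (Nat.shiftLeft 1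
      (Nat.mul B (Nat.add k0 (Nat.mul 2 n)))))
      (Nat.mul B (Nat.sub (gp (Nat.add k0 14)) (gp (Nat.add k0 (Nat.mul 2 n)))))))) 8 0

/-- The terms of one sign of the reversed pentagonal series (no property is needed). -/
noncomputable def peSum (B top nb k0 : ℕ) : ℕ :=
  Nat.shiftRight (Nat.rec (motive := fun _ => ℕ → ℕ) (fun a => a)
    (fun n ih a => ih (Nat.add a (Nat.shiftLeft (peBlk B (Nat.add k0 (Nat.mul 16 n)))
      (Nat.mul B (Nat.sub (gp (Nat.mul 16 nb)) (gp (Nat.add (Nat.add k0 (Nat.mul 16 n)) 14)))))))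
      nb 0) (Nat.mul B (Nat.sub (gp (Nat.mul 16 nb)) top))

/-- Candidate for the reversed packing of the partition numbers up to `top`. -/
noncomputable def PP (B top nb : ℕ) : ℕ :=
  Nat.div (Nat.shiftLeft 1 (Nat.mul 2 (Nat.mul B top)))
    (Nat.sub (Nat.add (Nat.shiftLeft 1 (Nat.mul B top)) (peSum B top nb 2)) (peSum B top nb 1))

/-- Parameters of a window. -/
structure Par where
  B : ℕ
  top : ℕ
  nb : ℕ
  S' : ℕ
  F : ℕ
  w : ℕ
  ex : ℕ
  ey : ℕ
  de : ℕ
  Kx : ℕ
  Ky : ℕ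
  Sd : ℕ

/-- The packed partition numbers. -/
noncomputable def Par.P (p : Par) : ℕ := PP p.B p.top p.nb

/-- Length of the window. -/
def Par.S (p : Par) : ℕ := Nat.mul p.F p.S'

/-- The truncation used for the part `f` of the window. -/
def Par.sh (p : Par) (e f : ℕ) : ℕ := Nat.sub e (Nat.div (Nat.mul f p.de) 16)

/-- Test that `V` has `top + 1` digits, each below `2 ^ (B - r)`. -/
def smallChk (B top r V : ℕ) : Bool :=
  Nat.beq (Nat.shiftRight V (Nat.mul B (Nat.add top 1))) 0 &&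
    Nat.beq (Nat.land V (Nat.mul (ones B (Nat.add top 1))
      (Nat.shiftLeft (msk r) (Nat.sub B r)))) 0

/-- Alternating sum of the pentagonal shifts of `V`, compared with `X ^ top`. -/
noncomputable def pLoop (B top V n : ℕ) : ℕ → ℕ → ℕ → Bool :=
  Nat.rec (motive := fun _ => ℕ → ℕ → ℕ → Bool)
    (fun _ U W => Nat.beq U (Nat.add W (Nat.shiftLeft 1 (Nat.mul B top))))
    (fun _ ih k U W => ih (Nat.add k 1)
      (Nat.add (Nat.add W (Nat.shiftRight V (Nat.mul B (gp (Nat.add k 1)))))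
        (Nat.shiftRight V (Nat.mul B (Nat.sub (gp (Nat.add k 1)) (Nat.add k 1))))) U) n

/-- The test of the parameters. -/
def parChk (p : Par) : Bool :=
  Nat.ble 10 p.B && Nat.beq p.B (Nat.mul p.F p.w) && Nat.ble (Nat.add p.ex p.Kx) p.B &&
    Nat.ble (Nat.add p.ey p.Ky) p.B && Nat.ble (Nat.add p.Kx p.Ky) p.w && Nat.ble 1 p.Sd &&
    Nat.ble 1 p.S'

/-- The test of the partition numbers. -/
noncomputable def chkP (p : Par) (K : ℕ) : Bool :=
  parChk p && Nat.ble K 120 && Nat.ble p.top (gp (Nat.mul 2 K)) &&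
    smallChk p.B p.top 10 p.P && pLoop p.B p.top p.P (Nat.mul 2 K) 0 p.P 0

/-- Division of a reversed series by `1 - x ^ k`. -/
def geo (B k A : ℕ) : ℕ := Nat.add A (Nat.div A (msk (Nat.mul B k)))

/-- Test of one step of the Euler expansion. -/
def geoChk (B top k A Y : ℕ) : Bool :=
  smallChk B top 1 Y && Nat.beq Y (Nat.add A (Nat.shiftRight Y (Nat.mul B k)))

/-- One step of the Euler expansion. -/
noncomputable def eStep (B top k A U W : ℕ) (ih : ℕ → ℕ → ℕ → ℕ → ℕ) : ℕ :=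
  Bool.rec 0 (ih k (geo B k A) (Nat.add W (geo B k A)) U) (geoChk B top k A (geo B k A))

/-- The Euler expansion; the result is `0` on failure and the packing plus one otherwise. -/
noncomputable def eLoop (B top t n : ℕ) : ℕ → ℕ → ℕ → ℕ → ℕ :=
  Nat.rec (motive := fun _ => ℕ → ℕ → ℕ → ℕ → ℕ)
    (fun _ _ U W => Nat.add (Nat.sub U W) 1)
    (fun _ ih k A U W => eStep B top (Nat.add k 1)
      (Nat.shiftRight A (Nat.mul B (Nat.add t (Nat.add k 1)))) U W ih) n

/-- Packing of the numbers of partitions with parts at most `t`, plus one. -/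
noncomputable def Par.E (p : Par) (t K : ℕ) : ℕ := eLoop p.B p.top t (Nat.mul 2 K) 0 p.P p.P 0

/-- The test of the Euler expansion. -/
noncomputable def eChk (p : Par) (t K : ℕ) : Bool :=
  Nat.blt p.top (Nat.mul (Nat.add (Nat.mul 2 K) 1) (Nat.add (Nat.add t 1) K)) && Nat.ble 1 (p.E t K)

/-- A piece of the packed partition numbers. -/
noncomputable def Par.chunk (p : Par) (c : ℕ) : ℕ :=
  Nat.land (Nat.shiftRight p.P (Nat.mul p.B (Nat.mul c p.Sd)))
    (msk (Nat.mul p.B (Nat.add p.S p.Sd)))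

/-- The window of the partition numbers shifted by `s`. -/
noncomputable def Par.win (p : Par) (s : ℕ) : ℕ :=
  force (Nat.div s p.Sd) fun c =>
    Nat.land (Nat.shiftRight (p.chunk c) (Nat.mul p.B (Nat.mod s p.Sd))) (msk (Nat.mul p.B p.S))

/-- One term of the sum for the cores. -/
noncomputable def cStep (d h W U V : ℕ) (ih : ℕ → ℕ → ℕ) : ℕ :=
  Bool.rec (ih U (Nat.add V (Nat.mul (Nat.sub h d) W))) (ih (Nat.add U (Nat.mul (Nat.sub d h) W)) V)
    (Nat.ble h d)

/-- The window of the numbers of cores, from the digits `D` of the coefficients. -/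
noncomputable def cLoop (p : Par) (t B' D n : ℕ) : ℕ → ℕ → ℕ :=
  Nat.rec (motive := fun _ => ℕ → ℕ → ℕ) (fun U V => Nat.sub U V)
    (fun j ih U V => cStep (dig B' D j) (Nat.shiftLeft 1 (Nat.sub B' 1)) (p.win (Nat.mul t j)) U V ih)
    n

/-- Truncation of the digits and folding of the parts of the window. -/
noncomputable def fold (p : Par) (e K V n : ℕ) : ℕ → ℕ :=
  Nat.rec (motive := fun _ => ℕ → ℕ) (fun a => a)
    (fun f ih a => ih (Nat.add a (Nat.shiftLeft
      (Nat.land (Nat.shiftRight V (Nat.add (Nat.mul p.B (Nat.mul p.S' f))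
        (p.sh e f))) (Nat.mul (ones p.B p.S') (msk K))) (Nat.mul p.w f)))) n

/-- Digitwise product by bit slicing. -/
noncomputable def had (p : Par) (x y n : ℕ) : ℕ → ℕ :=
  Nat.rec (motive := fun _ => ℕ → ℕ) (fun a => a)
    (fun b ih a => ih (Nat.add (Nat.mul 2 a) (Nat.land (Nat.mul
      (Nat.land (Nat.shiftRight x b) (ones p.w p.S)) (msk p.Ky)) y))) n

/-- Reduction modulo `Y ^ (J + 1)`. -/
def red (B' J a : ℕ) : ℕ := Nat.land a (msk (Nat.mul B' (Nat.add J 1)))

/-- The product of the `1 - Y ^ k` modulo `Y ^ (J + 1)`. -/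
noncomputable def eul (B' J n : ℕ) : ℕ :=
  Nat.rec 1 (fun k a => red B' J (Nat.mul a (Nat.sub (Nat.add (msk (Nat.mul B' (Nat.add J 1))) 2)
    (Nat.shiftLeft 1 (Nat.mul B' (Nat.add k 1)))))) n

/-- Newton iteration for the inverse (no property is needed). -/
noncomputable def inv (B' J : ℕ) : ℕ :=
  Nat.rec 1 (fun _ a => red B' J (Nat.mul a (Nat.sub (Nat.add (msk (Nat.mul B' (Nat.add J 1))) 3)
    (red B' J (Nat.mul a (eul B' J J)))))) 12

/-- Power of the Euler product. -/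
noncomputable def epow (B' J n : ℕ) : ℕ :=
  Nat.rec 1 (fun _ a => red B' J (Nat.mul a (eul B' J J))) n

/-- The contribution of one value of `t`. -/
noncomputable def row (p : Par) (t B' J T A : ℕ) : ℕ :=
  had p
    (fold p p.ex p.Kx (cLoop p t B' (red B' J (Nat.add A (Nat.shiftLeft (ones B' (Nat.add J 1))
      (Nat.sub B' 1)))) (Nat.add (Nat.div p.top t) 1) 0 0) p.F 0)
    (fold p p.ey p.Ky (Nat.land T (msk (Nat.mul p.B p.S))) p.F 0) p.Kx 0

/-- One step of the loop over `t`. -/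
noncomputable def rStep (p : Par) (t B' J Q T A H : ℕ) (ih : ℕ → ℕ → ℕ → ℕ) : ℕ :=
  ih (Nat.sub Q T) (red B' J (Nat.mul A (inv B' J))) (Nat.add H (row p t B' J T A))

/-- The loop over `t = t0 + n - 1, ..., t0`. -/
noncomputable def rLoop (p : Par) (t0 B' J n : ℕ) : ℕ → ℕ → ℕ → ℕ :=
  Nat.rec (motive := fun _ => ℕ → ℕ → ℕ → ℕ) (fun _ _ H => H)
    (fun m ih Q A H => force (Nat.add t0 m) fun t =>
      rStep p t B' J Q (Nat.shiftRight Q (Nat.mul p.B t)) A H ih) n

/-- The result of a tile `a < t ≤ b`. -/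
noncomputable def tile (p : Par) (a b K B' J : ℕ) : ℕ :=
  rLoop p (Nat.add a 1) B' J (Nat.sub b a) (Nat.sub (p.E b K) 1) (epow B' J b) 0

/-- The test of a tile. -/
noncomputable def tileChk (p : Par) (a b K B' J H : ℕ) : Bool :=
  Nat.ble a b && Nat.ble (Nat.div p.top (Nat.add a 1)) J && Nat.ble 1 B' &&
    Nat.blt (Nat.pow (Nat.add b 1) J) (Nat.shiftLeft 1 (Nat.sub B' 1)) &&
    Nat.beq (red B' J (Nat.mul (inv B' J) (eul B' J J))) 1 &&
    eChk p b K && Nat.beq (tile p a b K B' J) H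

/-- A part of a window. -/
def Par.part (p : Par) (V f : ℕ) : ℕ :=
  Nat.land (Nat.shiftRight V (Nat.mul p.B (Nat.mul p.S' f))) (msk (Nat.mul p.B p.S'))

/-- Digit `i` of `V`, read in two steps. -/
noncomputable def Par.dg (p : Par) (V i : ℕ) : ℕ :=
  force (Nat.div i p.S') fun f => dig p.B (p.part V f) (Nat.mod i p.S')

/-- The main part of the sum. -/
def Par.mid (p : Par) (H i : ℕ) : ℕ :=
  Nat.shiftLeft (dig p.w H (Nat.add (Nat.mul (Nat.mod i p.S') p.F) (Nat.div i p.S')))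
    (Nat.add (p.sh p.ex (Nat.div i p.S')) (p.sh p.ey (Nat.div i p.S')))

/-- The constant in the bound for the upper tail. -/
noncomputable def Par.cst (p : Par) (tb : ℕ) : ℕ :=
  Nat.mul (Nat.div p.top (Nat.add tb 1)) (p.dg p.P (Nat.sub p.top (Nat.div p.top (Nat.add tb 1))))

/-- Lower bound for the number of zeros. -/
noncomputable def Par.lo (p : Par) (tb Kb H i : ℕ) : ℕ :=
  Nat.add (p.mid H i) (Nat.mul
    (Nat.sub (p.dg p.P i) (Nat.mul p.top (Nat.add (p.dg p.P (Nat.add i (Nat.add tb 1)))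
      (Nat.mul (p.cst tb) (p.dg p.P (Nat.add i (Nat.mul 2 (Nat.add tb 1))))))))
    (Nat.sub (p.dg p.P i) (p.dg (Nat.sub (p.E tb Kb) 1) i)))

/-- Upper bound for the number of zeros. -/
noncomputable def Par.hi (p : Par) (ta tb Ka Kb H i : ℕ) : ℕ :=
  Nat.add (p.mid H i) (Nat.mul (p.dg p.P i) (Nat.add (Nat.add (Nat.add
    (Nat.shiftLeft (Nat.sub tb ta) (p.sh p.ey (Nat.div i p.S')))
    (Nat.shiftLeft 1 (p.sh p.ex (Nat.div i p.S'))))
    (Nat.sub (p.dg p.P i) (p.dg (Nat.sub (p.E tb Kb) 1) i))) (p.dg (Nat.sub (p.E ta Ka) 1) i)))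

/-- Test that the truncations lose no leading digit. -/
noncomputable def Par.ok (p : Par) (i : ℕ) : Bool :=
  Nat.blt (p.dg p.P i) (Nat.shiftLeft 1 (Nat.add (p.sh p.ex (Nat.div i p.S')) p.Kx)) &&
    Nat.blt (p.dg p.P i) (Nat.shiftLeft 1 (Nat.add (p.sh p.ey (Nat.div i p.S')) p.Ky))

/-- The inequality for the digits `i` and `i + 1`. -/
noncomputable def Par.cmp (p : Par) (ta tb Ka Kb H i : ℕ) : Bool :=
  p.ok i && p.ok (Nat.add i 1) &&
    Nat.ble (Nat.mul (p.hi ta tb Ka Kb H i)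
        (Nat.mul (p.dg p.P (Nat.add i 1)) (p.dg p.P (Nat.add i 1))))
      (Nat.mul (p.lo tb Kb H (Nat.add i 1)) (Nat.mul (p.dg p.P i) (p.dg p.P i)))

/-- The loop over the window. -/
noncomputable def fLoop (p : Par) (ta tb Ka Kb H n : ℕ) : Bool :=
  Nat.rec true (fun i ih => p.cmp ta tb Ka Kb H i && ih) n

/-- The final test of a window, where `H` is the sum over `ta < t ≤ tb`. -/
noncomputable def finChk (p : Par) (ta tb Ka Kb H : ℕ) : Bool :=
  Nat.ble p.S p.top && eChk p ta Ka && eChk p tb Kb && fLoop p ta tb Ka Kb H (Nat.sub p.S 1)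

end Pool.Agent.Lib.MP_6cad4c_al.Br
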