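import Pool.Agent.Lib.MP_6cad4c_al.Comb1
import Pool.Agent.Lib.MP_6cad4c_al.Core
import Pool.Agent.Lib.MP_6cad4c_al.BrProg

/-! Facts on power series used by the kernel computation. -/

namespace Pool.Agent.Lib.MP_6cad4c_al.Br

open Finset PowerSeries

/-- Generating series of a sequence of natural numbers. -/
noncomputable def ser (f : ℕ → ℕ) : ℤ⟦X⟧ := PowerSeries.mk fun n => (f n : ℤ)

theorem coeff_ser (f : ℕ → ℕ) (n : ℕ) : coeff n (ser f) = f n := coeff_mk _ _

/-- Congruence modulo `X ^ N`. -/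
def Cg (N : ℕ) (F G : ℤ⟦X⟧) : Prop := X ^ N ∣ F - G

theorem cg_iff {N : ℕ} {F G : ℤ⟦X⟧} : Cg N F G ↔ ∀ m < N, coeff m F = coeff m G := by
  unfold Cg
  rw [X_pow_dvd_iff]
  simp only [map_sub, sub_eq_zero]

theorem Cg.refl (N : ℕ) (F : ℤ⟦X⟧) : Cg N F F := by simp [Cg]

theorem Cg.symm {N : ℕ} {F G : ℤ⟦X⟧} (h : Cg N F G) : Cg N G F :=
  cg_iff.2 fun m hm => (cg_iff.1 h m hm).symm

theorem Cg.trans {N : ℕ} {F G H : ℤ⟦X⟧} (h : Cg N F G) (h' : Cg N G H) : Cg N F H :=
  cg_iff.2 fun m hm => (cg_iff.1 h m hm).trans (cg_iff.1 h' m hm)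

theorem Cg.mono {N M : ℕ} {F G : ℤ⟦X⟧} (h : Cg N F G) (e : M ≤ N) : Cg M F G :=
  cg_iff.2 fun m hm => cg_iff.1 h m (by omega)

theorem Cg.sub {N : ℕ} {F G F' G' : ℤ⟦X⟧} (h : Cg N F G) (h' : Cg N F' G') :
    Cg N (F - F') (G - G') := by
  have := dvd_sub h h'
  unfold Cg
  convert this using 1
  ring

theorem Cg.mul {N : ℕ} {F G F' G' : ℤ⟦X⟧} (h : Cg N F G) (h' : Cg N F' G') :
    Cg N (F * F') (G * G') := by
  have := dvd_add (h.mul_right F') (h'.mul_left G)
  unfold Cg
  convert this using 1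
  ring

theorem Cg.of_pow {N s : ℕ} (h : N ≤ s) (F : ℤ⟦X⟧) : Cg N (X ^ s * F) 0 := by
  unfold Cg
  rw [sub_zero]
  exact (pow_dvd_pow _ h).mul_right _

theorem gp_two (k : ℕ) : 2 * gp k = k * (3 * k + 1) := by
  change 2 * (k * (3 * k + 1) / 2) = _
  refine Nat.mul_div_cancel' ?_
  rcases Nat.even_or_odd' k with ⟨j, rfl | rfl⟩
  · exact ⟨j * (3 * (2 * j) + 1), by ring⟩
  · exact ⟨(2 * j + 1) * (3 * j + 2), by ring⟩

theorem gp_eq (k : ℕ) : gp k = pentagonal (-k) := by
  have h1 := two_mul_natCast_pentagonal_neg k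
  have h2 : 2 * (gp k : ℤ) = k * (3 * k + 1) := by exact_mod_cast gp_two k
  omega

theorem gp_sub (k : ℕ) : gp k - k = pentagonal k := by
  have h1 := two_mul_natCast_pentagonal k
  have h2 : 2 * (gp k : ℤ) = k * (3 * k + 1) := by exact_mod_cast gp_two k
  have h3 : (k : ℤ) * (3 * k + 1) = k * (3 * k - 1) + 2 * k := by ring
  omega

/-- Partial sums of the pentagonal series, with alternating signs. -/
noncomputable def sP : ℕ → ℤ⟦X⟧
  | 0 => 1
  | k + 1 => X ^ gp (k + 1) + X ^ (gp (k + 1) - (k + 1)) - sP k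

theorem sP_eq (k : ℕ) : sP k = (-1) ^ k *
    ∑ j ∈ Icc (-(k : ℤ)) k, C ((Int.negOnePow j : ℤˣ) : ℤ) * X ^ pentagonal j := by
  induction k with
  | zero => simp [sP, pentagonal_def]
  | succ k ih =>
    have h1 : Icc (-((k + 1 : ℕ) : ℤ)) (k + 1 : ℕ) =
        insert ((k + 1 : ℕ) : ℤ) (insert (-((k + 1 : ℕ) : ℤ)) (Icc (-(k : ℤ)) k)) := by
      ext x
      simp only [mem_Icc, mem_insert]
      omega
    have h2 : (C ((Int.negOnePow ((k + 1 : ℕ) : ℤ) : ℤˣ) : ℤ) : ℤ⟦X⟧) = (-1) ^ (k + 1) := by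
      rw [Int.coe_negOnePow_natCast]
      simp
    have h3 : ((-1) ^ (k + 1) * (-1) ^ (k + 1) : ℤ⟦X⟧) = 1 := by
      rw [← mul_pow]
      simp
    rw [h1, sum_insert, sum_insert, sP, ih, gp_sub, gp_eq, Int.negOnePow_neg, h2]
    · linear_combination (-(X ^ pentagonal ((k + 1 : ℕ) : ℤ) +
        X ^ pentagonal (-((k + 1 : ℕ) : ℤ)))) * h3
    · simp only [mem_Icc]
      omega
    · simp only [mem_Icc, mem_insert]
      omega

theorem sP_cg (K : ℕ) : Cg (gp (2 * K) + 1) (sP (2 * K)) (pentagonalSeries ℤ) := by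
  rw [sP_eq, pow_mul, neg_one_sq, one_pow, one_mul, cg_iff]
  intro m hm
  rw [map_sum]
  simp only [coeff_C_mul, coeff_X_pow]
  by_cases h : m ∈ Set.range pentagonal
  · obtain ⟨j, rfl⟩ := h
    rw [coeff_pentagonalSeries_pentagonal, sum_eq_single j]
    · rw [if_pos rfl, mul_one, Int.cast_id]
    · intro i _ hi
      rw [if_neg fun e => hi (pentagonal_injective e).symm, mul_zero]
    · intro hj
      exfalso
      have h1 := two_mul_natCast_pentagonal j
      have h2 : 2 * (gp (2 * K) : ℤ) = (2 * K : ℕ) * (3 * (2 * K : ℕ) + 1) := by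
        exact_mod_cast gp_two (2 * K)
      have h3 : (pentagonal j : ℤ) ≤ gp (2 * K) := by exact_mod_cast Nat.lt_succ_iff.1 hm
      have h4 : 0 ≤ ((2 * K : ℕ) : ℤ) := by positivity
      generalize ((2 * K : ℕ) : ℤ) = k at hj h2 h4
      rw [mem_Icc, not_and_or, not_le, not_le] at hj
      rcases hj with hj | hj <;> nlinarith
  · rw [coeff_pentagonalSeries_eq_zero ℤ h]
    exact sum_eq_zero fun j _ => by rw [if_neg fun e => h ⟨j, e.symm⟩, mul_zero]

theorem ple_ser_mul (t : ℕ) : ser (ple t) * ∏ k ∈ range t, (1 - X ^ (k + 1)) = 1 := ple_mul t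

theorem pn_ser_mul : ser pn * pentagonalSeries ℤ = 1 := pn_mul_pent

theorem ple_ser_zero : ser (ple 0) = 1 := by simpa using ple_ser_mul 0

theorem ple_ser_succ (t : ℕ) : ser (ple t) = (1 - X ^ (t + 1)) * ser (ple (t + 1)) := by
  have h1 := ple_ser_mul t
  have h2 := ple_ser_mul (t + 1)
  rw [prod_range_succ] at h2
  linear_combination (-ser (ple t)) * h2 + (1 - X ^ (t + 1)) * ser (ple (t + 1)) * h1

theorem qn_ser (t : ℕ) : X ^ (t + 1) * ser (ple (t + 1)) = ser (qn (t + 1)) := by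
  have h : ser (qn (t + 1)) = ser (ple (t + 1)) - ser (ple t) := by
    ext n
    rw [map_sub, coeff_ser, coeff_ser, coeff_ser, qn, Nat.add_sub_cancel,
      Nat.cast_sub (ple_mono (Nat.le_succ t) n)]
  rw [h, ple_ser_succ t]
  ring

theorem ple_cg {N t : ℕ} (h : N ≤ t + 1) : Cg N (ser (ple t)) (ser pn) :=
  cg_iff.2 fun m hm => by rw [coeff_ser, coeff_ser, ple_eq_pn (by omega)]

/-- Exponents in the Euler expansion. -/
def xE (t : ℕ) : ℕ → ℕ
  | 0 => 0
  | k + 1 => xE t k + (t + (k + 1))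

theorem xE_succ (t k : ℕ) : xE (t + 1) k = xE t k + k := by
  induction k with
  | zero => rfl
  | succ k ih =>
    rw [xE, xE, ih]
    ring

theorem xE_two (t k : ℕ) : 2 * xE t k = k * (2 * t + k + 1) := by
  induction k with
  | zero => simp [xE]
  | succ k ih =>
    rw [xE, mul_add, ih]
    ring

/-- Terms of the Euler expansion. -/
noncomputable def tE (t k : ℕ) : ℤ⟦X⟧ := X ^ xE t k * (ser pn * ser (ple k))

/-- Partial sums of the Euler expansion, with alternating signs. -/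
noncomputable def sE (t : ℕ) : ℕ → ℤ⟦X⟧
  | 0 => ser pn
  | k + 1 => tE t (k + 1) - sE t k

theorem tE_zero (t : ℕ) : tE t 0 = ser pn := by simp [tE, xE, ple_ser_zero]

theorem tE_succ (t k : ℕ) : (1 - X ^ (k + 1)) * tE t (k + 1) = X ^ (t + (k + 1)) * tE t k := by
  rw [tE, tE, xE, ple_ser_succ k]
  ring

theorem sE_rec (t k : ℕ) : sE t k =
    (1 - X ^ (t + 1)) * sE (t + 1) k + X ^ xE t (k + 1) * (ser pn * ser (ple k)) := by
  induction k with
  | zero =>
    simp only [sE, xE, ple_ser_zero]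
    ring
  | succ k ih =>
    rw [sE, sE, ih, tE, tE, xE_succ, xE.eq_2 t (k + 1), ple_ser_succ k]
    ring

theorem sE_base {N t : ℕ} (h : N ≤ t + 1) (k : ℕ) : Cg N (sE t k) ((-1) ^ k * ser pn) := by
  induction k with
  | zero => simpa [sE] using Cg.refl _ _
  | succ k ih =>
    have h1 := (Cg.of_pow (show N ≤ xE t (k + 1) by rw [xE]; omega)
      (ser pn * ser (ple (k + 1)))).sub ih
    rw [sE, tE, pow_succ]
    convert h1 using 1
    ring

theorem sE_aux (N k d : ℕ) : ∀ t, N ≤ t + 1 + d → N ≤ xE t (k + 1) →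
    Cg N (sE t k) ((-1) ^ k * ser (ple t)) := by
  induction d with
  | zero => exact fun t h _ => (sE_base h k).trans ((Cg.refl _ _).mul (ple_cg h).symm)
  | succ d ih =>
    intro t h1 h2
    have h3 := ih (t + 1) (by omega) (by rw [xE_succ]; omega)
    have h4 := ((Cg.refl N (1 - X ^ (t + 1))).mul h3).sub
      (Cg.of_pow h2 (-(ser pn * ser (ple k))))
    rw [sE_rec, ple_ser_succ t]
    convert h4 using 1 <;> ring

theorem sE_cg {top t K : ℕ} (h : top < (2 * K + 1) * (t + 1 + K)) :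
    Cg (top + 1) (sE t (2 * K)) (ser (ple t)) := by
  have h1 := sE_aux (top + 1) (2 * K) top t (by omega) (by
    have := xE_two t (2 * K + 1)
    nlinarith)
  simpa [pow_mul] using h1

theorem eul_cg (J : ℕ) :
    Cg (J + 1) (∏ k ∈ range J, (1 - X ^ (k + 1))) (pentagonalSeries ℤ) := by
  have h1 := ((ple_cg (N := J + 1) (t := J) le_rfl).mul
    (Cg.refl _ (pentagonalSeries ℤ))).mul (Cg.refl _ (∏ k ∈ range J, (1 - X ^ (k + 1))))
  rw [pn_ser_mul, one_mul, mul_right_comm, ple_ser_mul, one_mul] at h1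
  exact h1.symm

theorem abs_pent (n : ℕ) : |coeff n (pentagonalSeries ℤ)| ≤ 1 := by
  by_cases h : n ∈ Set.range pentagonal
  · obtain ⟨j, rfl⟩ := h
    rw [coeff_pentagonalSeries_pentagonal]
    simp
  · simp [coeff_pentagonalSeries_eq_zero ℤ h]

theorem geom_le (a : ℤ) (ha : 0 ≤ a) (j : ℕ) : ∑ i ∈ range (j + 1), a ^ i ≤ (a + 1) ^ j := by
  induction j with
  | zero => simp
  | succ j ih =>
    have h1 : 1 ≤ (a + 1) ^ j := one_le_pow₀ (by omega)
    rw [sum_range_succ', pow_succ (a + 1)]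
    simp only [pow_succ, pow_zero]
    rw [← sum_mul]
    nlinarith

theorem abs_alpha (t j : ℕ) : |coeff j (pentagonalSeries ℤ ^ t)| ≤ ((t : ℤ) + 1) ^ j := by
  induction t generalizing j with
  | zero =>
    rw [pow_zero, coeff_one]
    split_ifs <;> simp
  | succ t ih =>
    rw [pow_succ, coeff_mul, Nat.sum_antidiagonal_eq_sum_range_succ
      (fun a b => coeff a (pentagonalSeries ℤ ^ t) * coeff b (pentagonalSeries ℤ))]
    refine (abs_sum_le_sum_abs _ _).trans ((sum_le_sum fun i _ => ?_).trans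
      ((geom_le ((t : ℤ) + 1) (by positivity) j).trans_eq (by push_cast; ring)))
    rw [abs_mul]
    exact (mul_le_of_le_one_right (abs_nonneg _) (abs_pent _)).trans (ih i)

theorem cor_ser {t : ℕ} (ht : t ≠ 0) :
    ser (cor t) = expand t ht (pentagonalSeries ℤ ^ t) * ser pn := by
  have h1 : ser (cor t) * expand t ht (ser pn) ^ t = ser pn := core_id t ht
  have h2 : expand t ht (ser pn) ^ t * expand t ht (pentagonalSeries ℤ ^ t) = 1 := by
    rw [← map_pow, ← map_mul, ← mul_pow, pn_ser_mul, one_pow, map_one]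
  linear_combination (-ser (cor t)) * h2 + expand t ht (pentagonalSeries ℤ ^ t) * h1

/-- Coefficients in reverse order. -/
noncomputable def cf (top : ℕ) (F : ℤ⟦X⟧) (i : ℕ) : ℤ := if i ≤ top then coeff (top - i) F else 0

/-- A sequence in reverse order. -/
def cn (top : ℕ) (f : ℕ → ℕ) (i : ℕ) : ℕ := if i ≤ top then f (top - i) else 0

theorem cf_ser (top : ℕ) (f : ℕ → ℕ) (i : ℕ) : cf top (ser f) i = cn top f i := by
  unfold cf cn
  split_ifs <;> simp [coeff_ser]

theorem cf_shift (top s : ℕ) (F : ℤ⟦X⟧) (i : ℕ) : cf top (X ^ s * F) i = cf top F (i + s) := by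
  unfold cf
  rw [coeff_X_pow_mul']
  split_ifs <;> first | rfl | omega | (congr 2; omega)

theorem cf_add (top : ℕ) (F G : ℤ⟦X⟧) (i : ℕ) : cf top (F + G) i = cf top F i + cf top G i := by
  unfold cf
  split_ifs <;> simp

theorem cf_sub (top : ℕ) (F G : ℤ⟦X⟧) (i : ℕ) : cf top (F - G) i = cf top F i - cf top G i := by
  unfold cf
  split_ifs <;> simp

theorem Cg.cf {top : ℕ} {F G : ℤ⟦X⟧} (h : Cg (top + 1) F G) : cf top F = cf top G := by
  funext i
  unfold Br.cf
  split_ifs
  · exact cg_iff.1 h _ (by omega)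
  · rfl

theorem cf_expand {top t n : ℕ} (ht : t ≠ 0) (h : top < t * n) (A F : ℤ⟦X⟧) (i : ℕ) :
    cf top (expand t ht A * F) i = ∑ j ∈ range n, coeff j A * cf top F (i + t * j) := by
  have h1 : Cg n A (∑ j ∈ range n, C (coeff j A) * X ^ j) := by
    refine cg_iff.2 fun m hm => ?_
    rw [map_sum, sum_eq_single m]
    · rw [coeff_C_mul, coeff_X_pow, if_pos rfl, mul_one]
    · intro j _ hj
      rw [coeff_C_mul, coeff_X_pow, if_neg hj.symm, mul_zero]
    · exact fun hm' => absurd (mem_range.2 hm) hm'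
  have h2 : Cg (t * n) (expand t ht A) (∑ j ∈ range n, C (coeff j A) * X ^ (t * j)) := by
    have h3 := map_dvd (expand t ht) h1
    simp only [map_sub, map_sum, map_mul, map_pow, expand_X, expand_C, ← pow_mul] at h3
    exact h3
  rw [((h2.mono h).mul (Cg.refl _ F)).cf, sum_mul]
  simp only [← cf_shift]
  unfold cf
  split_ifs
  · rw [map_sum]
    exact sum_congr rfl fun j _ => by rw [mul_assoc, coeff_C_mul]
  · simp

/-- Series with nonnegative coefficients. -/
def Nn (F : ℤ⟦X⟧) : Prop := ∀ n, 0 ≤ coeff n F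

theorem Nn.add {F G : ℤ⟦X⟧} (h : Nn F) (h' : Nn G) : Nn (F + G) := fun n => by
  rw [map_add]
  exact add_nonneg (h n) (h' n)

theorem Nn.mul {F G : ℤ⟦X⟧} (h : Nn F) (h' : Nn G) : Nn (F * G) := fun n => by
  rw [coeff_mul]
  exact sum_nonneg fun _ _ => mul_nonneg (h _) (h' _)

theorem nn_zero : Nn 0 := fun n => by simp

theorem nn_one : Nn 1 := fun n => by
  rw [coeff_one]
  split_ifs <;> simp

theorem nn_ser (f : ℕ → ℕ) : Nn (ser f) := fun n => by
  rw [coeff_ser]
  positivity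

theorem Nn.pow {D : ℤ⟦X⟧} (h : Nn D) (k : ℕ) :
    Nn ((1 + D) ^ k - 1) ∧ Nn ((k : ℤ⟦X⟧) * D * (1 + D) ^ k - ((1 + D) ^ k - 1)) := by
  induction k with
  | zero => simpa using nn_zero
  | succ k ih =>
    constructor
    · convert (ih.1.mul (nn_one.add h)).add h using 1
      ring
    · convert (ih.2.mul (nn_one.add h)).add (h.mul ((ih.1.mul (nn_one.add h)).add h)) using 1
      push_cast
      ring

theorem pn_zero : pn 0 = 1 := Fintype.card_unique

theorem pn_one : pn 1 = 1 := Fintype.card_unique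

theorem cn_anti (top : ℕ) {i j : ℕ} (h : i ≤ j) : cn top pn j ≤ cn top pn i := by
  unfold cn
  split_ifs
  · exact pn_mono (by omega)
  · omega
  · exact Nat.zero_le _
  · exact le_rfl

theorem cor_lower {top tb t : ℕ} (h1 : tb < t) (h2 : t ≤ top) (i : ℕ) :
    cn top pn i ≤ cn top (cor t) i + top * (cn top pn (i + (tb + 1)) +
      top / (tb + 1) * pn (top / (tb + 1)) * cn top pn (i + 2 * (tb + 1))) := by
  have ht : t ≠ 0 := by omega
  have h3 : ser (cor t) * expand t ht (ser pn) ^ t = ser pn := core_id t ht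
  have hD : Nn (expand t ht (ser pn) - 1) := fun n => by
    rw [map_sub, coeff_expand, coeff_one]
    split_ifs with ha hb hb
    · simp [hb, coeff_ser, pn_zero]
    · simp [coeff_ser]
    · exact absurd (hb ▸ dvd_zero t) ha
    · simp
  have h4 := (nn_ser (cor t)).mul (hD.pow t).2
  have h5 : ser (cor t) * ((t : ℤ⟦X⟧) * (expand t ht (ser pn) - 1) *
      (1 + (expand t ht (ser pn) - 1)) ^ t - ((1 + (expand t ht (ser pn) - 1)) ^ t - 1)) =
      C (t : ℤ) * (expand t ht (ser pn) * ser pn - ser pn) - (ser pn - ser (cor t)) := by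
    rw [add_sub_cancel, map_natCast]
    linear_combination ((t : ℤ⟦X⟧) * (expand t ht (ser pn) - 1) - 1) * h3
  rw [h5] at h4
  have h6 : cf top (ser pn) i - cf top (ser (cor t)) i ≤
      t * (cf top (expand t ht (ser pn) * ser pn) i - cf top (ser pn) i) := by
    unfold cf
    split_ifs
    · have := h4 (top - i)
      rw [map_sub, coeff_C_mul, map_sub, map_sub] at this
      linarith
    · simp
  set J := top / (tb + 1) with hJ
  have h7 : top < t * (J + 1) :=
    (Nat.lt_mul_div_succ top (show 0 < tb + 1 by omega)).trans_le (Nat.mul_le_mul_right _ h1)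
  rw [cf_expand ht h7, sum_range_succ'] at h6
  simp only [cf_ser, coeff_ser, pn_zero, mul_zero, add_zero, Nat.cast_one, one_mul,
    add_sub_cancel_right] at h6
  have h8 : ∑ j ∈ range J, pn (j + 1) * cn top pn (i + t * (j + 1)) ≤
      cn top pn (i + (tb + 1)) + J * pn J * cn top pn (i + 2 * (tb + 1)) := by
    calc _ ≤ ∑ j ∈ range J, ((if j = 0 then cn top pn (i + (tb + 1)) else 0) +
          pn J * cn top pn (i + 2 * (tb + 1))) := by
          refine sum_le_sum fun j hj => ?_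
          split_ifs with h0
          · rw [h0, zero_add, pn_one, one_mul]
            exact (cn_anti top (by omega)).trans (Nat.le_add_right _ _)
          · rw [zero_add]
            refine Nat.mul_le_mul (pn_mono (mem_range.1 hj)) (cn_anti top ?_)
            have : (tb + 1) * 2 ≤ t * (j + 1) := Nat.mul_le_mul h1 (by omega)
            omega
      _ ≤ _ := by
          rw [sum_add_distrib, sum_ite_eq', sum_const, card_range, smul_eq_mul, mul_assoc]
          split_ifs <;> omega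
  have h9 := Nat.mul_le_mul h2 h8
  zify at h9 ⊢
  linarith

end Pool.Agent.Lib.MP_6cad4c_al.Br
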