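import Pool.Agent.Lib.MP_6cad4c_al.BrTr

/-! Correctness of a tile. -/

namespace Pool.Agent.Lib.MP_6cad4c_al.Br

open Finset PowerSeries

/-- Value of the truncated series at `2 ^ B`. -/
noncomputable def ev (B J : ℕ) (F : ℤ⟦X⟧) : ℤ := pz B (fun i => coeff i F) (J + 1)

theorem Cg.ev {B J : ℕ} {F G : ℤ⟦X⟧} (h : Cg (J + 1) F G) : ev B J F = ev B J G :=
  pz_congr fun i hi => cg_iff.1 h i hi

theorem ev_eq (B J : ℕ) (F : ℤ⟦X⟧) : ev B J F = (trunc (J + 1) F).eval (2 ^ B) := by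
  rw [Polynomial.eval, eval₂_trunc_eq_sum_range, ev, pz]
  exact sum_congr rfl fun i _ => by rw [pow_mul, RingHom.id_apply]

theorem ev_mul (B J : ℕ) (F G : ℤ⟦X⟧) :
    ev B J F * ev B J G ≡ ev B J (F * G) [ZMOD 2 ^ (B * (J + 1))] := by
  have h1 : (Polynomial.X : Polynomial ℤ) ^ (J + 1) ∣
      trunc (J + 1) (F * G) - trunc (J + 1) F * trunc (J + 1) G := by
    refine Polynomial.X_pow_dvd_iff.2 fun d hd => ?_
    rw [Polynomial.coeff_sub, coeff_trunc, if_pos hd, coeff_mul_eq_coeff_trunc_mul_trunc F G hd,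
      ← Polynomial.coe_mul, Polynomial.coeff_coe, sub_self]
  have h2 := Polynomial.eval_dvd (x := (2 : ℤ) ^ B) h1
  rw [Polynomial.eval_sub, Polynomial.eval_mul, ← ev_eq, ← ev_eq, ← ev_eq, Polynomial.eval_pow,
    Polynomial.eval_X, ← pow_mul] at h2
  exact Int.modEq_iff_dvd.2 h2

theorem ev_pow {B J s : ℕ} (h : s ≤ J) : ev B J (X ^ s) = 2 ^ (B * s) := by
  unfold ev pz
  rw [sum_eq_single s]
  · simp
  · intro j _ hj
    simp [coeff_X_pow, hj]
  · exact fun h' => absurd (mem_range.2 (by omega)) h'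

theorem ev_one (B J : ℕ) : ev B J 1 = 1 := by simpa using ev_pow (B := B) (Nat.zero_le J)

theorem ev_sub (B J : ℕ) (F G : ℤ⟦X⟧) : ev B J (F - G) = ev B J F - ev B J G := by
  rw [ev, ev, ev, ← pz_sub]
  exact pz_congr fun i _ => map_sub _ _ _

/-- `A` is the value of `F` modulo `Y ^ (J + 1)`. -/
def Md (B J A : ℕ) (F : ℤ⟦X⟧) : Prop := (A : ℤ) ≡ ev B J F [ZMOD 2 ^ (B * (J + 1))]

theorem red_eq (B J a : ℕ) : red B J a = a % 2 ^ (B * (J + 1)) := land_msk _ _

theorem red_mod (B J a : ℕ) : (red B J a : ℤ) ≡ a [ZMOD 2 ^ (B * (J + 1))] := by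
  rw [red_eq]
  push_cast
  exact Int.mod_modEq _ _

theorem Md.mul {B J A A' : ℕ} {F F' : ℤ⟦X⟧} (h : Md B J A F) (h' : Md B J A' F') :
    Md B J (red B J (A * A')) (F * F') := by
  refine (red_mod _ _ _).trans ?_
  push_cast
  exact (Int.ModEq.mul h h').trans (ev_mul _ _ _ _)

theorem md_one (B J : ℕ) : Md B J 1 1 := by
  rw [Md, ev_one]
  rfl

theorem eul_aux (B J n : ℕ) (h : n ≤ J) :
    Md B J (eul B J n) (∏ k ∈ range n, (1 - X ^ (k + 1))) := by
  induction n with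
  | zero => exact md_one B J
  | succ n ih =>
    rw [prod_range_succ]
    refine Md.mul (A' := msk (B * (J + 1)) + 2 - Nat.shiftLeft 1 (B * (n + 1))) (ih (by omega)) ?_
    have h1 : 2 ^ (B * (n + 1)) ≤ 2 ^ (B * (J + 1)) :=
      Nat.pow_le_pow_right (by norm_num) (Nat.mul_le_mul_left _ (by omega))
    have h2 : 1 ≤ 2 ^ (B * (J + 1)) := Nat.one_le_two_pow
    rw [Md, ev_sub, ev_one, ev_pow h, msk_eq, sl_eq, one_mul, Nat.cast_sub (by omega),
      Nat.cast_add, Nat.cast_sub h2, Int.modEq_iff_dvd]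
    push_cast
    exact ⟨-1, by ring⟩

theorem eul_spec (B J : ℕ) : Md B J (eul B J J) (pentagonalSeries ℤ) := by
  have h := eul_aux B J J le_rfl
  rwa [Md, (eul_cg J).ev] at h

theorem epow_spec (B J n : ℕ) : Md B J (epow B J n) (pentagonalSeries ℤ ^ n) := by
  induction n with
  | zero => exact md_one B J
  | succ n ih =>
    rw [pow_succ]
    exact ih.mul (eul_spec B J)

theorem inv_spec {B J A n : ℕ} (h : red B J (inv B J * eul B J J) = 1)
    (hA : Md B J A (pentagonalSeries ℤ ^ (n + 1))) :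
    Md B J (red B J (A * inv B J)) (pentagonalSeries ℤ ^ n) := by
  refine (red_mod _ _ _).trans ?_
  have h1 := red_mod B J (inv B J * eul B J J)
  rw [h] at h1
  push_cast at h1 ⊢
  have h2 := (Int.ModEq.trans hA ((pow_succ (pentagonalSeries ℤ) n ▸ ev_mul B J _ _).symm.trans
    (Int.ModEq.mul_left _ (eul_spec B J)).symm)).mul_right (inv B J : ℤ)
  refine h2.trans ?_
  rw [mul_assoc, mul_comm _ (inv B J : ℤ)]
  simpa using (h1.symm).mul_left (ev B J (pentagonalSeries ℤ ^ n))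

theorem alpha_dig {B J A t : ℕ} (hB : 1 ≤ B) (h : (t + 1) ^ J < 2 ^ (B - 1))
    (hA : Md B J A (pentagonalSeries ℤ ^ t)) {j : ℕ} (hj : j ≤ J) :
    (dig B (red B J (A + Nat.shiftLeft (ones B (J + 1)) (B - 1))) j : ℤ) =
      coeff j (pentagonalSeries ℤ ^ t) + 2 ^ (B - 1) := by
  have h2 : (2 : ℤ) ^ B = 2 * 2 ^ (B - 1) := by rw [← pow_succ', Nat.sub_add_cancel hB]
  have h3 : ∀ i < J + 1, 0 ≤ coeff i (pentagonalSeries ℤ ^ t) + 2 ^ (B - 1) ∧
      coeff i (pentagonalSeries ℤ ^ t) + 2 ^ (B - 1) < 2 ^ B := fun i hi => by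
    have h4 := abs_le.1 (abs_alpha t i)
    have h5 : ((t : ℤ) + 1) ^ i ≤ ((t : ℤ) + 1) ^ J :=
      pow_le_pow_right₀ (by omega) (by omega)
    have h6 : ((t : ℤ) + 1) ^ J < 2 ^ (B - 1) := by exact_mod_cast h
    constructor <;> linarith [h4.1, h4.2]
  refine (dig_of_pz (N := J + 1) h3 ?_).2 j (by omega)
  have h7 := abs_pz_lt (N := J + 1) fun i hi => (abs_of_nonneg (h3 i hi).1).trans_lt (h3 i hi).2
  have h8 : 0 ≤ pz B (fun i => coeff i (pentagonalSeries ℤ ^ t) + 2 ^ (B - 1)) (J + 1) := by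
    unfold pz
    exact sum_nonneg fun i hi => mul_nonneg (h3 i (mem_range.1 hi)).1 (by positivity)
  rw [abs_of_nonneg h8] at h7
  rw [← Int.emod_eq_of_lt h8 h7, red_eq, sl_eq, ones_mul hB, pz_add]
  push_cast [pk_cast]
  exact Int.ModEq.add_right _ hA

theorem cLoop_spec (p : Par) (t B D n : ℕ) : ∀ U V Z : ℕ,
    (Z : ℤ) = U - V + ∑ j ∈ range n, ((dig B D j : ℤ) - 2 ^ (B - 1)) * p.win (t * j) →
      cLoop p t B D n U V = Z := by
  induction n with
  | zero =>
    intro U V Z h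
    change U - V = Z
    rw [sum_range_zero] at h
    omega
  | succ n ih =>
    intro U V Z h
    change cStep (dig B D n) (Nat.shiftLeft 1 (B - 1)) (p.win (t * n)) U V (cLoop p t B D n) = Z
    rw [sl_eq, one_mul]
    unfold cStep
    rw [sum_range_succ] at h
    cases h1 : Nat.ble (2 ^ (B - 1)) (dig B D n) with
    | false =>
      have h2 : dig B D n ≤ 2 ^ (B - 1) := by
        by_contra h3
        rw [Nat.ble_eq_true_of_le (by omega)] at h1
        exact absurd h1 (by simp)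
      refine ih U (V + (2 ^ (B - 1) - dig B D n) * p.win (t * n)) Z ?_
      rw [h]
      push_cast [Nat.cast_sub h2]
      ring
    | true =>
      have h2 : 2 ^ (B - 1) ≤ dig B D n := Nat.le_of_ble_eq_true h1
      refine ih (U + (dig B D n - 2 ^ (B - 1)) * p.win (t * n)) V Z ?_
      rw [h]
      push_cast [Nat.cast_sub h2]
      ring

theorem core_win {p : Par} (hp : Good p) {t B J A : ℕ} (ht : 1 ≤ t) (hJ : p.top / t ≤ J)
    (hB : 1 ≤ B) (h : (t + 1) ^ J < 2 ^ (B - 1)) (hA : Md B J A (pentagonalSeries ℤ ^ t)) :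
    cLoop p t B (red B J (A + Nat.shiftLeft (ones B (J + 1)) (B - 1))) (p.top / t + 1) 0 0 =
      pk p.B (cn p.top (cor t)) p.S := by
  refine cLoop_spec _ _ _ _ _ _ _ _ ?_
  have h1 : ∀ i, (cn p.top (cor t) i : ℤ) = ∑ j ∈ range (p.top / t + 1),
      coeff j (pentagonalSeries ℤ ^ t) * (dig p.B p.P (i + t * j) : ℤ) := fun i => by
    rw [← cf_ser, cor_ser (by omega), cf_expand _ (Nat.lt_mul_div_succ p.top ht)]
    exact sum_congr rfl fun j _ => by rw [hp.tr.eq]
  rw [pk_cast, pz]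
  simp only [h1, sum_mul]
  rw [sum_comm, Nat.cast_zero, sub_self, zero_add]
  refine sum_congr rfl fun j hj => ?_
  rw [alpha_dig hB h hA (by have := mem_range.1 hj; omega), add_sub_cancel_right,
    win_spec p hp.hd, pk_cast, pz, mul_sum]
  exact sum_congr rfl fun i _ => mul_assoc _ _ _

theorem ix_lt (p : Par) {j : ℕ} (hj : j < p.S) : p.ix j < p.S := by
  change j < p.F * p.S' at hj
  change p.S' * (j % p.F) + j / p.F < p.F * p.S'
  have hF : 0 < p.F := Nat.pos_of_ne_zero fun h => by simp [h] at hj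
  have h1 := Nat.mul_le_mul_left p.S' (show j % p.F + 1 ≤ p.F from Nat.mod_lt j hF)
  have h2 : j / p.F < p.S' := Nat.div_lt_of_lt_mul hj
  rw [Nat.mul_succ, mul_comm p.S' p.F] at h1
  omega

theorem tr_lt (p : Par) (e K : ℕ) (g : ℕ → ℕ) (j : ℕ) : p.tr e K g j < 2 ^ K :=
  Nat.mod_lt _ (by positivity)

/-- The product of the truncated numbers of cores and of partitions with given largest part. -/
noncomputable def Par.xy (p : Par) (t j : ℕ) : ℕ :=
  p.tr p.ex p.Kx (cn p.top (cor t)) j * p.tr p.ey p.Ky (cn p.top (qn t)) j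

theorem Good.w_pos {p : Par} (hp : Good p) : 1 ≤ p.w := by
  have h1 := hp.hB
  rw [hp.hw] at h1
  exact Nat.pos_of_ne_zero fun h => by simp [h] at h1

theorem row_spec {p : Par} (hp : Good p) {t B J A T : ℕ} (ht : 1 ≤ t) (hJ : p.top / t ≤ J)
    (hB : 1 ≤ B) (h : (t + 1) ^ J < 2 ^ (B - 1)) (hA : Md B J A (pentagonalSeries ℤ ^ t))
    (hT : Tr p.B p.top p.B T (ser (qn t))) : row p t B J T A = pk p.w (p.xy t) p.S := by
  have hB' : 1 ≤ p.B := by have := hp.hB; omega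
  change had p (fold p p.ex p.Kx (cLoop p t B (red B J (A + Nat.shiftLeft (ones B (J + 1)) (B - 1)))
    (p.top / t + 1) 0 0) p.F 0) (fold p p.ey p.Ky (Nat.land T (msk (p.B * p.S))) p.F 0) p.Kx 0 = _
  rw [core_win hp ht hJ hB h hA, fold_spec p hB' hp.hx hp.hw, fold_spec p hB' hp.hy hp.hw,
    had_spec p hp.w_pos hp.hK (fun i _ => tr_lt p _ _ _ i) (fun i _ => tr_lt p _ _ _ i)]
  refine pk_congr fun j hj => ?_
  unfold Par.xy Par.tr
  rw [dig_pk fun i _ => hp.cn_lt (cor_le_pn t) i, land_msk, dig_mod, if_pos (ix_lt p hj),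
    if_pos (ix_lt p hj), hT.nat]

theorem rLoop_spec {p : Par} (hp : Good p) {a B J : ℕ} (hJ : p.top / (a + 1) ≤ J) (hB : 1 ≤ B)
    (hi : red B J (inv B J * eul B J J) = 1) (n : ℕ) (h : (a + n + 1) ^ J < 2 ^ (B - 1)) :
    ∀ Q A H : ℕ, Tr p.B p.top p.B Q (ser (ple (a + n))) →
      Md B J A (pentagonalSeries ℤ ^ (a + n)) → rLoop p (a + 1) B J n Q A H =
        H + pk p.w (fun j => ∑ t ∈ Ioc a (a + n), p.xy t j) p.S := by
  induction n with
  | zero =>
    intro Q A H _ _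
    simp only [add_zero, Ioc_self, sum_empty, pk_zero]
    rfl
  | succ n ih =>
    intro Q A H hQ hA
    change force (a + 1 + n) (fun t =>
      rStep p t B J Q (Q >>> (p.B * t)) A H (rLoop p (a + 1) B J n)) = _
    rw [force_eq, show a + 1 + n = a + n + 1 by ring]
    rw [← add_assoc] at hQ hA h ⊢
    have h1 := hQ.shift (a + n + 1)
    have h2 : Tr p.B p.top p.B (Q - Q >>> (p.B * (a + n + 1))) (ser (ple (a + n))) := by
      refine hp.of_val (ple_le_pn _) ?_
      rw [Nat.cast_sub (Nat.shiftRight_le _ _), h1.val, hQ.val, ← rv_sub, ple_ser_succ (a + n)]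
      congr 1
      ring
    rw [qn_ser] at h1
    have h3 : p.top / (a + n + 1) ≤ J :=
      (Nat.div_le_div_left (by omega) (by omega)).trans hJ
    change rLoop p (a + 1) B J n (Q - Q >>> (p.B * (a + n + 1))) (red B J (A * inv B J))
      (H + row p (a + n + 1) B J (Q >>> (p.B * (a + n + 1))) A) = _
    rw [ih ((Nat.pow_le_pow_left (by omega) _).trans_lt h) _ _ _ h2 (inv_spec hi hA),
      row_spec hp (by omega) h3 hB h hA h1, add_assoc, pk_add]
    congr 1
    exact pk_congr fun j _ => by rw [sum_Ioc_succ_top (by omega), add_comm]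

/-- `H` is the packed sum over `a < t ≤ b`. -/
def Acc (p : Par) (a b H : ℕ) : Prop :=
  a ≤ b ∧ H = pk p.w (fun j => ∑ t ∈ Ioc a b, p.xy t j) p.S

theorem Acc.add {p : Par} {a b c H H' : ℕ} (h : Acc p a b H) (h' : Acc p b c H') :
    Acc p a c (Nat.add H H') := by
  refine ⟨h.1.trans h'.1, ?_⟩
  rw [h.2, h'.2, Nat.add_eq, pk_add]
  exact pk_congr fun j _ => sum_Ioc_consecutive _ h.1 h'.1

theorem tile_spec {p : Par} (hp : Good p) {a b K B J H : ℕ}
    (h : tileChk p a b K B J H = true) : Acc p a b H := by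
  simp only [tileChk, Bool.and_eq_true, Nat.ble_eq, Nat.blt_eq, Nat.beq_eq] at h
  obtain ⟨⟨⟨⟨⟨⟨h1, h2⟩, h3⟩, h4⟩, h5⟩, h6⟩, h7⟩ := h
  refine ⟨h1, ?_⟩
  obtain ⟨n, rfl⟩ := Nat.exists_eq_add_of_le h1
  rw [sl_eq, one_mul] at h4
  have h8 := rLoop_spec hp h2 h3 h5 n h4 _ _ 0 (eChk_spec hp h6) (epow_spec B J _)
  rw [zero_add] at h8
  rw [← h7, ← h8, tile, Nat.sub_eq, Nat.add_sub_cancel_left]
  rfl

end Pool.Agent.Lib.MP_6cad4c_al.Br
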