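import Pool.Agent.Lib.MP_6cad4c_al.BrDig
import Pool.Agent.Lib.MP_6cad4c_al.BrSer

/-! Correctness of the packed partition numbers and of the Euler expansion. -/

namespace Pool.Agent.Lib.MP_6cad4c_al.Br

open Finset PowerSeries

/-- The number with the given signed digits. -/
def pz (B : ℕ) (g : ℕ → ℤ) (N : ℕ) : ℤ := ∑ i ∈ range N, g i * 2 ^ (B * i)

theorem pk_cast (B : ℕ) (g : ℕ → ℕ) (N : ℕ) : (pk B g N : ℤ) = pz B (fun i => g i) N := by
  simp [pk, pz]

theorem pz_congr {B N : ℕ} {g h : ℕ → ℤ} (e : ∀ i < N, g i = h i) : pz B g N = pz B h N :=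
  sum_congr rfl fun i hi => by rw [e i (mem_range.1 hi)]

theorem pz_add (B : ℕ) (g h : ℕ → ℤ) (N : ℕ) :
    pz B (fun i => g i + h i) N = pz B g N + pz B h N := by
  unfold pz
  rw [← sum_add_distrib]
  exact sum_congr rfl fun i _ => by ring

theorem pz_sub (B : ℕ) (g h : ℕ → ℤ) (N : ℕ) :
    pz B (fun i => g i - h i) N = pz B g N - pz B h N := by
  unfold pz
  rw [← sum_sub_distrib]
  exact sum_congr rfl fun i _ => by ring

theorem abs_pz_lt {B N : ℕ} {g : ℕ → ℤ} (h : ∀ i < N, |g i| < 2 ^ B) :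
    |pz B g N| < 2 ^ (B * N) := by
  induction N with
  | zero => simp [pz]
  | succ N ih =>
    have h1 := ih fun i hi => h i (by omega)
    have h2 : |g N| + 1 ≤ 2 ^ B := h N (by omega)
    have h3 : (0 : ℤ) < 2 ^ (B * N) := by positivity
    have h4 := abs_add_le (pz B g N) (g N * 2 ^ (B * N))
    rw [abs_mul, abs_of_pos h3] at h4
    rw [pz, sum_range_succ, Nat.mul_succ, pow_add]
    change |pz B g N + _| < _
    nlinarith

theorem pz_inj {B N : ℕ} {g : ℕ → ℤ} (h : ∀ i < N, |g i| < 2 ^ B) (h0 : pz B g N = 0) :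
    ∀ i < N, g i = 0 := by
  induction N with
  | zero => simp
  | succ N ih =>
    have h1 := abs_pz_lt (N := N) fun i hi => h i (by omega)
    have h2 : pz B g N = -(g N * 2 ^ (B * N)) := by
      rw [pz, sum_range_succ] at h0
      exact eq_neg_of_add_eq_zero_left h0
    have h3 : (0 : ℤ) < 2 ^ (B * N) := by positivity
    have h4 : g N = 0 := by
      by_contra h5
      have h6 : 1 ≤ |g N| := Int.one_le_abs h5
      rw [h2, abs_neg, abs_mul, abs_of_pos h3] at h1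
      nlinarith
    rw [h4, zero_mul, neg_zero] at h2
    intro i hi
    rcases Nat.lt_succ_iff_lt_or_eq.1 hi with hi | rfl
    · exact ih (fun i hi => h i (by omega)) h2 i hi
    · exact h4

theorem dig_of_pz {B N V : ℕ} {g : ℕ → ℤ} (h : ∀ i < N, 0 ≤ g i ∧ g i < 2 ^ B)
    (hV : (V : ℤ) = pz B g N) : V < 2 ^ (B * N) ∧ ∀ i < N, (dig B V i : ℤ) = g i := by
  have h1 : V < 2 ^ (B * N) := by
    have h2 := abs_pz_lt (N := N) (g := g) fun i hi => by
      rw [abs_of_nonneg (h i hi).1]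
      exact (h i hi).2
    rw [← hV, Nat.abs_cast] at h2
    exact_mod_cast h2
  refine ⟨h1, fun i hi => sub_eq_zero.1 (pz_inj (B := B) (N := N)
    (g := fun i => (dig B V i : ℤ) - g i) (fun i hi => ?_) ?_ i hi)⟩
  · have h3 : (dig B V i : ℤ) < 2 ^ B := by exact_mod_cast dig_lt B V i
    have h4 := h i hi
    have h5 : (0 : ℤ) ≤ dig B V i := by positivity
    rw [abs_lt]
    constructor <;> linarith [h4.1, h4.2]
  · rw [pz_sub, ← pk_cast, ← eq_pk h1, hV, sub_self]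

/-- The reversed packing of a series. -/
noncomputable def rv (B top : ℕ) (F : ℤ⟦X⟧) : ℤ := pz B (cf top F) (top + 1)

theorem rv_add (B top : ℕ) (F G : ℤ⟦X⟧) : rv B top (F + G) = rv B top F + rv B top G := by
  rw [rv, rv, rv, ← pz_add]
  exact pz_congr fun i _ => cf_add _ _ _ _

theorem rv_sub (B top : ℕ) (F G : ℤ⟦X⟧) : rv B top (F - G) = rv B top F - rv B top G := by
  rw [rv, rv, rv, ← pz_sub]
  exact pz_congr fun i _ => cf_sub _ _ _ _

theorem cf_one (top i : ℕ) : cf top 1 i = if i = top then 1 else 0 := by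
  unfold cf
  rw [coeff_one]
  split_ifs <;> first | rfl | omega

theorem rv_one (B top : ℕ) : rv B top 1 = 2 ^ (B * top) := by
  simp [rv, pz, cf_one]

theorem cg_of_rv {B top : ℕ} {F G : ℤ⟦X⟧} (h : ∀ i, |cf top F i - cf top G i| < 2 ^ B)
    (h0 : rv B top F = rv B top G) : Cg (top + 1) F G := by
  have h1 := pz_inj (N := top + 1) (fun i _ => h i) (by rw [pz_sub]; exact sub_eq_zero.2 h0)
  refine cg_iff.2 fun m hm => ?_
  have h2 := h1 (top - m) (by omega)
  unfold cf at h2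
  rw [if_pos (by omega), if_pos (by omega), Nat.sub_sub_self (by omega)] at h2
  exact sub_eq_zero.1 h2

/-- The digits of `V` are the coefficients of `F`, in reverse order. -/
structure Tr (B top r V : ℕ) (F : ℤ⟦X⟧) : Prop where
  lt : V < 2 ^ (B * (top + 1))
  eq : ∀ i, (dig B V i : ℤ) = cf top F i
  small : ∀ i, dig B V i < 2 ^ r

theorem Tr.val {B top r V : ℕ} {F : ℤ⟦X⟧} (h : Tr B top r V F) : (V : ℤ) = rv B top F := by
  rw [eq_pk h.lt, pk_cast]
  exact pz_congr fun i _ => h.eq i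

theorem Tr.bound {B top r V : ℕ} {F : ℤ⟦X⟧} (h : Tr B top r V F) (i : ℕ) :
    0 ≤ cf top F i ∧ cf top F i < 2 ^ r := by
  rw [← h.eq]
  exact ⟨by positivity, by exact_mod_cast h.small i⟩

theorem Tr.shift {B top r V : ℕ} {F : ℤ⟦X⟧} (h : Tr B top r V F) (s : ℕ) :
    Tr B top r (V >>> (B * s)) (X ^ s * F) :=
  ⟨(Nat.shiftRight_le _ _).trans_lt h.lt, fun i => by rw [dig_shift, cf_shift, h.eq],
    fun i => by rw [dig_shift]; exact h.small _⟩

theorem Tr.congr {B top r V : ℕ} {F G : ℤ⟦X⟧} (h : Tr B top r V F) (e : Cg (top + 1) F G) :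
    Tr B top r V G := ⟨h.lt, fun i => by rw [h.eq, e.cf], h.small⟩

theorem Tr.mono {B top r r' V : ℕ} {F : ℤ⟦X⟧} (h : Tr B top r V F) (e : r ≤ r') :
    Tr B top r' V F :=
  ⟨h.lt, h.eq, fun i => (h.small i).trans_le (Nat.pow_le_pow_right (by norm_num) e)⟩

theorem Tr.nat {B top r V : ℕ} {f : ℕ → ℕ} (h : Tr B top r V (ser f)) (i : ℕ) :
    dig B V i = cn top f i := by
  have := h.eq i
  rw [cf_ser] at this
  exact_mod_cast this

theorem tr_of_small {B top r V : ℕ} (hB : 1 ≤ B) (hr : r ≤ B) (h : smallChk B top r V = true) :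
    ∃ F, Tr B top (B - r) V F := by
  obtain ⟨h1, h2⟩ := smallChk_spec hB hr h
  refine ⟨ser fun m => dig B V (top - m), h1, fun i => ?_, h2⟩
  rw [cf_ser, cn]
  split_ifs with hi
  · rw [Nat.sub_sub_self hi]
  · rw [dig_of_lt h1 (by omega)]

theorem tr_of_val {B top V : ℕ} {F : ℤ⟦X⟧} (h : ∀ i, 0 ≤ cf top F i ∧ cf top F i < 2 ^ B)
    (hV : (V : ℤ) = rv B top F) : Tr B top B V F := by
  obtain ⟨h1, h2⟩ := dig_of_pz (fun i _ => h i) hV
  refine ⟨h1, fun i => ?_, dig_lt B V⟩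
  rcases Nat.lt_or_ge i (top + 1) with hi | hi
  · exact h2 i hi
  · rw [dig_of_lt h1 hi, cf, if_neg (by omega)]
    rfl

theorem pLoop_spec {B top r V : ℕ} {F : ℤ⟦X⟧} (hV : Tr B top r V F) (n : ℕ) :
    ∀ k U W : ℕ, (U : ℤ) - W = rv B top (sP k * F) → pLoop B top V n k U W = true →
      rv B top (sP (k + n) * F) = rv B top 1 := by
  induction n with
  | zero =>
    intro k U W h1 h2
    have h3 : U = W + Nat.shiftLeft 1 (B * top) := Nat.eq_of_beq_eq_true h2
    rw [add_zero, ← h1, h3, sl_eq, rv_one]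
    push_cast
    ring
  | succ n ih =>
    intro k U W h1 h2
    rw [← add_assoc, add_right_comm]
    refine ih (k + 1) (W + V >>> (B * gp (k + 1)) + V >>> (B * (gp (k + 1) - (k + 1)))) U ?_ h2
    rw [sP, sub_mul, add_mul, rv_sub, rv_add, ← h1, ← (hV.shift _).val, ← (hV.shift _).val]
    push_cast
    ring

theorem abs_sP {B top r V : ℕ} {F : ℤ⟦X⟧} (hV : Tr B top r V F) (k i : ℕ) :
    |cf top (sP k * F) i| ≤ (2 * k + 1) * 2 ^ r := by
  induction k with
  | zero =>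
    have := hV.bound i
    rw [sP, one_mul, abs_of_nonneg this.1]
    simpa using this.2.le
  | succ k ih =>
    rw [sP, sub_mul, add_mul, cf_sub, cf_add]
    have h1 := (hV.shift (gp (k + 1))).bound i
    have h2 := (hV.shift (gp (k + 1) - (k + 1))).bound i
    rw [abs_le] at ih ⊢
    push_cast
    constructor <;> nlinarith [h1.1, h1.2, h2.1, h2.2, ih.1, ih.2]

/-- The parameters are consistent and the packed partition numbers are correct. -/
structure Good (p : Par) : Prop where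
  hB : 10 ≤ p.B
  hw : p.B = p.F * p.w
  hx : p.ex + p.Kx ≤ p.B
  hy : p.ey + p.Ky ≤ p.B
  hK : p.Kx + p.Ky ≤ p.w
  hd : 1 ≤ p.Sd
  hS : 1 ≤ p.S'
  tr : Tr p.B p.top (p.B - 10) p.P (ser pn)

theorem chkP_spec {p : Par} {K : ℕ} (h : chkP p K = true) : Good p := by
  simp only [chkP, parChk, Bool.and_eq_true, Nat.ble_eq, Nat.beq_eq] at h
  obtain ⟨⟨⟨⟨⟨⟨⟨⟨⟨⟨h1, h2⟩, h3⟩, h4⟩, h5⟩, h6⟩, h7⟩, h8⟩, h9⟩, h10⟩, h11⟩ := h
  refine ⟨h1, h2, h3, h4, h5, h6, h7, ?_⟩
  obtain ⟨F, hF⟩ := tr_of_small (by omega) h1 h10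
  have h12 := pLoop_spec hF _ 0 p.P 0 (by rw [sP, one_mul, ← hF.val]; simp) h11
  rw [zero_add] at h12
  have h13 : Cg (p.top + 1) (sP (2 * K) * F) 1 := by
    refine cg_of_rv (fun i => ?_) h12
    have h14 := abs_le.1 (abs_sP hF (2 * K) i)
    have h15 : (2 : ℤ) ^ p.B = 1024 * 2 ^ (p.B - 10) := by
      rw [show (1024 : ℤ) = 2 ^ 10 by norm_num, ← pow_add, Nat.add_sub_cancel' h1]
    have h16 : (1 : ℤ) ≤ 2 ^ (p.B - 10) := one_le_pow₀ (by norm_num)
    have h17 : (K : ℤ) ≤ 120 := by exact_mod_cast h8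
    rw [cf_one, h15, abs_lt]
    push_cast at h14
    split_ifs <;> constructor <;> nlinarith [h14.1, h14.2]
  have h18 := ((((sP_cg K).mono (Nat.succ_le_succ h9)).symm.mul (Cg.refl _ F)).trans h13).mul
    (Cg.refl _ (ser pn))
  rw [mul_right_comm, mul_comm _ (ser pn), pn_ser_mul, one_mul, one_mul] at h18
  exact hF.congr h18

theorem Good.cn_lt {p : Par} (hp : Good p) {f : ℕ → ℕ} (hf : ∀ n, f n ≤ pn n) (i : ℕ) :
    cn p.top f i < 2 ^ p.B := by
  refine lt_of_le_of_lt ?_ (dig_lt p.B p.P i)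
  rw [hp.tr.nat, cn, cn]
  split_ifs
  · exact hf _
  · exact le_rfl

theorem Good.of_val {p : Par} (hp : Good p) {f : ℕ → ℕ} (hf : ∀ n, f n ≤ pn n) {V : ℕ}
    (hV : (V : ℤ) = rv p.B p.top (ser f)) : Tr p.B p.top p.B V (ser f) :=
  tr_of_val (fun i => by
    rw [cf_ser]
    exact ⟨by positivity, by exact_mod_cast hp.cn_lt hf i⟩) hV

theorem Cg.cancel {N k : ℕ} {F G : ℤ⟦X⟧}
    (h : Cg N ((1 - X ^ (k + 1)) * F) ((1 - X ^ (k + 1)) * G)) : Cg N F G := by
  have h1 := ple_ser_mul (k + 1)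
  rw [prod_range_succ, ← mul_assoc] at h1
  have h2 := (Cg.refl N (ser (ple (k + 1)) * ∏ j ∈ range k, (1 - X ^ (j + 1)))).mul h
  rwa [← mul_assoc, ← mul_assoc, h1, one_mul, one_mul] at h2

theorem geo_spec {B top k A Y : ℕ} {F G : ℤ⟦X⟧} (hB : 1 ≤ B) (hA : Tr B top (B - 1) A F)
    (hG : (1 - X ^ (k + 1)) * G = F) (h : geoChk B top (k + 1) A Y = true) :
    Tr B top (B - 1) Y G := by
  simp only [geoChk, Bool.and_eq_true, Nat.beq_eq] at h
  obtain ⟨F', hF⟩ := tr_of_small hB hB h.1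
  refine hF.congr (Cg.cancel (k := k) ?_)
  have h1 : Y = A + Y >>> (B * (k + 1)) := h.2
  have h2 : (2 : ℤ) ^ B = 2 * 2 ^ (B - 1) := by rw [← pow_succ', Nat.sub_add_cancel hB]
  rw [hG, sub_mul, one_mul]
  refine cg_of_rv (B := B) (fun i => ?_) ?_
  · have h3 := hF.bound i
    have h4 := (hF.shift (k + 1)).bound i
    have h5 := hA.bound i
    rw [cf_sub, h2, abs_lt]
    constructor <;> linarith [h3.1, h3.2, h4.1, h4.2, h5.1, h5.2]
  · rw [rv_sub, ← hF.val, ← (hF.shift _).val, ← hA.val]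
    omega

theorem eLoop_spec {B top t : ℕ} (hB : 1 ≤ B) (n : ℕ) :
    ∀ k A U W : ℕ, Tr B top (B - 1) A (tE t k) → (U : ℤ) - W = rv B top (sE t k) →
      1 ≤ eLoop B top t n k A U W → ∃ U' W' : ℕ, eLoop B top t n k A U W = U' - W' + 1 ∧
        (U' : ℤ) - W' = rv B top (sE t (k + n)) := by
  induction n with
  | zero => exact fun k A U W _ h _ => ⟨U, W, rfl, h⟩
  | succ n ih =>
    intro k A U W h1 h2 h3
    have h4 : eLoop B top t (n + 1) k A U W =
        eStep B top (k + 1) (A >>> (B * (t + (k + 1)))) U W (eLoop B top t n) := rfl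
    rw [h4] at h3 ⊢
    unfold eStep at h3 ⊢
    cases h5 : geoChk B top (k + 1) (A >>> (B * (t + (k + 1))))
      (geo B (k + 1) (A >>> (B * (t + (k + 1))))) with
    | false =>
      rw [h5] at h3
      exact absurd h3 (by simp)
    | true =>
      rw [h5] at h3
      have h6 := geo_spec hB (h1.shift _) (tE_succ t k) h5
      rw [show k + (n + 1) = k + 1 + n by ring]
      refine ih (k + 1) _ _ _ h6 ?_ h3
      rw [sE, rv_sub, ← h2, ← h6.val, Nat.add_eq]
      push_cast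
      ring

theorem eChk_spec {p : Par} (hp : Good p) {t K : ℕ} (h : eChk p t K = true) :
    Tr p.B p.top p.B (p.E t K - 1) (ser (ple t)) := by
  simp only [eChk, Bool.and_eq_true, Nat.ble_eq, Nat.blt_eq] at h
  have hB := hp.hB
  obtain ⟨U, W, h1, h2⟩ := eLoop_spec (B := p.B) (top := p.top) (t := t) (by omega) (2 * K) 0
    p.P p.P 0 (by rw [tE_zero]; exact hp.tr.mono (by omega)) (by rw [sE, ← hp.tr.val]; simp) h.2
  rw [zero_add, rv, (sE_cg h.1).cf] at h2
  have h3 : p.E t K = U - W + 1 := h1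
  refine hp.of_val (ple_le_pn t) ?_
  have h4 : 0 ≤ rv p.B p.top (ser (ple t)) := by
    unfold rv pz
    exact sum_nonneg fun i _ => by rw [cf_ser]; positivity
  rw [h3, Nat.add_sub_cancel, rv, ← h2]
  rw [rv, ← h2] at h4
  omega

end Pool.Agent.Lib.MP_6cad4c_al.Br
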