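import Pool.Agent.Lib.MP_6cad4c_al.BrW0
import Pool.Agent.Lib.MP_6cad4c_al.BrW1
import Pool.Agent.Lib.MP_6cad4c_al.BrW2
import Pool.Agent.Lib.MP_6cad4c_al.BrW3
import Pool.Agent.Lib.MP_6cad4c_al.BrW4
import Pool.Agent.Lib.MP_6cad4c_al.BrW5
import Pool.Agent.Lib.MP_6cad4c_al.BrW6
import Pool.Agent.Lib.MP_6cad4c_al.BrW7
import Pool.Agent.Lib.MP_6cad4c_al.BrW8
import Pool.Agent.Lib.MP_6cad4c_al.BrW9
import Pool.Agent.Lib.MP_6cad4c_al.BrW10
import Pool.Agent.Lib.MP_6cad4c_al.BrW11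
import Pool.Agent.Lib.MP_6cad4c_al.BrW12

namespace Pool.Agent.Lib.MP_6cad4c_al

theorem brute_mono : Br.Mono 82 20006 :=
  ((((((((((((((((((((((((((((((((((((((((((((((Br.w0).join Br.w1).join Br.w2).join Br.w3).join Br.w4).join Br.w5).join Br.w6).join Br.w7).join Br.w8).join Br.w9).join Br.w10).join Br.w11).join Br.w12).join Br.w13).join Br.w14).join Br.w15).join Br.w16).join Br.w17).join Br.w18).join Br.w19).join Br.w20).join Br.w21).join Br.w22).join Br.w23).join Br.w24).join Br.w25).join Br.w26).join Br.w27).join Br.w28).join Br.w29).join Br.w30).join Br.w31).join Br.w32).join Br.w33).join Br.w34).join Br.w35).join Br.w36).join Br.w37).join Br.w38).join Br.w39).join Br.w40).join Br.w41).join Br.w42).join Br.w43).join Br.w44).join Br.w45).join Br.w46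

theorem brute (n : ℕ) (h1 : 82 ≤ n) (h2 : n < 20000) :
    ZI (n + 1) * pn n ^ 2 ≤ ZI n * pn (n + 1) ^ 2 :=
  brute_mono n h1 (by omega)

end Pool.Agent.Lib.MP_6cad4c_al
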