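import Pool.Agent.Lib.MP_6cad4c_al.PtBase

namespace Pool.Agent.Lib.MP_6cad4c_al

variable {q : Pr} {x y : ℝ}

private theorem ptB_sin (t : ℝ) : |Real.sin t - t| ≤ |t| * |t| * |t| / 6 := by
  have h := Real.abs_sub_sin_le t
  rw [abs_sub_comm] at h
  calc _ ≤ |t| ^ 3 / 6 := h
    _ = _ := by ring

private theorem ptB_cos (t : ℝ) : |Real.cos t - 1| ≤ |t| * |t| / 2 := by
  have h1 := Real.cos_le_one t
  have h2 := Real.one_sub_sq_div_two_le_cos (x := t)
  rw [abs_mul_abs_self, abs_le]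
  constructor <;> nlinarith [sq_nonneg t]

private theorem ptB_tcos (t : ℝ) : |t * (Real.cos t - 1)| ≤ |t| * |t| * |t| / 2 := by
  rw [abs_mul]
  calc _ ≤ |t| * (|t| * |t| / 2) := mul_le_mul_of_nonneg_left (ptB_cos t) (abs_nonneg _)
    _ = _ := by ring

private theorem ptB_mul {c t B : ℝ} (hc : 0 ≤ c) (h : |t| ≤ B) : |c * t| ≤ c * B := by
  rw [abs_mul, abs_of_nonneg hc]
  exact mul_le_mul_of_nonneg_left h hc

private theorem ptB_mul' {c t A B : ℝ} (hc : |c| ≤ A) (h : |t| ≤ B) : |c * t| ≤ A * B := by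
  rw [abs_mul]
  exact mul_le_mul hc h (abs_nonneg _) ((abs_nonneg _).trans hc)

private theorem ptB_sin_omg (hq : q.Ok) (a : ℕ) {e : ℕ} (he : e ≤ 2) :
    |Real.sin (omg q (q.et * x) (q.et * y) a e)| ≤ (a + 1) * eA q x y :=
  Real.abs_sin_le_abs.trans (abs_omg_le hq a he)

theorem T3_le (hq : q.Ok) (hx : |q.et * x| ≤ 42 / 100) (hy : |q.et * y| ≤ 42 / 100) :
    |thF q (q.et * x) (q.et * y) - th1F q (q.et * x) (q.et * y)| ≤ eT3 q x y := by
  have hA : 0 ≤ eA q x y := (abs_nonneg _).trans (abs_al_le hq)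
  have hg : 0 ≤ gg q (q.et * x) (q.et * y) := zero_le_one.trans (one_le_gg hq _ _)
  have h1 := ptB_mul hq.S (ptB_sin (q.et * y))
  have h2 := ptB_mul hq.S (ptB_sin (q.et * x))
  have h3 := ptB_mul hq.V (ptB_sin (q.et * x))
  have h4 := vt_sub_le (x := x) (y := y) hq
  have h5 := ptB_mul hq.u (sa_le (x := x) (y := y) hq)
  have h6 := msum_le1 hq hx hy (f := fun κ a e => kt q κ a e *
      (gg q (q.et * x) (q.et * y) ^ (a + 1) * Real.sin (omg q (q.et * x) (q.et * y) a e)))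
    hA fun κ a e he => by
      refine (ptB_mul' le_rfl (ptB_mul (pow_nonneg hg _) (ptB_sin_omg hq a he))).trans_eq ?_
      ring
  simp only [eT3, ec3, eq1, eq2, ep1_eq hq, ep2_eq hq, evp_eq hq]
  simp only [thF, thB, th1F, Pr.th1, Pr.th2, Pr.Sm, Pr.um]
  rw [abs_le] at h1 h2 h3 h4 h5 h6 ⊢
  constructor <;> linarith [h1.1, h1.2, h2.1, h2.2, h3.1, h3.2, h4.1, h4.2, h5.1, h5.2, h6.1, h6.2]

theorem D3_le (hq : q.Ok) (hx : |q.et * x| ≤ 42 / 100) (hy : |q.et * y| ≤ 42 / 100) :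
    |thD q (q.et * x) (q.et * y) - tp1F q (q.et * x) (q.et * y)| ≤ eD3 q x y := by
  have hA : 0 ≤ eA q x y := (abs_nonneg _).trans (abs_al_le hq)
  have hE : 0 ≤ ee1p q x y := (abs_nonneg _).trans (abs_eoD_le hq)
  have hP : 0 ≤ eapp q x y := (abs_nonneg _).trans (abs_alD_le hq)
  have hl : 0 ≤ q.ell := by
    have := hq.be
    have := abs_nonneg q.mp
    simp only [Pr.ell, Pr.Mp]
    linarith
  have hg1 : 1 ≤ gg q (q.et * x) (q.et * y) := one_le_gg hq _ _
  have hg : 0 ≤ gg q (q.et * x) (q.et * y) := zero_le_one.trans hg1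
  have h1 := ptB_mul hq.nSp (ptB_sin (q.et * y))
  have h2 := ptB_mul hq.nSp (ptB_sin (q.et * x))
  have h3 := ptB_mul hq.S (ptB_tcos (q.et * y))
  have h4 := ptB_mul hq.S (ptB_tcos (q.et * x))
  have h5 := ptB_mul' (le_refl |q.Vp|) (ptB_sin (q.et * x))
  have h6 := ptB_mul hq.V (ptB_tcos (q.et * x))
  have h7 := vtD_sub_le (x := x) (y := y) hq
  have h8 := ptB_mul' (le_refl |q.up|) (sa_le (x := x) (y := y) hq)
  have h9 := ptB_mul hq.u (ptB_mul hg (ptB_mul' (abs_eoD_le (x := x) (y := y) hq)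
    (Real.abs_sin_le_abs.trans (abs_al_le (x := x) (y := y) hq))))
  have hc : |gg q (q.et * x) (q.et * y) * Real.cos (al q (q.et * x) (q.et * y)) - 1| ≤
      egm1 q x y + (1 / 2) * eAA q x y := by
    have a1 := ptB_mul (sub_nonneg.mpr hg1) (Real.abs_cos_le_one (al q (q.et * x) (q.et * y)))
    have a2 := ptB_cos (al q (q.et * x) (q.et * y))
    have a3 := gg_sub_one_le (x := x) (y := y) hq
    have a4 := abs_al_le (x := x) (y := y) hq
    have a5 := mul_le_mul a4 a4 (abs_nonneg _) hA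
    simp only [eAA]
    rw [abs_le] at a1 a2 ⊢
    constructor <;> linarith [a1.1, a1.2, a2.1, a2.2]
  have h10 := ptB_mul hq.u (ptB_mul' hc (abs_alD_le (x := x) (y := y) hq))
  have h11 := ptB_mul hq.u h7
  have h12 := msum_le2 hq hx hy (f := fun κ a e => ktD q κ a e *
      (gg q (q.et * x) (q.et * y) ^ (a + 1) * Real.sin (omg q (q.et * x) (q.et * y) a e)))
    (mul_nonneg hl hA) fun κ a e he => by
      refine (ptB_mul' (abs_ktD_le hq κ a he)
        (ptB_mul (pow_nonneg hg _) (ptB_sin_omg hq a he))).trans_eq ?_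
      ring
  have h13 := msum_le2 hq hx hy (f := fun κ a e => kt q κ a e *
      (gg q (q.et * x) (q.et * y) ^ (a + 1) * ((a + 1) * (eoD q (q.et * x) (q.et * y) *
        Real.sin (omg q (q.et * x) (q.et * y) a e)))))
    (mul_nonneg hE hA) fun κ a e he => by
      refine (ptB_mul' le_rfl (ptB_mul (pow_nonneg hg _) (ptB_mul (by positivity)
        (ptB_mul' (abs_eoD_le hq) (ptB_sin_omg hq a he))))).trans_eq ?_
      ring
  have h14 := msum_le1 hq hx hy (f := fun κ a e => kt q κ a e *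
      (gg q (q.et * x) (q.et * y) ^ (a + 1) * (Real.cos (omg q (q.et * x) (q.et * y) a e) *
        omgD q (q.et * x) (q.et * y) a e)))
    hP fun κ a e he => by
      refine (ptB_mul' le_rfl (ptB_mul (pow_nonneg hg _)
        (ptB_mul' (Real.abs_cos_le_one _) (abs_omgD_le hq a he)))).trans_eq ?_
      ring
  have hs : (msum fun κ a e => ktD q κ a e *
      (gg q (q.et * x) (q.et * y) ^ (a + 1) * Real.sin (omg q (q.et * x) (q.et * y) a e)) +
      kt q κ a e * (gg q (q.et * x) (q.et * y) ^ (a + 1) * ((a + 1) * eoD q (q.et * x) (q.et * y) *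
        Real.sin (omg q (q.et * x) (q.et * y) a e) +
        Real.cos (omg q (q.et * x) (q.et * y) a e) * omgD q (q.et * x) (q.et * y) a e))) =
      (msum fun κ a e => ktD q κ a e *
        (gg q (q.et * x) (q.et * y) ^ (a + 1) * Real.sin (omg q (q.et * x) (q.et * y) a e))) +
      ((msum fun κ a e => kt q κ a e *
        (gg q (q.et * x) (q.et * y) ^ (a + 1) * ((a + 1) * (eoD q (q.et * x) (q.et * y) *
          Real.sin (omg q (q.et * x) (q.et * y) a e))))) +
      msum fun κ a e => kt q κ a e *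
        (gg q (q.et * x) (q.et * y) ^ (a + 1) * (Real.cos (omg q (q.et * x) (q.et * y) a e) *
          omgD q (q.et * x) (q.et * y) a e))) := by
    rw [← msum_add, ← msum_add]
    refine congrArg msum (funext fun κ => funext fun a => funext fun e => ?_)
    ring
  simp only [eD3, ec3, eq1, eq2, ep1_eq hq, ep2_eq hq, evp_eq hq, Pr.uVpa, Pr.uUp]
  simp only [thD, thBD, tp1F, Pr.tp1, Pr.tp2, Pr.w1, Pr.z1]
  rw [hs]
  have hal : q.u * alD q (q.et * x) (q.et * y) =
      q.u * (vtD q (q.et * x) (q.et * y) - q.et * y / 2) := rfl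
  have hug : eug q x y * (ee1p q x y * eA q x y) =
      q.u * (gg q (q.et * x) (q.et * y) * (ee1p q x y * eA q x y)) := by
    simp only [eug, eG]; ring
  rw [abs_le] at h1 h2 h3 h4 h5 h6 h7 h8 h9 h10 h11 h12 h13 h14 ⊢
  constructor
  · linarith [h1.2, h2.1, h3.2, h4.1, h5.1, h6.2, h7.2, h8.1, h9.1, h10.1, h11.1, h12.2, h13.2,
      h14.2]
  · linarith [h1.1, h2.2, h3.1, h4.2, h5.2, h6.1, h7.1, h8.2, h9.2, h10.2, h11.2, h12.1, h13.1,
      h14.1]

end Pool.Agent.Lib.MP_6cad4c_al
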