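import Pool.Agent.Lib.MP_6cad4c_al.PtBase

namespace Pool.Agent.Lib.MP_6cad4c_al

variable {q : Pr} {x y : ℝ}

theorem ptC_mono {f f' : ℝ → ℝ} (hf : ∀ t, HasDerivAt f (f' t) t) (h0 : ∀ t, 0 ≤ t → 0 ≤ f' t)
    {t : ℝ} (ht : 0 ≤ t) : f 0 ≤ f t := by
  have h : MonotoneOn f (Set.Ici 0) := by
    refine monotoneOn_of_deriv_nonneg (convex_Ici 0)
      (fun s _ => (hf s).continuousAt.continuousWithinAt)
      (fun s _ => (hf s).differentiableAt.differentiableWithinAt) fun s hs => ?_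
    rw [(hf s).deriv]
    exact h0 s (interior_subset hs)
  exact h Set.self_mem_Ici ht ht

theorem ptC_cos4 (t : ℝ) : |1 - Real.cos t - t ^ 2 / 2| ≤ t ^ 4 / 24 := by
  have key : ∀ s : ℝ, 0 ≤ s → Real.cos s ≤ 1 - s ^ 2 / 2 + s ^ 4 / 24 := by
    intro s hs
    have h := ptC_mono (f := fun s => s ^ 4 / 24 - s ^ 2 / 2 - Real.cos s)
      (f' := fun s => s ^ 3 / 6 - s + Real.sin s) (fun s => ?_)
      (fun s hs => by linarith [Real.sin_ge_sub_cube hs]) hs
    · simp only [Real.cos_zero] at h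
      linarith
    · refine ((((hasDerivAt_pow 4 s).div_const 24).sub ((hasDerivAt_pow 2 s).div_const 2)).sub
        (Real.hasDerivAt_cos s)).congr_deriv ?_
      norm_num
      ring
  have h1 : Real.cos t ≤ 1 - t ^ 2 / 2 + t ^ 4 / 24 := by
    rcases le_total 0 t with h | h
    · exact key t h
    · have h2 := key (-t) (by linarith)
      rw [Real.cos_neg] at h2
      calc Real.cos t ≤ 1 - (-t) ^ 2 / 2 + (-t) ^ 4 / 24 := h2
        _ = 1 - t ^ 2 / 2 + t ^ 4 / 24 := by ring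
  have h2 : 1 - t ^ 2 / 2 ≤ Real.cos t := Real.one_sub_sq_div_two_le_cos
  have h3 : 0 ≤ t ^ 4 / 24 := by positivity
  rw [abs_le]
  constructor <;> linarith

theorem ptC_sin4 (t : ℝ) : |t * Real.sin t - t ^ 2| ≤ t ^ 4 / 6 := by
  have h1 : t * Real.sin t - t ^ 2 = -(t * (t - Real.sin t)) := by ring
  rw [h1, abs_neg, abs_mul]
  calc |t| * |t - Real.sin t| ≤ |t| * (|t| ^ 3 / 6) :=
        mul_le_mul_of_nonneg_left (Real.abs_sub_sin_le t) (abs_nonneg t)
    _ = |t| ^ 4 / 6 := by ring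
    _ = t ^ 4 / 6 := by rw [Even.pow_abs ⟨2, rfl⟩]

theorem ptC_exp2 {t : ℝ} (ht : 0 ≤ t) : Real.exp t - 1 - t ≤ t ^ 2 * Real.exp t / 2 := by
  have h := ptC_mono (f := fun s => s ^ 2 / 2 + (1 + s) * Real.exp (-s))
    (f' := fun s => s * (1 - Real.exp (-s))) (fun s => ?_) (fun s hs => ?_) ht
  · simp only [neg_zero, Real.exp_zero] at h
    have h1 : Real.exp (-t) * Real.exp t = 1 := by rw [← Real.exp_add]; simp
    have h2 := Real.exp_pos t
    have h3 := mul_le_mul_of_nonneg_right h h2.le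
    have h4 : (t ^ 2 / 2 + (1 + t) * Real.exp (-t)) * Real.exp t =
        t ^ 2 * Real.exp t / 2 + (1 + t) * (Real.exp (-t) * Real.exp t) := by ring
    rw [h4, h1] at h3
    linarith
  · refine (((hasDerivAt_pow 2 s).div_const 2).add (((hasDerivAt_id s).const_add 1).mul
      (hasDerivAt_neg s).exp)).congr_deriv ?_
    simp only [id]
    norm_num
    ring
  · exact mul_nonneg hs (sub_nonneg.2 (Real.exp_le_one_iff.2 (by linarith)))

theorem ptC_h {t : ℝ} (ht : |t| ≤ 42 / 100) :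
    2 * (Real.cos t - 1) + t * Real.sin t ≤ 0 ∧
      -(2 * (Real.cos t - 1) + t * Real.sin t) ≤ t ^ 4 / 12 := by
  have key : ∀ s : ℝ, 0 ≤ s → s ≤ 42 / 100 → 2 * (Real.cos s - 1) + s * Real.sin s ≤ 0 ∧
      -(2 * (Real.cos s - 1) + s * Real.sin s) ≤ s ^ 4 / 12 := by
    intro s hs hs'
    constructor
    · have h1 := ptC_cos4 s
      have h2 : Real.sin s ≤ s - s ^ 3 / 6 + s ^ 5 / 120 := by
        have h := ptC_mono (f := fun s => s - s ^ 3 / 6 + s ^ 5 / 120 - Real.sin s)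
          (f' := fun s => 1 - s ^ 2 / 2 + s ^ 4 / 24 - Real.cos s) (fun s => ?_)
          (fun s _ => by linarith [(abs_le.1 (ptC_cos4 s)).1]) hs
        · simp only [Real.sin_zero] at h
          linarith
        · refine ((((hasDerivAt_id s).sub ((hasDerivAt_pow 3 s).div_const 6)).add
            ((hasDerivAt_pow 5 s).div_const 120)).sub (Real.hasDerivAt_sin s)).congr_deriv ?_
          norm_num
          ring
      have h3 := mul_le_mul_of_nonneg_left h2 hs
      have h4 := (abs_le.1 h1).1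
      have h5 : s ^ 2 ≤ 1 := by nlinarith
      have h6 : s ^ 4 * s ^ 2 ≤ s ^ 4 * 1 := mul_le_mul_of_nonneg_left h5 (by positivity)
      have h7 : 0 ≤ s ^ 4 := by positivity
      nlinarith
    · have h1 : ∀ u : ℝ, 0 ≤ u → 0 ≤ u ^ 3 / 3 + u * Real.cos u - Real.sin u := by
        intro u hu
        have h := ptC_mono (f := fun s => s ^ 3 / 3 + s * Real.cos s - Real.sin s)
          (f' := fun s => s * (s - Real.sin s)) (fun s => ?_)
          (fun s hs => mul_nonneg hs (sub_nonneg.2 (Real.sin_le hs))) hu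
        · simpa using h
        · refine ((((hasDerivAt_pow 3 s).div_const 3).add ((hasDerivAt_id s).mul
            (Real.hasDerivAt_cos s))).sub (Real.hasDerivAt_sin s)).congr_deriv ?_
          simp only [id]
          norm_num
          ring
      have h := ptC_mono (f := fun s => s ^ 4 / 12 + (2 * (Real.cos s - 1) + s * Real.sin s))
        (f' := fun s => s ^ 3 / 3 + s * Real.cos s - Real.sin s) (fun s => ?_) h1 hs
      · simp only [Real.cos_zero, Real.sin_zero] at h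
        linarith
      · refine (((hasDerivAt_pow 4 s).div_const 12).add
          ((((Real.hasDerivAt_cos s).sub_const 1).const_mul 2).add ((hasDerivAt_id s).mul
            (Real.hasDerivAt_sin s)))).congr_deriv ?_
        simp only [id]
        norm_num
        ring
  rcases le_total 0 t with h | h
  · exact key t h ((le_abs_self t).trans ht)
  · have h2 := key (-t) (by linarith) ((neg_le_abs t).trans ht)
    rw [Real.cos_neg, Real.sin_neg, neg_mul_neg, Even.neg_pow ⟨2, rfl⟩] at h2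
    exact h2

theorem ptC_eq1 (hq : q.Ok) : eq1 q x y = (q.et * x) ^ 2 := by
  rw [eq1, ep1_eq hq, abs_mul_abs_self, sq]

theorem ptC_eq2 (hq : q.Ok) : eq2 q x y = (q.et * y) ^ 2 := by
  rw [eq2, ep2_eq hq, abs_mul_abs_self, sq]

theorem ptC_gamD (hq : q.Ok) {z : ℝ} (hz : |q.et * z| ≤ 42 / 100) :
    gamD q (q.et * z) ≤ 0 ∧ -gamD q (q.et * z) ≤ 1 / 24 * (|z| * |z| * (q.et * z) ^ 2) := by
  obtain ⟨h1, h2⟩ := ptC_h hz
  have h3 : gamD q (q.et * z) = q.la * (2 * (Real.cos (q.et * z) - 1) +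
      q.et * z * Real.sin (q.et * z)) := by
    unfold gamD
    ring
  have h4 : 2 * q.la * q.et ^ 2 = 1 := by rw [← hq.ks]; exact hq.laks
  rw [h3]
  refine ⟨mul_nonpos_of_nonneg_of_nonpos hq.la.le h1, ?_⟩
  rw [← mul_neg, abs_mul_abs_self]
  refine (mul_le_mul_of_nonneg_left h2 hq.la.le).trans (le_of_eq ?_)
  linear_combination (z ^ 2 * (q.et * z) ^ 2 / 24) * h4

theorem ptC_Q2 (hq : q.Ok) (p r : ℝ) :
    Q2F q p r = q.ccp / 2 * (p ^ 2 + r ^ 2) + q.cd / 2 * (r - p) ^ 2 + q.cv / 2 * p ^ 2 +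
      q.ca * (q.m * (r - p) + r) ^ 2 - q.u * q.mp * q.im * ((q.m * (r - p) + r) * r) := by
  have hm : q.m ≠ 0 := by linarith [hq.m]
  unfold Q2F Pr.ca Pr.im Pr.mu
  field_simp
  ring

theorem ptC_cbt (hq : q.Ok) :
    |q.u * q.mp * q.im * ((q.m * (q.et * y - q.et * x) + q.et * y) * (q.et * y))| ≤
      ecbt q x y := by
  have hm : 0 ≤ q.im := inv_nonneg.2 (by linarith [hq.m])
  unfold ecbt Pr.cb Pr.Mp
  rw [abs_mul, abs_mul, abs_mul, abs_of_nonneg hq.u, abs_of_nonneg hm, ep2_eq hq,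
    abs_mul (q.m * (q.et * y - q.et * x) + q.et * y)]
  have h1 := abs_al1_le (x := x) (y := y) hq
  have h2 := hq.u
  gcongr

theorem ptC_dd (_hq : q.Ok) (c : ℝ) :
    q.et * c * edX q x y * ed q x y = c * (q.et * y - q.et * x) ^ 2 := by
  unfold ed edX
  have h : |y - x| * |y - x| = (y - x) * (y - x) := abs_mul_abs_self _
  linear_combination (q.et ^ 2 * c) * h

theorem ptC_pp (_hq : q.Ok) (c : ℝ) :
    q.et * c * eX1 q x y * ep1 q x y = c * (q.et * x) ^ 2 := by
  unfold ep1 eX1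
  have h : |x| * |x| = x * x := abs_mul_abs_self _
  linear_combination (q.et ^ 2 * c) * h

theorem ptC_AA (hq : q.Ok) : (q.m * (q.et * y - q.et * x) + q.et * y) ^ 2 ≤ eAA q x y := by
  have h1 := abs_al1_le (x := x) (y := y) hq
  rw [eAA, ← sq, ← sq_abs]
  exact pow_le_pow_left₀ (abs_nonneg _) h1 2

theorem ptC_abs_mul {a b A B : ℝ} (ha : |a| ≤ A) (hb : |b| ≤ B) : |a * b| ≤ A * B := by
  rw [abs_mul]
  exact mul_le_mul ha hb (abs_nonneg _) ((abs_nonneg _).trans ha)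

theorem ptC_T6 (hq : q.Ok) :
    |1 - gg q (q.et * x) (q.et * y) * Real.cos (al q (q.et * x) (q.et * y)) -
      (q.m * (q.et * y - q.et * x) + q.et * y) ^ 2 / 2 + q.m * (q.et * y - q.et * x) ^ 2 / 2| ≤
      (1 / 24) * (eAA q x y * eAA q x y) + emd3 q x y * eA q x y +
        (1 / 4) * (emd3 q x y * ed q x y) + (1 / 2) * (egm1 q x y * (ee1 q x y + eAA q x y)) := by
  have hal := abs_al_le (x := x) (y := y) hq
  have hal1 := abs_al1_le (x := x) (y := y) hq
  have hvt := vt_sub_le (x := x) (y := y) hq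
  have hg1 := one_le_gg hq (q.et * x) (q.et * y)
  have hg2 := gg_sub_one_le (x := x) (y := y) hq
  have he0 := eo_nonneg hq (q.et * x) (q.et * y)
  have he1 := eo_le (x := x) (y := y) hq
  have hm : 0 ≤ q.m := by linarith [hq.m]
  have hA2 : al q (q.et * x) (q.et * y) ^ 2 ≤ eAA q x y := by
    rw [eAA, ← sq, ← sq_abs]
    exact pow_le_pow_left₀ (abs_nonneg _) hal 2
  have b1 : |1 - Real.cos (al q (q.et * x) (q.et * y)) - al q (q.et * x) (q.et * y) ^ 2 / 2| ≤
      (1 / 24) * (eAA q x y * eAA q x y) := by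
    refine (ptC_cos4 _).trans ?_
    have h1 := mul_le_mul hA2 hA2 (sq_nonneg _) ((sq_nonneg _).trans hA2)
    linarith
  have b2 : |(al q (q.et * x) (q.et * y) ^ 2 - (q.m * (q.et * y - q.et * x) + q.et * y) ^ 2) / 2| ≤
      emd3 q x y * eA q x y := by
    have h1 : (al q (q.et * x) (q.et * y) ^ 2 - (q.m * (q.et * y - q.et * x) + q.et * y) ^ 2) / 2 =
        (vt q (q.et * x) (q.et * y) - q.m * (q.et * y - q.et * x)) *
          ((al q (q.et * x) (q.et * y) + (q.m * (q.et * y - q.et * x) + q.et * y)) / 2) := by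
      unfold al
      ring
    rw [h1]
    refine ptC_abs_mul hvt ?_
    rw [abs_div, abs_two]
    linarith [abs_add_le (al q (q.et * x) (q.et * y)) (q.m * (q.et * y - q.et * x) + q.et * y)]
  have b3 : |gg q (q.et * x) (q.et * y) - 1 - eo q (q.et * x) (q.et * y)| ≤
      (1 / 2) * (egm1 q x y * ee1 q x y) := by
    have h1 := ptC_exp2 he0
    have h2 := Real.add_one_le_exp (eo q (q.et * x) (q.et * y))
    have h3 : eo q (q.et * x) (q.et * y) ^ 2 ≤ ee1 q x y ^ 2 := pow_le_pow_left₀ he0 he1 2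
    have h4 := mul_le_mul_of_nonneg_right h3 (Real.exp_pos (eo q (q.et * x) (q.et * y))).le
    unfold egm1 eG gg
    rw [abs_of_nonneg (by linarith)]
    linarith
  have b4 : |eo q (q.et * x) (q.et * y) - q.m * (q.et * y - q.et * x) ^ 2 / 2| ≤
      (1 / 4) * (emd3 q x y * ed q x y) := by
    have h1 : eo q (q.et * x) (q.et * y) - q.m * (q.et * y - q.et * x) ^ 2 / 2 =
        q.m * (1 - Real.cos (q.et * y - q.et * x) - (q.et * y - q.et * x) ^ 2 / 2) := by
      unfold eo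
      ring
    rw [h1, abs_mul, abs_of_nonneg hm]
    refine (mul_le_mul_of_nonneg_left (ptC_cos4 _) hm).trans (le_of_eq ?_)
    rw [emd3, emdd, emd_eq hq, ed_eq hq, ← Even.pow_abs (⟨2, rfl⟩ : Even 4)]
    ring
  have b5 : |(gg q (q.et * x) (q.et * y) - 1) * (1 - Real.cos (al q (q.et * x) (q.et * y)))| ≤
      egm1 q x y * ((1 / 2) * eAA q x y) := by
    refine ptC_abs_mul (by rw [abs_of_nonneg (by linarith)]; exact hg2) ?_
    have h1 := Real.cos_le_one (al q (q.et * x) (q.et * y))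
    have h2 : 1 - al q (q.et * x) (q.et * y) ^ 2 / 2 ≤ Real.cos (al q (q.et * x) (q.et * y)) :=
      Real.one_sub_sq_div_two_le_cos
    rw [abs_of_nonneg (by linarith)]
    linarith
  rw [abs_le] at b1 b2 b3 b4 b5 ⊢
  constructor <;> nlinarith [b1.1, b1.2, b2.1, b2.2, b3.1, b3.2, b4.1, b4.2, b5.1, b5.2]

theorem ptC_T7 (hq : q.Ok) :
    |gg q (q.et * x) (q.et * y) * (Real.sin (al q (q.et * x) (q.et * y)) *
        alD q (q.et * x) (q.et * y) - eoD q (q.et * x) (q.et * y) *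
          Real.cos (al q (q.et * x) (q.et * y))) + (q.mp - q.m) / 2 * (q.et * y - q.et * x) ^ 2 -
        (q.m * (q.et * y - q.et * x) + q.et * y) *
          (q.mu * (q.et * y - q.et * x) - q.et * y / 2)| ≤
      eapp q x y * esa q x y + en3 q x y * eA q x y +
        (egm1 q x y + (1 / 2) * eAA q x y) * ee1p q x y + en4 q x y := by
  have hal := abs_al_le (x := x) (y := y) hq
  have hg1 := one_le_gg hq (q.et * x) (q.et * y)
  have hg2 := gg_sub_one_le (x := x) (y := y) hq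
  have hA2 : al q (q.et * x) (q.et * y) ^ 2 ≤ eAA q x y := by
    rw [eAA, ← sq, ← sq_abs]
    exact pow_le_pow_left₀ (abs_nonneg _) hal 2
  have b1 := ptC_abs_mul (abs_alD_le (x := x) (y := y) hq) (sa_le (x := x) (y := y) hq)
  have b2 := ptC_abs_mul (vtD_sub_le (x := x) (y := y) hq) (abs_al1_le (x := x) (y := y) hq)
  have b3 : |(gg q (q.et * x) (q.et * y) - 1) * Real.cos (al q (q.et * x) (q.et * y)) *
      eoD q (q.et * x) (q.et * y)| ≤ egm1 q x y * 1 * ee1p q x y :=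
    ptC_abs_mul (ptC_abs_mul (by rw [abs_of_nonneg (by linarith)]; exact hg2)
      (Real.abs_cos_le_one _)) (abs_eoD_le hq)
  have b4 : |(1 - Real.cos (al q (q.et * x) (q.et * y))) * eoD q (q.et * x) (q.et * y)| ≤
      ((1 / 2) * eAA q x y) * ee1p q x y := by
    refine ptC_abs_mul ?_ (abs_eoD_le hq)
    have h1 := Real.cos_le_one (al q (q.et * x) (q.et * y))
    have h2 : 1 - al q (q.et * x) (q.et * y) ^ 2 / 2 ≤ Real.cos (al q (q.et * x) (q.et * y)) :=
      Real.one_sub_sq_div_two_le_cos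
    rw [abs_of_nonneg (by linarith)]
    linarith
  have b5 := eoD_sub_le (x := x) (y := y) hq
  have e : gg q (q.et * x) (q.et * y) * (Real.sin (al q (q.et * x) (q.et * y)) *
        alD q (q.et * x) (q.et * y) - eoD q (q.et * x) (q.et * y) *
          Real.cos (al q (q.et * x) (q.et * y))) + (q.mp - q.m) / 2 * (q.et * y - q.et * x) ^ 2 -
        (q.m * (q.et * y - q.et * x) + q.et * y) *
          (q.mu * (q.et * y - q.et * x) - q.et * y / 2) =
      alD q (q.et * x) (q.et * y) *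
          (gg q (q.et * x) (q.et * y) * Real.sin (al q (q.et * x) (q.et * y)) -
            (q.m * (q.et * y - q.et * x) + q.et * y)) +
        (vtD q (q.et * x) (q.et * y) - q.mu * (q.et * y - q.et * x)) *
          (q.m * (q.et * y - q.et * x) + q.et * y) -
        (gg q (q.et * x) (q.et * y) - 1) * Real.cos (al q (q.et * x) (q.et * y)) *
          eoD q (q.et * x) (q.et * y) +
        (1 - Real.cos (al q (q.et * x) (q.et * y))) * eoD q (q.et * x) (q.et * y) -
        (eoD q (q.et * x) (q.et * y) - (q.mp - q.m) / 2 * (q.et * y - q.et * x) ^ 2) := by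
    unfold alD
    ring
  rw [e]
  rw [abs_le] at b1 b2 b3 b4 b5 ⊢
  constructor <;> linarith [b1.1, b1.2, b2.1, b2.2, b3.1, b3.2, b4.1, b4.2, b5.1, b5.2]

theorem ptC_T8 (hq : q.Ok) (hx : |q.et * x| ≤ 42 / 100) (hy : |q.et * y| ≤ 42 / 100) :
    |msum fun κ a e => ktD q κ a e * (gg q (q.et * x) (q.et * y) ^ (a + 1) *
        Real.cos (omg q (q.et * x) (q.et * y) a e) - 1) +
      kt q κ a e * (gg q (q.et * x) (q.et * y) ^ (a + 1) *
        ((a + 1) * eoD q (q.et * x) (q.et * y) * Real.cos (omg q (q.et * x) (q.et * y) a e) -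
        Real.sin (omg q (q.et * x) (q.et * y) a e) * omgD q (q.et * x) (q.et * y) a e))| ≤
      eug q x y * (q.rho3 * (q.ell * eeh q x y) + q.rho1 * ee1p q x y +
        q.rho2 * (eA q x y * eapp q x y)) := by
  have hA : 0 ≤ eA q x y := (abs_nonneg _).trans (abs_al_le hq)
  have happ : 0 ≤ eapp q x y := (abs_nonneg _).trans (abs_alD_le hq)
  have h1p : 0 ≤ ee1p q x y := (abs_nonneg _).trans (abs_eoD_le hq)
  have hell : 0 ≤ q.ell := by
    have := hq.be
    unfold Pr.ell Pr.Mp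
    positivity
  have heh : 0 ≤ eeh q x y := by
    have h1 := (eo_nonneg hq (q.et * x) (q.et * y)).trans (eo_le hq)
    have h2 : 0 ≤ eAA q x y := mul_nonneg hA hA
    unfold eeh
    positivity
  have hg : ∀ a : ℕ, 0 ≤ gg q (q.et * x) (q.et * y) ^ (a + 1) := fun a =>
    pow_nonneg (zero_le_one.trans (one_le_gg hq _ _)) _
  have b1 := msum_le3 hq hx hy (f := fun κ a e => ktD q κ a e *
      (gg q (q.et * x) (q.et * y) ^ (a + 1) * Real.cos (omg q (q.et * x) (q.et * y) a e) - 1))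
    (mul_nonneg hell heh) fun κ a e he =>
      (ptC_abs_mul (abs_ktD_le hq κ a he) (gcos_le hq a he)).trans (le_of_eq (by ring))
  have b2 := msum_le1 hq hx hy (f := fun κ a e => kt q κ a e *
      (gg q (q.et * x) (q.et * y) ^ (a + 1) * ((a + 1) * eoD q (q.et * x) (q.et * y) *
        Real.cos (omg q (q.et * x) (q.et * y) a e)))) h1p fun κ a e _ =>
      (ptC_abs_mul le_rfl (ptC_abs_mul (abs_of_nonneg (hg a)).le (ptC_abs_mul
        (ptC_abs_mul (abs_of_nonneg (by positivity : (0 : ℝ) ≤ (a : ℝ) + 1)).le (abs_eoD_le hq))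
        (Real.abs_cos_le_one _)))).trans (le_of_eq (by ring))
  have b3 := msum_le2 hq hx hy (f := fun κ a e => kt q κ a e *
      (gg q (q.et * x) (q.et * y) ^ (a + 1) * (Real.sin (omg q (q.et * x) (q.et * y) a e) *
        omgD q (q.et * x) (q.et * y) a e))) (mul_nonneg hA happ) fun κ a e he =>
      (ptC_abs_mul le_rfl (ptC_abs_mul (abs_of_nonneg (hg a)).le (ptC_abs_mul
        (Real.abs_sin_le_abs.trans (abs_omg_le hq a he)) (abs_omgD_le hq a he)))).trans
        (le_of_eq (by ring))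
  have e : ∀ f1 f2 f3 f : ℝ → ℕ → ℕ → ℝ, (∀ κ a e, f κ a e = f1 κ a e + f2 κ a e - f3 κ a e) →
      msum f = msum f1 + msum f2 - msum f3 := by
    intro f1 f2 f3 f h
    simp only [msum, h]
    ring
  rw [e (fun κ a e => ktD q κ a e *
      (gg q (q.et * x) (q.et * y) ^ (a + 1) * Real.cos (omg q (q.et * x) (q.et * y) a e) - 1))
    (fun κ a e => kt q κ a e *
      (gg q (q.et * x) (q.et * y) ^ (a + 1) * ((a + 1) * eoD q (q.et * x) (q.et * y) *
        Real.cos (omg q (q.et * x) (q.et * y) a e))))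
    (fun κ a e => kt q κ a e *
      (gg q (q.et * x) (q.et * y) ^ (a + 1) * (Real.sin (omg q (q.et * x) (q.et * y) a e) *
        omgD q (q.et * x) (q.et * y) a e))) _ fun κ a e => by ring]
  rw [abs_le] at b1 b2 b3 ⊢
  constructor <;> linarith [b1.1, b1.2, b2.1, b2.2, b3.1, b3.2]

theorem gamD_bound (hq : q.Ok) (hx : |q.et * x| ≤ 42 / 100) (hy : |q.et * y| ≤ 42 / 100) :
    gamD q (q.et * x) + gamD q (q.et * y) ≤ 0 ∧
      -(gamD q (q.et * x) + gamD q (q.et * y)) ≤ elc4 q x y := by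
  obtain ⟨h1, h2⟩ := ptC_gamD hq hx
  obtain ⟨h3, h4⟩ := ptC_gamD hq hy
  refine ⟨by linarith, ?_⟩
  rw [elc4, ptC_eq1 hq, ptC_eq2 hq, eX1, eX2]
  linarith

theorem D4_le (hq : q.Ok) (hx : |q.et * x| ≤ 42 / 100) (hy : |q.et * y| ≤ 42 / 100) :
    |aD q (q.et * x) (q.et * y) - (gamD q (q.et * x) + gamD q (q.et * y)) -
      Q2F q (q.et * x) (q.et * y)| ≤ eD4 q x y := by
  have hc4 : ec4 q x y = (q.et * x) ^ 4 + (q.et * y) ^ 4 := by
    rw [ec4, ptC_eq1 hq, ptC_eq2 hq]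
    ring
  have hp4 : |q.et * x| ^ 4 = (q.et * x) ^ 4 := Even.pow_abs ⟨2, rfl⟩ _
  have hp2 : |q.et * x| ^ 2 = (q.et * x) ^ 2 := sq_abs _
  have b1 : |q.nCp * ((1 - Real.cos (q.et * x) - (q.et * x) ^ 2 / 2) +
      (1 - Real.cos (q.et * y) - (q.et * y) ^ 2 / 2))| ≤ (1 / 24) * (q.nCp * ec4 q x y) := by
    refine (ptC_abs_mul (abs_of_nonneg hq.nCp).le ((abs_add_le _ _).trans
      (add_le_add (ptC_cos4 _) (ptC_cos4 _)))).trans (le_of_eq ?_)
    rw [hc4]
    ring
  have b2 : |q.C / 2 * ((q.et * x * Real.sin (q.et * x) - (q.et * x) ^ 2) +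
      (q.et * y * Real.sin (q.et * y) - (q.et * y) ^ 2))| ≤ (1 / 12) * (q.C * ec4 q x y) := by
    refine (ptC_abs_mul (abs_of_nonneg (by linarith [hq.C])).le ((abs_add_le _ _).trans
      (add_le_add (ptC_sin4 _) (ptC_sin4 _)))).trans (le_of_eq ?_)
    rw [hc4]
    ring
  have b3 : |q.Vp * (1 - Real.cos (q.et * x) - (q.et * x) ^ 2 / 2)| ≤
      (1 / 24) * (q.uVpa * ep1 q x y) * (eq1 q x y * ep1 q x y) := by
    refine (ptC_abs_mul le_rfl (ptC_cos4 _)).trans (le_of_eq ?_)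
    rw [ptC_eq1 hq, ep1_eq hq, Pr.uVpa, ← hp4, ← hp2]
    ring
  have b4 : |q.V / 2 * (q.et * x * Real.sin (q.et * x) - (q.et * x) ^ 2)| ≤
      (1 / 12) * evp q x y * (eq1 q x y * ep1 q x y) := by
    refine (ptC_abs_mul (abs_of_nonneg (by linarith [hq.V])).le (ptC_sin4 _)).trans (le_of_eq ?_)
    rw [ptC_eq1 hq, ep1_eq hq, evp_eq hq, ← hp4, ← hp2]
    ring
  have b5 := eoD_sub_le (x := x) (y := y) hq
  have b6 := ptC_abs_mul (le_refl |q.up|) (ptC_T6 (x := x) (y := y) hq)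
  have b7 := ptC_abs_mul (abs_of_nonneg hq.u).le (ptC_T7 (x := x) (y := y) hq)
  have b8 := ptC_T8 hq hx hy
  unfold aD aBD Q2F eD4 Pr.ccp Pr.cd Pr.cv Pr.uUp
  rw [abs_le] at b1 b2 b3 b4 b5 b6 b7 b8 ⊢
  constructor <;> linarith [b1.1, b1.2, b2.1, b2.2, b3.1, b3.2, b4.1, b4.2, b5.1, b5.2, b6.1,
    b6.2, b7.1, b7.2, b8.1, b8.2]

theorem Q2_le (hq : q.Ok) : Q2F q (q.et * x) (q.et * y) ≤ eQp q x y := by
  rw [ptC_Q2 hq, eQp, Pr.ucdp, Pr.ucvp, ptC_dd hq, ptC_pp hq, er2, ptC_eq1 hq, ptC_eq2 hq, Pr.ucap]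
  have h1 := (abs_le.1 (ptC_cbt (x := x) (y := y) hq)).1
  have h2 := mul_le_mul_of_nonneg_right (le_max_left q.cd 0) (sq_nonneg (q.et * y - q.et * x))
  have h3 := mul_le_mul_of_nonneg_right (le_max_left q.cv 0) (sq_nonneg (q.et * x))
  have h4 := mul_le_mul (le_max_left q.ca 0) (ptC_AA (x := x) (y := y) hq) (sq_nonneg _)
    (le_max_right _ _)
  linarith

theorem neg_Q2_le (hq : q.Ok) : -Q2F q (q.et * x) (q.et * y) ≤ eQm q x y := by
  rw [ptC_Q2 hq, eQm, Pr.ucdm, Pr.ucvm, ptC_dd hq, ptC_pp hq, Pr.ucam]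
  have h1 := (abs_le.1 (ptC_cbt (x := x) (y := y) hq)).2
  have h2 := mul_le_mul_of_nonneg_right (le_max_left (-q.cd) 0) (sq_nonneg (q.et * y - q.et * x))
  have h3 := mul_le_mul_of_nonneg_right (le_max_left (-q.cv) 0) (sq_nonneg (q.et * x))
  have h4 := mul_le_mul (le_max_left (-q.ca) 0) (ptC_AA (x := x) (y := y) hq) (sq_nonneg _)
    (le_max_right _ _)
  have h5 : 0 ≤ q.ccp / 2 * ((q.et * x) ^ 2 + (q.et * y) ^ 2) := by
    have := hq.C
    have := hq.nCp
    unfold Pr.ccp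
    positivity
  linarith

theorem eQp_nonneg (hq : q.Ok) : 0 ≤ eQp q x y := by
  rw [eQp, Pr.ucdp, Pr.ucvp, ptC_dd hq, ptC_pp hq, er2, ptC_eq1 hq, ptC_eq2 hq, Pr.ucap]
  have h1 := (abs_nonneg _).trans (ptC_cbt (x := x) (y := y) hq)
  have h2 := (sq_nonneg _).trans (ptC_AA (x := x) (y := y) hq)
  have h3 := hq.C
  have h4 := hq.nCp
  unfold Pr.ccp
  positivity

theorem eQm_nonneg (hq : q.Ok) : 0 ≤ eQm q x y := by
  rw [eQm, Pr.ucdm, Pr.ucvm, ptC_dd hq, ptC_pp hq, Pr.ucam]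
  have h1 := (abs_nonneg _).trans (ptC_cbt (x := x) (y := y) hq)
  have h2 := (sq_nonneg _).trans (ptC_AA (x := x) (y := y) hq)
  positivity

end Pool.Agent.Lib.MP_6cad4c_al
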