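import Pool.Agent.Lib.MP_6cad4c_al.PtA
import Pool.Agent.Lib.MP_6cad4c_al.PtB
import Pool.Agent.Lib.MP_6cad4c_al.PtC

namespace Pool.Agent.Lib.MP_6cad4c_al

variable {q : Pr} {x y : ℝ}

theorem hb_P {L0 Lm aD th thD th1 tp1 Q2 T3 D3 D4 D2 : ℝ} (hL : -L0 ≤ Lm) (hL0 : 0 ≤ Lm)
    (hT : |th - th1| ≤ T3) (hD : |thD - tp1| ≤ D3) (h1 : aD ≤ Q2 + D4) (h2 : |aD| ≤ D2) :
    (L0 + aD) * Real.cos th - thD * Real.sin th ≤
      (L0 + Lm / 2 * th1 ^ 2 + Q2 - th1 * tp1) +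
      (1 / 2 * (Lm * (T3 * (T3 + |th1| + |th1|))) + D4 +
        1 / 2 * (D2 * ((T3 + |th1|) * (T3 + |th1|))) + |tp1| * T3 + D3 * (T3 + |th1|) +
        1 / 6 * ((D3 + |tp1|) * (T3 + |th1|) * ((T3 + |th1|) * (T3 + |th1|)))) := by
  have t0 : 0 ≤ T3 := (abs_nonneg _).trans hT
  have d0 : 0 ≤ D3 := (abs_nonneg _).trans hD
  have d2 : 0 ≤ D2 := (abs_nonneg _).trans h2
  have a1 : |th| ≤ T3 + |th1| := by
    have := abs_add_le (th - th1) th1
    rw [sub_add_cancel] at this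
    linarith
  have a2 : |thD| ≤ D3 + |tp1| := by
    have := abs_add_le (thD - tp1) tp1
    rw [sub_add_cancel] at this
    linarith
  have c0 : 0 ≤ 1 - Real.cos th := sub_nonneg.2 (Real.cos_le_one th)
  have c1 : 1 - Real.cos th ≤ th ^ 2 / 2 := by linarith [Real.one_sub_sq_div_two_le_cos (x := th)]
  have s1 : th ^ 2 ≤ th1 ^ 2 + T3 * (T3 + |th1| + |th1|) := by
    have e : th ^ 2 - th1 ^ 2 = (th - th1) * (th + th1) := by ring
    have h3 : (th - th1) * (th + th1) ≤ T3 * (T3 + |th1| + |th1|) := by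
      refine (le_abs_self _).trans ?_
      rw [abs_mul]
      exact mul_le_mul hT ((abs_add_le _ _).trans (by linarith)) (abs_nonneg _) t0
    linarith
  have s2 : th ^ 2 ≤ (T3 + |th1|) * (T3 + |th1|) := by
    rw [← sq_abs, sq]
    exact mul_le_mul a1 a1 (abs_nonneg _) (by positivity)
  have b1 : -L0 * (1 - Real.cos th) ≤ Lm * ((th1 ^ 2 + T3 * (T3 + |th1| + |th1|)) / 2) :=
    mul_le_mul hL (by linarith) c0 hL0
  have b2 : -aD * (1 - Real.cos th) ≤ D2 * ((T3 + |th1|) * (T3 + |th1|) / 2) :=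
    mul_le_mul ((neg_le_abs _).trans h2) (by linarith) c0 d2
  have b3 : thD * (th - Real.sin th) ≤ (D3 + |tp1|) * ((T3 + |th1|) ^ 3 / 6) := by
    refine (le_abs_self _).trans ?_
    rw [abs_mul]
    refine mul_le_mul a2 ((Real.abs_sub_sin_le th).trans ?_) (abs_nonneg _) (by positivity)
    gcongr
  have b4 : -(tp1 * (th - th1)) ≤ |tp1| * T3 := by
    refine (neg_le_abs _).trans ?_
    rw [abs_mul]
    gcongr
  have b5 : -((thD - tp1) * th) ≤ D3 * (T3 + |th1|) := by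
    refine (neg_le_abs _).trans ?_
    rw [abs_mul]
    gcongr
  linarith

theorem hb_exp {a s P P0 Pe QQ Pm am : ℝ} (hP : P ≤ P0 + Pe) (hPe : 0 ≤ Pe) (ha : a ≤ s)
    (hs : 0 ≤ s) (h1 : P0 ≤ QQ) (hQ : 0 ≤ QQ) (h2 : -P0 ≤ Pm) (hm : 0 ≤ Pm) (h3 : -a ≤ am)
    (h4 : 0 ≤ am) : Real.exp a * P ≤ P0 + Real.exp s * (Pe + s * QQ + am * Pm) := by
  have e0 := Real.exp_pos a
  have e1 : Real.exp a ≤ Real.exp s := Real.exp_le_exp.2 ha
  have e2 : 1 ≤ Real.exp s := Real.one_le_exp hs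
  have b1 : Real.exp a * P ≤ Real.exp a * (P0 + Pe) := by gcongr
  have b2 : Real.exp a * Pe ≤ Real.exp s * Pe := by gcongr
  have b3 : 0 ≤ Real.exp s * (s * QQ) := by positivity
  have b4 : am * Pm ≤ Real.exp s * (am * Pm) := le_mul_of_one_le_left (by positivity) e2
  have b5 : 0 ≤ am * Pm := by positivity
  rcases le_total 0 a with h | h
  · have e3 : 1 ≤ Real.exp a := Real.one_le_exp h
    have e4 : Real.exp s - 1 ≤ Real.exp s * s := by
      have h5 := Real.add_one_le_exp (-s)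
      have h6 : Real.exp s * Real.exp (-s) = 1 := by rw [← Real.exp_add]; simp
      have h7 : Real.exp s * (-s + 1) ≤ Real.exp s * Real.exp (-s) := by gcongr
      linarith
    have b6 : (Real.exp a - 1) * P0 ≤ (Real.exp a - 1) * QQ :=
      mul_le_mul_of_nonneg_left h1 (by linarith)
    have b7 : (Real.exp a - 1) * QQ ≤ (Real.exp s * s) * QQ :=
      mul_le_mul_of_nonneg_right (by linarith) hQ
    linarith
  · have e3 : Real.exp a ≤ 1 := Real.exp_le_one_iff.2 h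
    have e4 := Real.add_one_le_exp a
    have b6 : (1 - Real.exp a) * -P0 ≤ (1 - Real.exp a) * Pm :=
      mul_le_mul_of_nonneg_left h2 (by linarith)
    have b7 : (1 - Real.exp a) * Pm ≤ am * Pm := mul_le_mul_of_nonneg_right (by linarith) hm
    linarith

theorem hb_eam_nonneg (hq : q.Ok) : 0 ≤ eam q x y := by
  have h1 : 0 ≤ ee1 q x y := (eo_nonneg hq _ _).trans (eo_le hq)
  have h2 : 0 ≤ eG q x y := zero_le_one.trans (one_le_gg hq _ _)
  have h3 : 0 ≤ eAA q x y := mul_self_nonneg _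
  have h4 : 0 ≤ er2 q x y := add_nonneg (mul_self_nonneg _) (mul_self_nonneg _)
  have h5 := hq.C
  have h6 := hq.u
  have h7 := hq.sp
  have h8 : 0 ≤ q.rho2 := by
    unfold Pr.rho2 Pr.k1 Pr.k2 Pr.k3 Pr.k4 Pr.s2q Pr.xb
    positivity
  unfold eam egm1 eug eeh
  positivity

theorem PF_le (hq : q.Ok) (hx : |q.et * x| ≤ 42 / 100) (hy : |q.et * y| ≤ 42 / 100) :
    PF q (q.et * x) (q.et * y) ≤ P0F q (q.et * x) (q.et * y) +
      Real.exp (q.qa * ((x ^ 2 + y ^ 2) / 2)) * eEtot q x y := by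
  have hT := T3_le hq hx hy
  have hD := D3_le hq hx hy
  have h4 := abs_le.1 (D4_le hq hx hy)
  obtain ⟨g1, g2⟩ := gamD_bound hq hx hy
  have q1 := Q2_le (x := x) (y := y) hq
  have q2 := neg_Q2_le (x := x) (y := y) hq
  have q3 := eQp_nonneg (x := x) (y := y) hq
  have q4 := eQm_nonneg (x := x) (y := y) hq
  have l1 : -q.L0 ≤ q.Lm := le_max_left _ _
  have l2 : 0 ≤ q.Lm := le_max_right _ _
  have l3 : q.L0 ≤ q.Lp := le_max_left _ _
  have l4 : 0 ≤ q.Lp := le_max_right _ _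
  have h1 : aD q (q.et * x) (q.et * y) ≤ Q2F q (q.et * x) (q.et * y) + eD4 q x y := by linarith
  have h2 : |aD q (q.et * x) (q.et * y)| ≤ eD2 q x y := by
    unfold eD2
    rw [abs_le]
    constructor <;> linarith
  have t0 : 0 ≤ eT3 q x y := (abs_nonneg _).trans hT
  have d3 : 0 ≤ eD3 q x y := (abs_nonneg _).trans hD
  have d4 : 0 ≤ eD4 q x y := by linarith
  have d2 : 0 ≤ eD2 q x y := (abs_nonneg _).trans h2
  have key := hb_P l1 l2 hT hD h1 h2
  have m1 : -(th1F q (q.et * x) (q.et * y) * tp1F q (q.et * x) (q.et * y)) ≤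
      |th1F q (q.et * x) (q.et * y)| * |tp1F q (q.et * x) (q.et * y)| := by
    rw [← abs_mul]
    exact neg_le_abs _
  have m2 : th1F q (q.et * x) (q.et * y) * tp1F q (q.et * x) (q.et * y) ≤
      |th1F q (q.et * x) (q.et * y)| * |tp1F q (q.et * x) (q.et * y)| := by
    rw [← abs_mul]
    exact le_abs_self _
  have m3 : 0 ≤ q.Lm / 2 * th1F q (q.et * x) (q.et * y) ^ 2 := by positivity
  have e1 : eEtot q x y = ePe q x y + q.qa * ((x ^ 2 + y ^ 2) / 2) * eQQ q x y +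
      eam q x y * (q.Lm + eQm q x y + ett q x y) := by
    unfold eEtot eY eX1 eX2
    rw [abs_mul_abs_self, abs_mul_abs_self]
    ring
  have qa := qa_nonneg hq
  rw [e1]
  refine hb_exp (P0 := P0F q (q.et * x) (q.et * y)) ?_ ?_ (aF_le hq hx hy) (by positivity) ?_ ?_
    ?_ ?_ (neg_aF_le hq hx hy) (hb_eam_nonneg hq)
  · unfold ePe eTh2 eDb eTh P0F
    rw [et1_eq, et1p_eq]
    exact key
  · unfold ePe eTh2 eDb eTh
    rw [et1_eq, et1p_eq]
    positivity
  · unfold eQQ ett P0F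
    rw [et1_eq, et1p_eq, abs_mul_abs_self]
    linarith
  · unfold eQQ ett
    rw [et1_eq, et1p_eq]
    positivity
  · unfold ett P0F
    rw [et1_eq, et1p_eq]
    linarith
  · unfold ett
    rw [et1_eq, et1p_eq]
    positivity

@[fun_prop] theorem hb_cont_eo (q : Pr) : Continuous fun p : ℝ × ℝ => eo q p.1 p.2 := by
  unfold eo
  fun_prop

@[fun_prop] theorem hb_cont_eoD (q : Pr) : Continuous fun p : ℝ × ℝ => eoD q p.1 p.2 := by
  unfold eoD
  fun_prop

@[fun_prop] theorem hb_cont_vt (q : Pr) : Continuous fun p : ℝ × ℝ => vt q p.1 p.2 := by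
  unfold vt
  fun_prop

@[fun_prop] theorem hb_cont_vtD (q : Pr) : Continuous fun p : ℝ × ℝ => vtD q p.1 p.2 := by
  unfold vtD
  fun_prop

@[fun_prop] theorem hb_cont_gg (q : Pr) : Continuous fun p : ℝ × ℝ => gg q p.1 p.2 := by
  unfold gg
  fun_prop

@[fun_prop] theorem hb_cont_al (q : Pr) : Continuous fun p : ℝ × ℝ => al q p.1 p.2 := by
  unfold al
  fun_prop

@[fun_prop] theorem hb_cont_alD (q : Pr) : Continuous fun p : ℝ × ℝ => alD q p.1 p.2 := by
  unfold alD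
  fun_prop

@[fun_prop] theorem hb_cont_omg (q : Pr) (a e : ℕ) :
    Continuous fun p : ℝ × ℝ => omg q p.1 p.2 a e := by
  unfold omg
  fun_prop

@[fun_prop] theorem hb_cont_omgD (q : Pr) (a e : ℕ) :
    Continuous fun p : ℝ × ℝ => omgD q p.1 p.2 a e := by
  unfold omgD
  fun_prop

@[fun_prop] theorem hb_cont_gam (q : Pr) : Continuous fun p : ℝ => gam q p := by
  unfold gam
  fun_prop

@[fun_prop] theorem hb_cont_gamD (q : Pr) : Continuous fun p : ℝ => gamD q p := by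
  unfold gamD
  fun_prop

@[fun_prop] theorem hb_cont_aB (q : Pr) : Continuous fun p : ℝ × ℝ => aB q p.1 p.2 := by
  unfold aB msum
  fun_prop

@[fun_prop] theorem hb_cont_thB (q : Pr) : Continuous fun p : ℝ × ℝ => thB q p.1 p.2 := by
  unfold thB msum
  fun_prop

@[fun_prop] theorem hb_cont_aBD (q : Pr) : Continuous fun p : ℝ × ℝ => aBD q p.1 p.2 := by
  unfold aBD msum
  fun_prop

@[fun_prop] theorem hb_cont_thBD (q : Pr) : Continuous fun p : ℝ × ℝ => thBD q p.1 p.2 := by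
  unfold thBD msum
  fun_prop

@[fun_prop] theorem hb_cont_aF (q : Pr) : Continuous fun p : ℝ × ℝ => aF q p.1 p.2 := by
  unfold aF
  fun_prop

@[fun_prop] theorem hb_cont_thF (q : Pr) : Continuous fun p : ℝ × ℝ => thF q p.1 p.2 := by
  unfold thF
  fun_prop

@[fun_prop] theorem hb_cont_aD (q : Pr) : Continuous fun p : ℝ × ℝ => aD q p.1 p.2 := by
  unfold aD
  fun_prop

@[fun_prop] theorem hb_cont_thD (q : Pr) : Continuous fun p : ℝ × ℝ => thD q p.1 p.2 := by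
  unfold thD
  fun_prop

@[fun_prop] theorem hb_cont_th1F (q : Pr) : Continuous fun p : ℝ × ℝ => th1F q p.1 p.2 := by
  unfold th1F
  fun_prop

@[fun_prop] theorem hb_cont_tp1F (q : Pr) : Continuous fun p : ℝ × ℝ => tp1F q p.1 p.2 := by
  unfold tp1F
  fun_prop

@[fun_prop] theorem hb_cont_Q2F (q : Pr) : Continuous fun p : ℝ × ℝ => Q2F q p.1 p.2 := by
  unfold Q2F
  fun_prop

@[fun_prop] theorem hb_cont_P0F (q : Pr) : Continuous fun p : ℝ × ℝ => P0F q p.1 p.2 := by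
  unfold P0F
  fun_prop

@[fun_prop] theorem hb_cont_PF (q : Pr) : Continuous fun p : ℝ × ℝ => PF q p.1 p.2 := by
  unfold PF
  fun_prop

@[fun_prop] theorem hb_cont_eX1 (q : Pr) : Continuous fun p : ℝ × ℝ => eX1 q p.1 p.2 := by
  unfold eX1
  fun_prop

@[fun_prop] theorem hb_cont_eX2 (q : Pr) : Continuous fun p : ℝ × ℝ => eX2 q p.1 p.2 := by
  unfold eX2
  fun_prop

@[fun_prop] theorem hb_cont_edX (q : Pr) : Continuous fun p : ℝ × ℝ => edX q p.1 p.2 := by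
  unfold edX
  fun_prop

@[fun_prop] theorem hb_cont_eG (q : Pr) : Continuous fun p : ℝ × ℝ => eG q p.1 p.2 := by
  unfold eG
  fun_prop

@[fun_prop] theorem hb_cont_et1 (q : Pr) : Continuous fun p : ℝ × ℝ => et1 q p.1 p.2 := by
  unfold et1
  fun_prop

@[fun_prop] theorem hb_cont_et1p (q : Pr) : Continuous fun p : ℝ × ℝ => et1p q p.1 p.2 := by
  unfold et1p
  fun_prop

@[fun_prop] theorem hb_cont_ep1 (q : Pr) : Continuous fun p : ℝ × ℝ => ep1 q p.1 p.2 := by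
  unfold ep1
  fun_prop

@[fun_prop] theorem hb_cont_ep2 (q : Pr) : Continuous fun p : ℝ × ℝ => ep2 q p.1 p.2 := by
  unfold ep2
  fun_prop

@[fun_prop] theorem hb_cont_ed (q : Pr) : Continuous fun p : ℝ × ℝ => ed q p.1 p.2 := by
  unfold ed
  fun_prop

@[fun_prop] theorem hb_cont_emd (q : Pr) : Continuous fun p : ℝ × ℝ => emd q p.1 p.2 := by
  unfold emd
  fun_prop

@[fun_prop] theorem hb_cont_evp (q : Pr) : Continuous fun p : ℝ × ℝ => evp q p.1 p.2 := by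
  unfold evp
  fun_prop

@[fun_prop] theorem hb_cont_eA (q : Pr) : Continuous fun p : ℝ × ℝ => eA q p.1 p.2 := by
  unfold eA
  fun_prop

@[fun_prop] theorem hb_cont_eAA (q : Pr) : Continuous fun p : ℝ × ℝ => eAA q p.1 p.2 := by
  unfold eAA
  fun_prop

@[fun_prop] theorem hb_cont_edd (q : Pr) : Continuous fun p : ℝ × ℝ => edd q p.1 p.2 := by
  unfold edd
  fun_prop

@[fun_prop] theorem hb_cont_emdd (q : Pr) : Continuous fun p : ℝ × ℝ => emdd q p.1 p.2 := by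
  unfold emdd
  fun_prop

@[fun_prop] theorem hb_cont_eMpd (q : Pr) : Continuous fun p : ℝ × ℝ => eMpd q p.1 p.2 := by
  unfold eMpd
  fun_prop

@[fun_prop] theorem hb_cont_en3 (q : Pr) : Continuous fun p : ℝ × ℝ => en3 q p.1 p.2 := by
  unfold en3
  fun_prop

@[fun_prop] theorem hb_cont_ee1 (q : Pr) : Continuous fun p : ℝ × ℝ => ee1 q p.1 p.2 := by
  unfold ee1
  fun_prop

@[fun_prop] theorem hb_cont_ee1p (q : Pr) : Continuous fun p : ℝ × ℝ => ee1p q p.1 p.2 := by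
  unfold ee1p
  fun_prop

@[fun_prop] theorem hb_cont_egm1 (q : Pr) : Continuous fun p : ℝ × ℝ => egm1 q p.1 p.2 := by
  unfold egm1
  fun_prop

@[fun_prop] theorem hb_cont_emd3 (q : Pr) : Continuous fun p : ℝ × ℝ => emd3 q p.1 p.2 := by
  unfold emd3
  fun_prop

@[fun_prop] theorem hb_cont_eapp (q : Pr) : Continuous fun p : ℝ × ℝ => eapp q p.1 p.2 := by
  unfold eapp
  fun_prop

@[fun_prop] theorem hb_cont_eq1 (q : Pr) : Continuous fun p : ℝ × ℝ => eq1 q p.1 p.2 := by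
  unfold eq1
  fun_prop

@[fun_prop] theorem hb_cont_eq2 (q : Pr) : Continuous fun p : ℝ × ℝ => eq2 q p.1 p.2 := by
  unfold eq2
  fun_prop

@[fun_prop] theorem hb_cont_er2 (q : Pr) : Continuous fun p : ℝ × ℝ => er2 q p.1 p.2 := by
  unfold er2
  fun_prop

@[fun_prop] theorem hb_cont_ec3 (q : Pr) : Continuous fun p : ℝ × ℝ => ec3 q p.1 p.2 := by
  unfold ec3
  fun_prop

@[fun_prop] theorem hb_cont_ec4 (q : Pr) : Continuous fun p : ℝ × ℝ => ec4 q p.1 p.2 := by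
  unfold ec4
  fun_prop

@[fun_prop] theorem hb_cont_elc4 (q : Pr) : Continuous fun p : ℝ × ℝ => elc4 q p.1 p.2 := by
  unfold elc4
  fun_prop

@[fun_prop] theorem hb_cont_esa (q : Pr) : Continuous fun p : ℝ × ℝ => esa q p.1 p.2 := by
  unfold esa
  fun_prop

@[fun_prop] theorem hb_cont_eug (q : Pr) : Continuous fun p : ℝ × ℝ => eug q p.1 p.2 := by
  unfold eug
  fun_prop

@[fun_prop] theorem hb_cont_eeh (q : Pr) : Continuous fun p : ℝ × ℝ => eeh q p.1 p.2 := by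
  unfold eeh
  fun_prop

@[fun_prop] theorem hb_cont_eT3 (q : Pr) : Continuous fun p : ℝ × ℝ => eT3 q p.1 p.2 := by
  unfold eT3
  fun_prop

@[fun_prop] theorem hb_cont_eD3 (q : Pr) : Continuous fun p : ℝ × ℝ => eD3 q p.1 p.2 := by
  unfold eD3
  fun_prop

@[fun_prop] theorem hb_cont_en4 (q : Pr) : Continuous fun p : ℝ × ℝ => en4 q p.1 p.2 := by
  unfold en4
  fun_prop

@[fun_prop] theorem hb_cont_eD4 (q : Pr) : Continuous fun p : ℝ × ℝ => eD4 q p.1 p.2 := by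
  unfold eD4
  fun_prop

@[fun_prop] theorem hb_cont_ecbt (q : Pr) : Continuous fun p : ℝ × ℝ => ecbt q p.1 p.2 := by
  unfold ecbt
  fun_prop

@[fun_prop] theorem hb_cont_eQp (q : Pr) : Continuous fun p : ℝ × ℝ => eQp q p.1 p.2 := by
  unfold eQp
  fun_prop

@[fun_prop] theorem hb_cont_eQm (q : Pr) : Continuous fun p : ℝ × ℝ => eQm q p.1 p.2 := by
  unfold eQm
  fun_prop

@[fun_prop] theorem hb_cont_eD2 (q : Pr) : Continuous fun p : ℝ × ℝ => eD2 q p.1 p.2 := by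
  unfold eD2
  fun_prop

@[fun_prop] theorem hb_cont_eTh (q : Pr) : Continuous fun p : ℝ × ℝ => eTh q p.1 p.2 := by
  unfold eTh
  fun_prop

@[fun_prop] theorem hb_cont_eDb (q : Pr) : Continuous fun p : ℝ × ℝ => eDb q p.1 p.2 := by
  unfold eDb
  fun_prop

@[fun_prop] theorem hb_cont_eTh2 (q : Pr) : Continuous fun p : ℝ × ℝ => eTh2 q p.1 p.2 := by
  unfold eTh2
  fun_prop

@[fun_prop] theorem hb_cont_ett (q : Pr) : Continuous fun p : ℝ × ℝ => ett q p.1 p.2 := by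
  unfold ett
  fun_prop

@[fun_prop] theorem hb_cont_ePe (q : Pr) : Continuous fun p : ℝ × ℝ => ePe q p.1 p.2 := by
  unfold ePe
  fun_prop

@[fun_prop] theorem hb_cont_eam (q : Pr) : Continuous fun p : ℝ × ℝ => eam q p.1 p.2 := by
  unfold eam
  fun_prop

@[fun_prop] theorem hb_cont_eQQ (q : Pr) : Continuous fun p : ℝ × ℝ => eQQ q p.1 p.2 := by
  unfold eQQ
  fun_prop

@[fun_prop] theorem hb_cont_eY (q : Pr) : Continuous fun p : ℝ × ℝ => eY q p.1 p.2 := by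
  unfold eY
  fun_prop

theorem cont_eEtot (q : Pr) : Continuous fun p : ℝ × ℝ => eEtot q p.1 p.2 := by
  unfold eEtot
  fun_prop

theorem hb_der (t : ℝ) : HasDerivAt (fun t : ℝ => Real.exp (-(t ^ 2 / 2)))
    (-(t * Real.exp (-(t ^ 2 / 2)))) t := by
  refine (((hasDerivAt_pow 2 t).div_const 2).fun_neg.exp).congr_deriv ?_
  push_cast
  ring

theorem hb_I1 (B : ℝ) : ∫ t in -B..B, t * Real.exp (-(t ^ 2 / 2)) = 0 := by
  rw [intervalIntegral.integral_eq_sub_of_hasDerivAt (f := fun t => -Real.exp (-(t ^ 2 / 2)))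
    (fun t _ => ((hb_der t).fun_neg).congr_deriv (neg_neg _))
    (Continuous.intervalIntegrable (by fun_prop) _ _)]
  simp

theorem hb_I2 (B : ℝ) : ∫ t in -B..B, t ^ 2 * Real.exp (-(t ^ 2 / 2)) =
    (∫ t in -B..B, Real.exp (-(t ^ 2 / 2))) - 2 * B * Real.exp (-(B ^ 2 / 2)) := by
  have h := intervalIntegral.integral_eq_sub_of_hasDerivAt (a := -B) (b := B)
    (f := fun t => -(t * Real.exp (-(t ^ 2 / 2))))
    (f' := fun t => t ^ 2 * Real.exp (-(t ^ 2 / 2)) - Real.exp (-(t ^ 2 / 2)))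
    (fun t _ => (((hasDerivAt_id' t).fun_mul (hb_der t)).fun_neg).congr_deriv (by ring))
    (Continuous.intervalIntegrable (by fun_prop) _ _)
  rw [intervalIntegral.integral_sub (Continuous.intervalIntegrable (by fun_prop) _ _)
    (Continuous.intervalIntegrable (by fun_prop) _ _), neg_sq] at h
  linarith

theorem hb_lin (B a b c : ℝ) :
    ∫ t in -B..B, (a * Real.exp (-(t ^ 2 / 2)) + b * (t * Real.exp (-(t ^ 2 / 2))) +
      c * (t ^ 2 * Real.exp (-(t ^ 2 / 2)))) = a * (∫ t in -B..B, Real.exp (-(t ^ 2 / 2))) +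
        c * ∫ t in -B..B, t ^ 2 * Real.exp (-(t ^ 2 / 2)) := by
  rw [intervalIntegral.integral_add (Continuous.intervalIntegrable (by fun_prop) _ _)
      (Continuous.intervalIntegrable (by fun_prop) _ _),
    intervalIntegral.integral_add (Continuous.intervalIntegrable (by fun_prop) _ _)
      (Continuous.intervalIntegrable (by fun_prop) _ _),
    intervalIntegral.integral_const_mul, intervalIntegral.integral_const_mul,
    intervalIntegral.integral_const_mul, hb_I1]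
  ring

open MeasureTheory in
theorem hb_I0 {B : ℝ} (hB : 0 ≤ B) :
    (∫ t in -B..B, Real.exp (-(t ^ 2 / 2))) ≤ √(2 * Real.pi) ∧
      √(2 * Real.pi) * (1 - 3 / 2 * Real.exp (-(B ^ 2 / 4))) ≤
        ∫ t in -B..B, Real.exp (-(t ^ 2 / 2)) := by
  have e : ∀ t : ℝ, Real.exp (-(t ^ 2 / 2)) = Real.exp (-(1 / 2) * t ^ 2) := fun t => by
    congr 1
    ring
  have i1 := integrable_exp_neg_mul_sq (b := 1 / 2) (by norm_num)
  have i2 := integrable_exp_neg_mul_sq (b := 1 / 4) (by norm_num)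
  have g1 := integral_gaussian (1 / 2)
  have g2 := integral_gaussian (1 / 4)
  rw [show Real.pi / (1 / 2) = 2 * Real.pi by ring] at g1
  have hc := integral_add_compl (s := Set.Ioc (-B) B) measurableSet_Ioc i1
  have t0 : 0 ≤ ∫ t in (Set.Ioc (-B) B)ᶜ, Real.exp (-(1 / 2) * t ^ 2) :=
    integral_nonneg fun t => (Real.exp_pos _).le
  have t1 : ∫ t in (Set.Ioc (-B) B)ᶜ, Real.exp (-(1 / 2) * t ^ 2) ≤
      ∫ t in (Set.Ioc (-B) B)ᶜ, Real.exp (-(B ^ 2 / 4)) * Real.exp (-(1 / 4) * t ^ 2) := by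
    refine setIntegral_mono_on i1.integrableOn (i2.const_mul _).integrableOn
      measurableSet_Ioc.compl fun t ht => ?_
    rw [← Real.exp_add]
    refine Real.exp_le_exp.2 ?_
    have : B ^ 2 ≤ t ^ 2 := by
      rw [Set.mem_compl_iff, Set.mem_Ioc, not_and_or, not_lt, not_le] at ht
      rcases ht with h | h <;> nlinarith
    linarith
  have t2 : ∫ t in (Set.Ioc (-B) B)ᶜ, Real.exp (-(B ^ 2 / 4)) * Real.exp (-(1 / 4) * t ^ 2) ≤
      ∫ t, Real.exp (-(B ^ 2 / 4)) * Real.exp (-(1 / 4) * t ^ 2) :=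
    setIntegral_le_integral (i2.const_mul _) (ae_of_all _ fun t => by positivity)
  rw [integral_const_mul (μ := volume), g2] at t2
  have s1 : √(Real.pi / (1 / 4)) ≤ 3 / 2 * √(2 * Real.pi) := by
    have := Real.pi_pos
    refine Real.sqrt_le_iff.2 ⟨by positivity, ?_⟩
    rw [mul_pow, Real.sq_sqrt (by positivity)]
    linarith
  have s2 := mul_le_mul_of_nonneg_left s1 (Real.exp_pos (-(B ^ 2 / 4))).le
  simp only [e]
  rw [intervalIntegral.integral_of_le (by linarith)]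
  constructor <;> linarith

theorem hb_tail {k B : ℝ} (hk : 0 < k) (hk' : k ≤ 277 / 100000)
    (h : (419 / 1000) ^ 2 ≤ k * B ^ 2) : Real.exp (-(B ^ 2 / 4)) ≤ 2 * k ^ 2 := by
  have h0 : 0 ≤ B ^ 2 / 4 := by positivity
  have h1 : 438 / 10000 ≤ k * (B ^ 2 / 4) := by linarith
  have h2 : 15 ≤ B ^ 2 / 4 := by nlinarith
  have h3 := Real.pow_div_factorial_le_exp _ h0 8
  generalize B ^ 2 / 4 = z at *
  have h4 : (438 / 10000) ^ 2 * 15 ^ 6 ≤ (k * z) ^ 2 * z ^ 6 := by gcongr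
  have h5 : ((Nat.factorial 8 : ℕ) : ℝ) = 40320 := by norm_num [Nat.factorial]
  rw [h5] at h3
  have h6 : k ^ 2 * (z ^ 8 / 40320) ≤ k ^ 2 * Real.exp z := by gcongr
  rw [Real.exp_neg, inv_le_iff_one_le_mul₀ (Real.exp_pos z)]
  linarith

theorem hb_mom {k B : ℝ} (hk : 0 < k) (hk' : k ≤ 277 / 100000) (hB : 0 ≤ B)
    (h : (419 / 1000) ^ 2 ≤ k * B ^ 2) :
    |(∫ t in -B..B, Real.exp (-(t ^ 2 / 2))) ^ 2 / (2 * Real.pi) - 1| ≤ 10 * k * k ∧
    |(∫ t in -B..B, Real.exp (-(t ^ 2 / 2))) * (∫ t in -B..B, t ^ 2 * Real.exp (-(t ^ 2 / 2))) /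
      (2 * Real.pi) - 1| ≤ 10 * k * k := by
  obtain ⟨a1, a2⟩ := hb_I0 hB
  have a3 := hb_tail hk hk' h
  rw [hb_I2]
  have hpi := Real.pi_gt_three
  have c2 : √(2 * Real.pi) ^ 2 = 2 * Real.pi := Real.sq_sqrt (by positivity)
  have c1 : 2 ≤ √(2 * Real.pi) := Real.le_sqrt_of_sq_le (by linarith)
  have e1 : Real.exp (-(B ^ 2 / 2)) = Real.exp (-(B ^ 2 / 4)) * Real.exp (-(B ^ 2 / 4)) := by
    rw [← Real.exp_add]
    congr 1
    ring
  have d0 := Real.exp_pos (-(B ^ 2 / 4))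
  have e2 : B * Real.exp (-(B ^ 2 / 4)) ≤ 1 := by
    rw [Real.exp_neg, mul_inv_le_iff₀ (Real.exp_pos _), one_mul]
    nlinarith [Real.add_one_le_exp (B ^ 2 / 4), sq_nonneg (B / 2 - 1)]
  have e3 : 0 ≤ 2 * B * Real.exp (-(B ^ 2 / 2)) := by positivity
  have e4 : 2 * B * Real.exp (-(B ^ 2 / 2)) ≤ √(2 * Real.pi) * Real.exp (-(B ^ 2 / 4)) := by
    have := mul_le_mul_of_nonneg_right e2 d0.le
    have := mul_le_mul_of_nonneg_right c1 d0.le
    rw [e1]
    linarith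
  rw [← c2]
  generalize √(2 * Real.pi) = c at *
  generalize Real.exp (-(B ^ 2 / 4)) = d at *
  generalize 2 * B * Real.exp (-(B ^ 2 / 2)) = r at *
  generalize (∫ t in -B..B, Real.exp (-(t ^ 2 / 2))) = I at *
  have hc : 0 < c := by linarith
  have u1 : I / c ≤ 1 := (div_le_one hc).2 a1
  have u2 : 1 - 3 / 2 * d ≤ I / c := (le_div_iff₀ hc).2 (by linarith)
  have v1 : (I - r) / c ≤ 1 := (div_le_one hc).2 (by linarith)
  have v2 : 1 - 5 / 2 * d ≤ (I - r) / c := (le_div_iff₀ hc).2 (by linarith)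
  have w1 : I ^ 2 / c ^ 2 = I / c * (I / c) := by field_simp
  have w2 : I * (I - r) / c ^ 2 = I / c * ((I - r) / c) := by field_simp
  rw [w1, w2]
  generalize I / c = u at *
  generalize (I - r) / c = v at *
  have k2 : k ^ 2 ≤ 1 / 100 := by nlinarith
  have u0 : 0 ≤ u := by linarith
  have v0 : 0 ≤ v := by linarith
  have p1 := mul_nonneg (sub_nonneg.2 u1) (sub_nonneg.2 u1)
  have p2 := mul_nonneg (sub_nonneg.2 u1) (sub_nonneg.2 v1)
  have p3 := mul_le_one₀ u1 u0 u1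
  have p4 := mul_le_one₀ u1 v0 v1
  have p5 := mul_pos hk hk
  refine ⟨abs_le.2 ⟨?_, ?_⟩, abs_le.2 ⟨?_, ?_⟩⟩ <;> linarith

theorem hb_P0F (hq : q.Ok) : ∃ a b c : ℝ, a + c = q.ks * q.quad ∧
    ∀ x y, P0F q (q.et * x) (q.et * y) = q.L0 + a * x ^ 2 + b * (x * y) + c * y ^ 2 := by
  refine ⟨P0F q q.et 0 - q.L0, P0F q q.et q.et - P0F q q.et 0 - P0F q 0 q.et + q.L0,
    P0F q 0 q.et - q.L0, ?_, fun x y => ?_⟩
  · rw [hq.ks]
    unfold P0F th1F tp1F Q2F Pr.quad Pr.t2 Pr.trQ Pr.A2 Pr.ath1 Pr.ath2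
    rw [abs_mul_abs_self, abs_mul_abs_self]
    ring
  · unfold P0F th1F tp1F Q2F
    ring

theorem hb_int_P0F (hq : q.Ok) {B : ℝ} (hB : 419 / 1000 ≤ q.et * B) :
    ∫ x in -B..B, ∫ y in -B..B,
      Real.exp (-((x ^ 2 + y ^ 2) / 2)) / (2 * Real.pi) * P0F q (q.et * x) (q.et * y) ≤
      q.main + q.aerr := by
  obtain ⟨a, b, c, h1, h2⟩ := hb_P0F hq
  have het := hq.et
  have hk : 0 < q.ks := by rw [hq.ks]; positivity
  have hB0 : 0 ≤ B := ((mul_pos_iff_of_pos_left het).1 (by linarith)).le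
  obtain ⟨m1, m2⟩ := hb_mom hk hq.ks' hB0 (by
    rw [hq.ks, ← mul_pow]
    gcongr)
  set I := ∫ t in -B..B, Real.exp (-(t ^ 2 / 2)) with hI
  set J := ∫ t in -B..B, t ^ 2 * Real.exp (-(t ^ 2 / 2)) with hJ
  have e1 : ∀ x : ℝ, ∫ y in -B..B,
      Real.exp (-((x ^ 2 + y ^ 2) / 2)) / (2 * Real.pi) * P0F q (q.et * x) (q.et * y) =
      (q.L0 * I + c * J) / (2 * Real.pi) * Real.exp (-(x ^ 2 / 2)) +
        0 * (x * Real.exp (-(x ^ 2 / 2))) +
        a * I / (2 * Real.pi) * (x ^ 2 * Real.exp (-(x ^ 2 / 2))) := by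
    intro x
    have e2 : ∀ y : ℝ,
        Real.exp (-((x ^ 2 + y ^ 2) / 2)) / (2 * Real.pi) * P0F q (q.et * x) (q.et * y) =
        Real.exp (-(x ^ 2 / 2)) / (2 * Real.pi) * (q.L0 + a * x ^ 2) * Real.exp (-(y ^ 2 / 2)) +
        Real.exp (-(x ^ 2 / 2)) / (2 * Real.pi) * (b * x) * (y * Real.exp (-(y ^ 2 / 2))) +
        Real.exp (-(x ^ 2 / 2)) / (2 * Real.pi) * c * (y ^ 2 * Real.exp (-(y ^ 2 / 2))) := by
      intro y
      rw [h2, show -((x ^ 2 + y ^ 2) / 2) = -(x ^ 2 / 2) + -(y ^ 2 / 2) by ring, Real.exp_add]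
      ring
    simp only [e2]
    rw [hb_lin]
    ring
  simp only [e1]
  rw [hb_lin, ← hI, ← hJ]
  have e3 : (q.L0 * I + c * J) / (2 * Real.pi) * I + a * I / (2 * Real.pi) * J =
      q.L0 + q.ks * q.quad + (q.L0 * (I ^ 2 / (2 * Real.pi) - 1) +
        q.ks * (q.quad * (I * J / (2 * Real.pi) - 1))) := by
    have : a = q.ks * q.quad - c := by linarith
    rw [this]
    ring
  have b1 : q.L0 * (I ^ 2 / (2 * Real.pi) - 1) ≤ |q.L0| * (10 * q.ks * q.ks) := by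
    refine (le_abs_self _).trans ?_
    rw [abs_mul]
    gcongr
  have b2 : q.quad * (I * J / (2 * Real.pi) - 1) ≤ |q.quad| * (10 * q.ks * q.ks) := by
    refine (le_abs_self _).trans ?_
    rw [abs_mul]
    gcongr
  have b3 := mul_le_mul_of_nonneg_left b2 hk.le
  rw [e3]
  unfold Pr.main Pr.aerr
  linarith

theorem int_PF_le (hq : q.Ok) {B err : ℝ} (hB : 419 / 1000 ≤ q.et * B) (hB' : q.et * B ≤ 42 / 100)
    (herr : ∫ x in -B..B, ∫ y in -B..B,
      Real.exp (-((1 - q.qa) * ((x ^ 2 + y ^ 2) / 2))) / (2 * Real.pi) * eEtot q x y ≤ err) :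
    ∫ x in -B..B, ∫ y in -B..B,
      Real.exp (-((x ^ 2 + y ^ 2) / 2)) / (2 * Real.pi) * PF q (q.et * x) (q.et * y) ≤
      q.main + (q.aerr + err) := by
  have het := hq.et
  have hB0 : 0 ≤ B := ((mul_pos_iff_of_pos_left het).1 (by linarith)).le
  have hb : ∀ x ∈ Set.Icc (-B) B, |q.et * x| ≤ 42 / 100 := fun x hx => by
    rw [abs_mul, abs_of_pos het]
    exact (mul_le_mul_of_nonneg_left (abs_le.2 hx) het.le).trans hB'
  have hE := cont_eEtot q
  set f : ℝ → ℝ → ℝ := fun x y =>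
    Real.exp (-((x ^ 2 + y ^ 2) / 2)) / (2 * Real.pi) * PF q (q.et * x) (q.et * y) with hf
  set g : ℝ → ℝ → ℝ := fun x y =>
    Real.exp (-((x ^ 2 + y ^ 2) / 2)) / (2 * Real.pi) * P0F q (q.et * x) (q.et * y) with hg
  set h : ℝ → ℝ → ℝ := fun x y =>
    Real.exp (-((1 - q.qa) * ((x ^ 2 + y ^ 2) / 2))) / (2 * Real.pi) * eEtot q x y with hh
  have cf : Continuous f.uncurry := by
    show Continuous fun p : ℝ × ℝ => Real.exp (-((p.1 ^ 2 + p.2 ^ 2) / 2)) / (2 * Real.pi) *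
      PF q (q.et * p.1) (q.et * p.2)
    fun_prop
  have cg : Continuous g.uncurry := by
    show Continuous fun p : ℝ × ℝ => Real.exp (-((p.1 ^ 2 + p.2 ^ 2) / 2)) / (2 * Real.pi) *
      P0F q (q.et * p.1) (q.et * p.2)
    fun_prop
  have ch : Continuous h.uncurry := by
    show Continuous fun p : ℝ × ℝ =>
      Real.exp (-((1 - q.qa) * ((p.1 ^ 2 + p.2 ^ 2) / 2))) / (2 * Real.pi) * eEtot q p.1 p.2
    exact Continuous.mul (by fun_prop) hE
  have ii : ∀ {u : ℝ → ℝ → ℝ}, Continuous u.uncurry → ∀ x,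
      IntervalIntegrable (u x) MeasureTheory.volume (-B) B :=
    fun hu x => (hu.uncurry_left x).intervalIntegrable _ _
  have jj : ∀ {u : ℝ → ℝ → ℝ}, Continuous u.uncurry →
      IntervalIntegrable (fun x => ∫ y in -B..B, u x y) MeasureTheory.volume (-B) B :=
    fun hu => (intervalIntegral.continuous_parametric_intervalIntegral_of_continuous'
      hu _ _).intervalIntegrable _ _
  have k1 : ∫ x in -B..B, ∫ y in -B..B, f x y ≤
      ∫ x in -B..B, ((∫ y in -B..B, g x y) + ∫ y in -B..B, h x y) := by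
    refine intervalIntegral.integral_mono_on (by linarith) (jj cf) ((jj cg).add (jj ch))
      fun x hx => ?_
    rw [← intervalIntegral.integral_add (ii cg x) (ii ch x)]
    refine intervalIntegral.integral_mono_on (by linarith) (ii cf x) ((ii cg x).add (ii ch x))
      fun y hy => ?_
    have hw : 0 ≤ Real.exp (-((x ^ 2 + y ^ 2) / 2)) / (2 * Real.pi) := by positivity
    refine (mul_le_mul_of_nonneg_left (PF_le hq (hb x hx) (hb y hy)) hw).trans (le_of_eq ?_)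
    simp only [hg, hh]
    rw [show -((1 - q.qa) * ((x ^ 2 + y ^ 2) / 2)) =
      -((x ^ 2 + y ^ 2) / 2) + q.qa * ((x ^ 2 + y ^ 2) / 2) by ring, Real.exp_add]
    ring
  rw [intervalIntegral.integral_add (jj cg) (jj ch)] at k1
  have k2 := hb_int_P0F hq hB
  have k3 : ∫ x in -B..B, ∫ y in -B..B, h x y ≤ err := herr
  have k4 : ∫ x in -B..B, ∫ y in -B..B, g x y ≤ q.main + q.aerr := k2
  show ∫ x in -B..B, ∫ y in -B..B, f x y ≤ _
  linarith

end Pool.Agent.Lib.MP_6cad4c_al
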