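import Mathlib

namespace Pool.Agent.Lib.MP_6cad4c_al

theorem gen_cont {X : Type*} [TopologicalSpace X] {f : X → ℝ → ℝ}
    (hf : Continuous fun p : X × ℝ => f p.1 p.2) (a b : ℝ) :
    Continuous fun x => ∫ t in a..b, f x t :=
  intervalIntegral.continuous_parametric_intervalIntegral_of_continuous' (f := f) hf a b

theorem gen_swap {f : ℝ → ℝ → ℝ} (hf : Continuous fun p : ℝ × ℝ => f p.1 p.2) (a b c d : ℝ) :
    ∫ x in a..b, ∫ y in c..d, f x y = ∫ y in c..d, ∫ x in a..b, f x y := by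
  refine MeasureTheory.intervalIntegral_intervalIntegral_swap ?_
  have h : MeasureTheory.IntegrableOn (fun p : ℝ × ℝ => f p.1 p.2)
      (Set.uIcc a b ×ˢ Set.uIcc c d) :=
    hf.continuousOn.integrableOn_compact (isCompact_uIcc.prod isCompact_uIcc)
  exact h.mono_set (Set.prod_mono Set.uIoc_subset_uIcc Set.uIoc_subset_uIcc)

theorem gen_cont2 {X : Type*} [TopologicalSpace X] {f : X → ℝ → ℝ → ℝ}
    (hf : Continuous fun p : X × ℝ × ℝ => f p.1 p.2.1 p.2.2) (a b c d : ℝ) :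
    Continuous fun g => ∫ x in a..b, ∫ y in c..d, f g x y := by
  refine gen_cont (f := fun g x => ∫ y in c..d, f g x y) ?_ a b
  refine gen_cont (f := fun (p : X × ℝ) y => f p.1 p.2 y) ?_ c d
  exact hf.comp (f := fun q : (X × ℝ) × ℝ => (q.1.1, q.1.2, q.2)) (by fun_prop)

theorem gen_cont3 {X : Type*} [TopologicalSpace X] {f : X → ℝ → ℝ → ℝ → ℝ}
    (hf : Continuous fun p : X × ℝ × ℝ × ℝ => f p.1 p.2.1 p.2.2.1 p.2.2.2) (a b c d e k : ℝ) :
    Continuous fun L => ∫ g in a..b, ∫ x in c..d, ∫ y in e..k, f L g x y := by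
  refine gen_cont (f := fun L g => ∫ x in c..d, ∫ y in e..k, f L g x y) ?_ a b
  refine gen_cont2 (f := fun (p : X × ℝ) x y => f p.1 p.2 x y) ?_ c d e k
  exact hf.comp (f := fun q : (X × ℝ) × ℝ × ℝ => (q.1.1, q.1.2, q.2.1, q.2.2)) (by fun_prop)

theorem cont_double {f : ℝ → ℝ → ℝ → ℝ} (hf : Continuous fun p : ℝ × ℝ × ℝ => f p.1 p.2.1 p.2.2)
    (B : ℝ) : Continuous fun g => ∫ x in -B..B, ∫ y in -B..B, f g x y :=
  gen_cont2 hf _ _ _ _

theorem gen_swap3 {f : ℝ → ℝ → ℝ → ℝ} (hf : Continuous fun p : ℝ × ℝ × ℝ => f p.1 p.2.1 p.2.2)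
    (a b c d e k : ℝ) :
    ∫ x in c..d, ∫ y in e..k, ∫ g in a..b, f g x y =
      ∫ g in a..b, ∫ x in c..d, ∫ y in e..k, f g x y := by
  have h1 : ∀ x, ∫ y in e..k, ∫ g in a..b, f g x y = ∫ g in a..b, ∫ y in e..k, f g x y := by
    intro x
    refine gen_swap (f := fun y g => f g x y) ?_ _ _ _ _
    exact hf.comp (f := fun q : ℝ × ℝ => (q.2, x, q.1)) (by fun_prop)
  simp_rw [h1]
  refine gen_swap (f := fun x g => ∫ y in e..k, f g x y) ?_ _ _ _ _
  refine gen_cont (f := fun (p : ℝ × ℝ) y => f p.2 p.1 y) ?_ e k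
  exact hf.comp (f := fun q : (ℝ × ℝ) × ℝ => (q.1.2, q.1.1, q.2)) (by fun_prop)

theorem triple_swap {f : ℝ → ℝ → ℝ → ℝ} (hf : Continuous fun p : ℝ × ℝ × ℝ => f p.1 p.2.1 p.2.2)
    (a b B : ℝ) :
    ∫ x in -B..B, ∫ y in -B..B, ∫ g in a..b, f g x y =
      ∫ g in a..b, ∫ x in -B..B, ∫ y in -B..B, f g x y :=
  gen_swap3 hf _ _ _ _ _ _

theorem gen_sub2 {f f' : ℝ → ℝ → ℝ} (hf : Continuous fun p : ℝ × ℝ => f p.1 p.2)
    (hf' : Continuous fun p : ℝ × ℝ => f' p.1 p.2) (a b c d : ℝ) :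
    (∫ x in a..b, ∫ y in c..d, f x y) - (∫ x in a..b, ∫ y in c..d, f' x y) =
      ∫ x in a..b, ∫ y in c..d, (f x y - f' x y) := by
  rw [← intervalIntegral.integral_sub ((gen_cont hf c d).intervalIntegrable _ _)
    ((gen_cont hf' c d).intervalIntegrable _ _)]
  refine intervalIntegral.integral_congr fun x _ => ?_
  have h1 : Continuous fun y => f x y := hf.comp (f := fun y : ℝ => (x, y)) (by fun_prop)
  have h2 : Continuous fun y => f' x y := hf'.comp (f := fun y : ℝ => (x, y)) (by fun_prop)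
  exact (intervalIntegral.integral_sub (h1.intervalIntegrable _ _)
    (h2.intervalIntegrable _ _)).symm

theorem triple_deriv {K K' : ℝ → ℝ → ℝ → ℝ → ℝ}
    (hd : ∀ L g x y, HasDerivAt (fun L => K L g x y) (K' L g x y) L)
    (hK : ∀ L, Continuous fun p : ℝ × ℝ × ℝ => K L p.1 p.2.1 p.2.2)
    (hK' : Continuous fun p : ℝ × ℝ × ℝ × ℝ => K' p.1 p.2.1 p.2.2.1 p.2.2.2)
    {L₁ L₂ a b B c : ℝ} (hL : L₁ ≤ L₂)
    (hc : ∀ L ∈ Set.Icc L₁ L₂, ∫ g in a..b, ∫ x in -B..B, ∫ y in -B..B, K' L g x y ≤ c) :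
    (∫ g in a..b, ∫ x in -B..B, ∫ y in -B..B, K L₂ g x y) -
      (∫ g in a..b, ∫ x in -B..B, ∫ y in -B..B, K L₁ g x y) ≤ c * (L₂ - L₁) := by
  have hftc : ∀ g x y, K L₂ g x y - K L₁ g x y = ∫ L in L₁..L₂, K' L g x y := by
    intro g x y
    have h1 : Continuous fun L => K' L g x y :=
      hK'.comp (f := fun L : ℝ => (L, g, x, y)) (by fun_prop)
    exact (intervalIntegral.integral_eq_sub_of_hasDerivAt (fun L _ => hd L g x y)
      (h1.intervalIntegrable _ _)).symm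
  have h2 : ∀ g, (∫ x in -B..B, ∫ y in -B..B, K L₂ g x y) -
      (∫ x in -B..B, ∫ y in -B..B, K L₁ g x y) =
      ∫ L in L₁..L₂, ∫ x in -B..B, ∫ y in -B..B, K' L g x y := by
    intro g
    rw [gen_sub2 (f := fun x y => K L₂ g x y) (f' := fun x y => K L₁ g x y)
      ((hK L₂).comp (f := fun q : ℝ × ℝ => (g, q.1, q.2)) (by fun_prop))
      ((hK L₁).comp (f := fun q : ℝ × ℝ => (g, q.1, q.2)) (by fun_prop))]
    simp_rw [hftc]
    refine gen_swap3 (f := fun L x y => K' L g x y) ?_ _ _ _ _ _ _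
    exact hK'.comp (f := fun q : ℝ × ℝ × ℝ => (q.1, g, q.2.1, q.2.2)) (by fun_prop)
  rw [← intervalIntegral.integral_sub ((cont_double (hK L₂) B).intervalIntegrable _ _)
    ((cont_double (hK L₁) B).intervalIntegrable _ _)]
  simp_rw [h2]
  rw [gen_swap (f := fun g L => ∫ x in -B..B, ∫ y in -B..B, K' L g x y)
    (gen_cont2 (f := fun (p : ℝ × ℝ) x y => K' p.2 p.1 x y)
      (hK'.comp (f := fun q : (ℝ × ℝ) × ℝ × ℝ => (q.1.2, q.1.1, q.2.1, q.2.2)) (by fun_prop))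
      _ _ _ _)]
  have h3 := intervalIntegral.integral_mono_on hL
    ((gen_cont3 hK' a b (-B) B (-B) B).intervalIntegrable (μ := MeasureTheory.volume) L₁ L₂)
    (continuous_const.intervalIntegrable _ _) hc
  rw [intervalIntegral.integral_const, smul_eq_mul, mul_comm] at h3
  exact h3

theorem grid_le {f : ℝ → ℝ} (hf : ∀ a b, IntervalIntegrable f MeasureTheory.volume a b)
    (a : ℝ) {h : ℝ} (hh : 0 ≤ h) (k : ℕ) (B : ℕ → ℝ)
    (hB : ∀ i < k, ∀ g ∈ Set.Icc (a + i * h) (a + (i + 1) * h), f g ≤ B i) :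
    ∫ g in a..a + k * h, f g ≤ h * ∑ i ∈ Finset.range k, B i := by
  have h1 := intervalIntegral.sum_integral_adjacent_intervals (f := f)
    (μ := MeasureTheory.volume) (a := fun i : ℕ => a + i * h) (n := k) fun i _ => hf _ _
  simp only [Nat.cast_zero, zero_mul, add_zero] at h1
  rw [← h1, Finset.mul_sum]
  refine Finset.sum_le_sum fun i hi => ?_
  have hle : a + i * h ≤ a + ((i : ℝ) + 1) * h := by linarith
  have h2 := intervalIntegral.integral_mono_on hle (hf _ _)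
    (continuous_const.intervalIntegrable _ _) (hB i (Finset.mem_range.1 hi))
  rw [intervalIntegral.integral_const, smul_eq_mul] at h2
  push_cast
  calc _ ≤ _ := h2
    _ = h * B i := by ring

end Pool.Agent.Lib.MP_6cad4c_al
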