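import Pool.Agent.Lib.MP_6cad4c_al.Par
import Pool.Agent.Lib.MP_6cad4c_al.Facts
import Pool.Agent.Lib.MP_6cad4c_al.Gen

namespace Pool.Agent.Lib.MP_6cad4c_al

open Complex

theorem px_eq (L g : ℝ) : px L g = Real.exp (-pm L g) := by
  unfold px pX0 pex peb pm pME pM
  rw [← Real.exp_add, ← Real.exp_add]
  congr 1
  ring

theorem msum_kt (L g : ℝ) : msum (kt (mkPr L g)) = pu L g * pRs L g := by
  simp only [msum, kt, mkPr, pRs, pr1, pr2n, pr3n, pr4n, ps2]
  ring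

theorem kid_px (L g : ℝ) : px L g = pu L g * psp L := by
  unfold px pu psp pX0 pu0 sg
  rw [show -(L + g) = -g + -L by ring, Real.exp_add]
  ring

theorem kid_gB (u sp G E F : ℂ) (hs : sp ≠ 0) (hF : F ≠ 0) :
    gB (u * sp * G * E) (sp * F) = u * G * (E / F) -
      (1 / 2 * u * sp * G * (E * F / F) - 1 / 12 * u * sp ^ 2 * G * (E * F ^ 2 / F)
      - 1 / 4 * u * (u * sp) * G ^ 2 * (E ^ 2 / F)
      + 1 / 4 * u * sp * (u * sp) * G ^ 2 * (E ^ 2 * F / F)
      - 1 / 12 * u * sp ^ 2 * (u * sp) * G ^ 2 * (E ^ 2 * F ^ 2 / F)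
      - 1 / 9 * u * (u * sp) ^ 2 * G ^ 3 * (E ^ 3 / F)
      + 1 / 6 * u * sp * (u * sp) ^ 2 * G ^ 3 * (E ^ 3 * F / F)
      - 1 / 12 * u * sp ^ 2 * (u * sp) ^ 2 * G ^ 3 * (E ^ 3 * F ^ 2 / F)
      - 1 / 16 * u * (u * sp) ^ 3 * G ^ 4 * (E ^ 4 / F)
      + 1 / 8 * u * sp * (u * sp) ^ 3 * G ^ 4 * (E ^ 4 * F / F)
      - 1 / 25 * u * (u * sp) ^ 4 * G ^ 5 * (E ^ 5 / F)) := by
  unfold gB
  field_simp
  ring

theorem kid_cis (t : ℝ) : ((Real.cos t : ℝ) : ℂ) - ((Real.sin t : ℝ) : ℂ) * I = exp (-(t * I)) := by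
  rw [← neg_mul, exp_mul_I, cos_neg, sin_neg]
  push_cast
  ring

theorem kid_FB (q : Pr) (hs : q.sp ≠ 0) (hx : q.x = q.u * q.sp) (hm : q.x = Real.exp (-q.m))
    (ψ φ : ℝ) :
    -(q.m * exp ((φ - ψ : ℝ) * I)) - gB (exp (-(q.m * exp ((φ - ψ : ℝ) * I)))) (q.sp * exp (φ * I)) =
      ((-q.m - q.u + msum (kt q) + aB q ψ φ : ℝ) : ℂ) + (thB q ψ φ : ℝ) * I := by
  have h1 : -(q.m * exp ((φ - ψ : ℝ) * I)) = -q.m + (eo q ψ φ : ℝ) - (vt q ψ φ : ℝ) * I := by
    rw [exp_mul_I, ← ofReal_cos, ← ofReal_sin]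
    simp only [eo, vt, ofReal_mul, ofReal_sub, ofReal_one]
    ring
  have h2 : exp (-(q.m * exp ((φ - ψ : ℝ) * I))) =
      q.u * q.sp * (gg q ψ φ : ℝ) * exp (-((vt q ψ φ : ℝ) * I)) := by
    rw [h1, sub_eq_add_neg, exp_add, exp_add, ← ofReal_mul, ← hx, hm, gg, ofReal_exp, ofReal_exp,
      ofReal_neg]
  have hc : ∀ a e : ℕ, ((Real.cos (omg q ψ φ a e) : ℝ) : ℂ) - (Real.sin (omg q ψ φ a e) : ℝ) * I =
      exp (-((vt q ψ φ : ℝ) * I)) ^ (a + 1) * exp (φ * I) ^ e / exp (φ * I) := by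
    intro a e
    rw [kid_cis, ← exp_nat_mul, ← exp_nat_mul, ← exp_add, ← exp_sub, omg]
    congr 1
    push_cast
    ring
  have ha : ((Real.cos (al q ψ φ) : ℝ) : ℂ) - (Real.sin (al q ψ φ) : ℝ) * I =
      exp (-((vt q ψ φ : ℝ) * I)) / exp (φ * I) := by
    rw [kid_cis, ← exp_sub, al]
    congr 1
    push_cast
    ring
  rw [h2, kid_gB _ _ _ _ _ (ofReal_ne_zero.2 hs) (exp_ne_zero _), h1]
  simp only [aB, thB, msum, kt, hx, ofReal_add, ofReal_sub, ofReal_mul, ofReal_neg, ofReal_pow,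
    ofReal_div, ofReal_one, ofReal_ofNat]
  linear_combination
    (q.u * (gg q ψ φ : ℝ) : ℂ) * ha
    - (1 / 2 * q.u * q.sp * (gg q ψ φ : ℝ) : ℂ) * hc 0 1
    + (1 / 12 * q.u * q.sp ^ 2 * (gg q ψ φ : ℝ) : ℂ) * hc 0 2
    + (1 / 4 * q.u * (q.u * q.sp) * (gg q ψ φ : ℝ) ^ 2 : ℂ) * hc 1 0
    - (1 / 4 * q.u * q.sp * (q.u * q.sp) * (gg q ψ φ : ℝ) ^ 2 : ℂ) * hc 1 1
    + (1 / 12 * q.u * q.sp ^ 2 * (q.u * q.sp) * (gg q ψ φ : ℝ) ^ 2 : ℂ) * hc 1 2
    + (1 / 9 * q.u * (q.u * q.sp) ^ 2 * (gg q ψ φ : ℝ) ^ 3 : ℂ) * hc 2 0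
    - (1 / 6 * q.u * q.sp * (q.u * q.sp) ^ 2 * (gg q ψ φ : ℝ) ^ 3 : ℂ) * hc 2 1
    + (1 / 12 * q.u * q.sp ^ 2 * (q.u * q.sp) ^ 2 * (gg q ψ φ : ℝ) ^ 3 : ℂ) * hc 2 2
    + (1 / 16 * q.u * (q.u * q.sp) ^ 3 * (gg q ψ φ : ℝ) ^ 4 : ℂ) * hc 3 0
    - (1 / 8 * q.u * q.sp * (q.u * q.sp) ^ 3 * (gg q ψ φ : ℝ) ^ 4 : ℂ) * hc 3 1
    + (1 / 25 * q.u * (q.u * q.sp) ^ 4 * (gg q ψ φ : ℝ) ^ 5 : ℂ) * hc 4 0

theorem FB_eq (L g ψ φ₂ : ℝ) :
    FB (Tg L g * exp (-(ψ * I))) (sv L (be L) φ₂) =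
      exp ((-pm L g - pu L g * (1 - pRs L g) + aB (mkPr L g) ψ φ₂ : ℝ) +
        (thB (mkPr L g) ψ φ₂ : ℝ) * I) := by
  have hs : sv L (be L) φ₂ = (psp L : ℝ) * exp (φ₂ * I) := by
    rw [sv_eq, Real.exp_add]; rfl
  have hT : Tg L g * psp L = pm L g := by
    unfold Tg psp pm pM pE2 sg peb
    rw [mul_assoc, ← Real.exp_add, ← Real.exp_add, show L + be L + (-L + be L) = 2 * be L by ring]
    ring
  have hz : Tg L g * exp (-(ψ * I)) * sv L (be L) φ₂ = (pm L g : ℝ) * exp ((φ₂ - ψ : ℝ) * I) := by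
    rw [hs, ← hT, show ((φ₂ - ψ : ℝ) : ℂ) * I = -(ψ * I) + φ₂ * I by push_cast; ring, exp_add]
    push_cast
    ring
  have hsp : psp L ≠ 0 := (mul_pos (sg_pos L) (Real.exp_pos _)).ne'
  have h := kid_FB (mkPr L g) hsp (kid_px L g) (px_eq L g) ψ φ₂
  rw [msum_kt] at h
  rw [FB, hz, hs]
  congr 1
  refine h.trans ?_
  congr 2
  simp only [mkPr]
  ring

theorem kid_om (L b φ : ℝ) :
    om L b φ = exp ((2 * lam L * (Real.cosh b * Real.cos φ - 1) + 3 / 2 * b : ℝ) +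
      (2 * lam L * Real.sinh b * Real.sin φ + 3 / 2 * φ : ℝ) * I) := by
  unfold om
  congr 1
  rw [Real.cosh_eq, Real.sinh_eq, neg_add, exp_add, exp_add, exp_mul_I, ← neg_mul, exp_mul_I,
    cos_neg, sin_neg]
  push_cast
  ring

theorem kid_FA (L g φ : ℝ) :
    FA (Tg L g * exp (-(φ * I))) (sv L (-be L) φ) =
      exp ((-(pV L g * Real.cos φ) : ℝ) + (pV L g * Real.sin φ : ℝ) * I) := by
  have hT : Tg L g * Real.exp (-L + -be L) = L + g := by
    unfold Tg
    rw [mul_assoc, ← Real.exp_add, show L + be L + (-L + -be L) = 0 by ring, Real.exp_zero, mul_one]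
  have hz : Tg L g * exp (-(φ * I)) * sv L (-be L) φ = (L + g : ℝ) := by
    rw [sv_eq, ← hT, ofReal_mul, mul_mul_mul_comm, ← exp_add, neg_add_cancel, exp_zero, mul_one]
  have hX : exp (-((L + g : ℝ) : ℂ)) = (pX0 L g : ℝ) := by
    rw [pX0, ofReal_exp, ofReal_neg]
  have hV : pV L g = Tg L g * (pX0 L g * ph L g) := by
    unfold pV pMh pebu pM peb pu0 Tg pX0
    rw [show -g = L + -(L + g) by ring, Real.exp_add, Real.exp_add]
    ring
  rw [FA, hz, hX, ← kid_cis, hV]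
  congr 1
  simp only [gA, ph, ofReal_add, ofReal_mul, ofReal_neg, ofReal_div, ofReal_one, ofReal_ofNat]
  ring

theorem Kr_eq (L g x y : ℝ) :
    (exp (-((eta L * x : ℝ) * I)) *
        FF L (eta L * x) (eta L * y) (Tg L g * exp (-((eta L * x : ℝ) * I)))).re *
      (Real.exp (L + be L) * eta L ^ 2 / J0 L ^ 2) = Kr L g x y := by
  have hJ : Real.exp (L + be L) * eta L ^ 2 / J0 L ^ 2 =
      Real.exp (L + be L + kk L) / (2 * Real.pi) := by
    have h1 := lam_mul_ks L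
    have h2 := lam_pos L
    have h3 := Real.pi_pos
    rw [J0_sq, eta_sq, Real.exp_add (L + be L), Real.exp_neg,
      show ks L = 1 / (2 * lam L) by rw [eq_div_iff (by positivity)]; linarith]
    field_simp
  have hl : ∀ t : ℝ, lam L * (eta L * t) ^ 2 = t ^ 2 / 2 := by
    intro t
    rw [mul_pow, eta_sq]
    linear_combination t ^ 2 / 2 * lam_mul_ks L
  have hF : exp (-((eta L * x : ℝ) * I)) *
      FF L (eta L * x) (eta L * y) (Tg L g * exp (-((eta L * x : ℝ) * I))) =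
      exp ((-g + (2 * pC L + kk L + be L) + -pBz L g + -((x ^ 2 + y ^ 2) / 2) +
        aF (mkPr L g) (eta L * x) (eta L * y) - (L + be L + kk L) : ℝ) +
        (thF (mkPr L g) (eta L * x) (eta L * y) : ℝ) * I) := by
    rw [FF, kid_om, kid_om, kid_FA, FB_eq, ← exp_add, ← exp_add, ← exp_add, ← exp_add,
      Real.cosh_neg, Real.sinh_neg]
    congr 1
    have h1 := hl x
    have h2 := hl y
    apply Complex.ext
    · simp only [add_re, neg_re, mul_re, ofReal_re, ofReal_im, I_re, I_im, aF, gam, mkPr, pC, pBz,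
        pm, pME, pM]
      linear_combination -h1 - h2
    · simp only [add_im, neg_im, mul_im, ofReal_re, ofReal_im, I_re, I_im, thF, mkPr, pS]
      ring
  rw [hF, hJ, exp_re]
  simp only [add_re, add_im, mul_re, mul_im, ofReal_re, ofReal_im, I_re, I_im, mul_zero, mul_one,
    sub_zero, add_zero, zero_add, Kr, pw, pu0, peA, Real.exp_add, Real.exp_sub]
  field_simp

theorem kid_cont_par :
    (Continuous lam ∧ Continuous eta ∧ Continuous psp ∧ Continuous pC ∧ Continuous pnCp ∧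
      Continuous pS ∧ Continuous pnSp ∧ Continuous be) ∧
    (Continuous fun p : ℝ × ℝ => pm p.1 p.2) ∧ (Continuous fun p : ℝ × ℝ => pmp p.1 p.2) ∧
    (Continuous fun p : ℝ × ℝ => pu p.1 p.2) ∧ (Continuous fun p : ℝ × ℝ => pup p.1 p.2) ∧
    (Continuous fun p : ℝ × ℝ => pV p.1 p.2) ∧ (Continuous fun p : ℝ × ℝ => pVp p.1 p.2) ∧
    (Continuous fun p : ℝ × ℝ => px p.1 p.2) ∧ (Continuous fun p : ℝ × ℝ => pL0 p.1 p.2) ∧
    (Continuous fun p : ℝ × ℝ => pw p.1 p.2) := by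
  have h1 : Continuous sg := by unfold sg; fun_prop
  have h2 : Continuous lam := by unfold lam; fun_prop
  have h3 : Continuous eta := by unfold eta; fun_prop
  have h4 : Continuous be := by unfold be; fun_prop
  have h5 : Continuous ks := by unfold ks; fun_prop
  have h6 : Continuous kk := by unfold kk; fun_prop
  have h7 : Continuous peb := by unfold peb; fun_prop
  have h8 : Continuous pE2 := by unfold pE2; fun_prop
  have h9 : Continuous pS := by unfold pS; fun_prop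
  have h10 : Continuous pnSp := by unfold pnSp; fun_prop
  have h11 : Continuous pC := by unfold pC; fun_prop
  have h12 : Continuous pnCp := by unfold pnCp; fun_prop
  have h13 : Continuous pk0 := by unfold pk0; fun_prop
  have h14 : Continuous peA := by unfold peA; fun_prop
  have h15 : Continuous psp := by unfold psp; fun_prop
  have h16 : Continuous ps2 := by unfold ps2; fun_prop
  have h17 : Continuous pr1 := by unfold pr1; fun_prop
  have h18 : Continuous pr2n := by unfold pr2n; fun_prop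
  have h19 : Continuous pr3n := by unfold pr3n; fun_prop
  have h20 : Continuous pr4n := by unfold pr4n; fun_prop
  have h21 : Continuous pu0 := by unfold pu0; fun_prop
  have g1 : Continuous fun p : ℝ × ℝ => pM p.1 p.2 := by unfold pM; fun_prop
  have g2 : Continuous fun p : ℝ × ℝ => pX0 p.1 p.2 := by unfold pX0; fun_prop
  have g3 : Continuous fun p : ℝ × ℝ => ph p.1 p.2 := by unfold ph; fun_prop
  have g4 : Continuous fun p : ℝ × ℝ => ph2 p.1 p.2 := by unfold ph2; fun_prop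
  have g5 : Continuous fun p : ℝ × ℝ => pm p.1 p.2 := by unfold pm; fun_prop
  have g6 : Continuous fun p : ℝ × ℝ => pomp p.1 p.2 := by unfold pomp; fun_prop
  have g7 : Continuous fun p : ℝ × ℝ => pmp p.1 p.2 := by unfold pmp; fun_prop
  have g8 : Continuous fun p : ℝ × ℝ => pebu p.1 p.2 := by unfold pebu; fun_prop
  have g9 : Continuous fun p : ℝ × ℝ => pMh p.1 p.2 := by unfold pMh; fun_prop
  have g10 : Continuous fun p : ℝ × ℝ => pV p.1 p.2 := by unfold pV; fun_prop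
  have g11 : Continuous fun p : ℝ × ℝ => pVp p.1 p.2 := by unfold pVp; fun_prop
  have g12 : Continuous fun p : ℝ × ℝ => pME p.1 p.2 := by unfold pME; fun_prop
  have g13 : Continuous fun p : ℝ × ℝ => pex p.1 p.2 := by unfold pex; fun_prop
  have g14 : Continuous fun p : ℝ × ℝ => pu p.1 p.2 := by unfold pu; fun_prop
  have g15 : Continuous fun p : ℝ × ℝ => pup p.1 p.2 := by unfold pup; fun_prop
  have g16 : Continuous fun p : ℝ × ℝ => px p.1 p.2 := by unfold px; fun_prop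
  have g17 : Continuous fun p : ℝ × ℝ => pRs p.1 p.2 := by unfold pRs; fun_prop
  have g18 : Continuous fun p : ℝ × ℝ => pRa p.1 p.2 := by unfold pRa; fun_prop
  have g19 : Continuous fun p : ℝ × ℝ => pRe p.1 p.2 := by unfold pRe; fun_prop
  have g20 : Continuous fun p : ℝ × ℝ => pnR0p p.1 p.2 := by unfold pnR0p; fun_prop
  have g21 : Continuous fun p : ℝ × ℝ => pBz p.1 p.2 := by unfold pBz; fun_prop
  have g22 : Continuous fun p : ℝ × ℝ => pw p.1 p.2 := by unfold pw; fun_prop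
  have g23 : Continuous fun p : ℝ × ℝ => pL0 p.1 p.2 := by unfold pL0; fun_prop
  exact ⟨⟨h2, h3, h15, h11, h12, h9, h10, h4⟩, g5, g7, g14, g15, g10, g11, g16, g23, g22⟩

theorem kid_cont {X : Type} [TopologicalSpace X]
    {la et ks be sp C nCp S nSp m mp u up V Vp x vl L0 φ₁ φ₂ : X → ℝ}
    (hla : Continuous la) (hbe : Continuous be) (hsp : Continuous sp) (hC : Continuous C)
    (hnCp : Continuous nCp) (hS : Continuous S) (hnSp : Continuous nSp) (hm : Continuous m)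
    (hmp : Continuous mp) (hu : Continuous u) (hup : Continuous up) (hV : Continuous V)
    (hVp : Continuous Vp) (hx : Continuous x) (hL0 : Continuous L0) (h1 : Continuous φ₁)
    (h2 : Continuous φ₂) (q : X → Pr)
    (hq : ∀ p, q p = ⟨la p, et p, ks p, be p, sp p, C p, nCp p, S p, nSp p, m p, mp p, u p, up p,
      V p, Vp p, x p, vl p, L0 p⟩) :
    (Continuous fun p => aF (q p) (φ₁ p) (φ₂ p)) ∧ (Continuous fun p => thF (q p) (φ₁ p) (φ₂ p)) ∧
      Continuous fun p => PF (q p) (φ₁ p) (φ₂ p) := by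
  have a1 : Continuous fun p => aF (q p) (φ₁ p) (φ₂ p) := by
    simp only [hq, aF, gam, aB, msum, kt, gg, al, omg, eo, vt]
    fun_prop
  have a2 : Continuous fun p => thF (q p) (φ₁ p) (φ₂ p) := by
    simp only [hq, thF, thB, msum, kt, gg, al, omg, eo, vt]
    fun_prop
  have a3 : Continuous fun p => aD (q p) (φ₁ p) (φ₂ p) := by
    simp only [hq, aD, gamD, aBD, msum, ktD, kt, gg, al, alD, omg, omgD, eo, eoD, vt, vtD]
    fun_prop
  have a4 : Continuous fun p => thD (q p) (φ₁ p) (φ₂ p) := by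
    simp only [hq, thD, thBD, msum, ktD, kt, gg, al, alD, omg, omgD, eo, eoD, vt, vtD]
    fun_prop
  have a5 : Continuous fun p => (q p).L0 := by simp only [hq]; exact hL0
  exact ⟨a1, a2, (Real.continuous_exp.comp a1).mul
    (((a5.add a3).mul (Real.continuous_cos.comp a2)).sub (a4.mul (Real.continuous_sin.comp a2)))⟩

theorem kid_cont4 :
    (Continuous fun p : ℝ × ℝ × ℝ × ℝ => Kr p.1 p.2.1 p.2.2.1 p.2.2.2) ∧
      Continuous fun p : ℝ × ℝ × ℝ × ℝ => dKr p.1 p.2.1 p.2.2.1 p.2.2.2 := by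
  obtain ⟨⟨h1, h2, h3, h4, h5, h6, h7, h8⟩, g1, g2, g3, g4, g5, g6, g7, g8, g9⟩ := kid_cont_par
  have c1 : Continuous fun p : ℝ × ℝ × ℝ × ℝ => p.1 := continuous_fst
  have c2 : Continuous fun p : ℝ × ℝ × ℝ × ℝ => (p.1, p.2.1) := by fun_prop
  obtain ⟨a1, a2, a3⟩ := kid_cont (h1.comp c1) (h8.comp c1) (h3.comp c1) (h4.comp c1) (h5.comp c1)
    (h6.comp c1) (h7.comp c1) (g1.comp c2) (g2.comp c2) (g3.comp c2) (g4.comp c2) (g5.comp c2)
    (g6.comp c2) (g7.comp c2) (g8.comp c2)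
    (φ₁ := fun p => eta p.1 * p.2.2.1) (φ₂ := fun p => eta p.1 * p.2.2.2) (by fun_prop) (by fun_prop)
    (fun p => mkPr p.1 p.2.1) (fun p => rfl)
  have c3 : Continuous fun p : ℝ × ℝ × ℝ × ℝ =>
      Real.exp (-((p.2.2.1 ^ 2 + p.2.2.2 ^ 2) / 2)) / (2 * Real.pi) := by fun_prop
  exact ⟨(g9.comp c2).mul (c3.mul ((Real.continuous_exp.comp a1).mul (Real.continuous_cos.comp a2))),
    (g9.comp c2).mul (c3.mul a3)⟩

theorem cont_Kr (L : ℝ) : Continuous fun p : ℝ × ℝ × ℝ => Kr L p.1 p.2.1 p.2.2 :=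
  kid_cont4.1.comp (Continuous.prodMk_right L)

theorem cont_dKr : Continuous fun p : ℝ × ℝ × ℝ × ℝ => dKr p.1 p.2.1 p.2.2.1 p.2.2.2 :=
  kid_cont4.2

theorem kid_re {f : ℝ → ℂ} (hf : Continuous f) (a b : ℝ) :
    (∫ t in a..b, f t).re = ∫ t in a..b, (f t).re :=
  (reCLM.intervalIntegral_comp_comm (hf.intervalIntegrable a b)).symm

theorem zc_re (L g₀ g₁ B : ℝ) : (zc L g₀ g₁ (eta L * B)).re = zh L g₀ g₁ B := by
  set H : ℝ → ℝ → ℝ → ℂ := fun x y g => exp (-((eta L * x : ℝ) * I)) *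
    FF L (eta L * x) (eta L * y) (Tg L g * exp (-((eta L * x : ℝ) * I))) with hH
  have hc : Continuous fun p : (ℝ × ℝ) × ℝ => H p.1.1 p.1.2 p.2 := by
    simp only [hH, FF, om, FA, FB, gA, gB, sv, Tg]
    fun_prop (disch := intro p; first | exact exp_ne_zero _ | exact mul_ne_zero (by norm_num) (exp_ne_zero _))
  have hc2 : Continuous fun p : ℝ × ℝ => ∫ g in g₀..g₁, H p.1 p.2 g :=
    intervalIntegral.continuous_parametric_intervalIntegral_of_continuous' hc g₀ g₁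
  have hc1 : Continuous fun x : ℝ => ∫ y in -B..B, ∫ g in g₀..g₁, H x y g :=
    intervalIntegral.continuous_parametric_intervalIntegral_of_continuous' hc2 (-B) B
  have he := (eta_pos L).ne'
  have h1 : ∀ φ₁ φ₂ : ℝ, ∫ T in Tg L g₀..Tg L g₁, FF L φ₁ φ₂ (T * exp (-(φ₁ * I))) =
      Real.exp (L + be L) • ∫ g in g₀..g₁, FF L φ₁ φ₂ (Tg L g * exp (-(φ₁ * I))) := by
    intro φ₁ φ₂
    have h := intervalIntegral.smul_integral_comp_mul_add (a := g₀) (b := g₁)
      (fun T : ℝ => FF L φ₁ φ₂ (T * exp (-(φ₁ * I)))) (Real.exp (L + be L))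
      (L * Real.exp (L + be L))
    have h2 : ∀ g, Real.exp (L + be L) * g + L * Real.exp (L + be L) = Tg L g := fun g => by
      unfold Tg; ring
    simp only [h2] at h
    exact h.symm
  have h2 : zc L g₀ g₁ (eta L * B) =
      (Real.exp (L + be L) * eta L ^ 2 / J0 L ^ 2 : ℝ) *
        ∫ x in -B..B, ∫ y in -B..B, ∫ g in g₀..g₁, H x y g := by
    rw [zc, ← mul_neg, ← intervalIntegral.smul_integral_comp_mul_left]
    simp only [← intervalIntegral.smul_integral_comp_mul_left (c := eta L) (a := -B) (b := B), h1,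
      hH, intervalIntegral.integral_const_mul, real_smul, mul_left_comm _ (Real.exp (L + be L) : ℂ)]
    push_cast
    ring
  rw [h2, re_ofReal_mul, kid_re hc1, zh, ← triple_swap (cont_Kr L),
    ← intervalIntegral.integral_const_mul]
  refine intervalIntegral.integral_congr fun x _ => ?_
  have c1 : Continuous fun y => ∫ g in g₀..g₁, H x y g := hc2.comp (Continuous.prodMk_right x)
  rw [kid_re c1, ← intervalIntegral.integral_const_mul]
  refine intervalIntegral.integral_congr fun y _ => ?_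
  have c2 : Continuous fun g => H x y g := hc.comp (Continuous.prodMk_right (x, y))
  rw [kid_re c2, ← intervalIntegral.integral_const_mul]
  refine intervalIntegral.integral_congr fun g _ => ?_
  rw [mul_comm]
  exact Kr_eq L g x y

end Pool.Agent.Lib.MP_6cad4c_al
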