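import Pool.Agent.Lib.MP_6cad4c_al.IvDef

namespace Pool.Agent.Lib.MP_6cad4c_al

namespace MomAux

open MeasureTheory

theorem ONE_eq : (ONE : ℝ) = 2 ^ 80 := by unfold ONE; norm_num

theorem mhi_ge (a b : ℕ) : (a : ℝ) * b ≤ mhi a b * 2 ^ 80 := by
  have h1 : a * b < (a * b / 2 ^ 80 + 1) * 2 ^ 80 := by
    have := Nat.lt_div_mul_add (a := a * b) (b := 2 ^ 80) (by positivity)
    rw [add_mul, one_mul]
    exact this
  have h2 : mhi a b = a * b / 2 ^ 80 + 1 := by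
    have := Nat.shiftRight_eq_div_pow (a * b) 80
    exact congrArg (· + 1) this
  rw [h2]
  exact_mod_cast h1.le

theorem rat_hi (n e : ℕ) (he : 0 < e) : (n : ℝ) / e * 2 ^ 80 ≤ (PI.rat n e).hi := by
  have h2 : (PI.rat n e).hi = n * 2 ^ 80 / e + 1 := by
    have := Nat.shiftLeft_eq n 80
    exact congrArg (fun z => z / e + 1) this
  have h1 : n * 2 ^ 80 < (n * 2 ^ 80 / e + 1) * e := by
    have := Nat.lt_div_mul_add (a := n * 2 ^ 80) (b := e) he
    rw [add_mul, one_mul]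
    exact this
  have he' : (0 : ℝ) < e := by exact_mod_cast he
  rw [h2, div_mul_eq_mul_div, div_le_iff₀ he']
  exact_mod_cast h1.le

theorem addL_nil (b : List ℕ) : addL [] b = b := rfl

theorem addL_cons_nil (x : ℕ) (a : List ℕ) : addL (x :: a) [] = x :: a := rfl

theorem addL_cons (x y : ℕ) (a b : List ℕ) : addL (x :: a) (y :: b) = (x + y) :: addL a b := rfl

theorem smulL_nil (c : ℕ) : smulL c [] = [] := rfl

theorem smulL_cons (c x : ℕ) (a : List ℕ) : smulL c (x :: a) = mhi c x :: smulL c a := rfl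

theorem mulL_nil (b : List ℕ) : mulL [] b = [] := rfl

theorem mulL_cons (x : ℕ) (a b : List ℕ) :
    mulL (x :: a) b = addL (smulL x b) (0 :: mulL a b) := rfl

theorem momA_nil (y j : ℕ) : momA y [] j = 0 := rfl

theorem momA_cons (y x j : ℕ) (l : List ℕ) :
    momA y (x :: l) j = x + mhi (j * y) (momA y l (j + 2)) := rfl

/-- `U m w u`: `u` is nonnegative and bounded by a combination of total weight at most `w` of
`m`-th powers of absolute values of linear forms of norm one -/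
inductive U (m : ℕ) : ℝ → (ℝ → ℝ → ℝ) → Prop
  | base (α β w : ℝ) (u : ℝ → ℝ → ℝ) : α ^ 2 + β ^ 2 = 1 → 0 ≤ w →
      (∀ x y, 0 ≤ u x y ∧ u x y ≤ w * |α * x + β * y| ^ m) → U m w u
  | add (w₁ w₂ w : ℝ) (u₁ u₂ u : ℝ → ℝ → ℝ) : U m w₁ u₁ → U m w₂ u₂ → w₁ + w₂ ≤ w →
      (∀ x y, 0 ≤ u x y ∧ u x y ≤ u₁ x y + u₂ x y) → U m w u

theorem U.nonneg {m : ℕ} {w : ℝ} {u : ℝ → ℝ → ℝ} (h : U m w u) (x y : ℝ) : 0 ≤ u x y := by
  cases h with
  | base α β w u _ _ h => exact (h x y).1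
  | add w₁ w₂ w u₁ u₂ u _ _ _ h => exact (h x y).1

theorem U.w_nonneg {m : ℕ} {w : ℝ} {u : ℝ → ℝ → ℝ} (h : U m w u) : 0 ≤ w := by
  induction h with
  | base α β w u _ h _ => exact h
  | add w₁ w₂ w u₁ u₂ u _ _ h _ h1 h2 => linarith

theorem U.zero (m : ℕ) : U m 0 fun _ _ => 0 :=
  U.base 1 0 0 _ (by norm_num) le_rfl fun _ _ => ⟨le_rfl, by simp⟩

theorem U.mono {m : ℕ} {w w' : ℝ} {u u' : ℝ → ℝ → ℝ} (h : U m w u) (hw : w ≤ w')
    (hu : ∀ x y, 0 ≤ u' x y ∧ u' x y ≤ u x y) : U m w' u' :=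
  U.add w 0 w' u _ u' h (U.zero m) (by linarith) fun x y => ⟨(hu x y).1, by simpa using (hu x y).2⟩

theorem U.const {w : ℝ} (hw : 0 ≤ w) : U 0 w fun _ _ => w :=
  U.base 1 0 w _ (by norm_num) hw fun _ _ => ⟨hw, by simp⟩

theorem young {a b : ℝ} (ha : 0 ≤ a) (hb : 0 ≤ b) (m m' : ℕ) :
    ∃ θ : ℝ, 0 ≤ θ ∧ θ ≤ 1 ∧ θ = (m : ℝ) / (m + m') ∧
      a ^ m * b ^ m' ≤ θ * a ^ (m + m') + (1 - θ) * b ^ (m + m') := by
  refine ⟨_, by positivity, div_le_one_of_le₀ (by simp) (by positivity), rfl, ?_⟩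
  rcases Nat.eq_zero_or_pos (m + m') with h | h
  · obtain ⟨rfl, rfl⟩ := Nat.add_eq_zero_iff.1 h
    simp
  · have hp : (0 : ℝ) < m + m' := by exact_mod_cast h
    have e : 1 - (m : ℝ) / (m + m') = m' / (m + m') := by field_simp; ring
    have h1 := Real.geom_mean_le_arith_mean2_weighted (w₁ := (m : ℝ) / (m + m'))
      (w₂ := (m' : ℝ) / (m + m')) (p₁ := a ^ (m + m')) (p₂ := b ^ (m + m')) (by positivity)
      (by positivity) (by positivity) (by positivity) (by field_simp)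
    have e1 : ∀ (c : ℝ) (j : ℕ), 0 ≤ c → (c ^ (m + m')) ^ ((j : ℝ) / (m + m')) = c ^ j := by
      intro c j hc
      rw [← Real.rpow_natCast, ← Real.rpow_mul hc, ← Real.rpow_natCast]
      congr 1
      push_cast
      field_simp
    rw [e1 a m ha, e1 b m' hb] at h1
    rw [e]
    exact h1

theorem U.mul {m m' : ℕ} {w w' : ℝ} {u u' : ℝ → ℝ → ℝ} (h : U m w u) (h' : U m' w' u') :
    U (m + m') (w * w') fun x y => u x y * u' x y := by
  induction h with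
  | add w₁ w₂ w u₁ u₂ u _ _ hw hu h1 h2 =>
    refine U.add _ _ _ _ _ _ h1 h2 ?_ fun x y => ⟨mul_nonneg (hu x y).1 (h'.nonneg x y), ?_⟩
    · rw [← add_mul]
      exact mul_le_mul_of_nonneg_right hw h'.w_nonneg
    · rw [← add_mul]
      exact mul_le_mul_of_nonneg_right (hu x y).2 (h'.nonneg x y)
  | base α β w u hαβ hw hu =>
    induction h' with
    | add w₁ w₂ w' u₁ u₂ u' _ _ hw' hu' h1 h2 =>
      refine U.add _ _ _ _ _ _ h1 h2 ?_ fun x y => ⟨mul_nonneg (hu x y).1 (hu' x y).1, ?_⟩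
      · rw [← mul_add]
        exact mul_le_mul_of_nonneg_left hw' hw
      · rw [← mul_add]
        exact mul_le_mul_of_nonneg_left (hu' x y).2 (hu x y).1
    | base α' β' w' u' hαβ' hw' hu' =>
      obtain ⟨θ, h0, h1, hθ, -⟩ := young le_rfl le_rfl m m'
      have h1' : 0 ≤ 1 - θ := by linarith
      refine U.add (w * w' * θ) (w * w' * (1 - θ)) _
        (fun x y => w * w' * θ * |α * x + β * y| ^ (m + m'))
        (fun x y => w * w' * (1 - θ) * |α' * x + β' * y| ^ (m + m')) _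
        (U.base α β _ _ hαβ (by positivity) fun x y => ⟨by positivity, le_rfl⟩)
        (U.base α' β' _ _ hαβ' (by positivity) fun x y => ⟨by positivity, le_rfl⟩)
        (le_of_eq (by ring)) fun x y => ⟨mul_nonneg (hu x y).1 (hu' x y).1, ?_⟩
      obtain ⟨θ', -, -, hθ', hy⟩ :=
        young (abs_nonneg (α * x + β * y)) (abs_nonneg (α' * x + β' * y)) m m'
      rw [hθ', ← hθ] at hy
      calc u x y * u' x y ≤ (w * |α * x + β * y| ^ m) * (w' * |α' * x + β' * y| ^ m') :=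
            mul_le_mul (hu x y).2 (hu' x y).2 (hu' x y).1 (by positivity)
        _ = w * w' * (|α * x + β * y| ^ m * |α' * x + β' * y| ^ m') := by ring
        _ ≤ w * w' * (θ * |α * x + β * y| ^ (m + m') + (1 - θ) * |α' * x + β' * y| ^ (m + m')) := by
            gcongr
        _ = _ := by ring

/-- domination by a list of coefficients, in degrees `k, k + 2, ...` -/
def DL : ℕ → List ℕ → (ℝ → ℝ → ℝ) → Prop
  | _, [], f => ∀ x y, f x y = 0
  | k, c :: l, f => ∃ u g : ℝ → ℝ → ℝ, U k ((c : ℝ) / 2 ^ 80) u ∧ DL (k + 2) l g ∧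
      ∀ x y, 0 ≤ f x y ∧ f x y ≤ u x y + g x y

theorem DL.nonneg {k : ℕ} {l : List ℕ} {f : ℝ → ℝ → ℝ} (h : DL k l f) (x y : ℝ) :
    0 ≤ f x y := by
  cases l with
  | nil => exact (h x y).ge
  | cons c l =>
    obtain ⟨u, g, -, -, h⟩ := h
    exact (h x y).1

theorem DL.mono {k : ℕ} {l : List ℕ} {f f' : ℝ → ℝ → ℝ} (h : DL k l f)
    (hf : ∀ x y, 0 ≤ f' x y ∧ f' x y ≤ f x y) : DL k l f' := by
  cases l with
  | nil => exact fun x y => le_antisymm ((hf x y).2.trans (h x y).le) (hf x y).1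
  | cons c l =>
    obtain ⟨u, g, h1, h2, h⟩ := h
    exact ⟨u, g, h1, h2, fun x y => ⟨(hf x y).1, (hf x y).2.trans (h x y).2⟩⟩

theorem DL.nil (k : ℕ) : DL k [] fun _ _ => 0 := fun _ _ => rfl

theorem DL.one {k c : ℕ} {u : ℝ → ℝ → ℝ} (h : U k ((c : ℝ) / 2 ^ 80) u) : DL k [c] u :=
  ⟨u, _, h, DL.nil _, fun x y => ⟨h.nonneg x y, by simp⟩⟩

theorem DL.sh {k : ℕ} {l : List ℕ} {f : ℝ → ℝ → ℝ} (h : DL (k + 2) l f) : DL k (0 :: l) f :=
  ⟨fun _ _ => 0, f, by simpa using U.zero k, h, fun x y => ⟨h.nonneg x y, by simp⟩⟩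

theorem DL.add {a : List ℕ} : ∀ {k : ℕ} {b : List ℕ} {f f' : ℝ → ℝ → ℝ}, DL k a f → DL k b f' →
    DL k (addL a b) fun x y => f x y + f' x y := by
  induction a with
  | nil =>
    intro k b f f' h h'
    rw [addL_nil]
    exact h'.mono fun x y => by rw [h x y, zero_add]; exact ⟨h'.nonneg x y, le_rfl⟩
  | cons c a ih =>
    intro k b f f' h h'
    cases b with
    | nil =>
      rw [addL_cons_nil]
      exact h.mono fun x y => by rw [h' x y, add_zero]; exact ⟨h.nonneg x y, le_rfl⟩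
    | cons c' b =>
      rw [addL_cons]
      obtain ⟨u, g, h1, h2, h3⟩ := h
      obtain ⟨u', g', h1', h2', h3'⟩ := h'
      refine ⟨fun x y => u x y + u' x y, _, U.add _ _ _ _ _ _ h1 h1' ?_ fun x y =>
        ⟨add_nonneg (h1.nonneg x y) (h1'.nonneg x y), le_rfl⟩, ih h2 h2', fun x y =>
        ⟨add_nonneg (h3 x y).1 (h3' x y).1, by linarith [(h3 x y).2, (h3' x y).2]⟩⟩
      push_cast
      exact le_of_eq (by ring)

theorem DL.smul {m c : ℕ} {u : ℝ → ℝ → ℝ} (hu : U m ((c : ℝ) / 2 ^ 80) u) {a : List ℕ} :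
    ∀ {k : ℕ} {f : ℝ → ℝ → ℝ}, DL k a f → DL (m + k) (smulL c a) fun x y => u x y * f x y := by
  induction a with
  | nil =>
    intro k f h x y
    simp only [h x y, mul_zero]
  | cons c' a ih =>
    intro k f h
    rw [smulL_cons]
    obtain ⟨u', g, h1, h2, h3⟩ := h
    refine ⟨fun x y => u x y * u' x y, _, (hu.mul h1).mono ?_ fun x y =>
      ⟨mul_nonneg (hu.nonneg x y) (h1.nonneg x y), le_rfl⟩, ih h2, fun x y =>
      ⟨mul_nonneg (hu.nonneg x y) (h3 x y).1, ?_⟩⟩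
    · have := mhi_ge c c'
      rw [div_mul_div_comm, div_le_div_iff₀ (by positivity) (by positivity), ← mul_assoc]
      gcongr
    · rw [← mul_add]
      exact mul_le_mul_of_nonneg_left (h3 x y).2 (hu.nonneg x y)

theorem DL.mul {b : List ℕ} {k' : ℕ} {f' : ℝ → ℝ → ℝ} (h' : DL k' b f') {a : List ℕ} :
    ∀ {k : ℕ} {f : ℝ → ℝ → ℝ}, DL k a f → DL (k + k') (mulL a b) fun x y => f x y * f' x y := by
  induction a with
  | nil =>
    intro k f h x y
    simp only [h x y, zero_mul]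
  | cons c a ih =>
    intro k f h
    rw [mulL_cons]
    obtain ⟨u, g, h1, h2, h3⟩ := h
    have h4 := ih h2
    rw [show k + 2 + k' = k + k' + 2 by ring] at h4
    refine ((DL.smul h1 h').add h4.sh).mono fun x y =>
      ⟨mul_nonneg (h3 x y).1 (h'.nonneg x y), ?_⟩
    rw [← add_mul]
    exact mul_le_mul_of_nonneg_right (h3 x y).2 (h'.nonneg x y)

/-- Gaussian moments `(2 i - 1)!! / θ ^ (i + 1)` -/
noncomputable def W (θ : ℝ) : ℕ → ℝ
  | 0 => θ⁻¹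
  | i + 1 => (2 * i + 1) * θ⁻¹ * W θ i

theorem W_nonneg {θ : ℝ} (hθ : 0 < θ) (i : ℕ) : 0 ≤ W θ i := by
  induction i with
  | zero => exact (inv_pos.2 hθ).le
  | succ i ih => unfold W; positivity

theorem int_pow {b : ℝ} (hb : 0 < b) (j : ℕ) :
    Integrable fun x : ℝ => x ^ j * Real.exp (-b * x ^ 2) := by
  have h := integrable_rpow_mul_exp_neg_mul_sq hb (s := j)
    (by linarith [Nat.cast_nonneg (α := ℝ) j])
  simpa using h

theorem mom1 {b : ℝ} (hb : 0 < b) (j : ℕ) :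
    2 * b * ∫ x : ℝ, x ^ (j + 2) * Real.exp (-b * x ^ 2) =
      (j + 1) * ∫ x : ℝ, x ^ j * Real.exp (-b * x ^ 2) := by
  have h := integral_eq_zero_of_hasDerivAt_of_integrable
    (f := fun x : ℝ => x ^ (j + 1) * Real.exp (-b * x ^ 2))
    (f' := fun x : ℝ => (j + 1) * (x ^ j * Real.exp (-b * x ^ 2)) -
      2 * b * (x ^ (j + 2) * Real.exp (-b * x ^ 2)))
    (fun x => by
      have h1 := (hasDerivAt_pow (j + 1) x).mul (((hasDerivAt_pow 2 x).const_mul (-b)).exp)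
      refine h1.congr_deriv ?_
      simp only [Nat.add_sub_cancel]
      push_cast
      ring)
    (((int_pow hb j).const_mul _).sub ((int_pow hb (j + 2)).const_mul _)) (int_pow hb (j + 1))
  rw [integral_sub ((int_pow hb j).const_mul _) ((int_pow hb (j + 2)).const_mul _),
    integral_const_mul, integral_const_mul] at h
  linarith

theorem mom2 {θ : ℝ} (hθ : 0 < θ) (i : ℕ) :
    (∫ x : ℝ, x ^ (2 * i) * Real.exp (-(θ / 2) * x ^ 2)) *
      (∫ x : ℝ, Real.exp (-(θ / 2) * x ^ 2)) = 2 * Real.pi * W θ i := by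
  induction i with
  | zero =>
    simp only [mul_zero, pow_zero, one_mul]
    rw [integral_gaussian, Real.mul_self_sqrt (by have := Real.pi_pos; positivity), W]
    field_simp
  | succ i ih =>
    have h := mom1 (b := θ / 2) (by positivity) (2 * i)
    have e : ∫ x : ℝ, x ^ (2 * (i + 1)) * Real.exp (-(θ / 2) * x ^ 2) =
        (2 * i + 1) * θ⁻¹ * ∫ x : ℝ, x ^ (2 * i) * Real.exp (-(θ / 2) * x ^ 2) := by
      rw [show 2 * (i + 1) = 2 * i + 2 by ring]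
      push_cast at h
      generalize ∫ x : ℝ, x ^ (2 * i + 2) * Real.exp (-(θ / 2) * x ^ 2) = A at h ⊢
      generalize ∫ x : ℝ, x ^ (2 * i) * Real.exp (-(θ / 2) * x ^ 2) = B at h ⊢
      field_simp
      linarith
    rw [e, mul_assoc, ih, W]
    ring

theorem rot_mp {α β : ℝ} (h : α ^ 2 + β ^ 2 = 1) :
    MeasurePreserving (fun p : ℝ × ℝ => (α * p.1 + β * p.2, α * p.2 - β * p.1)) := by
  have hn : ‖(⟨α, -β⟩ : ℂ)‖ = 1 := by
    rw [Complex.norm_def, Complex.normSq_mk, Real.sqrt_eq_one]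
    linarith
  let a : Circle := ⟨⟨α, -β⟩, mem_sphere_zero_iff_norm.2 hn⟩
  have h1 := (Complex.volume_preserving_equiv_real_prod.comp
    (rotation a).measurePreserving).comp Complex.volume_preserving_equiv_real_prod.symm
  have e : (fun p : ℝ × ℝ => (α * p.1 + β * p.2, α * p.2 - β * p.1)) =
      (Complex.measurableEquivRealProd ∘ rotation a) ∘ Complex.measurableEquivRealProd.symm := by
    funext p
    have ha : (a : ℂ) = ⟨α, -β⟩ := rfl
    simp only [Function.comp, rotation_apply, Complex.measurableEquivRealProd_apply,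
      Complex.measurableEquivRealProd_symm_apply, ha, Complex.mul_re, Complex.mul_im]
    refine Prod.ext ?_ ?_
    · simp
    · simp
      ring
  rw [e]
  exact h1

/-- the Gaussian weight -/
noncomputable def gw (θ : ℝ) (x y : ℝ) : ℝ :=
  Real.exp (-(θ * ((x ^ 2 + y ^ 2) / 2))) / (2 * Real.pi)

theorem gw_nonneg (θ x y : ℝ) : 0 ≤ gw θ x y := by
  unfold gw; have := Real.pi_pos; positivity

/-- majorants with a bound for the integral -/
def Maj (φ : ℝ → ℝ → ℝ) (I : ℝ) : Prop :=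
  ∃ F : ℝ × ℝ → ℝ, Integrable F ∧ (∀ x y, φ x y ≤ F (x, y)) ∧ ∫ p, F p ≤ I

theorem Maj.add {φ φ₁ φ₂ : ℝ → ℝ → ℝ} {I I₁ I₂ : ℝ} (h₁ : Maj φ₁ I₁) (h₂ : Maj φ₂ I₂)
    (h : ∀ x y, φ x y ≤ φ₁ x y + φ₂ x y) (hI : I₁ + I₂ ≤ I) : Maj φ I := by
  obtain ⟨F₁, a1, a2, a3⟩ := h₁
  obtain ⟨F₂, b1, b2, b3⟩ := h₂
  refine ⟨fun p => F₁ p + F₂ p, a1.add b1, fun x y => by linarith [h x y, a2 x y, b2 x y], ?_⟩
  rw [integral_add a1 b1]
  linarith

theorem Maj.smul {φ φ₁ : ℝ → ℝ → ℝ} {I₁ c : ℝ} (h₁ : Maj φ₁ I₁) (hc : 0 ≤ c)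
    (h : ∀ x y, φ x y ≤ c * φ₁ x y) : Maj φ (c * I₁) := by
  obtain ⟨F₁, a1, a2, a3⟩ := h₁
  refine ⟨fun p => c * F₁ p, a1.const_mul c,
    fun x y => (h x y).trans (mul_le_mul_of_nonneg_left (a2 x y) hc), ?_⟩
  rw [integral_const_mul]
  gcongr

theorem maj_base {θ α β : ℝ} (hθ : 0 < θ) (h : α ^ 2 + β ^ 2 = 1) (i : ℕ) :
    Maj (fun x y => gw θ x y * |α * x + β * y| ^ (2 * i)) (W θ i) := by
  have hb : 0 < θ / 2 := by positivity
  have hpi := Real.pi_pos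
  set g : ℝ × ℝ → ℝ := fun p => (2 * Real.pi)⁻¹ *
    (p.1 ^ (2 * i) * Real.exp (-(θ / 2) * p.1 ^ 2) * Real.exp (-(θ / 2) * p.2 ^ 2)) with hg
  have hgi : Integrable g :=
    ((int_pow hb (2 * i)).mul_prod (integrable_exp_neg_mul_sq hb)).const_mul _
  have hmp := rot_mp h
  refine ⟨fun p => g (α * p.1 + β * p.2, α * p.2 - β * p.1),
    hmp.integrable_comp_of_integrable hgi, fun x y => le_of_eq ?_, le_of_eq ?_⟩
  · simp only [hg, gw]
    rw [pow_mul, sq_abs, ← pow_mul, mul_assoc, ← Real.exp_add]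
    have e : -(θ / 2) * (α * x + β * y) ^ 2 + -(θ / 2) * (α * y - β * x) ^ 2 =
        -(θ * ((x ^ 2 + y ^ 2) / 2)) := by
      linear_combination (-(θ / 2) * (x ^ 2 + y ^ 2)) * h
    rw [e]
    ring
  · have e1 : ∫ p : ℝ × ℝ, g (α * p.1 + β * p.2, α * p.2 - β * p.1) = ∫ p, g p := by
      have := integral_map (μ := (volume : Measure (ℝ × ℝ))) hmp.measurable.aemeasurable
        (f := g) (by rw [hmp.map_eq]; exact hgi.aestronglyMeasurable)
      rw [hmp.map_eq] at this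
      exact this.symm
    rw [e1, hg, integral_const_mul]
    have e2 := integral_prod_mul (μ := (volume : Measure ℝ)) (ν := (volume : Measure ℝ))
      (fun x : ℝ => x ^ (2 * i) * Real.exp (-(θ / 2) * x ^ 2))
      (fun x : ℝ => Real.exp (-(θ / 2) * x ^ 2))
    rw [Measure.volume_eq_prod, e2, mom2 hθ]
    field_simp

theorem U.maj {θ : ℝ} (hθ : 0 < θ) {i : ℕ} {w : ℝ} {u : ℝ → ℝ → ℝ} (h : U (2 * i) w u) :
    Maj (fun x y => gw θ x y * u x y) (w * W θ i) := by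
  induction h with
  | base α β w u hαβ hw hu =>
    refine (maj_base hθ hαβ i).smul hw fun x y => ?_
    have := mul_le_mul_of_nonneg_left (hu x y).2 (gw_nonneg θ x y)
    linarith
  | add w₁ w₂ w u₁ u₂ u _ _ hw hu h1 h2 =>
    refine h1.add h2 (fun x y => ?_) ?_
    · rw [← mul_add]
      exact mul_le_mul_of_nonneg_left (hu x y).2 (gw_nonneg θ x y)
    · rw [← add_mul]
      exact mul_le_mul_of_nonneg_right hw (W_nonneg hθ i)

theorem DL.maj {θ : ℝ} (hθ : 0 < θ) {y : ℕ} (hy : θ⁻¹ * 2 ^ 80 ≤ y) {l : List ℕ} :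
    ∀ {i : ℕ} {f : ℝ → ℝ → ℝ}, DL (2 * i) l f →
      Maj (fun x y => gw θ x y * f x y) (W θ i * momA y l (2 * i + 1) / 2 ^ 80) := by
  induction l with
  | nil =>
    intro i f h
    exact ⟨fun _ => 0, integrable_zero _ _ _, fun x y => by simp [h x y], by simp [momA_nil]⟩
  | cons c l ih =>
    intro i f h
    obtain ⟨u, g, h1, h2, h3⟩ := h
    have h4 := ih (i := i + 1) h2
    refine (h1.maj hθ).add h4 (fun x y => ?_) ?_
    · rw [← mul_add]
      exact mul_le_mul_of_nonneg_left (h3 x y).2 (gw_nonneg θ x y)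
    · rw [momA_cons, W, show 2 * (i + 1) + 1 = 2 * i + 1 + 2 by ring]
      have h5 := mhi_ge ((2 * i + 1) * y) (momA y l (2 * i + 1 + 2))
      generalize momA y l (2 * i + 1 + 2) = A at h5 ⊢
      generalize mhi ((2 * i + 1) * y) A = B at h5 ⊢
      push_cast at h5 ⊢
      have hW := W_nonneg hθ i
      have h6 : (2 * (i : ℝ) + 1) * θ⁻¹ * A ≤ B := by
        have h7 : (2 * (i : ℝ) + 1) * (θ⁻¹ * 2 ^ 80) * A ≤ (2 * i + 1) * y * A := by gcongr
        have h8 : (2 * (i : ℝ) + 1) * θ⁻¹ * A * 2 ^ 80 ≤ B * 2 ^ 80 := by linarith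
        exact le_of_mul_le_mul_right h8 (by positivity)
      have h9 := mul_le_mul_of_nonneg_left h6 hW
      have e : (c : ℝ) / 2 ^ 80 * W θ i + (2 * i + 1) * θ⁻¹ * W θ i * A / 2 ^ 80 =
          (W θ i * c + W θ i * ((2 * i + 1) * θ⁻¹ * A)) / 2 ^ 80 := by ring
      rw [e, mul_add]
      gcongr

theorem DL.maj2 {θ : ℝ} (hθ : 0 < θ) {y : ℕ} (hy : θ⁻¹ * 2 ^ 80 ≤ y) {l : List ℕ}
    {f : ℝ → ℝ → ℝ} (h : DL 2 l f) : Maj (fun x y => gw θ x y * f x y) (momL l y / 2 ^ 80) := by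
  obtain ⟨F, h1, h2, h3⟩ := DL.maj hθ hy (i := 1) h
  refine ⟨F, h1, h2, h3.trans ?_⟩
  unfold momL
  have a1 := mhi_ge y (momA y l 3)
  have a2 := mhi_ge y (mhi y (momA y l 3))
  generalize mhi y (mhi y (momA y l 3)) = C at a2 ⊢
  generalize mhi y (momA y l 3) = B at a1 a2
  have e : W θ 1 = θ⁻¹ * θ⁻¹ := by simp [W]
  rw [e, show 2 * 1 + 1 = 3 by rfl]
  generalize momA y l 3 = A at a1 ⊢
  have hi : 0 < θ⁻¹ := inv_pos.2 hθ
  have b1 : θ⁻¹ * A ≤ B := by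
    have h7 : θ⁻¹ * 2 ^ 80 * A ≤ y * A := by gcongr
    have h8 : θ⁻¹ * A * 2 ^ 80 ≤ B * 2 ^ 80 := by linarith
    exact le_of_mul_le_mul_right h8 (by positivity)
  have b2 : θ⁻¹ * B ≤ C := by
    have h7 : θ⁻¹ * 2 ^ 80 * B ≤ y * B := by gcongr
    have h8 : θ⁻¹ * B * 2 ^ 80 ≤ C * 2 ^ 80 := by linarith
    exact le_of_mul_le_mul_right h8 (by positivity)
  have b3 := mul_le_mul_of_nonneg_left b1 hi.le
  gcongr
  linarith

theorem Maj.box {φ : ℝ → ℝ → ℝ} {I B : ℝ} (h : Maj φ I) (hB : 0 ≤ B)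
    (hφ : Continuous fun p : ℝ × ℝ => φ p.1 p.2) (h0 : ∀ x y, 0 ≤ φ x y) :
    ∫ x in -B..B, ∫ y in -B..B, φ x y ≤ I := by
  obtain ⟨F, h1, h2, h3⟩ := h
  have hBB : -B ≤ B := by linarith
  simp only [intervalIntegral.integral_of_le hBB]
  have hi : IntegrableOn (fun p : ℝ × ℝ => φ p.1 p.2) (Set.Ioc (-B) B ×ˢ Set.Ioc (-B) B)
      ((volume : Measure ℝ).prod volume) :=
    (hφ.continuousOn.integrableOn_compact
      ((isCompact_Icc (a := -B) (b := B)).prod (isCompact_Icc (a := -B) (b := B)))).mono_set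
      (Set.prod_mono Set.Ioc_subset_Icc_self Set.Ioc_subset_Icc_self)
  rw [← setIntegral_prod _ hi, ← Measure.volume_eq_prod]
  refine le_trans (setIntegral_mono hi h1.integrableOn fun p => h2 p.1 p.2) (le_trans ?_ h3)
  exact setIntegral_le_integral h1
    (Filter.Eventually.of_forall fun p => (h0 p.1 p.2).trans (h2 p.1 p.2))

end MomAux

open MomAux

/-- `DT ρ G k kg d f a`: `0 ≤ f ≤ ρ ^ d * (f₁ + G ^ kg * f₂)` where `f₁`, `f₂` are sums of
products of absolute values of linear forms of norm at most one; the total coefficient of the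
products of length `k + 2 j` is at most `a.p[j] / 2 ^ 80` for `f₁` and `a.r[j] / 2 ^ 80` for `f₂`,
and no other lengths occur. -/
def DT (ρ : ℝ) (G : ℝ → ℝ → ℝ) (k kg d : ℕ) (f : ℝ → ℝ → ℝ) (a : TL) : Prop :=
  ∃ f₁ f₂ : ℝ → ℝ → ℝ, DL k a.p f₁ ∧ DL k a.r f₂ ∧
    ∀ x y, 0 ≤ f x y ∧ f x y ≤ ρ ^ d * (f₁ x y + G x y ^ kg * f₂ x y)

namespace DT

variable {ρ : ℝ} {G f f' : ℝ → ℝ → ℝ} {k k' kg kg' d d' : ℕ} {a a' : TL}

theorem lin' {α β : ℝ} {c : ℕ} (h : Real.sqrt (α ^ 2 + β ^ 2) * 2 ^ 80 ≤ ρ ^ d * c) :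
    DT ρ G 1 0 d (fun x y => |α * x + β * y|) (TL.one c) := by
  obtain ⟨α', β', h1, h2⟩ : ∃ α' β' : ℝ, α' ^ 2 + β' ^ 2 = 1 ∧
      ∀ x y, |α * x + β * y| = Real.sqrt (α ^ 2 + β ^ 2) * |α' * x + β' * y| := by
    rcases (Real.sqrt_nonneg (α ^ 2 + β ^ 2)).eq_or_lt with h0 | h0
    · have h1 : α ^ 2 + β ^ 2 ≤ 0 := Real.sqrt_eq_zero'.1 h0.symm
      have ha : α = 0 := by nlinarith [sq_nonneg α, sq_nonneg β]
      have hb : β = 0 := by nlinarith [sq_nonneg α, sq_nonneg β]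
      exact ⟨1, 0, by norm_num, fun x y => by simp [ha, hb]⟩
    · have h1 := Real.sq_sqrt (show 0 ≤ α ^ 2 + β ^ 2 by positivity)
      generalize Real.sqrt (α ^ 2 + β ^ 2) = r at h0 h1
      refine ⟨α / r, β / r, ?_, fun x y => ?_⟩
      · field_simp
        linarith
      · rw [show α * x + β * y = r * (α / r * x + β / r * y) by field_simp, abs_mul,
          abs_of_pos h0]
  refine ⟨fun x y => (c : ℝ) / 2 ^ 80 * |α' * x + β' * y|, fun _ _ => 0,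
    DL.one (U.base α' β' _ _ h1 (by positivity) fun x y => ⟨by positivity, by rw [pow_one]⟩),
    DL.nil _, fun x y => ⟨abs_nonneg _, ?_⟩⟩
  have h3 : Real.sqrt (α ^ 2 + β ^ 2) ≤ ρ ^ d * ((c : ℝ) / 2 ^ 80) := by
    rw [← mul_div_assoc, le_div_iff₀ (by positivity)]
    exact h
  simp only [mul_zero, add_zero]
  rw [h2, ← mul_assoc]
  gcongr

theorem lin (hρ : 0 ≤ ρ) {α β : ℝ} {c : ℕ} (h : Real.sqrt (α ^ 2 + β ^ 2) * 2 ^ 80 ≤ ρ ^ d * c) :
    DT ρ G 1 0 d (fun x y => |α * x + β * y|) (TL.one c) := by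
  have _ := hρ
  exact lin' h

theorem absx : DT ρ G 1 0 0 (fun x _ => |x|) (TL.one ONE) := by
  have h := lin' (ρ := ρ) (G := G) (d := 0) (α := 1) (β := 0) (c := ONE) (by rw [ONE_eq]; simp)
  simpa only [one_mul, zero_mul, add_zero] using h

theorem absy : DT ρ G 1 0 0 (fun _ y => |y|) (TL.one ONE) := by
  have h := lin' (ρ := ρ) (G := G) (d := 0) (α := 0) (β := 1) (c := ONE) (by rw [ONE_eq]; simp)
  simpa only [one_mul, zero_mul, zero_add] using h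

theorem absd : DT ρ G 1 0 0 (fun x y => |y - x|) (TL.one (PI.rat 70711 50000).hi) := by
  have h := lin' (ρ := ρ) (G := G) (d := 0) (α := -1) (β := 1) (c := (PI.rat 70711 50000).hi) (by
    rw [pow_zero, one_mul]
    refine le_trans ?_ (rat_hi 70711 50000 (by norm_num))
    have : Real.sqrt ((-1) ^ 2 + 1 ^ 2) ≤ ((70711 : ℕ) : ℝ) / (50000 : ℕ) :=
      Real.sqrt_le_iff.2 ⟨by positivity, by norm_num⟩
    gcongr)
  have e : (fun x y : ℝ => |y - x|) = fun x y : ℝ => |-1 * x + 1 * y| := by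
    funext x y
    congr 1
    ring
  rw [e]
  exact h

theorem const (hρ : 0 ≤ ρ) {s : ℝ} {c : ℕ} (h : 0 ≤ s ∧ s * 2 ^ 80 ≤ ρ ^ d * c) :
    DT ρ G 0 0 d (fun _ _ => s) (TL.one c) := by
  have _ := hρ
  refine ⟨fun _ _ => (c : ℝ) / 2 ^ 80, fun _ _ => 0, DL.one (U.const (by positivity)), DL.nil _,
    fun x y => ⟨h.1, ?_⟩⟩
  simp only [mul_zero, add_zero]
  rw [← mul_div_assoc, le_div_iff₀ (by positivity)]
  exact h.2

theorem g (hG : ∀ x y, 1 ≤ G x y) : DT ρ G 0 1 0 G TL.g := by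
  refine ⟨fun _ _ => 0, fun _ _ => (ONE : ℝ) / 2 ^ 80, DL.nil _, DL.one (U.const (by positivity)),
    fun x y => ⟨zero_le_one.trans (hG x y), ?_⟩⟩
  rw [ONE_eq, div_self (by positivity)]
  simp

theorem add (h : DT ρ G k kg d f a) (h' : DT ρ G k kg d f' a') :
    DT ρ G k kg d (fun x y => f x y + f' x y) (a.add a') := by
  obtain ⟨f₁, f₂, h1, h2, h3⟩ := h
  obtain ⟨g₁, g₂, k1, k2, k3⟩ := h'
  refine ⟨_, _, h1.add k1, h2.add k2, fun x y => ⟨add_nonneg (h3 x y).1 (k3 x y).1, ?_⟩⟩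
  have := add_le_add (h3 x y).2 (k3 x y).2
  linarith

theorem mul (hρ : 0 ≤ ρ) (hG : ∀ x y, 1 ≤ G x y) (h : DT ρ G k kg d f a)
    (h' : DT ρ G k' kg' d' f' a') :
    DT ρ G (k + k') (kg + kg') (d + d') (fun x y => f x y * f' x y) (a.mul a') := by
  obtain ⟨f₁, f₂, h1, h2, h3⟩ := h
  obtain ⟨g₁, g₂, k1, k2, k3⟩ := h'
  refine ⟨_, _, k1.mul h1, (k2.mul (h1.add h2)).add (k1.mul h2),
    fun x y => ⟨mul_nonneg (h3 x y).1 (k3 x y).1, ?_⟩⟩
  have a1 := h1.nonneg x y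
  have a2 := h2.nonneg x y
  have a3 := k1.nonneg x y
  have a4 := k2.nonneg x y
  have b1 : 1 ≤ G x y ^ kg := one_le_pow₀ (hG x y)
  have b2 : 1 ≤ G x y ^ kg' := one_le_pow₀ (hG x y)
  refine (mul_le_mul (h3 x y).2 (k3 x y).2 (k3 x y).1 ((h3 x y).1.trans (h3 x y).2)).trans ?_
  rw [pow_add, pow_add, mul_mul_mul_comm]
  refine mul_le_mul_of_nonneg_left ?_ (by positivity)
  generalize G x y ^ kg = A at b1
  generalize G x y ^ kg' = B at b2
  have c1 : 0 ≤ (A - 1) * B * (f₁ x y * g₂ x y) := by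
    have : 0 ≤ A - 1 := by linarith
    have : 0 ≤ B := by linarith
    positivity
  have c2 : 0 ≤ A * (B - 1) * (f₂ x y * g₁ x y) := by
    have : 0 ≤ B - 1 := by linarith
    have : 0 ≤ A := by linarith
    positivity
  linarith

theorem smul (hρ : 0 ≤ ρ) {s : ℝ} {c : ℕ} (hs : 0 ≤ s ∧ s * 2 ^ 80 ≤ ρ ^ d' * c)
    (h : DT ρ G k kg d f a) : DT ρ G k kg (d' + d) (fun x y => s * f x y) (a.smul c) := by
  obtain ⟨f₁, f₂, h1, h2, h3⟩ := h
  have hu : U 0 ((c : ℝ) / 2 ^ 80) fun _ _ => (c : ℝ) / 2 ^ 80 := U.const (by positivity)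
  have a1 := DL.smul hu h1
  have a2 := DL.smul hu h2
  rw [zero_add] at a1 a2
  refine ⟨_, _, a1, a2, fun x y => ⟨mul_nonneg hs.1 (h3 x y).1, ?_⟩⟩
  have h4 : s ≤ ρ ^ d' * ((c : ℝ) / 2 ^ 80) := by
    rw [← mul_div_assoc, le_div_iff₀ (by positivity)]
    exact hs.2
  refine (mul_le_mul h4 (h3 x y).2 (h3 x y).1 (by positivity)).trans (le_of_eq ?_)
  ring

theorem qmul (hρ : 0 ≤ ρ) (n e : ℕ) (he : 0 < e) (h : DT ρ G k kg d f a) :
    DT ρ G k kg d (fun x y => (n : ℝ) / e * f x y) (a.smul (PI.rat n e).hi) := by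
  have h1 := smul (d' := 0) hρ (s := (n : ℝ) / e) (c := (PI.rat n e).hi)
    ⟨by positivity, by rw [pow_zero, one_mul]; exact rat_hi n e he⟩ h
  rwa [zero_add] at h1

theorem sh (h : DT ρ G (k + 2) kg d f a) : DT ρ G k kg d f a.sh := by
  obtain ⟨f₁, f₂, h1, h2, h3⟩ := h
  exact ⟨f₁, f₂, h1.sh, h2.sh, h3⟩

theorem up (hρ : 0 ≤ ρ) (hρ' : ρ ≤ 1) (hG : ∀ x y, 1 ≤ G x y) (hk : kg ≤ kg') (hd : d' ≤ d)
    (h : DT ρ G k kg d f a) : DT ρ G k kg' d' f a := by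
  obtain ⟨f₁, f₂, h1, h2, h3⟩ := h
  refine ⟨f₁, f₂, h1, h2, fun x y => ⟨(h3 x y).1, (h3 x y).2.trans ?_⟩⟩
  have a1 := h1.nonneg x y
  have a2 := h2.nonneg x y
  have a3 : 0 ≤ G x y := zero_le_one.trans (hG x y)
  have b1 : ρ ^ d ≤ ρ ^ d' := pow_le_pow_of_le_one hρ hρ' hd
  have b2 : G x y ^ kg ≤ G x y ^ kg' := pow_le_pow_right₀ (hG x y) hk
  gcongr

theorem nonneg (h : DT ρ G k kg d f a) (x y : ℝ) : 0 ≤ f x y := by
  obtain ⟨f₁, f₂, -, -, h3⟩ := h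
  exact (h3 x y).1

/-- Gaussian moments -/
theorem moment (hρ : 0 ≤ ρ) (h : DT ρ G 2 kg d f a)
    (hf : Continuous fun p : ℝ × ℝ => f p.1 p.2) {q qg B : ℝ} {y₁ y₂ : ℕ} (hB : 0 ≤ B)
    (hG0 : ∀ x y, 1 ≤ G x y) (hG : ∀ x y, G x y ≤ Real.exp (qg * ((x ^ 2 + y ^ 2) / 2)))
    (hq : q < 1) (hq' : q + kg * qg < 1)
    (h₁ : (1 - q)⁻¹ * 2 ^ 80 ≤ y₁) (h₂ : (1 - (q + kg * qg))⁻¹ * 2 ^ 80 ≤ y₂) :
    (∫ x in -B..B, ∫ y in -B..B,
      Real.exp (-((1 - q) * ((x ^ 2 + y ^ 2) / 2))) / (2 * Real.pi) * f x y) * 2 ^ 80 ≤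
      ρ ^ d * a.mom y₁ y₂ := by
  obtain ⟨f₁, f₂, h1, h2, h3⟩ := h
  have m1 := DL.maj2 (sub_pos.2 hq) h₁ h1
  have m2 := DL.maj2 (sub_pos.2 hq') h₂ h2
  have m3 : Maj (fun x y => gw (1 - q) x y * (f₁ x y + G x y ^ kg * f₂ x y))
      (momL a.p y₁ / 2 ^ 80 + momL a.r y₂ / 2 ^ 80) := by
    refine m1.add m2 (fun x y => ?_) le_rfl
    have a2 := h2.nonneg x y
    have a3 : 0 ≤ G x y := zero_le_one.trans (hG0 x y)
    have a4 : gw (1 - q) x y * G x y ^ kg ≤ gw (1 - (q + kg * qg)) x y := by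
      have b1 : G x y ^ kg ≤ Real.exp (qg * ((x ^ 2 + y ^ 2) / 2)) ^ kg :=
        pow_le_pow_left₀ a3 (hG x y) kg
      refine (mul_le_mul_of_nonneg_left b1 (gw_nonneg _ _ _)).trans (le_of_eq ?_)
      unfold gw
      rw [← Real.exp_nat_mul, div_mul_eq_mul_div, ← Real.exp_add]
      congr 2
      ring
    have a5 := mul_le_mul_of_nonneg_right a4 a2
    linarith
  have m4 : Maj (fun x y => gw (1 - q) x y * f x y)
      (ρ ^ d * (momL a.p y₁ / 2 ^ 80 + momL a.r y₂ / 2 ^ 80)) := by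
    refine m3.smul (by positivity) fun x y => ?_
    have := mul_le_mul_of_nonneg_left (h3 x y).2 (gw_nonneg (1 - q) x y)
    linarith
  have m5 := m4.box hB (by unfold gw; fun_prop)
    fun x y => mul_nonneg (gw_nonneg _ _ _) (h3 x y).1
  have e : (a.mom y₁ y₂ : ℝ) = momL a.p y₁ + momL a.r y₂ := by
    have : a.mom y₁ y₂ = momL a.p y₁ + momL a.r y₂ := rfl
    rw [this, Nat.cast_add]
  rw [e, ← le_div_iff₀ (by positivity), mul_div_assoc, add_div]
  exact m5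

end DT

end Pool.Agent.Lib.MP_6cad4c_al
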