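import Pool.Agent.Lib.MP_6cad4c_al.OkDef
import Pool.Agent.Lib.MP_6cad4c_al.Side
import Pool.Agent.Lib.MP_6cad4c_al.Mom

namespace Pool.Agent.Lib.MP_6cad4c_al

set_option linter.unusedVariables false

variable {e : EI} {q : Pr} {ρ : ℝ}

theorem tX1_dt (hq : q.Ok) (h : e.Ok ρ q) : DT ρ (eG q) 1 0 0 (eX1 q) (tX1 e) := (DT.absx :)

theorem tX2_dt (hq : q.Ok) (h : e.Ok ρ q) : DT ρ (eG q) 1 0 0 (eX2 q) (tX2 e) := (DT.absy :)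

theorem tdX_dt (hq : q.Ok) (h : e.Ok ρ q) : DT ρ (eG q) 1 0 0 (edX q) (tdX e) := (DT.absd :)

theorem tG_dt (hq : q.Ok) (h : e.Ok ρ q) : DT ρ (eG q) 0 1 0 (eG q) (tG e) := (DT.g (one_le_eG
    hq) :)

theorem tt1_dt (hq : q.Ok) (h : e.Ok ρ q) : DT ρ (eG q) 1 0 1 (et1 q) (tt1 e) := (DT.lin h.h0
    (lin_ok hq h.t1n) :)

theorem tt1p_dt (hq : q.Ok) (h : e.Ok ρ q) : DT ρ (eG q) 1 0 1 (et1p q) (tt1p e) := (DT.lin h.h0
    (lin_ok hq h.t1pn) :)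

theorem tp1_dt (hq : q.Ok) (h : e.Ok ρ q) : DT ρ (eG q) 1 0 1 (ep1 q) (tp1 e) := (DT.smul (d' :=
    1) (d := 0) h.h0 h.et (tX1_dt hq h) :)

theorem tp2_dt (hq : q.Ok) (h : e.Ok ρ q) : DT ρ (eG q) 1 0 1 (ep2 q) (tp2 e) := (DT.smul (d' :=
    1) (d := 0) h.h0 h.et (tX2_dt hq h) :)

theorem td_dt (hq : q.Ok) (h : e.Ok ρ q) : DT ρ (eG q) 1 0 1 (ed q) (td e) := (DT.smul (d' := 1)
    (d := 0) h.h0 h.et (tdX_dt hq h) :)

theorem tmd_dt (hq : q.Ok) (h : e.Ok ρ q) : DT ρ (eG q) 1 0 1 (emd q) (tmd e) := (DT.smul (d' :=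
    1) (d := 0) h.h0 h.etm (tdX_dt hq h) :)

theorem tvp_dt (hq : q.Ok) (h : e.Ok ρ q) : DT ρ (eG q) 1 0 1 (evp q) (tvp e) := (DT.smul (d' :=
    1) (d := 0) h.h0 h.etV (tX1_dt hq h) :)

theorem tA_dt (hq : q.Ok) (h : e.Ok ρ q) : DT ρ (eG q) 1 0 1 (eA q) (tA e) := (DT.add (k := 1)
    (kg := 0) (d := 1) (tmd_dt hq h) (tp2_dt hq h) :)

theorem tAA_dt (hq : q.Ok) (h : e.Ok ρ q) : DT ρ (eG q) 2 0 2 (eAA q) (tAA e) := (DT.mul (k :=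
    1) (k' := 1) (kg := 0) (kg' := 0) (d := 1) (d' := 1) h.h0 (one_le_eG hq) (tA_dt hq h) (tA_dt
    hq h) :)

theorem tdd_dt (hq : q.Ok) (h : e.Ok ρ q) : DT ρ (eG q) 2 0 2 (edd q) (tdd e) := (DT.mul (k :=
    1) (k' := 1) (kg := 0) (kg' := 0) (d := 1) (d' := 1) h.h0 (one_le_eG hq) (td_dt hq h) (td_dt
    hq h) :)

theorem tmdd_dt (hq : q.Ok) (h : e.Ok ρ q) : DT ρ (eG q) 2 0 2 (emdd q) (tmdd e) := (DT.mul (k
    := 1) (k' := 1) (kg := 0) (kg' := 0) (d := 1) (d' := 1) h.h0 (one_le_eG hq) (tmd_dt hq h)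
    (td_dt hq h) :)

theorem tMpd_dt (hq : q.Ok) (h : e.Ok ρ q) : DT ρ (eG q) 1 0 1 (eMpd q) (tMpd e) := (DT.smul (d'
    := 0) (d := 1) h.h0 h.Mp (td_dt hq h) :)

theorem tn3_dt (hq : q.Ok) (h : e.Ok ρ q) : DT ρ (eG q) 3 0 3 (en3 q) (tn3 e) := (DT.mul (k :=
    1) (k' := 2) (kg := 0) (kg' := 0) (d := 1) (d' := 2) h.h0 (one_le_eG hq) (DT.add (k := 1)
    (kg := 0) (d := 1) (DT.smul (d' := 0) (d := 1) h.h0 (ok_zero rat_1_6) (tMpd_dt hq h))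
    (DT.smul (d' := 0) (d := 1) h.h0 (ok_zero rat_1_4) (tmd_dt hq h))) (tdd_dt hq h) :)

theorem te1_dt (hq : q.Ok) (h : e.Ok ρ q) : DT ρ (eG q) 2 0 2 (ee1 q) (te1 e) := (DT.smul (d' :=
    0) (d := 2) h.h0 (ok_zero rat_1_2) (tmdd_dt hq h) :)

theorem te1p_dt (hq : q.Ok) (h : e.Ok ρ q) : DT ρ (eG q) 2 0 2 (ee1p q) (te1p e) := (DT.smul (d'
    := 0) (d := 2) h.h0 (ok_zero rat_1_2) (DT.mul (k := 1) (k' := 1) (kg := 0) (kg' := 0) (d :=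
    1) (d' := 1) h.h0 (one_le_eG hq) (DT.add (k := 1) (kg := 0) (d := 1) (tmd_dt hq h) (tMpd_dt
    hq h)) (td_dt hq h)) :)

theorem tgm1_dt (hq : q.Ok) (h : e.Ok ρ q) : DT ρ (eG q) 2 1 2 (egm1 q) (tgm1 e) := (DT.mul (k
    := 2) (k' := 0) (kg := 0) (kg' := 1) (d := 2) (d' := 0) h.h0 (one_le_eG hq) (te1_dt hq h)
    (tG_dt hq h) :)

theorem tmd3_dt (hq : q.Ok) (h : e.Ok ρ q) : DT ρ (eG q) 3 0 3 (emd3 q) (tmd3 e) := (DT.smul (d'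
    := 0) (d := 3) h.h0 (ok_zero rat_1_6) (DT.mul (k := 2) (k' := 1) (kg := 0) (kg' := 0) (d :=
    2) (d' := 1) h.h0 (one_le_eG hq) (tmdd_dt hq h) (td_dt hq h)) :)

theorem tapp_dt (hq : q.Ok) (h : e.Ok ρ q) : DT ρ (eG q) 1 0 1 (eapp q) (tapp e) := (DT.add (k
    := 1) (kg := 0) (d := 1) (DT.add (k := 1) (kg := 0) (d := 1) (DT.smul (d' := 1) (d := 0)
    h.h0 h.etmu (tdX_dt hq h)) (DT.smul (d' := 0) (d := 1) h.h0 (ok_zero rat_1_2) (tp2_dt hq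
    h))) (DT.up (kg := 0) (kg' := 0) (d := 3) (d' := 1) h.h0 h.h1 (one_le_eG hq) (by decide) (by
    decide) (DT.sh (k := 1) (tn3_dt hq h))) :)

theorem tq1_dt (hq : q.Ok) (h : e.Ok ρ q) : DT ρ (eG q) 2 0 2 (eq1 q) (tq1 e) := (DT.mul (k :=
    1) (k' := 1) (kg := 0) (kg' := 0) (d := 1) (d' := 1) h.h0 (one_le_eG hq) (tp1_dt hq h)
    (tp1_dt hq h) :)

theorem tq2_dt (hq : q.Ok) (h : e.Ok ρ q) : DT ρ (eG q) 2 0 2 (eq2 q) (tq2 e) := (DT.mul (k :=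
    1) (k' := 1) (kg := 0) (kg' := 0) (d := 1) (d' := 1) h.h0 (one_le_eG hq) (tp2_dt hq h)
    (tp2_dt hq h) :)

theorem tr2_dt (hq : q.Ok) (h : e.Ok ρ q) : DT ρ (eG q) 2 0 2 (er2 q) (tr2 e) := (DT.add (k :=
    2) (kg := 0) (d := 2) (tq1_dt hq h) (tq2_dt hq h) :)

theorem tc3_dt (hq : q.Ok) (h : e.Ok ρ q) : DT ρ (eG q) 3 0 3 (ec3 q) (tc3 e) := (DT.add (k :=
    3) (kg := 0) (d := 3) (DT.mul (k := 2) (k' := 1) (kg := 0) (kg' := 0) (d := 2) (d' := 1)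
    h.h0 (one_le_eG hq) (tq1_dt hq h) (tp1_dt hq h)) (DT.mul (k := 2) (k' := 1) (kg := 0) (kg'
    := 0) (d := 2) (d' := 1) h.h0 (one_le_eG hq) (tq2_dt hq h) (tp2_dt hq h)) :)

theorem tc4_dt (hq : q.Ok) (h : e.Ok ρ q) : DT ρ (eG q) 4 0 4 (ec4 q) (tc4 e) := (DT.add (k :=
    4) (kg := 0) (d := 4) (DT.mul (k := 2) (k' := 2) (kg := 0) (kg' := 0) (d := 2) (d' := 2)
    h.h0 (one_le_eG hq) (tq1_dt hq h) (tq1_dt hq h)) (DT.mul (k := 2) (k' := 2) (kg := 0) (kg'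
    := 0) (d := 2) (d' := 2) h.h0 (one_le_eG hq) (tq2_dt hq h) (tq2_dt hq h)) :)

theorem tlc4_dt (hq : q.Ok) (h : e.Ok ρ q) : DT ρ (eG q) 4 0 2 (elc4 q) (tlc4 e) := (DT.smul (d'
    := 0) (d := 2) h.h0 (ok_zero rat_1_24) (DT.add (k := 4) (kg := 0) (d := 2) (DT.mul (k := 2)
    (k' := 2) (kg := 0) (kg' := 0) (d := 0) (d' := 2) h.h0 (one_le_eG hq) (DT.mul (k := 1) (k'
    := 1) (kg := 0) (kg' := 0) (d := 0) (d' := 0) h.h0 (one_le_eG hq) (tX1_dt hq h) (tX1_dt hq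
    h)) (tq1_dt hq h)) (DT.mul (k := 2) (k' := 2) (kg := 0) (kg' := 0) (d := 0) (d' := 2) h.h0
    (one_le_eG hq) (DT.mul (k := 1) (k' := 1) (kg := 0) (kg' := 0) (d := 0) (d' := 0) h.h0
    (one_le_eG hq) (tX2_dt hq h) (tX2_dt hq h)) (tq2_dt hq h))) :)

theorem tsa_dt (hq : q.Ok) (h : e.Ok ρ q) : DT ρ (eG q) 3 1 3 (esa q) (tsa e) := (DT.add (k :=
    3) (kg := 1) (d := 3) (DT.add (k := 3) (kg := 1) (d := 3) (DT.mul (k := 2) (k' := 1) (kg :=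
    1) (kg' := 0) (d := 2) (d' := 1) h.h0 (one_le_eG hq) (tgm1_dt hq h) (tA_dt hq h)) (DT.up (kg
    := 0) (kg' := 1) (d := 3) (d' := 3) h.h0 h.h1 (one_le_eG hq) (by decide) (by decide)
    (DT.smul (d' := 0) (d := 3) h.h0 (ok_zero rat_1_6) (DT.mul (k := 2) (k' := 1) (kg := 0) (kg'
    := 0) (d := 2) (d' := 1) h.h0 (one_le_eG hq) (tAA_dt hq h) (tA_dt hq h))))) (DT.up (kg := 0)
    (kg' := 1) (d := 3) (d' := 3) h.h0 h.h1 (one_le_eG hq) (by decide) (by decide) (tmd3_dt hq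
    h)) :)

theorem tug_dt (hq : q.Ok) (h : e.Ok ρ q) : DT ρ (eG q) 0 1 0 (eug q) (tug e) := (DT.smul (d' :=
    0) (d := 0) h.h0 h.u (tG_dt hq h) :)

theorem teh_dt (hq : q.Ok) (h : e.Ok ρ q) : DT ρ (eG q) 2 0 2 (eeh q) (teh e) := (DT.add (k :=
    2) (kg := 0) (d := 2) (te1_dt hq h) (DT.smul (d' := 0) (d := 2) h.h0 (ok_zero rat_1_2)
    (tAA_dt hq h)) :)

theorem tT3_dt (hq : q.Ok) (h : e.Ok ρ q) : DT ρ (eG q) 1 1 1 (eT3 q) (tT3 e) := (DT.add (k :=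
    1) (kg := 1) (d := 1) (DT.up (kg := 1) (kg' := 1) (d := 3) (d' := 1) h.h0 h.h1 (one_le_eG
    hq) (by decide) (by decide) (DT.sh (k := 1) (DT.add (k := 3) (kg := 1) (d := 3) (DT.up (kg
    := 0) (kg' := 1) (d := 3) (d' := 3) h.h0 h.h1 (one_le_eG hq) (by decide) (by decide) (DT.add
    (k := 3) (kg := 0) (d := 3) (DT.add (k := 3) (kg := 0) (d := 3) (DT.smul (d' := 0) (d := 3)
    h.h0 (ok_zero rat_1_6) (DT.smul (d' := 0) (d := 3) h.h0 h.S (tc3_dt hq h))) (tmd3_dt hq h))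
    (DT.smul (d' := 0) (d := 3) h.h0 (ok_zero rat_1_6) (DT.mul (k := 1) (k' := 2) (kg := 0) (kg'
    := 0) (d := 1) (d' := 2) h.h0 (one_le_eG hq) (tvp_dt hq h) (tq1_dt hq h))))) (DT.smul (d' :=
    0) (d := 3) h.h0 h.u (tsa_dt hq h))))) (DT.smul (d' := 0) (d := 1) h.h0 h.rho1 (DT.mul (k :=
    0) (k' := 1) (kg := 1) (kg' := 0) (d := 0) (d' := 1) h.h0 (one_le_eG hq) (tug_dt hq h)
    (tA_dt hq h))) :)

theorem tD3_dt (hq : q.Ok) (h : e.Ok ρ q) : DT ρ (eG q) 1 1 1 (eD3 q) (tD3 e) := (DT.add (k :=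
    1) (kg := 1) (d := 1) (DT.up (kg := 1) (kg' := 1) (d := 3) (d' := 1) h.h0 h.h1 (one_le_eG
    hq) (by decide) (by decide) (DT.sh (k := 1) (DT.add (k := 3) (kg := 1) (d := 3) (DT.add (k
    := 3) (kg := 1) (d := 3) (DT.up (kg := 0) (kg' := 1) (d := 3) (d' := 3) h.h0 h.h1 (one_le_eG
    hq) (by decide) (by decide) (DT.add (k := 3) (kg := 0) (d := 3) (DT.add (k := 3) (kg := 0)
    (d := 3) (DT.add (k := 3) (kg := 0) (d := 3) (DT.smul (d' := 0) (d := 3) h.h0 (ok_zero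
    rat_1_6) (DT.smul (d' := 0) (d := 3) h.h0 h.nSp (tc3_dt hq h))) (DT.smul (d' := 0) (d := 3)
    h.h0 (ok_zero rat_1_4) (DT.smul (d' := 0) (d := 3) h.h0 h.S (tc3_dt hq h)))) (tn3_dt hq h))
    (DT.mul (k := 1) (k' := 2) (kg := 0) (kg' := 0) (d := 1) (d' := 2) h.h0 (one_le_eG hq)
    (DT.add (k := 1) (kg := 0) (d := 1) (DT.smul (d' := 0) (d := 1) h.h0 (ok_zero rat_1_6)
    (DT.smul (d' := 0) (d := 1) h.h0 h.Vpa (tp1_dt hq h))) (DT.smul (d' := 0) (d := 1) h.h0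
    (ok_zero rat_1_4) (tvp_dt hq h))) (tq1_dt hq h)))) (DT.smul (d' := 0) (d := 3) h.h0 h.Up
    (tsa_dt hq h))) (DT.smul (d' := 0) (d := 3) h.h0 h.u (DT.add (k := 3) (kg := 1) (d := 3)
    (DT.mul (k := 2) (k' := 1) (kg := 1) (kg' := 0) (d := 2) (d' := 1) h.h0 (one_le_eG hq)
    (DT.add (k := 2) (kg := 1) (d := 2) (tgm1_dt hq h) (DT.up (kg := 0) (kg' := 1) (d := 2) (d'
    := 2) h.h0 h.h1 (one_le_eG hq) (by decide) (by decide) (DT.smul (d' := 0) (d := 2) h.h0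
    (ok_zero rat_1_2) (tAA_dt hq h)))) (tapp_dt hq h)) (DT.up (kg := 0) (kg' := 1) (d := 3) (d'
    := 3) h.h0 h.h1 (one_le_eG hq) (by decide) (by decide) (tn3_dt hq h))))))) (DT.mul (k := 0)
    (k' := 1) (kg := 1) (kg' := 0) (d := 0) (d' := 1) h.h0 (one_le_eG hq) (tug_dt hq h) (DT.add
    (k := 1) (kg := 0) (d := 1) (DT.add (k := 1) (kg := 0) (d := 1) (DT.up (kg := 0) (kg' := 0)
    (d := 3) (d' := 1) h.h0 h.h1 (one_le_eG hq) (by decide) (by decide) (DT.sh (k := 1) (DT.mul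
    (k := 2) (k' := 1) (kg := 0) (kg' := 0) (d := 2) (d' := 1) h.h0 (one_le_eG hq) (te1p_dt hq
    h) (tA_dt hq h)))) (DT.smul (d' := 0) (d := 1) h.h0 h.rho2 (DT.add (k := 1) (kg := 0) (d :=
    1) (DT.smul (d' := 0) (d := 1) h.h0 h.ell (tA_dt hq h)) (DT.up (kg := 0) (kg' := 0) (d := 3)
    (d' := 1) h.h0 h.h1 (one_le_eG hq) (by decide) (by decide) (DT.sh (k := 1) (DT.mul (k := 2)
    (k' := 1) (kg := 0) (kg' := 0) (d := 2) (d' := 1) h.h0 (one_le_eG hq) (te1p_dt hq h) (tA_dt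
    hq h))))))) (DT.smul (d' := 0) (d := 1) h.h0 h.rho1 (tapp_dt hq h)))) :)

theorem tn4_dt (hq : q.Ok) (h : e.Ok ρ q) : DT ρ (eG q) 4 0 4 (en4 q) (tn4 e) := (DT.mul (k :=
    1) (k' := 3) (kg := 0) (kg' := 0) (d := 1) (d' := 3) h.h0 (one_le_eG hq) (DT.add (k := 1)
    (kg := 0) (d := 1) (DT.smul (d' := 0) (d := 1) h.h0 (ok_zero rat_1_24) (tMpd_dt hq h))
    (DT.smul (d' := 0) (d := 1) h.h0 (ok_zero rat_1_12) (tmd_dt hq h))) (DT.mul (k := 2) (k' :=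
    1) (kg := 0) (kg' := 0) (d := 2) (d' := 1) h.h0 (one_le_eG hq) (tdd_dt hq h) (td_dt hq h))
    :)

theorem tD4_dt (hq : q.Ok) (h : e.Ok ρ q) : DT ρ (eG q) 2 1 2 (eD4 q) (tD4 e) := (DT.add (k :=
    2) (kg := 1) (d := 2) (DT.up (kg := 1) (kg' := 1) (d := 4) (d' := 2) h.h0 h.h1 (one_le_eG
    hq) (by decide) (by decide) (DT.sh (k := 2) (DT.add (k := 4) (kg := 1) (d := 4) (DT.add (k
    := 4) (kg := 1) (d := 4) (DT.up (kg := 0) (kg' := 1) (d := 4) (d' := 4) h.h0 h.h1 (one_le_eG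
    hq) (by decide) (by decide) (DT.add (k := 4) (kg := 0) (d := 4) (DT.add (k := 4) (kg := 0)
    (d := 4) (DT.add (k := 4) (kg := 0) (d := 4) (DT.smul (d' := 0) (d := 4) h.h0 (ok_zero
    rat_1_24) (DT.smul (d' := 0) (d := 4) h.h0 h.nCp (tc4_dt hq h))) (DT.smul (d' := 0) (d := 4)
    h.h0 (ok_zero rat_1_12) (DT.smul (d' := 0) (d := 4) h.h0 h.C (tc4_dt hq h)))) (tn4_dt hq h))
    (DT.mul (k := 1) (k' := 3) (kg := 0) (kg' := 0) (d := 1) (d' := 3) h.h0 (one_le_eG hq)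
    (DT.add (k := 1) (kg := 0) (d := 1) (DT.smul (d' := 0) (d := 1) h.h0 (ok_zero rat_1_24)
    (DT.smul (d' := 0) (d := 1) h.h0 h.Vpa (tp1_dt hq h))) (DT.smul (d' := 0) (d := 1) h.h0
    (ok_zero rat_1_12) (tvp_dt hq h))) (DT.mul (k := 2) (k' := 1) (kg := 0) (kg' := 0) (d := 2)
    (d' := 1) h.h0 (one_le_eG hq) (tq1_dt hq h) (tp1_dt hq h))))) (DT.smul (d' := 0) (d := 4)
    h.h0 h.Up (DT.add (k := 4) (kg := 1) (d := 4) (DT.up (kg := 0) (kg' := 1) (d := 4) (d' := 4)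
    h.h0 h.h1 (one_le_eG hq) (by decide) (by decide) (DT.add (k := 4) (kg := 0) (d := 4) (DT.add
    (k := 4) (kg := 0) (d := 4) (DT.smul (d' := 0) (d := 4) h.h0 (ok_zero rat_1_24) (DT.mul (k
    := 2) (k' := 2) (kg := 0) (kg' := 0) (d := 2) (d' := 2) h.h0 (one_le_eG hq) (tAA_dt hq h)
    (tAA_dt hq h))) (DT.mul (k := 3) (k' := 1) (kg := 0) (kg' := 0) (d := 3) (d' := 1) h.h0
    (one_le_eG hq) (tmd3_dt hq h) (tA_dt hq h))) (DT.smul (d' := 0) (d := 4) h.h0 (ok_zero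
    rat_1_4) (DT.mul (k := 3) (k' := 1) (kg := 0) (kg' := 0) (d := 3) (d' := 1) h.h0 (one_le_eG
    hq) (tmd3_dt hq h) (td_dt hq h))))) (DT.smul (d' := 0) (d := 4) h.h0 (ok_zero rat_1_2)
    (DT.mul (k := 2) (k' := 2) (kg := 1) (kg' := 0) (d := 2) (d' := 2) h.h0 (one_le_eG hq)
    (tgm1_dt hq h) (DT.add (k := 2) (kg := 0) (d := 2) (te1_dt hq h) (tAA_dt hq h)))))))
    (DT.smul (d' := 0) (d := 4) h.h0 h.u (DT.add (k := 4) (kg := 1) (d := 4) (DT.add (k := 4)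
    (kg := 1) (d := 4) (DT.add (k := 4) (kg := 1) (d := 4) (DT.mul (k := 1) (k' := 3) (kg := 0)
    (kg' := 1) (d := 1) (d' := 3) h.h0 (one_le_eG hq) (tapp_dt hq h) (tsa_dt hq h)) (DT.up (kg
    := 0) (kg' := 1) (d := 4) (d' := 4) h.h0 h.h1 (one_le_eG hq) (by decide) (by decide) (DT.mul
    (k := 3) (k' := 1) (kg := 0) (kg' := 0) (d := 3) (d' := 1) h.h0 (one_le_eG hq) (tn3_dt hq h)
    (tA_dt hq h)))) (DT.mul (k := 2) (k' := 2) (kg := 1) (kg' := 0) (d := 2) (d' := 2) h.h0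
    (one_le_eG hq) (DT.add (k := 2) (kg := 1) (d := 2) (tgm1_dt hq h) (DT.up (kg := 0) (kg' :=
    1) (d := 2) (d' := 2) h.h0 h.h1 (one_le_eG hq) (by decide) (by decide) (DT.smul (d' := 0) (d
    := 2) h.h0 (ok_zero rat_1_2) (tAA_dt hq h)))) (te1p_dt hq h))) (DT.up (kg := 0) (kg' := 1)
    (d := 4) (d' := 4) h.h0 h.h1 (one_le_eG hq) (by decide) (by decide) (tn4_dt hq h)))))))
    (DT.mul (k := 0) (k' := 2) (kg := 1) (kg' := 0) (d := 0) (d' := 2) h.h0 (one_le_eG hq)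
    (tug_dt hq h) (DT.add (k := 2) (kg := 0) (d := 2) (DT.add (k := 2) (kg := 0) (d := 2)
    (DT.smul (d' := 0) (d := 2) h.h0 h.rho3 (DT.smul (d' := 0) (d := 2) h.h0 h.ell (teh_dt hq
    h))) (DT.smul (d' := 0) (d := 2) h.h0 h.rho1 (te1p_dt hq h))) (DT.smul (d' := 0) (d := 2)
    h.h0 h.rho2 (DT.mul (k := 1) (k' := 1) (kg := 0) (kg' := 0) (d := 1) (d' := 1) h.h0
    (one_le_eG hq) (tA_dt hq h) (tapp_dt hq h))))) :)

theorem tcbt_dt (hq : q.Ok) (h : e.Ok ρ q) : DT ρ (eG q) 2 0 2 (ecbt q) (tcbt e) := (DT.smul (d'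
    := 0) (d := 2) h.h0 h.cb (DT.mul (k := 1) (k' := 1) (kg := 0) (kg' := 0) (d := 1) (d' := 1)
    h.h0 (one_le_eG hq) (tA_dt hq h) (tp2_dt hq h)) :)

theorem tQp_dt (hq : q.Ok) (h : e.Ok ρ q) : DT ρ (eG q) 2 0 2 (eQp q) (tQp e) := (DT.add (k :=
    2) (kg := 0) (d := 2) (DT.add (k := 2) (kg := 0) (d := 2) (DT.smul (d' := 0) (d := 2) h.h0
    (ok_zero rat_1_2) (DT.add (k := 2) (kg := 0) (d := 2) (DT.add (k := 2) (kg := 0) (d := 2)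
    (DT.smul (d' := 0) (d := 2) h.h0 h.ccp (tr2_dt hq h)) (DT.mul (k := 1) (k' := 1) (kg := 0)
    (kg' := 0) (d := 1) (d' := 1) h.h0 (one_le_eG hq) (DT.smul (d' := 1) (d := 0) h.h0 h.cdp
    (tdX_dt hq h)) (td_dt hq h))) (DT.mul (k := 1) (k' := 1) (kg := 0) (kg' := 0) (d := 1) (d'
    := 1) h.h0 (one_le_eG hq) (DT.smul (d' := 1) (d := 0) h.h0 h.cvp (tX1_dt hq h)) (tp1_dt hq
    h)))) (DT.smul (d' := 0) (d := 2) h.h0 h.cap (tAA_dt hq h))) (tcbt_dt hq h) :)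

theorem tQm_dt (hq : q.Ok) (h : e.Ok ρ q) : DT ρ (eG q) 2 0 2 (eQm q) (tQm e) := (DT.add (k :=
    2) (kg := 0) (d := 2) (DT.add (k := 2) (kg := 0) (d := 2) (DT.smul (d' := 0) (d := 2) h.h0
    (ok_zero rat_1_2) (DT.add (k := 2) (kg := 0) (d := 2) (DT.mul (k := 1) (k' := 1) (kg := 0)
    (kg' := 0) (d := 1) (d' := 1) h.h0 (one_le_eG hq) (DT.smul (d' := 1) (d := 0) h.h0 h.cdm
    (tdX_dt hq h)) (td_dt hq h)) (DT.mul (k := 1) (k' := 1) (kg := 0) (kg' := 0) (d := 1) (d' :=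
    1) h.h0 (one_le_eG hq) (DT.smul (d' := 1) (d := 0) h.h0 h.cvm (tX1_dt hq h)) (tp1_dt hq
    h)))) (DT.smul (d' := 0) (d := 2) h.h0 h.cam (tAA_dt hq h))) (tcbt_dt hq h) :)

theorem tD2_dt (hq : q.Ok) (h : e.Ok ρ q) : DT ρ (eG q) 2 1 2 (eD2 q) (tD2 e) := (DT.add (k :=
    2) (kg := 1) (d := 2) (DT.add (k := 2) (kg := 1) (d := 2) (DT.add (k := 2) (kg := 1) (d :=
    2) (tD4_dt hq h) (DT.up (kg := 0) (kg' := 1) (d := 2) (d' := 2) h.h0 h.h1 (one_le_eG hq) (by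
    decide) (by decide) (tQp_dt hq h))) (DT.up (kg := 0) (kg' := 1) (d := 2) (d' := 2) h.h0 h.h1
    (one_le_eG hq) (by decide) (by decide) (tQm_dt hq h))) (DT.up (kg := 0) (kg' := 1) (d := 2)
    (d' := 2) h.h0 h.h1 (one_le_eG hq) (by decide) (by decide) (DT.sh (k := 2) (tlc4_dt hq h)))
    :)

theorem tTh_dt (hq : q.Ok) (h : e.Ok ρ q) : DT ρ (eG q) 1 1 1 (eTh q) (tTh e) := (DT.add (k :=
    1) (kg := 1) (d := 1) (tT3_dt hq h) (DT.up (kg := 0) (kg' := 1) (d := 1) (d' := 1) h.h0 h.h1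
    (one_le_eG hq) (by decide) (by decide) (tt1_dt hq h)) :)

theorem tDb_dt (hq : q.Ok) (h : e.Ok ρ q) : DT ρ (eG q) 1 1 1 (eDb q) (tDb e) := (DT.add (k :=
    1) (kg := 1) (d := 1) (tD3_dt hq h) (DT.up (kg := 0) (kg' := 1) (d := 1) (d' := 1) h.h0 h.h1
    (one_le_eG hq) (by decide) (by decide) (tt1p_dt hq h)) :)

theorem tTh2_dt (hq : q.Ok) (h : e.Ok ρ q) : DT ρ (eG q) 2 2 2 (eTh2 q) (tTh2 e) := (DT.mul (k
    := 1) (k' := 1) (kg := 1) (kg' := 1) (d := 1) (d' := 1) h.h0 (one_le_eG hq) (tTh_dt hq h)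
    (tTh_dt hq h) :)

theorem ttt_dt (hq : q.Ok) (h : e.Ok ρ q) : DT ρ (eG q) 2 0 2 (ett q) (ttt e) := (DT.mul (k :=
    1) (k' := 1) (kg := 0) (kg' := 0) (d := 1) (d' := 1) h.h0 (one_le_eG hq) (tt1_dt hq h)
    (tt1p_dt hq h) :)

theorem tPe_dt (hq : q.Ok) (h : e.Ok ρ q) : DT ρ (eG q) 2 4 2 (ePe q) (tPe e) := (DT.add (k :=
    2) (kg := 4) (d := 2) (DT.up (kg := 3) (kg' := 4) (d := 2) (d' := 2) h.h0 h.h1 (one_le_eG
    hq) (by decide) (by decide) (DT.add (k := 2) (kg := 3) (d := 2) (DT.add (k := 2) (kg := 3)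
    (d := 2) (DT.add (k := 2) (kg := 3) (d := 2) (DT.up (kg := 2) (kg' := 3) (d := 2) (d' := 2)
    h.h0 h.h1 (one_le_eG hq) (by decide) (by decide) (DT.add (k := 2) (kg := 2) (d := 2)
    (DT.smul (d' := 0) (d := 2) h.h0 (ok_zero rat_1_2) (DT.smul (d' := 0) (d := 2) h.h0 h.Lm
    (DT.mul (k := 1) (k' := 1) (kg := 1) (kg' := 1) (d := 1) (d' := 1) h.h0 (one_le_eG hq)
    (tT3_dt hq h) (DT.add (k := 1) (kg := 1) (d := 1) (tTh_dt hq h) (DT.up (kg := 0) (kg' := 1)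
    (d := 1) (d' := 1) h.h0 h.h1 (one_le_eG hq) (by decide) (by decide) (tt1_dt hq h))))))
    (DT.up (kg := 1) (kg' := 2) (d := 2) (d' := 2) h.h0 h.h1 (one_le_eG hq) (by decide) (by
    decide) (tD4_dt hq h)))) (DT.up (kg := 3) (kg' := 3) (d := 4) (d' := 2) h.h0 h.h1 (one_le_eG
    hq) (by decide) (by decide) (DT.sh (k := 2) (DT.smul (d' := 0) (d := 4) h.h0 (ok_zero
    rat_1_2) (DT.mul (k := 2) (k' := 2) (kg := 1) (kg' := 2) (d := 2) (d' := 2) h.h0 (one_le_eG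
    hq) (tD2_dt hq h) (tTh2_dt hq h)))))) (DT.up (kg := 1) (kg' := 3) (d := 2) (d' := 2) h.h0
    h.h1 (one_le_eG hq) (by decide) (by decide) (DT.mul (k := 1) (k' := 1) (kg := 0) (kg' := 1)
    (d := 1) (d' := 1) h.h0 (one_le_eG hq) (tt1p_dt hq h) (tT3_dt hq h)))) (DT.up (kg := 2) (kg'
    := 3) (d := 2) (d' := 2) h.h0 h.h1 (one_le_eG hq) (by decide) (by decide) (DT.mul (k := 1)
    (k' := 1) (kg := 1) (kg' := 1) (d := 1) (d' := 1) h.h0 (one_le_eG hq) (tD3_dt hq h) (tTh_dt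
    hq h))))) (DT.up (kg := 4) (kg' := 4) (d := 4) (d' := 2) h.h0 h.h1 (one_le_eG hq) (by
    decide) (by decide) (DT.sh (k := 2) (DT.smul (d' := 0) (d := 4) h.h0 (ok_zero rat_1_6)
    (DT.mul (k := 2) (k' := 2) (kg := 2) (kg' := 2) (d := 2) (d' := 2) h.h0 (one_le_eG hq)
    (DT.mul (k := 1) (k' := 1) (kg := 1) (kg' := 1) (d := 1) (d' := 1) h.h0 (one_le_eG hq)
    (tDb_dt hq h) (tTh_dt hq h)) (tTh2_dt hq h))))) :)

theorem tam_dt (hq : q.Ok) (h : e.Ok ρ q) : DT ρ (eG q) 2 1 2 (eam q) (tam e) := (DT.add (k :=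
    2) (kg := 1) (d := 2) (DT.add (k := 2) (kg := 1) (d := 2) (DT.up (kg := 0) (kg' := 1) (d :=
    2) (d' := 2) h.h0 h.h1 (one_le_eG hq) (by decide) (by decide) (DT.smul (d' := 0) (d := 2)
    h.h0 (ok_zero rat_1_2) (DT.smul (d' := 0) (d := 2) h.h0 h.C (tr2_dt hq h)))) (DT.smul (d' :=
    0) (d := 2) h.h0 h.u (tgm1_dt hq h))) (DT.smul (d' := 0) (d := 2) h.h0 h.rho2 (DT.mul (k :=
    0) (k' := 2) (kg := 1) (kg' := 0) (d := 0) (d' := 2) h.h0 (one_le_eG hq) (tug_dt hq h)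
    (teh_dt hq h))) :)

theorem tQQ_dt (hq : q.Ok) (h : e.Ok ρ q) : DT ρ (eG q) 0 0 2 (eQQ q) (tQQ e) := (DT.add (k :=
    0) (kg := 0) (d := 2) (DT.add (k := 0) (kg := 0) (d := 2) (DT.add (k := 0) (kg := 0) (d :=
    2) (DT.const h.h0 h.Lp) (DT.sh (k := 0) (DT.smul (d' := 0) (d := 2) h.h0 (ok_zero rat_1_2)
    (DT.smul (d' := 0) (d := 2) h.h0 h.Lm (DT.mul (k := 1) (k' := 1) (kg := 0) (kg' := 0) (d :=
    1) (d' := 1) h.h0 (one_le_eG hq) (tt1_dt hq h) (tt1_dt hq h)))))) (DT.sh (k := 0) (tQp_dt hq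
    h))) (DT.sh (k := 0) (ttt_dt hq h)) :)

theorem tY_dt (hq : q.Ok) (h : e.Ok ρ q) : DT ρ (eG q) 2 0 0 (eY q) (tY e) := (DT.smul (d' := 0)
    (d := 0) h.h0 (ok_zero rat_1_2) (DT.add (k := 2) (kg := 0) (d := 0) (DT.mul (k := 1) (k' :=
    1) (kg := 0) (kg' := 0) (d := 0) (d' := 0) h.h0 (one_le_eG hq) (tX1_dt hq h) (tX1_dt hq h))
    (DT.mul (k := 1) (k' := 1) (kg := 0) (kg' := 0) (d := 0) (d' := 0) h.h0 (one_le_eG hq)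
    (tX2_dt hq h) (tX2_dt hq h))) :)

theorem tEtot_dt (hq : q.Ok) (h : e.Ok ρ q) : DT ρ (eG q) 2 4 2 (eEtot q) (tEtot e) := (DT.add
    (k := 2) (kg := 4) (d := 2) (DT.add (k := 2) (kg := 4) (d := 2) (tPe_dt hq h) (DT.up (kg :=
    0) (kg' := 4) (d := 2) (d' := 2) h.h0 h.h1 (one_le_eG hq) (by decide) (by decide) (DT.smul
    (d' := 0) (d := 2) h.h0 h.qa (DT.mul (k := 2) (k' := 0) (kg := 0) (kg' := 0) (d := 0) (d' :=
    2) h.h0 (one_le_eG hq) (tY_dt hq h) (tQQ_dt hq h))))) (DT.up (kg := 1) (kg' := 4) (d := 2)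
    (d' := 2) h.h0 h.h1 (one_le_eG hq) (by decide) (by decide) (DT.mul (k := 2) (k' := 0) (kg :=
    1) (kg' := 0) (d := 2) (d' := 0) h.h0 (one_le_eG hq) (tam_dt hq h) (DT.add (k := 0) (kg :=
    0) (d := 0) (DT.add (k := 0) (kg := 0) (d := 0) (DT.const h.h0 h.Lm) (DT.up (kg := 0) (kg'
    := 0) (d := 2) (d' := 0) h.h0 h.h1 (one_le_eG hq) (by decide) (by decide) (DT.sh (k := 0)
    (tQm_dt hq h)))) (DT.up (kg := 0) (kg' := 0) (d := 2) (d' := 0) h.h0 h.h1 (one_le_eG hq) (by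
    decide) (by decide) (DT.sh (k := 0) (ttt_dt hq h)))))) :)

end Pool.Agent.Lib.MP_6cad4c_al
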