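import Pool.Agent.Lib.MP_6cad4c_al.Sound
import Pool.Agent.Lib.MP_6cad4c_al.SoundT
import Pool.Agent.Lib.MP_6cad4c_al.HB
import Pool.Agent.Lib.MP_6cad4c_al.KId

namespace Pool.Agent.Lib.MP_6cad4c_al

theorem pw_pos (L g : ℝ) : 0 < pw L g := by
  unfold pw pu0 peA; positivity

theorem cont_DD (L B : ℝ) : Continuous (DD L B) :=
  cont_double (f := dKr L) (cont_dKr.comp (Continuous.prodMk continuous_const continuous_id)) B

theorem DD_le {L g B ρ : ℝ} (hL : 47 / 10 ≤ L) (hM : 287 / 100 ≤ L + g)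
    (hB : 419 / 1000 ≤ eta L * B) (hB' : eta L * B ≤ 42 / 100) {e : EI} (he : e.Ok ρ (mkPr L g))
    {y₁ y₂ : ℕ} (hq : (mkPr L g).qa < 1) (hq' : (mkPr L g).qa + 4 * (mkPr L g).qg < 1)
    (h₁ : (1 - (mkPr L g).qa)⁻¹ * 2 ^ 80 ≤ y₁)
    (h₂ : (1 - ((mkPr L g).qa + 4 * (mkPr L g).qg))⁻¹ * 2 ^ 80 ≤ y₂) :
    DD L B g ≤ pw L g * ((mkPr L g).main + ((mkPr L g).aerr +
      ρ ^ 2 * (tEtot e).mom y₁ y₂ / 2 ^ 80)) := by
  have hq0 := mkPr_ok hL hM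
  have hB0 : 0 ≤ B := by
    by_contra h
    nlinarith [eta_pos L, not_le.1 h]
  have h := DT.moment he.h0 (tEtot_dt hq0 he) (cont_eEtot _) hB0 (one_le_eG hq0) (eG_le hq0) hq
    (by exact_mod_cast hq') h₁ (by exact_mod_cast h₂)
  have h2 := int_PF_le hq0 hB hB' ((le_div_iff₀ (by positivity)).2 h)
  unfold DD dKr
  simp only [intervalIntegral.integral_const_mul]
  exact mul_le_mul_of_nonneg_left h2 (pw_pos L g).le

theorem cell_le {s : SP} {c : CP} {L g B : ℝ} (hs : s.Ok L) (hc : c.Ok L g)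
    (ok : cellOk s c = true) (hB : 419 / 1000 ≤ eta L * B) (hB' : eta L * B ≤ 42 / 100) :
    DD L B g * 2 ^ 80 ≤ ((cellB s c).p.hi : ℝ) - (cellB s c).n.lo := by
  have hM : 287 / 100 ≤ L + g := by linarith [hc.hM]
  have hq0 := mkPr_ok hs.hL hM
  have hi := mkCI_ok hs hc
  have ha := (dqa_mem hq0 hi).2
  have hg := (dqg_mem hq0 hi).2
  have hlt : dq2 (mkCI s c) < ONE := by
    unfold cellOk at ok
    rwa [Nat.blt_eq] at ok
  have h2 : ((mkPr L g).qa + 4 * (mkPr L g).qg) * 2 ^ 80 ≤ (dq2 (mkCI s c) : ℝ) := by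
    have : (dq2 (mkCI s c) : ℝ) = (dqa (mkCI s c)).hi + 4 * (dqg (mkCI s c)).hi := by
      unfold dq2; simp
    rw [this]; linarith
  have hlt1 : (dqa (mkCI s c)).hi < ONE := lt_of_le_of_lt (Nat.le_add_right _ _) hlt
  obtain ⟨h3, h4⟩ := geoHi_ge ha hlt1
  obtain ⟨h5, h6⟩ := geoHi_ge h2 hlt
  have h7 := DD_le hs.hL hM hB hB' (mkEI_ok hq0 hi) h3 h5 h4 h6
  have h8 : PI.Mem ((derr (mkCI s c) : ℝ) / 2 ^ 80) ⟨0, derr (mkCI s c)⟩ := by
    constructor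
    · simp
    · rw [div_mul_cancel₀ _ (by positivity)]
  have h9 := (SI.smul_mem (cw_mem hs hc)
    (SI.addP_mem (dmain_mem hq0 hi) (PI.add_mem (daerr_mem hq0 hi) h8))).le
  rw [one_pow, one_mul] at h7
  exact le_trans (mul_le_mul_of_nonneg_right h7 (by positivity)) h9

end Pool.Agent.Lib.MP_6cad4c_al
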