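import Pool.Agent.Lib.MP_6cad4c_al.Strip

namespace Pool.Agent.Lib.MP_6cad4c_al

theorem c0_0 : MOk 47028 47265 29000 37500 825390202071061664301000 :=
  MOk.chk 500 17 (by norm_num) (by decide +kernel)

theorem c0_1 : SOk 47028 47265 20000 30200 8438375332773881578249200 0 :=
  SOk.chk 300 34 (by norm_num) (by decide +kernel)

theorem c0_2 : SOk 47028 47265 30200 42200 0 62149175371506749725491400 :=
  SOk.chk 200 60 (by norm_num) (by decide +kernel)

theorem c0_3 : SOk 47028 47265 42200 54200 0 50376277041535829706083400 :=
  SOk.chk 200 60 (by norm_num) (by decide +kernel)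

theorem c0_4 : SOk 47028 47265 54200 65000 19768179685941702992899600 0 :=
  SOk.chk 200 54 (by norm_num) (by decide +kernel)

theorem c0_5 : SOk 47028 47265 65000 80000 31530858865550080521736200 0 :=
  SOk.chk 600 25 (by norm_num) (by decide +kernel)

theorem c0_6 : SOk 47028 47265 80000 95600 13872085590964654984872000 0 :=
  SOk.chk 1200 13 (by norm_num) (by decide +kernel)

theorem c0_7 : SOk 47028 47265 95600 110000 4525032138539652387496800 0 :=
  SOk.chk 2400 6 (by norm_num) (by decide +kernel)

theorem c0_8 : GOk 47028 47265 110000 140000 3064185819309799162500000 :=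
  GOk.chk 10000 3 (by norm_num) (by decide +kernel)

theorem c0_9 : GOk 47028 47265 140000 285434 597654159380572731161019 :=
  GOk.chk 24239 6 (by norm_num) (by decide +kernel)

theorem strip0 : StripOk 47028 47265 :=
  stripM c0_0 (by norm_num) (by norm_num)
    ((((((c0_1.trans c0_2).trans c0_3).trans c0_4).trans c0_5).trans c0_6).trans c0_7)
    (c0_8.trans c0_9)
    (by norm_num) (by norm_num) (by norm_num) (by decide +kernel)

theorem c1_0 : MOk 47265 47620 29000 38000 838065034578626401331500 :=
  MOk.chk 500 18 (by norm_num) (by decide +kernel)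

theorem c1_1 : SOk 47265 47620 20000 30200 7463155426274489746431300 0 :=
  SOk.chk 300 34 (by norm_num) (by decide +kernel)

theorem c1_2 : SOk 47265 47620 30200 42200 0 61885624005654736675243800 :=
  SOk.chk 200 60 (by norm_num) (by decide +kernel)

theorem c1_3 : SOk 47265 47620 42200 54200 0 49636543346358773958923800 :=
  SOk.chk 200 60 (by norm_num) (by decide +kernel)

theorem c1_4 : SOk 47265 47620 54200 65000 19865601023585184398226200 0 :=
  SOk.chk 200 54 (by norm_num) (by decide +kernel)

theorem c1_5 : SOk 47265 47620 65000 80000 31398186636616505750773200 0 :=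
  SOk.chk 600 25 (by norm_num) (by decide +kernel)

theorem c1_6 : SOk 47265 47620 80000 95600 13761041617727985710182800 0 :=
  SOk.chk 1200 13 (by norm_num) (by decide +kernel)

theorem c1_7 : SOk 47265 47620 95600 110000 4475117205790759299069600 0 :=
  SOk.chk 2400 6 (by norm_num) (by decide +kernel)

theorem c1_8 : GOk 47265 47620 110000 140000 3018093655422773659020000 :=
  GOk.chk 10000 3 (by norm_num) (by decide +kernel)

theorem c1_9 : GOk 47265 47620 140000 286676 590969612961326339297044 :=
  GOk.chk 24446 6 (by norm_num) (by decide +kernel)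

theorem strip1 : StripOk 47265 47620 :=
  stripM c1_0 (by norm_num) (by norm_num)
    ((((((c1_1.trans c1_2).trans c1_3).trans c1_4).trans c1_5).trans c1_6).trans c1_7)
    (c1_8.trans c1_9)
    (by norm_num) (by norm_num) (by norm_num) (by decide +kernel)

end Pool.Agent.Lib.MP_6cad4c_al
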