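import Pool.Agent.Lib.MP_6cad4c_al.Strip

namespace Pool.Agent.Lib.MP_6cad4c_al

theorem c2_0 : MOk 47620 48041 29000 38500 719845191889861956837000 :=
  MOk.chk 500 19 (by norm_num) (by decide +kernel)

theorem c2_1 : SOk 47620 48041 20000 30350 7163570004031484904604050 0 :=
  SOk.chk 450 23 (by norm_num) (by decide +kernel)

theorem c2_2 : SOk 47620 48041 30350 48350 0 97950169383652650636741600 :=
  SOk.chk 300 60 (by norm_num) (by decide +kernel)

theorem c2_3 : SOk 47620 48041 48350 65150 8933073023566029666364800 0 :=
  SOk.chk 300 56 (by norm_num) (by decide +kernel)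

theorem c2_4 : SOk 47620 48041 65150 80450 31716042249101848245793800 0 :=
  SOk.chk 900 17 (by norm_num) (by decide +kernel)

theorem c2_5 : SOk 47620 48041 80450 96650 13842675780183658321961400 0 :=
  SOk.chk 1800 9 (by norm_num) (by decide +kernel)

theorem c2_6 : SOk 47620 48041 96650 111050 4334424298471441763352000 0 :=
  SOk.chk 3600 4 (by norm_num) (by decide +kernel)

theorem c2_7 : GOk 47620 48041 111050 141050 2685204502746431563980000 :=
  GOk.chk 10000 3 (by norm_num) (by decide +kernel)

theorem c2_8 : GOk 47620 48041 141050 289196 526028735779824978979649 :=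
  GOk.chk 24691 6 (by norm_num) (by decide +kernel)

theorem strip2 : StripOk 47620 48041 :=
  stripM c2_0 (by norm_num) (by norm_num)
    (((((c2_1.trans c2_2).trans c2_3).trans c2_4).trans c2_5).trans c2_6)
    (c2_7.trans c2_8)
    (by norm_num) (by norm_num) (by norm_num) (by decide +kernel)

theorem c3_0 : GOk 48041 48540 5000 20000 797799634505629271971000 :=
  GOk.chk 1000 15 (by norm_num) (by decide +kernel)

theorem c3_1 : SOk 48041 48540 20000 30200 6600751516743148063478400 0 :=
  SOk.chk 600 17 (by norm_num) (by decide +kernel)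

theorem c3_2 : SOk 48041 48540 30200 54200 0 106573588885968788321392000 :=
  SOk.chk 400 60 (by norm_num) (by decide +kernel)

theorem c3_3 : SOk 48041 48540 54200 65000 18836386456760602849597600 0 :=
  SOk.chk 400 27 (by norm_num) (by decide +kernel)

theorem c3_4 : SOk 48041 48540 65000 80600 32267728779085228155507600 0 :=
  SOk.chk 1200 13 (by norm_num) (by decide +kernel)

theorem c3_5 : SOk 48041 48540 80600 95000 13009379605656995673511200 0 :=
  SOk.chk 2400 6 (by norm_num) (by decide +kernel)

theorem c3_6 : SOk 48041 48540 95000 114200 5913980023464384709204800 0 :=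
  SOk.chk 4800 4 (by norm_num) (by decide +kernel)

theorem c3_7 : GOk 48041 48540 114200 144200 2000782615141674688700000 :=
  GOk.chk 10000 3 (by norm_num) (by decide +kernel)

theorem c3_8 : GOk 48041 48540 144200 294092 390099220577794052908082 :=
  GOk.chk 24982 6 (by norm_num) (by decide +kernel)

theorem strip3 : StripOk 48041 48540 :=
  stripG c3_0
    (((((c3_1.trans c3_2).trans c3_3).trans c3_4).trans c3_5).trans c3_6)
    (c3_7.trans c3_8)
    (by norm_num) (by norm_num) (by norm_num) (by decide +kernel)

theorem c4_0 : GOk 48540 49288 5000 20000 601492466025937488780000 :=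
  GOk.chk 1000 15 (by norm_num) (by decide +kernel)

theorem c4_1 : SOk 48540 49288 20000 30200 4940147689929745212731400 0 :=
  SOk.chk 600 17 (by norm_num) (by decide +kernel)

theorem c4_2 : SOk 48540 49288 30200 54200 0 104565766184984876029308800 :=
  SOk.chk 400 60 (by norm_num) (by decide +kernel)

theorem c4_3 : SOk 48540 49288 54200 65000 18835880076573204544491200 0 :=
  SOk.chk 400 27 (by norm_num) (by decide +kernel)

theorem c4_4 : SOk 48540 49288 65000 80600 31854579987697091254389600 0 :=
  SOk.chk 1200 13 (by norm_num) (by decide +kernel)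

theorem c4_5 : SOk 48540 49288 80600 95000 12757598094678067225500000 0 :=
  SOk.chk 2400 6 (by norm_num) (by decide +kernel)

theorem c4_6 : SOk 48540 49288 95000 114200 5762495413105800889396800 0 :=
  SOk.chk 4800 4 (by norm_num) (by decide +kernel)

theorem c4_7 : GOk 48540 49288 114200 144200 1934490595754695961080000 :=
  GOk.chk 10000 3 (by norm_num) (by decide +kernel)

theorem c4_8 : GOk 48540 49288 144200 296714 380356308295106859032106 :=
  GOk.chk 25419 6 (by norm_num) (by decide +kernel)

theorem strip4 : StripOk 48540 49288 :=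
  stripG c4_0
    (((((c4_1.trans c4_2).trans c4_3).trans c4_4).trans c4_5).trans c4_6)
    (c4_7.trans c4_8)
    (by norm_num) (by norm_num) (by norm_num) (by decide +kernel)

end Pool.Agent.Lib.MP_6cad4c_al
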