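import Pool.Agent.Lib.MP_6cad4c_al.Strip

namespace Pool.Agent.Lib.MP_6cad4c_al

theorem c5_0 : GOk 49288 50503 5000 20000 427570733055815296333000 :=
  GOk.chk 1000 15 (by norm_num) (by decide +kernel)

theorem c5_1 : SOk 49288 50503 20000 30200 3252774702286849743748800 0 :=
  SOk.chk 600 17 (by norm_num) (by decide +kernel)

theorem c5_2 : SOk 49288 50503 30200 54200 0 99652474501547955864442400 :=
  SOk.chk 400 60 (by norm_num) (by decide +kernel)

theorem c5_3 : SOk 49288 50503 54200 65000 19270061218374598056005600 0 :=
  SOk.chk 400 27 (by norm_num) (by decide +kernel)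

theorem c5_4 : SOk 49288 50503 65000 80600 31512088619294600432527200 0 :=
  SOk.chk 1200 13 (by norm_num) (by decide +kernel)

theorem c5_5 : SOk 49288 50503 80600 95000 12469238158063853101860000 0 :=
  SOk.chk 2400 6 (by norm_num) (by decide +kernel)

theorem c5_6 : SOk 49288 50503 95000 114200 5573676869370124919510400 0 :=
  SOk.chk 4800 4 (by norm_num) (by decide +kernel)

theorem c5_7 : GOk 49288 50503 114200 144200 1848611583732801095810000 :=
  GOk.chk 10000 3 (by norm_num) (by decide +kernel)

theorem c5_8 : GOk 49288 50503 144200 300962 368685346257405012873195 :=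
  GOk.chk 26127 6 (by norm_num) (by decide +kernel)

theorem strip5 : StripOk 49288 50503 :=
  stripG c5_0
    (((((c5_1.trans c5_2).trans c5_3).trans c5_4).trans c5_5).trans c5_6)
    (c5_7.trans c5_8)
    (by norm_num) (by norm_num) (by norm_num) (by decide +kernel)

theorem c6_0 : GOk 50503 52097 5000 20000 463434718373500852819500 :=
  GOk.chk 1500 10 (by norm_num) (by decide +kernel)

theorem c6_1 : SOk 50503 52097 20000 30800 1710977888549128106034000 0 :=
  SOk.chk 900 12 (by norm_num) (by decide +kernel)

theorem c6_2 : SOk 50503 52097 30800 65000 0 75122781484736304786918600 :=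
  SOk.chk 600 57 (by norm_num) (by decide +kernel)

theorem c6_3 : SOk 50503 52097 65000 81200 31573200330569895331006800 0 :=
  SOk.chk 1800 9 (by norm_num) (by decide +kernel)

theorem c6_4 : SOk 50503 52097 81200 95600 11977387788375407699841600 0 :=
  SOk.chk 3600 4 (by norm_num) (by decide +kernel)

theorem c6_5 : SOk 50503 52097 95600 110000 4910467001498445387168000 0 :=
  SOk.chk 7200 2 (by norm_num) (by decide +kernel)

theorem c6_6 : GOk 50503 52097 110000 140000 2362590243608941147160000 :=
  GOk.chk 10000 3 (by norm_num) (by decide +kernel)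

theorem c6_7 : GOk 50503 52097 140000 302342 484179577227002382711174 :=
  GOk.chk 27057 6 (by norm_num) (by decide +kernel)

theorem strip6 : StripOk 50503 52097 :=
  stripG c6_0
    ((((c6_1.trans c6_2).trans c6_3).trans c6_4).trans c6_5)
    (c6_6.trans c6_7)
    (by norm_num) (by norm_num) (by norm_num) (by decide +kernel)

theorem c7_0 : GOk 52097 54089 5000 20000 449351979028886843344500 :=
  GOk.chk 1500 10 (by norm_num) (by decide +kernel)

theorem c7_1 : SOk 52097 54089 20000 30800 354684472747359672423600 0 :=
  SOk.chk 1200 9 (by norm_num) (by decide +kernel)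

theorem c7_2 : SOk 52097 54089 30800 65200 0 73066814751421396135432000 :=
  SOk.chk 800 43 (by norm_num) (by decide +kernel)

theorem c7_3 : SOk 52097 54089 65200 82000 29991220151269890168004800 0 :=
  SOk.chk 2400 7 (by norm_num) (by decide +kernel)

theorem c7_4 : SOk 52097 54089 82000 96400 10890372356451432569179200 0 :=
  SOk.chk 4800 3 (by norm_num) (by decide +kernel)

theorem c7_5 : SOk 52097 54089 96400 115600 5351226216742326378422400 0 :=
  SOk.chk 9600 2 (by norm_num) (by decide +kernel)

theorem c7_6 : GOk 52097 54089 115600 145600 1293988745478293094320000 :=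
  GOk.chk 10000 3 (by norm_num) (by decide +kernel)

theorem c7_7 : GOk 52097 54089 145600 314914 266244236021017289101508 :=
  GOk.chk 28219 6 (by norm_num) (by decide +kernel)

theorem strip7 : StripOk 52097 54089 :=
  stripG c7_0
    ((((c7_1.trans c7_2).trans c7_3).trans c7_4).trans c7_5)
    (c7_6.trans c7_7)
    (by norm_num) (by norm_num) (by norm_num) (by decide +kernel)

theorem c8_0 : MOk 54089 57824 29089 48089 478906057658140488598000 :=
  MOk.chk 500 38 (by norm_num) (by decide +kernel)

theorem c8_1 : SOk 54089 57824 20000 30800 0 282145911247004658003600 :=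
  SOk.chk 1200 9 (by norm_num) (by decide +kernel)

theorem c8_2 : SOk 54089 57824 30800 65200 0 60471246735340492567394400 :=
  SOk.chk 800 43 (by norm_num) (by decide +kernel)

theorem c8_3 : SOk 54089 57824 65200 82000 28790206370738921716236000 0 :=
  SOk.chk 2400 7 (by norm_num) (by decide +kernel)

theorem c8_4 : SOk 54089 57824 82000 96400 10178463231415774313347200 0 :=
  SOk.chk 4800 3 (by norm_num) (by decide +kernel)

theorem c8_5 : SOk 54089 57824 96400 115600 4871777508818768970643200 0 :=
  SOk.chk 9600 2 (by norm_num) (by decide +kernel)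

theorem c8_6 : GOk 54089 57824 115600 145600 1152562081063569987460000 :=
  GOk.chk 10000 3 (by norm_num) (by decide +kernel)

theorem c8_7 : GOk 54089 57824 145600 327988 248361480520781157984674 :=
  GOk.chk 30398 6 (by norm_num) (by decide +kernel)

theorem strip8 : StripOk 54089 57824 :=
  stripM c8_0 (by norm_num) (by norm_num)
    ((((c8_1.trans c8_2).trans c8_3).trans c8_4).trans c8_5)
    (c8_6.trans c8_7)
    (by norm_num) (by norm_num) (by norm_num) (by decide +kernel)

end Pool.Agent.Lib.MP_6cad4c_al
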