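import Pool.Agent.Lib.MP_6cad4c_al.Strip

namespace Pool.Agent.Lib.MP_6cad4c_al

theorem c9_0 : GOk 57824 62725 5000 20000 607326820256283816174000 :=
  GOk.chk 3000 5 (by norm_num) (by decide +kernel)

theorem c9_1 : SOk 57824 62725 20000 30800 0 388206527989090431202200 :=
  SOk.chk 1800 6 (by norm_num) (by decide +kernel)

theorem c9_2 : SOk 57824 62725 30800 65600 0 58734629711929097439955200 :=
  SOk.chk 1200 29 (by norm_num) (by decide +kernel)

theorem c9_3 : SOk 57824 62725 65600 80000 21050432265762790553462400 0 :=
  SOk.chk 3600 4 (by norm_num) (by decide +kernel)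

theorem c9_4 : SOk 57824 62725 80000 101600 12478226807181722245034400 0 :=
  SOk.chk 7200 3 (by norm_num) (by decide +kernel)

theorem c9_5 : SOk 57824 62725 101600 116000 2627432428189718290996800 0 :=
  SOk.chk 14400 1 (by norm_num) (by decide +kernel)

theorem c9_6 : GOk 57824 62725 116000 146000 803767922104915912610000 :=
  GOk.chk 10000 3 (by norm_num) (by decide +kernel)

theorem c9_7 : GOk 57824 62725 146000 345542 182132861582367191530867 :=
  GOk.chk 33257 6 (by norm_num) (by decide +kernel)

theorem strip9 : StripOk 57824 62725 :=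
  stripG c9_0
    ((((c9_1.trans c9_2).trans c9_3).trans c9_4).trans c9_5)
    (c9_6.trans c9_7)
    (by norm_num) (by norm_num) (by norm_num) (by decide +kernel)

theorem c10_0 : GOk 62725 75589 5000 20000 11521791509131523433000 :=
  GOk.chk 3000 5 (by norm_num) (by decide +kernel)

theorem c10_1 : SOk 62725 75589 20000 30800 0 104893195385087515654200 :=
  SOk.chk 1800 6 (by norm_num) (by decide +kernel)

theorem c10_2 : SOk 62725 75589 30800 65600 0 39258136601220140188240800 :=
  SOk.chk 1200 29 (by norm_num) (by decide +kernel)

theorem c10_3 : SOk 62725 75589 65600 80000 18159567985293359880762000 0 :=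
  SOk.chk 3600 4 (by norm_num) (by decide +kernel)

theorem c10_4 : SOk 62725 75589 80000 101600 10358888190125799047652000 0 :=
  SOk.chk 7200 3 (by norm_num) (by decide +kernel)

theorem c10_5 : SOk 62725 75589 101600 116000 2051003238960663959803200 0 :=
  SOk.chk 14400 1 (by norm_num) (by decide +kernel)

theorem c10_6 : GOk 62725 75589 116000 146000 609928896278562386900000 :=
  GOk.chk 10000 3 (by norm_num) (by decide +kernel)

theorem c10_7 : GOk 62725 75589 146000 390566 163442294846407916337852 :=
  GOk.chk 40761 6 (by norm_num) (by decide +kernel)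

theorem strip10 : StripOk 62725 75589 :=
  stripG c10_0
    ((((c10_1.trans c10_2).trans c10_3).trans c10_4).trans c10_5)
    (c10_6.trans c10_7)
    (by norm_num) (by norm_num) (by norm_num) (by decide +kernel)

theorem c11_0 : GOk 75589 127045 5000 20000 150991581679698102000 :=
  GOk.chk 3000 5 (by norm_num) (by decide +kernel)

theorem c11_1 : SOk 75589 127045 20000 30800 0 373062360672211591800 :=
  SOk.chk 1800 6 (by norm_num) (by decide +kernel)

theorem c11_2 : SOk 75589 127045 30800 65600 0 18100913779981991103768000 :=
  SOk.chk 1200 29 (by norm_num) (by decide +kernel)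

theorem c11_3 : SOk 75589 127045 65600 80000 8622824302499327996983200 0 :=
  SOk.chk 3600 4 (by norm_num) (by decide +kernel)

theorem c11_4 : SOk 75589 127045 80000 101600 5336508441894669671688000 0 :=
  SOk.chk 7200 3 (by norm_num) (by decide +kernel)

theorem c11_5 : SOk 75589 127045 101600 116000 982808398199378218176000 0 :=
  SOk.chk 14400 1 (by norm_num) (by decide +kernel)

theorem c11_6 : GOk 75589 127045 116000 146000 279018857997202662960000 :=
  GOk.chk 10000 3 (by norm_num) (by decide +kernel)

theorem c11_7 : GOk 75589 127045 146000 570662 133463495277023537024833 :=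
  GOk.chk 70777 6 (by norm_num) (by decide +kernel)

theorem strip11 : StripOk 75589 127045 :=
  stripG c11_0
    ((((c11_1.trans c11_2).trans c11_3).trans c11_4).trans c11_5)
    (c11_6.trans c11_7)
    (by norm_num) (by norm_num) (by norm_num) (by decide +kernel)

theorem c12_0 : GOk 127045 400000 5000 20000 15000 :=
  GOk.chk 3000 5 (by norm_num) (by decide +kernel)

theorem c12_1 : SOk 127045 400000 20000 30800 0 35233200 :=
  SOk.chk 1800 6 (by norm_num) (by decide +kernel)

theorem c12_2 : SOk 127045 400000 30800 65600 0 2954923475760270599696400 :=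
  SOk.chk 1200 29 (by norm_num) (by decide +kernel)

theorem c12_3 : SOk 127045 400000 65600 80000 0 994722920788920792652800 :=
  SOk.chk 3600 4 (by norm_num) (by decide +kernel)

theorem c12_4 : SOk 127045 400000 80000 101600 0 1035738711043404091200 :=
  SOk.chk 7200 3 (by norm_num) (by decide +kernel)

theorem c12_5 : SOk 127045 400000 101600 116000 26577366595839616334400 0 :=
  SOk.chk 14400 1 (by norm_num) (by decide +kernel)

theorem c12_6 : GOk 127045 400000 116000 146000 7467433216110045550000 :=
  GOk.chk 10000 3 (by norm_num) (by decide +kernel)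

theorem c12_7 : GOk 127045 400000 146000 1526006 13207672101731269730127 :=
  GOk.chk 230001 6 (by norm_num) (by decide +kernel)

theorem strip12 : StripOk 127045 400000 :=
  stripG c12_0
    ((((c12_1.trans c12_2).trans c12_3).trans c12_4).trans c12_5)
    (c12_6.trans c12_7)
    (by norm_num) (by norm_num) (by norm_num) (by decide +kernel)

end Pool.Agent.Lib.MP_6cad4c_al
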