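import Pool.Agent.Lib.MP_6cad4c_al.Cert1
import Pool.Agent.Lib.MP_6cad4c_al.Cert2
import Pool.Agent.Lib.MP_6cad4c_al.Cert3
import Pool.Agent.Lib.MP_6cad4c_al.Cert4

namespace Pool.Agent.Lib.MP_6cad4c_al

theorem strip_all : StripOk 47028 400000 :=
  (((((((((((strip0.trans strip1).trans strip2).trans strip3).trans strip4).trans strip5).trans strip6).trans strip7).trans strip8).trans strip9).trans strip10).trans strip11).trans strip12

end Pool.Agent.Lib.MP_6cad4c_al
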