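import Pool.Agent.Lib.MP_6cad4c_al.Basic

namespace Pool.Agent.Lib.MP_6cad4c_al

open PowerSeries Finset

theorem mem_restricted {n : ℕ} {p : ℕ → Prop} [DecidablePred p] {l : Nat.Partition n} :
    l ∈ Nat.Partition.restricted n p ↔ ∀ i ∈ l.parts, p i := by
  simp [Nat.Partition.restricted]

theorem ple_mono {t t' : ℕ} (h : t ≤ t') (n : ℕ) : ple t n ≤ ple t' n :=
  card_le_card fun _ hl => mem_restricted.2 fun i hi => (mem_restricted.1 hl i hi).trans h

theorem ple_eq_pn {t n : ℕ} (h : n ≤ t) : ple t n = pn n := by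
  unfold ple pn
  rw [← card_univ]
  congr 1
  exact eq_univ_of_forall fun l => mem_restricted.2 fun i hi =>
    (Nat.Partition.le_of_mem_parts hi).trans h

theorem ple_le_pn (t n : ℕ) : ple t n ≤ pn n := card_le_univ _

theorem ple_zero {n : ℕ} (h : 1 ≤ n) : ple 0 n = 0 := by
  unfold ple
  rw [card_eq_zero, eq_empty_iff_forall_notMem]
  intro l hl
  have h1 : l.parts = 0 := Multiset.eq_zero_of_forall_notMem fun i hi => by
    have := mem_restricted.1 hl i hi
    have := l.parts_pos hi
    omega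
  have h2 := l.parts_sum
  rw [h1, Multiset.sum_zero] at h2
  omega

theorem cor_le_pn (t n : ℕ) : cor t n ≤ pn n := by
  unfold cor pn
  rw [← Nat.card_eq_fintype_card]
  exact Finite.card_subtype_le _

theorem pn_pos (n : ℕ) : 0 < pn n := Fintype.card_pos_iff.2 ⟨Nat.Partition.indiscrete n⟩

theorem card_with_part {n a : ℕ} (ha1 : 1 ≤ a) (ha : a ≤ n) :
    (univ.filter fun p : Nat.Partition n => a ∈ p.parts).card = pn (n - a) := by
  unfold pn
  rw [← Fintype.card_congr (Nat.Partition.partitionWithPartEquiv ha1 ha), Fintype.card_subtype]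

theorem pn_mono : Monotone pn := by
  refine monotone_nat_of_le_succ fun n => ?_
  have h := card_with_part (n := n + 1) (a := 1) le_rfl (by omega)
  rw [Nat.add_sub_cancel] at h
  rw [← h]
  exact card_le_univ _

theorem qn_eq_zero' {t n : ℕ} (h : n < t) : qn t n = 0 := by
  unfold qn
  rw [ple_eq_pn h.le, ple_eq_pn (by omega : n ≤ t - 1), Nat.sub_self]

theorem qn_le_pn_sub {t : ℕ} (ht : 1 ≤ t) (n : ℕ) : qn t n ≤ pn (n - t) := by
  rcases Nat.lt_or_ge n t with h | h
  · rw [qn_eq_zero' h]
    exact Nat.zero_le _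
  · rw [← card_with_part ht h]
    unfold qn ple
    refine le_card_sdiff _ _ |>.trans (card_le_card fun l hl => ?_)
    obtain ⟨h1, h2⟩ := mem_sdiff.1 hl
    rw [mem_filter]
    refine ⟨mem_univ _, ?_⟩
    by_contra hn
    refine h2 (mem_restricted.2 fun i hi => ?_)
    have h3 := mem_restricted.1 h1 i hi
    have h4 : i ≠ t := fun e => hn (e ▸ hi)
    omega

theorem qn_eq_zero {t n : ℕ} (h : n < t) : qn t n = 0 := qn_eq_zero' h

theorem part_one_le {n t : ℕ} (l : Nat.Partition n) : part l 1 ≤ t ↔ ∀ i ∈ l.parts, i ≤ t := by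
  unfold part
  have hs := Multiset.pairwise_sort l.parts (· ≥ ·)
  have hm : ∀ i, i ∈ l.parts ↔ i ∈ l.parts.sort (· ≥ ·) := fun i => (Multiset.mem_sort _).symm
  simp only [hm]
  generalize l.parts.sort (· ≥ ·) = L at hs
  cases L with
  | nil => simp
  | cons a L =>
    rw [List.pairwise_cons] at hs
    simp only [Nat.sub_self, List.getD_cons_zero, List.mem_cons]
    constructor
    · rintro h i (rfl | hi)
      · exact h
      · exact (hs.1 i hi).trans h
    · exact fun h => h a (Or.inl rfl)

theorem ple_eq_filter (t n : ℕ) :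
    ple t n = (univ.filter fun l : Nat.Partition n => part l 1 ≤ t).card := by
  unfold ple
  congr 1
  ext l
  rw [mem_restricted, mem_filter, part_one_le]
  simp

theorem qn_eq_filter {t : ℕ} (ht : 1 ≤ t) (n : ℕ) :
    qn t n = (univ.filter fun l : Nat.Partition n => part l 1 = t).card := by
  unfold qn
  rw [ple_eq_filter, ple_eq_filter, ← card_sdiff_of_subset]
  · congr 1
    ext l
    simp only [mem_sdiff, mem_filter, mem_univ, true_and]
    omega
  · intro l hl
    simp only [mem_filter, mem_univ, true_and] at hl ⊢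
    omega

theorem part_one_mem {n : ℕ} (hn : 1 ≤ n) (l : Nat.Partition n) : part l 1 ∈ Icc 1 n := by
  rw [mem_Icc]
  refine ⟨?_, (part_one_le l).2 fun i hi => Nat.Partition.le_of_mem_parts hi⟩
  by_contra h
  have h0 := ple_zero hn
  rw [ple_eq_filter, card_eq_zero, eq_empty_iff_forall_notMem] at h0
  exact h0 l (mem_filter.2 ⟨mem_univ _, by omega⟩)

theorem ZI_eq {n : ℕ} (hn : 1 ≤ n) : ZI n = ∑ t ∈ Icc 1 n, cor t n * qn t n := by
  classical
  have h1 : ZI n = ∑ μ : Nat.Partition n, cor (part μ 1) n := by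
    unfold ZI cor
    rw [Nat.card_eq_fintype_card, Fintype.card_subtype, card_filter, Fintype.sum_prod_type_right]
    refine sum_congr rfl fun μ _ => ?_
    rw [Nat.card_eq_fintype_card, Fintype.card_subtype, card_filter]
  rw [h1, ← sum_fiberwise_of_maps_to (g := fun μ => part μ 1) fun μ _ => part_one_mem hn μ]
  refine sum_congr rfl fun t ht => ?_
  rw [qn_eq_filter (mem_Icc.1 ht).1, sum_congr rfl (g := fun _ => cor t n)
    fun μ hμ => by rw [(mem_filter.1 hμ).2], sum_const, smul_eq_mul, mul_comm]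

open scoped PowerSeries.WithPiTopology in
theorem geom_mul (k : ℕ) :
    (∑' j : ℕ, (X : ℤ⟦X⟧) ^ ((k + 1) * j)) * (1 - X ^ (k + 1)) = 1 := by
  simp_rw [pow_mul]
  exact WithPiTopology.tsum_pow_mul_one_sub_of_constantCoeff_eq_zero (by simp)

open scoped PowerSeries.WithPiTopology in
theorem ple_mul (t : ℕ) :
    (PowerSeries.mk fun n => (ple t n : ℤ)) * ∏ k ∈ range t, (1 - X ^ (k + 1)) = 1 := by
  have h1 := Nat.Partition.hasProd_powerSeriesMk_card_restricted ℤ (· ≤ t)
  have h2 := hasProd_prod_of_ne_finset_one (s := range t) (L := SummationFilter.unconditional ℕ)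
    (f := fun i => if i + 1 ≤ t then ∑' j : ℕ, (X : ℤ⟦X⟧) ^ ((i + 1) * j) else 1)
    (fun b hb => if_neg fun h => hb (mem_range.2 h))
  have h3 : (PowerSeries.mk fun n => (ple t n : ℤ)) =
      ∏ i ∈ range t, ∑' j : ℕ, (X : ℤ⟦X⟧) ^ ((i + 1) * j) := by
    refine (h1.unique h2).trans (prod_congr rfl fun i hi => if_pos (mem_range.1 hi))
  rw [h3, ← prod_mul_distrib]
  exact prod_eq_one fun i _ => geom_mul i

open scoped PowerSeries.WithPiTopology in
theorem pn_mul_pent : (PowerSeries.mk fun n => (pn n : ℤ)) * pentagonalSeries ℤ = 1 := by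
  have h1 := Nat.Partition.hasProd_powerSeriesMk_card_restricted ℤ (fun _ => True)
  have h2 := h1.mul (WithPiTopology.hasProd_one_sub_X_pow ℤ)
  have h3 : (PowerSeries.mk fun n => (pn n : ℤ)) =
      PowerSeries.mk fun n => ((Nat.Partition.restricted n fun _ => True).card : ℤ) := by
    congr 1
    funext n
    rw [eq_univ_of_forall (s := Nat.Partition.restricted n fun _ => True)
      fun l => mem_restricted.2 fun _ _ => trivial]
    rfl
  simp only [if_true, geom_mul] at h2
  rw [h3]
  exact h2.unique hasProd_one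

end Pool.Agent.Lib.MP_6cad4c_al
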