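import Pool.Agent.Lib.MP_6cad4c_al.Arc
import Pool.Agent.Lib.MP_6cad4c_al.WA
import Pool.Agent.Lib.MP_6cad4c_al.Trunc

namespace Pool.Agent.Lib.MP_6cad4c_al

open Complex

theorem ce_re (t : ℕ) (z : ℂ) : ((t : ℂ) * z).re = t * z.re := by simp

theorem ce_rho {m : ℝ} (hm : 29 / 10 ≤ m) :
    m ^ 2 * Real.exp (-(913 / 1000 * m)) ≤ (29 / 10) ^ 2 * (709 / 10000) := by
  have h1 : (10000 / 709 : ℝ) ≤ Real.exp (26477 / 10000) := by
    have h3 : Real.exp (26477 / 10000) = Real.exp (2 + 0) * Real.exp (6477 / 10000) := by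
      rw [← Real.exp_add]; norm_num
    have h4 := wa_exp_two (x := 0) le_rfl
    have h5 := Real.sum_le_exp_of_nonneg (show (0 : ℝ) ≤ 6477 / 10000 by norm_num) 5
    simp only [Finset.sum_range_succ, Finset.sum_range_zero, Nat.factorial] at h5
    rw [h3]
    calc (10000 / 709 : ℝ) ≤ (7389 / 1000 * (1 + 0 + 0 ^ 2 / 2)) * (191 / 100) := by norm_num
      _ ≤ _ := by
        apply mul_le_mul h4 _ (by norm_num) (by positivity)
        refine le_trans ?_ h5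
        norm_num
  have h2 := Real.add_one_le_exp (4565 / 10000 * (m - 29 / 10))
  have h3 : Real.exp (913 / 1000 * m) =
      Real.exp (26477 / 10000) * Real.exp (4565 / 10000 * (m - 29 / 10)) ^ 2 := by
    rw [← Real.exp_nat_mul, ← Real.exp_add]; congr 1; push_cast; ring
  have h4 : m ≤ 29 / 10 * Real.exp (4565 / 10000 * (m - 29 / 10)) := by nlinarith
  have h5 : m ^ 2 ≤ (29 / 10 * Real.exp (4565 / 10000 * (m - 29 / 10))) ^ 2 := by
    gcongr
  rw [Real.exp_neg, mul_inv_le_iff₀ (Real.exp_pos _), h3]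
  nlinarith [sq_nonneg (Real.exp (4565 / 10000 * (m - 29 / 10)))]

theorem ce_rho1 {m : ℝ} (hm : 29 / 10 ≤ m) :
    m * Real.exp (-(913 / 1000 * m)) ≤ 29 / 10 * (709 / 10000) := by
  have h := ce_rho hm
  have h0 := Real.exp_pos (-(913 / 1000 * m))
  refine le_of_mul_le_mul_left ?_ (show (0 : ℝ) < 29 / 10 by norm_num)
  nlinarith [mul_pos (show 0 < m by linarith) h0]

theorem ce_rho0 {m : ℝ} (hm : 29 / 10 ≤ m) : Real.exp (-(913 / 1000 * m)) ≤ 709 / 10000 := by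
  have h := ce_rho1 hm
  have h0 := Real.exp_pos (-(913 / 1000 * m))
  nlinarith

theorem ce_rho2 {m : ℝ} (hm : 29 / 10 ≤ m) :
    m * (42 / 100 * m - 157 / 100) * Real.exp (-(913 / 1000 * m)) ≤ 35 / 1000 := by
  have h1 : (94 : ℝ) ≤ Real.exp (4565 / 1000) := by
    have h3 : Real.exp (4565 / 1000) = Real.exp (2 + 0) * Real.exp (2 + 565 / 1000) := by
      rw [← Real.exp_add]; norm_num
    rw [h3]
    refine le_trans ?_ (mul_le_mul (wa_exp_two (x := 0) le_rfl)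
      (wa_exp_two (x := 565 / 1000) (by norm_num)) (by norm_num) (by positivity))
    norm_num
  have h2 := Real.add_one_le_exp (4565 / 10000 * (m - 5))
  have h3 : Real.exp (913 / 1000 * m) =
      Real.exp (4565 / 1000) * Real.exp (4565 / 10000 * (m - 5)) ^ 2 := by
    rw [← Real.exp_nat_mul, ← Real.exp_add]; congr 1; push_cast; ring
  have h5 : (4565 / 10000 * (m - 5) + 1) ^ 2 ≤ Real.exp (4565 / 10000 * (m - 5)) ^ 2 := by
    gcongr
    linarith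
  have h6 : 94 * (4565 / 10000 * (m - 5) + 1) ^ 2 ≤ Real.exp (913 / 1000 * m) := by
    rw [h3]; gcongr
  rw [Real.exp_neg, mul_inv_le_iff₀ (Real.exp_pos _)]
  nlinarith [sq_nonneg (m - 43 / 10)]

theorem ce_neg_cos (x : ℝ) : -Real.cos x ≤ max (|x| - 157 / 100) 0 := by
  have hpi := Real.pi_gt_d2
  rw [← Real.cos_abs]
  rcases le_or_gt |x| (Real.pi / 2) with h | h
  · have := Real.cos_nonneg_of_mem_Icc (x := |x|) ⟨by linarith [abs_nonneg x], h⟩
    exact le_max_of_le_right (by linarith)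
  · have h1 := Real.sin_le (x := |x| - Real.pi / 2) (by linarith)
    rw [Real.sin_sub_pi_div_two] at h1
    exact le_max_of_le_left (by linarith)

theorem ce_eul {y : ℂ} (hy : ‖y‖ ≤ 709 / 10000) (t : ℕ) :
    ‖eul y ^ t‖ ≤ Real.exp (t * (-y.re + 1628 / 1000 * ‖y‖ ^ 2)) := by
  obtain ⟨r, hr, he⟩ := eul_trunc (x := y) (by linarith)
  have h1 := wa_gA (y := y) (by linarith)
  have h2 := (abs_le.1 ((abs_re_le_norm _).trans h1)).1
  have h3 := (abs_le.1 ((abs_re_le_norm _).trans hr)).2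
  have h4 : ‖y‖ ^ 5 ≤ (709 / 10000) ^ 5 := by gcongr
  have h5 : ‖y‖ ^ 7 ≤ (709 / 10000) ^ 5 * ‖y‖ ^ 2 := by
    rw [show ‖y‖ ^ 7 = ‖y‖ ^ 5 * ‖y‖ ^ 2 by ring]; gcongr
  rw [he, ← exp_nat_mul, norm_exp, ce_re]
  rw [sub_re] at h2
  gcongr
  rw [add_re, neg_re]
  nlinarith [sq_nonneg ‖y‖]

theorem ce_vert {s : ℝ} (h0 : 0 < s) (hs : s ≤ 91 / 10000) :
    1 * (Real.exp ((6 / 100 - 28 / 100) / s) / (25 * s) +
      9 / s ^ 2 * Real.exp ((24 / 100 - 57 / 100) / s)) ≤ s ^ 3 / 1000 := by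
  obtain ⟨u, hu⟩ : ∃ u, u = s⁻¹ := ⟨_, rfl⟩
  have hsu : s * u = 1 := by rw [hu]; exact mul_inv_cancel₀ h0.ne'
  have hu0 : 0 < u := by rw [hu]; positivity
  have hu1 : 109 ≤ u := by nlinarith
  have he := Real.exp_one_gt_d9
  have h1 := wa_exp_ge (u / 100) (by positivity)
  have key : ∀ (j k : ℕ) (a : ℝ), j + k * (u / 100) ≤ a * u →
      (2718 / 1000 : ℝ) ^ j * (2718 / 1000 * (u / 100)) ^ k ≤ Real.exp (a * u) := by
    intro j k a h
    refine le_trans ?_ (Real.exp_le_exp.2 h)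
    rw [Real.exp_add, Real.exp_nat_mul, ← Real.exp_one_pow]
    gcongr
    linarith
  have h2 := key 19 4 (22 / 100) (by push_cast; linarith)
  have h3 := key 30 5 (33 / 100) (by push_cast; linarith)
  have h4 : Real.exp ((6 / 100 - 28 / 100) / s) ≤ s ^ 4 / 90 := by
    rw [show (6 / 100 - 28 / 100) / s = -(22 / 100 * u) by rw [hu]; ring, Real.exp_neg,
      inv_le_comm₀ (Real.exp_pos _) (by positivity)]
    refine le_trans ?_ h2
    rw [show (s ^ 4 / 90)⁻¹ = 90 * u ^ 4 by rw [hu]; field_simp, mul_pow, div_pow u]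
    nlinarith [pow_pos hu0 4]
  have h5 : Real.exp ((24 / 100 - 57 / 100) / s) ≤ s ^ 5 / 100000 := by
    rw [show (24 / 100 - 57 / 100) / s = -(33 / 100 * u) by rw [hu]; ring, Real.exp_neg,
      inv_le_comm₀ (Real.exp_pos _) (by positivity)]
    refine le_trans ?_ h3
    rw [show (s ^ 5 / 100000)⁻¹ = 100000 * u ^ 5 by rw [hu]; field_simp, mul_pow, div_pow u]
    nlinarith [pow_pos hu0 5]
  calc _ ≤ 1 * (s ^ 4 / 90 / (25 * s) + 9 / s ^ 2 * (s ^ 5 / 100000)) := by gcongr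
    _ = s ^ 3 * (1 / 2250 + 9 / 100000) := by field_simp; ring
    _ ≤ _ := by nlinarith [pow_pos h0 3]

theorem ce_small {s t m : ℝ} (h0 : 0 < s) (hs : s ≤ 91 / 10000) (hm : 29 / 10 ≤ m)
    (ht : m ≤ t * s) :
    5 / 2 * t * Real.exp (-(913 / 1000 * m)) ^ 7 *
      Real.exp (5 / 2 * t * Real.exp (-(913 / 1000 * m)) ^ 7 - 11 / 20 * (t * Real.exp (-m))) ≤
      s ^ 3 / 600 := by
  obtain ⟨q, hq⟩ : ∃ q, q = Real.exp (-m) := ⟨_, rfl⟩
  obtain ⟨p, hp⟩ : ∃ p, p = Real.exp (-(391 / 1000 * m)) := ⟨_, rfl⟩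
  have hq0 : 0 < q := hq ▸ Real.exp_pos _
  have hp0 : 0 < p := hp ▸ Real.exp_pos _
  have ht0 : 0 < t := by nlinarith
  have h1 : Real.exp (-(913 / 1000 * m)) ^ 7 = q ^ 6 * p := by
    rw [hq, hp, ← Real.exp_nat_mul, ← Real.exp_nat_mul, ← Real.exp_add]; congr 1; push_cast; ring
  have hp1 : p ≤ 3602 / 10000 := by
    have h2 := Real.quadratic_le_exp_of_nonneg (show 0 ≤ 391 / 1000 * m by positivity)
    rw [hp, Real.exp_neg, inv_le_comm₀ (Real.exp_pos _) (by norm_num)]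
    nlinarith
  have hq1 : q ≤ 709 / 10000 := by
    refine le_trans ?_ (ce_rho0 hm)
    rw [hq]; exact Real.exp_le_exp.2 (by linarith)
  obtain ⟨v, hv⟩ : ∃ v, v = t * q := ⟨_, rfl⟩
  have hv0 : 0 < v := by rw [hv]; positivity
  have hq2 : q ≤ v * s / (29 / 10) := by
    rw [le_div_iff₀ (by norm_num), hv]; nlinarith
  rw [h1, ← hq, ← hv, show 5 / 2 * t * (q ^ 6 * p) = 5 / 2 * v * q ^ 5 * p by rw [hv]; ring]
  have h2 : 5 / 2 * v * q ^ 5 * p ≤ 5 / 2 * v * (709 / 10000) ^ 5 * (3602 / 10000) := by gcongr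
  have h3 : Real.exp (5 / 2 * v * q ^ 5 * p - 11 / 20 * v) ≤ (Real.exp (915 / 10000 * v) ^ 6)⁻¹ := by
    rw [← Real.exp_nat_mul, ← Real.exp_neg]
    apply Real.exp_le_exp.2
    push_cast
    nlinarith
  have h4 := wa_exp_ge (915 / 10000 * v) (by positivity)
  have h5 : (Real.exp (915 / 10000 * v) ^ 6)⁻¹ ≤ ((2718 / 1000 * (915 / 10000 * v)) ^ 6)⁻¹ := by
    gcongr
  have h6 : s ^ 2 ≤ (91 / 10000) ^ 2 := by gcongr
  calc _ ≤ 5 / 2 * v * (v * s / (29 / 10)) ^ 5 * (3602 / 10000) *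
        ((2718 / 1000 * (915 / 10000 * v)) ^ 6)⁻¹ := by
        gcongr
        exact h3.trans h5
    _ = s ^ 3 * s ^ 2 * (5 / 2 * (3602 / 10000) / (29 / 10) ^ 5 /
        (2718 / 1000 * (915 / 10000)) ^ 6) := by field_simp
    _ ≤ s ^ 3 * (91 / 10000) ^ 2 * (5 / 2 * (3602 / 10000) / (29 / 10) ^ 5 /
        (2718 / 1000 * (915 / 10000)) ^ 6) := by gcongr
    _ ≤ _ := by nlinarith [pow_pos h0 3]

theorem cor_est {n t : ℕ} {Φ : ℝ} (hL : 47 / 10 ≤ Ln n) (hΦ : 419 / 1000 ≤ Φ) (hΦ' : Φ ≤ 42 / 100)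
    (hm : 29 / 10 ≤ t * Real.exp (-Ln n + -be (Ln n))) :
    ‖(cor t n : ℂ) / NJ (Ln n) - JA (Ln n) Φ t‖ ≤ sg (Ln n) ^ 3 / 200 := by
  obtain ⟨R, hR⟩ : ∃ R, R = Real.exp (-Ln n + -be (Ln n)) := ⟨_, rfl⟩
  obtain ⟨m, hmR⟩ : ∃ m, m = t * R := ⟨_, rfl⟩
  have hR0 : 0 < R := hR ▸ Real.exp_pos _
  have hb := be_pos (Ln n)
  have hb1 := be_le hL
  have hs0 := sg_pos (Ln n)
  have hs1 := sg_le hL
  have hRs : R ≤ sg (Ln n) := by rw [hR, sg]; exact Real.exp_le_exp.2 (by linarith)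
  have hsR : sg (Ln n) ≤ 10147 / 10000 * R := by
    have h1 : sg (Ln n) = Real.exp (be (Ln n)) * R := by
      rw [hR, sg, ← Real.exp_add]; congr 1; ring
    have h2 := wa_exp_le (x := 1456 / 100000) (by norm_num) (by norm_num)
    have h3 : Real.exp (be (Ln n)) ≤ 10147 / 10000 :=
      (Real.exp_le_exp.2 hb1).trans (h2.trans (by norm_num))
    rw [h1]; gcongr
  have hm' : 29 / 10 ≤ m := by rw [hmR, hR]; exact hm
  have ht0 : (0 : ℝ) ≤ t := Nat.cast_nonneg t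
  have ht : 1 ≤ t := by
    rcases Nat.eq_zero_or_pos t with rfl | h
    · norm_num at hm
    · exact h
  have hts : t * sg (Ln n) ≤ 10147 / 10000 * m := by rw [hmR]; nlinarith
  have hΦa : |Φ| ≤ 42 / 100 := by rw [abs_of_nonneg (by linarith)]; exact hΦ'
  have hρ0 := ce_rho0 hm'
  have hρ1 := ce_rho1 hm'
  have hρ2 := ce_rho hm'
  have hρ3 := ce_rho2 hm'
  obtain ⟨ρ, hρ⟩ : ∃ ρ, ρ = Real.exp (-(913 / 1000 * m)) := ⟨_, rfl⟩
  have hρp : 0 < ρ := hρ ▸ Real.exp_pos _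
  have hy : ∀ (s : ℂ) (φ : ℝ), |φ| ≤ 42 / 100 → R * Real.cos φ ≤ s.re → ‖exp (-s) ^ t‖ ≤ ρ := by
    intro s φ hφ hs
    rw [← exp_nat_mul, norm_exp, ce_re, neg_re, hρ]
    apply Real.exp_le_exp.2
    have h1 := cos_ge hφ
    have h2 : R * (913 / 1000) ≤ s.re := le_trans (by gcongr) hs
    rw [hmR]
    nlinarith
  rw [← hρ] at hρ0 hρ1 hρ2 hρ3
  have hf : ∀ x : ℂ, ‖x‖ < 1 →
      HasSum (fun k => (cor t k : ℂ) * x ^ k) (eul (x ^ t) ^ t / eul x) :=
    fun x hx => hasSum_cor ht hx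
  have harc := arc_est hL (a := fun k => (cor t k : ℂ)) (H := fun x => eul (x ^ t) ^ t) hf
    (b := -be (Ln n)) (Φ := Φ) (h := 1) (G₀ := 6 / 100) (G₂ := 24 / 100)
    (by rw [abs_neg, abs_of_pos hb]) hΦ hΦ' ?_ ?_
  rotate_left
  · intro τ hτ _
    rw [← hR]
    obtain ⟨y, hyd⟩ : ∃ y, y = exp (-((R : ℂ) * ((Real.cos Φ : ℝ) + τ * I))) ^ t := ⟨_, rfl⟩
    have h1 : ‖y‖ ≤ ρ := hyd ▸ hy _ Φ hΦa (by simp [cos_ofReal_re])
    have h2 : y.re = ‖y‖ * Real.cos (m * τ) := by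
      rw [hyd, ← exp_nat_mul, norm_exp, exp_re, ← Real.cos_neg (m * τ), hmR]
      congr 2
      simp
      ring
    rw [← hyd, one_mul]
    refine (ce_eul (h1.trans hρ0) t).trans (Real.exp_le_exp.2 ?_)
    have h3 := ce_neg_cos (m * τ)
    have h4 : Real.sin Φ ≤ 42 / 100 := (Real.sin_le (by linarith)).trans hΦ'
    have h5 : max (|m * τ| - 157 / 100) 0 ≤
        max (42 / 100 * m - 157 / 100) 0 + m * (|τ| - Real.sin Φ) := by
      rw [abs_mul, abs_of_nonneg (show 0 ≤ m by linarith)]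
      have h6 := le_max_left (42 / 100 * m - 157 / 100) 0
      have h7 := le_max_right (42 / 100 * m - 157 / 100) 0
      refine max_le (by nlinarith) (by nlinarith)
    have h6 : m * ρ * max (42 / 100 * m - 157 / 100) 0 ≤ 35 / 1000 := by
      rcases le_total (42 / 100 * m - 157 / 100) 0 with h | h
      · rw [max_eq_right h]; norm_num
      · rw [max_eq_left h]; linarith
    obtain ⟨M, hM⟩ : ∃ M, M = max (42 / 100 * m - 157 / 100) 0 := ⟨_, rfl⟩
    have hM0 : 0 ≤ M := hM ▸ le_max_right _ _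
    obtain ⟨d, hd⟩ : ∃ d, d = |τ| - Real.sin Φ := ⟨_, rfl⟩
    have hd0 : 0 ≤ d := by linarith
    rw [← hM] at h5 h6
    rw [← hd] at h5 ⊢
    have hmd : 0 ≤ M + m * d := by positivity
    have h7 : -y.re ≤ ρ * (M + m * d) := by
      rw [h2, ← mul_neg]
      exact (mul_le_mul_of_nonneg_left (h3.trans h5) (norm_nonneg _)).trans (by gcongr)
    have h8 : ‖y‖ ^ 2 ≤ ρ * (709 / 10000) := by
      rw [sq]; exact mul_le_mul h1 (h1.trans hρ0) (norm_nonneg _) hρp.le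
    have h9 : -y.re + 1628 / 1000 * ‖y‖ ^ 2 ≤ ρ * (M + m * d) + 1628 / 1000 * (ρ * (709 / 10000)) := by
      linarith
    rw [le_div_iff₀ hs0]
    calc _ = t * sg (Ln n) * (-y.re + 1628 / 1000 * ‖y‖ ^ 2) := by ring
      _ ≤ t * sg (Ln n) * (ρ * (M + m * d) + 1628 / 1000 * (ρ * (709 / 10000))) := by gcongr
      _ ≤ 10147 / 10000 * m * (ρ * (M + m * d) + 1628 / 1000 * (ρ * (709 / 10000))) := by gcongr
      _ ≤ _ := by nlinarith [mul_le_mul_of_nonneg_right hρ2 hd0]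
  · intro s hs
    rw [← hR] at hs
    have h1 := hy s Φ hΦa hs
    obtain ⟨y, hyd⟩ : ∃ y, y = exp (-s) ^ t := ⟨_, rfl⟩
    rw [← hyd] at h1 ⊢
    rw [one_mul]
    refine (ce_eul (h1.trans hρ0) t).trans (Real.exp_le_exp.2 ?_)
    have h7 := (abs_le.1 ((abs_re_le_norm y).trans h1)).1
    have h8 : ‖y‖ ^ 2 ≤ ρ * (709 / 10000) := by
      rw [sq]; exact mul_le_mul h1 (h1.trans hρ0) (norm_nonneg _) hρp.le
    have h9 : -y.re + 1628 / 1000 * ‖y‖ ^ 2 ≤ 1116 / 1000 * ρ := by linarith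
    rw [le_div_iff₀ hs0]
    calc _ = t * sg (Ln n) * (-y.re + 1628 / 1000 * ‖y‖ ^ 2) := by ring
      _ ≤ t * sg (Ln n) * (1116 / 1000 * ρ) := by gcongr
      _ ≤ 10147 / 10000 * m * (1116 / 1000 * ρ) := by gcongr
      _ ≤ _ := by linarith
  have hJ := J0_pos (Ln n)
  have hom : Continuous fun φ : ℝ => om (Ln n) (-be (Ln n)) φ := by unfold om; fun_prop
  have hi1 : IntervalIntegrable (fun φ : ℝ => om (Ln n) (-be (Ln n)) φ *
      eul (exp (-sv (Ln n) (-be (Ln n)) φ) ^ t) ^ t) MeasureTheory.volume (-Φ) Φ := by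
    refine ContinuousOn.intervalIntegrable_of_Icc (by linarith) (hom.continuousOn.mul ?_)
    exact contOn_arc (H := fun x => eul (x ^ t) ^ t) hf _ _ hΦ'
  have hi2 : IntervalIntegrable (fun φ : ℝ => om (Ln n) (-be (Ln n)) φ *
      FA t (sv (Ln n) (-be (Ln n)) φ)) MeasureTheory.volume (-Φ) Φ := by
    refine Continuous.intervalIntegrable (hom.mul ?_) _ _
    unfold FA gA sv
    fun_prop
  have hsm := ce_small hs0 hs1 hm' (t := t) (by rw [hmR]; gcongr)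
  rw [← hρ] at hsm
  obtain ⟨δ, hδ⟩ : ∃ δ, δ = 5 / 2 * t * ρ ^ 7 := ⟨_, rfl⟩
  have hδ0 : 0 ≤ δ := by rw [hδ]; positivity
  rw [← hδ] at hsm
  have h1 := norm_int_le (L := Ln n) (Φ := Φ) (K := Real.exp (1 / 20) * (sg (Ln n) ^ 3 / 600))
    (q := 3 / 8) (r := 1633 / 1000) hL (by linarith) (by positivity) (by norm_num) (by norm_num)
    (by norm_num) (f := fun φ => om (Ln n) (-be (Ln n)) φ *
      eul (exp (-sv (Ln n) (-be (Ln n)) φ) ^ t) ^ t -
      om (Ln n) (-be (Ln n)) φ * FA t (sv (Ln n) (-be (Ln n)) φ)) (fun φ hφ => by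
      have h2 := wA (z := (t : ℂ)) (T := t) hL (hφ.trans hΦ') hm (by simp; norm_num)
      have h3 := hy (sv (Ln n) (-be (Ln n)) φ) φ (hφ.trans hΦ') (by rw [re_sv, hR])
      obtain ⟨r, hr, he⟩ := eul_trunc (h3.trans (show ρ ≤ 1 / 5 by linarith))
      have h4 : ‖(t : ℂ) * r‖ ≤ δ := by
        rw [norm_mul, Complex.norm_natCast, hδ, mul_comm (5 / 2 : ℝ), mul_assoc]
        gcongr
        refine hr.trans ?_
        gcongr
      have h5 := Complex.norm_exp_sub_sum_le_norm_mul_exp ((t : ℂ) * r) 1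
      simp only [Finset.sum_range_one, pow_zero, Nat.factorial_zero, Nat.cast_one, div_one,
        pow_one] at h5
      have h6 : ‖exp ((t : ℂ) * r) - 1‖ ≤ δ * Real.exp δ := h5.trans (by gcongr)
      have h7 : eul (exp (-sv (Ln n) (-be (Ln n)) φ) ^ t) ^ t =
          FA t (sv (Ln n) (-be (Ln n)) φ) * exp ((t : ℂ) * r) := by
        rw [he, FA, ← exp_nat_mul, ← exp_nat_mul, ← exp_add, mul_neg (t : ℂ) (sv _ _ _)]
        congr 1
        ring
      rw [← hR, ← hmR] at h2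
      rw [h7, ← mul_assoc, ← mul_sub_one, norm_mul]
      refine (mul_le_mul h2 h6 (norm_nonneg _) (Real.exp_pos _).le).trans ?_
      calc _ = Real.exp (1 / 20) * (δ * Real.exp (δ - 11 / 20 * (t * Real.exp (-m)))) *
            Real.exp (-(3 / 8 * lam (Ln n) * φ ^ 2)) := by
            simp only [sub_eq_add_neg, Real.exp_add]; ring
        _ ≤ _ := by gcongr)
  rw [intervalIntegral.integral_sub hi1 hi2] at h1
  have h2 := wa_exp_le (x := 1 / 20) (by norm_num) (by norm_num)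
  have h3 : Real.exp (1 / 20) ≤ 1052 / 1000 := by norm_num at h2 ⊢; linarith
  have h4 := ce_vert hs0 hs1
  refine (norm_sub_le_norm_sub_add_norm_sub _ _ _).trans
    ((add_le_add (harc.trans h4) (d := 3 / 1000 * sg (Ln n) ^ 3) ?_).trans ?_)
  · rw [JA, ← sub_div, norm_div, Complex.norm_real, Real.norm_of_nonneg hJ.le, div_le_iff₀ hJ]
    refine h1.trans ?_
    gcongr ?_ * _
    nlinarith [pow_pos hs0 3]
  · nlinarith [pow_pos hs0 3]

end Pool.Agent.Lib.MP_6cad4c_al
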