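import Pool.Agent.Lib.MP_6cad4c_al.Basic

namespace Pool.Agent.Lib.MP_6cad4c_al

open Finset

namespace CoreAux

/-- parts indexed from `0` -/
def pf {n : ℕ} (l : Nat.Partition n) (i : ℕ) : ℕ := part l (i + 1)

theorem pf_eq {n : ℕ} (l : Nat.Partition n) (i : ℕ) :
    pf l i = (l.parts.sort (· ≥ ·)).getD i 0 := by
  simp [pf, part]

theorem getD_anti {L : List ℕ} (h : L.Pairwise (· ≥ ·)) : Antitone fun i => L.getD i 0 := by
  intro a b hab
  by_cases hb : b < L.length
  · have ha : a < L.length := lt_of_le_of_lt hab hb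
    simp only [List.getD_eq_getElem _ _ hb, List.getD_eq_getElem _ _ ha]
    rcases hab.eq_or_lt with rfl | hlt
    · exact le_rfl
    · exact List.pairwise_iff_getElem.mp h a b ha hb hlt
  · simp only [List.getD_eq_default _ _ (not_lt.mp hb)]
    exact Nat.zero_le _

theorem sum_getD (L : List ℕ) : ∀ K : ℕ, L.length ≤ K → ∑ i ∈ range K, L.getD i 0 = L.sum := by
  induction L with
  | nil => intro K _; simp
  | cons a L ih =>
    intro K hK
    obtain ⟨K, rfl⟩ : ∃ K', K = K' + 1 := ⟨K - 1, by simp at hK; omega⟩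
    rw [sum_range_succ', List.sum_cons]
    simp only [List.getD_cons_succ, List.getD_cons_zero]
    rw [ih K (by simpa using hK), add_comm]

theorem list_ext : ∀ (L L' : List ℕ), (∀ a ∈ L, 0 < a) → (∀ a ∈ L', 0 < a) →
    (∀ i, L.getD i 0 = L'.getD i 0) → L = L'
  | [], [], _, _, _ => rfl
  | [], b :: L', _, h', h => by
    have h0 := h 0
    have := h' b (by simp)
    simp at h0
    omega
  | a :: L, [], h', _, h => by
    have h0 := h 0
    have := h' a (by simp)
    simp at h0
    omega
  | a :: L, b :: L', h1, h2, h => by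
    have h0 := h 0
    simp only [List.getD_cons_zero] at h0
    rw [h0, list_ext L L' (fun x hx => h1 x (by simp [hx])) (fun x hx => h2 x (by simp [hx]))
      (fun i => by simpa using h (i + 1))]

theorem pf_anti {n : ℕ} (l : Nat.Partition n) : Antitone (pf l) := by
  have : pf l = fun i => (l.parts.sort (· ≥ ·)).getD i 0 := funext (pf_eq l)
  rw [this]
  exact getD_anti (Multiset.pairwise_sort _ _)

theorem length_le {n : ℕ} (l : Nat.Partition n) : (l.parts.sort (· ≥ ·)).length ≤ n := by
  rw [Multiset.length_sort]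
  have h := Multiset.card_nsmul_le_sum (s := l.parts) (a := 1) (fun x hx => l.parts_pos hx)
  rw [l.parts_sum] at h
  simpa using h

theorem pf_eq_zero {n : ℕ} (l : Nat.Partition n) {i : ℕ} (h : n ≤ i) : pf l i = 0 := by
  rw [pf_eq, List.getD_eq_default _ _ ((length_le l).trans h)]

theorem sum_pf {n : ℕ} (l : Nat.Partition n) {K : ℕ} (hK : ∀ i, K ≤ i → pf l i = 0) :
    ∑ i ∈ range K, pf l i = n := by
  have h1 : ∑ i ∈ range (K + n), pf l i = n := by
    simp only [pf_eq]
    rw [sum_getD _ _ ((length_le l).trans (Nat.le_add_left _ _)), ← Multiset.sum_coe,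
      Multiset.sort_eq, l.parts_sum]
  refine Eq.trans ?_ h1
  refine sum_subset (range_subset_range.mpr (Nat.le_add_right _ _)) ?_
  intro i _ hi
  exact hK i (by simpa using hi)

theorem ext_pf {n : ℕ} {l l' : Nat.Partition n} (h : ∀ i, pf l i = pf l' i) : l = l' := by
  have : l.parts.sort (· ≥ ·) = l'.parts.sort (· ≥ ·) := by
    refine list_ext _ _ (fun a ha => l.parts_pos (by simpa using ha))
      (fun a ha => l'.parts_pos (by simpa using ha)) fun i => ?_
    rw [← pf_eq, ← pf_eq, h]
  ext1
  rw [← Multiset.sort_eq l.parts (· ≥ ·), this, Multiset.sort_eq]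

theorem exists_pf (f : ℕ → ℕ) (hf : Antitone f) (K : ℕ) (h0 : ∀ i, K ≤ i → f i = 0) :
    ∃ l : Nat.Partition (∑ i ∈ range K, f i), ∀ i, pf l i = f i := by
  have hex : ∃ i, f i = 0 := ⟨K, h0 K le_rfl⟩
  classical
  set c := Nat.find hex with hc
  have hcK : c ≤ K := Nat.find_min' hex (h0 K le_rfl)
  have hz : ∀ i, c ≤ i → f i = 0 := fun i hi => by
    have h1 := hf hi
    have h2 : f c = 0 := Nat.find_spec hex
    omega
  have hget : ∀ i, ((List.range c).map f).getD i 0 = f i := by
    intro i
    by_cases hi : i < c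
    · rw [List.getD_eq_getElem _ _ (by simpa using hi)]
      simp
    · rw [List.getD_eq_default _ _ (by simpa using hi), hz i (not_lt.mp hi)]
  have hsort : ((List.range c).map f).Pairwise (· ≥ ·) := by
    rw [List.pairwise_map]
    exact List.pairwise_lt_range.imp fun hab => hf hab.le
  refine ⟨⟨((List.range c).map f : List ℕ), ?_, ?_⟩, fun i => ?_⟩
  · intro a ha
    simp only [Multiset.mem_coe, List.mem_map, List.mem_range] at ha
    obtain ⟨i, hi, rfl⟩ := ha
    exact Nat.pos_of_ne_zero (Nat.find_min hex hi)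
  · rw [Multiset.sum_coe, ← sum_getD _ K (by simpa using hcK)]
    exact sum_congr rfl fun i _ => hget i
  · rw [pf_eq]
    have : Multiset.sort (((List.range c).map f : List ℕ) : Multiset ℕ) (· ≥ ·) =
        (List.range c).map f := by
      refine List.Perm.eq_of_pairwise' (r := (· ≥ ·)) (Multiset.pairwise_sort _ _) hsort ?_
      exact Multiset.coe_eq_coe.mp (Multiset.sort_eq _ _)
    simp only [this]
    exact hget i

end CoreAux

end Pool.Agent.Lib.MP_6cad4c_al
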