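import Pool.Agent.Lib.MP_6cad4c_al.CoreA

namespace Pool.Agent.Lib.MP_6cad4c_al

open Finset

namespace CoreAux

/-- triangular numbers -/
def T (k : ℕ) : ℕ := ∑ i ∈ range k, i

theorem T_mono {a b : ℕ} (h : a ≤ b) : T a ≤ T b :=
  sum_le_sum_of_subset (range_subset_range.mpr h)

/-- the beads, in decreasing order -/
def bead {n : ℕ} (l : Nat.Partition n) (K i : ℕ) : ℕ := pf l i + (K - 1 - i)

/-- the beta set with `K` beads -/
def beta {n : ℕ} (l : Nat.Partition n) (K : ℕ) : Finset ℕ := (range K).image (bead l K)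

theorem bead_lt {n : ℕ} (l : Nat.Partition n) {K a b : ℕ} (hab : a < b) (hb : b < K) :
    bead l K b < bead l K a := by
  have := pf_anti l hab.le
  unfold bead
  omega

theorem bead_le {n : ℕ} (l : Nat.Partition n) {K a b : ℕ} (hab : a ≤ b) :
    bead l K b ≤ bead l K a := by
  have := pf_anti l hab
  unfold bead
  omega

theorem bead_injOn {n : ℕ} (l : Nat.Partition n) (K : ℕ) :
    Set.InjOn (bead l K) (range K : Finset ℕ) := by
  intro a ha b hb h
  simp only [coe_range, Set.mem_Iio] at ha hb
  rcases lt_trichotomy a b with h1 | h1 | h1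
  · have := bead_lt l h1 hb; omega
  · exact h1
  · have := bead_lt l h1 ha; omega

theorem card_beta {n : ℕ} (l : Nat.Partition n) (K : ℕ) : (beta l K).card = K := by
  rw [beta, card_image_of_injOn (bead_injOn l K), card_range]

theorem sum_beta {n : ℕ} (l : Nat.Partition n) {K : ℕ} (hK : ∀ i, K ≤ i → pf l i = 0) :
    ∑ b ∈ beta l K, b = n + T K := by
  rw [beta, sum_image (bead_injOn l K)]
  simp only [bead]
  rw [sum_add_distrib, sum_pf l hK, T, sum_range_reflect (fun i => i) K]

theorem beta_inj {n K : ℕ} (hK : n ≤ K) {l l' : Nat.Partition n} (h : beta l K = beta l' K) :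
    l = l' := by
  have h1 : ∀ m : Nat.Partition n, StrictAnti fun i : Fin K => bead m K i :=
    fun m a b hab => bead_lt m hab b.2
  have h2 : ∀ m : Nat.Partition n, Set.range (fun i : Fin K => bead m K i) = beta m K := by
    intro m
    ext x
    simp only [beta, Set.mem_range, coe_image, coe_range, Set.mem_image, Set.mem_Iio]
    exact ⟨fun ⟨i, hi⟩ => ⟨i, i.2, hi⟩, fun ⟨i, hi, h⟩ => ⟨⟨i, hi⟩, h⟩⟩
  have h3 := ((h1 l).range_inj (h1 l')).mp (by rw [h2, h2, h])
  refine ext_pf fun i => ?_
  by_cases hi : i < K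
  · have := congrFun h3 ⟨i, hi⟩
    simp only [bead] at this
    omega
  · rw [pf_eq_zero l (by omega), pf_eq_zero l' (by omega)]

theorem beta_surj {K : ℕ} (S : Finset ℕ) (hS : S.card = K) :
    ∃ m : ℕ, ∃ l : Nat.Partition m, (∀ i, K ≤ i → pf l i = 0) ∧ beta l K = S := by
  let g : ℕ → ℕ := fun i => if h : i < K then S.orderEmbOfFin hS ⟨i, h⟩ else 0
  have hg : ∀ a d, a + d < K → g a + d ≤ g (a + d) := by
    intro a d
    induction d with
    | zero => intro _; simp
    | succ d ih =>
      intro h
      have h1 := ih (by omega)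
      have h2 : g (a + d) < g (a + (d + 1)) := by
        simp only [g, dif_pos h, dif_pos (show a + d < K by omega)]
        exact (S.orderEmbOfFin hS).strictMono (by simp [Fin.lt_def])
      omega
  let f : ℕ → ℕ := fun i => if i < K then g (K - 1 - i) - (K - 1 - i) else 0
  have hf : Antitone f := by
    intro a b hab
    by_cases hb : b < K
    · have ha : a < K := by omega
      simp only [f, if_pos ha, if_pos hb]
      have h1 := hg (K - 1 - b) (b - a) (by omega)
      rw [show K - 1 - b + (b - a) = K - 1 - a by omega] at h1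
      omega
    · simp only [f, if_neg hb]
      exact Nat.zero_le _
  have h0 : ∀ i, K ≤ i → f i = 0 := fun i hi => by simp only [f, if_neg (not_lt.mpr hi)]
  obtain ⟨l, hl⟩ := exists_pf f hf K h0
  refine ⟨_, l, fun i hi => by rw [hl, h0 i hi], ?_⟩
  refine eq_of_subset_of_card_le ?_ (by rw [card_beta, hS])
  intro x hx
  simp only [beta, mem_image, mem_range] at hx
  obtain ⟨i, hi, rfl⟩ := hx
  have h1 := hg 0 (K - 1 - i) (by omega)
  have h2 : bead l K i = g (K - 1 - i) := by
    rw [bead, hl]
    simp only [f, if_pos hi]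
    rw [zero_add] at h1
    omega
  rw [h2]
  simp only [g, dif_pos (show K - 1 - i < K by omega)]
  exact S.orderEmbOfFin_mem hS _

theorem T_le_sum (S : Finset ℕ) : T S.card ≤ ∑ b ∈ S, b := by
  obtain ⟨m, l, hl, h⟩ := beta_surj S rfl
  have := sum_beta l hl
  rw [h] at this
  omega

theorem beta_surj' {K n : ℕ} (S : Finset ℕ) (hS : S.card = K) (hs : ∑ b ∈ S, b = n + T K) :
    ∃ l : Nat.Partition n, beta l K = S := by
  obtain ⟨m, l, hl, h⟩ := beta_surj S hS
  have := sum_beta l hl
  rw [h, hs] at this
  obtain rfl : n = m := by omega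
  exact ⟨l, h⟩

theorem mem_of_sum_le {K n : ℕ} (S : Finset ℕ) (hS : S.card = K) (hs : ∑ b ∈ S, b ≤ n + T K)
    {x : ℕ} (hx : x + n < K) : x ∈ S := by
  obtain ⟨m, l, hl, h⟩ := beta_surj S hS
  have := sum_beta l hl
  rw [h] at this
  rw [← h, beta, mem_image]
  refine ⟨K - 1 - x, by rw [mem_range]; omega, ?_⟩
  rw [bead, pf_eq_zero l (by omega)]
  omega

theorem hook_eq {n : ℕ} (l : Nat.Partition n) {i j c : ℕ} (hj : 1 ≤ j)
    (hc : ∀ s, s < c ↔ j ≤ pf l s) : hook l (i + 1) j = pf l i - j + (c - i) := by
  have hcn : c ≤ n := by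
    by_contra h
    have h1 := (hc n).mp (by omega)
    rw [pf_eq_zero l le_rfl] at h1
    omega
  have : ((Icc (i + 1) n).filter fun s => j ≤ part l s) = Icc (i + 1) c := by
    ext s
    simp only [mem_filter, mem_Icc]
    constructor
    · rintro ⟨⟨h1, h2⟩, h3⟩
      obtain ⟨s, rfl⟩ : ∃ s', s = s' + 1 := ⟨s - 1, by omega⟩
      exact ⟨h1, (hc s).mpr h3⟩
    · rintro ⟨h1, h2⟩
      obtain ⟨s, rfl⟩ : ∃ s', s = s' + 1 := ⟨s - 1, by omega⟩
      exact ⟨⟨h1, by omega⟩, (hc s).mp h2⟩
  rw [hook, this, Nat.card_Icc]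
  simp only [pf]
  omega

/-- closed under sliding a bead down by `t` -/
def Cl (t : ℕ) (S : Finset ℕ) : Prop := ∀ b ∈ S, t ≤ b → b - t ∈ S

theorem Cl.sub {t : ℕ} {S : Finset ℕ} (h : Cl t S) {b : ℕ} (hb : b ∈ S) (m : ℕ)
    (hm : t * m ≤ b) : b - t * m ∈ S := by
  induction m with
  | zero => simpa using hb
  | succ m ih =>
    rw [Nat.mul_succ] at hm
    have := h _ (ih (by omega)) (by omega)
    rwa [Nat.mul_succ, ← Nat.sub_sub]

theorem isCore_iff {n K t : ℕ} (hK : n ≤ K) (l : Nat.Partition n) :
    IsCore t l ↔ Cl t (beta l K) := by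
  classical
  constructor
  · intro h b hb htb
    by_contra hx
    simp only [beta, mem_image, mem_range] at hb hx
    obtain ⟨i, hi, rfl⟩ := hb
    set x := bead l K i - t with hxdef
    have hex : ∃ s, K ≤ s ∨ bead l K s < x := ⟨K, Or.inl le_rfl⟩
    set c := Nat.find hex with hcdef
    have hcK : c ≤ K := Nat.find_min' hex (Or.inl le_rfl)
    have hspec : K ≤ c ∨ bead l K c < x := Nat.find_spec hex
    have hmin : ∀ s, s < c → x < bead l K s := by
      intro s hs
      have h1 := Nat.find_min hex hs
      have h2 : bead l K s ≠ x := fun h => hx ⟨s, by omega, h⟩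
      omega
    have hic : i < c := by
      by_contra h1
      have h2 := bead_le l (K := K) (not_lt.mp h1)
      omega
    have hxc : K ≤ x + c := by
      rcases hspec with h1 | h1
      · omega
      · unfold bead at h1
        omega
    have hc : ∀ s, s < c ↔ x + c + 1 - K ≤ pf l s := by
      intro s
      constructor
      · intro hs
        have h1 := hmin (c - 1) (by omega)
        have h2 := pf_anti l (show s ≤ c - 1 by omega)
        unfold bead at h1
        omega
      · intro hs
        by_contra h1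
        have h2 := pf_anti l (not_lt.mp h1)
        by_cases h3 : K ≤ c
        · have := pf_eq_zero l (show n ≤ c by omega)
          omega
        · have h4 : bead l K c < x := by omega
          unfold bead at h4
          omega
    have h1 := (hc i).mp hic
    refine h (i + 1) (x + c + 1 - K) (by omega) (by omega) h1 ?_
    rw [hook_eq l (by omega) hc]
    have h2 : pf l i - (x + c + 1 - K) + (c - i) = t := by
      unfold bead at hxdef htb
      omega
    rw [h2]
  · intro h i j hi hj hij hdvd
    obtain ⟨i, rfl⟩ : ∃ i', i = i' + 1 := ⟨i - 1, by omega⟩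
    have hij' : j ≤ pf l i := hij
    have hex : ∃ s, pf l s < j := ⟨n, by rw [pf_eq_zero l le_rfl]; omega⟩
    set c := Nat.find hex with hcdef
    have hcn : c ≤ n := Nat.find_min' hex (by rw [pf_eq_zero l le_rfl]; omega)
    have hspec : pf l c < j := Nat.find_spec hex
    have hc : ∀ s, s < c ↔ j ≤ pf l s := by
      intro s
      constructor
      · intro hs
        exact not_lt.mp (Nat.find_min hex hs)
      · intro hs
        by_contra h1
        have h2 := pf_anti l (not_lt.mp h1)
        omega
    have hic := (hc i).mpr hij'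
    rw [hook_eq l hj hc] at hdvd
    obtain ⟨m, hm⟩ := hdvd
    have hb : bead l K i ∈ beta l K := mem_image_of_mem _ (by rw [mem_range]; omega)
    have h1 := h.sub hb m (by unfold bead; omega)
    simp only [beta, mem_image, mem_range] at h1
    obtain ⟨s, hs, h2⟩ := h1
    unfold bead at h2
    by_cases h3 : s < c
    · have := (hc s).mp h3
      omega
    · have := (hc s).not.mp h3
      omega

end CoreAux

end Pool.Agent.Lib.MP_6cad4c_al
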