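import Pool.Agent.Lib.MP_6cad4c_al.CoreB

namespace Pool.Agent.Lib.MP_6cad4c_al

open Finset PowerSeries

namespace CoreAux

/-- runner `r` of the abacus -/
def run (t : ℕ) (S : Finset ℕ) (r : Fin t) : Finset ℕ :=
  (S.filter fun b => b % t = r).image (· / t)

/-- the set of beads with given runners -/
def glue (t : ℕ) (F : Fin t → Finset ℕ) : Finset ℕ :=
  univ.biUnion fun r : Fin t => (F r).image fun q => t * q + r

theorem mem_run {t : ℕ} {S : Finset ℕ} {r : Fin t} {q : ℕ} : q ∈ run t S r ↔ t * q + r ∈ S := by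
  have ht : 0 < t := lt_of_le_of_lt (Nat.zero_le _) r.2
  simp only [run, mem_image, mem_filter]
  constructor
  · rintro ⟨b, ⟨hb, h1⟩, rfl⟩
    rwa [← h1, Nat.div_add_mod]
  · intro h
    refine ⟨_, ⟨h, ?_⟩, ?_⟩
    · rw [Nat.mul_add_mod, Nat.mod_eq_of_lt r.2]
    · rw [Nat.mul_add_div ht, Nat.div_eq_of_lt r.2, add_zero]

theorem mul_add_inj {t q q' : ℕ} {r r' : Fin t} (h : t * q + r = t * q' + r') :
    r = r' ∧ q = q' := by
  have ht : 0 < t := lt_of_le_of_lt (Nat.zero_le _) r.2
  have h1 := congrArg (· % t) h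
  simp only [Nat.mul_add_mod, Nat.mod_eq_of_lt r.2, Nat.mod_eq_of_lt r'.2] at h1
  refine ⟨Fin.ext h1, ?_⟩
  rw [h1] at h
  exact Nat.eq_of_mul_eq_mul_left ht (by omega)

theorem mem_glue {t : ℕ} {F : Fin t → Finset ℕ} {r : Fin t} {q : ℕ} :
    t * q + r ∈ glue t F ↔ q ∈ F r := by
  simp only [glue, mem_biUnion, mem_univ, true_and, mem_image]
  constructor
  · rintro ⟨r', q', h1, h2⟩
    obtain ⟨rfl, rfl⟩ := mul_add_inj h2
    exact h1
  · intro h
    exact ⟨r, q, h, rfl⟩

theorem exists_qr {t : ℕ} (ht : t ≠ 0) (b : ℕ) : ∃ (q : ℕ) (r : Fin t), b = t * q + r :=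
  ⟨b / t, ⟨b % t, Nat.mod_lt _ (Nat.pos_of_ne_zero ht)⟩, (Nat.div_add_mod b t).symm⟩

theorem run_glue {t : ℕ} (F : Fin t → Finset ℕ) : run t (glue t F) = F := by
  funext r
  ext q
  rw [mem_run, mem_glue]

theorem glue_run {t : ℕ} (ht : t ≠ 0) (S : Finset ℕ) : glue t (run t S) = S := by
  ext b
  obtain ⟨q, r, rfl⟩ := exists_qr ht b
  rw [mem_glue, mem_run]

theorem sum_glue {t : ℕ} (F : Fin t → Finset ℕ) (φ : ℕ → ℕ) :
    ∑ b ∈ glue t F, φ b = ∑ r : Fin t, ∑ q ∈ F r, φ (t * q + r) := by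
  rw [glue, sum_biUnion]
  · refine sum_congr rfl fun r _ => ?_
    rw [sum_image]
    intro q _ q' _ h
    exact (mul_add_inj h).2
  · intro r _ r' _ hne
    simp only [Function.onFun, disjoint_left, mem_image]
    rintro _ ⟨q, _, rfl⟩ ⟨q', _, h⟩
    exact hne (mul_add_inj h).1.symm

theorem card_glue {t : ℕ} (F : Fin t → Finset ℕ) : (glue t F).card = ∑ r, (F r).card := by
  have := sum_glue F fun _ => 1
  simpa using this

theorem sum_glue_id {t : ℕ} (F : Fin t → Finset ℕ) :
    ∑ b ∈ glue t F, b = ∑ r : Fin t, (r * (F r).card + t * ∑ q ∈ F r, q) := by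
  rw [sum_glue F fun b => b]
  refine sum_congr rfl fun r _ => ?_
  rw [sum_add_distrib, mul_sum, sum_const, smul_eq_mul, add_comm, mul_comm]

/-- generating function of the `K`-subsets of `range M` by sum -/
noncomputable def G (K M : ℕ) : ℤ⟦X⟧ := ∑ S ∈ powersetCard K (range M), X ^ (∑ b ∈ S, b)

theorem G_split {t : ℕ} (ht : t ≠ 0) (K M : ℕ) :
    G K (t * M) = ∑ k ∈ piAntidiag (univ : Finset (Fin t)) K,
      ∏ r : Fin t, (X ^ ((r : ℕ) * k r) * expand t ht (G (k r) M)) := by
  have h1 : ∀ (k : Fin t → ℕ) (r : Fin t), X ^ ((r : ℕ) * k r) * expand t ht (G (k r) M) =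
      ∑ F ∈ powersetCard (k r) (range M), (X : ℤ⟦X⟧) ^ (r * F.card + t * ∑ q ∈ F, q) := by
    intro k r
    rw [G, map_sum, mul_sum]
    refine sum_congr rfl fun F hF => ?_
    rw [map_pow, expand_X, (mem_powersetCard.mp hF).2, ← pow_mul, ← pow_add]
  simp only [h1, prod_univ_sum, prod_pow_eq_pow_sum]
  rw [sum_sigma', G]
  refine sum_nbij' (fun S => ⟨fun r => (run t S r).card, run t S⟩) (fun x => glue t x.2)
    ?_ ?_ ?_ ?_ ?_
  · intro S hS
    obtain ⟨hS1, hS2⟩ := mem_powersetCard.mp hS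
    simp only [mem_sigma, mem_piAntidiag, Fintype.mem_piFinset, mem_powersetCard, mem_univ,
      implies_true, and_true]
    refine ⟨?_, fun r q hq => ?_⟩
    · rw [← card_glue, glue_run ht, hS2]
    · have := mem_range.mp (hS1 (mem_run.mp hq))
      rw [mem_range]
      by_contra h
      have := Nat.mul_le_mul_left t (not_lt.mp h)
      omega
  · rintro ⟨k, F⟩ hx
    simp only [mem_sigma, mem_piAntidiag, Fintype.mem_piFinset, mem_powersetCard, mem_univ,
      implies_true, and_true] at hx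
    obtain ⟨h2, h3⟩ := hx
    rw [mem_powersetCard]
    refine ⟨fun b hb => ?_, ?_⟩
    · obtain ⟨q, r, rfl⟩ := exists_qr ht b
      have h4 := mem_range.mp ((h3 r).1 (mem_glue.mp hb))
      have h5 := Nat.mul_le_mul_left t (show q + 1 ≤ M from h4)
      have := r.2
      rw [mem_range]
      rw [Nat.mul_succ] at h5
      omega
    · rw [card_glue, ← h2]
      exact sum_congr rfl fun r _ => (h3 r).2
  · intro S _
    exact glue_run ht S
  · rintro ⟨k, F⟩ hx
    simp only [mem_sigma, mem_piAntidiag, Fintype.mem_piFinset, mem_powersetCard, mem_univ,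
      implies_true, and_true] at hx
    obtain ⟨_, h3⟩ := hx
    simp only [run_glue]
    obtain rfl : (fun r => (F r).card) = k := funext fun r => (h3 r).2
    rfl
  · intro S _
    rw [← sum_glue_id, glue_run ht]

theorem coeff_G (K M N : ℕ) :
    coeff N (G K M) = ((powersetCard K (range M)).filter fun S => ∑ b ∈ S, b = N).card := by
  rw [G, map_sum, card_filter]
  push_cast
  refine sum_congr rfl fun S _ => ?_
  rw [coeff_X_pow]
  simp only [eq_comm]

theorem coeff_G_add {K M e : ℕ} (he : e ≤ K) (hM : e + T K < M) :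
    coeff (e + T K) (G K M) = pn e := by
  rw [coeff_G, pn, Fintype.card]
  congr 1
  symm
  refine card_bij (fun l _ => beta l K) ?_ ?_ ?_
  · intro l _
    have hs := sum_beta l (K := K) fun i hi => pf_eq_zero l (he.trans hi)
    rw [mem_filter, mem_powersetCard]
    refine ⟨⟨fun b hb => ?_, card_beta l K⟩, hs⟩
    have := single_le_sum (f := fun b => b) (fun _ _ => Nat.zero_le _) hb
    rw [mem_range]
    omega
  · intro l _ l' _ h
    exact beta_inj he h
  · intro S hS
    rw [mem_filter, mem_powersetCard] at hS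
    obtain ⟨l, hl⟩ := beta_surj' S hS.1.2 hS.2
    exact ⟨l, mem_univ _, hl⟩

theorem X_pow_dvd_G (K M : ℕ) : X ^ T K ∣ G K M := by
  refine dvd_sum fun S hS => pow_dvd_pow _ ?_
  rw [← (mem_powersetCard.mp hS).2]
  exact T_le_sum S

theorem exists_D {n K M : ℕ} (hn : n ≤ K) (hM : n + T K < M) :
    ∃ D : ℤ⟦X⟧, G K M = X ^ T K * D ∧ X ^ (n + 1) ∣ D - PowerSeries.mk fun n => (pn n : ℤ) := by
  obtain ⟨D, hD⟩ := X_pow_dvd_G K M
  refine ⟨D, hD, X_pow_dvd_iff.mpr fun e he => ?_⟩
  have := coeff_G_add (K := K) (M := M) (e := e) (by omega) (by omega)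
  rw [hD, coeff_X_pow_mul] at this
  rw [map_sub, this, coeff_mk, sub_self]

/-- the beta set of the core with runner lengths `k` -/
def coreSet (t : ℕ) (k : Fin t → ℕ) : Finset ℕ := glue t fun r => range (k r)

/-- the sum of `coreSet t k` -/
def W (t : ℕ) (k : Fin t → ℕ) : ℕ := ∑ r : Fin t, (r * k r + t * T (k r))

theorem sum_coreSet (t : ℕ) (k : Fin t → ℕ) : ∑ b ∈ coreSet t k, b = W t k := by
  rw [coreSet, sum_glue_id, W]
  simp only [card_range, T]

theorem card_coreSet (t : ℕ) (k : Fin t → ℕ) : (coreSet t k).card = ∑ r, k r := by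
  rw [coreSet, card_glue]
  simp only [card_range]

theorem cl_coreSet {t : ℕ} (ht : t ≠ 0) (k : Fin t → ℕ) : Cl t (coreSet t k) := by
  intro b hb htb
  obtain ⟨q, r, rfl⟩ := exists_qr ht b
  have hr := r.2
  obtain ⟨q, rfl⟩ : ∃ q', q = q' + 1 := by
    rcases q with _ | q
    · omega
    · exact ⟨q, rfl⟩
  rw [show t * (q + 1) + r - t = t * q + r by rw [Nat.mul_succ]; omega]
  rw [coreSet, mem_glue, mem_range] at hb ⊢
  omega

theorem coreSet_inj {t : ℕ} {k k' : Fin t → ℕ} (h : coreSet t k = coreSet t k') : k = k' := by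
  have h1 := congrArg (run t) h
  rw [coreSet, coreSet, run_glue, run_glue] at h1
  funext r
  have := congrArg card (congrFun h1 r)
  simpa using this

theorem eq_range_card {F : Finset ℕ} (h : ∀ q, q + 1 ∈ F → q ∈ F) : F = range F.card := by
  refine eq_of_subset_of_card_le (fun q hq => ?_) (by rw [card_range])
  have h1 : ∀ d a, a + d ∈ F → a ∈ F := by
    intro d
    induction d with
    | zero => intro a ha; exact ha
    | succ d ih => intro a ha; exact ih a (h _ ha)
  have h2 : range (q + 1) ⊆ F := fun a ha => h1 (q - a) a (by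
    rw [mem_range] at ha
    rwa [show a + (q - a) = q by omega])
  have := card_le_card h2
  rw [card_range] at this
  rw [mem_range]
  omega

theorem coreSet_surj {t : ℕ} (ht : t ≠ 0) {S : Finset ℕ} (h : Cl t S) :
    coreSet t (fun r => (run t S r).card) = S := by
  have : (fun r => range (run t S r).card) = run t S := by
    funext r
    refine (eq_range_card fun q hq => ?_).symm
    rw [mem_run] at hq ⊢
    have := h _ hq (by rw [Nat.mul_succ]; omega)
    rwa [show t * (q + 1) + r - t = t * q + r by rw [Nat.mul_succ]; omega] at this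
  rw [coreSet, this, glue_run ht]

theorem card_core {t : ℕ} (ht : t ≠ 0) {m K : ℕ} (hm : m ≤ K) :
    ((piAntidiag (univ : Finset (Fin t)) K).filter fun k => W t k = m + T K).card = cor t m := by
  classical
  rw [cor, Nat.card_eq_fintype_card, Fintype.card_subtype]
  have hs : ∀ l : Nat.Partition m, ∑ b ∈ beta l K, b = m + T K := fun l =>
    sum_beta l fun i hi => pf_eq_zero l (hm.trans hi)
  symm
  refine card_bij (fun l _ => fun r => (run t (beta l K) r).card) ?_ ?_ ?_
  · intro l hl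
    have h1 := coreSet_surj ht ((isCore_iff hm l).mp (mem_filter.mp hl).2)
    simp only [mem_filter, mem_piAntidiag, mem_univ, implies_true, and_true]
    constructor
    · rw [← card_coreSet, h1, card_beta]
    · rw [← sum_coreSet, h1, hs]
  · intro l hl l' hl' h
    have h1 := coreSet_surj ht ((isCore_iff hm l).mp (mem_filter.mp hl).2)
    have h2 := coreSet_surj ht ((isCore_iff hm l').mp (mem_filter.mp hl').2)
    refine beta_inj hm ?_
    rw [← h1, ← h2, h]
  · intro k hk
    simp only [mem_filter, mem_piAntidiag, mem_univ, implies_true, and_true] at hk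
    obtain ⟨l, hl⟩ := beta_surj' (K := K) (n := m) (coreSet t k)
      (by rw [card_coreSet, hk.1]) (by rw [sum_coreSet, hk.2])
    have h1 : Cl t (beta l K) := hl ▸ cl_coreSet ht k
    refine ⟨l, mem_filter.mpr ⟨mem_univ _, (isCore_iff hm l).mpr h1⟩, coreSet_inj ?_⟩
    rw [coreSet_surj ht h1, hl]

end CoreAux

end Pool.Agent.Lib.MP_6cad4c_al
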