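import Mathlib

namespace Pool.Agent.Lib.MP_6cad4c_al

/-- `part l i` is the `i`-th largest part `λ_i` of the partition `l` (indices start at `1`);
it is `0` when `i` exceeds the number of parts. -/
def part {n : ℕ} (l : Nat.Partition n) (i : ℕ) : ℕ :=
  (l.parts.sort (· ≥ ·)).getD (i - 1) 0

/-- The hook length `λ_i - j + #{s ≥ i : λ_s ≥ j}` of the cell `(i, j)`. -/
def hook {n : ℕ} (l : Nat.Partition n) (i j : ℕ) : ℕ :=
  part l i - j + ((Finset.Icc i n).filter fun s => j ≤ part l s).card

/-- `l` is a `t`-core: no hook length of `l` is divisible by `t`. -/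
def IsCore (t : ℕ) {n : ℕ} (l : Nat.Partition n) : Prop :=
  ∀ i j : ℕ, 1 ≤ i → 1 ≤ j → j ≤ part l i → ¬ t ∣ hook l i j

/-- The number of type I zeros: pairs `(λ, μ)` of partitions of `n` with `λ` a `μ_1`-core. -/
noncomputable def ZI (n : ℕ) : ℕ :=
  Nat.card {x : Nat.Partition n × Nat.Partition n // IsCore (part x.2 1) x.1}

/-- The proportion of type I zeros in the character table of `S_n`. -/
noncomputable def zI (n : ℕ) : ℝ :=
  (ZI n : ℝ) / (Fintype.card (Nat.Partition n) : ℝ) ^ 2

end Pool.Agent.Lib.MP_6cad4c_al
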