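import Pool.Agent.Lib.MP_6cad4c_al.KId

namespace Pool.Agent.Lib.MP_6cad4c_al

namespace Dv

theorem pow_log {f : ℝ → ℝ} {c L : ℝ} (h : HasDerivAt f (c * f L) L) (n : ℕ) :
    HasDerivAt (fun t => f t ^ n) (n * c * f L ^ n) L := by
  induction n with
  | zero => simpa using hasDerivAt_const L (1 : ℝ)
  | succ n ih =>
    have := ih.mul h
    simp only [pow_succ]
    refine HasDerivAt.congr_deriv this ?_
    push_cast
    ring

theorem msum_deriv {f : ℝ → ℝ → ℕ → ℕ → ℝ} {f' : ℝ → ℕ → ℕ → ℝ} {L : ℝ}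
    (h : ∀ κ a e, HasDerivAt (fun t => f t κ a e) (f' κ a e) L) :
    HasDerivAt (fun t => msum (f t)) (msum f') L := by
  unfold msum
  exact ((((((((((h _ _ _).add (h _ _ _)).add (h _ _ _)).add (h _ _ _)).add (h _ _ _)).add
    (h _ _ _)).add (h _ _ _)).add (h _ _ _)).add (h _ _ _)).add (h _ _ _)).add (h _ _ _)

theorem d_sg (L : ℝ) : HasDerivAt sg (-sg L) L := by
  unfold sg
  exact ((hasDerivAt_id' L).neg.exp).congr_deriv (by simp)

theorem d_lam (L : ℝ) : HasDerivAt lam (lam L) L := by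
  unfold lam
  exact (Real.hasDerivAt_exp L).const_mul cc

theorem d_eta (L : ℝ) : HasDerivAt eta (-eta L / 2) L := by
  unfold eta
  refine ((((hasDerivAt_id' L).neg.div_const 2).exp).div_const _).congr_deriv ?_
  simp only [Pi.neg_apply]
  ring

theorem d_be (L : ℝ) : HasDerivAt be (-be L) L := by
  unfold be
  exact ((d_sg L).const_mul (8 / 5)).congr_deriv (by ring)

theorem d_ks (L : ℝ) : HasDerivAt ks (-ks L) L := by
  unfold ks
  exact (((d_sg L).mul_const cc⁻¹).const_mul (1 / 2)).congr_deriv (by ring)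

theorem d_kk (L : ℝ) : HasDerivAt kk (-pk0 L) L := by
  unfold kk pk0
  have h := d_ks L
  exact (h.fun_mul ((h.fun_mul ((h.const_mul (2 / 3)).const_add 1)).const_add 2)).congr_deriv
    (by ring)

theorem d_pC (L : ℝ) : HasDerivAt pC (-pnCp L) L := by
  unfold pnCp pS pC
  exact (((d_lam L).const_mul 2).fun_mul ((d_be L).cosh.sub_const 1)).congr_deriv (by ring)

theorem d_pS (L : ℝ) : HasDerivAt pS (-pnSp L) L := by
  unfold pnSp pS
  exact (((d_lam L).const_mul 2).fun_mul (d_be L).sinh).congr_deriv (by ring)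

theorem d_pE2 (L : ℝ) : HasDerivAt pE2 (-(2 * be L * (1 + pE2 L))) L := by
  unfold pE2
  exact ((((d_be L).const_mul 2).exp).sub_const 1).congr_deriv (by ring)

theorem d_pM (L g : ℝ) : HasDerivAt (fun t => pM t g) 1 L := by
  unfold pM
  exact (hasDerivAt_id' L).add_const g

theorem d_pm (L g : ℝ) : HasDerivAt (fun t => pm t g) (pmp L g) L := by
  unfold pmp pomp pm
  exact ((d_pM L g).fun_mul ((d_pE2 L).const_add 1)).congr_deriv (by ring)

theorem d_pME (L g : ℝ) : HasDerivAt (fun t => pME t g) (-pomp L g) L := by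
  unfold pomp pm pME
  exact ((d_pM L g).fun_mul (d_pE2 L)).congr_deriv (by ring)

theorem d_pX0 (L g : ℝ) : HasDerivAt (fun t => pX0 t g) (-pX0 L g) L := by
  unfold pX0
  exact (((hasDerivAt_id' L).add_const g).fun_neg.exp).congr_deriv (by ring)

theorem d_ph (L g : ℝ) : HasDerivAt (fun t => ph t g) (-ph2 L g) L := by
  unfold ph ph2
  have h := d_pX0 L g
  exact ((h.fun_mul ((h.fun_mul ((h.fun_mul ((h.fun_mul ((h.mul_const 2).const_add
    (6 / 5))).const_add (7 / 4))).const_add (4 / 3))).const_add (3 / 2))).const_add 1).congr_deriv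
    (by ring)

theorem d_peb (L : ℝ) : HasDerivAt peb (-be L * peb L) L := by
  unfold peb
  exact (d_be L).exp.congr_deriv (by ring)

theorem d_pV (L g : ℝ) : HasDerivAt (fun t => pV t g) (pVp L g) L := by
  unfold pVp pV pMh pebu
  exact (((d_pM L g).fun_mul (d_ph L g)).fun_mul ((d_peb L).mul_const (pu0 g))).congr_deriv
    (by ring)

theorem d_pex (L g : ℝ) : HasDerivAt (fun t => pex t g) ((be L + pomp L g) * pex L g) L := by
  unfold pex
  exact (((d_be L).fun_add (d_pME L g)).fun_neg.exp).congr_deriv (by ring)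

theorem d_pu (L g : ℝ) : HasDerivAt (fun t => pu t g) (pup L g) L := by
  unfold pup pu
  exact ((d_pex L g).const_mul (pu0 g)).congr_deriv (by ring)

theorem d_psp (L : ℝ) : HasDerivAt psp (-(1 + be L) * psp L) L := by
  unfold psp
  exact ((d_sg L).fun_mul (d_peb L)).congr_deriv (by ring)

theorem d_px (L g : ℝ) : HasDerivAt (fun t => px t g) (-pmp L g * px L g) L := by
  unfold pmp px
  exact (((d_pX0 L g).fun_mul (d_pex L g)).fun_mul (d_peb L)).congr_deriv (by ring)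

theorem d_kt (L g κ : ℝ) (a e : ℕ) :
    HasDerivAt (fun t => kt (mkPr t g) κ a e) (ktD (mkPr L g) κ a e) L := by
  unfold ktD kt
  simp only [mkPr]
  refine ((((d_pu L g).const_mul κ).fun_mul (pow_log (d_psp L) e)).fun_mul
    (pow_log (d_px L g) a)).congr_deriv ?_
  unfold pup pmp
  ring

theorem msum_ktD (L g : ℝ) : msum (ktD (mkPr L g)) = -pnR0p L g := by
  unfold msum ktD kt pnR0p pRe pRa pr1 pr2n pr3n pr4n ps2
  simp only [mkPr]
  push_cast
  ring

theorem msum_kt' (L g : ℝ) : msum (kt (mkPr L g)) = pu L g * pRs L g := by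
  unfold msum kt pRs pr1 pr2n pr3n pr4n ps2
  simp only [mkPr]
  ring

theorem d_uR (L g : ℝ) : HasDerivAt (fun t => pu t g * pRs t g) (-pnR0p L g) L := by
  have h := msum_deriv (f := fun t => kt (mkPr t g)) (d_kt L g)
  rw [msum_ktD] at h
  simpa only [msum_kt'] using h

theorem d_pBz (L g : ℝ) :
    HasDerivAt (fun t => pBz t g) (-pomp L g + pVp L g + (pup L g + pnR0p L g)) L := by
  have h := ((d_pME L g).fun_add (d_pV L g)).fun_add ((d_pu L g).fun_sub (d_uR L g))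
  refine (h.congr_deriv (by ring)).congr_of_eventuallyEq (Filter.Eventually.of_forall ?_)
  intro t
  simp only [pBz]
  ring

theorem d_pw (L g : ℝ) : HasDerivAt (fun t => pw t g) (pw L g * pL0 L g) L := by
  unfold pL0 pw peA
  exact ((((((d_pC L).const_mul 2).fun_add (d_kk L)).fun_add (d_be L)).exp.const_mul
    (pu0 g)).fun_mul (d_pBz L g).fun_neg.exp).congr_deriv (by ring)

/-- a curve of parameters and angles with the expected derivatives -/
structure Cv (q : ℝ → Pr) (φ₁ φ₂ : ℝ → ℝ) (L : ℝ) : Prop where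
  la : HasDerivAt (fun t => (q t).la) (q L).la L
  C : HasDerivAt (fun t => (q t).C) (-(q L).nCp) L
  S : HasDerivAt (fun t => (q t).S) (-(q L).nSp) L
  m : HasDerivAt (fun t => (q t).m) (q L).mp L
  u : HasDerivAt (fun t => (q t).u) (q L).up L
  V : HasDerivAt (fun t => (q t).V) (q L).Vp L
  kt : ∀ κ a e, HasDerivAt (fun t => kt (q t) κ a e) (ktD (q L) κ a e) L
  h1 : HasDerivAt φ₁ (-φ₁ L / 2) L
  h2 : HasDerivAt φ₂ (-φ₂ L / 2) L

variable {q : ℝ → Pr} {φ₁ φ₂ : ℝ → ℝ} {L : ℝ}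

theorem Cv.eo (h : Cv q φ₁ φ₂ L) :
    HasDerivAt (fun t => eo (q t) (φ₁ t) (φ₂ t)) (eoD (q L) (φ₁ L) (φ₂ L)) L := by
  unfold MP_6cad4c_al.eo eoD
  exact (h.m.fun_mul ((h.h2.fun_sub h.h1).cos.const_sub 1)).congr_deriv (by ring)

theorem Cv.vt (h : Cv q φ₁ φ₂ L) :
    HasDerivAt (fun t => vt (q t) (φ₁ t) (φ₂ t)) (vtD (q L) (φ₁ L) (φ₂ L)) L := by
  unfold MP_6cad4c_al.vt vtD
  exact (h.m.fun_mul (h.h2.fun_sub h.h1).sin).congr_deriv (by ring)

theorem Cv.gg (h : Cv q φ₁ φ₂ L) :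
    HasDerivAt (fun t => gg (q t) (φ₁ t) (φ₂ t))
      (eoD (q L) (φ₁ L) (φ₂ L) * gg (q L) (φ₁ L) (φ₂ L)) L := by
  unfold MP_6cad4c_al.gg
  exact h.eo.exp.congr_deriv (by ring)

theorem Cv.al (h : Cv q φ₁ φ₂ L) :
    HasDerivAt (fun t => al (q t) (φ₁ t) (φ₂ t)) (alD (q L) (φ₁ L) (φ₂ L)) L := by
  unfold MP_6cad4c_al.al alD
  exact (h.vt.fun_add h.h2).congr_deriv (by ring)

theorem Cv.omg (h : Cv q φ₁ φ₂ L) (a e : ℕ) :
    HasDerivAt (fun t => omg (q t) (φ₁ t) (φ₂ t) a e) (omgD (q L) (φ₁ L) (φ₂ L) a e) L := by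
  unfold MP_6cad4c_al.omg omgD
  exact ((h.vt.const_mul _).fun_sub (h.h2.const_mul _)).congr_deriv (by ring)

theorem Cv.gam (h : Cv q φ₁ φ₂ L) {φ : ℝ → ℝ} (hφ : HasDerivAt φ (-φ L / 2) L) :
    HasDerivAt (fun t => gam (q t) (φ t)) (gamD (q L) (φ L)) L := by
  unfold MP_6cad4c_al.gam gamD
  refine (((h.la.const_mul 2).fun_mul (hφ.cos.sub_const 1)).fun_add
    (h.la.fun_mul (pow_log (c := -1 / 2) (hφ.congr_deriv (by ring)) 2))).congr_deriv ?_
  push_cast
  ring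

theorem Cv.aB (h : Cv q φ₁ φ₂ L) :
    HasDerivAt (fun t => aB (q t) (φ₁ t) (φ₂ t)) (aBD (q L) (φ₁ L) (φ₂ L)) L := by
  unfold MP_6cad4c_al.aB aBD
  refine HasDerivAt.fun_add ?_ (msum_deriv fun κ a e => ?_)
  · exact (h.eo.fun_add (h.u.fun_mul ((h.gg.fun_mul h.al.cos).const_sub 1))).congr_deriv (by ring)
  · refine ((h.kt κ a e).fun_mul (((pow_log h.gg (a + 1)).fun_mul
      (h.omg a e).cos).sub_const 1)).congr_deriv ?_
    push_cast
    ring

theorem Cv.thB (h : Cv q φ₁ φ₂ L) :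
    HasDerivAt (fun t => thB (q t) (φ₁ t) (φ₂ t)) (thBD (q L) (φ₁ L) (φ₂ L)) L := by
  unfold MP_6cad4c_al.thB thBD
  refine HasDerivAt.fun_sub ?_ (msum_deriv fun κ a e => ?_)
  · exact (h.vt.fun_neg.fun_add (h.u.fun_mul (h.gg.fun_mul h.al.sin))).congr_deriv (by ring)
  · refine ((h.kt κ a e).fun_mul ((pow_log h.gg (a + 1)).fun_mul
      (h.omg a e).sin)).congr_deriv ?_
    push_cast
    ring

theorem Cv.aF (h : Cv q φ₁ φ₂ L) :
    HasDerivAt (fun t => aF (q t) (φ₁ t) (φ₂ t)) (aD (q L) (φ₁ L) (φ₂ L)) L := by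
  unfold MP_6cad4c_al.aF aD
  exact (((((h.gam h.h1).fun_add (h.gam h.h2)).fun_sub
    (h.C.fun_mul ((h.h1.cos.const_sub 2).fun_sub h.h2.cos))).fun_add
    (h.V.fun_mul (h.h1.cos.const_sub 1))).fun_add h.aB).congr_deriv (by ring)

theorem Cv.thF (h : Cv q φ₁ φ₂ L) :
    HasDerivAt (fun t => thF (q t) (φ₁ t) (φ₂ t)) (thD (q L) (φ₁ L) (φ₂ L)) L := by
  unfold MP_6cad4c_al.thF thD
  exact (((((h.S.fun_mul (h.h2.sin.fun_sub h.h1.sin)).fun_add (h.h1.div_const 2)).fun_add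
    ((h.h2.const_mul 3).div_const 2)).fun_add (h.V.fun_mul h.h1.sin)).fun_add h.thB).congr_deriv
    (by ring)

theorem cv_mk (L g x y : ℝ) :
    Cv (fun t => mkPr t g) (fun t => eta t * x) (fun t => eta t * y) L where
  la := d_lam L
  C := d_pC L
  S := d_pS L
  m := d_pm L g
  u := d_pu L g
  V := d_pV L g
  kt := d_kt L g
  h1 := ((d_eta L).mul_const x).congr_deriv (by ring)
  h2 := ((d_eta L).mul_const y).congr_deriv (by ring)

end Dv

theorem hasDerivAt_Kr (L g x y : ℝ) : HasDerivAt (fun L => Kr L g x y) (dKr L g x y) L := by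
  have h := Dv.cv_mk L g x y
  unfold Kr dKr PF
  refine ((Dv.d_pw L g).fun_mul ((h.aF.exp.fun_mul h.thF.cos).const_mul _)).congr_deriv ?_
  have hL : (mkPr L g).L0 = pL0 L g := rfl
  rw [hL]
  ring

end Pool.Agent.Lib.MP_6cad4c_al
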