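import Pool.Agent.Lib.MP_6cad4c_al.LargeA

namespace Pool.Agent.Lib.MP_6cad4c_al

variable {L g : ℝ}

theorem lg_sL4 (hL : 40 ≤ L) : sg L * L ^ 4 ≤ 11 / 10 ^ 12 := by
  have h1 : L ≤ 40 * Real.exp ((L - 40) / 4) := by
    have := Real.add_one_le_exp ((L - 40) / 4)
    linarith
  have h2 : L ^ 4 ≤ (40 * Real.exp ((L - 40) / 4)) ^ 4 := by
    have : 0 ≤ L := by linarith
    gcongr
  have h3 : (40 * Real.exp ((L - 40) / 4)) ^ 4 = 40 ^ 4 * Real.exp (L - 40) := by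
    rw [mul_pow, ← Real.exp_nat_mul]
    congr 2
    push_cast
    ring
  have h4 : sg L * Real.exp (L - 40) = (Real.exp 1 ^ 40)⁻¹ := by
    unfold sg
    rw [← Real.exp_add, ← Real.exp_nat_mul, ← Real.exp_neg]
    congr 1
    push_cast
    ring
  have h5 : (2.7182818283 : ℝ) ^ 40 ≤ Real.exp 1 ^ 40 := by
    have := Real.exp_one_gt_d9
    gcongr
  have h6 : (Real.exp 1 ^ 40)⁻¹ ≤ ((2.7182818283 : ℝ) ^ 40)⁻¹ := inv_anti₀ (by norm_num) h5
  have h7 : ((2.7182818283 : ℝ) ^ 40)⁻¹ ≤ 4.25 / 10 ^ 18 := by norm_num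
  have h8 := sg_pos L
  calc sg L * L ^ 4 ≤ sg L * (40 ^ 4 * Real.exp (L - 40)) := by rw [← h3]; gcongr
    _ = 40 ^ 4 * (sg L * Real.exp (L - 40)) := by ring
    _ ≤ 40 ^ 4 * (4.25 / 10 ^ 18) := by rw [h4]; gcongr; exact h6.trans h7
    _ ≤ _ := by norm_num

theorem lg_sL2 (hL : 40 ≤ L) : sg L * L ^ 2 ≤ 6875 / 10 ^ 18 := by
  have h1 := lg_sL4 hL
  have h2 : 1600 ≤ L ^ 2 := by nlinarith
  have h3 : 0 ≤ sg L * L ^ 2 := by have := sg_pos L; positivity
  nlinarith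

theorem lg_sL (hL : 40 ≤ L) : sg L * L ≤ 1 / 10 ^ 15 := by
  have h1 := lg_sL2 hL
  have h3 : 0 ≤ sg L * L := by have := sg_pos L; have : 0 ≤ L := by linarith
                               positivity
  nlinarith

theorem lg_s (hL : 40 ≤ L) : 40 * sg L ≤ sg L * L := by nlinarith [sg_pos L]

theorem lg_ks (L : ℝ) : 3 / 10 * sg L ≤ ks L ∧ ks L ≤ 304 / 1000 * sg L := by
  have h := lam_mul_ks L
  have h1 := lam_mul_sg L
  have h2 : 2 * cc * ks L = sg L := by
    rw [← h1]; linear_combination (sg L) * h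
  have := ks_pos L
  constructor <;> nlinarith [cc_gt, cc_lt]

theorem lg_T2 (L : ℝ) : (eta L * L) ^ 2 = ks L * L ^ 2 := by rw [mul_pow, eta_sq]

theorem lg_T (hL : 40 ≤ L) : eta L * L ≤ 46 / 10 ^ 9 := by
  apply abs_le_of_sq_le_sq' _ (by norm_num) |>.2
  rw [lg_T2]
  have h1 := lg_sL2 hL
  have h2 : 2 * cc * ks L = sg L := by
    have h := lam_mul_ks L
    rw [← lam_mul_sg L]; linear_combination (sg L) * h
  have h3 : 0 ≤ ks L * L ^ 2 := by have := ks_pos L; positivity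
  have h4 : 2 * cc * (ks L * L ^ 2) = sg L * L ^ 2 := by rw [← h2]; ring
  nlinarith [cc_gt]

theorem lg_u0 (hg : -(5 / 2) ≤ g) : 0 < pu0 g ∧ pu0 g ≤ 61 / 5 := by
  refine ⟨Real.exp_pos _, ?_⟩
  unfold pu0
  have h1 : Real.exp (-g) ≤ Real.exp (5 / 2) := Real.exp_le_exp.2 (by linarith)
  refine h1.trans ?_
  apply abs_le_of_sq_le_sq' _ (by norm_num) |>.2
  rw [← Real.exp_nat_mul, show ((2 : ℕ) : ℝ) * (5 / 2) = (5 : ℕ) * 1 by norm_num, Real.exp_nat_mul]
  have := Real.exp_one_lt_d9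
  calc Real.exp 1 ^ 5 ≤ (2.7182818286 : ℝ) ^ 5 := by gcongr
    _ ≤ _ := by norm_num

theorem lg_X0 (L g : ℝ) : pX0 L g = sg L * pu0 g := by
  unfold pX0 sg pu0
  rw [← Real.exp_add]
  congr 1
  ring

/-- bounds depending on `L` only -/
structure LS (L : ℝ) : Prop where
  be : 0 < be L ∧ be L ≤ 2 * sg L
  eb : 1 ≤ peb L ∧ peb L ≤ 1 + 2 * sg L
  E2 : 0 ≤ pE2 L ∧ pE2 L ≤ 4 * sg L
  S : pS L ≤ 6
  nSp : pnSp L ≤ 1
  C : 0 ≤ pC L ∧ pC L ≤ 5 * sg L
  nCp : 0 ≤ pnCp L ∧ pnCp L ≤ 5 * sg L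
  k0 : 0 ≤ pk0 L ∧ pk0 L ≤ sg L
  sp : 0 ≤ psp L ∧ psp L ≤ 2 * sg L
  s2 : 0 ≤ ps2 L ∧ ps2 L ≤ 1 / 2 * psp L

theorem lg_LS (hL : 40 ≤ L) : LS L := by
  have hL' : 47 / 10 ≤ L := by linarith
  have s0 := sg_pos L
  have s1 : sg L ≤ 1 / 10 ^ 15 := by linarith [lg_sL hL, lg_s hL]
  have hb : be L = 8 / 5 * sg L := rfl
  have b0 := be_pos L
  have hb2 : 0 ≤ pb2 L ∧ pb2 L ≤ 1 / 100 * sg L := by
    unfold pb2; rw [hb]; constructor <;> nlinarith
  have c0 := cc_gt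
  have c1 := cc_lt
  have eb : 1 ≤ peb L ∧ peb L ≤ 1 + 2 * sg L := by
    have := side_eb hL'
    constructor <;> linarith
  have cb2 : 0 ≤ pcb2 L ∧ pcb2 L * (1 + pb2 L) ≤ 5 * sg L := by
    have h1 : 0 ≤ pcb2 L := by unfold pcb2; have := cc_pos; positivity
    have h2 : pcb2 L ≤ 43 / 10 * sg L := by unfold pcb2; nlinarith
    exact ⟨h1, by nlinarith⟩
  have c2b : 0 ≤ pc2b L ∧ pc2b L ≤ 53 / 10 := by unfold pc2b; constructor <;> linarith
  have sp : 0 ≤ psp L ∧ psp L ≤ 2 * sg L := by unfold psp; constructor <;> nlinarith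
  refine ⟨⟨b0, by linarith⟩, eb, ?_, ?_, ?_, ?_, ?_, ?_, sp, ?_⟩
  · have := side_E2 hL'
    constructor <;> nlinarith
  · have := side_S hL'
    nlinarith
  · have := side_nSp hL'
    nlinarith
  · have := side_C hL'
    constructor <;> linarith
  · have := side_nCp hL'
    constructor <;> linarith
  · have h1 := lg_ks L
    have h2 := ks_pos L
    unfold pk0
    refine ⟨by positivity, ?_⟩
    have h3 : 1 + ks L * (1 + ks L) ≤ 3 / 2 := by nlinarith
    nlinarith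
  · unfold ps2
    constructor <;> nlinarith

/-- bounds depending on `L` and `g` -/
structure LG (L g : ℝ) : Prop where
  M : 75 / 2 ≤ pM L g ∧ pM L g ≤ 19 / 4 * L
  X0 : 0 < pX0 L g ∧ pX0 L g ≤ 13 * sg L
  h : 1 ≤ ph L g ∧ ph L g ≤ 1 + 26 * sg L
  h2 : 0 ≤ ph2 L g ∧ ph2 L g ≤ 26 * sg L
  m : 75 / 2 ≤ pm L g ∧ pm L g ≤ 5 * L
  omp : |pomp L g| ≤ 20 * (sg L * L)
  ME : 0 ≤ pME L g ∧ pME L g ≤ 19 * (sg L * L)
  ex : 0 < pex L g ∧ pex L g ≤ 1
  u : 0 < pu L g ∧ pu L g ≤ pu0 g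
  up : |pup L g| ≤ 260 * (sg L * L)
  x : 0 < px L g ∧ px L g ≤ 14 * sg L
  ebu : pu0 g ≤ pebu L g ∧ pebu L g ≤ 101 / 100 * pu0 g
  Mh : 0 ≤ pMh L g ∧ pMh L g ≤ 101 / 100 * pM L g
  Vp : 9 / 10 * pu0 g ≤ pVp L g ∧ pVp L g ≤ 13
  Rs : |pRs L g| ≤ 1 / 100
  nR0p : |pnR0p L g| ≤ 1000 * sg L

theorem lg_poly {x a b c d : ℝ} (hx : 0 ≤ x ∧ x ≤ 1 / 100) (ha : |a| ≤ 1) (hb : |b| ≤ 1)
    (hc : |c| ≤ 1) (hd : |d| ≤ 1) : |x * (a + x * (b + x * (c + d * x)))| ≤ 2 * x := by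
  have h0 : |x| ≤ 1 / 100 := by rw [abs_of_nonneg hx.1]; exact hx.2
  have h1 : |c + d * x| ≤ 2 := (abs_add_le _ _).trans (by linarith [lg_abs_mul hd h0])
  have h2 : |b + x * (c + d * x)| ≤ 2 := (abs_add_le _ _).trans (by linarith [lg_abs_mul h0 h1])
  have h3 : |a + x * (b + x * (c + d * x))| ≤ 2 :=
    (abs_add_le _ _).trans (by linarith [lg_abs_mul h0 h2])
  have h4 := lg_abs_mul (le_refl |x|) h3
  rw [abs_of_nonneg hx.1] at h4
  linarith

theorem lg_LG (hL : 40 ≤ L) (hg : -(5 / 2) ≤ g) (hg' : g ≤ 7 / 2 * L + 9) : LG L g := by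
  have H := lg_LS hL
  have s0 := sg_pos L
  have d1 := lg_sL hL
  have d2 := lg_s hL
  have s1 : sg L ≤ 1 / 10 ^ 15 := by linarith
  obtain ⟨u0, u1⟩ := lg_u0 hg
  have hM : 75 / 2 ≤ pM L g ∧ pM L g ≤ 19 / 4 * L := by unfold pM; constructor <;> linarith
  have hX : 0 < pX0 L g ∧ pX0 L g ≤ 13 * sg L := by
    rw [lg_X0]
    exact ⟨mul_pos s0 u0, by linarith [mul_le_mul_of_nonneg_left u1 s0.le]⟩
  have hX1 : pX0 L g ≤ 1 / 100 := by linarith
  have hh : 1 ≤ ph L g ∧ ph L g ≤ 1 + 26 * sg L := by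
    unfold ph
    obtain ⟨a0, a1⟩ := hX
    have h1 : 3 / 2 + pX0 L g * (4 / 3 + pX0 L g * (7 / 4 + pX0 L g * (6 / 5 + pX0 L g * 2))) ≤ 2 := by
      calc _ ≤ (3 : ℝ) / 2 + 1 / 100 * (4 / 3 + 1 / 100 * (7 / 4 + 1 / 100 * (6 / 5 + 1 / 100 * 2))) := by
            gcongr
        _ ≤ _ := by norm_num
    have h2 : 0 ≤ 3 / 2 + pX0 L g * (4 / 3 + pX0 L g * (7 / 4 + pX0 L g * (6 / 5 + pX0 L g * 2))) := by
      positivity
    exact ⟨by linarith [mul_nonneg a0.le h2], by linarith [mul_le_mul_of_nonneg_left h1 a0.le]⟩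
  have hh2 : 0 ≤ ph2 L g ∧ ph2 L g ≤ 26 * sg L := by
    unfold ph2
    obtain ⟨a0, a1⟩ := hX
    have h1 : 3 / 2 + pX0 L g * (8 / 3 + pX0 L g * (21 / 4 + pX0 L g * (24 / 5 + pX0 L g * 10))) ≤ 2 := by
      calc _ ≤ (3 : ℝ) / 2 + 1 / 100 * (8 / 3 + 1 / 100 * (21 / 4 + 1 / 100 * (24 / 5 + 1 / 100 * 10))) := by
            gcongr
        _ ≤ _ := by norm_num
    exact ⟨by positivity, by linarith [mul_le_mul_of_nonneg_left h1 a0.le]⟩
  obtain ⟨e0, e1⟩ := H.E2
  obtain ⟨b0, b1⟩ := H.be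
  obtain ⟨eb0, eb1⟩ := H.eb
  have hME : 0 ≤ pME L g ∧ pME L g ≤ 19 * (sg L * L) := by
    unfold pME
    refine ⟨mul_nonneg (by linarith) e0, ?_⟩
    calc pM L g * pE2 L ≤ 19 / 4 * L * (4 * sg L) :=
          mul_le_mul hM.2 e1 e0 (by linarith)
      _ = _ := by ring
  have hm : 75 / 2 ≤ pm L g ∧ pm L g ≤ 5 * L := by
    have : pm L g = pM L g + pME L g := by unfold pm pME; ring
    rw [this]; constructor <;> linarith
  have homp : |pomp L g| ≤ 20 * (sg L * L) := by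
    unfold pomp
    have h1 : 0 ≤ be L * pm L g := mul_nonneg b0.le (by linarith)
    have h2 : be L * pm L g ≤ 2 * sg L * (5 * L) := mul_le_mul b1 hm.2 (by linarith) (by linarith)
    rw [abs_le]; constructor <;> linarith
  have hex : 0 < pex L g ∧ pex L g ≤ 1 :=
    ⟨Real.exp_pos _, Real.exp_le_one_iff.2 (by linarith)⟩
  have hu : 0 < pu L g ∧ pu L g ≤ pu0 g := by
    unfold pu
    exact ⟨mul_pos u0 hex.1, by linarith [mul_le_mul_of_nonneg_left hex.2 u0.le]⟩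
  have au : |pu L g| ≤ 61 / 5 := by rw [abs_of_pos hu.1]; linarith
  have hup : |pup L g| ≤ 260 * (sg L * L) := by
    unfold pup
    have h1 : |be L + pomp L g| ≤ 21 * (sg L * L) := by
      refine (abs_add_le _ _).trans ?_
      rw [abs_of_pos b0]; linarith
    linarith [lg_abs_mul au h1]
  have hx : 0 < px L g ∧ px L g ≤ 14 * sg L := by
    unfold px
    obtain ⟨a0, a1⟩ := hX
    obtain ⟨c0, c1⟩ := hex
    refine ⟨by positivity, ?_⟩
    calc pX0 L g * pex L g * peb L ≤ 13 * sg L * 1 * (101 / 100) := by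
          gcongr; linarith
      _ ≤ _ := by linarith
  have hx' : 0 ≤ px L g ∧ px L g ≤ 1 / 100 := ⟨hx.1.le, by linarith⟩
  have hebu : pu0 g ≤ pebu L g ∧ pebu L g ≤ 101 / 100 * pu0 g := by
    unfold pebu
    exact ⟨by linarith [mul_le_mul_of_nonneg_right eb0 u0.le],
      mul_le_mul_of_nonneg_right (by linarith) u0.le⟩
  have hMh : 0 ≤ pMh L g ∧ pMh L g ≤ 101 / 100 * pM L g := by
    unfold pMh
    have h1 : ph L g ≤ 101 / 100 := by linarith
    have h2 : 0 ≤ pM L g := by linarith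
    exact ⟨mul_nonneg h2 (by linarith), by linarith [mul_le_mul_of_nonneg_left h1 h2]⟩
  have hVp : 9 / 10 * pu0 g ≤ pVp L g ∧ pVp L g ≤ 13 := by
    unfold pVp
    have h1 : 0 ≤ be L * ph L g := mul_nonneg b0.le (by linarith)
    have h2 : be L * ph L g ≤ 2 * sg L * 2 := mul_le_mul b1 (by linarith) (by linarith) (by linarith)
    have h3 : 0 ≤ pM L g * (ph2 L g + be L * ph L g) := mul_nonneg (by linarith) (by linarith)
    have h4 : pM L g * (ph2 L g + be L * ph L g) ≤ 19 / 4 * L * (30 * sg L) :=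
      mul_le_mul hM.2 (by linarith) (by linarith) (by linarith)
    have h5 : 9 / 10 ≤ ph L g - pM L g * (ph2 L g + be L * ph L g) := by linarith
    have h6 : ph L g - pM L g * (ph2 L g + be L * ph L g) ≤ 101 / 100 := by linarith
    constructor
    · linarith [mul_le_mul hebu.1 h5 (by norm_num) (by linarith)]
    · calc _ ≤ 101 / 100 * (61 / 5) * (101 / 100 : ℝ) :=
            mul_le_mul (by linarith) h6 (by linarith) (by norm_num)
        _ ≤ _ := by norm_num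
  obtain ⟨p0, p1⟩ := H.sp
  obtain ⟨q0, q1⟩ := H.s2
  have r1 : |pr1 L| ≤ sg L := by unfold pr1; rw [abs_le]; constructor <;> linarith
  have r2 : |pr2n L| ≤ 1 / 2 := by unfold pr2n; rw [abs_le]; constructor <;> linarith
  have r3 : |pr3n L| ≤ 1 / 3 := by unfold pr3n; rw [abs_le]; constructor <;> linarith
  have r4 : |pr4n L| ≤ 1 / 4 := by unfold pr4n; rw [abs_le]; constructor <;> linarith
  have hRs : |pRs L g| ≤ 1 / 100 := by
    unfold pRs
    have h1 := lg_poly (d := 1 / 25) hx' (r2.trans (by norm_num)) (r3.trans (by norm_num))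
      (r4.trans (by norm_num)) (by rw [abs_of_pos] <;> norm_num)
    refine (abs_sub _ _).trans ?_
    linarith
  have hRa : |pRa L g| ≤ 29 * sg L := by
    unfold pRa
    have h1 := lg_poly (a := 2 * pr2n L) (b := 3 * pr3n L) (c := 4 * pr4n L) (d := 1 / 5) hx'
      (by rw [abs_mul, abs_of_pos (by norm_num)]; linarith)
      (by rw [abs_mul, abs_of_pos (by norm_num)]; linarith)
      (by rw [abs_mul, abs_of_pos (by norm_num)]; linarith) (by rw [abs_of_pos] <;> norm_num)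
    refine (abs_sub _ _).trans ?_
    linarith
  have hRe : |pRe L g| ≤ 16 * sg L := by
    unfold pRe
    obtain ⟨a0, a1⟩ := hx'
    have h1 : 0 ≤ px L g * (1 / 9 + px L g * (1 / 16 + 1 / 25 * px L g)) := by positivity
    have h2 : px L g * (1 / 9 + px L g * (1 / 16 + 1 / 25 * px L g)) ≤
        1 / 100 * (1 / 9 + 1 / 100 * (1 / 16 + 1 / 25 * (1 / 100))) := by gcongr
    have h3 : 0 ≤ ps2 L * (1 + px L g) := by positivity
    have h4 : ps2 L * (1 + px L g) ≤ 1 / 100 * (1 + 1 / 100) := by gcongr; linarith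
    have h5 : |1 / 4 + px L g * (1 / 9 + px L g * (1 / 16 + 1 / 25 * px L g)) -
        ps2 L * (1 + px L g)| ≤ 1 := by rw [abs_le]; constructor <;> linarith
    have h6 := lg_abs_mul (le_refl |px L g|) h5
    rw [abs_of_nonneg a0] at h6
    refine (abs_sub _ _).trans ?_
    rw [abs_of_nonneg q0]
    linarith
  have hn : |pnR0p L g| ≤ 1000 * sg L := by
    unfold pnR0p
    have h1 : |1 + be L| ≤ 101 / 100 := by rw [abs_le]; constructor <;> linarith
    have h2 : |pmp L g| ≤ 101 / 100 := by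
      unfold pmp
      have := abs_le.1 homp
      rw [abs_le]; constructor <;> linarith
    have h3 : |(1 + be L) * pRe L g + pmp L g * pRa L g| ≤ 46 * sg L :=
      (abs_add_le _ _).trans (by linarith [lg_abs_mul h1 hRe, lg_abs_mul h2 hRa])
    linarith [lg_abs_mul au h3]
  exact ⟨hM, hX, hh, hh2, hm, homp, hME, hex, hu, hup, hx, hebu, hMh, hVp, hRs, hn⟩

theorem lg_PB (hL : 40 ≤ L) (hg : -(5 / 2) ≤ g) (hg' : g ≤ 7 / 2 * L + 9) :
    PB (mkPr L g) L (Real.exp (-g)) := by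
  have H := lg_LS hL
  have G := lg_LG hL hg hg'
  have s0 := sg_pos L
  have d1 := lg_sL hL
  have d2 := lg_s hL
  have d3 := lg_sL2 hL
  obtain ⟨u0, u1⟩ := lg_u0 hg
  have homp := abs_le.1 G.omp
  have hup := abs_le.1 G.up
  have hn := abs_le.1 G.nR0p
  have hT : 12 * (sg L * L) ≤ (eta L * L) ^ 2 := by
    rw [lg_T2]
    have h1 := (lg_ks L).1
    have h2 : 3 / 10 * sg L * L ^ 2 ≤ ks L * L ^ 2 := by gcongr
    have h3 : 0 ≤ sg L * L := by linarith
    nlinarith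
  refine
    { hL := hL
      ok := mkPr_ok (by linarith) (by linarith)
      T := lg_T hL
      be := show be L ≤ _ by linarith [H.be.2]
      spm := ?_
      C := show pC L ≤ _ by linarith [H.C.2]
      nCp := show pnCp L ≤ _ by linarith [H.nCp.2]
      S := H.S
      nSp := H.nSp
      m0 := G.m.1
      m1 := G.m.2
      mp0 := show _ ≤ pmp L g by unfold pmp; linarith
      mp1 := show pmp L g ≤ _ by unfold pmp; linarith
      u := show pu L g ≤ _ by linarith [G.u.2]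
      up := show |pup L g| ≤ _ by linarith [G.up]
      V := ?_
      Vp0 := show _ ≤ pVp L g by linarith [G.Vp.1]
      Vp1 := G.Vp.2
      x := ?_
      vl0 := ?_
      vl1 := ?_
      u0p := (Real.exp_pos _).le
      L00 := ?_
      L01 := ?_ }
  · show psp L * pm L g ≤ _
    calc psp L * pm L g ≤ 2 * sg L * (5 * L) :=
          mul_le_mul H.sp.2 G.m.2 (by linarith [G.m.1]) (by linarith)
      _ ≤ _ := by nlinarith
  · show pV L g ≤ _
    unfold pV
    calc pMh L g * pebu L g ≤ 101 / 100 * (19 / 4 * L) * (101 / 100 * (61 / 5)) :=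
          mul_le_mul (by linarith [G.Mh.2, G.M.2]) (by linarith [G.ebu.2]) (by linarith [G.ebu.1])
            (by linarith)
      _ ≤ _ := by linarith
  · show px L g * L ^ 2 ≤ _
    calc px L g * L ^ 2 ≤ 14 * sg L * L ^ 2 := by gcongr; exact G.x.2
      _ ≤ _ := by linarith
  · show 0 ≤ pvl L g
    unfold pvl
    have := G.Mh.1
    have := G.X0.1
    have := cc_pos
    have : 0 ≤ peb L := by linarith [H.eb.1]
    positivity
  · show pvl L g ≤ _
    unfold pvl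
    have a0 := G.Mh.1
    have a1 : pMh L g ≤ 5 * L := by linarith [G.Mh.2, G.M.2]
    have b0 : 0 ≤ peb L := by linarith [H.eb.1]
    have b1 : peb L ≤ 2 := by linarith [H.eb.2]
    have c0 := G.X0.1
    have c1 := G.X0.2
    have e0 : 0 ≤ cc⁻¹ := inv_nonneg.2 cc_pos.le
    have e1 : cc⁻¹ ≤ 1 := inv_le_one_of_one_le₀ (by linarith [cc_gt])
    have f0 : 0 ≤ L := by linarith
    calc pMh L g * peb L * pX0 L g * cc⁻¹ ≤ 5 * L * 2 * (13 * sg L) * 1 := by gcongr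
      _ ≤ _ := by nlinarith
  · show _ ≤ pL0 L g
    unfold pL0
    linarith [H.nCp.2, H.k0.2, H.be.2, G.Vp.2]
  · show pL0 L g ≤ -(9 / 10 * pu0 g) + 1000 * (eta L * L) ^ 2
    unfold pL0
    linarith [H.nCp.1, H.k0.1, H.be.1, G.Vp.1]

theorem lg_pw_le (hL : 40 ≤ L) (hg : -(5 / 2) ≤ g) : pw L g ≤ 3 * Real.exp (-g) := by
  unfold pw
  have h1 : peA L ≤ 3 :=
    (Real.exp_le_exp.2 (side_eA (by linarith))).trans (by linarith [Real.exp_one_lt_d9])
  have h2 : Real.exp (-pBz L g) ≤ 1 :=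
    Real.exp_le_one_iff.2 (by
      have := side_Bz (L := L) (g := g) (by linarith) (by linarith)
      unfold pBz; linarith)
  have h3 : 0 < pu0 g := Real.exp_pos _
  calc pu0 g * peA L * Real.exp (-pBz L g) ≤ pu0 g * 3 * 1 := by gcongr
    _ = _ := by unfold pu0; ring

theorem lg_pw_ge (hL : 40 ≤ L) (hg : Real.log L ≤ g) (hg' : g ≤ Real.log L + 1) :
    1 / 100 / L ^ 2 ≤ pw L g * Real.exp (-g) := by
  have hL0 : 0 < L := by linarith
  have l0 : 0 ≤ Real.log L := Real.log_nonneg (by linarith)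
  have l1 : Real.log L ≤ L - 1 := Real.log_le_sub_one_of_pos hL0
  have H := lg_LS hL
  have G := lg_LG (L := L) (g := g) hL (by linarith) (by linarith)
  have d1 := lg_sL hL
  have u1 : pu0 g ≤ L⁻¹ := by
    unfold pu0
    rw [← Real.exp_log (inv_pos.2 hL0), Real.log_inv]
    exact Real.exp_le_exp.2 (by linarith)
  have u2 : L⁻¹ * Real.exp (-1) ≤ pu0 g := by
    unfold pu0
    rw [← Real.exp_log (inv_pos.2 hL0), Real.log_inv, ← Real.exp_add]
    exact Real.exp_le_exp.2 (by linarith)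
  have u0 : 0 < pu0 g := Real.exp_pos _
  have i1 : L⁻¹ ≤ 1 / 40 := inv_le_of_inv_le₀ (by norm_num) (by linarith)
  have hV : pV L g ≤ 21 / 10 := by
    unfold pV
    have h1 : pM L g ≤ 2 * L := by unfold pM; linarith
    calc pMh L g * pebu L g ≤ 101 / 100 * (2 * L) * (101 / 100 * L⁻¹) :=
          mul_le_mul (by linarith [G.Mh.2]) (by linarith [G.ebu.2]) (by linarith [G.ebu.1])
            (by linarith)
      _ = 101 / 100 * 2 * (101 / 100) := by field_simp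
      _ ≤ _ := by norm_num
  have hB : pBz L g ≤ 5 / 2 := by
    unfold pBz
    have h1 := abs_le.1 G.Rs
    have h2 : pu L g * (1 - pRs L g) ≤ 1 / 40 * 2 :=
      mul_le_mul (by linarith [G.u.2]) (by linarith) (by linarith) (by norm_num)
    linarith [G.ME.2]
  have hA : 1 ≤ peA L := Real.one_le_exp (by linarith [H.C.1, kk_pos L, be_pos L])
  have hE : Real.exp (-(5 / 2)) ≤ Real.exp (-pBz L g) := Real.exp_le_exp.2 (by linarith)
  have h9 : 1 / 100 ≤ Real.exp (-1) * Real.exp (-1) * Real.exp (-(5 / 2)) := by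
    rw [← Real.exp_add, ← Real.exp_add, show (-1 + -1 + -(5 / 2) : ℝ) = -(9 / 2) by norm_num,
      Real.exp_neg]
    apply le_inv_of_le_inv₀ (Real.exp_pos _)
    apply abs_le_of_sq_le_sq' _ (by norm_num) |>.2
    rw [← Real.exp_nat_mul, show ((2 : ℕ) : ℝ) * (9 / 2) = (9 : ℕ) * 1 by norm_num, Real.exp_nat_mul]
    have := Real.exp_one_lt_d9
    calc Real.exp 1 ^ 9 ≤ (2.7182818286 : ℝ) ^ 9 := by gcongr
      _ ≤ _ := by norm_num
  unfold pw
  change _ ≤ _ * pu0 g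
  calc 1 / 100 / L ^ 2 = L⁻¹ * L⁻¹ * (1 / 100) := by field_simp
    _ ≤ L⁻¹ * L⁻¹ * (Real.exp (-1) * Real.exp (-1) * Real.exp (-(5 / 2))) := by gcongr
    _ = L⁻¹ * Real.exp (-1) * 1 * Real.exp (-(5 / 2)) * (L⁻¹ * Real.exp (-1)) := by ring
    _ ≤ _ := by gcongr

theorem lg_int_le {f : ℝ → ℝ} (hf : Continuous f) {g₀ a g₁ K c : ℝ} (h0 : g₀ ≤ a)
    (h1 : a + 1 ≤ g₁) (hK : 0 ≤ K) (H1 : ∀ g ∈ Set.Icc g₀ g₁, f g ≤ K * Real.exp (-g))
    (H2 : ∀ g ∈ Set.Icc a (a + 1), f g ≤ K * Real.exp (-g) - c) :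
    ∫ g in g₀..g₁, f g ≤ K * Real.exp (-g₀) - c := by
  have hF : Continuous fun g : ℝ => K * Real.exp (-g) := by fun_prop
  have i1 : ∫ g in g₀..a, f g ≤ ∫ g in g₀..a, K * Real.exp (-g) :=
    intervalIntegral.integral_mono_on h0 (hf.intervalIntegrable _ _) (hF.intervalIntegrable _ _)
      fun g hg => H1 g ⟨hg.1, by linarith [hg.2]⟩
  have i2 : ∫ g in a..a + 1, f g ≤ ∫ g in a..a + 1, (K * Real.exp (-g) - c) :=
    intervalIntegral.integral_mono_on (by linarith) (hf.intervalIntegrable _ _)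
      ((hF.sub continuous_const).intervalIntegrable _ _) H2
  have i3 : ∫ g in a + 1..g₁, f g ≤ ∫ g in a + 1..g₁, K * Real.exp (-g) :=
    intervalIntegral.integral_mono_on h1 (hf.intervalIntegrable _ _) (hF.intervalIntegrable _ _)
      fun g hg => H1 g ⟨by linarith [hg.1], hg.2⟩
  rw [intervalIntegral.integral_sub (hF.intervalIntegrable _ _)
    (continuous_const.intervalIntegrable _ _)] at i2
  simp only [intervalIntegral.integral_const, add_sub_cancel_left, smul_eq_mul, one_mul] at i2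
  have e : ∀ x y : ℝ, ∫ g in x..y, K * Real.exp (-g) = K * (Real.exp (-x) - Real.exp (-y)) := by
    intro x y
    rw [intervalIntegral.integral_const_mul, intervalIntegral.integral_comp_neg (fun g => Real.exp g),
      integral_exp]
  rw [e] at i1 i2 i3
  rw [← intervalIntegral.integral_add_adjacent_intervals (b := a) (hf.intervalIntegrable _ _)
    (hf.intervalIntegrable _ _), ← intervalIntegral.integral_add_adjacent_intervals (a := a)
    (b := a + 1) (hf.intervalIntegrable _ _) (hf.intervalIntegrable _ _)]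
  have := mul_nonneg hK (Real.exp_pos (-g₁)).le
  linarith

end Pool.Agent.Lib.MP_6cad4c_al
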