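import Pool.Agent.Lib.MP_6cad4c_al.Cell
import Pool.Agent.Lib.MP_6cad4c_al.LargeB

namespace Pool.Agent.Lib.MP_6cad4c_al

/-- crude bounds for large `L`, with `T = η L` -/
structure LB (q : Pr) (T : ℝ) : Prop where
  et : 0 ≤ q.et ∧ q.et ≤ 1 * T
  etm : 0 ≤ q.uetm ∧ q.uetm ≤ 5 * T
  etmu : 0 ≤ q.uetmu ∧ q.uetmu ≤ 3 * T
  etV : 0 ≤ q.uetV ∧ q.uetV ≤ 60 * T
  t1n : 0 ≤ q.t1n ∧ q.t1n ≤ 150 * T
  t1pn : 0 ≤ q.t1pn ∧ q.t1pn ≤ 100 * T
  cdp : 0 ≤ q.ucdp ∧ q.ucdp ≤ 75 * T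
  cdm : 0 ≤ q.ucdm ∧ q.ucdm ≤ 75 * T
  cvp : 0 ≤ q.ucvp ∧ q.ucvp ≤ 61 * T
  cvm : 0 ≤ q.ucvm ∧ q.ucvm ≤ 61 * T
  Lp : 0 ≤ q.Lp ∧ q.Lp ≤ 1000 * T ^ 2
  u : 0 ≤ q.u ∧ q.u ≤ 13
  Up : 0 ≤ q.uUp ∧ q.uUp ≤ 1
  Mp : 0 ≤ q.Mp ∧ q.Mp ≤ 2
  ell : 0 ≤ q.ell ∧ q.ell ≤ 4
  rho1 : 0 ≤ q.rho1 ∧ q.rho1 ≤ 1
  rho2 : 0 ≤ q.rho2 ∧ q.rho2 ≤ 1
  rho3 : 0 ≤ q.rho3 ∧ q.rho3 ≤ 1
  S : 0 ≤ q.S ∧ q.S ≤ 6
  nSp : 0 ≤ q.nSp ∧ q.nSp ≤ 1
  Vpa : 0 ≤ q.uVpa ∧ q.uVpa ≤ 13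
  nCp : 0 ≤ q.nCp ∧ q.nCp ≤ 1
  C : 0 ≤ q.C ∧ q.C ≤ 1
  Lm : 0 ≤ q.Lm ∧ q.Lm ≤ 15
  ccp : 0 ≤ q.ccp ∧ q.ccp ≤ 2
  cap : 0 ≤ q.ucap ∧ q.ucap ≤ 13
  cam : 0 ≤ q.ucam ∧ q.ucam ≤ 13
  cb : 0 ≤ q.cb ∧ q.cb ≤ 1
  qa : 0 ≤ q.qa ∧ q.qa ≤ 1 / 10
  qg : q.qg ≤ 1 / 10

def eInf : EI where
  et := 55610587702272943
  etm := 278052938511364711
  etmu := 166831763106818827
  etV := 3336635262136376523
  t1n := 8341588155340941306
  t1pn := 5561058770227294204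
  cdp := 4170794077670470653
  cdm := 4170794077670470653
  cvp := 3392245849838649465
  cvm := 3392245849838649465
  Lp := 2558087034305
  u := 15716035654990179271180288
  Up := 1208925819614629174706176
  Mp := 2417851639229258349412352
  ell := 4835703278458516698824704
  rho1 := 1208925819614629174706176
  rho2 := 1208925819614629174706176
  rho3 := 1208925819614629174706176
  S := 7253554917687775048237056
  nSp := 1208925819614629174706176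
  Vpa := 15716035654990179271180288
  nCp := 1208925819614629174706176
  C := 1208925819614629174706176
  Lm := 18133887294219437620592640
  ccp := 2417851639229258349412352
  cap := 15716035654990179271180288
  cam := 15716035654990179271180288
  cb := 1208925819614629174706176
  qa := 1208925819614629174706176

theorem eInf_mom : Nat.ble ((tEtot eInf).mom (Nat.mul 2 ONE) (Nat.mul 2 ONE)) 17000000000000000 = true := by
  decide +kernel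

theorem lb_ok0 {v K ρ : ℝ} {c : ℕ} (h : 0 ≤ v ∧ v ≤ K) (hc : K * 2 ^ 80 ≤ c) :
    0 ≤ v ∧ v * 2 ^ 80 ≤ ρ ^ 0 * c :=
  ⟨h.1, by rw [pow_zero, one_mul]; exact le_trans (by gcongr; exact h.2) hc⟩

theorem lb_ok {v K T : ℝ} {c d : ℕ} (hT : 0 ≤ T) (h : 0 ≤ v ∧ v ≤ K * T ^ d)
    (hc : K * (46 / 10 ^ 9) ^ d * 2 ^ 80 ≤ c) :
    0 ≤ v ∧ v * 2 ^ 80 ≤ (T / (46 / 10 ^ 9)) ^ d * c := by
  refine ⟨h.1, ?_⟩
  calc v * 2 ^ 80 ≤ K * T ^ d * 2 ^ 80 := by gcongr; exact h.2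
    _ = (T / (46 / 10 ^ 9)) ^ d * (K * (46 / 10 ^ 9) ^ d * 2 ^ 80) := by
      rw [div_pow]; field_simp
    _ ≤ _ := by gcongr

theorem eInf_ok {q : Pr} {T : ℝ} (hT : 0 ≤ T) (hT' : T ≤ 46 / 10 ^ 9) (h : LB q T) :
    eInf.Ok (T / (46 / 10 ^ 9)) q where
  h0 := by positivity
  h1 := by rwa [div_le_one (by positivity)]
  et := lb_ok hT (by rw [pow_one]; exact h.et) (by norm_num [eInf])
  etm := lb_ok hT (by rw [pow_one]; exact h.etm) (by norm_num [eInf])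
  etmu := lb_ok hT (by rw [pow_one]; exact h.etmu) (by norm_num [eInf])
  etV := lb_ok hT (by rw [pow_one]; exact h.etV) (by norm_num [eInf])
  t1n := lb_ok hT (by rw [pow_one]; exact h.t1n) (by norm_num [eInf])
  t1pn := lb_ok hT (by rw [pow_one]; exact h.t1pn) (by norm_num [eInf])
  cdp := lb_ok hT (by rw [pow_one]; exact h.cdp) (by norm_num [eInf])
  cdm := lb_ok hT (by rw [pow_one]; exact h.cdm) (by norm_num [eInf])
  cvp := lb_ok hT (by rw [pow_one]; exact h.cvp) (by norm_num [eInf])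
  cvm := lb_ok hT (by rw [pow_one]; exact h.cvm) (by norm_num [eInf])
  Lp := lb_ok hT h.Lp (by norm_num [eInf])
  u := lb_ok0 h.u (by norm_num [eInf])
  Up := lb_ok0 h.Up (by norm_num [eInf])
  Mp := lb_ok0 h.Mp (by norm_num [eInf])
  ell := lb_ok0 h.ell (by norm_num [eInf])
  rho1 := lb_ok0 h.rho1 (by norm_num [eInf])
  rho2 := lb_ok0 h.rho2 (by norm_num [eInf])
  rho3 := lb_ok0 h.rho3 (by norm_num [eInf])
  S := lb_ok0 h.S (by norm_num [eInf])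
  nSp := lb_ok0 h.nSp (by norm_num [eInf])
  Vpa := lb_ok0 h.Vpa (by norm_num [eInf])
  nCp := lb_ok0 h.nCp (by norm_num [eInf])
  C := lb_ok0 h.C (by norm_num [eInf])
  Lm := lb_ok0 h.Lm (by norm_num [eInf])
  ccp := lb_ok0 h.ccp (by norm_num [eInf])
  cap := lb_ok0 h.cap (by norm_num [eInf])
  cam := lb_ok0 h.cam (by norm_num [eInf])
  cb := lb_ok0 h.cb (by norm_num [eInf])
  qa := lb_ok0 (K := 1) ⟨h.qa.1, by linarith [h.qa.2]⟩ (by norm_num [eInf])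

theorem DD_le_LB {L g B T : ℝ} (hL : 47 / 10 ≤ L) (hM : 287 / 100 ≤ L + g)
    (hB : 419 / 1000 ≤ eta L * B) (hB' : eta L * B ≤ 42 / 100) (hT : 0 ≤ T)
    (hT' : T ≤ 46 / 10 ^ 9) (h : LB (mkPr L g) T) :
    DD L B g ≤ pw L g * ((mkPr L g).main + ((mkPr L g).aerr + 7 * 10 ^ 6 * T ^ 2)) := by
  have ha := h.qa
  have hg := h.qg
  have hy : ∀ r : ℝ, r ≤ 1 / 2 → (1 - r)⁻¹ * 2 ^ 80 ≤ ((Nat.mul 2 ONE : ℕ) : ℝ) := by
    intro r hr
    have h1 : (1 - r)⁻¹ ≤ 2 := inv_le_of_inv_le₀ (by norm_num) (by linarith)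
    have h2 : ((Nat.mul 2 ONE : ℕ) : ℝ) = 2 * 2 ^ 80 := by norm_num [ONE]
    rw [h2]; gcongr
  have h1 := DD_le hL hM hB hB' (eInf_ok hT hT' h) (by linarith) (by linarith)
    (hy _ (by linarith)) (hy _ (by linarith))
  refine h1.trans (mul_le_mul_of_nonneg_left ?_ (pw_pos L g).le)
  have h2 : (((tEtot eInf).mom (Nat.mul 2 ONE) (Nat.mul 2 ONE) : ℕ) : ℝ) ≤ 17000000000000000 := by
    exact_mod_cast Nat.le_of_ble_eq_true eInf_mom
  have h3 : (T / (46 / 10 ^ 9)) ^ 2 * ((tEtot eInf).mom (Nat.mul 2 ONE) (Nat.mul 2 ONE) : ℕ) / 2 ^ 80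
      ≤ (T / (46 / 10 ^ 9)) ^ 2 * 17000000000000000 / 2 ^ 80 := by gcongr
  have h4 : (T / (46 / 10 ^ 9)) ^ 2 * 17000000000000000 / 2 ^ 80 ≤ 7 * 10 ^ 6 * T ^ 2 := by
    rw [show (T / (46 / 10 ^ 9)) ^ 2 * 17000000000000000 / 2 ^ 80 =
      17000000000000000 / 2 ^ 80 / (46 / 10 ^ 9) ^ 2 * T ^ 2 by ring]
    exact mul_le_mul_of_nonneg_right (by norm_num) (sq_nonneg T)
  linarith

theorem mkPr_LB {L g : ℝ} (hL : 40 ≤ L) (hg : -(5 / 2) ≤ g) (hg' : g ≤ 7 / 2 * L + 9) :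
    LB (mkPr L g) (eta L * L) := by
  have h := lg_PB hL hg hg'
  have hq := h.ok
  have hL0 : 0 ≤ L := by linarith
  exact
    { et := by
        have := h.et_mul (v := 1) (K := 1) ⟨zero_le_one, by linarith⟩
        rwa [mul_one] at this
      etm := h.et_mul ⟨by linarith [h.m0], h.m1⟩
      etmu := h.et_mul ⟨abs_nonneg _, by linarith [h.amu]⟩
      etV := h.et_mul ⟨hq.V, h.V⟩
      t1n := h.t1n
      t1pn := h.t1pn
      cdp := h.et_mul (lg_max h.acd)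
      cdm := h.et_mul (lg_max' h.acd)
      cvp := h.et_mul (lg_max h.acv)
      cvm := h.et_mul (lg_max' h.acv)
      Lp := ⟨le_max_right _ _, max_le (le_trans h.L01 (by
        have := h.u0p
        change _ + 1000 * (eta L * L) ^ 2 ≤ _
        linarith)) (by positivity)⟩
      u := ⟨hq.u, by linarith [h.u]⟩
      Up := ⟨abs_nonneg _, h.up.trans (by norm_num)⟩
      Mp := h.Mp
      ell := by
        have := h.Mp
        unfold Pr.ell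
        constructor <;> linarith [hq.be, h.be]
      rho1 := h.rho1
      rho2 := h.rho2
      rho3 := h.rho3
      S := ⟨hq.S, h.S⟩
      nSp := ⟨hq.nSp, h.nSp⟩
      Vpa := ⟨abs_nonneg _, abs_le.2 ⟨by linarith [h.Vp0], h.Vp1⟩⟩
      nCp := ⟨hq.nCp, h.nCp⟩
      C := ⟨hq.C, h.C⟩
      Lm := lg_max' h.aL0
      ccp := by
        unfold Pr.ccp
        constructor <;> linarith [hq.C, h.C, hq.nCp, h.nCp]
      cap := lg_max h.aca
      cam := lg_max' h.aca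
      cb := h.cb
      qa := h.qa
      qg := h.qg.2.trans (by norm_num) }

theorem main_le {L g : ℝ} (hL : 40 ≤ L) (hg : -(5 / 2) ≤ g) (hg' : g ≤ 7 / 2 * L + 9) :
    (mkPr L g).main + (mkPr L g).aerr ≤ -(9 / 10 * Real.exp (-g)) + 10 ^ 6 * (eta L * L) ^ 2 :=
  (lg_PB hL hg hg').main_le

theorem large {L g₀ g₁ B : ℝ} (hW : Win L g₀ g₁ (eta L * B)) (hL : 40 ≤ L) :
    ∫ g in g₀..g₁, DD L B g ≤ -(27 / 100 * sg L) := by
  have hL0 : 0 < L := by linarith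
  have hT0 : 0 ≤ eta L * L := mul_nonneg (eta_pos L).le hL0.le
  have l0 : 0 ≤ Real.log L := Real.log_nonneg (by linarith)
  have l1 : Real.log L ≤ L - 1 := Real.log_le_sub_one_of_pos hL0
  have hg0 : g₀ = -(5 / 2) := hW.h0'.resolve_left (by linarith [hW.h0''])
  have key : ∀ g, -(5 / 2) ≤ g → g ≤ 7 / 2 * L + 9 → DD L B g ≤
      24 * 10 ^ 6 * (eta L * L) ^ 2 * Real.exp (-g) - 9 / 10 * (pw L g * Real.exp (-g)) := by
    intro g hg hg'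
    have h1 := DD_le_LB hW.hL (by linarith) hW.hΦ hW.hΦ' hT0 (lg_T hL) (mkPr_LB hL hg hg')
    have h2 := main_le hL hg hg'
    have h3 : (mkPr L g).main + ((mkPr L g).aerr + 7 * 10 ^ 6 * (eta L * L) ^ 2) ≤
        -(9 / 10 * Real.exp (-g)) + 8 * 10 ^ 6 * (eta L * L) ^ 2 := by linarith
    have h4 := mul_le_mul_of_nonneg_left h3 (pw_pos L g).le
    have h5 := mul_le_mul_of_nonneg_right (lg_pw_le hL hg) (sq_nonneg (eta L * L))
    linarith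
  have h := lg_int_le (cont_DD L B) (g₀ := g₀) (a := Real.log L) (g₁ := g₁)
    (K := 24 * 10 ^ 6 * (eta L * L) ^ 2) (c := 9 / 10 * (1 / 100 / L ^ 2)) (by linarith)
    (by linarith [hW.h1]) (by positivity)
    (fun g hg => by
      have h1 := key g (by linarith [hg.1]) (by linarith [hg.2, hW.h1'])
      have h2 := mul_pos (pw_pos L g) (Real.exp_pos (-g))
      linarith)
    (fun g hg => by
      have h1 := key g (by linarith [hg.1]) (by linarith [hg.2])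
      have h2 := lg_pw_ge hL hg.1 hg.2
      linarith)
  refine h.trans ?_
  have h1 : Real.exp (-g₀) ≤ 61 / 5 := (lg_u0 hW.h0'').2
  have h2 : (eta L * L) ^ 2 ≤ 304 / 1000 * sg L * L ^ 2 := by
    rw [lg_T2]; exact mul_le_mul_of_nonneg_right (lg_ks L).2 (sq_nonneg L)
  have h3 : (eta L * L) ^ 2 * Real.exp (-g₀) ≤ 304 / 1000 * sg L * L ^ 2 * (61 / 5) :=
    mul_le_mul h2 h1 (Real.exp_pos _).le (by have := sg_pos L; positivity)
  have h4 : sg L * L ^ 2 ≤ 11 / 10 ^ 12 / L ^ 2 := by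
    rw [le_div_iff₀ (by positivity)]
    linarith [lg_sL4 hL]
  have h5 : sg L ≤ sg L * L ^ 2 := le_mul_of_one_le_right (sg_pos L).le (by nlinarith)
  have h6 : 0 < 1 / L ^ 2 := by positivity
  have e1 : (11 : ℝ) / 10 ^ 12 / L ^ 2 = 11 / 10 ^ 12 * (1 / L ^ 2) := by ring
  have e2 : (1 : ℝ) / 100 / L ^ 2 = 1 / 100 * (1 / L ^ 2) := by ring
  rw [e1] at h4
  rw [e2]
  linarith

end Pool.Agent.Lib.MP_6cad4c_al
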