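import Pool.Agent.Lib.MP_6cad4c_al.CertAll
import Pool.Agent.Lib.MP_6cad4c_al.Large
import Pool.Agent.Lib.MP_6cad4c_al.Deriv
import Pool.Agent.Lib.MP_6cad4c_al.Approx

namespace Pool.Agent.Lib.MP_6cad4c_al

theorem Ln_ge {n : ℕ} (hn : 20000 ≤ n) : 47028 / 10000 ≤ Ln n := by
  have h0 : (20000 : ℝ) ≤ n := by exact_mod_cast hn
  have h1 : Real.exp (94056 / 10000) ≤ 12157 := by
    have h3 : Real.exp (94056 / 10000) = Real.exp 1 ^ 9 * Real.exp (4056 / 10000) := by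
      rw [← Real.exp_nat_mul, ← Real.exp_add]; norm_num
    have h4 := Real.exp_one_lt_d9
    have h5 := Real.exp_bound' (x := 4056 / 10000) (by norm_num) (by norm_num) (n := 8) (by norm_num)
    simp only [Finset.sum_range_succ, Finset.sum_range_zero, Nat.factorial] at h5
    have h6 : Real.exp 1 ^ 9 ≤ (2.7182818286 : ℝ) ^ 9 := by gcongr
    have h7 : Real.exp (4056 / 10000) ≤ 1.50021 := by
      refine h5.trans ?_
      norm_num
    rw [h3]
    calc _ ≤ (2.7182818286 : ℝ) ^ 9 * 1.50021 := by gcongr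
      _ ≤ _ := by norm_num
  unfold Ln
  rw [le_div_iff₀ (by norm_num), Real.le_log_iff_exp_le (div_pos (by linarith) cc_pos),
    le_div_iff₀ cc_pos, show (47028 / 10000 * 2 : ℝ) = 94056 / 10000 by norm_num]
  nlinarith [cc_lt, cc_pos, Real.exp_pos (94056 / 10000)]

theorem Ln_diff {n : ℕ} (hn : 20000 ≤ n) :
    sg (Ln (n + 1)) ^ 2 / (2 * cc) ≤ Ln (n + 1) - Ln n ∧ Ln (n + 1) - Ln n ≤ 1 / 20000 := by
  have h0 : (20000 : ℝ) ≤ n := by exact_mod_cast hn
  have h1 := nu_eq (n := n + 1) (by linarith [Ln_ge (show 20000 ≤ n + 1 by omega)])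
  have hc := cc_pos
  have h2 : Ln (n + 1) - Ln n = Real.log (((n : ℝ) + 1 - 1 / 24) / (n - 1 / 24)) / 2 := by
    unfold Ln
    push_cast
    rw [Real.log_div (by linarith) hc.ne', Real.log_div (by linarith) hc.ne',
      Real.log_div (by linarith) (by linarith)]
    ring
  have h3 : sg (Ln (n + 1)) ^ 2 / (2 * cc) = 1 / ((n : ℝ) + 1 - 1 / 24) / 2 := by
    push_cast at h1
    rw [h1, show 2 * Ln (n + 1) = ((2 : ℕ) : ℝ) * Ln (n + 1) by norm_num, Real.exp_nat_mul,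
      exp_eq_inv_sg]
    have := sg_pos (Ln (n + 1))
    field_simp
  have hp : 0 < ((n : ℝ) + 1 - 1 / 24) / (n - 1 / 24) := div_pos (by linarith) (by linarith)
  rw [h2, h3]
  constructor
  · have h4 := Real.one_sub_inv_le_log_of_pos hp
    have h5 : 1 - (((n : ℝ) + 1 - 1 / 24) / (n - 1 / 24))⁻¹ = 1 / ((n : ℝ) + 1 - 1 / 24) := by
      have : (n : ℝ) + 1 - 1 / 24 ≠ 0 := by linarith
      rw [inv_div, eq_div_iff this, sub_mul, div_mul_cancel₀ _ this]; ring
    linarith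
  · have h4 := Real.log_le_sub_one_of_pos hp
    have h5 : ((n : ℝ) + 1 - 1 / 24) / (n - 1 / 24) - 1 ≤ 1 / 10000 := by
      rw [sub_le_iff_le_add, div_le_iff₀ (by linarith)]; linarith
    linarith

theorem win_of {L₁ L : ℝ} (h₁ : 47 / 10 ≤ L₁) (h₂ : L₁ ≤ L) (h₃ : L - L₁ ≤ 1 / 20000) :
    Win L (-min (L₁ - 29 / 10) (5 / 2)) (7 / 2 * L₁ + 9) (eta L * (42 / 100 / eta L₁)) := by
  have he : eta L * (42 / 100 / eta L₁) = 42 / 100 * Real.exp (-((L - L₁) / 2)) := by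
    have := eta_pos L₁
    have h4 : eta L = eta L₁ * Real.exp (-((L - L₁) / 2)) := by
      unfold eta
      rw [div_mul_eq_mul_div, ← Real.exp_add]; ring_nf
    rw [h4]; field_simp
  have h5 := Real.add_one_le_exp (-((L - L₁) / 2))
  have h6 : Real.exp (-((L - L₁) / 2)) ≤ 1 := Real.exp_le_one_iff.2 (by linarith)
  refine ⟨by linarith, by rw [he]; linarith, by rw [he]; linarith, ?_, ?_, ?_, by linarith,
    by linarith⟩
  · linarith [min_le_left (L₁ - 29 / 10) (5 / 2)]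
  · rcases le_total (L₁ - 29 / 10) (5 / 2) with h | h
    · left; rw [min_eq_left h]; linarith
    · right; rw [min_eq_right h]
  · linarith [min_le_right (L₁ - 29 / 10) (5 / 2)]

theorem deriv_le {L g₀ g₁ B : ℝ} (hW : Win L g₀ g₁ (eta L * B)) (hL : 47028 / 10000 ≤ L) :
    ∫ g in g₀..g₁, DD L B g ≤ -(27 / 100 * sg L) := by
  rcases le_total L 40 with h | h
  · exact strip_all L B g₀ g₁ hW (by push_cast; linarith) (by push_cast; linarith)
  · exact large hW h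

theorem zI_succ_le_of_large {n : ℕ} (hn : 20000 ≤ n) : zI (n + 1) ≤ zI n := by
  have h1 := Ln_ge hn
  obtain ⟨h2, h3⟩ := Ln_diff hn
  set L₁ := Ln n with hL₁
  set L₂ := Ln (n + 1) with hL₂
  have hs := sg_pos L₂
  have hc := cc_pos
  have h12 : L₁ ≤ L₂ := by
    have : 0 ≤ sg L₂ ^ 2 / (2 * cc) := by positivity
    linarith
  have hW : ∀ L ∈ Set.Icc L₁ L₂, Win L (-min (L₁ - 29 / 10) (5 / 2)) (7 / 2 * L₁ + 9)
      (eta L * (42 / 100 / eta L₁)) := fun L hL => win_of (by linarith) hL.1 (by linarith [hL.2])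
  have a1 := (approx (n := n) (hW L₁ ⟨le_rfl, h12⟩)).1
  have a2 := (approx (n := n + 1) (hW L₂ ⟨h12, le_rfl⟩)).2
  rw [zc_re] at a1 a2
  have a3 := triple_deriv hasDerivAt_Kr cont_Kr cont_dKr h12 (c := -(27 / 100 * sg L₂))
    (a := -min (L₁ - 29 / 10) (5 / 2)) (b := 7 / 2 * L₁ + 9) (B := 42 / 100 / eta L₁) (by
      intro L hL
      refine (deriv_le (hW L hL) (by linarith [hL.1])).trans ?_
      have : sg L₂ ≤ sg L := Real.exp_le_exp.2 (by linarith [hL.2])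
      linarith)
  have a4 : sg L₁ ≤ 10001 / 10000 * sg L₂ := by
    have h4 : sg L₂ = sg L₁ * Real.exp (-(L₂ - L₁)) := by
      unfold sg; rw [← Real.exp_add]; ring_nf
    have h5 := Real.add_one_le_exp (-(L₂ - L₁))
    have := sg_pos L₁
    rw [h4]; nlinarith
  have a5 : sg L₁ ^ 3 ≤ (10001 / 10000 * sg L₂) ^ 3 := by
    have := sg_pos L₁
    gcongr
  have a6 : 10000 / 32900 * sg L₂ ^ 2 ≤ sg L₂ ^ 2 / (2 * cc) := by
    rw [le_div_iff₀ (by positivity)]
    nlinarith [cc_lt, sq_nonneg (sg L₂)]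
  have a7 : 27 / 100 * sg L₂ * (10000 / 32900 * sg L₂ ^ 2) ≤ 27 / 100 * sg L₂ * (L₂ - L₁) := by
    gcongr; linarith
  have a8 := pow_pos hs 3
  unfold zh at a1 a2
  rw [← hL₁] at a1
  rw [← hL₂] at a2
  nlinarith

end Pool.Agent.Lib.MP_6cad4c_al
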