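import Pool.Agent.Lib.MP_6cad4c_al.IvDef

namespace Pool.Agent.Lib.MP_6cad4c_al

theorem iv_ONE : (ONE : ℝ) = 2 ^ 80 := by
  unfold ONE; norm_num

theorem iv_TWO : (TWO : ℝ) = 2 ^ 80 * 2 ^ 80 := by
  unfold TWO; norm_num

theorem iv_ONE_nat : ONE = 2 ^ 80 := by
  unfold ONE; norm_num

theorem iv_pos : (0 : ℝ) < 2 ^ 80 := by positivity

theorem iv_div_le (a b : ℕ) : ((Nat.div a b : ℕ) : ℝ) ≤ (a : ℝ) / b :=
  Nat.cast_div_le (m := a) (n := b)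

theorem iv_le_div (a b : ℕ) (hb : 0 < b) : (a : ℝ) / b ≤ ((Nat.div a b : ℕ) : ℝ) + 1 := by
  have hb' : (0 : ℝ) < b := Nat.cast_pos.mpr hb
  have h1 : a < b * (a / b + 1) := Nat.lt_mul_div_succ a hb
  have h2 : (a : ℝ) < (b : ℝ) * (((a / b : ℕ) : ℝ) + 1) := by exact_mod_cast h1
  rw [div_le_iff₀ hb']
  show (a : ℝ) ≤ (((a / b : ℕ) : ℝ) + 1) * b
  linarith [mul_comm (b : ℝ) (((a / b : ℕ) : ℝ) + 1)]

theorem iv_shr (a k : ℕ) : Nat.shiftRight a k = Nat.div a (2 ^ k) :=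
  Nat.shiftRight_eq_div_pow a k

theorem iv_shr_le (a k : ℕ) : ((Nat.shiftRight a k : ℕ) : ℝ) ≤ (a : ℝ) / 2 ^ k := by
  rw [iv_shr]
  have := iv_div_le a (2 ^ k)
  rwa [Nat.cast_pow, Nat.cast_ofNat] at this

theorem iv_le_shr (a k : ℕ) : (a : ℝ) / 2 ^ k ≤ ((Nat.shiftRight a k : ℕ) : ℝ) + 1 := by
  rw [iv_shr]
  have := iv_le_div a (2 ^ k) (Nat.pos_of_ne_zero (by positivity))
  rwa [Nat.cast_pow, Nat.cast_ofNat] at this

theorem iv_add (a b : ℕ) : ((Nat.add a b : ℕ) : ℝ) = a + b := Nat.cast_add a b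

theorem iv_mul (a b : ℕ) : ((Nat.mul a b : ℕ) : ℝ) = a * b := Nat.cast_mul a b

theorem iv_sub (a b : ℕ) : ((Nat.sub a b : ℕ) : ℝ) = max ((a : ℝ) - b) 0 := by
  show ((a - b : ℕ) : ℝ) = _
  rcases le_total a b with h | h
  · have h' : (a : ℝ) ≤ b := Nat.cast_le.mpr h
    rw [Nat.sub_eq_zero_of_le h, max_eq_right (by linarith), Nat.cast_zero]
  · have h' : (b : ℝ) ≤ a := Nat.cast_le.mpr h
    rw [Nat.cast_sub h, max_eq_left (by linarith)]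

theorem iv_nmax (a b : ℕ) : ((nmax a b : ℕ) : ℝ) = max (a : ℝ) b := by
  unfold nmax
  rw [iv_add, iv_sub]
  rcases le_total (a : ℝ) b with h | h
  · rw [max_eq_left (by linarith), max_eq_right h]; ring
  · rw [max_eq_right (by linarith), max_eq_left h]; ring

theorem iv_nmin (a b : ℕ) : ((nmin a b : ℕ) : ℝ) = min (a : ℝ) b := by
  unfold nmin
  rw [iv_sub, iv_sub]
  have ha : (0 : ℝ) ≤ a := Nat.cast_nonneg a
  have hb : (0 : ℝ) ≤ b := Nat.cast_nonneg b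
  rcases le_total (a : ℝ) b with h | h
  · rw [max_eq_right (show (a : ℝ) - b ≤ 0 by linarith), min_eq_left h, sub_zero, max_eq_left ha]
  · rw [max_eq_left (show (0 : ℝ) ≤ a - b by linarith), min_eq_right h,
      max_eq_left (by linarith)]
    ring

theorem iv_mlo_le {x y : ℝ} {a b : ℕ} (ha : (a : ℝ) ≤ x * 2 ^ 80) (hb : (b : ℝ) ≤ y * 2 ^ 80) :
    (mlo a b : ℝ) ≤ x * y * 2 ^ 80 := by
  unfold mlo
  refine (iv_shr_le _ _).trans ?_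
  rw [iv_mul, div_le_iff₀ iv_pos]
  have ha0 : (0 : ℝ) ≤ a := Nat.cast_nonneg a
  have hb0 : (0 : ℝ) ≤ b := Nat.cast_nonneg b
  have h := mul_le_mul ha hb hb0 (ha0.trans ha)
  generalize (2 : ℝ) ^ 80 = P at *
  calc (a : ℝ) * b ≤ x * P * (y * P) := h
    _ = x * y * P * P := by ring

theorem iv_mhi_ge {x y : ℝ} {a b : ℕ} (hy : 0 ≤ y) (ha : x * 2 ^ 80 ≤ a)
    (hb : y * 2 ^ 80 ≤ b) : x * y * 2 ^ 80 ≤ (mhi a b : ℝ) := by
  unfold mhi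
  rw [iv_add, Nat.cast_one]
  refine le_trans ?_ (iv_le_shr _ _)
  rw [iv_mul, le_div_iff₀ iv_pos]
  have ha0 : (0 : ℝ) ≤ a := Nat.cast_nonneg a
  have h := mul_le_mul ha hb (mul_nonneg hy iv_pos.le) ha0
  generalize (2 : ℝ) ^ 80 = P at *
  calc x * y * P * P = x * P * (y * P) := by ring
    _ ≤ (a : ℝ) * b := h

theorem iv_hornLo {y R : ℝ} {y₀ r : ℕ} (j : ℕ) (hy : (y₀ : ℝ) ≤ y * 2 ^ 80)
    (hr : (r : ℝ) ≤ R * 2 ^ 80) : (hornLo y₀ j r : ℝ) ≤ (1 + y * R / j) * 2 ^ 80 := by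
  unfold hornLo
  rw [iv_add, iv_ONE]
  have h1 := iv_div_le (mlo y₀ r) j
  have h2 := iv_mlo_le hy hr
  have h3 : (mlo y₀ r : ℝ) / j ≤ y * R * 2 ^ 80 / j :=
    div_le_div_of_nonneg_right h2 (Nat.cast_nonneg j)
  generalize (2 : ℝ) ^ 80 = P at *
  have h4 : (1 + y * R / j) * P = P + y * R * P / j := by ring
  linarith

theorem iv_hornHi {y R : ℝ} {y₀ r : ℕ} (j : ℕ) (hj : 0 < j) (hR : 0 ≤ R)
    (hy : y * 2 ^ 80 ≤ y₀) (hr : R * 2 ^ 80 ≤ r) :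
    (1 + y * R / j) * 2 ^ 80 ≤ (hornHi y₀ j r : ℝ) := by
  unfold hornHi
  rw [iv_add, iv_add, iv_ONE, Nat.cast_one]
  have h1 := iv_le_div (mhi y₀ r) j hj
  have h2 := iv_mhi_ge hR hy hr
  have h3 : y * R * 2 ^ 80 / j ≤ (mhi y₀ r : ℝ) / j :=
    div_le_div_of_nonneg_right h2 (Nat.cast_nonneg j)
  generalize (2 : ℝ) ^ 80 = P at *
  have h4 : (1 + y * R / j) * P = P + y * R * P / j := by ring
  linarith

theorem iv_tayLo {y : ℝ} {y₀ : ℕ} (hy : (y₀ : ℝ) ≤ y * 2 ^ 80) :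
    (tayLo y₀ : ℝ) ≤ Real.exp y * 2 ^ 80 := by
  have hy0 : 0 ≤ y := by
    by_contra h
    have h1 : y * 2 ^ 80 < 0 := mul_neg_of_neg_of_pos (lt_of_not_ge h) iv_pos
    have h2 : (0 : ℝ) ≤ y₀ := Nat.cast_nonneg _
    linarith
  have h5 : ((Nat.add ONE (Nat.div y₀ 5) : ℕ) : ℝ) ≤ (1 + y / 5) * 2 ^ 80 := by
    rw [iv_add, iv_ONE]
    have h1 := iv_div_le y₀ 5
    rw [Nat.cast_ofNat] at h1
    generalize (2 : ℝ) ^ 80 = P at *
    have h4 : (1 + y / 5) * P = P + y * P / 5 := by ring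
    linarith
  have h := iv_hornLo 1 hy (iv_hornLo 2 hy (iv_hornLo 3 hy (iv_hornLo 4 hy h5)))
  unfold tayLo
  refine h.trans (mul_le_mul_of_nonneg_right ?_ iv_pos.le)
  refine le_trans (le_of_eq ?_) (Real.sum_le_exp_of_nonneg hy0 6)
  simp only [Finset.sum_range_succ, Finset.sum_range_zero, Nat.factorial]
  push_cast
  ring

theorem iv_tayHi {y : ℝ} {y₀ : ℕ} (h0 : 0 ≤ y) (h1 : y ≤ 1) (hy : y * 2 ^ 80 ≤ y₀) :
    Real.exp y * 2 ^ 80 ≤ (tayHi y₀ : ℝ) := by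
  have h5 : (1 + y / 4) * 2 ^ 80 ≤ ((Nat.add (Nat.add ONE (Nat.div y₀ 4)) 1 : ℕ) : ℝ) := by
    rw [iv_add, iv_add, iv_ONE, Nat.cast_one]
    have h1 := iv_le_div y₀ 4 (by norm_num)
    rw [Nat.cast_ofNat] at h1
    generalize (2 : ℝ) ^ 80 = P at *
    have h4 : (1 + y / 4) * P = P + y * P / 4 := by ring
    linarith
  have h := iv_hornHi 1 (by norm_num) (by positivity) hy
    (iv_hornHi 2 (by norm_num) (by positivity) hy
      (iv_hornHi 3 (by norm_num) (by positivity) hy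
        (iv_hornHi 4 (by norm_num) (by positivity) hy h5)))
  unfold tayHi
  refine le_trans (mul_le_mul_of_nonneg_right ?_ iv_pos.le) h
  refine (Real.exp_bound' h0 h1 (n := 5) (by norm_num)).trans ?_
  simp only [Finset.sum_range_succ, Finset.sum_range_zero, Nat.factorial]
  push_cast
  have h6 : 0 ≤ y ^ 5 := by positivity
  nlinarith [h6]

theorem iv_sqLo {y : ℝ} {r : ℕ} (h : (r : ℝ) ≤ Real.exp y * 2 ^ 80) :
    (sqLo r : ℝ) ≤ Real.exp (2 * y) * 2 ^ 80 := by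
  have h1 := iv_mlo_le h h
  rw [← Real.exp_add, ← two_mul] at h1
  exact h1

theorem iv_sqHi {y : ℝ} {r : ℕ} (h : Real.exp y * 2 ^ 80 ≤ r) :
    Real.exp (2 * y) * 2 ^ 80 ≤ (sqHi r : ℝ) := by
  have h1 := iv_mhi_ge (Real.exp_pos y).le h h
  rw [← Real.exp_add, ← two_mul] at h1
  exact h1

theorem le_expLo {x : ℝ} {a : ℕ} (h : (a : ℝ) ≤ x * 2 ^ 80) :
    (expLo a : ℝ) ≤ Real.exp x * 2 ^ 80 := by
  have h0 : ((Nat.shiftRight a 12 : ℕ) : ℝ) ≤ x / 2 ^ 12 * 2 ^ 80 := by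
    refine (iv_shr_le a 12).trans ?_
    have h2 : (a : ℝ) / 2 ^ 12 ≤ x * 2 ^ 80 / 2 ^ 12 :=
      div_le_div_of_nonneg_right h (by positivity)
    generalize (2 : ℝ) ^ 80 = P at *
    calc (a : ℝ) / 2 ^ 12 ≤ x * P / 2 ^ 12 := h2
      _ = x / 2 ^ 12 * P := by ring
  have h1 := iv_sqLo (iv_sqLo (iv_sqLo (iv_sqLo (iv_sqLo (iv_sqLo (iv_sqLo (iv_sqLo (iv_sqLo
    (iv_sqLo (iv_sqLo (iv_sqLo (iv_tayLo h0))))))))))))
  have h2 : 2 * (2 * (2 * (2 * (2 * (2 * (2 * (2 * (2 * (2 * (2 * (2 * (x / 2 ^ 12))))))))))))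
      = x := by ring
  rw [h2] at h1
  exact h1

theorem expHi_ge {x : ℝ} {a : ℕ} (h : x * 2 ^ 80 ≤ a) (ha : a ≤ 1000 * ONE) :
    Real.exp x * 2 ^ 80 ≤ (expHi a : ℝ) := by
  obtain ⟨z, hz⟩ : ∃ z : ℝ, z * 2 ^ 80 = a := ⟨a / 2 ^ 80, div_mul_cancel₀ _ iv_pos.ne'⟩
  have hxz : x ≤ z := le_of_mul_le_mul_right (h.trans hz.ge) iv_pos
  have hz0 : 0 ≤ z := by
    have h1 : (0 : ℝ) * 2 ^ 80 ≤ z * 2 ^ 80 := by
      rw [zero_mul, hz]; exact Nat.cast_nonneg a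
    exact le_of_mul_le_mul_right h1 iv_pos
  have hz1 : z ≤ 1000 := by
    have h1 : (a : ℝ) ≤ ((1000 * ONE : ℕ) : ℝ) := Nat.cast_le.mpr ha
    rw [Nat.cast_mul, iv_ONE, Nat.cast_ofNat, ← hz] at h1
    exact le_of_mul_le_mul_right h1 iv_pos
  have h0 : z / 2 ^ 12 * 2 ^ 80 ≤ ((Nat.add (Nat.shiftRight a 12) 1 : ℕ) : ℝ) := by
    rw [iv_add, Nat.cast_one]
    refine le_trans (le_of_eq ?_) (iv_le_shr a 12)
    rw [← hz]
    generalize (2 : ℝ) ^ 80 = P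
    ring
  have hy1 : z / 2 ^ 12 ≤ 1 := by
    rw [div_le_one (by positivity)]
    linarith [show (1000 : ℝ) ≤ 2 ^ 12 by norm_num]
  have h1 := iv_sqHi (iv_sqHi (iv_sqHi (iv_sqHi (iv_sqHi (iv_sqHi (iv_sqHi (iv_sqHi (iv_sqHi
    (iv_sqHi (iv_sqHi (iv_sqHi (iv_tayHi (by positivity) hy1 h0))))))))))))
  have h2 : 2 * (2 * (2 * (2 * (2 * (2 * (2 * (2 * (2 * (2 * (2 * (2 * (z / 2 ^ 12))))))))))))
      = z := by ring
  rw [h2] at h1
  exact le_trans (mul_le_mul_of_nonneg_right (Real.exp_le_exp.mpr hxz) iv_pos.le) h1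

theorem iv_sqLo_ge {r : ℕ} (h : ONE ≤ r) : ONE ≤ sqLo r := by
  unfold sqLo mlo
  rw [iv_shr, ← iv_ONE_nat]
  have hp : 0 < ONE := by rw [iv_ONE_nat]; positivity
  show ONE ≤ r * r / ONE
  rw [Nat.le_div_iff_mul_le hp]
  exact Nat.mul_le_mul h h

theorem iv_expLo_ge (a : ℕ) : ONE ≤ expLo a := by
  have h : ONE ≤ tayLo (Nat.shiftRight a 12) := by
    unfold tayLo
    exact Nat.le_add_right _ _
  exact iv_sqLo_ge (iv_sqLo_ge (iv_sqLo_ge (iv_sqLo_ge (iv_sqLo_ge (iv_sqLo_ge (iv_sqLo_ge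
    (iv_sqLo_ge (iv_sqLo_ge (iv_sqLo_ge (iv_sqLo_ge (iv_sqLo_ge h)))))))))))

theorem iv_inv_lo {x : ℝ} {a : ℕ} (hx : 0 < x) (h : x * 2 ^ 80 ≤ a) :
    ((Nat.div TWO a : ℕ) : ℝ) ≤ x⁻¹ * 2 ^ 80 := by
  refine (iv_div_le _ _).trans ?_
  have hp : 0 < x * 2 ^ 80 := mul_pos hx iv_pos
  rw [iv_TWO]
  have h1 : (2 : ℝ) ^ 80 * 2 ^ 80 / a ≤ 2 ^ 80 * 2 ^ 80 / (x * 2 ^ 80) :=
    div_le_div_of_nonneg_left (mul_pos iv_pos iv_pos).le hp h
  refine h1.trans (le_of_eq ?_)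
  have hP := iv_pos.ne'
  generalize (2 : ℝ) ^ 80 = P at *
  field_simp

theorem iv_inv_hi {x : ℝ} {a : ℕ} (ha : 0 < a) (h : (a : ℝ) ≤ x * 2 ^ 80) :
    x⁻¹ * 2 ^ 80 ≤ ((Nat.add (Nat.div TWO a) 1 : ℕ) : ℝ) := by
  rw [iv_add, Nat.cast_one]
  refine le_trans ?_ (iv_le_div _ _ ha)
  have ha' : (0 : ℝ) < a := Nat.cast_pos.mpr ha
  have hx : 0 < x := by
    have h1 : (0 : ℝ) * 2 ^ 80 < x * 2 ^ 80 := by
      rw [zero_mul]; exact ha'.trans_le h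
    exact lt_of_mul_lt_mul_right h1 iv_pos.le
  rw [iv_TWO]
  have h1 : (2 : ℝ) ^ 80 * 2 ^ 80 / (x * 2 ^ 80) ≤ 2 ^ 80 * 2 ^ 80 / a :=
    div_le_div_of_nonneg_left (mul_pos iv_pos iv_pos).le ha' h
  refine le_trans (le_of_eq ?_) h1
  have hP := iv_pos.ne'
  generalize (2 : ℝ) ^ 80 = P at *
  field_simp

theorem geoHi_ge {q : ℝ} {a : ℕ} (h : q * 2 ^ 80 ≤ a) (ha : a < ONE) :
    q < 1 ∧ (1 - q)⁻¹ * 2 ^ 80 ≤ (geoHi a : ℝ) := by
  have ha' : (a : ℝ) < 2 ^ 80 := by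
    rw [← iv_ONE]; exact Nat.cast_lt.mpr ha
  refine ⟨?_, ?_⟩
  · have h1 : q * 2 ^ 80 < 1 * 2 ^ 80 := by rw [one_mul]; exact h.trans_lt ha'
    exact lt_of_mul_lt_mul_right h1 iv_pos.le
  · unfold geoHi
    refine iv_inv_hi (Nat.sub_pos_of_lt ha) ?_
    rw [iv_sub, iv_ONE, max_eq_left (by linarith)]
    generalize (2 : ℝ) ^ 80 = P at *
    linarith [show (1 - q) * P = P - q * P by ring]

theorem iv_newton_pos (n g : ℕ) : 0 < newton n g := Nat.succ_pos _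

theorem iv_newton (n g : ℕ) (hg : 0 < g) : Real.sqrt n ≤ (newton n g : ℝ) := by
  have hg' : (0 : ℝ) < g := Nat.cast_pos.mpr hg
  have h1 := iv_le_div n g hg
  have h2 : Nat.add g (Nat.div n g) + 1 ≤ 2 * newton n g := by
    unfold newton
    rw [iv_shr]
    show (g + n / g) + 1 ≤ 2 * ((g + n / g) / 2 ^ 1 + 1)
    omega
  have h3 : ((Nat.add g (Nat.div n g) + 1 : ℕ) : ℝ) ≤ ((2 * newton n g : ℕ) : ℝ) :=
    Nat.cast_le.mpr h2
  rw [Nat.cast_add, iv_add, Nat.cast_mul, Nat.cast_one, Nat.cast_ofNat] at h3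
  have h4 : 2 * Real.sqrt n ≤ g + (n : ℝ) / g := by
    have h5 : Real.sqrt n * Real.sqrt n = n := Real.mul_self_sqrt (Nat.cast_nonneg n)
    have h6 : (g : ℝ) + (n : ℝ) / g = (g * g + n) / g := by field_simp
    rw [h6, le_div_iff₀ hg']
    nlinarith [sq_nonneg (Real.sqrt n - g)]
  linarith

theorem iv_sqrtHi {x : ℝ} {a : ℕ} (h : x * 2 ^ 80 ≤ a) :
    Real.sqrt x * 2 ^ 80 ≤ (sqrtHi a : ℝ) := by
  unfold sqrtHi sqrtN
  refine le_trans ?_ (iv_newton _ _ (iv_newton_pos _ _))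
  have h1 : ((Nat.shiftLeft a 80 : ℕ) : ℝ) = a * 2 ^ 80 := by
    have h2 : Nat.shiftLeft a 80 = a * 2 ^ 80 := Nat.shiftLeft_eq a 80
    rw [h2, Nat.cast_mul, Nat.cast_pow, Nat.cast_ofNat]
  rw [h1]
  have hP := iv_pos
  generalize (2 : ℝ) ^ 80 = P at *
  have h3 : Real.sqrt x * P = Real.sqrt (x * P * P) := by
    rw [mul_assoc, Real.sqrt_mul' _ (mul_self_nonneg P), Real.sqrt_mul_self hP.le]
  rw [h3]
  exact Real.sqrt_le_sqrt (mul_le_mul_of_nonneg_right h hP.le)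

namespace PI

variable {x y : ℝ} {a b : PI}

theorem Mem.nonneg (h : Mem x a) : 0 ≤ x := by
  have h1 : (0 : ℝ) * 2 ^ 80 ≤ x * 2 ^ 80 := by
    rw [zero_mul]; exact (Nat.cast_nonneg _).trans h.1
  exact le_of_mul_le_mul_right h1 iv_pos

theorem rat_mem (n d : ℕ) (hd : 0 < d) : Mem ((n : ℝ) / d) (rat n d) := by
  have h1 : ((Nat.shiftLeft n 80 : ℕ) : ℝ) = n * 2 ^ 80 := by
    have h2 : Nat.shiftLeft n 80 = n * 2 ^ 80 := Nat.shiftLeft_eq n 80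
    rw [h2, Nat.cast_mul, Nat.cast_pow, Nat.cast_ofNat]
  have h2 : (n : ℝ) / d * 2 ^ 80 = ((Nat.shiftLeft n 80 : ℕ) : ℝ) / d := by
    rw [h1, div_mul_eq_mul_div]
  refine ⟨?_, ?_⟩
  · rw [h2]; exact iv_div_le _ _
  · rw [h2]
    show _ ≤ ((Nat.add (Nat.div (Nat.shiftLeft n 80) d) 1 : ℕ) : ℝ)
    rw [iv_add, Nat.cast_one]
    exact iv_le_div _ _ hd

theorem add_mem (hx : Mem x a) (hy : Mem y b) : Mem (x + y) (a.add b) := by
  refine ⟨?_, ?_⟩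
  · show ((Nat.add a.lo b.lo : ℕ) : ℝ) ≤ _
    rw [iv_add, add_mul]
    exact add_le_add hx.1 hy.1
  · show _ ≤ ((Nat.add a.hi b.hi : ℕ) : ℝ)
    rw [iv_add, add_mul]
    exact add_le_add hx.2 hy.2

theorem mul_mem (hx : Mem x a) (hy : Mem y b) : Mem (x * y) (a.mul b) :=
  ⟨iv_mlo_le hx.1 hy.1, iv_mhi_ge hy.nonneg hx.2 hy.2⟩

theorem sub_mem (hx : Mem x a) (hy : Mem y b) : Mem (Max.max (x - y) 0) (a.sub b) := by
  have e : Max.max (x - y) 0 * 2 ^ 80 = Max.max (x * 2 ^ 80 - y * 2 ^ 80) 0 := by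
    rw [max_mul_of_nonneg _ _ iv_pos.le, zero_mul, sub_mul]
  refine ⟨?_, ?_⟩
  · show ((Nat.sub a.lo b.hi : ℕ) : ℝ) ≤ _
    rw [iv_sub, e]
    exact max_le_max (sub_le_sub hx.1 hy.2) le_rfl
  · show _ ≤ ((Nat.sub a.hi b.lo : ℕ) : ℝ)
    rw [iv_sub, e]
    exact max_le_max (sub_le_sub hx.2 hy.1) le_rfl

theorem max_mem (hx : Mem x a) (hy : Mem y b) : Mem (Max.max x y) (a.max b) := by
  refine ⟨?_, ?_⟩
  · show ((nmax a.lo b.lo : ℕ) : ℝ) ≤ _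
    rw [iv_nmax, max_mul_of_nonneg _ _ iv_pos.le]
    exact max_le_max hx.1 hy.1
  · show _ ≤ ((nmax a.hi b.hi : ℕ) : ℝ)
    rw [iv_nmax, max_mul_of_nonneg _ _ iv_pos.le]
    exact max_le_max hx.2 hy.2

theorem hull_mem {z : ℝ} (hx : Mem x a) (hy : Mem y b) (h : x ≤ z ∧ z ≤ y) :
    Mem z (a.hull b) :=
  ⟨hx.1.trans (mul_le_mul_of_nonneg_right h.1 iv_pos.le),
    (mul_le_mul_of_nonneg_right h.2 iv_pos.le).trans hy.2⟩

theorem inv1_mem (hx : Mem x a) (h : 1 ≤ x) : Mem x⁻¹ a.inv1 := by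
  have h1 : (2 : ℝ) ^ 80 ≤ x * 2 ^ 80 := le_mul_of_one_le_left iv_pos.le h
  refine ⟨iv_inv_lo (zero_lt_one.trans_le h) hx.2, iv_inv_hi ?_ ?_⟩
  · have h2 : (0 : ℝ) < (nmax a.lo ONE : ℝ) := by
      rw [iv_nmax, iv_ONE]
      exact iv_pos.trans_le (le_max_right _ _)
    exact Nat.cast_pos.mp h2
  · rw [iv_nmax, iv_ONE]
    exact max_le hx.1 h1

theorem nexp_mem (hx : Mem x a) : Mem (Real.exp (-x)) a.nexp := by
  rw [Real.exp_neg]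
  refine ⟨?_, ?_⟩
  · show ((nexpLo a.hi : ℕ) : ℝ) ≤ _
    unfold nexpLo
    cases hb : Nat.ble a.hi (Nat.mul 1000 ONE) with
    | false =>
      rw [cond_false, Nat.cast_zero]
      exact mul_nonneg (inv_nonneg.mpr (Real.exp_pos x).le) iv_pos.le
    | true =>
      rw [cond_true]
      exact iv_inv_lo (Real.exp_pos x) (expHi_ge hx.2 (Nat.le_of_ble_eq_true hb))
  · refine iv_inv_hi ?_ (le_expLo hx.1)
    have hp : 0 < ONE := by rw [iv_ONE_nat]; positivity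
    exact hp.trans_le (iv_expLo_ge _)

theorem expS_mem (hx : Mem x a) (h : x ≤ 1) : Mem (Real.exp x) a.expS := by
  refine ⟨le_expLo hx.1, expHi_ge ?_ ?_⟩
  · rw [iv_nmin, iv_ONE]
    exact le_min hx.2 (mul_le_of_le_one_left iv_pos.le h)
  · have h2 : (nmin a.hi ONE : ℝ) ≤ (ONE : ℝ) := by
      rw [iv_nmin]; exact min_le_right _ _
    exact (Nat.cast_le.mp h2).trans (Nat.le_mul_of_pos_left _ (by norm_num))

theorem sqrt_mem (hx : Mem x a) : Mem (Real.sqrt x) a.sqrt := by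
  refine ⟨?_, iv_sqrtHi hx.2⟩
  show ((0 : ℕ) : ℝ) ≤ _
  rw [Nat.cast_zero]
  exact mul_nonneg (Real.sqrt_nonneg x) iv_pos.le

end PI

namespace SI

variable {x y : ℝ} {a b : SI} {c d : PI}

theorem dif_mem (hx : PI.Mem x c) (hy : PI.Mem y d) : Mem (x - y) (dif c d) := by
  refine ⟨_, _, ?_, PI.sub_mem hx hy, PI.sub_mem hy hx⟩
  rcases le_total x y with h | h
  · rw [max_eq_right (sub_nonpos.mpr h), max_eq_left (sub_nonneg.mpr h)]; ring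
  · rw [max_eq_left (sub_nonneg.mpr h), max_eq_right (sub_nonpos.mpr h)]; ring

theorem add_mem (hx : Mem x a) (hy : Mem y b) : Mem (x + y) (a.add b) := by
  obtain ⟨p, q, rfl, hp, hq⟩ := hx
  obtain ⟨r, s, rfl, hr, hs⟩ := hy
  rw [show p - q + (r - s) = p + r - (q + s) by ring]
  exact dif_mem (PI.add_mem hp hr) (PI.add_mem hq hs)

theorem sub_mem (hx : Mem x a) (hy : Mem y b) : Mem (x - y) (a.sub b) := by
  obtain ⟨p, q, rfl, hp, hq⟩ := hx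
  obtain ⟨r, s, rfl, hr, hs⟩ := hy
  rw [show p - q - (r - s) = p + s - (q + r) by ring]
  exact dif_mem (PI.add_mem hp hs) (PI.add_mem hq hr)

theorem addP_mem (hx : Mem x a) (hy : PI.Mem y c) : Mem (x + y) (a.addP c) := by
  obtain ⟨p, q, rfl, hp, hq⟩ := hx
  rw [show p - q + y = p + y - q by ring]
  exact dif_mem (PI.add_mem hp hy) hq

theorem subP_mem (hx : Mem x a) (hy : PI.Mem y c) : Mem (x - y) (a.subP c) := by
  obtain ⟨p, q, rfl, hp, hq⟩ := hx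
  rw [show p - q - y = p - (q + y) by ring]
  exact dif_mem hp (PI.add_mem hq hy)

theorem Padd_mem (hx : PI.Mem x c) (hy : Mem y a) : Mem (x + y) (Padd c a) := by
  obtain ⟨p, q, rfl, hp, hq⟩ := hy
  rw [show x + (p - q) = p + x - q by ring]
  exact dif_mem (PI.add_mem hp hx) hq

theorem Psub_mem (hx : PI.Mem x c) (hy : Mem y a) : Mem (x - y) (Psub c a) := by
  obtain ⟨p, q, rfl, hp, hq⟩ := hy
  rw [show x - (p - q) = q + x - p by ring]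
  exact dif_mem (PI.add_mem hq hx) hp

theorem neg_mem (hx : Mem x a) : Mem (-x) a.neg := by
  obtain ⟨p, q, rfl, hp, hq⟩ := hx
  exact ⟨q, p, by ring, hq, hp⟩

theorem mul_mem (hx : Mem x a) (hy : Mem y b) : Mem (x * y) (a.mul b) := by
  obtain ⟨p, q, rfl, hp, hq⟩ := hx
  obtain ⟨r, s, rfl, hr, hs⟩ := hy
  rw [show (p - q) * (r - s) = p * r + q * s - (p * s + q * r) by ring]
  exact dif_mem (PI.add_mem (PI.mul_mem hp hr) (PI.mul_mem hq hs))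
    (PI.add_mem (PI.mul_mem hp hs) (PI.mul_mem hq hr))

theorem smul_mem (hx : PI.Mem x c) (hy : Mem y a) : Mem (x * y) (smul c a) := by
  obtain ⟨p, q, rfl, hp, hq⟩ := hy
  exact ⟨x * p, x * q, by ring, PI.mul_mem hx hp, PI.mul_mem hx hq⟩

theorem pos_mem (hx : Mem x a) : PI.Mem (max x 0) a.pos := by
  obtain ⟨p, q, rfl, hp, hq⟩ := hx
  exact PI.sub_mem hp hq

theorem toP_mem (hx : Mem x a) (h : 0 ≤ x) : PI.Mem x a.pos := by
  have h1 := pos_mem hx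
  rwa [max_eq_left h] at h1

theorem ngp_mem (hx : Mem x a) : PI.Mem (max (-x) 0) a.ngp := by
  obtain ⟨p, q, rfl, hp, hq⟩ := hx
  rw [neg_sub]
  exact PI.sub_mem hq hp

theorem abs_mem (hx : Mem x a) : PI.Mem |x| a.abs := by
  have h1 := PI.max_mem (pos_mem hx) (ngp_mem hx)
  have h2 : max (max x 0) (max (-x) 0) = |x| := by
    rcases le_total 0 x with h | h
    · rw [max_eq_left h, max_eq_right (neg_nonpos.mpr h), max_eq_left h, abs_of_nonneg h]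
    · rw [max_eq_right h, max_eq_left (neg_nonneg.mpr h), max_eq_right (neg_nonneg.mpr h),
        abs_of_nonpos h]
  rw [h2] at h1
  exact h1

theorem Mem.le (hx : Mem x a) : x * 2 ^ 80 ≤ (a.p.hi : ℝ) - a.n.lo := by
  obtain ⟨p, q, rfl, hp, hq⟩ := hx
  rw [sub_mul]
  exact sub_le_sub hp.2 hq.1

end SI

end Pool.Agent.Lib.MP_6cad4c_al
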