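import Mathlib

namespace Pool.Agent.Lib.MP_6cad4c_al

/-- `2 ^ 80` -/
def ONE : ℕ := 1208925819614629174706176

/-- `2 ^ 160` -/
def TWO : ℕ := 1461501637330902918203684832716283019655932542976

def mlo (a b : ℕ) : ℕ := Nat.shiftRight (Nat.mul a b) 80

def mhi (a b : ℕ) : ℕ := Nat.add (Nat.shiftRight (Nat.mul a b) 80) 1

def nmax (a b : ℕ) : ℕ := Nat.add a (Nat.sub b a)

def nmin (a b : ℕ) : ℕ := Nat.sub a (Nat.sub a b)

def sqLo (r : ℕ) : ℕ := mlo r r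

def sqHi (r : ℕ) : ℕ := mhi r r

def hornLo (y j r : ℕ) : ℕ := Nat.add ONE (Nat.div (mlo y r) j)

def hornHi (y j r : ℕ) : ℕ := Nat.add (Nat.add ONE (Nat.div (mhi y r) j)) 1

def tayLo (y : ℕ) : ℕ :=
  hornLo y 1 (hornLo y 2 (hornLo y 3 (hornLo y 4 (Nat.add ONE (Nat.div y 5)))))

def tayHi (y : ℕ) : ℕ :=
  hornHi y 1 (hornHi y 2 (hornHi y 3 (hornHi y 4 (Nat.add (Nat.add ONE (Nat.div y 4)) 1))))

def expLo (x : ℕ) : ℕ :=
  sqLo (sqLo (sqLo (sqLo (sqLo (sqLo (sqLo (sqLo (sqLo (sqLo (sqLo (sqLo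
    (tayLo (Nat.shiftRight x 12)))))))))))))

def expHi (x : ℕ) : ℕ :=
  sqHi (sqHi (sqHi (sqHi (sqHi (sqHi (sqHi (sqHi (sqHi (sqHi (sqHi (sqHi
    (tayHi (Nat.add (Nat.shiftRight x 12) 1)))))))))))))

def nexpHi (x : ℕ) : ℕ := Nat.add (Nat.div TWO (expLo x)) 1

def nexpLo (x : ℕ) : ℕ := cond (Nat.ble x (Nat.mul 1000 ONE)) (Nat.div TWO (expHi x)) 0

def newton (n g : ℕ) : ℕ := Nat.add (Nat.shiftRight (Nat.add g (Nat.div n g)) 1) 1

def sqrtN (n : ℕ) : ℕ :=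
  newton n (newton n (newton n (newton n (newton n
    (Nat.shiftLeft 1 (Nat.add (Nat.shiftRight (Nat.log2 n) 1) 1))))))

def sqrtHi (x : ℕ) : ℕ := sqrtN (Nat.shiftLeft x 80)

/-- upper bound for `1 / (1 - q)` -/
def geoHi (q : ℕ) : ℕ := Nat.add (Nat.div TWO (Nat.sub ONE q)) 1

/-- intervals of nonnegative numbers, scaled by `2 ^ 80` -/
structure PI where
  lo : ℕ
  hi : ℕ

def PI.Mem (x : ℝ) (a : PI) : Prop := (a.lo : ℝ) ≤ x * 2 ^ 80 ∧ x * 2 ^ 80 ≤ a.hi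

def PI.pt (q : ℕ) : PI := ⟨q, Nat.add q 1⟩

def PI.rat (n d : ℕ) : PI := PI.pt (Nat.div (Nat.shiftLeft n 80) d)

def PI.add (a b : PI) : PI := ⟨Nat.add a.lo b.lo, Nat.add a.hi b.hi⟩

def PI.mul (a b : PI) : PI := ⟨mlo a.lo b.lo, mhi a.hi b.hi⟩

def PI.sub (a b : PI) : PI := ⟨Nat.sub a.lo b.hi, Nat.sub a.hi b.lo⟩

def PI.max (a b : PI) : PI := ⟨nmax a.lo b.lo, nmax a.hi b.hi⟩

def PI.hull (a b : PI) : PI := ⟨a.lo, b.hi⟩

def PI.inv1 (a : PI) : PI := ⟨Nat.div TWO a.hi, Nat.add (Nat.div TWO (nmax a.lo ONE)) 1⟩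

def PI.nexp (a : PI) : PI := ⟨nexpLo a.hi, nexpHi a.lo⟩

def PI.expS (a : PI) : PI := ⟨expLo a.lo, expHi (nmin a.hi ONE)⟩

def PI.sqrt (a : PI) : PI := ⟨0, sqrtHi a.hi⟩

/-- signed intervals: differences -/
structure SI where
  p : PI
  n : PI

def SI.Mem (x : ℝ) (a : SI) : Prop := ∃ y z : ℝ, x = y - z ∧ PI.Mem y a.p ∧ PI.Mem z a.n

def SI.dif (a b : PI) : SI := ⟨a.sub b, b.sub a⟩

def SI.add (a b : SI) : SI := SI.dif (a.p.add b.p) (a.n.add b.n)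

def SI.sub (a b : SI) : SI := SI.dif (a.p.add b.n) (a.n.add b.p)

def SI.addP (a : SI) (b : PI) : SI := SI.dif (a.p.add b) a.n

def SI.subP (a : SI) (b : PI) : SI := SI.dif a.p (a.n.add b)

def SI.Padd (a : PI) (b : SI) : SI := SI.dif (b.p.add a) b.n

def SI.Psub (a : PI) (b : SI) : SI := SI.dif (b.n.add a) b.p

def SI.neg (a : SI) : SI := ⟨a.n, a.p⟩

def SI.mul (a b : SI) : SI :=
  SI.dif ((a.p.mul b.p).add (a.n.mul b.n)) ((a.p.mul b.n).add (a.n.mul b.p))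

def SI.smul (a : PI) (b : SI) : SI := ⟨a.mul b.p, a.mul b.n⟩

def SI.pos (a : SI) : PI := a.p.sub a.n

def SI.ngp (a : SI) : PI := a.n.sub a.p

def SI.abs (a : SI) : PI := (a.p.sub a.n).max (a.n.sub a.p)

noncomputable def addL (a : List ℕ) : List ℕ → List ℕ :=
  List.rec (motive := fun _ => List ℕ → List ℕ) (fun b => b)
    (fun x a' ih b => List.rec (motive := fun _ => List ℕ) (x :: a')
      (fun y b' _ => Nat.add x y :: ih b') b) a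

noncomputable def smulL (c : ℕ) (a : List ℕ) : List ℕ :=
  List.rec (motive := fun _ => List ℕ) [] (fun x _ ih => mhi c x :: ih) a

noncomputable def mulL (a b : List ℕ) : List ℕ :=
  List.rec (motive := fun _ => List ℕ) [] (fun x _ ih => addL (smulL x b) (0 :: ih)) a

noncomputable def momA (y : ℕ) (l : List ℕ) : ℕ → ℕ :=
  List.rec (motive := fun _ => ℕ → ℕ) (fun _ => 0)
    (fun x _ ih j => Nat.add x (mhi (Nat.mul j y) (ih (Nat.add j 2)))) l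

/-- `∑ j, l j * (2 j + 1)!! * y ^ (j + 2)`, rounded up -/
noncomputable def momL (l : List ℕ) (y : ℕ) : ℕ := mhi y (mhi y (momA y l 3))

/-- pairs of coefficient lists: the part free of `G` and the rest -/
structure TL where
  p : List ℕ
  r : List ℕ

noncomputable def TL.add (a b : TL) : TL := ⟨addL a.p b.p, addL a.r b.r⟩

noncomputable def TL.mul (a b : TL) : TL :=
  ⟨mulL a.p b.p, addL (mulL (addL a.p a.r) b.r) (mulL a.r b.p)⟩

noncomputable def TL.smul (c : ℕ) (a : TL) : TL := ⟨smulL c a.p, smulL c a.r⟩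

def TL.sh (a : TL) : TL := ⟨0 :: a.p, 0 :: a.r⟩

def TL.one (c : ℕ) : TL := ⟨[c], []⟩

def TL.g : TL := ⟨[], [ONE]⟩

noncomputable def TL.mom (a : TL) (y₁ y₂ : ℕ) : ℕ := Nat.add (momL a.p y₁) (momL a.r y₂)

end Pool.Agent.Lib.MP_6cad4c_al
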