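import Pool.Agent.Lib.MP_6cad4c_al.Side

namespace Pool.Agent.Lib.MP_6cad4c_al

theorem lg_abs_mul {a b A B : ℝ} (ha : |a| ≤ A) (hb : |b| ≤ B) : |a * b| ≤ A * B := by
  rw [abs_mul]
  exact mul_le_mul ha hb (abs_nonneg _) ((abs_nonneg _).trans ha)

theorem lg_max {a A : ℝ} (ha : |a| ≤ A) : 0 ≤ max a 0 ∧ max a 0 ≤ A :=
  ⟨le_max_right _ _, max_le (abs_le.1 ha).2 ((abs_nonneg _).trans ha)⟩

theorem lg_max' {a A : ℝ} (ha : |a| ≤ A) : 0 ≤ max (-a) 0 ∧ max (-a) 0 ≤ A :=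
  lg_max (by rwa [abs_neg])

/-- bounds on the primary parameters for large `L` -/
structure PB (q : Pr) (L u0 : ℝ) : Prop where
  hL : 40 ≤ L
  ok : q.Ok
  T : q.et * L ≤ 46 / 10 ^ 9
  be : q.be ≤ 1 / 100
  spm : q.sp * q.m ≤ 1 / 100
  C : q.C ≤ 1
  nCp : q.nCp ≤ 1
  S : q.S ≤ 6
  nSp : q.nSp ≤ 1
  m0 : 75 / 2 ≤ q.m
  m1 : q.m ≤ 5 * L
  mp0 : 0 ≤ q.mp
  mp1 : q.mp ≤ 2
  u : q.u ≤ 61 / 5
  up : |q.up| ≤ 1 / 100
  V : q.V ≤ 60 * L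
  Vp0 : 0 ≤ q.Vp
  Vp1 : q.Vp ≤ 13
  x : q.x * L ^ 2 ≤ 1 / 10 ^ 6
  vl0 : 0 ≤ q.vl
  vl1 : q.vl ≤ 1 / 100
  u0p : 0 ≤ u0
  L00 : -15 ≤ q.L0
  L01 : q.L0 ≤ -(9 / 10 * u0) + 1000 * (q.et * L) ^ 2

namespace PB

variable {q : Pr} {L u0 : ℝ}

theorem mu_le (h : PB q L u0) : q.mu ≤ -16 := by
  unfold Pr.mu; linarith [h.mp1, h.m0]

theorem mu_ge (h : PB q L u0) : -(5 / 2 * L) ≤ q.mu := by
  unfold Pr.mu; linarith [h.mp0, h.m1]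

theorem amu (h : PB q L u0) : |q.mu| ≤ 5 / 2 * L :=
  abs_le.2 ⟨h.mu_ge, by linarith [h.mu_le, h.hL]⟩

theorem am (h : PB q L u0) : |q.m| ≤ 5 * L :=
  abs_le.2 ⟨by linarith [h.m0, h.hL], h.m1⟩

theorem au (h : PB q L u0) : |q.u| ≤ 61 / 5 :=
  abs_le.2 ⟨by linarith [h.ok.u], h.u⟩

theorem um (h : PB q L u0) : 0 ≤ q.um ∧ q.um ≤ 61 * L := by
  unfold Pr.um
  refine ⟨mul_nonneg h.ok.u (by linarith [h.m0]), ?_⟩
  have := (abs_le.1 (lg_abs_mul h.au h.am)).2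
  linarith

theorem ath1 (h : PB q L u0) : |q.th1| ≤ 66 * L := by
  unfold Pr.th1 Pr.Sm
  have := h.um
  have := h.hL
  rw [abs_le]
  constructor <;> linarith [h.ok.V, h.V, h.ok.S, h.S, h.m0, h.m1]

theorem ath2 (h : PB q L u0) : |q.th2| ≤ 62 * L := by
  unfold Pr.th2 Pr.Sm
  have := h.um
  have := h.hL
  rw [abs_le]
  constructor <;> linarith [h.ok.u, h.u, h.ok.S, h.S, h.m0, h.m1]

theorem amup (h : PB q L u0) : |q.m * q.up| ≤ 1 / 20 * L := by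
  have := lg_abs_mul h.am h.up
  linarith

theorem aw1 (h : PB q L u0) : |q.w1| ≤ 5 / 2 * L := by
  unfold Pr.w1
  have := h.hL
  rw [abs_le]
  constructor <;> linarith [h.mu_le, h.mu_ge, h.ok.nSp, h.nSp, h.ok.S, h.S]

theorem az1 (h : PB q L u0) : |q.z1| ≤ 31 * L := by
  unfold Pr.z1
  have h1 := abs_le.1 h.amup
  have h2 := abs_le.1 (lg_abs_mul h.au h.amu)
  have := h.hL
  rw [abs_le]
  constructor <;> linarith

theorem atp1 (h : PB q L u0) : |q.tp1| ≤ 70 * L := by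
  unfold Pr.tp1
  have h1 := abs_le.1 h.aw1
  have h2 := abs_le.1 h.az1
  have := h.hL
  rw [abs_le]
  constructor <;> linarith [h.Vp0, h.Vp1, h.ok.V, h.V]

theorem atp2 (h : PB q L u0) : |q.tp2| ≤ 40 * L := by
  unfold Pr.tp2
  have h1 := abs_le.1 h.aw1
  have h2 := abs_le.1 h.az1
  have h3 := abs_le.1 h.up
  have := h.hL
  rw [abs_le]
  constructor <;> linarith [h.ok.u, h.u]

theorem acd (h : PB q L u0) : |q.cd| ≤ 75 * L := by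
  unfold Pr.cd
  have := h.hL
  have h1 : |q.mp - q.m| ≤ 5 * L :=
    abs_le.2 ⟨by linarith [h.mp0, h.m1], by linarith [h.mp1, h.m0]⟩
  have h2 : |1 - q.u| ≤ 12 := abs_le.2 ⟨by linarith [h.u], by linarith [h.ok.u]⟩
  have h3 := abs_le.1 (lg_abs_mul h1 h2)
  have h4 := abs_le.1 h.amup
  rw [abs_le]
  constructor <;> linarith

theorem acv (h : PB q L u0) : |q.cv| ≤ 61 * L := by
  unfold Pr.cv
  have := h.hL
  rw [abs_le]
  constructor <;> linarith [h.Vp0, h.Vp1, h.ok.V, h.V]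

theorem am1 (h : PB q L u0) : |q.m + 1| ≤ 51 / 10 * L := by
  have := h.hL
  rw [abs_le]
  constructor <;> linarith [h.m0, h.m1]

theorem aA2 (h : PB q L u0) : |q.A2| ≤ 52 * L ^ 2 := by
  unfold Pr.A2
  have h1 := abs_le.1 (lg_abs_mul h.am h.am)
  have h2 := abs_le.1 (lg_abs_mul h.am1 h.am1)
  have := sq_nonneg L
  rw [abs_le]
  constructor <;> nlinarith

theorem atrQ (h : PB q L u0) : |q.trQ| ≤ 400 * L ^ 2 := by
  unfold Pr.trQ Pr.ccp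
  have hL := h.hL
  have hL2 : 40 * L ≤ L ^ 2 := by nlinarith
  have h1 := abs_le.1 h.acd
  have h2 := abs_le.1 h.acv
  have h3 := abs_le.1 (lg_abs_mul h.aA2 h.up)
  have h4 : |q.mu - 1 / 2| ≤ 13 / 5 * L :=
    abs_le.2 ⟨by linarith [h.mu_ge], by linarith [h.mu_le]⟩
  have h5 := lg_abs_mul h.am h.amu
  have h6 := lg_abs_mul h.am1 h4
  have h7 : |q.m * q.mu + (q.m + 1) * (q.mu - 1 / 2)| ≤ 26 * L ^ 2 := by
    refine (abs_add_le _ _).trans ?_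
    nlinarith
  have h8 := abs_le.1 (lg_abs_mul h.au h7)
  rw [abs_le]
  constructor <;> nlinarith [h.ok.C, h.C, h.ok.nCp, h.nCp]

theorem T0 (h : PB q L u0) : 0 ≤ q.et * L := mul_nonneg h.ok.et.le (by linarith [h.hL])

theorem T2 (h : PB q L u0) : (q.et * L) ^ 2 ≤ 1 / 10 ^ 14 := by
  have h1 := h.T
  have h2 := h.T0
  nlinarith

theorem aL0 (h : PB q L u0) : |q.L0| ≤ 15 :=
  abs_le.2 ⟨h.L00, by linarith [h.L01, h.T2, h.u0p]⟩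

theorem t2 (h : PB q L u0) : 0 ≤ q.t2 ∧ q.t2 ≤ 8200 * L ^ 2 := by
  unfold Pr.t2 Pr.ath1 Pr.ath2
  have h1 := h.ath1
  have h2 := h.ath2
  have h3 := abs_nonneg q.th1
  have h4 := abs_nonneg q.th2
  constructor
  · positivity
  · nlinarith

theorem aquad (h : PB q L u0) : |q.quad| ≤ 10 ^ 5 * L ^ 2 := by
  unfold Pr.quad
  have h1 : |q.Lm| ≤ 15 := by
    have := lg_max' h.aL0
    exact abs_le.2 ⟨by unfold Pr.Lm; linarith, this.2⟩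
  have h2 : |q.t2| ≤ 8200 * L ^ 2 := by rw [abs_of_nonneg h.t2.1]; exact h.t2.2
  have h3 := abs_le.1 (lg_abs_mul h1 h2)
  have h4 := abs_le.1 h.atrQ
  have h5 := abs_le.1 (lg_abs_mul h.ath1 h.atp1)
  have h6 := abs_le.1 (lg_abs_mul h.ath2 h.atp2)
  have := sq_nonneg L
  rw [abs_le]
  constructor <;> nlinarith

theorem ks_le (h : PB q L u0) : 0 ≤ q.ks ∧ 1600 * q.ks ≤ (q.et * L) ^ 2 := by
  rw [h.ok.ks]
  have := h.hL
  have h2 : 1600 ≤ L ^ 2 := by nlinarith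
  refine ⟨sq_nonneg _, ?_⟩
  rw [mul_pow]
  nlinarith [sq_nonneg q.et]

theorem main_le (h : PB q L u0) :
    q.main + q.aerr ≤ -(9 / 10 * u0) + 10 ^ 6 * (q.et * L) ^ 2 := by
  unfold Pr.main Pr.aerr
  have h1 := h.aquad
  have h2 := h.ks_le
  have h3 := h.T2
  have h4 : q.ks * |q.quad| ≤ 10 ^ 5 * (q.et * L) ^ 2 := by
    calc q.ks * |q.quad| ≤ q.ks * (10 ^ 5 * L ^ 2) := mul_le_mul_of_nonneg_left h1 h2.1
      _ = _ := by rw [h.ok.ks]; ring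
  have h5 : q.ks * q.quad ≤ q.ks * |q.quad| := mul_le_mul_of_nonneg_left (le_abs_self _) h2.1
  have h6 : |q.L0| + q.ks * |q.quad| ≤ 16 := by linarith [h.aL0]
  have h7 : 10 * q.ks * q.ks ≤ q.ks := by nlinarith
  have h8 : 10 * q.ks * q.ks * (|q.L0| + q.ks * |q.quad|) ≤ q.ks * 16 :=
    mul_le_mul h7 h6 (by have := h2.1; positivity) h2.1
  linarith [h.L01]

theorem xb (h : PB q L u0) : 0 ≤ q.xb ∧ q.xb ≤ 1 / 200 := by
  unfold Pr.xb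
  refine ⟨(Real.exp_pos _).le, ?_⟩
  have h1 : Real.exp (-(809 / 1250 * q.m)) ≤ Real.exp (-24) :=
    Real.exp_le_exp.2 (by linarith [h.m0])
  have h2 := Real.quadratic_le_exp_of_nonneg (show (0 : ℝ) ≤ 24 by norm_num)
  refine h1.trans ?_
  rw [Real.exp_neg]
  exact inv_le_of_inv_le₀ (by norm_num) (by linarith)

theorem s2q (h : PB q L u0) : 0 ≤ q.s2q ∧ q.s2q ≤ 1 / 10000 := by
  unfold Pr.s2q
  have h1 := h.ok.sp
  have h2 := h.ok.sp'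
  constructor
  · positivity
  · nlinarith

theorem kb (h : PB q L u0) : (0 ≤ q.k1 ∧ q.k1 ≤ 1 / 100) ∧ (0 ≤ q.k2 ∧ q.k2 ≤ 1) ∧
    (0 ≤ q.k3 ∧ q.k3 ≤ 1) ∧ (0 ≤ q.k4 ∧ q.k4 ≤ 1) := by
  unfold Pr.k1 Pr.k2 Pr.k3 Pr.k4
  have h1 := h.ok.sp
  have h2 := h.ok.sp'
  have h3 := h.s2q
  refine ⟨⟨?_, ?_⟩, ⟨?_, ?_⟩, ⟨?_, ?_⟩, ⟨?_, ?_⟩⟩ <;> linarith

theorem rho_aux {x a b c d e : ℝ} (hx : 0 ≤ x ∧ x ≤ 1 / 200) (ha : 0 ≤ a ∧ a ≤ 1 / 100)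
    (hb : 0 ≤ b ∧ b ≤ 8) (hc : 0 ≤ c ∧ c ≤ 27) (hd : 0 ≤ d ∧ d ≤ 64) (he : 0 ≤ e ∧ e ≤ 1) :
    0 ≤ a + x * (b + x * (c + x * (d + e))) ∧ a + x * (b + x * (c + x * (d + e))) ≤ 1 := by
  obtain ⟨hx0, hx1⟩ := hx
  obtain ⟨ha0, ha1⟩ := ha
  obtain ⟨hb0, hb1⟩ := hb
  obtain ⟨hc0, hc1⟩ := hc
  obtain ⟨hd0, hd1⟩ := hd
  obtain ⟨he0, he1⟩ := he
  refine ⟨by positivity, ?_⟩
  calc a + x * (b + x * (c + x * (d + e)))
      ≤ 1 / 100 + 1 / 200 * (8 + 1 / 200 * (27 + 1 / 200 * (64 + 1))) := by gcongr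
    _ ≤ 1 := by norm_num

theorem rho1 (h : PB q L u0) : 0 ≤ q.rho1 ∧ q.rho1 ≤ 1 := by
  obtain ⟨h1, h2, h3, h4⟩ := h.kb
  have hx := h.xb
  exact rho_aux hx h1 ⟨by linarith, by linarith⟩ ⟨by linarith, by linarith⟩
    ⟨by linarith, by linarith⟩ ⟨by linarith, by linarith⟩

theorem rho2 (h : PB q L u0) : 0 ≤ q.rho2 ∧ q.rho2 ≤ 1 := by
  obtain ⟨h1, h2, h3, h4⟩ := h.kb
  have hx := h.xb
  exact rho_aux hx h1 ⟨by linarith, by linarith⟩ ⟨by linarith, by linarith⟩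
    ⟨by linarith, by linarith⟩ ⟨by linarith, by linarith⟩

theorem rho3 (h : PB q L u0) : 0 ≤ q.rho3 ∧ q.rho3 ≤ 1 := by
  obtain ⟨h1, h2, h3, h4⟩ := h.kb
  have hx := h.xb
  exact rho_aux hx h1 ⟨by linarith, by linarith⟩ ⟨by linarith, by linarith⟩
    ⟨by linarith, by linarith⟩ ⟨by linarith, by linarith⟩

theorem im (h : PB q L u0) : 0 ≤ q.im ∧ q.im ≤ 2 / 75 := by
  unfold Pr.im
  have := h.m0
  exact ⟨inv_nonneg.2 (by linarith), inv_le_of_inv_le₀ (by norm_num) (by linarith)⟩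

theorem aca (h : PB q L u0) : |q.ca| ≤ 13 := by
  unfold Pr.ca
  have hm := h.m0
  have h1 : q.im * q.mu = q.im * q.mp - 1 / 2 := by
    unfold Pr.mu Pr.im
    have : q.m ≠ 0 := by linarith [hm] |> fun (h : 0 < q.m) => h.ne'
    field_simp
  have h2 := h.im
  have h3 : 0 ≤ q.im * q.mp := mul_nonneg h2.1 h.mp0
  have h4 : q.im * q.mp ≤ 2 / 75 * 2 := mul_le_mul h2.2 h.mp1 h.mp0 (by norm_num)
  have h5 : |q.im * q.mu| ≤ 1 / 2 := by rw [h1, abs_le]; constructor <;> linarith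
  have h6 := abs_le.1 (lg_abs_mul h.au h5)
  have h7 := abs_le.1 h.up
  rw [abs_le]
  constructor <;> linarith

theorem Mp (h : PB q L u0) : 0 ≤ q.Mp ∧ q.Mp ≤ 2 := by
  unfold Pr.Mp
  rw [abs_of_nonneg h.mp0]
  exact ⟨h.mp0, h.mp1⟩

theorem cb (h : PB q L u0) : 0 ≤ q.cb ∧ q.cb ≤ 1 := by
  unfold Pr.cb
  obtain ⟨h1, h2⟩ := h.Mp
  obtain ⟨h3, h4⟩ := h.im
  have h5 := h.ok.u
  have h6 := h.u
  refine ⟨by positivity, ?_⟩
  calc q.u * q.Mp * q.im ≤ 61 / 5 * 2 * (2 / 75) := by gcongr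
    _ ≤ 1 := by norm_num

theorem qg (h : PB q L u0) : 0 ≤ q.qg ∧ q.qg ≤ 1 / 100 := by
  unfold Pr.qg
  have h1 := h.ks_le
  have h2 := h.T2
  have h3 := h.m0
  have h4 := h.m1
  have hL := h.hL
  refine ⟨mul_nonneg (by linarith) (by linarith), ?_⟩
  have h5 : q.ks * L ^ 2 ≤ 1 / 10 ^ 14 := by rw [h.ok.ks, ← mul_pow]; exact h2
  have h6 : q.m ≤ L ^ 2 := by nlinarith
  nlinarith

theorem xAe (h : PB q L u0) : 0 ≤ q.xAe ∧ q.xAe ≤ 1 / 1000 := by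
  unfold Pr.xAe Pr.e4
  have h0 : 0 ≤ q.x := by rw [h.ok.x]; exact (Real.exp_pos _).le
  have h1 := side_iA2 h.ok
  have h2 := (abs_le.1 h.aA2).2
  have h3 : Real.exp (4 * q.m * q.A2⁻¹) ≤ 3 :=
    (Real.exp_le_exp.2 (side_e4 h.ok)).trans (by linarith [Real.exp_one_lt_d9])
  have h4 : 0 ≤ q.A2 := by linarith
  refine ⟨by positivity, ?_⟩
  have h5 : q.x * q.A2 ≤ 52 / 10 ^ 6 := by nlinarith [h.x]
  calc q.x * q.A2 * Real.exp (4 * q.m * q.A2⁻¹) ≤ 52 / 10 ^ 6 * 3 := by gcongr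
    _ ≤ _ := by norm_num

theorem qB (h : PB q L u0) : 0 ≤ q.qB ∧ q.qB ≤ 5 / 100 := by
  unfold Pr.qB
  have hx0 : 0 ≤ q.x := by rw [h.ok.x]; exact (Real.exp_pos _).le
  have hx1 : q.x ≤ 1 := by
    rw [h.ok.x]; exact Real.exp_le_one_iff.2 (by linarith [h.m0])
  obtain ⟨a0, a1⟩ := h.xAe
  obtain ⟨b0, b1⟩ := h.xb
  obtain ⟨s0, s1⟩ := h.s2q
  have r0 : 0 ≤ q.xr := by unfold Pr.xr; positivity
  have r1 : q.xr ≤ 3 / 100 := by unfold Pr.xr; linarith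
  have n0 : 0 ≤ q.rn := by unfold Pr.rn; positivity
  have n1 : q.rn ≤ 101 / 100 := by
    unfold Pr.rn
    calc 1 + q.s2q + q.xb * q.xb * (1 + 9 * q.s2q + q.xb * (1 + q.xb)) ≤
        1 + 1 / 10000 + 1 / 200 * (1 / 200) * (1 + 9 * (1 / 10000) + 1 / 200 * (1 + 1 / 200)) := by
          gcongr
      _ ≤ _ := by norm_num
  have c0 : 0 ≤ cc⁻¹ := inv_nonneg.2 cc_pos.le
  have c1 : cc⁻¹ ≤ 1 := inv_le_one_of_one_le₀ (by linarith [cc_gt])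
  have m0 : 0 ≤ q.m := by linarith [h.m0]
  have p0 := h.ok.sp
  have e1 : 0 ≤ max (1 / 2 * q.xAe) q.xr := le_max_of_le_right r0
  have e1' : max (1 / 2 * q.xAe) q.xr ≤ 3 / 100 := max_le (by linarith) r1
  have e2 : 0 ≤ max (2 * q.x * q.xAe) (q.xr * q.xb) := le_max_of_le_right (by positivity)
  have e2' : max (2 * q.x * q.xAe) (q.xr * q.xb) ≤ 2 / 1000 := max_le (by nlinarith) (by nlinarith)
  have e3 : q.xb * q.m * (1 / 2 * q.sp * (1 + q.xb * (1 + q.xb * (1 + q.xb)))) ≤ 1 / 1000 := by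
    have e4 := h.spm
    have e5 : 0 ≤ q.sp * q.m := by positivity
    calc q.xb * q.m * (1 / 2 * q.sp * (1 + q.xb * (1 + q.xb * (1 + q.xb)))) =
        q.xb * (q.sp * q.m) * (1 / 2 * (1 + q.xb * (1 + q.xb * (1 + q.xb)))) := by ring
      _ ≤ 1 / 200 * (1 / 100) * (1 / 2 * (1 + 1 / 200 * (1 + 1 / 200 * (1 + 1 / 200)))) := by
          gcongr
      _ ≤ _ := by norm_num
  refine ⟨by positivity, ?_⟩
  calc _ ≤ (1 : ℝ) * (101 / 100 * (3 / 100) + (1 / 4 + 1 / 10000) * (2 / 1000) + 1 / 1000) := by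
        gcongr
    _ ≤ _ := by norm_num

theorem qa (h : PB q L u0) : 0 ≤ q.qa ∧ q.qa ≤ 1 / 10 := by
  unfold Pr.qa
  have h1 := h.qg
  have h2 := h.qB
  constructor <;> linarith [h.vl0, h.vl1]

theorem et_mul (h : PB q L u0) {v K : ℝ} (hv : 0 ≤ v ∧ v ≤ K * L) :
    0 ≤ q.et * v ∧ q.et * v ≤ K * (q.et * L) :=
  ⟨mul_nonneg h.ok.et.le hv.1, by
    calc q.et * v ≤ q.et * (K * L) := mul_le_mul_of_nonneg_left hv.2 h.ok.et.le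
      _ = _ := by ring⟩

theorem t1n (h : PB q L u0) : 0 ≤ q.t1n ∧ q.t1n ≤ 150 * (q.et * L) := by
  refine h.et_mul ⟨Real.sqrt_nonneg _, Real.sqrt_le_iff.2 ⟨by linarith [h.hL], ?_⟩⟩
  have := h.t2.2
  nlinarith [sq_nonneg L]

theorem t1pn (h : PB q L u0) : 0 ≤ q.t1pn ∧ q.t1pn ≤ 100 * (q.et * L) := by
  refine h.et_mul ⟨Real.sqrt_nonneg _, Real.sqrt_le_iff.2 ⟨by linarith [h.hL], ?_⟩⟩
  unfold Pr.atp1 Pr.atp2
  have h1 := h.atp1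
  have h2 := h.atp2
  have h3 := abs_nonneg q.tp1
  have h4 := abs_nonneg q.tp2
  nlinarith [sq_nonneg L]

end PB

end Pool.Agent.Lib.MP_6cad4c_al
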