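import Pool.Agent.Lib.MP_6cad4c_al.Basic

namespace Pool.Agent.Lib.MP_6cad4c_al

open Complex

/-- `L = log (1/σ)` where `σ² = c / (n - 1/24)` -/
noncomputable def Ln (n : ℕ) : ℝ := Real.log (((n : ℝ) - 1 / 24) / cc) / 2

noncomputable def sg (L : ℝ) : ℝ := Real.exp (-L)

noncomputable def lam (L : ℝ) : ℝ := cc * Real.exp L

noncomputable def eta (L : ℝ) : ℝ := Real.exp (-L / 2) / Real.sqrt (2 * cc)

noncomputable def be (L : ℝ) : ℝ := 8 / 5 * sg L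

/-- `η² = 1 / (2 λ)` -/
noncomputable def ks (L : ℝ) : ℝ := 1 / 2 * (sg L * cc⁻¹)

noncomputable def kk (L : ℝ) : ℝ := ks L * (2 + ks L * (1 + 2 / 3 * ks L))

/-- saddle point weight on the arc of radius `exp (-L + b)` -/
noncomputable def om (L b φ : ℝ) : ℂ :=
  exp (lam L * (exp (b + φ * I) + exp (-(b + φ * I)) - 2) + 3 / 2 * (b + φ * I))

/-- the point of the arc -/
noncomputable def sv (L b φ : ℝ) : ℂ := exp (-L + b + φ * I)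

noncomputable def FA (z s : ℂ) : ℂ := exp (-(z * gA (exp (-(z * s)))))

noncomputable def FB (z s : ℂ) : ℂ := exp (-(z * s) - gB (exp (-(z * s))) s)

noncomputable def J0 (L : ℝ) : ℝ := eta L * Real.sqrt (2 * Real.pi) * Real.exp (-(kk L) / 2)

/-- main term of `p(n)` -/
noncomputable def NJ (L : ℝ) : ℝ :=
  Real.exp (2 * lam L - 3 * L / 2) / (2 * Real.pi * Real.sqrt (2 * Real.pi)) * J0 L

noncomputable def JA (L Φ : ℝ) (t : ℕ) : ℂ :=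
  (∫ φ in -Φ..Φ, om L (-be L) φ * FA t (sv L (-be L) φ)) / J0 L

noncomputable def JB (L Φ : ℝ) (t : ℕ) : ℂ :=
  (∫ φ in -Φ..Φ, om L (be L) φ * FB t (sv L (be L) φ)) / J0 L

/-- the full integrand -/
noncomputable def FF (L φ₁ φ₂ : ℝ) (z : ℂ) : ℂ :=
  om L (-be L) φ₁ * FA z (sv L (-be L) φ₁) * (om L (be L) φ₂ * FB z (sv L (be L) φ₂))

/-- `T` as a function of `g` -/
noncomputable def Tg (L g : ℝ) : ℝ := (L + g) * Real.exp (L + be L)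

/-- admissible windows -/
structure Win (L g₀ g₁ Φ : ℝ) : Prop where
  hL : 47 / 10 ≤ L
  hΦ : 419 / 1000 ≤ Φ
  hΦ' : Φ ≤ 42 / 100
  h0 : 29 / 10 ≤ L + g₀
  h0' : L + g₀ ≤ 2901 / 1000 ∨ g₀ = -(5 / 2)
  h0'' : -(5 / 2) ≤ g₀
  h1 : 7 / 2 * L + 899 / 100 ≤ g₁
  h1' : g₁ ≤ 7 / 2 * L + 9

/-- the rotated triple integral -/
noncomputable def zc (L g₀ g₁ Φ : ℝ) : ℂ :=
  (∫ φ₁ in -Φ..Φ, ∫ φ₂ in -Φ..Φ,
    exp (-(φ₁ * I)) * ∫ T in Tg L g₀..Tg L g₁, FF L φ₁ φ₂ (T * exp (-(φ₁ * I)))) / (J0 L) ^ 2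

end Pool.Agent.Lib.MP_6cad4c_al
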