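import Pool.Agent.Lib.MP_6cad4c_al.IvDef

namespace Pool.Agent.Lib.MP_6cad4c_al

def ccI : PI := PI.hull (PI.rat 1644934 1000000) (PI.rat 1644935 1000000)

def icI : PI := PI.hull (PI.rat 607927 1000000) (PI.rat 607928 1000000)

structure SP where
  sg : PI
  et : PI

structure CP where
  M : PI
  u0 : PI
  X0 : PI

def sbe (s : SP) : PI := PI.mul (PI.rat 8 5) s.sg

def sb2 (s : SP) : PI := PI.mul (sbe s) (sbe s)

def seb (s : SP) : PI := PI.hull (PI.add (PI.rat 1 1) (sbe s)) (PI.add (PI.add (PI.rat 1 1) (sbe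
    s)) (sb2 s))

def sE2 (s : SP) : PI := PI.hull (PI.mul (PI.rat 2 1) (PI.add (sbe s) (sb2 s))) (PI.mul (PI.rat
    2 1) (PI.add (sbe s) (PI.mul (sb2 s) (PI.add (PI.rat 1 1) (sbe s)))))

def sc2b (_s : SP) : PI := PI.mul (PI.rat 16 5) ccI

def sS (s : SP) : PI := PI.hull (sc2b s) (PI.mul (sc2b s) (PI.add (PI.rat 1 1) (sb2 s)))

def snSp (s : SP) : PI := PI.hull (PI.rat 0 1) (PI.mul (sc2b s) (sb2 s))

def scb2 (s : SP) : PI := PI.mul (PI.mul (PI.rat 64 25) ccI) s.sg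

def sC (s : SP) : PI := PI.hull (scb2 s) (PI.mul (scb2 s) (PI.add (PI.rat 1 1) (sb2 s)))

def snCp (s : SP) : PI := PI.hull (scb2 s) (PI.mul (scb2 s) (PI.add (PI.rat 1 1) (sb2 s)))

def sil (s : SP) : PI := PI.mul s.sg icI

def sks (s : SP) : PI := PI.mul (PI.rat 1 2) (sil s)

def skk (s : SP) : PI := PI.mul (sks s) (PI.add (PI.rat 2 1) (PI.mul (sks s) (PI.add (PI.rat 1
    1) (PI.mul (PI.rat 2 3) (sks s)))))

def sk0 (s : SP) : PI := PI.mul (PI.mul (PI.rat 2 1) (sks s)) (PI.add (PI.rat 1 1) (PI.mul (sks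
    s) (PI.add (PI.rat 1 1) (sks s))))

def seA (s : SP) : PI := PI.expS (PI.add (PI.add (PI.mul (PI.rat 2 1) (sC s)) (skk s)) (sbe s))

def ssp (s : SP) : PI := PI.mul s.sg (seb s)

def ss2 (s : SP) : PI := PI.mul (PI.mul (PI.rat 1 12) (ssp s)) (ssp s)

def sr1 (s : SP) : SI := SI.dif (PI.mul (PI.rat 1 2) (ssp s)) (ss2 s)

def sr2n (s : SP) : SI := SI.dif (PI.add (PI.rat 1 4) (ss2 s)) (PI.mul (PI.rat 1 4) (ssp s))

def sr3n (s : SP) : SI := SI.dif (PI.add (PI.rat 1 9) (ss2 s)) (PI.mul (PI.rat 1 6) (ssp s))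

def sr4n (s : SP) : SI := SI.dif (PI.rat 1 16) (PI.mul (PI.rat 1 8) (ssp s))

def ch (_s : SP) (c : CP) : PI := PI.add (PI.rat 1 1) (PI.mul c.X0 (PI.add (PI.rat 3 2) (PI.mul
    c.X0 (PI.add (PI.rat 4 3) (PI.mul c.X0 (PI.add (PI.rat 7 4) (PI.mul c.X0 (PI.add (PI.rat 6
    5) (PI.mul c.X0 (PI.rat 2 1))))))))))

def ch2 (_s : SP) (c : CP) : PI := PI.mul c.X0 (PI.add (PI.rat 3 2) (PI.mul c.X0 (PI.add (PI.rat
    8 3) (PI.mul c.X0 (PI.add (PI.rat 21 4) (PI.mul c.X0 (PI.add (PI.rat 24 5) (PI.mul c.X0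
    (PI.rat 10 1)))))))))

def cm (s : SP) (c : CP) : PI := PI.mul c.M (PI.add (PI.rat 1 1) (sE2 s))

def comp (s : SP) (c : CP) : SI := SI.dif (PI.mul (PI.mul (PI.rat 2 1) (sbe s)) (cm s c)) (sE2
    s)

def cmp (s : SP) (c : CP) : SI := SI.Psub (PI.rat 1 1) (comp s c)

def cebu (s : SP) (c : CP) : PI := PI.mul (seb s) c.u0

def cMh (s : SP) (c : CP) : PI := PI.mul c.M (ch s c)

def cV (s : SP) (c : CP) : PI := PI.mul (cMh s c) (cebu s c)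

def cVp (s : SP) (c : CP) : SI := SI.smul (cebu s c) (SI.dif (ch s c) (PI.mul c.M (PI.add (ch2 s
    c) (PI.mul (sbe s) (ch s c)))))

def cME (s : SP) (c : CP) : PI := PI.mul c.M (sE2 s)

def cex (s : SP) (c : CP) : PI := PI.nexp (PI.add (sbe s) (cME s c))

def cu (s : SP) (c : CP) : PI := PI.mul c.u0 (cex s c)

def cup (s : SP) (c : CP) : SI := SI.smul (cu s c) (SI.Padd (sbe s) (comp s c))

def cx (s : SP) (c : CP) : PI := PI.mul (PI.mul c.X0 (cex s c)) (seb s)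

def cRs (s : SP) (c : CP) : SI := SI.sub (sr1 s) (SI.smul (cx s c) (SI.add (sr2n s) (SI.smul (cx
    s c) (SI.add (sr3n s) (SI.smul (cx s c) (SI.addP (sr4n s) (PI.mul (PI.rat 1 25) (cx s
    c))))))))

def cRa (s : SP) (c : CP) : SI := SI.sub (sr1 s) (SI.smul (cx s c) (SI.add (SI.smul (PI.rat 2 1)
    (sr2n s)) (SI.smul (cx s c) (SI.add (SI.smul (PI.rat 3 1) (sr3n s)) (SI.smul (cx s c)
    (SI.addP (SI.smul (PI.rat 4 1) (sr4n s)) (PI.mul (PI.rat 1 5) (cx s c))))))))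

def cRe (s : SP) (c : CP) : SI := SI.subP (SI.smul (cx s c) (SI.dif (PI.add (PI.rat 1 4) (PI.mul
    (cx s c) (PI.add (PI.rat 1 9) (PI.mul (cx s c) (PI.add (PI.rat 1 16) (PI.mul (PI.rat 1 25)
    (cx s c))))))) (PI.mul (ss2 s) (PI.add (PI.rat 1 1) (cx s c))))) (ss2 s)

def cnR0p (s : SP) (c : CP) : SI := SI.smul (cu s c) (SI.add (SI.smul (PI.add (PI.rat 1 1) (sbe
    s)) (cRe s c)) (SI.mul (cmp s c) (cRa s c)))

def cBz (s : SP) (c : CP) : PI := SI.pos (SI.Padd (PI.add (cME s c) (cV s c)) (SI.smul (cu s c)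
    (SI.Psub (PI.rat 1 1) (cRs s c))))

def cw (s : SP) (c : CP) : PI := PI.mul (PI.mul c.u0 (seA s)) (PI.nexp (cBz s c))

def cL0 (s : SP) (c : CP) : SI := SI.sub (SI.sub (SI.sub (SI.subP (comp s c) (PI.add (PI.add
    (PI.mul (PI.rat 2 1) (snCp s)) (sk0 s)) (sbe s))) (cVp s c)) (cup s c)) (cnR0p s c)

def cvl (s : SP) (c : CP) : PI := PI.mul (PI.mul (PI.mul (cMh s c) (seb s)) c.X0) icI

structure CI where
  et : PI
  ks : PI
  be : PI
  sp : PI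
  C : PI
  nCp : PI
  S : PI
  nSp : PI
  m : PI
  mp : SI
  u : PI
  up : SI
  V : PI
  Vp : SI
  x : PI
  vl : PI
  L0 : SI

def mkCI (s : SP) (c : CP) : CI where
  et := s.et
  ks := sks s
  be := sbe s
  sp := ssp s
  C := sC s
  nCp := snCp s
  S := sS s
  nSp := snSp s
  m := cm s c
  mp := cmp s c
  u := cu s c
  up := cup s c
  V := cV s c
  Vp := cVp s c
  x := cx s c
  vl := cvl s c
  L0 := cL0 s c

def dmu (i : CI) : SI := SI.subP i.mp (PI.mul (PI.rat 1 2) i.m)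

def dSm (i : CI) : SI := SI.dif i.S i.m

def dum (i : CI) : PI := PI.mul i.u i.m

def dth1 (i : CI) : SI := SI.sub (SI.dif (PI.add (PI.rat 1 2) i.V) (dum i)) (dSm i)

def dth2 (i : CI) : SI := SI.addP (dSm i) (PI.add (PI.add (PI.rat 3 2) (dum i)) i.u)

def dw1 (i : CI) : SI := SI.neg (SI.addP (dmu i) (PI.add i.nSp (PI.mul (PI.rat 1 2) i.S)))

def dz1 (i : CI) : SI := SI.add (SI.smul i.m i.up) (SI.smul i.u (dmu i))

def dtp1 (i : CI) : SI := SI.sub (SI.subP i.Vp (PI.add (PI.rat 1 4) (PI.mul (PI.rat 1 2) i.V)))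
    (SI.add (dw1 i) (dz1 i))

def dtp2 (i : CI) : SI := SI.subP (SI.add (SI.add (dw1 i) (dz1 i)) i.up) (PI.add (PI.rat 3 4)
    (PI.mul (PI.rat 1 2) i.u))

def dcd (i : CI) : SI := SI.sub (SI.mul (SI.subP i.mp i.m) (SI.dif (PI.rat 1 1) i.u)) (SI.smul
    i.m i.up)

def dccp (i : CI) : PI := PI.add i.C i.nCp

def dcv (i : CI) : SI := SI.subP i.Vp i.V

def dA2 (i : CI) : PI := PI.add (PI.mul i.m i.m) (PI.mul (PI.add i.m (PI.rat 1 1)) (PI.add i.m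
    (PI.rat 1 1)))

def dtrQ (i : CI) : SI := SI.add (SI.add (SI.add (SI.addP (dcd i) (dccp i)) (SI.smul (PI.rat 1
    2) (dcv i))) (SI.smul (PI.mul (PI.rat 1 2) (dA2 i)) i.up)) (SI.smul i.u (SI.add (SI.smul i.m
    (dmu i)) (SI.smul (PI.add i.m (PI.rat 1 1)) (SI.subP (dmu i) (PI.rat 1 2)))))

def dLm (i : CI) : PI := SI.ngp i.L0

def dLp (i : CI) : PI := SI.pos i.L0

def dath1 (i : CI) : PI := SI.abs (dth1 i)

def dath2 (i : CI) : PI := SI.abs (dth2 i)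

def dt2 (i : CI) : PI := PI.add (PI.mul (dath1 i) (dath1 i)) (PI.mul (dath2 i) (dath2 i))

def dquad (i : CI) : SI := SI.sub (SI.Padd (PI.mul (PI.mul (PI.rat 1 2) (dLm i)) (dt2 i)) (dtrQ
    i)) (SI.add (SI.mul (dth1 i) (dtp1 i)) (SI.mul (dth2 i) (dtp2 i)))

def dmain (i : CI) : SI := SI.add i.L0 (SI.smul i.ks (dquad i))

def daerr (i : CI) : PI := PI.mul (PI.mul (PI.mul (PI.rat 10 1) i.ks) i.ks) (PI.add (SI.abs
    i.L0) (PI.mul i.ks (SI.abs (dquad i))))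

def datp1 (i : CI) : PI := SI.abs (dtp1 i)

def datp2 (i : CI) : PI := SI.abs (dtp2 i)

def dt1n (i : CI) : PI := PI.mul i.et (PI.sqrt (dt2 i))

def dt1pn (i : CI) : PI := PI.mul i.et (PI.sqrt (PI.add (PI.mul (datp1 i) (datp1 i)) (PI.mul
    (datp2 i) (datp2 i))))

def dMp (i : CI) : PI := SI.abs i.mp

def dell (i : CI) : PI := PI.add (PI.add (PI.rat 1 1) i.be) (dMp i)

def dxb (i : CI) : PI := PI.nexp (PI.mul (PI.rat 809 1250) i.m)

def ds2q (i : CI) : PI := PI.mul (PI.mul (PI.rat 1 12) i.sp) i.sp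

def dk1 (i : CI) : PI := PI.add (PI.mul (PI.rat 1 2) i.sp) (ds2q i)

def dk2 (i : CI) : PI := PI.add (PI.add (PI.rat 1 4) (PI.mul (PI.rat 1 4) i.sp)) (ds2q i)

def dk3 (i : CI) : PI := PI.add (PI.add (PI.rat 1 9) (PI.mul (PI.rat 1 6) i.sp)) (ds2q i)

def dk4 (i : CI) : PI := PI.add (PI.rat 1 16) (PI.mul (PI.rat 1 8) i.sp)

def drho1 (i : CI) : PI := PI.add (dk1 i) (PI.mul (dxb i) (PI.add (PI.mul (PI.rat 2 1) (dk2 i))
    (PI.mul (dxb i) (PI.add (PI.mul (PI.rat 3 1) (dk3 i)) (PI.mul (dxb i) (PI.add (PI.mul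
    (PI.rat 4 1) (dk4 i)) (PI.mul (PI.rat 1 5) (dxb i))))))))

def drho2 (i : CI) : PI := PI.add (dk1 i) (PI.mul (dxb i) (PI.add (PI.mul (PI.rat 4 1) (dk2 i))
    (PI.mul (dxb i) (PI.add (PI.mul (PI.rat 9 1) (dk3 i)) (PI.mul (dxb i) (PI.add (PI.mul
    (PI.rat 16 1) (dk4 i)) (dxb i)))))))

def drho3 (i : CI) : PI := PI.add (dk1 i) (PI.mul (dxb i) (PI.add (PI.mul (PI.rat 8 1) (dk2 i))
    (PI.mul (dxb i) (PI.add (PI.mul (PI.rat 27 1) (dk3 i)) (PI.mul (dxb i) (PI.add (PI.mul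
    (PI.rat 64 1) (dk4 i)) (PI.mul (PI.rat 5 1) (dxb i))))))))

def dim (i : CI) : PI := PI.inv1 i.m

def dca (i : CI) : SI := SI.add (SI.smul (PI.rat 1 2) i.up) (SI.smul i.u (SI.smul (dim i) (dmu
    i)))

def dcb (i : CI) : PI := PI.mul (PI.mul i.u (dMp i)) (dim i)

def de4 (i : CI) : PI := PI.expS (PI.mul (PI.mul (PI.rat 4 1) i.m) (PI.inv1 (dA2 i)))

def dxAe (i : CI) : PI := PI.mul (PI.mul i.x (dA2 i)) (de4 i)

def dxr (i : CI) : PI := PI.mul (PI.rat 2500 441) (dxb i)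

def drn (i : CI) : PI := PI.add (PI.add (PI.rat 1 1) (ds2q i)) (PI.mul (PI.mul (dxb i) (dxb i))
    (PI.add (PI.add (PI.rat 1 1) (PI.mul (PI.rat 9 1) (ds2q i))) (PI.mul (dxb i) (PI.add (PI.rat
    1 1) (dxb i)))))

def dqB (i : CI) : PI := PI.mul icI (PI.add (PI.add (PI.mul (drn i) (PI.max (PI.mul (PI.rat 1 2)
    (dxAe i)) (dxr i))) (PI.mul (PI.add (PI.rat 1 4) (ds2q i)) (PI.max (PI.mul (PI.mul (PI.rat 2
    1) i.x) (dxAe i)) (PI.mul (dxr i) (dxb i))))) (PI.mul (PI.mul (dxb i) i.m) (PI.mul (PI.mul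
    (PI.rat 1 2) i.sp) (PI.add (PI.rat 1 1) (PI.mul (dxb i) (PI.add (PI.rat 1 1) (PI.mul (dxb i)
    (PI.add (PI.rat 1 1) (dxb i)))))))))

def dqg (i : CI) : PI := PI.mul (PI.mul (PI.rat 2 1) i.ks) i.m

def dqa (i : CI) : PI := PI.add (PI.add (PI.add (PI.rat 147 10000) (dqg i)) (PI.mul (PI.rat 1 2)
    i.vl)) (dqB i)

structure EI where
  et : ℕ
  etm : ℕ
  etmu : ℕ
  etV : ℕ
  t1n : ℕ
  t1pn : ℕ
  cdp : ℕ
  cdm : ℕ
  cvp : ℕ
  cvm : ℕ
  Lp : ℕ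
  u : ℕ
  Up : ℕ
  Mp : ℕ
  ell : ℕ
  rho1 : ℕ
  rho2 : ℕ
  rho3 : ℕ
  S : ℕ
  nSp : ℕ
  Vpa : ℕ
  nCp : ℕ
  C : ℕ
  Lm : ℕ
  ccp : ℕ
  cap : ℕ
  cam : ℕ
  cb : ℕ
  qa : ℕ

def mkEI (i : CI) : EI where
  et := i.et.hi
  etm := (PI.mul i.et i.m).hi
  etmu := (PI.mul i.et (SI.abs (dmu i))).hi
  etV := (PI.mul i.et i.V).hi
  t1n := (dt1n i).hi
  t1pn := (dt1pn i).hi
  cdp := (PI.mul i.et (SI.pos (dcd i))).hi
  cdm := (PI.mul i.et (SI.ngp (dcd i))).hi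
  cvp := (PI.mul i.et (SI.pos (dcv i))).hi
  cvm := (PI.mul i.et (SI.ngp (dcv i))).hi
  Lp := (dLp i).hi
  u := i.u.hi
  Up := (SI.abs i.up).hi
  Mp := (dMp i).hi
  ell := (dell i).hi
  rho1 := (drho1 i).hi
  rho2 := (drho2 i).hi
  rho3 := (drho3 i).hi
  S := i.S.hi
  nSp := i.nSp.hi
  Vpa := (SI.abs i.Vp).hi
  nCp := i.nCp.hi
  C := i.C.hi
  Lm := (dLm i).hi
  ccp := (dccp i).hi
  cap := (SI.pos (dca i)).hi
  cam := (SI.ngp (dca i)).hi
  cb := (dcb i).hi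
  qa := (dqa i).hi

noncomputable def tX1 (_e : EI) : TL := TL.one ONE

noncomputable def tX2 (_e : EI) : TL := TL.one ONE

noncomputable def tdX (_e : EI) : TL := TL.one (PI.rat 70711 50000).hi

noncomputable def tG (_e : EI) : TL := TL.g

noncomputable def tt1 (e : EI) : TL := TL.one e.t1n

noncomputable def tt1p (e : EI) : TL := TL.one e.t1pn

noncomputable def tp1 (e : EI) : TL := TL.smul e.et (tX1 e)

noncomputable def tp2 (e : EI) : TL := TL.smul e.et (tX2 e)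

noncomputable def td (e : EI) : TL := TL.smul e.et (tdX e)

noncomputable def tmd (e : EI) : TL := TL.smul e.etm (tdX e)

noncomputable def tvp (e : EI) : TL := TL.smul e.etV (tX1 e)

noncomputable def tA (e : EI) : TL := TL.add (tmd e) (tp2 e)

noncomputable def tAA (e : EI) : TL := TL.mul (tA e) (tA e)

noncomputable def tdd (e : EI) : TL := TL.mul (td e) (td e)

noncomputable def tmdd (e : EI) : TL := TL.mul (tmd e) (td e)

noncomputable def tMpd (e : EI) : TL := TL.smul e.Mp (td e)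

noncomputable def tn3 (e : EI) : TL := TL.mul (TL.add (TL.smul (PI.rat 1 6).hi (tMpd e))
    (TL.smul (PI.rat 1 4).hi (tmd e))) (tdd e)

noncomputable def te1 (e : EI) : TL := TL.smul (PI.rat 1 2).hi (tmdd e)

noncomputable def te1p (e : EI) : TL := TL.smul (PI.rat 1 2).hi (TL.mul (TL.add (tmd e) (tMpd
    e)) (td e))

noncomputable def tgm1 (e : EI) : TL := TL.mul (te1 e) (tG e)

noncomputable def tmd3 (e : EI) : TL := TL.smul (PI.rat 1 6).hi (TL.mul (tmdd e) (td e))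

noncomputable def tapp (e : EI) : TL := TL.add (TL.add (TL.smul e.etmu (tdX e)) (TL.smul (PI.rat
    1 2).hi (tp2 e))) (TL.sh (tn3 e))

noncomputable def tq1 (e : EI) : TL := TL.mul (tp1 e) (tp1 e)

noncomputable def tq2 (e : EI) : TL := TL.mul (tp2 e) (tp2 e)

noncomputable def tr2 (e : EI) : TL := TL.add (tq1 e) (tq2 e)

noncomputable def tc3 (e : EI) : TL := TL.add (TL.mul (tq1 e) (tp1 e)) (TL.mul (tq2 e) (tp2 e))

noncomputable def tc4 (e : EI) : TL := TL.add (TL.mul (tq1 e) (tq1 e)) (TL.mul (tq2 e) (tq2 e))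

noncomputable def tlc4 (e : EI) : TL := TL.smul (PI.rat 1 24).hi (TL.add (TL.mul (TL.mul (tX1 e)
    (tX1 e)) (tq1 e)) (TL.mul (TL.mul (tX2 e) (tX2 e)) (tq2 e)))

noncomputable def tsa (e : EI) : TL := TL.add (TL.add (TL.mul (tgm1 e) (tA e)) (TL.smul (PI.rat
    1 6).hi (TL.mul (tAA e) (tA e)))) (tmd3 e)

noncomputable def tug (e : EI) : TL := TL.smul e.u (tG e)

noncomputable def teh (e : EI) : TL := TL.add (te1 e) (TL.smul (PI.rat 1 2).hi (tAA e))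

noncomputable def tT3 (e : EI) : TL := TL.add (TL.sh (TL.add (TL.add (TL.add (TL.smul (PI.rat 1
    6).hi (TL.smul e.S (tc3 e))) (tmd3 e)) (TL.smul (PI.rat 1 6).hi (TL.mul (tvp e) (tq1 e))))
    (TL.smul e.u (tsa e)))) (TL.smul e.rho1 (TL.mul (tug e) (tA e)))

noncomputable def tD3 (e : EI) : TL := TL.add (TL.sh (TL.add (TL.add (TL.add (TL.add (TL.add
    (TL.smul (PI.rat 1 6).hi (TL.smul e.nSp (tc3 e))) (TL.smul (PI.rat 1 4).hi (TL.smul e.S (tc3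
    e)))) (tn3 e)) (TL.mul (TL.add (TL.smul (PI.rat 1 6).hi (TL.smul e.Vpa (tp1 e))) (TL.smul
    (PI.rat 1 4).hi (tvp e))) (tq1 e))) (TL.smul e.Up (tsa e))) (TL.smul e.u (TL.add (TL.mul
    (TL.add (tgm1 e) (TL.smul (PI.rat 1 2).hi (tAA e))) (tapp e)) (tn3 e))))) (TL.mul (tug e)
    (TL.add (TL.add (TL.sh (TL.mul (te1p e) (tA e))) (TL.smul e.rho2 (TL.add (TL.smul e.ell (tA
    e)) (TL.sh (TL.mul (te1p e) (tA e)))))) (TL.smul e.rho1 (tapp e))))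

noncomputable def tn4 (e : EI) : TL := TL.mul (TL.add (TL.smul (PI.rat 1 24).hi (tMpd e))
    (TL.smul (PI.rat 1 12).hi (tmd e))) (TL.mul (tdd e) (td e))

noncomputable def tD4 (e : EI) : TL := TL.add (TL.sh (TL.add (TL.add (TL.add (TL.add (TL.add
    (TL.smul (PI.rat 1 24).hi (TL.smul e.nCp (tc4 e))) (TL.smul (PI.rat 1 12).hi (TL.smul e.C
    (tc4 e)))) (tn4 e)) (TL.mul (TL.add (TL.smul (PI.rat 1 24).hi (TL.smul e.Vpa (tp1 e)))
    (TL.smul (PI.rat 1 12).hi (tvp e))) (TL.mul (tq1 e) (tp1 e)))) (TL.smul e.Up (TL.add (TL.add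
    (TL.add (TL.smul (PI.rat 1 24).hi (TL.mul (tAA e) (tAA e))) (TL.mul (tmd3 e) (tA e)))
    (TL.smul (PI.rat 1 4).hi (TL.mul (tmd3 e) (td e)))) (TL.smul (PI.rat 1 2).hi (TL.mul (tgm1
    e) (TL.add (te1 e) (tAA e))))))) (TL.smul e.u (TL.add (TL.add (TL.add (TL.mul (tapp e) (tsa
    e)) (TL.mul (tn3 e) (tA e))) (TL.mul (TL.add (tgm1 e) (TL.smul (PI.rat 1 2).hi (tAA e)))
    (te1p e))) (tn4 e))))) (TL.mul (tug e) (TL.add (TL.add (TL.smul e.rho3 (TL.smul e.ell (teh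
    e))) (TL.smul e.rho1 (te1p e))) (TL.smul e.rho2 (TL.mul (tA e) (tapp e)))))

noncomputable def tcbt (e : EI) : TL := TL.smul e.cb (TL.mul (tA e) (tp2 e))

noncomputable def tQp (e : EI) : TL := TL.add (TL.add (TL.smul (PI.rat 1 2).hi (TL.add (TL.add
    (TL.smul e.ccp (tr2 e)) (TL.mul (TL.smul e.cdp (tdX e)) (td e))) (TL.mul (TL.smul e.cvp (tX1
    e)) (tp1 e)))) (TL.smul e.cap (tAA e))) (tcbt e)

noncomputable def tQm (e : EI) : TL := TL.add (TL.add (TL.smul (PI.rat 1 2).hi (TL.add (TL.mul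
    (TL.smul e.cdm (tdX e)) (td e)) (TL.mul (TL.smul e.cvm (tX1 e)) (tp1 e)))) (TL.smul e.cam
    (tAA e))) (tcbt e)

noncomputable def tD2 (e : EI) : TL := TL.add (TL.add (TL.add (tD4 e) (tQp e)) (tQm e)) (TL.sh
    (tlc4 e))

noncomputable def tTh (e : EI) : TL := TL.add (tT3 e) (tt1 e)

noncomputable def tDb (e : EI) : TL := TL.add (tD3 e) (tt1p e)

noncomputable def tTh2 (e : EI) : TL := TL.mul (tTh e) (tTh e)

noncomputable def ttt (e : EI) : TL := TL.mul (tt1 e) (tt1p e)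

noncomputable def tPe (e : EI) : TL := TL.add (TL.add (TL.add (TL.add (TL.add (TL.smul (PI.rat 1
    2).hi (TL.smul e.Lm (TL.mul (tT3 e) (TL.add (tTh e) (tt1 e))))) (tD4 e)) (TL.sh (TL.smul
    (PI.rat 1 2).hi (TL.mul (tD2 e) (tTh2 e))))) (TL.mul (tt1p e) (tT3 e))) (TL.mul (tD3 e) (tTh
    e))) (TL.sh (TL.smul (PI.rat 1 6).hi (TL.mul (TL.mul (tDb e) (tTh e)) (tTh2 e))))

noncomputable def tam (e : EI) : TL := TL.add (TL.add (TL.smul (PI.rat 1 2).hi (TL.smul e.C (tr2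
    e))) (TL.smul e.u (tgm1 e))) (TL.smul e.rho2 (TL.mul (tug e) (teh e)))

noncomputable def tQQ (e : EI) : TL := TL.add (TL.add (TL.add (TL.one e.Lp) (TL.sh (TL.smul
    (PI.rat 1 2).hi (TL.smul e.Lm (TL.mul (tt1 e) (tt1 e)))))) (TL.sh (tQp e))) (TL.sh (ttt e))

noncomputable def tY (e : EI) : TL := TL.smul (PI.rat 1 2).hi (TL.add (TL.mul (tX1 e) (tX1 e))
    (TL.mul (tX2 e) (tX2 e)))

noncomputable def tEtot (e : EI) : TL := TL.add (TL.add (tPe e) (TL.smul e.qa (TL.mul (tY e)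
    (tQQ e)))) (TL.mul (tam e) (TL.add (TL.add (TL.one e.Lm) (TL.sh (tQm e))) (TL.sh (ttt e))))

/-- `qa + 4 qg` -/
def dq2 (i : CI) : ℕ := Nat.add (dqa i).hi (Nat.mul 4 (dqg i).hi)

noncomputable def derr (i : CI) : ℕ := (tEtot (mkEI i)).mom (geoHi (dqa i).hi) (geoHi (dq2 i))

noncomputable def dtot (i : CI) : SI := (dmain i).addP ((daerr i).add ⟨0, derr i⟩)

/-- the bound on one cell -/
noncomputable def cellB (s : SP) (c : CP) : SI := SI.smul (cw s c) (dtot (mkCI s c))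

def cellOk (s : SP) (c : CP) : Bool := Nat.blt (dq2 (mkCI s c)) ONE

end Pool.Agent.Lib.MP_6cad4c_al
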