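import Pool.Agent.Lib.MP_6cad4c_al.Par
import Pool.Agent.Lib.MP_6cad4c_al.Prog
import Pool.Agent.Lib.MP_6cad4c_al.Iv

namespace Pool.Agent.Lib.MP_6cad4c_al

theorem rat_0_1 : PI.Mem 0 (PI.rat 0 1) := by
  have h := PI.rat_mem 0 1 (by decide)
  rwa [show ((0 : ℕ) : ℝ) / ((1 : ℕ) : ℝ) = 0 by norm_num] at h

theorem rat_147_10000 : PI.Mem (147 / 10000) (PI.rat 147 10000) := by
  have h := PI.rat_mem 147 10000 (by decide)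
  rwa [show ((147 : ℕ) : ℝ) / ((10000 : ℕ) : ℝ) = 147 / 10000 by norm_num] at h

theorem rat_1_25 : PI.Mem (1 / 25) (PI.rat 1 25) := by
  have h := PI.rat_mem 1 25 (by decide)
  rwa [show ((1 : ℕ) : ℝ) / ((25 : ℕ) : ℝ) = 1 / 25 by norm_num] at h

theorem rat_1_24 : PI.Mem (1 / 24) (PI.rat 1 24) := by
  have h := PI.rat_mem 1 24 (by decide)
  rwa [show ((1 : ℕ) : ℝ) / ((24 : ℕ) : ℝ) = 1 / 24 by norm_num] at h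

theorem rat_1_16 : PI.Mem (1 / 16) (PI.rat 1 16) := by
  have h := PI.rat_mem 1 16 (by decide)
  rwa [show ((1 : ℕ) : ℝ) / ((16 : ℕ) : ℝ) = 1 / 16 by norm_num] at h

theorem rat_1_12 : PI.Mem (1 / 12) (PI.rat 1 12) := by
  have h := PI.rat_mem 1 12 (by decide)
  rwa [show ((1 : ℕ) : ℝ) / ((12 : ℕ) : ℝ) = 1 / 12 by norm_num] at h

theorem rat_1_9 : PI.Mem (1 / 9) (PI.rat 1 9) := by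
  have h := PI.rat_mem 1 9 (by decide)
  rwa [show ((1 : ℕ) : ℝ) / ((9 : ℕ) : ℝ) = 1 / 9 by norm_num] at h

theorem rat_1_8 : PI.Mem (1 / 8) (PI.rat 1 8) := by
  have h := PI.rat_mem 1 8 (by decide)
  rwa [show ((1 : ℕ) : ℝ) / ((8 : ℕ) : ℝ) = 1 / 8 by norm_num] at h

theorem rat_1_6 : PI.Mem (1 / 6) (PI.rat 1 6) := by
  have h := PI.rat_mem 1 6 (by decide)
  rwa [show ((1 : ℕ) : ℝ) / ((6 : ℕ) : ℝ) = 1 / 6 by norm_num] at h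

theorem rat_1_5 : PI.Mem (1 / 5) (PI.rat 1 5) := by
  have h := PI.rat_mem 1 5 (by decide)
  rwa [show ((1 : ℕ) : ℝ) / ((5 : ℕ) : ℝ) = 1 / 5 by norm_num] at h

theorem rat_1_4 : PI.Mem (1 / 4) (PI.rat 1 4) := by
  have h := PI.rat_mem 1 4 (by decide)
  rwa [show ((1 : ℕ) : ℝ) / ((4 : ℕ) : ℝ) = 1 / 4 by norm_num] at h

theorem rat_1_2 : PI.Mem (1 / 2) (PI.rat 1 2) := by
  have h := PI.rat_mem 1 2 (by decide)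
  rwa [show ((1 : ℕ) : ℝ) / ((2 : ℕ) : ℝ) = 1 / 2 by norm_num] at h

theorem rat_809_1250 : PI.Mem (809 / 1250) (PI.rat 809 1250) := by
  have h := PI.rat_mem 809 1250 (by decide)
  rwa [show ((809 : ℕ) : ℝ) / ((1250 : ℕ) : ℝ) = 809 / 1250 by norm_num] at h

theorem rat_2_3 : PI.Mem (2 / 3) (PI.rat 2 3) := by
  have h := PI.rat_mem 2 3 (by decide)
  rwa [show ((2 : ℕ) : ℝ) / ((3 : ℕ) : ℝ) = 2 / 3 by norm_num] at h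

theorem rat_3_4 : PI.Mem (3 / 4) (PI.rat 3 4) := by
  have h := PI.rat_mem 3 4 (by decide)
  rwa [show ((3 : ℕ) : ℝ) / ((4 : ℕ) : ℝ) = 3 / 4 by norm_num] at h

theorem rat_1_1 : PI.Mem 1 (PI.rat 1 1) := by
  have h := PI.rat_mem 1 1 (by decide)
  rwa [show ((1 : ℕ) : ℝ) / ((1 : ℕ) : ℝ) = 1 by norm_num] at h

theorem rat_6_5 : PI.Mem (6 / 5) (PI.rat 6 5) := by
  have h := PI.rat_mem 6 5 (by decide)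
  rwa [show ((6 : ℕ) : ℝ) / ((5 : ℕ) : ℝ) = 6 / 5 by norm_num] at h

theorem rat_4_3 : PI.Mem (4 / 3) (PI.rat 4 3) := by
  have h := PI.rat_mem 4 3 (by decide)
  rwa [show ((4 : ℕ) : ℝ) / ((3 : ℕ) : ℝ) = 4 / 3 by norm_num] at h

theorem rat_3_2 : PI.Mem (3 / 2) (PI.rat 3 2) := by
  have h := PI.rat_mem 3 2 (by decide)
  rwa [show ((3 : ℕ) : ℝ) / ((2 : ℕ) : ℝ) = 3 / 2 by norm_num] at h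

theorem rat_8_5 : PI.Mem (8 / 5) (PI.rat 8 5) := by
  have h := PI.rat_mem 8 5 (by decide)
  rwa [show ((8 : ℕ) : ℝ) / ((5 : ℕ) : ℝ) = 8 / 5 by norm_num] at h

theorem rat_7_4 : PI.Mem (7 / 4) (PI.rat 7 4) := by
  have h := PI.rat_mem 7 4 (by decide)
  rwa [show ((7 : ℕ) : ℝ) / ((4 : ℕ) : ℝ) = 7 / 4 by norm_num] at h

theorem rat_2_1 : PI.Mem 2 (PI.rat 2 1) := by
  have h := PI.rat_mem 2 1 (by decide)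
  rwa [show ((2 : ℕ) : ℝ) / ((1 : ℕ) : ℝ) = 2 by norm_num] at h

theorem rat_64_25 : PI.Mem (64 / 25) (PI.rat 64 25) := by
  have h := PI.rat_mem 64 25 (by decide)
  rwa [show ((64 : ℕ) : ℝ) / ((25 : ℕ) : ℝ) = 64 / 25 by norm_num] at h

theorem rat_8_3 : PI.Mem (8 / 3) (PI.rat 8 3) := by
  have h := PI.rat_mem 8 3 (by decide)
  rwa [show ((8 : ℕ) : ℝ) / ((3 : ℕ) : ℝ) = 8 / 3 by norm_num] at h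

theorem rat_3_1 : PI.Mem 3 (PI.rat 3 1) := by
  have h := PI.rat_mem 3 1 (by decide)
  rwa [show ((3 : ℕ) : ℝ) / ((1 : ℕ) : ℝ) = 3 by norm_num] at h

theorem rat_16_5 : PI.Mem (16 / 5) (PI.rat 16 5) := by
  have h := PI.rat_mem 16 5 (by decide)
  rwa [show ((16 : ℕ) : ℝ) / ((5 : ℕ) : ℝ) = 16 / 5 by norm_num] at h

theorem rat_4_1 : PI.Mem 4 (PI.rat 4 1) := by
  have h := PI.rat_mem 4 1 (by decide)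
  rwa [show ((4 : ℕ) : ℝ) / ((1 : ℕ) : ℝ) = 4 by norm_num] at h

theorem rat_24_5 : PI.Mem (24 / 5) (PI.rat 24 5) := by
  have h := PI.rat_mem 24 5 (by decide)
  rwa [show ((24 : ℕ) : ℝ) / ((5 : ℕ) : ℝ) = 24 / 5 by norm_num] at h

theorem rat_5_1 : PI.Mem 5 (PI.rat 5 1) := by
  have h := PI.rat_mem 5 1 (by decide)
  rwa [show ((5 : ℕ) : ℝ) / ((1 : ℕ) : ℝ) = 5 by norm_num] at h

theorem rat_21_4 : PI.Mem (21 / 4) (PI.rat 21 4) := by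
  have h := PI.rat_mem 21 4 (by decide)
  rwa [show ((21 : ℕ) : ℝ) / ((4 : ℕ) : ℝ) = 21 / 4 by norm_num] at h

theorem rat_2500_441 : PI.Mem (2500 / 441) (PI.rat 2500 441) := by
  have h := PI.rat_mem 2500 441 (by decide)
  rwa [show ((2500 : ℕ) : ℝ) / ((441 : ℕ) : ℝ) = 2500 / 441 by norm_num] at h

theorem rat_8_1 : PI.Mem 8 (PI.rat 8 1) := by
  have h := PI.rat_mem 8 1 (by decide)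
  rwa [show ((8 : ℕ) : ℝ) / ((1 : ℕ) : ℝ) = 8 by norm_num] at h

theorem rat_9_1 : PI.Mem 9 (PI.rat 9 1) := by
  have h := PI.rat_mem 9 1 (by decide)
  rwa [show ((9 : ℕ) : ℝ) / ((1 : ℕ) : ℝ) = 9 by norm_num] at h

theorem rat_10_1 : PI.Mem 10 (PI.rat 10 1) := by
  have h := PI.rat_mem 10 1 (by decide)
  rwa [show ((10 : ℕ) : ℝ) / ((1 : ℕ) : ℝ) = 10 by norm_num] at h

theorem rat_16_1 : PI.Mem 16 (PI.rat 16 1) := by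
  have h := PI.rat_mem 16 1 (by decide)
  rwa [show ((16 : ℕ) : ℝ) / ((1 : ℕ) : ℝ) = 16 by norm_num] at h

theorem rat_27_1 : PI.Mem 27 (PI.rat 27 1) := by
  have h := PI.rat_mem 27 1 (by decide)
  rwa [show ((27 : ℕ) : ℝ) / ((1 : ℕ) : ℝ) = 27 by norm_num] at h

theorem rat_64_1 : PI.Mem 64 (PI.rat 64 1) := by
  have h := PI.rat_mem 64 1 (by decide)
  rwa [show ((64 : ℕ) : ℝ) / ((1 : ℕ) : ℝ) = 64 by norm_num] at h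

structure SP.Ok (s : SP) (L : ℝ) : Prop where
  hL : 47 / 10 ≤ L
  sg : PI.Mem (_root_.Pool.Agent.Lib.MP_6cad4c_al.sg L) s.sg
  et : PI.Mem (eta L) s.et

structure CP.Ok (c : CP) (L g : ℝ) : Prop where
  hM : 29 / 10 ≤ L + g
  M : PI.Mem (pM L g) c.M
  u0 : PI.Mem (pu0 g) c.u0
  X0 : PI.Mem (pX0 L g) c.X0

structure CI.Ok (i : CI) (q : Pr) : Prop where
  et : PI.Mem q.et i.et
  ks : PI.Mem q.ks i.ks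
  be : PI.Mem q.be i.be
  sp : PI.Mem q.sp i.sp
  C : PI.Mem q.C i.C
  nCp : PI.Mem q.nCp i.nCp
  S : PI.Mem q.S i.S
  nSp : PI.Mem q.nSp i.nSp
  m : PI.Mem q.m i.m
  mp : SI.Mem q.mp i.mp
  u : PI.Mem q.u i.u
  up : SI.Mem q.up i.up
  V : PI.Mem q.V i.V
  Vp : SI.Mem q.Vp i.Vp
  x : PI.Mem q.x i.x
  vl : PI.Mem q.vl i.vl
  L0 : SI.Mem q.L0 i.L0

structure EI.Ok (e : EI) (ρ : ℝ) (q : Pr) : Prop where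
  h0 : 0 ≤ ρ
  h1 : ρ ≤ 1
  et : 0 ≤ q.et ∧ q.et * 2 ^ 80 ≤ ρ ^ 1 * e.et
  etm : 0 ≤ q.uetm ∧ q.uetm * 2 ^ 80 ≤ ρ ^ 1 * e.etm
  etmu : 0 ≤ q.uetmu ∧ q.uetmu * 2 ^ 80 ≤ ρ ^ 1 * e.etmu
  etV : 0 ≤ q.uetV ∧ q.uetV * 2 ^ 80 ≤ ρ ^ 1 * e.etV
  t1n : 0 ≤ q.t1n ∧ q.t1n * 2 ^ 80 ≤ ρ ^ 1 * e.t1n
  t1pn : 0 ≤ q.t1pn ∧ q.t1pn * 2 ^ 80 ≤ ρ ^ 1 * e.t1pn
  cdp : 0 ≤ q.ucdp ∧ q.ucdp * 2 ^ 80 ≤ ρ ^ 1 * e.cdp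
  cdm : 0 ≤ q.ucdm ∧ q.ucdm * 2 ^ 80 ≤ ρ ^ 1 * e.cdm
  cvp : 0 ≤ q.ucvp ∧ q.ucvp * 2 ^ 80 ≤ ρ ^ 1 * e.cvp
  cvm : 0 ≤ q.ucvm ∧ q.ucvm * 2 ^ 80 ≤ ρ ^ 1 * e.cvm
  Lp : 0 ≤ q.Lp ∧ q.Lp * 2 ^ 80 ≤ ρ ^ 2 * e.Lp
  u : 0 ≤ q.u ∧ q.u * 2 ^ 80 ≤ ρ ^ 0 * e.u
  Up : 0 ≤ q.uUp ∧ q.uUp * 2 ^ 80 ≤ ρ ^ 0 * e.Up
  Mp : 0 ≤ q.Mp ∧ q.Mp * 2 ^ 80 ≤ ρ ^ 0 * e.Mp
  ell : 0 ≤ q.ell ∧ q.ell * 2 ^ 80 ≤ ρ ^ 0 * e.ell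
  rho1 : 0 ≤ q.rho1 ∧ q.rho1 * 2 ^ 80 ≤ ρ ^ 0 * e.rho1
  rho2 : 0 ≤ q.rho2 ∧ q.rho2 * 2 ^ 80 ≤ ρ ^ 0 * e.rho2
  rho3 : 0 ≤ q.rho3 ∧ q.rho3 * 2 ^ 80 ≤ ρ ^ 0 * e.rho3
  S : 0 ≤ q.S ∧ q.S * 2 ^ 80 ≤ ρ ^ 0 * e.S
  nSp : 0 ≤ q.nSp ∧ q.nSp * 2 ^ 80 ≤ ρ ^ 0 * e.nSp
  Vpa : 0 ≤ q.uVpa ∧ q.uVpa * 2 ^ 80 ≤ ρ ^ 0 * e.Vpa
  nCp : 0 ≤ q.nCp ∧ q.nCp * 2 ^ 80 ≤ ρ ^ 0 * e.nCp
  C : 0 ≤ q.C ∧ q.C * 2 ^ 80 ≤ ρ ^ 0 * e.C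
  Lm : 0 ≤ q.Lm ∧ q.Lm * 2 ^ 80 ≤ ρ ^ 0 * e.Lm
  ccp : 0 ≤ q.ccp ∧ q.ccp * 2 ^ 80 ≤ ρ ^ 0 * e.ccp
  cap : 0 ≤ q.ucap ∧ q.ucap * 2 ^ 80 ≤ ρ ^ 0 * e.cap
  cam : 0 ≤ q.ucam ∧ q.ucam * 2 ^ 80 ≤ ρ ^ 0 * e.cam
  cb : 0 ≤ q.cb ∧ q.cb * 2 ^ 80 ≤ ρ ^ 0 * e.cb
  qa : 0 ≤ q.qa ∧ q.qa * 2 ^ 80 ≤ ρ ^ 0 * e.qa

theorem ok_one {x : ℝ} {a : PI} {d : ℕ} (h : PI.Mem x a) : 0 ≤ x ∧ x * 2 ^ 80 ≤ 1 ^ d * (a.hi : ℝ) :=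
  ⟨h.nonneg, by rw [one_pow, one_mul]; exact h.2⟩

theorem ok_zero {x ρ : ℝ} {a : PI} (h : PI.Mem x a) : 0 ≤ x ∧ x * 2 ^ 80 ≤ ρ ^ 0 * (a.hi : ℝ) :=
  ⟨h.nonneg, by rw [pow_zero, one_mul]; exact h.2⟩

theorem lin_ok {q : Pr} (hq : q.Ok) {a b r : ℝ}
    (h : 0 ≤ q.et * Real.sqrt (|a| * |a| + |b| * |b|) ∧
      q.et * Real.sqrt (|a| * |a| + |b| * |b|) * 2 ^ 80 ≤ r) :
    Real.sqrt ((q.et * a) ^ 2 + (q.et * b) ^ 2) * 2 ^ 80 ≤ r := by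
  rw [show (q.et * a) ^ 2 + (q.et * b) ^ 2 = q.et ^ 2 * (|a| * |a| + |b| * |b|) by
    rw [abs_mul_abs_self, abs_mul_abs_self]; ring, Real.sqrt_mul (sq_nonneg _),
    Real.sqrt_sq hq.et.le]
  exact h.2

end Pool.Agent.Lib.MP_6cad4c_al
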