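import Pool.Agent.Lib.MP_6cad4c_al.Model

namespace Pool.Agent.Lib.MP_6cad4c_al

noncomputable def pM (L g : ℝ) : ℝ := L + g

noncomputable def pu0 (g : ℝ) : ℝ := Real.exp (-g)

noncomputable def pX0 (L g : ℝ) : ℝ := Real.exp (-(L + g))

noncomputable def pb2 (L : ℝ) : ℝ := be L * be L

noncomputable def peb (L : ℝ) : ℝ := Real.exp (be L)

noncomputable def pE2 (L : ℝ) : ℝ := Real.exp (2 * be L) - 1

noncomputable def pc2b (_L : ℝ) : ℝ := (16 / 5) * cc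

noncomputable def pS (L : ℝ) : ℝ := 2 * lam L * Real.sinh (be L)

noncomputable def pnSp (L : ℝ) : ℝ := 2 * lam L * (be L * Real.cosh (be L) - Real.sinh (be L))

noncomputable def pcb2 (L : ℝ) : ℝ := (64 / 25) * cc * sg L

noncomputable def pC (L : ℝ) : ℝ := 2 * lam L * (Real.cosh (be L) - 1)

noncomputable def pnCp (L : ℝ) : ℝ := be L * pS L - pC L

noncomputable def pil (L : ℝ) : ℝ := sg L * cc⁻¹

noncomputable def pk0 (L : ℝ) : ℝ := 2 * ks L * (1 + ks L * (1 + ks L))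

noncomputable def peA (L : ℝ) : ℝ := Real.exp (2 * pC L + kk L + be L)

noncomputable def psp (L : ℝ) : ℝ := sg L * peb L

noncomputable def ps2 (L : ℝ) : ℝ := (1 / 12) * psp L * psp L

noncomputable def pr1 (L : ℝ) : ℝ := (1 / 2) * psp L - ps2 L

noncomputable def pr2n (L : ℝ) : ℝ := (1 / 4) + ps2 L - (1 / 4) * psp L

noncomputable def pr3n (L : ℝ) : ℝ := (1 / 9) + ps2 L - (1 / 6) * psp L

noncomputable def pr4n (L : ℝ) : ℝ := (1 / 16) - (1 / 8) * psp L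

noncomputable def ph (L g : ℝ) : ℝ := 1 + pX0 L g * ((3 / 2) + pX0 L g * ((4 / 3) + pX0 L g *
    ((7 / 4) + pX0 L g * ((6 / 5) + pX0 L g * 2))))

noncomputable def ph2 (L g : ℝ) : ℝ := pX0 L g * ((3 / 2) + pX0 L g * ((8 / 3) + pX0 L g * ((21
    / 4) + pX0 L g * ((24 / 5) + pX0 L g * 10))))

noncomputable def pm (L g : ℝ) : ℝ := pM L g * (1 + pE2 L)

noncomputable def pomp (L g : ℝ) : ℝ := 2 * be L * pm L g - pE2 L

noncomputable def pmp (L g : ℝ) : ℝ := 1 - pomp L g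

noncomputable def pebu (L g : ℝ) : ℝ := peb L * pu0 g

noncomputable def pMh (L g : ℝ) : ℝ := pM L g * ph L g

noncomputable def pV (L g : ℝ) : ℝ := pMh L g * pebu L g

noncomputable def pVp (L g : ℝ) : ℝ := pebu L g * (ph L g - pM L g * (ph2 L g + be L * ph L g))

noncomputable def pME (L g : ℝ) : ℝ := pM L g * pE2 L

noncomputable def pex (L g : ℝ) : ℝ := Real.exp (-(be L + pME L g))

noncomputable def pu (L g : ℝ) : ℝ := pu0 g * pex L g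

noncomputable def pup (L g : ℝ) : ℝ := pu L g * (be L + pomp L g)

noncomputable def px (L g : ℝ) : ℝ := pX0 L g * pex L g * peb L

noncomputable def pRs (L g : ℝ) : ℝ := pr1 L - px L g * (pr2n L + px L g * (pr3n L + px L g *
    (pr4n L + (1 / 25) * px L g)))

noncomputable def pRa (L g : ℝ) : ℝ := pr1 L - px L g * (2 * pr2n L + px L g * (3 * pr3n L + px
    L g * (4 * pr4n L + (1 / 5) * px L g)))

noncomputable def pRe (L g : ℝ) : ℝ := px L g * ((1 / 4) + px L g * ((1 / 9) + px L g * ((1 /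
    16) + (1 / 25) * px L g)) - ps2 L * (1 + px L g)) - ps2 L

noncomputable def pnR0p (L g : ℝ) : ℝ := pu L g * ((1 + be L) * pRe L g + pmp L g * pRa L g)

noncomputable def pBz (L g : ℝ) : ℝ := pME L g + pV L g + pu L g * (1 - pRs L g)

noncomputable def pw (L g : ℝ) : ℝ := pu0 g * peA L * Real.exp (-(pBz L g))

noncomputable def pL0 (L g : ℝ) : ℝ := pomp L g - (2 * pnCp L + pk0 L + be L) - pVp L g - pup L
    g - pnR0p L g

noncomputable def pvl (L g : ℝ) : ℝ := pMh L g * peb L * pX0 L g * cc⁻¹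

/-- the parameters of the kernel (`nCp = -C'`, `nSp = -S'`, `mp = m'`, `up = u'`, `Vp = V'`) -/
structure Pr where
  la : ℝ
  et : ℝ
  ks : ℝ
  be : ℝ
  sp : ℝ
  C : ℝ
  nCp : ℝ
  S : ℝ
  nSp : ℝ
  m : ℝ
  mp : ℝ
  u : ℝ
  up : ℝ
  V : ℝ
  Vp : ℝ
  x : ℝ
  vl : ℝ
  L0 : ℝ

structure Pr.Ok (q : Pr) : Prop where
  la : 0 < q.la
  et : 0 < q.et
  ks : q.ks = q.et ^ 2
  laks : 2 * q.la * q.ks = 1
  ks' : q.ks ≤ 277 / 100000
  be : 0 ≤ q.be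
  sp : 0 ≤ q.sp
  sp' : q.sp ≤ 1 / 100
  C : 0 ≤ q.C
  nCp : 0 ≤ q.nCp
  S : 0 ≤ q.S
  nSp : 0 ≤ q.nSp
  m : 287 / 100 ≤ q.m
  u : 0 ≤ q.u
  V : 0 ≤ q.V
  x : q.x = Real.exp (-q.m)
  ux : q.u * cc ≤ q.la * q.x
  vl : q.V = q.vl * q.la

noncomputable def mkPr (L g : ℝ) : Pr where
  la := lam L
  et := eta L
  ks := ks L
  be := be L
  sp := psp L
  C := pC L
  nCp := pnCp L
  S := pS L
  nSp := pnSp L
  m := pm L g
  mp := pmp L g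
  u := pu L g
  up := pup L g
  V := pV L g
  Vp := pVp L g
  x := px L g
  vl := pvl L g
  L0 := pL0 L g

namespace Pr

noncomputable def mu (q : Pr) : ℝ := q.mp - (1 / 2) * q.m

noncomputable def Sm (q : Pr) : ℝ := q.S - q.m

noncomputable def um (q : Pr) : ℝ := q.u * q.m

noncomputable def th1 (q : Pr) : ℝ := (1 / 2) + q.V - q.um - q.Sm

noncomputable def th2 (q : Pr) : ℝ := q.Sm + ((3 / 2) + q.um + q.u)

noncomputable def w1 (q : Pr) : ℝ := -(q.mu + (q.nSp + (1 / 2) * q.S))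

noncomputable def z1 (q : Pr) : ℝ := q.m * q.up + q.u * q.mu

noncomputable def tp1 (q : Pr) : ℝ := q.Vp - ((1 / 4) + (1 / 2) * q.V) - (q.w1 + q.z1)

noncomputable def tp2 (q : Pr) : ℝ := q.w1 + q.z1 + q.up - ((3 / 4) + (1 / 2) * q.u)

noncomputable def cd (q : Pr) : ℝ := (q.mp - q.m) * (1 - q.u) - q.m * q.up

noncomputable def ccp (q : Pr) : ℝ := q.C + q.nCp

noncomputable def cv (q : Pr) : ℝ := q.Vp - q.V

noncomputable def A2 (q : Pr) : ℝ := q.m * q.m + (q.m + 1) * (q.m + 1)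

noncomputable def trQ (q : Pr) : ℝ := q.cd + q.ccp + (1 / 2) * q.cv + (1 / 2) * q.A2 * q.up +
    q.u * (q.m * q.mu + (q.m + 1) * (q.mu - (1 / 2)))

noncomputable def Lm (q : Pr) : ℝ := max (-q.L0) 0

noncomputable def Lp (q : Pr) : ℝ := max q.L0 0

noncomputable def ath1 (q : Pr) : ℝ := |q.th1|

noncomputable def ath2 (q : Pr) : ℝ := |q.th2|

noncomputable def t2 (q : Pr) : ℝ := q.ath1 * q.ath1 + q.ath2 * q.ath2

noncomputable def quad (q : Pr) : ℝ := (1 / 2) * q.Lm * q.t2 + q.trQ - (q.th1 * q.tp1 + q.th2 *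
    q.tp2)

noncomputable def main (q : Pr) : ℝ := q.L0 + q.ks * q.quad

noncomputable def aerr (q : Pr) : ℝ := 10 * q.ks * q.ks * (|q.L0| + q.ks * |q.quad|)

noncomputable def atp1 (q : Pr) : ℝ := |q.tp1|

noncomputable def atp2 (q : Pr) : ℝ := |q.tp2|

noncomputable def t1n (q : Pr) : ℝ := q.et * Real.sqrt q.t2

noncomputable def t1pn (q : Pr) : ℝ := q.et * Real.sqrt (q.atp1 * q.atp1 + q.atp2 * q.atp2)

noncomputable def Mp (q : Pr) : ℝ := |q.mp|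

noncomputable def ell (q : Pr) : ℝ := 1 + q.be + q.Mp

noncomputable def xb (q : Pr) : ℝ := Real.exp (-((809 / 1250) * q.m))

noncomputable def s2q (q : Pr) : ℝ := (1 / 12) * q.sp * q.sp

noncomputable def k1 (q : Pr) : ℝ := (1 / 2) * q.sp + q.s2q

noncomputable def k2 (q : Pr) : ℝ := (1 / 4) + (1 / 4) * q.sp + q.s2q

noncomputable def k3 (q : Pr) : ℝ := (1 / 9) + (1 / 6) * q.sp + q.s2q

noncomputable def k4 (q : Pr) : ℝ := (1 / 16) + (1 / 8) * q.sp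

noncomputable def rho1 (q : Pr) : ℝ := q.k1 + q.xb * (2 * q.k2 + q.xb * (3 * q.k3 + q.xb * (4 *
    q.k4 + (1 / 5) * q.xb)))

noncomputable def rho2 (q : Pr) : ℝ := q.k1 + q.xb * (4 * q.k2 + q.xb * (9 * q.k3 + q.xb * (16 *
    q.k4 + q.xb)))

noncomputable def rho3 (q : Pr) : ℝ := q.k1 + q.xb * (8 * q.k2 + q.xb * (27 * q.k3 + q.xb * (64
    * q.k4 + 5 * q.xb)))

noncomputable def im (q : Pr) : ℝ := q.m⁻¹

noncomputable def ca (q : Pr) : ℝ := (1 / 2) * q.up + q.u * (q.im * q.mu)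

noncomputable def cb (q : Pr) : ℝ := q.u * q.Mp * q.im

noncomputable def e4 (q : Pr) : ℝ := Real.exp (4 * q.m * q.A2⁻¹)

noncomputable def xAe (q : Pr) : ℝ := q.x * q.A2 * q.e4

noncomputable def xr (q : Pr) : ℝ := (2500 / 441) * q.xb

noncomputable def rn (q : Pr) : ℝ := 1 + q.s2q + q.xb * q.xb * (1 + 9 * q.s2q + q.xb * (1 +
    q.xb))

noncomputable def qB (q : Pr) : ℝ := cc⁻¹ * (q.rn * max ((1 / 2) * q.xAe) q.xr + ((1 / 4) +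
    q.s2q) * max (2 * q.x * q.xAe) (q.xr * q.xb) + q.xb * q.m * ((1 / 2) * q.sp * (1 + q.xb * (1
    + q.xb * (1 + q.xb)))))

noncomputable def qg (q : Pr) : ℝ := 2 * q.ks * q.m

noncomputable def qa (q : Pr) : ℝ := (147 / 10000) + q.qg + (1 / 2) * q.vl + q.qB

noncomputable def uetm (q : Pr) : ℝ := q.et * q.m

noncomputable def uetmu (q : Pr) : ℝ := q.et * |q.mu|

noncomputable def uetV (q : Pr) : ℝ := q.et * q.V

noncomputable def ucdp (q : Pr) : ℝ := q.et * max q.cd 0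

noncomputable def ucdm (q : Pr) : ℝ := q.et * max (-q.cd) 0

noncomputable def ucvp (q : Pr) : ℝ := q.et * max q.cv 0

noncomputable def ucvm (q : Pr) : ℝ := q.et * max (-q.cv) 0

noncomputable def uUp (q : Pr) : ℝ := |q.up|

noncomputable def uVpa (q : Pr) : ℝ := |q.Vp|

noncomputable def ucap (q : Pr) : ℝ := max q.ca 0

noncomputable def ucam (q : Pr) : ℝ := max (-q.ca) 0

end Pr

/-- sum over the monomials `κ y ^ (a + 1) s ^ (e - 1)` of `-gB` other than `-y / s` -/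
noncomputable def msum (f : ℝ → ℕ → ℕ → ℝ) : ℝ :=
  f (1 / 2) 0 1 + f (-(1 / 12)) 0 2 + f (-(1 / 4)) 1 0 + f (1 / 4) 1 1 + f (-(1 / 12)) 1 2 +
    f (-(1 / 9)) 2 0 + f (1 / 6) 2 1 + f (-(1 / 12)) 2 2 + f (-(1 / 16)) 3 0 + f (1 / 8) 3 1 +
    f (-(1 / 25)) 4 0

noncomputable def kt (q : Pr) (κ : ℝ) (a e : ℕ) : ℝ := κ * q.u * q.sp ^ e * q.x ^ a

noncomputable def ktD (q : Pr) (κ : ℝ) (a e : ℕ) : ℝ :=
  kt q κ a e * (-((a + 1) * q.mp) - (e - 1) * (1 + q.be))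

noncomputable def eo (q : Pr) (φ₁ φ₂ : ℝ) : ℝ := q.m * (1 - Real.cos (φ₂ - φ₁))

noncomputable def eoD (q : Pr) (φ₁ φ₂ : ℝ) : ℝ :=
  q.mp * (1 - Real.cos (φ₂ - φ₁)) - q.m / 2 * ((φ₂ - φ₁) * Real.sin (φ₂ - φ₁))

noncomputable def vt (q : Pr) (φ₁ φ₂ : ℝ) : ℝ := q.m * Real.sin (φ₂ - φ₁)

noncomputable def vtD (q : Pr) (φ₁ φ₂ : ℝ) : ℝ :=
  q.mp * Real.sin (φ₂ - φ₁) - q.m / 2 * ((φ₂ - φ₁) * Real.cos (φ₂ - φ₁))

noncomputable def gg (q : Pr) (φ₁ φ₂ : ℝ) : ℝ := Real.exp (eo q φ₁ φ₂)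

noncomputable def al (q : Pr) (φ₁ φ₂ : ℝ) : ℝ := vt q φ₁ φ₂ + φ₂

noncomputable def alD (q : Pr) (φ₁ φ₂ : ℝ) : ℝ := vtD q φ₁ φ₂ - φ₂ / 2

noncomputable def omg (q : Pr) (φ₁ φ₂ : ℝ) (a e : ℕ) : ℝ := (a + 1) * vt q φ₁ φ₂ - (e - 1) * φ₂

noncomputable def omgD (q : Pr) (φ₁ φ₂ : ℝ) (a e : ℕ) : ℝ :=
  (a + 1) * vtD q φ₁ φ₂ + (e - 1) * φ₂ / 2

noncomputable def gam (q : Pr) (φ : ℝ) : ℝ := 2 * q.la * (Real.cos φ - 1) + q.la * φ ^ 2

noncomputable def gamD (q : Pr) (φ : ℝ) : ℝ :=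
  2 * q.la * (Real.cos φ - 1) + q.la * (φ * Real.sin φ)

noncomputable def aB (q : Pr) (φ₁ φ₂ : ℝ) : ℝ :=
  eo q φ₁ φ₂ + q.u * (1 - gg q φ₁ φ₂ * Real.cos (al q φ₁ φ₂)) +
    msum fun κ a e => kt q κ a e * (gg q φ₁ φ₂ ^ (a + 1) * Real.cos (omg q φ₁ φ₂ a e) - 1)

noncomputable def thB (q : Pr) (φ₁ φ₂ : ℝ) : ℝ :=
  -vt q φ₁ φ₂ + q.u * (gg q φ₁ φ₂ * Real.sin (al q φ₁ φ₂)) -
    msum fun κ a e => kt q κ a e * (gg q φ₁ φ₂ ^ (a + 1) * Real.sin (omg q φ₁ φ₂ a e))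

noncomputable def aBD (q : Pr) (φ₁ φ₂ : ℝ) : ℝ :=
  eoD q φ₁ φ₂ + q.up * (1 - gg q φ₁ φ₂ * Real.cos (al q φ₁ φ₂)) +
    q.u * (gg q φ₁ φ₂ * (Real.sin (al q φ₁ φ₂) * alD q φ₁ φ₂ - eoD q φ₁ φ₂ * Real.cos (al q φ₁ φ₂))) +
    msum fun κ a e => ktD q κ a e * (gg q φ₁ φ₂ ^ (a + 1) * Real.cos (omg q φ₁ φ₂ a e) - 1) +
      kt q κ a e * (gg q φ₁ φ₂ ^ (a + 1) * ((a + 1) * eoD q φ₁ φ₂ * Real.cos (omg q φ₁ φ₂ a e) -
        Real.sin (omg q φ₁ φ₂ a e) * omgD q φ₁ φ₂ a e))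

noncomputable def thBD (q : Pr) (φ₁ φ₂ : ℝ) : ℝ :=
  -vtD q φ₁ φ₂ + q.up * (gg q φ₁ φ₂ * Real.sin (al q φ₁ φ₂)) +
    q.u * (gg q φ₁ φ₂ * (eoD q φ₁ φ₂ * Real.sin (al q φ₁ φ₂) + Real.cos (al q φ₁ φ₂) * alD q φ₁ φ₂)) -
    msum fun κ a e => ktD q κ a e * (gg q φ₁ φ₂ ^ (a + 1) * Real.sin (omg q φ₁ φ₂ a e)) +
      kt q κ a e * (gg q φ₁ φ₂ ^ (a + 1) * ((a + 1) * eoD q φ₁ φ₂ * Real.sin (omg q φ₁ φ₂ a e) +
        Real.cos (omg q φ₁ φ₂ a e) * omgD q φ₁ φ₂ a e))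

noncomputable def aF (q : Pr) (φ₁ φ₂ : ℝ) : ℝ :=
  gam q φ₁ + gam q φ₂ - q.C * (2 - Real.cos φ₁ - Real.cos φ₂) + q.V * (1 - Real.cos φ₁) + aB q φ₁ φ₂

noncomputable def thF (q : Pr) (φ₁ φ₂ : ℝ) : ℝ :=
  q.S * (Real.sin φ₂ - Real.sin φ₁) + φ₁ / 2 + 3 * φ₂ / 2 + q.V * Real.sin φ₁ + thB q φ₁ φ₂

noncomputable def aD (q : Pr) (φ₁ φ₂ : ℝ) : ℝ :=
  gamD q φ₁ + gamD q φ₂ + q.nCp * (2 - Real.cos φ₁ - Real.cos φ₂) +
    q.C / 2 * (φ₁ * Real.sin φ₁ + φ₂ * Real.sin φ₂) + q.Vp * (1 - Real.cos φ₁) -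
    q.V / 2 * (φ₁ * Real.sin φ₁) + aBD q φ₁ φ₂

noncomputable def thD (q : Pr) (φ₁ φ₂ : ℝ) : ℝ :=
  -(q.nSp * (Real.sin φ₂ - Real.sin φ₁)) - q.S / 2 * (φ₂ * Real.cos φ₂ - φ₁ * Real.cos φ₁) -
    φ₁ / 4 - 3 * φ₂ / 4 + q.Vp * Real.sin φ₁ - q.V / 2 * (φ₁ * Real.cos φ₁) + thBD q φ₁ φ₂

/-- linear part of `thF` -/
noncomputable def th1F (q : Pr) (φ₁ φ₂ : ℝ) : ℝ := q.th1 * φ₁ + q.th2 * φ₂

/-- linear part of `thD` -/
noncomputable def tp1F (q : Pr) (φ₁ φ₂ : ℝ) : ℝ := q.tp1 * φ₁ + q.tp2 * φ₂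

/-- quadratic part of `aD` -/
noncomputable def Q2F (q : Pr) (φ₁ φ₂ : ℝ) : ℝ :=
  q.ccp / 2 * (φ₁ ^ 2 + φ₂ ^ 2) + q.cd / 2 * (φ₂ - φ₁) ^ 2 + q.cv / 2 * φ₁ ^ 2 +
    q.up / 2 * (q.m * (φ₂ - φ₁) + φ₂) ^ 2 +
    q.u * ((q.m * (φ₂ - φ₁) + φ₂) * (q.mu * (φ₂ - φ₁) - φ₂ / 2))

noncomputable def P0F (q : Pr) (φ₁ φ₂ : ℝ) : ℝ :=
  q.L0 + q.Lm / 2 * th1F q φ₁ φ₂ ^ 2 + Q2F q φ₁ φ₂ - th1F q φ₁ φ₂ * tp1F q φ₁ φ₂

noncomputable def PF (q : Pr) (φ₁ φ₂ : ℝ) : ℝ :=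
  Real.exp (aF q φ₁ φ₂) *
    ((q.L0 + aD q φ₁ φ₂) * Real.cos (thF q φ₁ φ₂) - thD q φ₁ φ₂ * Real.sin (thF q φ₁ φ₂))

noncomputable def eX1 (_q : Pr) (x _y : ℝ) : ℝ := |x|

noncomputable def eX2 (_q : Pr) (_x y : ℝ) : ℝ := |y|

noncomputable def edX (_q : Pr) (x y : ℝ) : ℝ := |y - x|

noncomputable def eG (q : Pr) (x y : ℝ) : ℝ := gg q (q.et * x) (q.et * y)

noncomputable def et1 (q : Pr) (x y : ℝ) : ℝ := |q.et * q.th1 * x + q.et * q.th2 * y|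

noncomputable def et1p (q : Pr) (x y : ℝ) : ℝ := |q.et * q.tp1 * x + q.et * q.tp2 * y|

noncomputable def ep1 (q : Pr) (x y : ℝ) : ℝ := q.et * eX1 q x y

noncomputable def ep2 (q : Pr) (x y : ℝ) : ℝ := q.et * eX2 q x y

noncomputable def ed (q : Pr) (x y : ℝ) : ℝ := q.et * edX q x y

noncomputable def emd (q : Pr) (x y : ℝ) : ℝ := q.uetm * edX q x y

noncomputable def evp (q : Pr) (x y : ℝ) : ℝ := q.uetV * eX1 q x y

noncomputable def eA (q : Pr) (x y : ℝ) : ℝ := emd q x y + ep2 q x y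

noncomputable def eAA (q : Pr) (x y : ℝ) : ℝ := eA q x y * eA q x y

noncomputable def edd (q : Pr) (x y : ℝ) : ℝ := ed q x y * ed q x y

noncomputable def emdd (q : Pr) (x y : ℝ) : ℝ := emd q x y * ed q x y

noncomputable def eMpd (q : Pr) (x y : ℝ) : ℝ := q.Mp * ed q x y

noncomputable def en3 (q : Pr) (x y : ℝ) : ℝ := ((1 / 6) * eMpd q x y + (1 / 4) * emd q x y) *
    edd q x y

noncomputable def ee1 (q : Pr) (x y : ℝ) : ℝ := (1 / 2) * emdd q x y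

noncomputable def ee1p (q : Pr) (x y : ℝ) : ℝ := (1 / 2) * ((emd q x y + eMpd q x y) * ed q x y)

noncomputable def egm1 (q : Pr) (x y : ℝ) : ℝ := ee1 q x y * eG q x y

noncomputable def emd3 (q : Pr) (x y : ℝ) : ℝ := (1 / 6) * (emdd q x y * ed q x y)

noncomputable def eapp (q : Pr) (x y : ℝ) : ℝ := q.uetmu * edX q x y + (1 / 2) * ep2 q x y + en3
    q x y

noncomputable def eq1 (q : Pr) (x y : ℝ) : ℝ := ep1 q x y * ep1 q x y

noncomputable def eq2 (q : Pr) (x y : ℝ) : ℝ := ep2 q x y * ep2 q x y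

noncomputable def er2 (q : Pr) (x y : ℝ) : ℝ := eq1 q x y + eq2 q x y

noncomputable def ec3 (q : Pr) (x y : ℝ) : ℝ := eq1 q x y * ep1 q x y + eq2 q x y * ep2 q x y

noncomputable def ec4 (q : Pr) (x y : ℝ) : ℝ := eq1 q x y * eq1 q x y + eq2 q x y * eq2 q x y

noncomputable def elc4 (q : Pr) (x y : ℝ) : ℝ := (1 / 24) * (eX1 q x y * eX1 q x y * eq1 q x y +
    eX2 q x y * eX2 q x y * eq2 q x y)

noncomputable def esa (q : Pr) (x y : ℝ) : ℝ := egm1 q x y * eA q x y + (1 / 6) * (eAA q x y *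
    eA q x y) + emd3 q x y

noncomputable def eug (q : Pr) (x y : ℝ) : ℝ := q.u * eG q x y

noncomputable def eeh (q : Pr) (x y : ℝ) : ℝ := ee1 q x y + (1 / 2) * eAA q x y

noncomputable def eT3 (q : Pr) (x y : ℝ) : ℝ := (1 / 6) * (q.S * ec3 q x y) + emd3 q x y + (1 /
    6) * (evp q x y * eq1 q x y) + q.u * esa q x y + q.rho1 * (eug q x y * eA q x y)

noncomputable def eD3 (q : Pr) (x y : ℝ) : ℝ := (1 / 6) * (q.nSp * ec3 q x y) + (1 / 4) * (q.S *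
    ec3 q x y) + en3 q x y + ((1 / 6) * (q.uVpa * ep1 q x y) + (1 / 4) * evp q x y) * eq1 q x y
    + q.uUp * esa q x y + q.u * ((egm1 q x y + (1 / 2) * eAA q x y) * eapp q x y + en3 q x y) +
    eug q x y * (ee1p q x y * eA q x y + q.rho2 * (q.ell * eA q x y + ee1p q x y * eA q x y) +
    q.rho1 * eapp q x y)

noncomputable def en4 (q : Pr) (x y : ℝ) : ℝ := ((1 / 24) * eMpd q x y + (1 / 12) * emd q x y) *
    (edd q x y * ed q x y)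

noncomputable def eD4 (q : Pr) (x y : ℝ) : ℝ := (1 / 24) * (q.nCp * ec4 q x y) + (1 / 12) * (q.C
    * ec4 q x y) + en4 q x y + ((1 / 24) * (q.uVpa * ep1 q x y) + (1 / 12) * evp q x y) * (eq1 q
    x y * ep1 q x y) + q.uUp * ((1 / 24) * (eAA q x y * eAA q x y) + emd3 q x y * eA q x y + (1
    / 4) * (emd3 q x y * ed q x y) + (1 / 2) * (egm1 q x y * (ee1 q x y + eAA q x y))) + q.u *
    (eapp q x y * esa q x y + en3 q x y * eA q x y + (egm1 q x y + (1 / 2) * eAA q x y) * ee1p q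
    x y + en4 q x y) + eug q x y * (q.rho3 * (q.ell * eeh q x y) + q.rho1 * ee1p q x y + q.rho2
    * (eA q x y * eapp q x y))

noncomputable def ecbt (q : Pr) (x y : ℝ) : ℝ := q.cb * (eA q x y * ep2 q x y)

noncomputable def eQp (q : Pr) (x y : ℝ) : ℝ := (1 / 2) * (q.ccp * er2 q x y + q.ucdp * edX q x
    y * ed q x y + q.ucvp * eX1 q x y * ep1 q x y) + q.ucap * eAA q x y + ecbt q x y

noncomputable def eQm (q : Pr) (x y : ℝ) : ℝ := (1 / 2) * (q.ucdm * edX q x y * ed q x y +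
    q.ucvm * eX1 q x y * ep1 q x y) + q.ucam * eAA q x y + ecbt q x y

noncomputable def eD2 (q : Pr) (x y : ℝ) : ℝ := eD4 q x y + eQp q x y + eQm q x y + elc4 q x y

noncomputable def eTh (q : Pr) (x y : ℝ) : ℝ := eT3 q x y + et1 q x y

noncomputable def eDb (q : Pr) (x y : ℝ) : ℝ := eD3 q x y + et1p q x y

noncomputable def eTh2 (q : Pr) (x y : ℝ) : ℝ := eTh q x y * eTh q x y

noncomputable def ett (q : Pr) (x y : ℝ) : ℝ := et1 q x y * et1p q x y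

noncomputable def ePe (q : Pr) (x y : ℝ) : ℝ := (1 / 2) * (q.Lm * (eT3 q x y * (eTh q x y + et1
    q x y))) + eD4 q x y + (1 / 2) * (eD2 q x y * eTh2 q x y) + et1p q x y * eT3 q x y + eD3 q x
    y * eTh q x y + (1 / 6) * (eDb q x y * eTh q x y * eTh2 q x y)

noncomputable def eam (q : Pr) (x y : ℝ) : ℝ := (1 / 2) * (q.C * er2 q x y) + q.u * egm1 q x y +
    q.rho2 * (eug q x y * eeh q x y)

noncomputable def eQQ (q : Pr) (x y : ℝ) : ℝ := q.Lp + (1 / 2) * (q.Lm * (et1 q x y * et1 q x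
    y)) + eQp q x y + ett q x y

noncomputable def eY (q : Pr) (x y : ℝ) : ℝ := (1 / 2) * (eX1 q x y * eX1 q x y + eX2 q x y *
    eX2 q x y)

noncomputable def eEtot (q : Pr) (x y : ℝ) : ℝ := ePe q x y + q.qa * (eY q x y * eQQ q x y) +
    eam q x y * (q.Lm + eQm q x y + ett q x y)

/-- the rotated kernel -/
noncomputable def Kr (L g x y : ℝ) : ℝ :=
  pw L g * (Real.exp (-((x ^ 2 + y ^ 2) / 2)) / (2 * Real.pi) *
    (Real.exp (aF (mkPr L g) (eta L * x) (eta L * y)) *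
      Real.cos (thF (mkPr L g) (eta L * x) (eta L * y))))

/-- its derivative with respect to `L` -/
noncomputable def dKr (L g x y : ℝ) : ℝ :=
  pw L g * (Real.exp (-((x ^ 2 + y ^ 2) / 2)) / (2 * Real.pi) *
    PF (mkPr L g) (eta L * x) (eta L * y))

noncomputable def zh (L g₀ g₁ B : ℝ) : ℝ := ∫ g in g₀..g₁, ∫ x in -B..B, ∫ y in -B..B, Kr L g x y

noncomputable def DD (L B g : ℝ) : ℝ := ∫ x in -B..B, ∫ y in -B..B, dKr L g x y

end Pool.Agent.Lib.MP_6cad4c_al
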