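import Pool.Agent.Lib.MP_6cad4c_al.Arc

namespace Pool.Agent.Lib.MP_6cad4c_al

open Complex

theorem pnEst_exp_le {a s : ℝ} (ha : 0 < a) (hs : 0 < s) (hs' : s ≤ 91 / 10000) (j m : ℕ) :
    Real.exp (-a / s) ≤ ((j + m).factorial : ℝ) / a ^ (j + m) * (91 / 10000) ^ j * s ^ m := by
  have h1 := Real.pow_div_factorial_le_exp (a / s) (by positivity) (j + m)
  have hf : (0 : ℝ) < ((j + m).factorial : ℝ) := by exact_mod_cast Nat.factorial_pos _
  have h2 : Real.exp (-a / s) ≤ ((j + m).factorial : ℝ) / a ^ (j + m) * s ^ (j + m) := by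
    rw [neg_div, Real.exp_neg]
    have h3 : ((j + m).factorial : ℝ) / a ^ (j + m) * s ^ (j + m) =
        ((a / s) ^ (j + m) / ((j + m).factorial : ℝ))⁻¹ := by
      rw [div_pow]
      field_simp
    rw [h3]
    exact inv_anti₀ (by positivity) h1
  refine h2.trans ?_
  rw [pow_add s, mul_assoc]
  gcongr

theorem pnEst_re_om (L φ : ℝ) :
    (om L 0 φ).re = Real.exp (-(4 * lam L) * Real.sin (φ / 2) ^ 2) *
      (1 - 4 * Real.sin (φ / 2) ^ 2) * Real.cos (φ / 2) := by
  have h1 : Real.cos φ = 1 - 2 * Real.sin (φ / 2) ^ 2 := by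
    conv_lhs => rw [show φ = 2 * (φ / 2) by ring, Real.cos_two_mul, Real.cos_sq']
    ring
  have h2 : Real.cos (3 / 2 * φ) = (1 - 4 * Real.sin (φ / 2) ^ 2) * Real.cos (φ / 2) := by
    rw [show 3 / 2 * φ = 3 * (φ / 2) by ring, Real.cos_three_mul, Real.sin_sq]
    ring
  have hre : ((lam L : ℂ) * (exp (((0 : ℝ) : ℂ) + φ * I) + exp (-(((0 : ℝ) : ℂ) + φ * I)) - 2) +
      3 / 2 * (((0 : ℝ) : ℂ) + φ * I)).re = -(4 * lam L) * Real.sin (φ / 2) ^ 2 := by
    simp [exp_re, exp_im]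
    rw [h1]
    ring
  have him : ((lam L : ℂ) * (exp (((0 : ℝ) : ℂ) + φ * I) + exp (-(((0 : ℝ) : ℂ) + φ * I)) - 2) +
      3 / 2 * (((0 : ℝ) : ℂ) + φ * I)).im = 3 / 2 * φ := by
    simp [exp_re, exp_im]
  unfold om
  rw [exp_re, hre, him, h2]
  ring

theorem pnEst_integral (L Φ : ℝ) :
    ∫ φ in -Φ..Φ, (om L 0 φ).re =
      2 * (1 - ks L) * (∫ u in -Real.sin (Φ / 2)..Real.sin (Φ / 2), Real.exp (-(4 * lam L) * u ^ 2))
        + 4 * ks L * Real.sin (Φ / 2) * Real.exp (-(4 * lam L) * Real.sin (Φ / 2) ^ 2) := by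
  have hk := lam_mul_ks L
  set g : ℝ → ℝ := fun u => Real.exp (-(4 * lam L) * u ^ 2) with hg
  have hgc : Continuous g := by rw [hg]; fun_prop
  let G : ℝ → ℝ := fun x => ∫ u in (0 : ℝ)..x, g u
  have hG : ∀ x, HasDerivAt G (g x) x := fun x => (hgc.integral_hasStrictDerivAt 0 x).hasDerivAt
  have hs : ∀ φ : ℝ, HasDerivAt (fun φ : ℝ => Real.sin (φ / 2)) (Real.cos (φ / 2) * (1 / 2)) φ :=
    fun φ => ((hasDerivAt_id φ).div_const 2).sin
  have hg' : ∀ x, HasDerivAt g (g x * (-(4 * lam L) * (2 * x))) x := by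
    intro x
    have h1 : HasDerivAt (fun u : ℝ => -(4 * lam L) * u ^ 2) (-(4 * lam L) * (2 * x)) x := by
      simpa using (hasDerivAt_pow 2 x).const_mul (-(4 * lam L))
    exact h1.exp
  let F : ℝ → ℝ := fun φ => 2 * ((1 - ks L) * G (Real.sin (φ / 2)) +
    ks L * (Real.sin (φ / 2) * g (Real.sin (φ / 2))))
  have hF : ∀ φ, HasDerivAt F ((om L 0 φ).re) φ := by
    intro φ
    have h1 := ((((hG _).comp φ (hs φ)).const_mul (1 - ks L)).add
      (((hs φ).mul ((hg' _).comp φ (hs φ))).const_mul (ks L))).const_mul 2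
    refine h1.congr_deriv ?_
    rw [pnEst_re_om]
    simp only [Function.comp, hg]
    linear_combination (-4 * Real.sin (φ / 2) ^ 2 * Real.cos (φ / 2) *
      Real.exp (-(4 * lam L) * Real.sin (φ / 2) ^ 2)) * hk
  have hc : Continuous fun φ : ℝ => (om L 0 φ).re := by
    simp only [pnEst_re_om]
    fun_prop
  rw [intervalIntegral.integral_eq_sub_of_hasDerivAt (fun φ _ => hF φ) (hc.intervalIntegrable _ _)]
  have h2 : G (Real.sin (Φ / 2)) - G (-Real.sin (Φ / 2)) =
      ∫ u in -Real.sin (Φ / 2)..Real.sin (Φ / 2), g u :=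
    intervalIntegral.integral_interval_sub_left (hgc.intervalIntegrable _ _)
      (hgc.intervalIntegrable _ _)
  simp only [F, neg_div, Real.sin_neg]
  rw [← h2]
  simp only [hg, neg_sq]
  ring

theorem pnEst_gauss {l x : ℝ} (hl : 0 < l) (hx : 0 ≤ x) :
    |2 * (∫ u in -x..x, Real.exp (-(4 * l) * u ^ 2)) - Real.sqrt (Real.pi / l)| ≤
      4 * Real.exp (-(15 / 4 * l * x ^ 2)) * Real.sqrt (Real.pi / l) := by
  set P := Real.sqrt (Real.pi / l) with hP
  have hP0 : 0 ≤ P := Real.sqrt_nonneg _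
  have hPP : P ^ 2 = Real.pi / l := Real.sq_sqrt (by have := Real.pi_pos; positivity)
  have hi1 := integrable_exp_neg_mul_sq (b := 4 * l) (by positivity)
  have hi2 := integrable_exp_neg_mul_sq (b := l / 4) (by positivity)
  have e1 : ∫ u : ℝ, Real.exp (-(4 * l) * u ^ 2) = P / 2 := by
    rw [integral_gaussian, Real.sqrt_eq_iff_mul_self_eq (by have := Real.pi_pos; positivity)
      (by positivity)]
    rw [show P / 2 * (P / 2) = P ^ 2 / 4 by ring, hPP]
    field_simp
  have e2 : ∫ u : ℝ, Real.exp (-(l / 4) * u ^ 2) = 2 * P := by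
    rw [integral_gaussian, Real.sqrt_eq_iff_mul_self_eq (by have := Real.pi_pos; positivity)
      (by positivity)]
    rw [show 2 * P * (2 * P) = P ^ 2 * 4 by ring, hPP]
    field_simp
  rw [intervalIntegral.integral_of_le (by linarith)]
  have e3 := MeasureTheory.integral_add_compl (s := Set.Ioc (-x) x) measurableSet_Ioc hi1
  set K := Real.exp (-(15 / 4 * l * x ^ 2)) with hK
  have hK0 : 0 < K := Real.exp_pos _
  have t0 : 0 ≤ ∫ u in (Set.Ioc (-x) x)ᶜ, Real.exp (-(4 * l) * u ^ 2) :=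
    MeasureTheory.integral_nonneg fun u => (Real.exp_pos _).le
  have t1 : ∫ u in (Set.Ioc (-x) x)ᶜ, Real.exp (-(4 * l) * u ^ 2) ≤
      ∫ u in (Set.Ioc (-x) x)ᶜ, K * Real.exp (-(l / 4) * u ^ 2) := by
    apply MeasureTheory.setIntegral_mono_on hi1.integrableOn (hi2.const_mul K).integrableOn
      measurableSet_Ioc.compl
    intro u hu
    have hu2 : x ^ 2 ≤ u ^ 2 := by
      simp only [Set.mem_compl_iff, Set.mem_Ioc, not_and_or, not_lt, not_le] at hu
      rcases hu with hu | hu <;> nlinarith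
    rw [hK, ← Real.exp_add]
    apply Real.exp_le_exp.2
    nlinarith
  have t2 : ∫ u in (Set.Ioc (-x) x)ᶜ, K * Real.exp (-(l / 4) * u ^ 2) ≤
      ∫ u, K * Real.exp (-(l / 4) * u ^ 2) :=
    MeasureTheory.setIntegral_le_integral (hi2.const_mul K)
      (Filter.Eventually.of_forall fun u => by positivity)
  have e4 : ∫ u : ℝ, K * Real.exp (-(l / 4) * u ^ 2) = K * (2 * P) := by
    rw [MeasureTheory.integral_const_mul, e2]
  rw [e4] at t2
  rw [e1] at e3
  rw [abs_le]
  constructor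
  · linarith
  · nlinarith

theorem pnEst_log {k : ℝ} (hk : 0 < k) (hk' : k ≤ 277 / 100000) :
    |(1 - k) * Real.exp (k * (2 + k * (1 + 2 / 3 * k)) / 2) - 1| ≤ 201 / 100 * k ^ 4 := by
  have h := Real.abs_log_sub_add_sum_range_le (x := k) (by rw [abs_of_pos hk]; linarith) 3
  simp only [Finset.sum_range_succ, Finset.sum_range_zero, abs_of_pos hk] at h
  set r := k * (2 + k * (1 + 2 / 3 * k)) / 2 + Real.log (1 - k) with hr
  have h1 : |r| ≤ k ^ 4 / (1 - k) := by
    refine le_of_eq_of_le ?_ h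
    congr 1
    rw [hr]
    push_cast
    ring
  have h2 : k ^ 4 / (1 - k) ≤ 1005 / 1000 * k ^ 4 := by
    rw [div_le_iff₀ (by linarith)]
    nlinarith [pow_pos hk 4]
  have h3 : k ^ 4 ≤ 1 / 2 := by
    calc k ^ 4 ≤ (277 / 100000) ^ 4 := by gcongr
      _ ≤ 1 / 2 := by norm_num
  have h4 := Real.abs_exp_sub_one_le (x := r) (by linarith)
  have h5 : (1 - k) * Real.exp (k * (2 + k * (1 + 2 / 3 * k)) / 2) = Real.exp r := by
    rw [hr, Real.exp_add, Real.exp_log (by linarith)]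
    ring
  rw [h5]
  linarith

theorem pnEst_main {L : ℝ} (hL : 47 / 10 ≤ L) :
    |(∫ φ in -(42 / 100 : ℝ)..(42 / 100), (om L 0 φ).re) / J0 L - 1| ≤ sg L ^ 4 / 20 := by
  have hs := sg_le hL
  have hs0 := sg_pos L
  have hk := ks_le hL
  have hk0 := ks_pos L
  have hl := lam_pos L
  have hlk := lam_mul_ks L
  have hpi := Real.pi_gt_three
  rw [pnEst_integral]
  set x := Real.sin (42 / 100 / 2) with hx
  have hx1 : 2084 / 10000 ≤ x := by
    have h5 := Real.sin_ge_sub_cube (x := 42 / 100 / 2) (by norm_num)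
    rw [← hx] at h5
    refine le_trans ?_ h5
    norm_num
  have hx2 : x ≤ 21 / 100 := by
    have h5 := Real.sin_le (x := 42 / 100 / 2) (by norm_num)
    rw [← hx] at h5
    linarith
  have hg := pnEst_gauss hl (show 0 ≤ x by linarith)
  set A := ∫ u in -x..x, Real.exp (-(4 * lam L) * u ^ 2) with hA
  set P := Real.sqrt (Real.pi / lam L) with hP
  have hPP : P ^ 2 = Real.pi / lam L := Real.sq_sqrt (by positivity)
  have hP0 : 0 < P := Real.sqrt_pos.2 (by positivity)
  have hPk : P ^ 2 = 2 * Real.pi * ks L := by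
    rw [hPP, div_eq_iff hl.ne']
    linear_combination (-Real.pi) * hlk
  have hkP : ks L ≤ P := by
    refine (pow_le_pow_iff_left₀ hk0.le hP0.le two_ne_zero).1 ?_
    rw [hPk]
    nlinarith
  have hJ : J0 L = P * Real.exp (-kk L / 2) := by
    unfold J0
    congr 1
    refine (pow_left_inj₀ (by have := eta_pos L; positivity) hP0.le two_ne_zero).1 ?_
    rw [mul_pow, eta_sq, Real.sq_sqrt (by positivity), hPk]
    ring
  set K := Real.exp (-(15 / 4 * lam L * x ^ 2)) with hK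
  have hK0 : 0 < K := Real.exp_pos _
  set K' := Real.exp (-(4 * lam L) * x ^ 2) with hK'
  have hK'0 : 0 < K' := Real.exp_pos _
  have hKK : K' ≤ K := Real.exp_le_exp.2 (by nlinarith [mul_pos hl (show 0 < x ^ 2 by positivity)])
  have hK1 : K ≤ sg L ^ 4 / 1000 := by
    have h1 : K ≤ Real.exp (-(267 / 1000) / sg L) := by
      apply Real.exp_le_exp.2
      rw [lam_eq, neg_div, neg_le_neg_iff, div_le_iff₀ hs0]
      have h2 : 15 / 4 * (cc / sg L) * x ^ 2 * sg L = 15 / 4 * cc * x ^ 2 := by field_simp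
      rw [h2]
      have h3 : (2084 / 10000 : ℝ) ^ 2 ≤ x ^ 2 := by gcongr
      nlinarith [cc_gt]
    refine h1.trans ((pnEst_exp_le (by norm_num) hs0 hs 21 4).trans ?_)
    rw [div_eq_inv_mul (sg L ^ 4)]
    gcongr
    norm_num [Nat.factorial]
  set E := Real.exp (kk L / 2) with hE
  have hE0 : 0 < E := Real.exp_pos _
  have hE1 : E ≤ 101 / 100 := by
    have h1 := Real.abs_exp_sub_one_le (x := kk L / 2)
      (by rw [abs_of_pos (by linarith [kk_pos L])]; linarith [kk_le hL])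
    rw [abs_of_pos (show 0 < kk L / 2 by linarith [kk_pos L])] at h1
    linarith [(abs_le.1 h1).2, kk_le hL]
  have hlog : |(1 - ks L) * E - 1| ≤ 201 / 100 * ks L ^ 4 := pnEst_log hk0 hk
  have hk4 : ks L ^ 4 ≤ sg L ^ 4 / 117 := by
    have h1 : ks L ≤ sg L / (32898 / 10000) := by
      rw [le_div_iff₀ (by norm_num)]
      have h2 := lam_mul_sg L
      have h3 : 2 * cc * ks L = sg L := by
        rw [← h2]
        linear_combination (sg L) * hlk
      nlinarith [cc_gt]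
    calc ks L ^ 4 ≤ (sg L / (32898 / 10000)) ^ 4 := by gcongr
      _ ≤ sg L ^ 4 / 117 := by
        rw [div_pow]
        gcongr
        norm_num
  have hEq : (2 * (1 - ks L) * A + 4 * ks L * x * K') / J0 L - 1 =
      ((1 - ks L) * E - 1) + (1 - ks L) * E * ((2 * A - P) / P) + 4 * x * E * K' * (ks L / P) := by
    rw [hJ, neg_div, Real.exp_neg, ← hE]
    field_simp
    ring
  rw [hEq]
  have b1 : |(2 * A - P) / P| ≤ 4 * K := by
    rw [abs_div, abs_of_pos hP0, div_le_iff₀ hP0]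
    exact hg
  have b2 : |(1 - ks L) * E * ((2 * A - P) / P)| ≤ 101 / 100 * (4 * K) := by
    rw [abs_mul]
    apply mul_le_mul _ b1 (abs_nonneg _) (by norm_num)
    rw [abs_of_pos (mul_pos (by linarith) hE0)]
    nlinarith
  have b3 : |4 * x * E * K' * (ks L / P)| ≤ K := by
    have h1 : ks L / P ≤ 1 := (div_le_one hP0).2 hkP
    have h2 : 0 ≤ x := by linarith
    rw [abs_of_nonneg (by positivity)]
    calc 4 * x * E * K' * (ks L / P) ≤ 4 * (21 / 100) * (101 / 100) * K * 1 := by gcongr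
      _ ≤ K := by linarith
  have b4 := abs_add_three ((1 - ks L) * E - 1) ((1 - ks L) * E * ((2 * A - P) / P))
    (4 * x * E * K' * (ks L / P))
  have := pow_pos hs0 4
  linarith

theorem pn_est {n : ℕ} (hL : 47 / 10 ≤ Ln n) :
    |(pn n : ℝ) / NJ (Ln n) - 1| ≤ sg (Ln n) ^ 4 / 10 := by
  have hs := sg_le hL
  have hs0 := sg_pos (Ln n)
  have h := arc_est (n := n) hL (a := fun k => (pn k : ℂ)) (H := fun _ => 1)
    (fun x hx => by simpa using hasSum_pn hx) (b := 0) (Φ := 42 / 100) (h := 1) (G₀ := 0)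
    (G₂ := 0) (by simpa using (be_pos _).le) (by norm_num) le_rfl
    (fun τ h1 _ => by
      rw [norm_one, one_mul]
      exact Real.one_le_exp (div_nonneg (by linarith) hs0.le))
    (fun s _ => by simp)
  have hm := pnEst_main hL
  have hc : Continuous fun φ : ℝ => om (Ln n) 0 φ := by
    unfold om
    fun_prop
  have hre := (abs_re_le_norm _).trans h
  have e1 : ((pn n : ℂ) / (NJ (Ln n) : ℝ) -
      (∫ φ in -(42 / 100 : ℝ)..(42 / 100), om (Ln n) 0 φ * 1) / (J0 (Ln n) : ℝ)).re =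
      (pn n : ℝ) / NJ (Ln n) -
        (∫ φ in -(42 / 100 : ℝ)..(42 / 100), (om (Ln n) 0 φ).re) / J0 (Ln n) := by
    rw [sub_re, div_ofReal_re, div_ofReal_re, natCast_re]
    simp only [mul_one]
    congr 2
    exact (intervalIntegral.intervalIntegral_re (hc.intervalIntegrable _ _)).symm
  rw [e1] at hre
  have x1 := pnEst_exp_le (a := 28 / 100) (by norm_num) hs0 hs 20 5
  have x2 := pnEst_exp_le (a := 57 / 100) (by norm_num) hs0 hs 20 6
  have y1 : Real.exp ((0 - 28 / 100) / sg (Ln n)) / (25 * sg (Ln n)) ≤ sg (Ln n) ^ 4 / 100 := by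
    rw [zero_sub, div_le_iff₀ (by positivity)]
    refine x1.trans ?_
    rw [show sg (Ln n) ^ 4 / 100 * (25 * sg (Ln n)) = 1 / 4 * sg (Ln n) ^ 5 by ring]
    gcongr
    norm_num [Nat.factorial]
  have y2 : 9 / sg (Ln n) ^ 2 * Real.exp ((0 - 57 / 100) / sg (Ln n)) ≤ sg (Ln n) ^ 4 / 100 := by
    rw [zero_sub, div_mul_eq_mul_div, div_le_iff₀ (by positivity)]
    have : Real.exp (-(57 / 100) / sg (Ln n)) ≤ 1 / 900 * sg (Ln n) ^ 6 := by
      refine x2.trans ?_
      gcongr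
      norm_num [Nat.factorial]
    nlinarith
  have t := abs_sub_le ((pn n : ℝ) / NJ (Ln n))
    ((∫ φ in -(42 / 100 : ℝ)..(42 / 100), (om (Ln n) 0 φ).re) / J0 (Ln n)) 1
  have := pow_pos hs0 4
  linarith

end Pool.Agent.Lib.MP_6cad4c_al
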