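import Pool.Agent.Lib.MP_6cad4c_al.Par
import Pool.Agent.Lib.MP_6cad4c_al.Facts

namespace Pool.Agent.Lib.MP_6cad4c_al

variable {q : Pr} {x y : ℝ}

theorem ptBase_sin3 (t : ℝ) : |Real.sin t - t| ≤ |t| ^ 3 / 6 := by
  rw [abs_sub_comm]; exact Real.abs_sub_sin_le t

theorem ptBase_cos2 (t : ℝ) : |1 - Real.cos t| ≤ |t| ^ 2 / 2 := by
  rw [abs_of_nonneg (sub_nonneg.2 (Real.cos_le_one t)), sq_abs]
  linarith [Real.one_sub_sq_div_two_le_cos (x := t)]

theorem ptBase_cos4 (t : ℝ) : |1 - Real.cos t - t ^ 2 / 2| ≤ |t| ^ 4 / 24 := by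
  have h0 := Real.one_sub_sq_div_two_le_cos (x := t)
  rw [abs_of_nonpos (by linarith)]
  have h4 : Real.cos t = 1 - 2 * Real.sin (|t| / 2) ^ 2 := by
    rw [← Real.cos_abs t, Real.sin_sq_eq_half_sub]
    ring_nf
  rw [h4, ← sq_abs t]
  have ha := abs_nonneg t
  generalize |t| = a at ha
  have h1 := Real.sin_ge_sub_cube (x := a / 2) (by linarith)
  by_cases h : 0 ≤ a / 2 - (a / 2) ^ 3 / 6
  · have h2 := pow_le_pow_left₀ h h1 2
    nlinarith [pow_nonneg ha 6]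
  · have h2 : 12 ≤ a ^ 2 := by
      by_contra h3
      exact h (by nlinarith)
    nlinarith [sq_nonneg (Real.sin (a / 2))]

theorem ptBase_exp (t : ℝ) : Real.exp t - 1 ≤ t * Real.exp t := by
  have h := mul_le_mul_of_nonneg_right (Real.add_one_le_exp (-t)) (Real.exp_pos t).le
  rw [← Real.exp_add, neg_add_cancel, Real.exp_zero] at h
  linarith

theorem ptBase_m (hq : q.Ok) : 0 ≤ q.m := by linarith [hq.m]

theorem ptBase_e {e : ℕ} (he : e ≤ 2) : |(e : ℝ) - 1| ≤ 1 := by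
  have h1 : (e : ℝ) ≤ 2 := by exact_mod_cast he
  have h2 : (0 : ℝ) ≤ e := Nat.cast_nonneg e
  exact abs_le.2 ⟨by linarith, by linarith⟩

theorem ep1_eq (hq : q.Ok) : ep1 q x y = |q.et * x| := by
  rw [abs_mul, abs_of_pos hq.et]; rfl

theorem ep2_eq (hq : q.Ok) : ep2 q x y = |q.et * y| := by
  rw [abs_mul, abs_of_pos hq.et]; rfl

theorem ed_eq (hq : q.Ok) : ed q x y = |q.et * y - q.et * x| := by
  rw [← mul_sub, abs_mul, abs_of_pos hq.et]; rfl

theorem emd_eq (hq : q.Ok) : emd q x y = q.m * |q.et * y - q.et * x| := by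
  rw [← ed_eq hq]; unfold emd ed Pr.uetm; ring

theorem evp_eq (hq : q.Ok) : evp q x y = q.V * |q.et * x| := by
  rw [← ep1_eq (y := y) hq]; unfold evp ep1 Pr.uetV; ring

theorem et1_eq : et1 q x y = |th1F q (q.et * x) (q.et * y)| :=
  congrArg abs (by unfold th1F; ring)

theorem et1p_eq : et1p q x y = |tp1F q (q.et * x) (q.et * y)| :=
  congrArg abs (by unfold tp1F; ring)

theorem ptBase_mu (hq : q.Ok) : q.uetmu * edX q x y = |q.mu| * |q.et * y - q.et * x| := by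
  rw [← ed_eq hq]; unfold ed Pr.uetmu; ring

theorem eo_nonneg (hq : q.Ok) (φ₁ φ₂ : ℝ) : 0 ≤ eo q φ₁ φ₂ :=
  mul_nonneg (ptBase_m hq) (sub_nonneg.2 (Real.cos_le_one _))

theorem one_le_gg (hq : q.Ok) (φ₁ φ₂ : ℝ) : 1 ≤ gg q φ₁ φ₂ :=
  Real.one_le_exp (eo_nonneg hq φ₁ φ₂)

theorem eo_le (hq : q.Ok) : eo q (q.et * x) (q.et * y) ≤ ee1 q x y := by
  unfold eo ee1 emdd
  rw [emd_eq hq, ed_eq hq]
  have := mul_le_mul_of_nonneg_left ((le_abs_self _).trans (ptBase_cos2 (q.et * y - q.et * x)))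
    (ptBase_m hq)
  linarith

theorem gg_sub_one_le (hq : q.Ok) : gg q (q.et * x) (q.et * y) - 1 ≤ egm1 q x y :=
  (ptBase_exp _).trans (mul_le_mul_of_nonneg_right (eo_le hq) (Real.exp_pos _).le)

theorem ptBase_vt (hq : q.Ok) : |vt q (q.et * x) (q.et * y)| ≤ emd q x y := by
  rw [emd_eq hq, vt, abs_mul, abs_of_nonneg (ptBase_m hq)]
  exact mul_le_mul_of_nonneg_left Real.abs_sin_le_abs (ptBase_m hq)

theorem abs_al_le (hq : q.Ok) : |al q (q.et * x) (q.et * y)| ≤ eA q x y :=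
  (abs_add_le _ _).trans (add_le_add (ptBase_vt hq) (ep2_eq hq).ge)

theorem abs_al1_le (hq : q.Ok) : |q.m * (q.et * y - q.et * x) + q.et * y| ≤ eA q x y := by
  refine (abs_add_le _ _).trans (add_le_add (le_of_eq ?_) (ep2_eq hq).ge)
  rw [emd_eq hq, abs_mul, abs_of_nonneg (ptBase_m hq)]

theorem ptBase_comb {a : ℕ} {e : ℕ} (he : e ≤ 2) {u v U V : ℝ} (hu : |u| ≤ U) (hv : |v| ≤ V) :
    |(a + 1) * u + (e - 1) * v| ≤ (a + 1) * (U + V) := by
  have h0 : (0 : ℝ) ≤ a := Nat.cast_nonneg a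
  have h1 := mul_le_mul (ptBase_e he) hv (abs_nonneg _) zero_le_one
  have h2 := mul_le_mul_of_nonneg_left hu (by linarith : (0 : ℝ) ≤ a + 1)
  have h3 := mul_nonneg h0 ((abs_nonneg _).trans hv)
  refine (abs_add_le _ _).trans ?_
  rw [abs_mul, abs_mul, abs_of_nonneg (by linarith : (0 : ℝ) ≤ a + 1)]
  linarith

theorem abs_omg_le (hq : q.Ok) (a : ℕ) {e : ℕ} (he : e ≤ 2) :
    |omg q (q.et * x) (q.et * y) a e| ≤ (a + 1) * eA q x y := by
  have := ptBase_comb (a := a) he (ptBase_vt (x := x) (y := y) hq) (v := -(q.et * y))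
    ((abs_neg _).trans (ep2_eq (x := x) hq).symm).le
  rwa [mul_neg, ← sub_eq_add_neg] at this

theorem vt_sub_le (hq : q.Ok) :
    |vt q (q.et * x) (q.et * y) - q.m * (q.et * y - q.et * x)| ≤ emd3 q x y := by
  unfold vt emd3 emdd
  rw [emd_eq hq, ed_eq hq, ← mul_sub, abs_mul, abs_of_nonneg (ptBase_m hq)]
  have := mul_le_mul_of_nonneg_left (ptBase_sin3 (q.et * y - q.et * x)) (ptBase_m hq)
  linarith

theorem ptBase_two (hq : q.Ok) {a b δ A B : ℝ} (ha : |a| ≤ A) (hb : |b| ≤ B) :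
    |q.mp * a - q.m / 2 * (δ * b)| ≤ |q.mp| * A + q.m / 2 * (|δ| * B) := by
  have h := half_pos (by linarith [hq.m] : 0 < q.m)
  refine (abs_sub _ _).trans ?_
  rw [abs_mul, abs_mul, abs_mul, abs_of_pos h]
  gcongr

theorem vtD_sub_le (hq : q.Ok) :
    |vtD q (q.et * x) (q.et * y) - q.mu * (q.et * y - q.et * x)| ≤ en3 q x y := by
  unfold vtD en3 eMpd edd Pr.mu Pr.Mp
  rw [emd_eq hq, ed_eq hq]
  generalize q.et * y - q.et * x = δ
  have := ptBase_two hq (δ := δ) (ptBase_sin3 δ) ((abs_sub_comm _ _).trans_le (ptBase_cos2 δ))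
  refine (le_of_eq (congrArg abs (by ring))).trans (this.trans (le_of_eq (by ring)))

theorem ptBase_vtD (hq : q.Ok) :
    |vtD q (q.et * x) (q.et * y)| ≤ q.uetmu * edX q x y + en3 q x y := by
  have h := abs_add_le (q.mu * (q.et * y - q.et * x))
    (vtD q (q.et * x) (q.et * y) - q.mu * (q.et * y - q.et * x))
  rw [add_sub_cancel, abs_mul] at h
  rw [ptBase_mu hq]
  linarith [vtD_sub_le (x := x) (y := y) hq]

theorem ptBase_half (hq : q.Ok) : |q.et * y / 2| ≤ 1 / 2 * ep2 q x y := by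
  rw [ep2_eq hq, abs_div, abs_two]
  linarith

theorem abs_alD_le (hq : q.Ok) : |alD q (q.et * x) (q.et * y)| ≤ eapp q x y := by
  refine (abs_sub _ _).trans ?_
  unfold eapp
  linarith [ptBase_vtD (x := x) (y := y) hq, ptBase_half (x := x) (y := y) hq]

theorem abs_omgD_le (hq : q.Ok) (a : ℕ) {e : ℕ} (he : e ≤ 2) :
    |omgD q (q.et * x) (q.et * y) a e| ≤ (a + 1) * eapp q x y := by
  have := ptBase_comb (a := a) he (ptBase_vtD (x := x) (y := y) hq)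
    (ptBase_half (x := x) (y := y) hq)
  unfold omgD eapp
  rwa [← mul_div_assoc, add_right_comm] at this

theorem abs_eoD_le (hq : q.Ok) : |eoD q (q.et * x) (q.et * y)| ≤ ee1p q x y := by
  unfold eoD ee1p eMpd Pr.Mp
  rw [emd_eq hq, ed_eq hq]
  generalize q.et * y - q.et * x = δ
  exact (ptBase_two hq (δ := δ) (ptBase_cos2 δ) Real.abs_sin_le_abs).trans (le_of_eq (by ring))

theorem eoD_sub_le (hq : q.Ok) :
    |eoD q (q.et * x) (q.et * y) - (q.mp - q.m) / 2 * (q.et * y - q.et * x) ^ 2| ≤ en4 q x y := by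
  unfold eoD en4 eMpd edd Pr.Mp
  rw [emd_eq hq, ed_eq hq]
  generalize q.et * y - q.et * x = δ
  have := ptBase_two hq (δ := δ) (ptBase_cos4 δ) (ptBase_sin3 δ)
  refine (le_of_eq (congrArg abs (by ring))).trans (this.trans (le_of_eq (by ring)))

theorem sa_le (hq : q.Ok) :
    |gg q (q.et * x) (q.et * y) * Real.sin (al q (q.et * x) (q.et * y)) -
      (q.m * (q.et * y - q.et * x) + q.et * y)| ≤ esa q x y := by
  have h1 := abs_al_le (x := x) (y := y) hq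
  have h2 := gg_sub_one_le (x := x) (y := y) hq
  have h3 := sub_nonneg.2 (one_le_gg hq (q.et * x) (q.et * y))
  have h4 := vt_sub_le (x := x) (y := y) hq
  have h5 := mul_le_mul h2 (Real.abs_sin_le_abs.trans h1) (abs_nonneg _) (h3.trans h2)
  have h6 := (ptBase_sin3 _).trans
    (div_le_div_of_nonneg_right (pow_le_pow_left₀ (abs_nonneg _) h1 3) (by norm_num))
  have e : gg q (q.et * x) (q.et * y) * Real.sin (al q (q.et * x) (q.et * y)) -
      (q.m * (q.et * y - q.et * x) + q.et * y) =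
      (gg q (q.et * x) (q.et * y) - 1) * Real.sin (al q (q.et * x) (q.et * y)) +
      (Real.sin (al q (q.et * x) (q.et * y)) - al q (q.et * x) (q.et * y)) +
      (vt q (q.et * x) (q.et * y) - q.m * (q.et * y - q.et * x)) := by
    unfold al; ring
  rw [e]
  refine (abs_add_three _ _ _).trans ?_
  rw [abs_mul, abs_of_nonneg h3]
  unfold esa eAA
  linarith

theorem ptBase_ee1 (hq : q.Ok) : 0 ≤ ee1 q x y := (eo_nonneg hq _ _).trans (eo_le hq)

theorem ptBase_eeh (hq : q.Ok) : 0 ≤ eeh q x y :=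
  add_nonneg (ptBase_ee1 hq) (mul_nonneg (by norm_num) (mul_self_nonneg _))

theorem gcos_le (hq : q.Ok) (a : ℕ) {e : ℕ} (he : e ≤ 2) :
    |gg q (q.et * x) (q.et * y) ^ (a + 1) * Real.cos (omg q (q.et * x) (q.et * y) a e) - 1| ≤
      gg q (q.et * x) (q.et * y) ^ (a + 1) * (a + 1) ^ 2 * eeh q x y := by
  have h0 : (0 : ℝ) ≤ a := Nat.cast_nonneg a
  have h1 : 1 ≤ gg q (q.et * x) (q.et * y) ^ (a + 1) := one_le_pow₀ (one_le_gg hq _ _)
  have h2 := ptBase_exp ((a + 1 : ℕ) * eo q (q.et * x) (q.et * y))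
  rw [Real.exp_nat_mul, Nat.cast_succ] at h2
  change gg q (q.et * x) (q.et * y) ^ (a + 1) - 1 ≤ _ * gg q (q.et * x) (q.et * y) ^ (a + 1) at h2
  have h3 := eo_le (x := x) (y := y) hq
  have h4 := ptBase_ee1 (x := x) (y := y) hq
  have h5 := pow_le_pow_left₀ (abs_nonneg _) (abs_omg_le (x := x) (y := y) hq a he) 2
  have h6 := (le_abs_self _).trans (ptBase_cos2 (omg q (q.et * x) (q.et * y) a e))
  have h7 := Real.cos_le_one (omg q (q.et * x) (q.et * y) a e)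
  unfold eeh eAA
  generalize gg q (q.et * x) (q.et * y) ^ (a + 1) = G at *
  generalize Real.cos (omg q (q.et * x) (q.et * y) a e) = c at *
  have hG : 0 ≤ G := by linarith
  have k1 : G * (1 - c) ≤ G * ((a + 1) ^ 2 * (1 / 2 * (eA q x y * eA q x y))) :=
    mul_le_mul_of_nonneg_left (by linarith) hG
  have k2 : (a + 1) * eo q (q.et * x) (q.et * y) * G ≤ (a + 1) ^ 2 * ee1 q x y * G :=
    mul_le_mul_of_nonneg_right (by nlinarith [mul_nonneg h0 h4]) hG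
  have k3 : 0 ≤ G * (1 - c) := mul_nonneg hG (by linarith)
  have k4 : 0 ≤ (a + 1) ^ 2 * ee1 q x y * G := by positivity
  exact abs_le.2 ⟨by linarith, by linarith⟩

theorem abs_ktD_le (hq : q.Ok) (κ : ℝ) (a : ℕ) {e : ℕ} (he : e ≤ 2) :
    |ktD q κ a e| ≤ |kt q κ a e| * (a + 1) * q.ell := by
  have := ptBase_comb (a := a) he (le_refl |q.mp|)
    (abs_of_nonneg (by linarith [hq.be] : 0 ≤ 1 + q.be)).le
  unfold ktD Pr.ell Pr.Mp
  rw [abs_mul, mul_assoc, ← neg_add', abs_neg, add_comm (1 + q.be)]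
  exact mul_le_mul_of_nonneg_left this (abs_nonneg _)

theorem xg_le (hq : q.Ok) {φ₁ φ₂ : ℝ} (h₁ : |φ₁| ≤ 42 / 100) (h₂ : |φ₂| ≤ 42 / 100) :
    q.x * gg q φ₁ φ₂ ≤ q.xb := by
  rw [hq.x, gg, ← Real.exp_add, Pr.xb, Real.exp_le_exp, eo]
  have h3 : |φ₂ - φ₁| ≤ 84 / 100 := (abs_sub _ _).trans (by linarith)
  have h4 := pow_le_pow_left₀ (abs_nonneg _) h3 2
  have h5 : 1 - Real.cos (φ₂ - φ₁) ≤ 441 / 1250 := by
    linarith [(le_abs_self _).trans (ptBase_cos2 (φ₂ - φ₁))]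
  linarith [mul_le_mul_of_nonneg_left h5 (ptBase_m hq)]

theorem ptBase_msum (hq : q.Ok) (hx : |q.et * x| ≤ 42 / 100) (hy : |q.et * y| ≤ 42 / 100)
    {f : ℝ → ℕ → ℕ → ℝ} {B : ℝ} (hB : 0 ≤ B) (w : ℕ → ℝ) (hw : ∀ a, 0 ≤ w a)
    (hf : ∀ κ (a e : ℕ), e ≤ 2 →
      |f κ a e| ≤ |kt q κ a e| * gg q (q.et * x) (q.et * y) ^ (a + 1) * w a * B) :
    |msum f| ≤ (q.k1 * w 0 + q.xb * q.k2 * w 1 + q.xb ^ 2 * q.k3 * w 2 + q.xb ^ 3 * q.k4 * w 3 +
      q.xb ^ 4 / 25 * w 4) * (eug q x y * B) := by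
  have hg : 0 ≤ gg q (q.et * x) (q.et * y) := zero_le_one.trans (one_le_gg hq _ _)
  have hx0 : 0 ≤ q.x := by rw [hq.x]; exact (Real.exp_pos _).le
  have H : ∀ (κ k : ℝ) (a e : ℕ), |κ| = k → e ≤ 2 →
      -(k * q.sp ^ e * q.xb ^ a * w a * (eug q x y * B)) ≤ f κ a e ∧
        f κ a e ≤ k * q.sp ^ e * q.xb ^ a * w a * (eug q x y * B) := by
    rintro κ _ a e rfl he
    refine abs_le.1 ((hf κ a e he).trans ?_)
    have h1 := pow_le_pow_left₀ (mul_nonneg hx0 hg) (xg_le hq hx hy) a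
    have h2 : 0 ≤ |κ| * q.sp ^ e * w a * (eug q x y * B) :=
      mul_nonneg (mul_nonneg (mul_nonneg (abs_nonneg _) (pow_nonneg hq.sp _)) (hw a))
        (mul_nonneg (mul_nonneg hq.u hg) hB)
    refine (le_of_eq ?_).trans ((mul_le_mul_of_nonneg_left h1 h2).trans (le_of_eq (by ring)))
    unfold kt eug eG
    rw [abs_mul, abs_mul, abs_mul, abs_of_nonneg hq.u, abs_of_nonneg (pow_nonneg hq.sp _),
      abs_of_nonneg (pow_nonneg hx0 _)]
    ring
  have p : ∀ k : ℝ, 0 < k → |k| = k := fun k => abs_of_pos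
  have n : ∀ k : ℝ, 0 < k → |-k| = k := fun k hk => (abs_neg k).trans (abs_of_pos hk)
  obtain ⟨a1, b1⟩ := H (1 / 2) _ 0 1 (p _ (by norm_num)) (by norm_num)
  obtain ⟨a2, b2⟩ := H (-(1 / 12)) _ 0 2 (n _ (by norm_num)) (by norm_num)
  obtain ⟨a3, b3⟩ := H (-(1 / 4)) _ 1 0 (n _ (by norm_num)) (by norm_num)
  obtain ⟨a4, b4⟩ := H (1 / 4) _ 1 1 (p _ (by norm_num)) (by norm_num)
  obtain ⟨a5, b5⟩ := H (-(1 / 12)) _ 1 2 (n _ (by norm_num)) (by norm_num)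
  obtain ⟨a6, b6⟩ := H (-(1 / 9)) _ 2 0 (n _ (by norm_num)) (by norm_num)
  obtain ⟨a7, b7⟩ := H (1 / 6) _ 2 1 (p _ (by norm_num)) (by norm_num)
  obtain ⟨a8, b8⟩ := H (-(1 / 12)) _ 2 2 (n _ (by norm_num)) (by norm_num)
  obtain ⟨a9, b9⟩ := H (-(1 / 16)) _ 3 0 (n _ (by norm_num)) (by norm_num)
  obtain ⟨a10, b10⟩ := H (1 / 8) _ 3 1 (p _ (by norm_num)) (by norm_num)
  obtain ⟨a11, b11⟩ := H (-(1 / 25)) _ 4 0 (n _ (by norm_num)) (by norm_num)
  unfold msum Pr.k1 Pr.k2 Pr.k3 Pr.k4 Pr.s2q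
  generalize eug q x y * B = T at *
  exact abs_le.2 ⟨by linarith, by linarith⟩

theorem msum_le1 (hq : q.Ok) (hx : |q.et * x| ≤ 42 / 100) (hy : |q.et * y| ≤ 42 / 100)
    {f : ℝ → ℕ → ℕ → ℝ} {B : ℝ} (hB : 0 ≤ B) (hf : ∀ κ (a e : ℕ), e ≤ 2 →
      |f κ a e| ≤ |kt q κ a e| * gg q (q.et * x) (q.et * y) ^ (a + 1) * (a + 1) * B) :
    |msum f| ≤ q.rho1 * (eug q x y * B) :=
  (ptBase_msum hq hx hy hB (fun a => a + 1) (fun a => by positivity) hf).trans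
    (le_of_eq (by unfold Pr.rho1; push_cast; ring))

theorem msum_le2 (hq : q.Ok) (hx : |q.et * x| ≤ 42 / 100) (hy : |q.et * y| ≤ 42 / 100)
    {f : ℝ → ℕ → ℕ → ℝ} {B : ℝ} (hB : 0 ≤ B) (hf : ∀ κ (a e : ℕ), e ≤ 2 →
      |f κ a e| ≤ |kt q κ a e| * gg q (q.et * x) (q.et * y) ^ (a + 1) * (a + 1) ^ 2 * B) :
    |msum f| ≤ q.rho2 * (eug q x y * B) :=
  (ptBase_msum hq hx hy hB (fun a => (a + 1) ^ 2) (fun a => by positivity) hf).trans
    (le_of_eq (by unfold Pr.rho2; push_cast; ring))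

theorem msum_le3 (hq : q.Ok) (hx : |q.et * x| ≤ 42 / 100) (hy : |q.et * y| ≤ 42 / 100)
    {f : ℝ → ℕ → ℕ → ℝ} {B : ℝ} (hB : 0 ≤ B) (hf : ∀ κ (a e : ℕ), e ≤ 2 →
      |f κ a e| ≤ |kt q κ a e| * gg q (q.et * x) (q.et * y) ^ (a + 1) * (a + 1) ^ 3 * B) :
    |msum f| ≤ q.rho3 * (eug q x y * B) :=
  (ptBase_msum hq hx hy hB (fun a => (a + 1) ^ 3) (fun a => by positivity) hf).trans
    (le_of_eq (by unfold Pr.rho3; push_cast; ring))

theorem msum_add (f f' : ℝ → ℕ → ℕ → ℝ) :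
    (msum fun κ a e => f κ a e + f' κ a e) = msum f + msum f' := by
  unfold msum; ring

theorem ptBase_gam (hq : q.Ok) (φ : ℝ) : 0 ≤ gam q φ := by
  have := mul_le_mul_of_nonneg_left (Real.one_sub_sq_div_two_le_cos (x := φ)) hq.la.le
  unfold gam
  linarith

theorem neg_aF_le (hq : q.Ok) (hx : |q.et * x| ≤ 42 / 100) (hy : |q.et * y| ≤ 42 / 100) :
    -aF q (q.et * x) (q.et * y) ≤ eam q x y := by
  have h1 := (abs_le.1 (msum_le2 hq hx hy (ptBase_eeh (x := x) (y := y) hq)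
    (f := fun κ a e => kt q κ a e * (gg q (q.et * x) (q.et * y) ^ (a + 1) *
      Real.cos (omg q (q.et * x) (q.et * y) a e) - 1)) fun κ a e he => by
      rw [abs_mul, mul_assoc, mul_assoc, ← mul_assoc (gg q _ _ ^ _)]
      exact mul_le_mul_of_nonneg_left (gcos_le hq a he) (abs_nonneg _))).1
  have h2 := ptBase_gam hq (q.et * x)
  have h3 := ptBase_gam hq (q.et * y)
  have h4 := mul_nonneg hq.V (sub_nonneg.2 (Real.cos_le_one (q.et * x)))
  have h5 := eo_nonneg hq (q.et * x) (q.et * y)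
  have h6 := mul_le_mul_of_nonneg_left ((le_abs_self _).trans (ptBase_cos2 (q.et * x))) hq.C
  have h7 := mul_le_mul_of_nonneg_left ((le_abs_self _).trans (ptBase_cos2 (q.et * y))) hq.C
  have h8 := mul_le_mul_of_nonneg_left (gg_sub_one_le (x := x) (y := y) hq) hq.u
  have h9 := mul_le_mul_of_nonneg_left (Real.cos_le_one (al q (q.et * x) (q.et * y)))
    (mul_nonneg hq.u (zero_le_one.trans (one_le_gg hq (q.et * x) (q.et * y))))
  unfold aF aB eam er2 eq1 eq2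
  rw [ep1_eq hq, ep2_eq hq]
  linarith

end Pool.Agent.Lib.MP_6cad4c_al
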