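import Pool.Agent.Lib.MP_6cad4c_al.OkDef
import Pool.Agent.Lib.MP_6cad4c_al.Side

namespace Pool.Agent.Lib.MP_6cad4c_al

set_option linter.unusedVariables false

variable {s : SP} {c : CP} {i : CI} {q : Pr} {L g : ℝ}

theorem sbe_mem (hs : s.Ok L) : PI.Mem (be L) (sbe s) := (PI.mul_mem rat_8_5 hs.sg :)

theorem sb2_mem (hs : s.Ok L) : PI.Mem (pb2 L) (sb2 s) := (PI.mul_mem (sbe_mem hs) (sbe_mem hs)
    :)

theorem seb_mem (hs : s.Ok L) : PI.Mem (peb L) (seb s) := (PI.hull_mem (PI.add_mem rat_1_1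
    (sbe_mem hs)) (PI.add_mem (PI.add_mem rat_1_1 (sbe_mem hs)) (sb2_mem hs)) (side_eb hs.hL) :)

theorem sE2_mem (hs : s.Ok L) : PI.Mem (pE2 L) (sE2 s) := (PI.hull_mem (PI.mul_mem rat_2_1
    (PI.add_mem (sbe_mem hs) (sb2_mem hs))) (PI.mul_mem rat_2_1 (PI.add_mem (sbe_mem hs)
    (PI.mul_mem (sb2_mem hs) (PI.add_mem rat_1_1 (sbe_mem hs))))) (side_E2 hs.hL) :)

theorem sc2b_mem (hs : s.Ok L) : PI.Mem (pc2b L) (sc2b s) := (PI.mul_mem rat_16_5 ccI_mem :)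

theorem sS_mem (hs : s.Ok L) : PI.Mem (pS L) (sS s) := (PI.hull_mem (sc2b_mem hs) (PI.mul_mem
    (sc2b_mem hs) (PI.add_mem rat_1_1 (sb2_mem hs))) (side_S hs.hL) :)

theorem snSp_mem (hs : s.Ok L) : PI.Mem (pnSp L) (snSp s) := (PI.hull_mem rat_0_1 (PI.mul_mem
    (sc2b_mem hs) (sb2_mem hs)) (side_nSp hs.hL) :)

theorem scb2_mem (hs : s.Ok L) : PI.Mem (pcb2 L) (scb2 s) := (PI.mul_mem (PI.mul_mem rat_64_25
    ccI_mem) hs.sg :)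

theorem sC_mem (hs : s.Ok L) : PI.Mem (pC L) (sC s) := (PI.hull_mem (scb2_mem hs) (PI.mul_mem
    (scb2_mem hs) (PI.add_mem rat_1_1 (sb2_mem hs))) (side_C hs.hL) :)

theorem snCp_mem (hs : s.Ok L) : PI.Mem (pnCp L) (snCp s) := (PI.hull_mem (scb2_mem hs)
    (PI.mul_mem (scb2_mem hs) (PI.add_mem rat_1_1 (sb2_mem hs))) (side_nCp hs.hL) :)

theorem sil_mem (hs : s.Ok L) : PI.Mem (pil L) (sil s) := (PI.mul_mem hs.sg icI_mem :)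

theorem sks_mem (hs : s.Ok L) : PI.Mem (ks L) (sks s) := (PI.mul_mem rat_1_2 (sil_mem hs) :)

theorem skk_mem (hs : s.Ok L) : PI.Mem (kk L) (skk s) := (PI.mul_mem (sks_mem hs) (PI.add_mem
    rat_2_1 (PI.mul_mem (sks_mem hs) (PI.add_mem rat_1_1 (PI.mul_mem rat_2_3 (sks_mem hs))))) :)

theorem sk0_mem (hs : s.Ok L) : PI.Mem (pk0 L) (sk0 s) := (PI.mul_mem (PI.mul_mem rat_2_1
    (sks_mem hs)) (PI.add_mem rat_1_1 (PI.mul_mem (sks_mem hs) (PI.add_mem rat_1_1 (sks_mem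
    hs)))) :)

theorem seA_mem (hs : s.Ok L) : PI.Mem (peA L) (seA s) := (PI.expS_mem (PI.add_mem (PI.add_mem
    (PI.mul_mem rat_2_1 (sC_mem hs)) (skk_mem hs)) (sbe_mem hs)) (side_eA hs.hL) :)

theorem ssp_mem (hs : s.Ok L) : PI.Mem (psp L) (ssp s) := (PI.mul_mem hs.sg (seb_mem hs) :)

theorem ss2_mem (hs : s.Ok L) : PI.Mem (ps2 L) (ss2 s) := (PI.mul_mem (PI.mul_mem rat_1_12
    (ssp_mem hs)) (ssp_mem hs) :)

theorem sr1_mem (hs : s.Ok L) : SI.Mem (pr1 L) (sr1 s) := (SI.dif_mem (PI.mul_mem rat_1_2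
    (ssp_mem hs)) (ss2_mem hs) :)

theorem sr2n_mem (hs : s.Ok L) : SI.Mem (pr2n L) (sr2n s) := (SI.dif_mem (PI.add_mem rat_1_4
    (ss2_mem hs)) (PI.mul_mem rat_1_4 (ssp_mem hs)) :)

theorem sr3n_mem (hs : s.Ok L) : SI.Mem (pr3n L) (sr3n s) := (SI.dif_mem (PI.add_mem rat_1_9
    (ss2_mem hs)) (PI.mul_mem rat_1_6 (ssp_mem hs)) :)

theorem sr4n_mem (hs : s.Ok L) : SI.Mem (pr4n L) (sr4n s) := (SI.dif_mem rat_1_16 (PI.mul_mem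
    rat_1_8 (ssp_mem hs)) :)

theorem ch_mem (hs : s.Ok L) (hc : c.Ok L g) : PI.Mem (ph L g) (ch s c) := (PI.add_mem rat_1_1
    (PI.mul_mem hc.X0 (PI.add_mem rat_3_2 (PI.mul_mem hc.X0 (PI.add_mem rat_4_3 (PI.mul_mem
    hc.X0 (PI.add_mem rat_7_4 (PI.mul_mem hc.X0 (PI.add_mem rat_6_5 (PI.mul_mem hc.X0
    rat_2_1))))))))) :)

theorem ch2_mem (hs : s.Ok L) (hc : c.Ok L g) : PI.Mem (ph2 L g) (ch2 s c) := (PI.mul_mem hc.X0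
    (PI.add_mem rat_3_2 (PI.mul_mem hc.X0 (PI.add_mem rat_8_3 (PI.mul_mem hc.X0 (PI.add_mem
    rat_21_4 (PI.mul_mem hc.X0 (PI.add_mem rat_24_5 (PI.mul_mem hc.X0 rat_10_1)))))))) :)

theorem cm_mem (hs : s.Ok L) (hc : c.Ok L g) : PI.Mem (pm L g) (cm s c) := (PI.mul_mem hc.M
    (PI.add_mem rat_1_1 (sE2_mem hs)) :)

theorem comp_mem (hs : s.Ok L) (hc : c.Ok L g) : SI.Mem (pomp L g) (comp s c) := (SI.dif_mem
    (PI.mul_mem (PI.mul_mem rat_2_1 (sbe_mem hs)) (cm_mem hs hc)) (sE2_mem hs) :)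

theorem cmp_mem (hs : s.Ok L) (hc : c.Ok L g) : SI.Mem (pmp L g) (cmp s c) := (SI.Psub_mem
    rat_1_1 (comp_mem hs hc) :)

theorem cebu_mem (hs : s.Ok L) (hc : c.Ok L g) : PI.Mem (pebu L g) (cebu s c) := (PI.mul_mem
    (seb_mem hs) hc.u0 :)

theorem cMh_mem (hs : s.Ok L) (hc : c.Ok L g) : PI.Mem (pMh L g) (cMh s c) := (PI.mul_mem hc.M
    (ch_mem hs hc) :)

theorem cV_mem (hs : s.Ok L) (hc : c.Ok L g) : PI.Mem (pV L g) (cV s c) := (PI.mul_mem (cMh_mem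
    hs hc) (cebu_mem hs hc) :)

theorem cVp_mem (hs : s.Ok L) (hc : c.Ok L g) : SI.Mem (pVp L g) (cVp s c) := (SI.smul_mem
    (cebu_mem hs hc) (SI.dif_mem (ch_mem hs hc) (PI.mul_mem hc.M (PI.add_mem (ch2_mem hs hc)
    (PI.mul_mem (sbe_mem hs) (ch_mem hs hc))))) :)

theorem cME_mem (hs : s.Ok L) (hc : c.Ok L g) : PI.Mem (pME L g) (cME s c) := (PI.mul_mem hc.M
    (sE2_mem hs) :)

theorem cex_mem (hs : s.Ok L) (hc : c.Ok L g) : PI.Mem (pex L g) (cex s c) := (PI.nexp_mem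
    (PI.add_mem (sbe_mem hs) (cME_mem hs hc)) :)

theorem cu_mem (hs : s.Ok L) (hc : c.Ok L g) : PI.Mem (pu L g) (cu s c) := (PI.mul_mem hc.u0
    (cex_mem hs hc) :)

theorem cup_mem (hs : s.Ok L) (hc : c.Ok L g) : SI.Mem (pup L g) (cup s c) := (SI.smul_mem
    (cu_mem hs hc) (SI.Padd_mem (sbe_mem hs) (comp_mem hs hc)) :)

theorem cx_mem (hs : s.Ok L) (hc : c.Ok L g) : PI.Mem (px L g) (cx s c) := (PI.mul_mem
    (PI.mul_mem hc.X0 (cex_mem hs hc)) (seb_mem hs) :)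

theorem cRs_mem (hs : s.Ok L) (hc : c.Ok L g) : SI.Mem (pRs L g) (cRs s c) := (SI.sub_mem
    (sr1_mem hs) (SI.smul_mem (cx_mem hs hc) (SI.add_mem (sr2n_mem hs) (SI.smul_mem (cx_mem hs
    hc) (SI.add_mem (sr3n_mem hs) (SI.smul_mem (cx_mem hs hc) (SI.addP_mem (sr4n_mem hs)
    (PI.mul_mem rat_1_25 (cx_mem hs hc)))))))) :)

theorem cRa_mem (hs : s.Ok L) (hc : c.Ok L g) : SI.Mem (pRa L g) (cRa s c) := (SI.sub_mem
    (sr1_mem hs) (SI.smul_mem (cx_mem hs hc) (SI.add_mem (SI.smul_mem rat_2_1 (sr2n_mem hs))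
    (SI.smul_mem (cx_mem hs hc) (SI.add_mem (SI.smul_mem rat_3_1 (sr3n_mem hs)) (SI.smul_mem
    (cx_mem hs hc) (SI.addP_mem (SI.smul_mem rat_4_1 (sr4n_mem hs)) (PI.mul_mem rat_1_5 (cx_mem
    hs hc)))))))) :)

theorem cRe_mem (hs : s.Ok L) (hc : c.Ok L g) : SI.Mem (pRe L g) (cRe s c) := (SI.subP_mem
    (SI.smul_mem (cx_mem hs hc) (SI.dif_mem (PI.add_mem rat_1_4 (PI.mul_mem (cx_mem hs hc)
    (PI.add_mem rat_1_9 (PI.mul_mem (cx_mem hs hc) (PI.add_mem rat_1_16 (PI.mul_mem rat_1_25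
    (cx_mem hs hc))))))) (PI.mul_mem (ss2_mem hs) (PI.add_mem rat_1_1 (cx_mem hs hc)))))
    (ss2_mem hs) :)

theorem cnR0p_mem (hs : s.Ok L) (hc : c.Ok L g) : SI.Mem (pnR0p L g) (cnR0p s c) := (SI.smul_mem
    (cu_mem hs hc) (SI.add_mem (SI.smul_mem (PI.add_mem rat_1_1 (sbe_mem hs)) (cRe_mem hs hc))
    (SI.mul_mem (cmp_mem hs hc) (cRa_mem hs hc))) :)

theorem cBz_mem (hs : s.Ok L) (hc : c.Ok L g) : PI.Mem (pBz L g) (cBz s c) := (SI.toP_mem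
    (SI.Padd_mem (PI.add_mem (cME_mem hs hc) (cV_mem hs hc)) (SI.smul_mem (cu_mem hs hc)
    (SI.Psub_mem rat_1_1 (cRs_mem hs hc)))) (side_Bz hs.hL hc.hM) :)

theorem cw_mem (hs : s.Ok L) (hc : c.Ok L g) : PI.Mem (pw L g) (cw s c) := (PI.mul_mem
    (PI.mul_mem hc.u0 (seA_mem hs)) (PI.nexp_mem (cBz_mem hs hc)) :)

theorem cL0_mem (hs : s.Ok L) (hc : c.Ok L g) : SI.Mem (pL0 L g) (cL0 s c) := (SI.sub_mem
    (SI.sub_mem (SI.sub_mem (SI.subP_mem (comp_mem hs hc) (PI.add_mem (PI.add_mem (PI.mul_mem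
    rat_2_1 (snCp_mem hs)) (sk0_mem hs)) (sbe_mem hs))) (cVp_mem hs hc)) (cup_mem hs hc))
    (cnR0p_mem hs hc) :)

theorem cvl_mem (hs : s.Ok L) (hc : c.Ok L g) : PI.Mem (pvl L g) (cvl s c) := (PI.mul_mem
    (PI.mul_mem (PI.mul_mem (cMh_mem hs hc) (seb_mem hs)) hc.X0) icI_mem :)

theorem mkCI_ok (hs : s.Ok L) (hc : c.Ok L g) : (mkCI s c).Ok (mkPr L g) where
  et := hs.et
  ks := sks_mem hs
  be := sbe_mem hs
  sp := ssp_mem hs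
  C := sC_mem hs
  nCp := snCp_mem hs
  S := sS_mem hs
  nSp := snSp_mem hs
  m := cm_mem hs hc
  mp := cmp_mem hs hc
  u := cu_mem hs hc
  up := cup_mem hs hc
  V := cV_mem hs hc
  Vp := cVp_mem hs hc
  x := cx_mem hs hc
  vl := cvl_mem hs hc
  L0 := cL0_mem hs hc

theorem dmu_mem (hq : q.Ok) (h : i.Ok q) : SI.Mem q.mu (dmu i) := (SI.subP_mem h.mp (PI.mul_mem
    rat_1_2 h.m) :)

theorem dSm_mem (hq : q.Ok) (h : i.Ok q) : SI.Mem q.Sm (dSm i) := (SI.dif_mem h.S h.m :)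

theorem dum_mem (hq : q.Ok) (h : i.Ok q) : PI.Mem q.um (dum i) := (PI.mul_mem h.u h.m :)

theorem dth1_mem (hq : q.Ok) (h : i.Ok q) : SI.Mem q.th1 (dth1 i) := (SI.sub_mem (SI.dif_mem
    (PI.add_mem rat_1_2 h.V) (dum_mem hq h)) (dSm_mem hq h) :)

theorem dth2_mem (hq : q.Ok) (h : i.Ok q) : SI.Mem q.th2 (dth2 i) := (SI.addP_mem (dSm_mem hq h)
    (PI.add_mem (PI.add_mem rat_3_2 (dum_mem hq h)) h.u) :)

theorem dw1_mem (hq : q.Ok) (h : i.Ok q) : SI.Mem q.w1 (dw1 i) := (SI.neg_mem (SI.addP_mem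
    (dmu_mem hq h) (PI.add_mem h.nSp (PI.mul_mem rat_1_2 h.S))) :)

theorem dz1_mem (hq : q.Ok) (h : i.Ok q) : SI.Mem q.z1 (dz1 i) := (SI.add_mem (SI.smul_mem h.m
    h.up) (SI.smul_mem h.u (dmu_mem hq h)) :)

theorem dtp1_mem (hq : q.Ok) (h : i.Ok q) : SI.Mem q.tp1 (dtp1 i) := (SI.sub_mem (SI.subP_mem
    h.Vp (PI.add_mem rat_1_4 (PI.mul_mem rat_1_2 h.V))) (SI.add_mem (dw1_mem hq h) (dz1_mem hq
    h)) :)

theorem dtp2_mem (hq : q.Ok) (h : i.Ok q) : SI.Mem q.tp2 (dtp2 i) := (SI.subP_mem (SI.add_mem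
    (SI.add_mem (dw1_mem hq h) (dz1_mem hq h)) h.up) (PI.add_mem rat_3_4 (PI.mul_mem rat_1_2
    h.u)) :)

theorem dcd_mem (hq : q.Ok) (h : i.Ok q) : SI.Mem q.cd (dcd i) := (SI.sub_mem (SI.mul_mem
    (SI.subP_mem h.mp h.m) (SI.dif_mem rat_1_1 h.u)) (SI.smul_mem h.m h.up) :)

theorem dccp_mem (hq : q.Ok) (h : i.Ok q) : PI.Mem q.ccp (dccp i) := (PI.add_mem h.C h.nCp :)

theorem dcv_mem (hq : q.Ok) (h : i.Ok q) : SI.Mem q.cv (dcv i) := (SI.subP_mem h.Vp h.V :)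

theorem dA2_mem (hq : q.Ok) (h : i.Ok q) : PI.Mem q.A2 (dA2 i) := (PI.add_mem (PI.mul_mem h.m
    h.m) (PI.mul_mem (PI.add_mem h.m rat_1_1) (PI.add_mem h.m rat_1_1)) :)

theorem dtrQ_mem (hq : q.Ok) (h : i.Ok q) : SI.Mem q.trQ (dtrQ i) := (SI.add_mem (SI.add_mem
    (SI.add_mem (SI.addP_mem (dcd_mem hq h) (dccp_mem hq h)) (SI.smul_mem rat_1_2 (dcv_mem hq
    h))) (SI.smul_mem (PI.mul_mem rat_1_2 (dA2_mem hq h)) h.up)) (SI.smul_mem h.u (SI.add_mem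
    (SI.smul_mem h.m (dmu_mem hq h)) (SI.smul_mem (PI.add_mem h.m rat_1_1) (SI.subP_mem (dmu_mem
    hq h) rat_1_2)))) :)

theorem dLm_mem (hq : q.Ok) (h : i.Ok q) : PI.Mem q.Lm (dLm i) := (SI.ngp_mem h.L0 :)

theorem dLp_mem (hq : q.Ok) (h : i.Ok q) : PI.Mem q.Lp (dLp i) := (SI.pos_mem h.L0 :)

theorem dath1_mem (hq : q.Ok) (h : i.Ok q) : PI.Mem q.ath1 (dath1 i) := (SI.abs_mem (dth1_mem hq
    h) :)

theorem dath2_mem (hq : q.Ok) (h : i.Ok q) : PI.Mem q.ath2 (dath2 i) := (SI.abs_mem (dth2_mem hq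
    h) :)

theorem dt2_mem (hq : q.Ok) (h : i.Ok q) : PI.Mem q.t2 (dt2 i) := (PI.add_mem (PI.mul_mem
    (dath1_mem hq h) (dath1_mem hq h)) (PI.mul_mem (dath2_mem hq h) (dath2_mem hq h)) :)

theorem dquad_mem (hq : q.Ok) (h : i.Ok q) : SI.Mem q.quad (dquad i) := (SI.sub_mem (SI.Padd_mem
    (PI.mul_mem (PI.mul_mem rat_1_2 (dLm_mem hq h)) (dt2_mem hq h)) (dtrQ_mem hq h)) (SI.add_mem
    (SI.mul_mem (dth1_mem hq h) (dtp1_mem hq h)) (SI.mul_mem (dth2_mem hq h) (dtp2_mem hq h)))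
    :)

theorem dmain_mem (hq : q.Ok) (h : i.Ok q) : SI.Mem q.main (dmain i) := (SI.add_mem h.L0
    (SI.smul_mem h.ks (dquad_mem hq h)) :)

theorem daerr_mem (hq : q.Ok) (h : i.Ok q) : PI.Mem q.aerr (daerr i) := (PI.mul_mem (PI.mul_mem
    (PI.mul_mem rat_10_1 h.ks) h.ks) (PI.add_mem (SI.abs_mem h.L0) (PI.mul_mem h.ks (SI.abs_mem
    (dquad_mem hq h)))) :)

theorem datp1_mem (hq : q.Ok) (h : i.Ok q) : PI.Mem q.atp1 (datp1 i) := (SI.abs_mem (dtp1_mem hq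
    h) :)

theorem datp2_mem (hq : q.Ok) (h : i.Ok q) : PI.Mem q.atp2 (datp2 i) := (SI.abs_mem (dtp2_mem hq
    h) :)

theorem dt1n_mem (hq : q.Ok) (h : i.Ok q) : PI.Mem q.t1n (dt1n i) := (PI.mul_mem h.et
    (PI.sqrt_mem (dt2_mem hq h)) :)

theorem dt1pn_mem (hq : q.Ok) (h : i.Ok q) : PI.Mem q.t1pn (dt1pn i) := (PI.mul_mem h.et
    (PI.sqrt_mem (PI.add_mem (PI.mul_mem (datp1_mem hq h) (datp1_mem hq h)) (PI.mul_mem
    (datp2_mem hq h) (datp2_mem hq h)))) :)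

theorem dMp_mem (hq : q.Ok) (h : i.Ok q) : PI.Mem q.Mp (dMp i) := (SI.abs_mem h.mp :)

theorem dell_mem (hq : q.Ok) (h : i.Ok q) : PI.Mem q.ell (dell i) := (PI.add_mem (PI.add_mem
    rat_1_1 h.be) (dMp_mem hq h) :)

theorem dxb_mem (hq : q.Ok) (h : i.Ok q) : PI.Mem q.xb (dxb i) := (PI.nexp_mem (PI.mul_mem
    rat_809_1250 h.m) :)

theorem ds2q_mem (hq : q.Ok) (h : i.Ok q) : PI.Mem q.s2q (ds2q i) := (PI.mul_mem (PI.mul_mem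
    rat_1_12 h.sp) h.sp :)

theorem dk1_mem (hq : q.Ok) (h : i.Ok q) : PI.Mem q.k1 (dk1 i) := (PI.add_mem (PI.mul_mem
    rat_1_2 h.sp) (ds2q_mem hq h) :)

theorem dk2_mem (hq : q.Ok) (h : i.Ok q) : PI.Mem q.k2 (dk2 i) := (PI.add_mem (PI.add_mem
    rat_1_4 (PI.mul_mem rat_1_4 h.sp)) (ds2q_mem hq h) :)

theorem dk3_mem (hq : q.Ok) (h : i.Ok q) : PI.Mem q.k3 (dk3 i) := (PI.add_mem (PI.add_mem
    rat_1_9 (PI.mul_mem rat_1_6 h.sp)) (ds2q_mem hq h) :)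

theorem dk4_mem (hq : q.Ok) (h : i.Ok q) : PI.Mem q.k4 (dk4 i) := (PI.add_mem rat_1_16
    (PI.mul_mem rat_1_8 h.sp) :)

theorem drho1_mem (hq : q.Ok) (h : i.Ok q) : PI.Mem q.rho1 (drho1 i) := (PI.add_mem (dk1_mem hq
    h) (PI.mul_mem (dxb_mem hq h) (PI.add_mem (PI.mul_mem rat_2_1 (dk2_mem hq h)) (PI.mul_mem
    (dxb_mem hq h) (PI.add_mem (PI.mul_mem rat_3_1 (dk3_mem hq h)) (PI.mul_mem (dxb_mem hq h)
    (PI.add_mem (PI.mul_mem rat_4_1 (dk4_mem hq h)) (PI.mul_mem rat_1_5 (dxb_mem hq h)))))))) :)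

theorem drho2_mem (hq : q.Ok) (h : i.Ok q) : PI.Mem q.rho2 (drho2 i) := (PI.add_mem (dk1_mem hq
    h) (PI.mul_mem (dxb_mem hq h) (PI.add_mem (PI.mul_mem rat_4_1 (dk2_mem hq h)) (PI.mul_mem
    (dxb_mem hq h) (PI.add_mem (PI.mul_mem rat_9_1 (dk3_mem hq h)) (PI.mul_mem (dxb_mem hq h)
    (PI.add_mem (PI.mul_mem rat_16_1 (dk4_mem hq h)) (dxb_mem hq h))))))) :)

theorem drho3_mem (hq : q.Ok) (h : i.Ok q) : PI.Mem q.rho3 (drho3 i) := (PI.add_mem (dk1_mem hq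
    h) (PI.mul_mem (dxb_mem hq h) (PI.add_mem (PI.mul_mem rat_8_1 (dk2_mem hq h)) (PI.mul_mem
    (dxb_mem hq h) (PI.add_mem (PI.mul_mem rat_27_1 (dk3_mem hq h)) (PI.mul_mem (dxb_mem hq h)
    (PI.add_mem (PI.mul_mem rat_64_1 (dk4_mem hq h)) (PI.mul_mem rat_5_1 (dxb_mem hq h))))))))
    :)

theorem dim_mem (hq : q.Ok) (h : i.Ok q) : PI.Mem q.im (dim i) := (PI.inv1_mem h.m (side_im hq)
    :)

theorem dca_mem (hq : q.Ok) (h : i.Ok q) : SI.Mem q.ca (dca i) := (SI.add_mem (SI.smul_mem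
    rat_1_2 h.up) (SI.smul_mem h.u (SI.smul_mem (dim_mem hq h) (dmu_mem hq h))) :)

theorem dcb_mem (hq : q.Ok) (h : i.Ok q) : PI.Mem q.cb (dcb i) := (PI.mul_mem (PI.mul_mem h.u
    (dMp_mem hq h)) (dim_mem hq h) :)

theorem de4_mem (hq : q.Ok) (h : i.Ok q) : PI.Mem q.e4 (de4 i) := (PI.expS_mem (PI.mul_mem
    (PI.mul_mem rat_4_1 h.m) (PI.inv1_mem (dA2_mem hq h) (side_iA2 hq))) (side_e4 hq) :)

theorem dxAe_mem (hq : q.Ok) (h : i.Ok q) : PI.Mem q.xAe (dxAe i) := (PI.mul_mem (PI.mul_mem h.x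
    (dA2_mem hq h)) (de4_mem hq h) :)

theorem dxr_mem (hq : q.Ok) (h : i.Ok q) : PI.Mem q.xr (dxr i) := (PI.mul_mem rat_2500_441
    (dxb_mem hq h) :)

theorem drn_mem (hq : q.Ok) (h : i.Ok q) : PI.Mem q.rn (drn i) := (PI.add_mem (PI.add_mem
    rat_1_1 (ds2q_mem hq h)) (PI.mul_mem (PI.mul_mem (dxb_mem hq h) (dxb_mem hq h)) (PI.add_mem
    (PI.add_mem rat_1_1 (PI.mul_mem rat_9_1 (ds2q_mem hq h))) (PI.mul_mem (dxb_mem hq h)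
    (PI.add_mem rat_1_1 (dxb_mem hq h))))) :)

theorem dqB_mem (hq : q.Ok) (h : i.Ok q) : PI.Mem q.qB (dqB i) := (PI.mul_mem icI_mem
    (PI.add_mem (PI.add_mem (PI.mul_mem (drn_mem hq h) (PI.max_mem (PI.mul_mem rat_1_2 (dxAe_mem
    hq h)) (dxr_mem hq h))) (PI.mul_mem (PI.add_mem rat_1_4 (ds2q_mem hq h)) (PI.max_mem
    (PI.mul_mem (PI.mul_mem rat_2_1 h.x) (dxAe_mem hq h)) (PI.mul_mem (dxr_mem hq h) (dxb_mem hq
    h))))) (PI.mul_mem (PI.mul_mem (dxb_mem hq h) h.m) (PI.mul_mem (PI.mul_mem rat_1_2 h.sp)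
    (PI.add_mem rat_1_1 (PI.mul_mem (dxb_mem hq h) (PI.add_mem rat_1_1 (PI.mul_mem (dxb_mem hq
    h) (PI.add_mem rat_1_1 (dxb_mem hq h))))))))) :)

theorem dqg_mem (hq : q.Ok) (h : i.Ok q) : PI.Mem q.qg (dqg i) := (PI.mul_mem (PI.mul_mem
    rat_2_1 h.ks) h.m :)

theorem dqa_mem (hq : q.Ok) (h : i.Ok q) : PI.Mem q.qa (dqa i) := (PI.add_mem (PI.add_mem
    (PI.add_mem rat_147_10000 (dqg_mem hq h)) (PI.mul_mem rat_1_2 h.vl)) (dqB_mem hq h) :)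

theorem mkEI_ok (hq : q.Ok) (h : i.Ok q) : (mkEI i).Ok 1 q where
  h0 := zero_le_one
  h1 := le_rfl
  et := ok_one h.et
  etm := ok_one (PI.mul_mem h.et h.m)
  etmu := ok_one (PI.mul_mem h.et (SI.abs_mem (dmu_mem hq h)))
  etV := ok_one (PI.mul_mem h.et h.V)
  t1n := ok_one (dt1n_mem hq h)
  t1pn := ok_one (dt1pn_mem hq h)
  cdp := ok_one (PI.mul_mem h.et (SI.pos_mem (dcd_mem hq h)))
  cdm := ok_one (PI.mul_mem h.et (SI.ngp_mem (dcd_mem hq h)))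
  cvp := ok_one (PI.mul_mem h.et (SI.pos_mem (dcv_mem hq h)))
  cvm := ok_one (PI.mul_mem h.et (SI.ngp_mem (dcv_mem hq h)))
  Lp := ok_one (dLp_mem hq h)
  u := ok_one h.u
  Up := ok_one (SI.abs_mem h.up)
  Mp := ok_one (dMp_mem hq h)
  ell := ok_one (dell_mem hq h)
  rho1 := ok_one (drho1_mem hq h)
  rho2 := ok_one (drho2_mem hq h)
  rho3 := ok_one (drho3_mem hq h)
  S := ok_one h.S
  nSp := ok_one h.nSp
  Vpa := ok_one (SI.abs_mem h.Vp)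
  nCp := ok_one h.nCp
  C := ok_one h.C
  Lm := ok_one (dLm_mem hq h)
  ccp := ok_one (dccp_mem hq h)
  cap := ok_one (SI.pos_mem (dca_mem hq h))
  cam := ok_one (SI.ngp_mem (dca_mem hq h))
  cb := ok_one (dcb_mem hq h)
  qa := ok_one (dqa_mem hq h)

end Pool.Agent.Lib.MP_6cad4c_al
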