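import Pool.Agent.Lib.MP_6cad4c_al.StripDef
import Pool.Agent.Lib.MP_6cad4c_al.Cell

namespace Pool.Agent.Lib.MP_6cad4c_al

open Finset

theorem force_eq {α : Type} (x : ℕ) (f : ℕ → α) : force x f = f x := by
  cases x <;> rfl

theorem segSum_eq (f : ℕ → ℕ → ℕ) (a h k : ℕ) :
    segSum f a h k = ∑ i ∈ range k, f (a + i * h) (a + i * h + h) := by
  induction k with
  | zero => rfl
  | succ k ih =>
    rw [sum_range_succ, ← ih, ← force_eq (a + k * h + h) (f (a + k * h)),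
      ← force_eq (a + k * h) fun b => force (b + h) (f b)]
    rfl

theorem segAll_spec {f : ℕ → ℕ → Bool} {a h k : ℕ} (H : segAll f a h k = true) :
    ∀ i < k, f (a + i * h) (a + i * h + h) = true := by
  induction k with
  | zero => intro i hi; omega
  | succ k ih =>
    have H' : (segAll f a h k && force (a + k * h) fun b => force (b + h) (f b)) = true := H
    rw [Bool.and_eq_true, force_eq, force_eq] at H'
    intro i hi
    rcases Nat.lt_succ_iff_lt_or_eq.1 hi with h1 | rfl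
    · exact ih H'.1 i h1
    · exact H'.2

theorem dec4_mem {x : ℝ} {a b : ℕ} (h₁ : (a : ℝ) / 10000 ≤ x) (h₂ : x ≤ (b : ℝ) / 10000) :
    PI.Mem x (dec4 a b) :=
  PI.hull_mem (PI.rat_mem a 10000 (by norm_num)) (PI.rat_mem b 10000 (by norm_num))
    ⟨by exact_mod_cast h₁, by exact_mod_cast h₂⟩

theorem isqI_mem : PI.Mem (Real.sqrt (2 * cc))⁻¹ isqI := by
  refine PI.hull_mem (PI.rat_mem 551328 1000000 (by norm_num))
    (PI.rat_mem 551329 1000000 (by norm_num)) ?_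
  have h1 := Real.pi_gt_d20
  have h2 := Real.pi_lt_d20
  have h0 : 0 < Real.sqrt (2 * cc) := Real.sqrt_pos.2 (by linarith [cc_pos])
  have h3 : Real.sqrt (2 * cc) ≤ 1000000 / 551328 := by
    apply Real.sqrt_le_iff.2 ⟨by norm_num, ?_⟩
    unfold cc; nlinarith
  have h4 : 1000000 / 551329 ≤ Real.sqrt (2 * cc) := by
    apply Real.le_sqrt_of_sq_le
    unfold cc; nlinarith
  push_cast
  constructor
  · exact (le_inv_comm₀ (by norm_num) h0).2 (by simpa using h3)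
  · exact inv_le_of_inv_le₀ (by norm_num) (by simpa using h4)

theorem e3I_mem : PI.Mem (Real.exp 3) e3I := by
  have h : ((Nat.mul 3 ONE : ℕ) : ℝ) = 3 * 2 ^ 80 := by norm_num [ONE]
  exact ⟨le_expLo h.le, expHi_ge h.ge (by norm_num [ONE])⟩

theorem mkSP_ok {L : ℝ} {l₁ l₂ : ℕ} (hL : 47 / 10 ≤ L) (h₁ : (l₁ : ℝ) / 10000 ≤ L)
    (h₂ : L ≤ (l₂ : ℝ) / 10000) : (mkSP l₁ l₂).Ok L where
  hL := hL
  sg := PI.nexp_mem (dec4_mem h₁ h₂)
  et := by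
    have h := PI.mul_mem (PI.nexp_mem (PI.mul_mem rat_1_2 (dec4_mem h₁ h₂))) isqI_mem
    rw [show -(1 / 2 * L) = -L / 2 by ring, ← div_eq_mul_inv] at h
    exact h

theorem mkCP_ok {L g : ℝ} {ga gb ma mb : ℕ} (hM : 29 / 10 ≤ L + g) (h₁ : (ga : ℝ) / 10000 ≤ g + 3)
    (h₂ : g + 3 ≤ (gb : ℝ) / 10000) (h₃ : (ma : ℝ) / 10000 ≤ L + g)
    (h₄ : L + g ≤ (mb : ℝ) / 10000) : (mkCP ga gb ma mb).Ok L g where
  hM := hM
  M := dec4_mem h₃ h₄
  u0 := by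
    have h := PI.mul_mem e3I_mem (PI.nexp_mem (dec4_mem h₁ h₂))
    rw [← Real.exp_add, show 3 + -(g + 3) = -g by ring] at h
    exact h
  X0 := PI.nexp_mem (dec4_mem h₃ h₄)

theorem nmax_sub_le {a b c : ℕ} {x : ℝ} (h₁ : (a : ℝ) - b ≤ x) (h₂ : (c : ℝ) ≤ x) :
    ((nmax (Nat.sub a b) c : ℕ) : ℝ) ≤ x := by
  have h : nmax (Nat.sub a b) c = c ∨ (b ≤ a ∧ nmax (Nat.sub a b) c = a - b) := by
    simp only [nmax, Nat.add_eq, Nat.sub_eq]; omega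
  rcases h with h | ⟨h, h'⟩
  · rwa [h]
  · rwa [h', Nat.cast_sub h]

theorem le_sub_cast (a b : ℕ) : (a : ℝ) - b ≤ ((Nat.sub a b : ℕ) : ℝ) := by
  have : a ≤ Nat.sub a b + b := by simp only [Nat.sub_eq]; omega
  have : (a : ℝ) ≤ (Nat.sub a b : ℕ) + b := by exact_mod_cast this
  linarith

theorem gCell_ok {L g : ℝ} {l₁ l₂ a b : ℕ} (hM : 29 / 10 ≤ L + g) (h₁ : (l₁ : ℝ) / 10000 ≤ L)
    (h₂ : L ≤ (l₂ : ℝ) / 10000) (ha : (a : ℝ) / 10000 - 3 ≤ g) (hb : g ≤ (b : ℝ) / 10000 - 3) :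
    (gCell l₁ l₂ a b).Ok L g := by
  refine mkCP_ok hM (by linarith) (by linarith) ?_ ?_
  · rw [div_le_iff₀ (by norm_num)]
    apply nmax_sub_le
    · simp only [Nat.add_eq]; push_cast; linarith
    · push_cast; linarith
  · have := le_sub_cast (Nat.add l₂ b) 30000
    simp only [Nat.add_eq] at this ⊢
    push_cast at this
    linarith

theorem mCell_ok {L g : ℝ} {l₁ l₂ a b : ℕ} (hM : 29 / 10 ≤ L + g) (hg : -(5 / 2) ≤ g)
    (h₁ : (l₁ : ℝ) / 10000 ≤ L) (h₂ : L ≤ (l₂ : ℝ) / 10000) (ha : (a : ℝ) / 10000 - L ≤ g)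
    (hb : g ≤ (b : ℝ) / 10000 - L) : (mCell l₁ l₂ a b).Ok L g := by
  refine mkCP_ok hM ?_ ?_ (by linarith) (by linarith)
  · rw [div_le_iff₀ (by norm_num)]
    apply nmax_sub_le
    · simp only [Nat.add_eq]; push_cast; linarith
    · push_cast; linarith
  · have := le_sub_cast (Nat.add b 30000) l₁
    simp only [Nat.add_eq] at this ⊢
    push_cast at this
    linarith

/-- positive part, cut off below `g₀` -/
noncomputable def fp (L B g₀ : ℝ) : ℝ → ℝ := (Set.Ici g₀).indicator fun g => max (DD L B g) 0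

theorem fp_nonneg (L B g₀ g : ℝ) : 0 ≤ fp L B g₀ g :=
  Set.indicator_nonneg (fun _ _ => le_max_right _ _) g

theorem fp_int (L B g₀ a b : ℝ) : IntervalIntegrable (fp L B g₀) MeasureTheory.volume a b := by
  have h := ((cont_DD L B).max (continuous_const (y := (0 : ℝ)))).intervalIntegrable
    (μ := MeasureTheory.volume) a b
  exact ⟨h.1.indicator measurableSet_Ici, h.2.indicator measurableSet_Ici⟩

theorem fp_le {L B g₀ g r : ℝ} (hr : 0 ≤ r) (h : g₀ ≤ g → DD L B g ≤ r) : fp L B g₀ g ≤ r := by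
  unfold fp
  by_cases hg : g ∈ Set.Ici g₀
  · rw [Set.indicator_of_mem hg]; exact max_le (h hg) hr
  · rwa [Set.indicator_of_notMem hg]

theorem grid_nat {f : ℝ → ℝ} (hf : ∀ a b, IntervalIntegrable f MeasureTheory.volume a b)
    (o : ℝ) (a h k : ℕ) (Bd : ℕ → ℕ → ℝ)
    (hB : ∀ i < k, ∀ g, ((a + i * h : ℕ) : ℝ) / 10000 - o ≤ g →
      g ≤ ((a + i * h + h : ℕ) : ℝ) / 10000 - o → f g * 2 ^ 80 ≤ Bd (a + i * h) (a + i * h + h)) :
    (∫ g in (a : ℝ) / 10000 - o..((a + k * h : ℕ) : ℝ) / 10000 - o, f g) * (10000 * 2 ^ 80) ≤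
      h * ∑ i ∈ range k, Bd (a + i * h) (a + i * h + h) := by
  have h1 := grid_le hf ((a : ℝ) / 10000 - o) (h := (h : ℝ) / 10000) (by positivity) k
    (fun i => Bd (a + i * h) (a + i * h + h) / 2 ^ 80) (by
      intro i hi g hg
      rw [le_div_iff₀ (by positivity)]
      apply hB i hi g
      · push_cast; linarith [hg.1]
      · push_cast; linarith [hg.2])
  rw [show (a : ℝ) / 10000 - o + k * ((h : ℝ) / 10000) = ((a + k * h : ℕ) : ℝ) / 10000 - o by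
    push_cast; ring, ← sum_div] at h1
  refine le_trans (mul_le_mul_of_nonneg_right h1 (by positivity)) (le_of_eq ?_)
  field_simp

def SOk (l₁ l₂ a b p n : ℕ) : Prop :=
  ∀ L B g₀ g₁ : ℝ, Win L g₀ g₁ (eta L * B) → (l₁ : ℝ) / 10000 ≤ L → L ≤ (l₂ : ℝ) / 10000 →
    g₀ ≤ (a : ℝ) / 10000 - 3 → a ≤ b ∧
    (∫ g in (a : ℝ) / 10000 - 3..(b : ℝ) / 10000 - 3, DD L B g) * (10000 * 2 ^ 80) ≤ (p : ℝ) - n

def GOk (l₁ l₂ a b p : ℕ) : Prop :=
  ∀ L B g₀ g₁ : ℝ, Win L g₀ g₁ (eta L * B) → (l₁ : ℝ) / 10000 ≤ L → L ≤ (l₂ : ℝ) / 10000 →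
    (∫ g in (a : ℝ) / 10000 - 3..(b : ℝ) / 10000 - 3, fp L B g₀ g) * (10000 * 2 ^ 80) ≤ (p : ℝ)

def MOk (l₁ l₂ a b p : ℕ) : Prop :=
  ∀ L B g₀ g₁ : ℝ, Win L g₀ g₁ (eta L * B) → (l₁ : ℝ) / 10000 ≤ L → L ≤ (l₂ : ℝ) / 10000 →
    (∫ g in (a : ℝ) / 10000 - L..(b : ℝ) / 10000 - L, fp L B g₀ g) * (10000 * 2 ^ 80) ≤ (p : ℝ)

def StripOk (l₁ l₂ : ℕ) : Prop :=
  ∀ L B g₀ g₁ : ℝ, Win L g₀ g₁ (eta L * B) → (l₁ : ℝ) / 10000 ≤ L → L ≤ (l₂ : ℝ) / 10000 →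
    ∫ g in g₀..g₁, DD L B g ≤ -(27 / 100 * sg L)

theorem SOk.of_chk {l₁ l₂ a h k p n : ℕ} (H : chkS l₁ l₂ a h k p n = true) :
    SOk l₁ l₂ a (a + k * h) p n := by
  intro L B g₀ g₁ hW h₁ h₂ h0
  unfold chkS at H
  rw [Bool.and_eq_true, segSum_eq, segSum_eq] at H
  have hall := segAll_spec H.1
  have hle := Nat.le_of_ble_eq_true H.2
  simp only [Nat.add_eq, Nat.mul_eq] at hle
  have hle' : (h : ℝ) * ∑ i ∈ range k, (gP l₁ l₂ (a + i * h) (a + i * h + h) : ℝ) + n ≤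
      h * ∑ i ∈ range k, (gN l₁ l₂ (a + i * h) (a + i * h + h) : ℝ) + p := by exact_mod_cast hle
  have h3 := grid_nat (fun a b => (cont_DD L B).intervalIntegrable a b) 3 a h k
    (fun a b => (gP l₁ l₂ a b : ℝ) - gN l₁ l₂ a b) (by
      intro i hi g ha hb
      have : (a : ℝ) ≤ ((a + i * h : ℕ) : ℝ) := by exact_mod_cast Nat.le_add_right _ _
      exact cell_le (mkSP_ok hW.hL h₁ h₂)
        (gCell_ok (by linarith [hW.h0]) h₁ h₂ ha hb) (hall i hi) hW.hΦ hW.hΦ')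
  rw [sum_sub_distrib, mul_sub] at h3
  exact ⟨Nat.le_add_right _ _, by linarith⟩

theorem GOk.of_chk {l₁ l₂ a h k p : ℕ} (H : chkG l₁ l₂ a h k p = true) :
    GOk l₁ l₂ a (a + k * h) p := by
  intro L B g₀ g₁ hW h₁ h₂
  unfold chkG at H
  rw [Bool.and_eq_true, segSum_eq] at H
  have hall := segAll_spec H.1
  have hle := Nat.le_of_ble_eq_true H.2
  simp only [Nat.mul_eq] at hle
  have hle' : (h : ℝ) * ∑ i ∈ range k, (gP l₁ l₂ (a + i * h) (a + i * h + h) : ℝ) ≤ p := by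
    exact_mod_cast hle
  refine le_trans (grid_nat (fp_int L B g₀) 3 a h k (fun a b => (gP l₁ l₂ a b : ℝ)) ?_) hle'
  intro i hi g ha hb
  rw [← le_div_iff₀ (by positivity)]
  refine fp_le (by positivity) fun hg => ?_
  rw [le_div_iff₀ (by positivity)]
  exact (cell_le (mkSP_ok hW.hL h₁ h₂) (gCell_ok (by linarith [hW.h0]) h₁ h₂ ha hb) (hall i hi)
    hW.hΦ hW.hΦ').trans (sub_le_self _ (Nat.cast_nonneg _))

theorem MOk.of_chk {l₁ l₂ a h k p : ℕ} (H : chkM l₁ l₂ a h k p = true) :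
    MOk l₁ l₂ a (a + k * h) p := by
  intro L B g₀ g₁ hW h₁ h₂
  unfold chkM at H
  rw [Bool.and_eq_true, segSum_eq] at H
  have hall := segAll_spec H.1
  have hle := Nat.le_of_ble_eq_true H.2
  simp only [Nat.mul_eq] at hle
  have hle' : (h : ℝ) * ∑ i ∈ range k, (mP l₁ l₂ (a + i * h) (a + i * h + h) : ℝ) ≤ p := by
    exact_mod_cast hle
  refine le_trans (grid_nat (fp_int L B g₀) L a h k (fun a b => (mP l₁ l₂ a b : ℝ)) ?_) hle'
  intro i hi g ha hb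
  rw [← le_div_iff₀ (by positivity)]
  refine fp_le (by positivity) fun hg => ?_
  rw [le_div_iff₀ (by positivity)]
  exact (cell_le (mkSP_ok hW.hL h₁ h₂)
    (mCell_ok (by linarith [hW.h0]) (by linarith [hW.h0'']) h₁ h₂ ha hb) (hall i hi)
    hW.hΦ hW.hΦ').trans (sub_le_self _ (Nat.cast_nonneg _))

theorem SOk.chk {l₁ l₂ a b p n : ℕ} (h k : ℕ) (hb : b = a + k * h)
    (H : chkS l₁ l₂ a h k p n = true) : SOk l₁ l₂ a b p n := hb ▸ SOk.of_chk H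

theorem GOk.chk {l₁ l₂ a b p : ℕ} (h k : ℕ) (hb : b = a + k * h)
    (H : chkG l₁ l₂ a h k p = true) : GOk l₁ l₂ a b p := hb ▸ GOk.of_chk H

theorem MOk.chk {l₁ l₂ a b p : ℕ} (h k : ℕ) (hb : b = a + k * h)
    (H : chkM l₁ l₂ a h k p = true) : MOk l₁ l₂ a b p := hb ▸ MOk.of_chk H

theorem SOk.trans {l₁ l₂ a b c p n p' n' : ℕ} (h : SOk l₁ l₂ a b p n) (h' : SOk l₁ l₂ b c p' n') :
    SOk l₁ l₂ a c (p + p') (n + n') := by
  intro L B g₀ g₁ hW h₁ h₂ h0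
  obtain ⟨hab, h3⟩ := h L B g₀ g₁ hW h₁ h₂ h0
  have : (a : ℝ) ≤ b := by exact_mod_cast hab
  obtain ⟨hbc, h4⟩ := h' L B g₀ g₁ hW h₁ h₂ (by linarith)
  refine ⟨hab.trans hbc, ?_⟩
  rw [← intervalIntegral.integral_add_adjacent_intervals (b := (b : ℝ) / 10000 - 3)
    ((cont_DD L B).intervalIntegrable _ _) ((cont_DD L B).intervalIntegrable _ _)]
  push_cast; linarith

theorem GOk.trans {l₁ l₂ a b c p p' : ℕ} (h : GOk l₁ l₂ a b p) (h' : GOk l₁ l₂ b c p') :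
    GOk l₁ l₂ a c (p + p') := by
  intro L B g₀ g₁ hW h₁ h₂
  have h3 := h L B g₀ g₁ hW h₁ h₂
  have h4 := h' L B g₀ g₁ hW h₁ h₂
  rw [← intervalIntegral.integral_add_adjacent_intervals (b := (b : ℝ) / 10000 - 3)
    (fp_int _ _ _ _ _) (fp_int _ _ _ _ _)]
  push_cast; linarith

theorem MOk.trans {l₁ l₂ a b c p p' : ℕ} (h : MOk l₁ l₂ a b p) (h' : MOk l₁ l₂ b c p') :
    MOk l₁ l₂ a c (p + p') := by
  intro L B g₀ g₁ hW h₁ h₂
  have h3 := h L B g₀ g₁ hW h₁ h₂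
  have h4 := h' L B g₀ g₁ hW h₁ h₂
  rw [← intervalIntegral.integral_add_adjacent_intervals (b := (b : ℝ) / 10000 - L)
    (fp_int _ _ _ _ _) (fp_int _ _ _ _ _)]
  push_cast; linarith

theorem int_le_fp {L B g₀ a b a' b' : ℝ} (h0 : g₀ ≤ a) (hab : a ≤ b) (ha : a' ≤ a) (hb : b ≤ b') :
    ∫ g in a..b, DD L B g ≤ ∫ g in a'..b', fp L B g₀ g := by
  have h1 : ∫ g in a..b, DD L B g ≤ ∫ g in a..b, fp L B g₀ g := by
    apply intervalIntegral.integral_mono_on hab ((cont_DD L B).intervalIntegrable _ _)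
      (fp_int _ _ _ _ _)
    intro g hg
    unfold fp
    rw [Set.indicator_of_mem (show g ∈ Set.Ici g₀ from h0.trans hg.1)]
    exact le_max_left _ _
  exact h1.trans (intervalIntegral.integral_mono_interval ha hab hb
    (Filter.Eventually.of_forall fun g => fp_nonneg _ _ _ _) (fp_int _ _ _ _ _))

theorem strip_core {l₁ l₂ ga gb gt p₀ p₁ n₁ p₂ : ℕ}
    (hlow : ∀ L B g₀ g₁ : ℝ, Win L g₀ g₁ (eta L * B) → (l₁ : ℝ) / 10000 ≤ L →
      L ≤ (l₂ : ℝ) / 10000 → g₀ ≤ (ga : ℝ) / 10000 - 3 →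
      (∫ g in g₀..(ga : ℝ) / 10000 - 3, DD L B g) * (10000 * 2 ^ 80) ≤ p₀)
    (hS : SOk l₁ l₂ ga gb p₁ n₁) (hG : GOk l₁ l₂ gb gt p₂) (h1 : 12010 ≤ ga) (h2 : gb ≤ 280000)
    (h3 : 7 * l₂ + 240000 ≤ 2 * gt)
    (h4 : Nat.ble (100 * (p₀ + p₁ + p₂) + 270000 * (mkSP l₁ l₂).sg.hi) (100 * n₁) = true) :
    StripOk l₁ l₂ := by
  intro L B g₀ g₁ hW h₁ h₂
  have e1 : (12010 : ℝ) ≤ ga := by exact_mod_cast h1
  have e2 : (gb : ℝ) ≤ 280000 := by exact_mod_cast h2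
  have e3 : 7 * (l₂ : ℝ) + 240000 ≤ 2 * gt := by exact_mod_cast h3
  have e4 : 100 * ((p₀ : ℝ) + p₁ + p₂) + 270000 * ((mkSP l₁ l₂).sg.hi : ℝ) ≤ 100 * n₁ := by
    exact_mod_cast Nat.le_of_ble_eq_true h4
  have hL := hW.hL
  have h0 : g₀ ≤ (ga : ℝ) / 10000 - 3 := by
    rcases hW.h0' with h | h <;> linarith
  have a0 := hlow L B g₀ g₁ hW h₁ h₂ h0
  obtain ⟨hab, a1⟩ := hS L B g₀ g₁ hW h₁ h₂ h0
  have e5 : (ga : ℝ) ≤ gb := by exact_mod_cast hab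
  have a2 := hG L B g₀ g₁ hW h₁ h₂
  have a3 : ∫ g in (gb : ℝ) / 10000 - 3..g₁, DD L B g ≤
      ∫ g in (gb : ℝ) / 10000 - 3..(gt : ℝ) / 10000 - 3, fp L B g₀ g :=
    int_le_fp (by linarith) (by linarith [hW.h1]) le_rfl (by linarith [hW.h1'])
  have a4 := (mkSP_ok hL h₁ h₂).sg.2
  have hi := fun a b => (cont_DD L B).intervalIntegrable (μ := MeasureTheory.volume) a b
  rw [← intervalIntegral.integral_add_adjacent_intervals (hi _ ((ga : ℝ) / 10000 - 3)) (hi _ _),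
    ← intervalIntegral.integral_add_adjacent_intervals (hi _ ((gb : ℝ) / 10000 - 3)) (hi _ g₁)]
  have a5 := mul_le_mul_of_nonneg_right a3 (show (0 : ℝ) ≤ 10000 * 2 ^ 80 by positivity)
  apply le_of_mul_le_mul_right _ (show (0 : ℝ) < 10000 * 2 ^ 80 by positivity)
  linarith

theorem stripG {l₁ l₂ ga gb gt p₀ p₁ n₁ p₂ : ℕ} (h0 : GOk l₁ l₂ 5000 ga p₀)
    (hS : SOk l₁ l₂ ga gb p₁ n₁) (hG : GOk l₁ l₂ gb gt p₂) (h1 : 12010 ≤ ga) (h2 : gb ≤ 280000)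
    (h3 : 7 * l₂ + 240000 ≤ 2 * gt)
    (h4 : Nat.ble (100 * (p₀ + p₁ + p₂) + 270000 * (mkSP l₁ l₂).sg.hi) (100 * n₁) = true) :
    StripOk l₁ l₂ := by
  refine strip_core (fun L B g₀ g₁ hW h₁ h₂ hg => ?_) hS hG h1 h2 h3 h4
  refine le_trans (mul_le_mul_of_nonneg_right (int_le_fp le_rfl hg ?_ le_rfl) (by positivity))
    (h0 L B g₀ g₁ hW h₁ h₂)
  push_cast; linarith [hW.h0'']

theorem stripM {l₁ l₂ a b ga gb gt p₀ p₁ n₁ p₂ : ℕ} (h0 : MOk l₁ l₂ a b p₀)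
    (ha : a ≤ 29000 ∨ a + 25000 ≤ l₁) (hb : l₂ + ga ≤ b + 30000)
    (hS : SOk l₁ l₂ ga gb p₁ n₁) (hG : GOk l₁ l₂ gb gt p₂) (h1 : 12010 ≤ ga) (h2 : gb ≤ 280000)
    (h3 : 7 * l₂ + 240000 ≤ 2 * gt)
    (h4 : Nat.ble (100 * (p₀ + p₁ + p₂) + 270000 * (mkSP l₁ l₂).sg.hi) (100 * n₁) = true) :
    StripOk l₁ l₂ := by
  refine strip_core (fun L B g₀ g₁ hW h₁ h₂ hg => ?_) hS hG h1 h2 h3 h4
  have e1 : (l₂ : ℝ) + ga ≤ b + 30000 := by exact_mod_cast hb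
  refine le_trans (mul_le_mul_of_nonneg_right (int_le_fp le_rfl hg ?_ (by linarith))
    (by positivity)) (h0 L B g₀ g₁ hW h₁ h₂)
  rcases ha with ha | ha
  · have : (a : ℝ) ≤ 29000 := by exact_mod_cast ha
    linarith [hW.h0]
  · have : (a : ℝ) + 25000 ≤ l₁ := by exact_mod_cast ha
    linarith [hW.h0'']

theorem StripOk.trans {a b c : ℕ} (h : StripOk a b) (h' : StripOk b c) : StripOk a c := by
  intro L B g₀ g₁ hW h₁ h₂
  rcases le_total L ((b : ℝ) / 10000) with h3 | h3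
  · exact h L B g₀ g₁ hW h₁ h3
  · exact h' L B g₀ g₁ hW h3 h₂

end Pool.Agent.Lib.MP_6cad4c_al
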