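import Pool.Agent.Lib.MP_6cad4c_al.Prog

namespace Pool.Agent.Lib.MP_6cad4c_al

def dec4 (a b : ℕ) : PI := PI.hull (PI.rat a 10000) (PI.rat b 10000)

def isqI : PI := PI.hull (PI.rat 551328 1000000) (PI.rat 551329 1000000)

def e3I : PI := ⟨expLo (Nat.mul 3 ONE), expHi (Nat.mul 3 ONE)⟩

def mkSP (l₁ l₂ : ℕ) : SP :=
  ⟨(dec4 l₁ l₂).nexp, ((PI.rat 1 2).mul (dec4 l₁ l₂)).nexp.mul isqI⟩

/-- `g + 3 ∈ [ga, gb] / 10000`, `L + g ∈ [ma, mb] / 10000` -/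
def mkCP (ga gb ma mb : ℕ) : CP := ⟨dec4 ma mb, e3I.mul (dec4 ga gb).nexp, (dec4 ma mb).nexp⟩

def gCell (l₁ l₂ a b : ℕ) : CP :=
  mkCP a b (nmax (Nat.sub (Nat.add l₁ a) 30000) 29000) (Nat.sub (Nat.add l₂ b) 30000)

def mCell (l₁ l₂ a b : ℕ) : CP :=
  mkCP (nmax (Nat.sub (Nat.add a 30000) l₂) 5000) (Nat.sub (Nat.add b 30000) l₁) a b

noncomputable def force {α : Type} (x : ℕ) (f : ℕ → α) : α :=
  Nat.rec (motive := fun _ => α) (f 0) (fun n _ => f (Nat.succ n)) x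

noncomputable def segSum (f : ℕ → ℕ → ℕ) (a h k : ℕ) : ℕ :=
  Nat.rec (motive := fun _ => ℕ) 0
    (fun i acc => Nat.add acc (force (Nat.add a (Nat.mul i h)) fun b =>
      force (Nat.add b h) fun c => f b c)) k

noncomputable def segAll (f : ℕ → ℕ → Bool) (a h k : ℕ) : Bool :=
  Nat.rec (motive := fun _ => Bool) true
    (fun i acc => and acc (force (Nat.add a (Nat.mul i h)) fun b =>
      force (Nat.add b h) fun c => f b c)) k

noncomputable def gP (l₁ l₂ a b : ℕ) : ℕ := (cellB (mkSP l₁ l₂) (gCell l₁ l₂ a b)).p.hi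

noncomputable def gN (l₁ l₂ a b : ℕ) : ℕ := (cellB (mkSP l₁ l₂) (gCell l₁ l₂ a b)).n.lo

noncomputable def gO (l₁ l₂ a b : ℕ) : Bool := cellOk (mkSP l₁ l₂) (gCell l₁ l₂ a b)

noncomputable def mP (l₁ l₂ a b : ℕ) : ℕ := (cellB (mkSP l₁ l₂) (mCell l₁ l₂ a b)).p.hi

noncomputable def mO (l₁ l₂ a b : ℕ) : Bool := cellOk (mkSP l₁ l₂) (mCell l₁ l₂ a b)

/-- signed segment: the integral is at most `(p - n) / (10000 * 2 ^ 80)` -/
noncomputable def chkS (l₁ l₂ a h k p n : ℕ) : Bool :=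
  and (segAll (gO l₁ l₂) a h k) (Nat.ble (Nat.add (Nat.mul h (segSum (gP l₁ l₂) a h k)) n)
    (Nat.add (Nat.mul h (segSum (gN l₁ l₂) a h k)) p))

noncomputable def chkG (l₁ l₂ a h k p : ℕ) : Bool :=
  and (segAll (gO l₁ l₂) a h k) (Nat.ble (Nat.mul h (segSum (gP l₁ l₂) a h k)) p)

noncomputable def chkM (l₁ l₂ a h k p : ℕ) : Bool :=
  and (segAll (mO l₁ l₂) a h k) (Nat.ble (Nat.mul h (segSum (mP l₁ l₂) a h k)) p)

end Pool.Agent.Lib.MP_6cad4c_al
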